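/-
Project ETM (MP_c7bb65_an): cellular Markov partitions for expanding Thurston maps.
Basic definitions. The paper proof is /team-store/c7bb65_proof.md.
-/
import Mathlib
import Pool.Agent.JS.ThDefs

set_option autoImplicit false

open Set Metric Topology Filter
open Pool.JS

namespace Pool.ETM

variable {X : Type*}

/-- `U` is a connected component of `S` (the same as `FaceX Sᶜ U`) -/
def IsComp [TopologicalSpace X] (U S : Set X) : Prop := FaceX Sᶜ U

/-- the standing assumptions on `f` and on the postcritical set `P` -/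
structure Dyn [TopologicalSpace X] (f : X → X) (P : Set X) : Prop where
  cont : Continuous f
  opn : IsOpenMap f
  surj : Function.Surjective f
  fin : ∀ y, (f ⁻¹' {y}).Finite
  finP : P.Finite
  mapsP : MapsTo f P P
  cov : IsCoveringMapOn f Pᶜ

/-- the contraction properties CONTR (2.7) and UV (2.8) -/
structure Expd [MetricSpace X] (f : X → X) (P : Set X) (η₀ : ℝ) : Prop where
  pos : 0 < η₀
  contr : ∀ η : ℝ, 0 < η → ∃ m₀ : ℕ, ∀ n : ℕ, m₀ ≤ n → ∀ V : Set X, IsPreconnected V →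
    diam (f^[n] '' V) < η₀ → diam V < η
  uv : ∀ n : ℕ, ∀ V : Set X, IsPreconnected V → diam (f^[n] '' V) < η₀ → (V ∩ f^[n] ⁻¹' P).Subsingleton

/-- `U` is a Jordan domain -/
def JDom [TopologicalSpace X] (U : Set X) : Prop :=
  IsOpen U ∧ DiscX (closure U) (frontier U) U

/-- removing a point does not disconnect `G` -/
def NoCut [TopologicalSpace X] (G : Set X) : Prop :=
  ∀ x : X, IsPreconnected (G \ {x})

/-- finite plane graph (`GrX` of JS/ThDefs) without isolated vertices; so the set of its points is `⋃₀ E` -/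
structure PG [TopologicalSpace X] (V : Set X) (E : Set (Set X)) : Prop extends GrX V E where
  vert : ∀ v ∈ V, ∃ e ∈ E, v ∈ e

/-- the faces of a graph -/
def Fc [TopologicalSpace X] (E : Set (Set X)) : Set (Set X) :=
  {U | FaceX (⋃₀ E) U}

/-- good graphs: valence at most three, simple, all faces are Jordan domains -/
structure Good [TopologicalSpace X] (V : Set X) (E : Set (Set X)) : Prop where
  pg : PG V E
  ne : E.Nonempty
  val : ∀ v ∈ V, {e | e ∈ E ∧ v ∈ e}.ncard ≤ 3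
  simple : ∀ e ∈ E, ∀ e' ∈ E, e ∩ V = e' ∩ V → e = e'
  finF : (Fc E).Finite
  disc : ∀ U ∈ Fc E, JDom U

/-- the subgraph of the frontiers of the faces touching `S` -/
def MS [TopologicalSpace X] (E : Set (Set X)) (S : Set X) : Set X :=
  ⋃₀ {J | ∃ U ∈ Fc E, (closure U ∩ S).Nonempty ∧ J = frontier U}

/-- the edges of the pull back of a graph: the components of the preimages of the edges -/
def pullE [TopologicalSpace X] (f : X → X) (E : Set (Set X)) : Set (Set X) :=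
  {c | ∃ e ∈ E, IsComp c (f ⁻¹' e)}

/-- `p` is a path of the graph `E` from `a` to `b` -/
def PathG [TopologicalSpace X] (E : Set (Set X)) (p : Set X) (a b : X) : Prop :=
  ArcX p a b ∧ ∃ E' ⊆ E, p = ⋃₀ E'

/-- the set of the points of depth at least `t` (`δ` is only meaningful outside `Z`) -/
def TT (Z : Set X) (δ : X → ℝ) (t : ℝ) : Set X := Z ∪ {x | t ≤ δ x}

/-- properties of the depth function `δ` (section 4 of the paper proof) -/
structure Dep [MetricSpace X] (f : X → X) (P : Set X) (m : ℕ) (Z : Set X) (δ : X → ℝ) : Prop where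
  finZ : Z.Finite
  mapZ : MapsTo f Z Z
  per : ∀ x, ∀ j, 1 ≤ j → j < m → f^[j] x = x → x ∈ Z
  perP : ∀ x ∈ P, (∃ j, 1 ≤ j ∧ f^[j] x = x) → x ∈ Z
  perZ : ∀ x ∈ Z, ∃ j, 1 ≤ j ∧ f^[j] x = x
  nonneg : ∀ x, 0 ≤ δ x
  cont : ContinuousOn δ Zᶜ
  openT : ∀ t : ℝ, IsOpen (Z ∪ {x | t < δ x})
  step : ∀ x, x ∉ Z → 1 ≤ δ x → f x ∉ Z ∧ δ (f x) = δ x - 1
  /-- 4.3a -/
  clop : ∀ C : Set X, IsPreconnected C → (C ∩ TT Z δ 1).Nonempty → (∀ y ∈ C, f y ∈ Z ∨ 0 < δ (f y)) → C ⊆ TT Z δ 1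
  cover : ∀ n : ℕ, 1 ≤ n → TT Z δ n = ⋃ z ∈ Z, connectedComponentIn (TT Z δ n) z
  disj : ∀ n : ℕ, 1 ≤ n → ∀ z ∈ Z, ∀ z' ∈ Z, z ≠ z' →
    Disjoint (connectedComponentIn (TT Z δ n) z) (connectedComponentIn (TT Z δ n) z')
  img : ∀ n : ℕ, 1 ≤ n → ∀ z ∈ Z,
    f '' connectedComponentIn (TT Z δ (n + 1)) z ⊆ connectedComponentIn (TT Z δ n) (f z)
  compl : ∀ n : ℕ, 1 ≤ n → IsConnected (TT Z δ n)ᶜ
  shrink : ∀ r : ℝ, 0 < r → ∃ n : ℕ, 1 ≤ n ∧ ∀ z ∈ Z, diam (connectedComponentIn (TT Z δ n) z) < r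

/-- `Sep K x y`: the set `K` separates `x` and `y` -/
def SepP [TopologicalSpace X] (K : Set X) (x y : X) : Prop :=
  x ∉ K ∧ y ∉ K ∧ ¬ ConX K x y

end Pool.ETM
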