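/-
Project ETM (MP_c7bb65_an). Bridge from the library JS (finite plane graphs, modules Pg*) to the definitions of ETM/Defs.
All theorems of the modules PgA..PgO are restated here for `Pool.ETM.PG`, `Fc`, `JDom`, `NoCut`, `PathG`, `MS`.
-/
import Mathlib
import Pool.Agent.ETM.Defs
import Pool.Agent.JS.PgC
import Pool.Agent.JS.PgF
import Pool.Agent.JS.PgG
import Pool.Agent.JS.PgH
import Pool.Agent.JS.PgJ
import Pool.Agent.JS.PgK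
import Pool.Agent.JS.PgL
import Pool.Agent.JS.PgN

set_option autoImplicit false

open Set Metric Topology Filter
open Pool.JS

namespace Pool.ETM

section basic

variable {X : Type*} [TopologicalSpace X] {V W U U' G S T J p q : Set X} {E E' D : Set (Set X)} {a b c v x y : X}

theorem pg_iff : PG V E ↔ JS.PG V E :=
  ⟨fun h => ⟨h.finV, h.finE, h.arc, h.inter, h.vert⟩, fun h => ⟨⟨h.finV, h.finE, h.arc, h.inter⟩, h.vert⟩⟩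

theorem fc_eq (E : Set (Set X)) : Fc E = JS.Fc E := by
  ext U
  exact JS.mem_Fc_iff.symm

theorem mem_Fc_iff : U ∈ Fc E ↔ ∃ x, x ∉ ⋃₀ E ∧ U = connectedComponentIn (⋃₀ E)ᶜ x := by
  rw [fc_eq]
  exact Iff.rfl

theorem noCut_iff : NoCut G ↔ JS.NoCut G := Iff.rfl

theorem pathG_iff : PathG E p a b ↔ JS.PathG E p a b := Iff.rfl

theorem ms_eq (E : Set (Set X)) (S : Set X) : MS E S = MG E S := by
  unfold MS MG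
  rw [fc_eq]

theorem jdom_iff : JDom U ↔ DiscDom U :=
  ⟨fun h => h.2, fun h => ⟨h.isOpen, h⟩⟩

/-- a path or a point -/
def PathG0 (E : Set (Set X)) (p : Set X) (a b : X) : Prop := (a = b ∧ p = {a}) ∨ PathG E p a b

theorem pathG0_iff : PathG0 E p a b ↔ JS.PathG0 E p a b := Iff.rfl

/-- the face containing `x` -/
def fce (E : Set (Set X)) (x : X) : Set X := connectedComponentIn (⋃₀ E)ᶜ x

theorem fce_mem (hx : x ∉ ⋃₀ E) : fce E x ∈ Fc E := mem_Fc_iff.mpr ⟨x, hx, rfl⟩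

theorem mem_fce (hx : x ∉ ⋃₀ E) : x ∈ fce E x := mem_connectedComponentIn hx

theorem PG.subV (h : PG V E) : V ⊆ ⋃₀ E := JS.PG.subV (pg_iff.mp h)

theorem PG.carX_eq (h : PG V E) : carX V E = ⋃₀ E := JS.PG.carX_eq (pg_iff.mp h)

theorem PG.sub (h : PG V E) (hD : D ⊆ E) : PG (V ∩ ⋃₀ D) D := pg_iff.mpr (JS.PG.sub (pg_iff.mp h) hD)

theorem Fc.disj (hU : U ∈ Fc E) (hU' : U' ∈ Fc E) (h : U ≠ U') : Disjoint U U' := by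
  rw [fc_eq] at hU hU'
  exact JS.Fc.disj hU hU' h

theorem Fc.exists_mem (hx : x ∉ ⋃₀ E) : ∃ U ∈ Fc E, x ∈ U := ⟨fce E x, fce_mem hx, mem_fce hx⟩

/-- a face is the face of each of its points -/
theorem Fc.eq_fce (hU : U ∈ Fc E) (hx : x ∈ U) : U = fce E x := by
  have hx' : x ∉ ⋃₀ E := hU.sub hx
  by_contra hne
  exact Set.disjoint_left.mp (Fc.disj hU (fce_mem hx') hne) hx (mem_fce hx')

theorem JDom.isOpen (h : JDom U) : IsOpen U := h.1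

theorem JDom.isConnected (h : JDom U) : IsConnected U := DiscDom.isConnected (jdom_iff.mp h)

theorem JDom.jordan (h : JDom U) : JorX (frontier U) := DiscDom.jordan (jdom_iff.mp h)

theorem JDom.noCut (h : JDom U) : NoCut (closure U) := DiscDom.noCut (jdom_iff.mp h)

theorem PathG.symm' [T2Space X] (hp : PathG E p a b) : PathG E p b a := JS.PathG.symm hp

theorem PathG.mono' [T2Space X] (hp : PathG E p a b) (hE : E ⊆ E') : PathG E' p a b := JS.PathG.mono hp hE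

theorem PathG.trans' [T2Space X] (hp : PathG E p a b) (hq : PathG E q b c) (hpq : p ∩ q = {b}) :
    PathG E (p ∪ q) a c := JS.PathG.trans hp hq hpq

end basic

section t2

variable {X : Type*} [TopologicalSpace X] [T2Space X] {V W U U' G S T J p q C e e' : Set X} {E E' D A : Set (Set X)}
  {a b c v u x y : X}

theorem PG.isClosed_sUnion (h : PG V E) (hD : D ⊆ E) : IsClosed (⋃₀ D) := JS.PG.isClosed_sUnion (pg_iff.mp h) hD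

theorem PG.isClosed (h : PG V E) : IsClosed (⋃₀ E) := h.isClosed_sUnion subset_rfl

theorem _root_.Pool.JS.JorX.noCut' (h : JorX J) : NoCut J := JS.JorX.noCut h

theorem PG.mem_of_point (h : PG V E) (he : e ∈ E) (hD : D ⊆ E) (hx : x ∈ e) (hxV : x ∉ V) (hxD : x ∈ ⋃₀ D) : e ∈ D :=
  JS.PG.mem_of_point (pg_iff.mp h) he hD hx hxV hxD

theorem PG.mem_of_sub (h : PG V E) (he : e ∈ E) (hD : D ⊆ E) (hs : e ⊆ ⋃₀ D) : e ∈ D :=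
  JS.PG.mem_of_sub (pg_iff.mp h) he hD hs

theorem PG.sUnion_inj (h : PG V E) (hD : D ⊆ E) (hE' : E' ⊆ E) (he : ⋃₀ D = ⋃₀ E') : D = E' :=
  JS.PG.sUnion_inj (pg_iff.mp h) hD hE' he

theorem PG.inner_sub (h : PG V E) (hC : IsPreconnected C) (hCs : C ⊆ ⋃₀ E \ V) (he : e ∈ E) (hx : x ∈ C) (hxe : x ∈ e) :
    C ⊆ e := JS.PG.inner_sub (pg_iff.mp h) hC hCs he hx hxe

theorem PG.edge_sub (h : PG V E) (h' : PG V E') (hs : ⋃₀ E = ⋃₀ E') (he : e ∈ E) (he' : e' ∈ E') (hx : x ∈ e)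
    (hx' : x ∈ e') (hxV : x ∉ V) : e ⊆ e' := JS.PG.edge_sub (pg_iff.mp h) (pg_iff.mp h') hs he he' hx hx' hxV

theorem PG.unique (h : PG V E) (h' : PG V E') (hs : ⋃₀ E = ⋃₀ E') : E = E' :=
  JS.PG.unique (pg_iff.mp h) (pg_iff.mp h') hs

theorem PG.edge_sub_jordan (h : PG V E) (hJ : JorX J) (hs : J ⊆ ⋃₀ E) (he : e ∈ E) (hx : x ∈ J) (hxe : x ∈ e)
    (hxV : x ∉ V) : e ⊆ J := JS.PG.edge_sub_jordan (pg_iff.mp h) hJ hs he hx hxe hxV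

theorem PG.jordan_edges (h : PG V E) (hJ : JorX J) (hs : J ⊆ ⋃₀ E) : ∃ E' ⊆ E, J = ⋃₀ E' :=
  JS.PG.jordan_edges (pg_iff.mp h) hJ hs

theorem PG.end_mem (h : PG V E) (hp : PathG E p a b) : a ∈ V ∧ b ∈ V := JS.PG.end_mem (pg_iff.mp h) hp

theorem PG.end_edge (h : PG V E) (hD : D ⊆ E) (hp : ArcX (⋃₀ D) a b) : ∃ e ∈ D, a ∈ e ∧ ∀ e' ∈ D, a ∈ e' → e' = e :=
  JS.PG.end_edge (pg_iff.mp h) hD hp

theorem PG.cut (h : PG V E) (hp : PathG E p a b) (hc : c ∈ V) (hcp : c ∈ p) (hca : c ≠ a) (hcb : c ≠ b) :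
    ∃ p₁ p₂ : Set X, PathG E p₁ a c ∧ PathG E p₂ c b ∧ p₁ ∪ p₂ = p ∧ p₁ ∩ p₂ = {c} :=
  JS.PG.cut (pg_iff.mp h) hp hc hcp hca hcb

theorem PG.trim (h : PG V E) (hp : PathG E p a b) (hS : ∀ e ∈ E, e ⊆ S ∨ e ∩ S ⊆ V) (hT : ∀ e ∈ E, e ⊆ T ∨ e ∩ T ⊆ V)
    (ha : a ∈ S) (hb : b ∈ T) (hST : Disjoint S T) :
    ∃ s t : X, ∃ p' ⊆ p, PathG E p' s t ∧ p' ∩ S = {s} ∧ p' ∩ T = {t} :=
  JS.PG.trim (pg_iff.mp h) hp hS hT ha hb hST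

theorem PG.jordan_two (h : PG V E) (hD : D ⊆ E) (hJ : JorX (⋃₀ D)) (hv : v ∈ V) (hvD : v ∈ ⋃₀ D) :
    {e ∈ D | v ∈ e}.ncard = 2 := JS.PG.jordan_two (pg_iff.mp h) hD hJ hv hvD

theorem PG.path (h : PG V E) (hA : A ⊆ E) (hc : IsPreconnected (⋃₀ A)) (hu : u ∈ V) (hv : v ∈ V) (huA : u ∈ ⋃₀ A)
    (hvA : v ∈ ⋃₀ A) (huv : u ≠ v) : ∃ p, PathG A p u v := JS.PG.path (pg_iff.mp h) hA hc hu hv huA hvA huv

theorem PG.path_between (h : PG V E) (hA : A ⊆ E) (hc : IsPreconnected (⋃₀ A)) (hS : ∀ e ∈ A, e ⊆ S ∨ e ∩ S ⊆ V)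
    (hT : ∀ e ∈ A, e ⊆ T ∨ e ∩ T ⊆ V) (hSn : (S ∩ V ∩ ⋃₀ A).Nonempty) (hTn : (T ∩ V ∩ ⋃₀ A).Nonempty)
    (hST : Disjoint S T) : ∃ s t : X, ∃ p, PathG A p s t ∧ p ∩ S = {s} ∧ p ∩ T = {t} :=
  JS.PG.path_between (pg_iff.mp h) hA hc hS hT hSn hTn hST

theorem PG.menger {S T : Set (Set X)} (h : PG V E) (hn : NoCut (⋃₀ E)) (hS : S ⊆ E) (hSn : S.Nonempty) (hT : T ⊆ E)
    (hTn : T.Nonempty) (hST : Disjoint (⋃₀ S) (⋃₀ T)) :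
    ∃ s s' t t' : X, ∃ p p' : Set X, PathG E p s t ∧ PathG E p' s' t' ∧ Disjoint p p' ∧
      p ∩ ⋃₀ S = {s} ∧ p ∩ ⋃₀ T = {t} ∧ p' ∩ ⋃₀ S = {s'} ∧ p' ∩ ⋃₀ T = {t'} :=
  JS.PG.menger (pg_iff.mp h) hn hS hSn hT hTn hST

theorem PG.tripod (h : PG V E) (hA : A ⊆ E) (hc : IsPreconnected (⋃₀ A)) (q : Fin 3 → X) (hq : ∀ j, q j ∈ V ∧ q j ∈ ⋃₀ A) :
    ∃ c ∈ V, c ∈ ⋃₀ A ∧ ∃ p : Fin 3 → Set X, (∀ j, PathG0 A (p j) c (q j)) ∧ ∀ i j, i ≠ j → p i ∩ p j = {c} :=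
  JS.PG.tripod (pg_iff.mp h) hA hc q hq

/-- `n + 2` sets in cyclic order -/
theorem noCut_cycle {n : ℕ} (N : Fin (n + 2) → Set X) (q : Fin (n + 2) → X) (hqi : Function.Injective q)
    (hq1 : ∀ j, q j ∈ N j) (hq2 : ∀ j, q j ∈ N (j + 1))
    (hN : ∀ j, NoCut (N j) ∨ (ArcX (N j) (q (j - 1)) (q j) ∧ ∀ i, i ≠ j → i ≠ j - 1 → q i ∉ N j))
    (hd : ∀ i j, i ≠ j → ¬ NoCut (N i) → ¬ NoCut (N j) → N i ∩ N j ⊆ range q) : NoCut (⋃ j, N j) :=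
  JS.noCut_cycle N q hqi hq1 hq2 hN hd

end t2

section sph

variable {X : Type*} [TopologicalSpace X] [CompactSpace X] [T2Space X] [Sph X]
  {V W U U' G S T J p q C e e' U₀ χ : Set X} {E E' D A 𝒰 : Set (Set X)} {a b c v u x y : X}

theorem Fc.isOpen (h : PG V E) (hU : U ∈ Fc E) : IsOpen U := by
  rw [fc_eq] at hU
  exact JS.Fc.isOpen (pg_iff.mp h) hU

theorem Fc.frontier_sub (h : PG V E) (hU : U ∈ Fc E) : frontier U ⊆ ⋃₀ E := by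
  rw [fc_eq] at hU
  exact JS.Fc.frontier_sub (pg_iff.mp h) hU

theorem PG.faces (h : PG V E) (hE : E.Nonempty) (hn : NoCut (⋃₀ E)) :
    (Fc E).Finite ∧ (∀ U ∈ Fc E, JDom U ∧ ∃ D ⊆ E, frontier U = ⋃₀ D) ∧
    (∀ e ∈ E, ∃ U₁ ∈ Fc E, ∃ U₂ ∈ Fc E, U₁ ≠ U₂ ∧ e ⊆ frontier U₁ ∧ e ⊆ frontier U₂ ∧
      ∀ U ∈ Fc E, e ⊆ frontier U → U = U₁ ∨ U = U₂) := by
  obtain ⟨h1, h2, h3⟩ := JS.PG.faces (pg_iff.mp h) hE hn
  rw [fc_eq]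
  exact ⟨h1, fun U hU => ⟨jdom_iff.mpr (h2 U hU).1, (h2 U hU).2⟩, h3⟩

private theorem dd (hd : ∀ U ∈ Fc E, JDom U) : ∀ U ∈ JS.Fc E, DiscDom U := by
  intro U hU
  rw [← fc_eq] at hU
  exact jdom_iff.mp (hd U hU)

theorem PG.interior_eq (h : PG V E) : interior (⋃₀ E) = ∅ := JS.PG.interior_eq (pg_iff.mp h)

theorem PG.finite_discs (h : PG V E) (hd : ∀ U ∈ Fc E, JDom U) : (Fc E).Finite := by
  rw [fc_eq]
  exact JS.PG.finite_discs (pg_iff.mp h) (dd hd)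

theorem PG.cover (h : PG V E) (hd : ∀ U ∈ Fc E, JDom U) (x : X) : ∃ U ∈ Fc E, x ∈ closure U := by
  rw [fc_eq]
  exact JS.PG.cover (pg_iff.mp h) (dd hd) x

theorem PG.mem_frontier (h : PG V E) (hd : ∀ U ∈ Fc E, JDom U) {x : X} (hx : x ∈ ⋃₀ E) :
    ∃ U ∈ Fc E, x ∈ frontier U := by
  rw [fc_eq]
  exact JS.PG.mem_frontier (pg_iff.mp h) (dd hd) hx

theorem PG.disc_cover (h : PG V E) (hd : ∀ U ∈ Fc E, JDom U) (hU : JDom U₀) (hs : frontier U₀ ⊆ ⋃₀ E) {x : X}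
    (hx : x ∈ closure U₀) : ∃ U ∈ Fc E, U ⊆ U₀ ∧ x ∈ closure U := by
  rw [fc_eq]
  exact JS.PG.disc_cover (pg_iff.mp h) (dd hd) (jdom_iff.mp hU) hs hx

theorem noCut_of_discs (h : PG V E) (hd : ∀ U ∈ Fc E, JDom U) : NoCut (⋃₀ E) :=
  JS.noCut_of_discs (pg_iff.mp h) (dd hd)

theorem noCut_inter (h : PG V E) (hd : ∀ U ∈ Fc E, JDom U) (hU : JDom U₀) (hs : frontier U₀ ⊆ ⋃₀ E) :
    NoCut (⋃₀ E ∩ closure U₀) := JS.noCut_inter (pg_iff.mp h) (dd hd) (jdom_iff.mp hU) hs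

theorem PG.frontier_edges (h : PG V E) (hU : U ∈ Fc E) (hd : JDom U) : ∃ D ⊆ E, frontier U = ⋃₀ D := by
  rw [fc_eq] at hU
  exact JS.PG.frontier_edges (pg_iff.mp h) hU (jdom_iff.mp hd)

theorem PG.common_edge (h : PG V E) (hd : ∀ U ∈ Fc E, JDom U) (h3 : ∀ v ∈ V, {e | e ∈ E ∧ v ∈ e}.ncard ≤ 3)
    (hU : U ∈ Fc E) (hU' : U' ∈ Fc E) (hne : U ≠ U') (hI : (closure U ∩ closure U').Nonempty) :
    ∃ e ∈ E, e ⊆ frontier U ∧ e ⊆ frontier U' := by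
  rw [fc_eq] at hU hU'
  exact JS.PG.common_edge (pg_iff.mp h) (dd hd) h3 hU hU' hne hI

theorem PG.MS_edges (h : PG V E) (hd : ∀ U ∈ Fc E, JDom U) : ∃ D ⊆ E, MS E S = ⋃₀ D := by
  rw [ms_eq]
  exact JS.PG.MG_edges (pg_iff.mp h) (dd hd)

theorem PG.sub_MS (h : PG V E) (hd : ∀ U ∈ Fc E, JDom U) : S ∩ ⋃₀ E ⊆ MS E S := by
  rw [ms_eq]
  exact JS.PG.sub_MG (pg_iff.mp h) (dd hd)

theorem PG.MS_connected (h : PG V E) (hd : ∀ U ∈ Fc E, JDom U) (hS : IsPreconnected S) : IsPreconnected (MS E S) := by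
  rw [ms_eq]
  exact JS.PG.MG_connected (pg_iff.mp h) (dd hd) hS

theorem PG.noCut_comp (h : PG V E) (hd : ∀ U ∈ Fc E, JDom U) (h3 : ∀ v ∈ V, {e | e ∈ E ∧ v ∈ e}.ncard ≤ 3)
    (h𝒰 : 𝒰 ⊆ Fc E) (ha : a ∈ ⋃ U ∈ 𝒰, closure U) :
    NoCut (⋃₀ {F | ∃ U ∈ 𝒰, closure U ⊆ connectedComponentIn (⋃ U ∈ 𝒰, closure U) a ∧ F = frontier U}) := by
  rw [fc_eq] at h𝒰
  exact JS.PG.noCut_comp (pg_iff.mp h) (dd hd) h3 h𝒰 ha

theorem PG.subdiv (h : PG V E) (hW : W.Finite) (hWE : W ⊆ ⋃₀ E) :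
    ∃ E', PG (V ∪ W) E' ∧ ⋃₀ E' = ⋃₀ E ∧ ∀ e' ∈ E', ∃ e ∈ E, e' ⊆ e := by
  obtain ⟨E', h1, h2, h3⟩ := JS.PG.subdiv (pg_iff.mp h) hW hWE
  exact ⟨E', pg_iff.mpr h1, h2, h3⟩

theorem PG.add_ear (h : PG V E) (ha : a ∈ V) (hb : b ∈ V) (hχ : ArcX χ a b) (hi : χ ∩ ⋃₀ E = {a, b}) :
    PG V (insert χ E) := pg_iff.mpr (JS.PG.add_ear (pg_iff.mp h) ha hb hχ hi)

theorem PG.faces_ear (h : PG V E) (hU : U ∈ Fc E) (hd : JDom U) (hχ : ArcX χ a b) (hi : χ ∩ ⋃₀ E = {a, b})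
    (hχU : χ \ {a, b} ⊆ U) :
    ∃ U₁ U₂ : Set X, JDom U₁ ∧ JDom U₂ ∧ Disjoint U₁ U₂ ∧ U₁ ∪ U₂ = U \ χ ∧
      closure U₁ ⊆ closure U ∧ closure U₂ ⊆ closure U ∧ χ ⊆ frontier U₁ ∧ χ ⊆ frontier U₂ ∧
      Fc (insert χ E) = (Fc E \ {U}) ∪ {U₁, U₂} := by
  rw [fc_eq] at hU
  obtain ⟨U₁, U₂, h1, h2, h3, h4, h5, h6, h7, h8, h9⟩ := JS.PG.faces_ear (pg_iff.mp h) hU (jdom_iff.mp hd) hχ hi hχU
  rw [fc_eq, fc_eq]
  exact ⟨U₁, U₂, jdom_iff.mpr h1, jdom_iff.mpr h2, h3, h4, h5, h6, h7, h8, h9⟩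

end sph

end Pool.ETM
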