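/-
Project ETM (MP_c7bb65_an). The context: everything which is fixed before the splice (sections 3, 4, 5, 6 of the paper proof
/team-store/c7bb65_proof.md).

`Ctx X` is the data, `Ctx.Ok` are the properties. Blocks N0 (network), Z (depth), MK (markers) prove that a context exists;
blocks SP, ST, FL, SH, SEP only use `Ctx.Ok`.
Colours are `i < c.nc` (numbered from 0), the level of colour `i` is `c.lev i = c.k0 + 2 * c.m * i`.
-/
import Mathlib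
import Pool.Agent.ETM.Defs

set_option autoImplicit false

open Set Metric Topology Filter
open Pool.JS

namespace Pool.ETM

/-- the data fixed before the splice -/
structure Ctx (X : Type*) where
  /-- the map -/
  f : X → X
  /-- the postcritical set -/
  P : Set X
  /-- the number eta_0 of section 2 -/
  η : ℝ
  /-- vertices of the level `k` network -/
  V : ℕ → Set X
  /-- edges of the level `k` network -/
  E : ℕ → Set (Set X)
  /-- the neighbourhood of an edge of level `k` -/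
  D : ℕ → Set X → Set X
  /-- the coordinate of level 0 -/
  q : X → ℂ
  /-- the number m of 3.3 -/
  m : ℕ
  /-- the fine scale of 3.2 (rho = 20 epsilon) -/
  ε : ℝ
  /-- the length of the edges of level 0 -/
  s : ℝ
  /-- the periodic points of small period and the periodic points of `P` -/
  Z : Set X
  /-- the depth function (only meaningful outside `Z`) -/
  δ : X → ℝ
  /-- the number of colours -/
  nc : ℕ
  /-- the marker functions -/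
  a : ℕ → X → ℝ
  w : ℝ
  nb : ℕ
  /-- the number N of 5.1 -/
  NN : ℕ
  /-- the pseudo orbit constant of 5.6 -/
  ε₁ : ℝ
  /-- the base level -/
  k0 : ℕ
  /-- the number n_c of section 6 -/
  n0 : ℕ

namespace Ctx

variable {X : Type*}

/-- the coordinate of level `k` -/
def Q (c : Ctx X) (k : ℕ) (x : X) : ℂ := c.q (c.f^[k] x)

/-- the closed `r`-neighbourhood of the edge `θ` of level `k` -/
def nh (c : Ctx X) (k : ℕ) (θ : Set X) (r : ℝ) : Set X :=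
  {x | x ∈ c.D k θ ∧ infDist (c.Q k x) (c.Q k '' θ) ≤ r}

/-- the open ball of level `k` around the vertex `v` -/
def B (c : Ctx X) (k : ℕ) (v : X) (r : ℝ) : Set X :=
  {x | ∃ θ ∈ c.E k, v ∈ θ ∧ x ∈ c.D k θ ∧ ‖c.Q k x - c.Q k v‖ < r}

/-- closed faces of level `k` -/
def Face [TopologicalSpace X] (c : Ctx X) (k : ℕ) : Set (Set X) :=
  {F | ∃ U ∈ Fc (c.E k), F = closure U}

/-- the star of a set at level `k` -/
def St [TopologicalSpace X] (c : Ctx X) (k : ℕ) (S : Set X) : Set X :=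
  ⋃₀ {F | F ∈ c.Face k ∧ (F ∩ S).Nonempty}

/-- the union of the neighbourhoods of the edges contained in `S` -/
def DSt (c : Ctx X) (k : ℕ) (S : Set X) : Set X :=
  S ∪ ⋃₀ {D | ∃ θ ∈ c.E k, θ ⊆ S ∧ D = c.D k θ}

/-- the level of the colour `i` -/
def lev (c : Ctx X) (i : ℕ) : ℕ := c.k0 + 2 * c.m * i

/-- the level of the holes -/
def kT (c : Ctx X) : ℕ := c.k0 + 2 * c.m * c.nc

/-- the depth of the holes -/
def nhole (c : Ctx X) : ℕ := c.kT + c.n0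

/-- the set of the points of depth at least `t` -/
def T (c : Ctx X) (t : ℝ) : Set X := TT c.Z c.δ t

/-- the hole around `z` -/
def Tz [TopologicalSpace X] (c : Ctx X) (n : ℕ) (z : X) : Set X := connectedComponentIn (c.T n) z

/-- the closed region of colour `i` -/
def A [TopologicalSpace X] (c : Ctx X) (i : ℕ) : Set X :=
  ⋃₀ {F | F ∈ c.Face (c.lev i) ∧ ∃ x ∈ F, c.w / 4 ≤ c.a i x}

def OT [TopologicalSpace X] (c : Ctx X) : Set X := interior (c.T c.nhole)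

/-- the union of all the coarse regions -/
def OO [TopologicalSpace X] (c : Ctx X) : Set X := (⋃ i < c.nc, interior (c.A i)) ∪ c.OT

/-- the closed outer region -/
def So [TopologicalSpace X] (c : Ctx X) : Set X := (c.OO)ᶜ

open Classical in
/-- the level attached to a point of `OO` -/
noncomputable def levAt [TopologicalSpace X] (c : Ctx X) (y : X) : ℕ :=
  if y ∈ c.OT then c.kT else c.lev (sInf {i | i < c.nc ∧ y ∈ interior (c.A i)})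

/-- the hitting time of `OO` -/
noncomputable def tt [TopologicalSpace X] (c : Ctx X) (x : X) : ℕ := sInf {t | c.f^[t] x ∈ c.OO}

/-- the level function -/
noncomputable def L [TopologicalSpace X] (c : Ctx X) (x : X) : ℕ := c.tt x + c.levAt (c.f^[c.tt x] x)

noncomputable def L1 [TopologicalSpace X] (c : Ctx X) (x : X) : ℕ := 1 + c.L (c.f x)

/-- properties of the networks (section 3) -/
structure NetOk [MetricSpace X] (c : Ctx X) : Prop where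
  εpos : 0 < c.ε
  sε : 400 * c.ε ≤ c.s
  mpos : 1 ≤ c.m
  /-- all level networks are good graphs -/
  good : ∀ k, Good (c.V k) (c.E k)
  avoid : ∀ k, Disjoint (⋃₀ c.E k) (c.f^[k] ⁻¹' c.P)
  /-- 3.1a: third stars are small -/
  star : ∀ k, ∀ F ∈ c.Face k, diam (c.f^[k] '' c.DSt k (c.St k (c.St k F))) < c.η
  Dopen : ∀ k, ∀ θ ∈ c.E k, IsOpen (c.D k θ)
  Dsub : ∀ k, ∀ θ ∈ c.E k, θ ⊆ c.D k θ
  Dsc : ∀ k, ∀ θ ∈ c.E k, IsSimplyConnected (c.D k θ)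
  Davoid : ∀ k, ∀ θ ∈ c.E k, Disjoint (c.D k θ) (c.f^[k] ⁻¹' c.P)
  Ddiam : ∀ k, ∀ θ ∈ c.E k, diam (c.f^[k] '' c.D k θ) < c.η
  /-- the coordinate is a homeomorphism of `D k θ` onto the open `20 ε`-neighbourhood of a segment of length `s` -/
  Qcont : ∀ k, ∀ θ ∈ c.E k, ContinuousOn (c.Q k) (c.D k θ)
  Qinj : ∀ k, ∀ θ ∈ c.E k, InjOn (c.Q k) (c.D k θ)
  Qimg : ∀ k, ∀ θ ∈ c.E k, c.Q k '' c.D k θ = thickening (20 * c.ε) (c.Q k '' θ)
  Qinv : ∀ k, ∀ θ ∈ c.E k, ∃ g : ℂ → X, ContinuousOn g (thickening (20 * c.ε) (c.Q k '' θ)) ∧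
    ∀ x ∈ c.D k θ, g (c.Q k x) = x
  Qseg : ∀ k, ∀ θ ∈ c.E k, ∀ v ∈ c.V k, ∀ v' ∈ c.V k, v ≠ v' → v ∈ θ → v' ∈ θ →
    c.Q k '' θ = segment ℝ (c.Q k v) (c.Q k v') ∧ ‖c.Q k v - c.Q k v'‖ = c.s
  /-- 3.3 -/
  contr : ∀ n ≥ c.m, ∀ C : Set X, IsPreconnected C → diam (c.f^[n] '' C) < c.η → diam C < c.η / 10
  /-- 3.3 and 7.1 -/
  small : ∀ k, ∀ θ ∈ c.E k, ∀ n ≥ k + c.m, ∀ C : Set X, IsPreconnected C → (C ∩ c.nh k θ (10 * c.ε)).Nonempty →
    diam (c.f^[n] '' C) < c.η → C ⊆ c.D k θ ∧ ∀ x ∈ C, ∀ y ∈ C, ‖c.Q k x - c.Q k y‖ < c.ε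
  /-- LPk (b') -/
  two : ∀ k, ∀ θ ∈ c.E k, ∀ θ' ∈ c.E k, θ ≠ θ' → ∀ r : ℝ, r ≤ 10 * c.ε → ∀ z ∈ c.nh k θ r ∩ c.nh k θ' r,
    ∃ v ∈ c.V k, v ∈ θ ∧ v ∈ θ' ∧ ‖c.Q k z - c.Q k v‖ ≤ 3 / 2 * r
  /-- the balls around the vertices -/
  ball : ∀ k, ∀ θ ∈ c.E k, ∀ v ∈ c.V k, v ∈ θ →
    c.B k v (20 * c.ε) = {x | x ∈ c.D k θ ∧ ‖c.Q k x - c.Q k v‖ < 20 * c.ε}
  /-- LPk (a): faces near an edge -/
  third : ∀ k, ∀ θ ∈ c.E k, ∀ F ∈ c.Face k, ∀ x ∈ F ∩ c.D k θ, θ ⊆ F ∨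
    ∃ v ∈ c.V k, v ∈ θ ∧ v ∈ F ∧ ‖c.Q k x - c.Q k v‖ ≤ infDist (c.Q k x) (c.Q k '' θ) ∧
      JoinedIn (F ∩ c.B k v (20 * c.ε)) x v

/-- properties of the depth function (section 4) -/
structure DepthOk [MetricSpace X] (c : Ctx X) : Prop where
  dep : Dep c.f c.P c.m c.Z c.δ
  small : ∀ z ∈ c.Z, diam (c.Tz c.n0 z) < c.η / 2
  n0pos : 1 ≤ c.n0

/-- properties of the markers (section 5) and the choice of `k0` (section 6) -/
structure MarkOk [MetricSpace X] (c : Ctx X) : Prop where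
  cont : ∀ i < c.nc, Continuous (c.a i)
  wpos : 0 < c.w
  wle : c.w ≤ 1 / 8
  ncpos : 1 ≤ c.nc
  nbpos : 2 ≤ c.nb
  /-- (M1) -/
  m1 : ∀ i < c.nc, ∀ j < c.nc, ∀ x, ∀ t : ℕ, 0 < c.a i x → 0 < c.a j (c.f^[t] x) → (1 ≤ t ∨ i ≠ j) →
    2 * c.m * i + c.m ≤ 2 * c.m * j + t
  depth : ∀ i < c.nc, ∀ x, 0 < c.a i x → x ∉ c.Z ∧ c.δ x < c.nb + 1
  /-- (M2)(i) -/
  m2a : ∀ x, ∃ t ≤ c.NN, (∃ i < c.nc, c.w / 2 ≤ c.a i (c.f^[t] x)) ∨ c.f^[t] x ∈ c.Z ∨ (c.nb : ℝ) + 1 ≤ c.δ (c.f^[t] x)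
  /-- (M2)(ii) -/
  m2b : ∀ x, x ∉ c.Z → (c.nb : ℝ) + 3 / 4 ≤ c.δ x → ∃ t : ℕ, (t : ℝ) ≤ c.δ x ∧ (∃ i < c.nc, 1 / 4 ≤ c.a i (c.f^[t] x)) ∧
    ∀ t' ≤ t, c.f^[t'] x ∉ c.Z ∧ c.δ (c.f^[t'] x) = c.δ x - t'
  ε₁pos : 0 < c.ε₁
  /-- 5.6, first part -/
  ps1 : ∀ x : ℕ → X, (∀ j < c.NN, dist (c.f (x j)) (x (j + 1)) < c.ε₁) →
    ∃ j ≤ c.NN, (∃ i < c.nc, c.w / 3 < c.a i (x j)) ∨ x j ∈ c.Z ∨ (c.nb : ℝ) + 3 / 4 < c.δ (x j)
  /-- 5.6, second part -/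
  ps2 : ∀ x : ℕ → X, (∀ j < c.nb + 3, dist (c.f (x j)) (x (j + 1)) < c.ε₁) → x 0 ∉ c.Z →
    (c.nb : ℝ) + 3 / 4 ≤ c.δ (x 0) → c.δ (x 0) ≤ (c.nb : ℝ) + 2 → ∃ j ≤ c.nb + 3, ∃ i < c.nc, c.w / 3 < c.a i (x j)
  /-- the choice of `k0` -/
  k0big : c.nb + c.m + 10 ≤ c.k0
  /-- sets which are small at a level at least `k0` are tiny -/
  osca : ∀ n ≥ c.k0, ∀ C : Set X, IsPreconnected C → diam (c.f^[n] '' C) < c.η → ∀ x ∈ C, ∀ y ∈ C,
    ∀ i < c.nc, |c.a i x - c.a i y| < c.w / 1000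
  oscd : ∀ n ≥ c.k0, ∀ C : Set X, IsPreconnected C → diam (c.f^[n] '' C) < c.η → ∀ x ∈ C, ∀ y ∈ C,
    x ∉ c.Z → c.δ x ≤ c.nb + 4 → y ∉ c.Z ∧ |c.δ x - c.δ y| < 1 / 1000
  /-- two small sets with a common point: the image moves by less than `ε₁` -/
  oscf : ∀ n ≥ c.k0, ∀ n' ≥ c.k0, ∀ C C' : Set X, IsPreconnected C → IsPreconnected C' → (C ∩ C').Nonempty →
    diam (c.f^[n] '' C) < c.η → diam (c.f^[n'] '' C') < c.η → ∀ x ∈ C, ∀ y ∈ C', dist (c.f x) (c.f y) < c.ε₁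

/-- all the properties of the context -/
structure Ok [MetricSpace X] (c : Ctx X) : Prop where
  dyn : Dyn c.f c.P
  expd : Expd c.f c.P c.η
  net : c.NetOk
  dep : c.DepthOk
  mark : c.MarkOk

/-- interior edges of the colour `i` -/
def Eint [TopologicalSpace X] (c : Ctx X) (i : ℕ) : Set (Set X) :=
  {θ | θ ∈ c.E (c.lev i) ∧ ∀ F ∈ c.Face (c.lev i), θ ⊆ F → F ⊆ c.A i}

/-- interior vertices of the colour `i` -/
def Vint [TopologicalSpace X] (c : Ctx X) (i : ℕ) : Set X := c.V (c.lev i) ∩ interior (c.A i)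

/-- boundary vertices of the colour `i` -/
def Vbd [TopologicalSpace X] (c : Ctx X) (i : ℕ) : Set X := (c.V (c.lev i) ∩ c.A i) \ interior (c.A i)

/-- `(V, E)` is admissible for the level function `ℓ` -/
structure Adm [MetricSpace X] (c : Ctx X) (ℓ : X → ℕ) (V : Set X) (E : Set (Set X)) : Prop where
  good : Good V E
  avoid : Disjoint (⋃₀ E) c.P
  fi : ∀ U ∈ Fc E, ∀ x ∈ closure U, diam (c.f^[ℓ x] '' U) < c.η

end Ctx

end Pool.ETM
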