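/-
Project ETM (MP_c7bb65_an), block LE (section 2 of the paper proof /team-store/c7bb65_proof.md): definitions.
-/
import Mathlib
import Pool.Agent.ETM.Defs

set_option autoImplicit false

open Set Metric Topology Filter
open Pool.JS

namespace Pool.ETM

variable {X : Type*} [TopologicalSpace X]

/-- the local form of a branched covering at `x`: in suitable coordinates centred at `x` and `f x` the map is `z ↦ z ^ d`, `1 ≤ d` -/
def LocPow (f : X → X) (x : X) : Prop :=
  ∃ (d : ℕ) (φ ψ : OpenPartialHomeomorph X ℂ), 1 ≤ d ∧ x ∈ φ.source ∧ φ x = 0 ∧ f x ∈ ψ.source ∧ ψ (f x) = 0 ∧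
    ∀ y ∈ φ.source, f y ∈ ψ.source ∧ ψ (f y) = φ y ^ d

/-- branched coverings -/
def Branched (f : X → X) : Prop := Continuous f ∧ ∀ x, LocPow f x

/-- critical points: `f` is not injective on any neighbourhood -/
def crit (f : X → X) : Set X := {x | ∀ W ∈ 𝓝 x, ¬ InjOn f W}

/-- the postcritical set -/
def post (f : X → X) : Set X := {y | ∃ n : ℕ, 1 ≤ n ∧ ∃ x ∈ crit f, f^[n] x = y}

/-- the closed tiles of `g` for the curve `C` -/
def Tiles (C : Set X) (g : X → X) : Set (Set X) := {T | ∃ W, IsComp W (g ⁻¹' C)ᶜ ∧ T = closure W}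

/-- the open flower of `p`: the complement of the curve `C`, the point `p` and the adjacent open arcs of `C \ P` -/
def wset (C P : Set X) (p : X) : Set X := Cᶜ ∪ ({p} ∪ ⋃₀ {e | IsComp e (C \ P) ∧ p ∈ closure e})

/-- pull back of the edges of a graph with vertex set `V` if the vertices may be in `P`: closures of the components of the
preimages of the open edges -/
def pullO (f : X → X) (V : Set X) (E : Set (Set X)) : Set (Set X) :=
  {c | ∃ e ∈ E, ∃ W, IsComp W (f ⁻¹' (e \ V)) ∧ c = closure W}

end Pool.ETM
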