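import Mathlib
import Pool.Agent.ETM.LeDefs

set_option autoImplicit false

/-!
MODULE LeA (difficulty 3).  Branched coverings are open, have finite fibres and are onto.

RECIPE.  `isOpenMap`: `IsOpenMap` is local: it is enough that for every `x` the images of small open sets around `x` are neighbourhoods of `f x` (`isOpenMap_iff_nhds_le`).  With the local form: for `W ∈ 𝓝 x`, `φ '' (W ∩ φ.source)` is a neighbourhood of `0` in `ℂ`
(`OpenPartialHomeomorph.image_mem_nhds` or `map_nhds_eq`), the map `z ↦ z ^ d` (`1 ≤ d`) maps neighbourhoods of `0` to neighbourhoods of `0` (`ball 0 (r ^ d) ⊆ (· ^ d) '' ball 0 r`: every complex number has a `d`-th root, `IsAlgClosed.exists_pow_nat_eq`, and the norm of the root is the real root), and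
`f (W ∩ φ.source) = ψ.symm ((φ '' ..) ^ d)`: if `z` is close to `0`, `z = ψ (f y)` with `y ∈ W ∩ φ.source`, so `f y = ψ.symm z`; `ψ.symm` maps neighbourhoods of `0 = ψ (f x)` to neighbourhoods of `f x`.
`finite_fib`: the fibre is closed (`f` continuous, T1), hence compact, and discrete: if `f y = f x` and `y ∈ φ.source` then `φ y ^ d = ψ (f y) = 0`, so `φ y = 0 = φ x`, `y = x` (`φ.injOn`).  A compact set all of whose points have a neighbourhood which meets it in one point is finite
(`IsCompact.finite` with `DiscreteTopology`, or `IsCompact.elim_nhds_subcover`).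
`surjective`: `range f` is open, and compact hence closed, so it is empty or everything (`IsClopen.eq_univ` in a preconnected space; if `X` is empty there is nothing to prove).
-/

open Set Metric Topology Filter
open Pool.JS

namespace Pool.ETM

variable {X : Type*} [TopologicalSpace X] {f : X → X}

theorem lea_pow {d : ℕ} (hd : 1 ≤ d) : 𝓝 (0 : ℂ) ≤ map (fun z : ℂ => z ^ d) (𝓝 0) := by
  intro W hW
  obtain ⟨r, hr, hrW⟩ := Metric.mem_nhds_iff.1 (mem_map.1 hW)
  refine Metric.mem_nhds_iff.2 ⟨r ^ d, by positivity, ?_⟩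
  intro w hw
  rw [mem_ball, dist_zero_right] at hw
  obtain ⟨z, rfl⟩ := IsAlgClosed.exists_pow_nat_eq w (by omega : 0 < d)
  rw [norm_pow] at hw
  have h1 : ‖z‖ < r := lt_of_pow_lt_pow_left₀ d hr.le hw
  exact hrW (show z ∈ ball (0 : ℂ) r by rw [mem_ball, dist_zero_right]; exact h1)

theorem Branched.isOpenMap (h : Branched f) : IsOpenMap f := by
  rw [isOpenMap_iff_nhds_le]
  intro x
  obtain ⟨d, φ, ψ, hd, hx, hx0, hfx, hfx0, hloc⟩ := h.2 x
  have h1 : f =ᶠ[𝓝 x] fun y => ψ.symm ((φ y) ^ d) := by
    filter_upwards [φ.open_source.mem_nhds hx] with y hy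
    rw [← (hloc y hy).2, ψ.left_inv (hloc y hy).1]
  have h2 : map f (𝓝 x) = map ψ.symm (map (fun z : ℂ => z ^ d) (map φ (𝓝 x))) := by
    rw [Filter.map_congr h1, Filter.map_map, Filter.map_map]
    rfl
  have h3 : map ψ.symm (𝓝 0) = 𝓝 (f x) := by
    have h4 := ψ.symm.map_nhds_eq (x := ψ (f x)) (ψ.map_source hfx)
    rw [ψ.left_inv hfx, hfx0] at h4
    exact h4
  rw [h2, φ.map_nhds_eq hx, hx0, ← h3]
  exact map_mono (lea_pow hd)

theorem Branched.finite_fib [CompactSpace X] [T1Space X] (h : Branched f) (y : X) : (f ⁻¹' {y}).Finite := by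
  classical
  have hK : IsCompact (f ⁻¹' {y}) := (isClosed_singleton.preimage h.1).isCompact
  have h1 : ∀ x : X, ∃ U ∈ 𝓝 x, ∀ z ∈ U, f z = f x → z = x := by
    intro x
    obtain ⟨d, φ, ψ, hd, hx, hx0, hfx, hfx0, hloc⟩ := h.2 x
    refine ⟨φ.source, φ.open_source.mem_nhds hx, ?_⟩
    intro z hz hzx
    have h2 := (hloc z hz).2
    rw [hzx, hfx0] at h2
    have h3 : φ z = 0 := by
      have h4 := h2.symm
      exact (pow_eq_zero_iff (by omega)).1 h4
    exact φ.injOn hz hx (h3.trans hx0.symm)
  choose U hU hU2 using h1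
  obtain ⟨T, hT1, hT2⟩ := hK.elim_nhds_subcover U fun x _ => hU x
  refine T.finite_toSet.subset ?_
  intro z hz
  obtain ⟨x, hx, hzx⟩ := mem_iUnion₂.1 (hT2 hz)
  have h3 : f x = y := hT1 x hx
  have h4 : f z = y := hz
  rw [hU2 x z hzx (h4.trans h3.symm)]
  exact hx

theorem Branched.surjective [CompactSpace X] [T2Space X] [PreconnectedSpace X] (h : Branched f) :
    Function.Surjective f := by
  intro y
  have h1 : IsClopen (range f) := ⟨(isCompact_range h.1).isClosed, h.isOpenMap.isOpen_range⟩
  have h2 : range f = univ := h1.eq_univ ⟨f y, mem_range_self y⟩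
  have h3 : y ∈ range f := by
    rw [h2]
    exact mem_univ y
  exact h3

end Pool.ETM
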