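import Mathlib
import Pool.Agent.ETM.LeDefs
import Pool.Agent.ETM.LeA

set_option autoImplicit false

/-!
MODULE LeB (difficulty 3).  The structure `Dyn`: from local injectivity, iterates, branched coverings.

RECIPE.  `of_locInj`: the field `cov` is `IsClosedMap.isCoveringMapOn_of_isLocalHomeomorphOn` (`f` is closed: `Continuous.isClosedMap`; finite fibres): `f` is a local homeomorphism at every `x` with `f x ∉ P`: take an open `W ∋ x` on which `f` is injective and the `OpenPartialHomeomorph` of `f` on `W`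
(`OpenPartialHomeomorph.ofContinuousOpenRestrict` or `ofContinuousOpen` : `f` is continuous, open and injective on the open set `W`).
`locInj`: `h.cov` gives `IsLocalHomeomorphOn f (f ⁻¹' Pᶜ)` (`IsCoveringMapOn.isLocalHomeomorphOn`), the source of the partial homeomorphism at `x`.
`iterate`: `of_locInj` with `Function.iterate_succ`; finite fibres: `(f^[n+1]) ⁻¹' {y} = ⋃ z ∈ f^[n] ⁻¹' {y}, f ⁻¹' {z}` or the other order, induction; local injectivity at `x` with `f^[n] x ∉ P`: for `j ≤ n` also `f^[j] x ∉ P` (`mapsP`), so by induction `f^[n]` is injective near `x` and `f` is injective near `f^[n] x`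
(compose, preimage of the neighbourhood).
`dyn`: `of_locInj`; if `f x ∉ post f` then `x ∉ crit f` (`n = 1`).
-/

open Set Metric Topology Filter
open Pool.JS

namespace Pool.ETM

variable {X : Type*} [TopologicalSpace X] [CompactSpace X] [T2Space X] {f : X → X} {P : Set X}

theorem Dyn.of_locInj (hc : Continuous f) (ho : IsOpenMap f) (hs : Function.Surjective f)
    (hfin : ∀ y, (f ⁻¹' {y}).Finite) (hP : P.Finite) (hm : MapsTo f P P)
    (hi : ∀ x, f x ∉ P → ∃ W ∈ 𝓝 x, InjOn f W) : Dyn f P := by
  refine ⟨hc, ho, hs, hfin, hP, hm, ?_⟩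
  refine IsCoveringMapOn.of_isLocalHomeomorphOn hc ?_
  intro x hx
  obtain ⟨W, hW, hinj⟩ := hi x hx
  have hxW : x ∈ interior W := mem_interior_iff_mem_nhds.2 hW
  have hinj' : InjOn f (interior W) := hinj.mono interior_subset
  haveI : Nonempty X := ⟨x⟩
  refine ⟨OpenPartialHomeomorph.ofContinuousOpen (hinj'.toPartialEquiv f (interior W)) hc.continuousOn ho isOpen_interior, ?_, ?_⟩
  · exact hxW
  · rfl

theorem Dyn.locInj (h : Dyn f P) {x : X} (hx : f x ∉ P) : ∃ W : Set X, IsOpen W ∧ x ∈ W ∧ InjOn f W := by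
  obtain ⟨e, hxe, hfe⟩ := h.cov.isLocalHomeomorphOn x hx
  refine ⟨e.source, e.open_source, hxe, ?_⟩
  rw [hfe]
  exact e.injOn

theorem Dyn.isClosedMap (h : Dyn f P) : IsClosedMap f := h.cont.isClosedMap

theorem Dyn.iterate (h : Dyn f P) (n : ℕ) : Dyn f^[n] P := by
  induction n with
  | zero =>
    refine Dyn.of_locInj continuous_id IsOpenMap.id Function.surjective_id (fun y => ?_) h.finP (fun x hx => hx) ?_
    · simp
    · intro x _
      exact ⟨univ, univ_mem, Function.injective_id.injOn⟩
  | succ n ih =>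
    rw [Function.iterate_succ]
    refine Dyn.of_locInj (ih.cont.comp h.cont) (ih.opn.comp h.opn) (ih.surj.comp h.surj) (fun y => ?_) h.finP
      (ih.mapsP.comp h.mapsP) ?_
    · have : (f^[n] ∘ f) ⁻¹' {y} = ⋃ z ∈ f^[n] ⁻¹' {y}, f ⁻¹' {z} := by
        ext x
        simp
      rw [this]
      exact (ih.fin y).biUnion (fun z _ => h.fin z)
    · intro x hx
      have hfx : f x ∉ P := by
        intro hfx
        exact hx (h.mapsP.iterate n hfx)
      obtain ⟨W, hWo, hxW, hW⟩ := h.locInj hfx
      obtain ⟨V, hVo, hxV, hV⟩ := ih.locInj (x := f x) hx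
      refine ⟨W ∩ f ⁻¹' V, Filter.inter_mem (hWo.mem_nhds hxW) (h.cont.continuousAt.preimage_mem_nhds (hVo.mem_nhds hxV)), ?_⟩
      intro a ha b hb hab
      exact hW ha.1 hb.1 (hV ha.2 hb.2 hab)

theorem Branched.dyn [PreconnectedSpace X] (h : Branched f) (hP : (post f).Finite) : Dyn f (post f) := by
  refine Dyn.of_locInj h.1 h.isOpenMap h.surjective h.finite_fib hP ?_ ?_
  · rintro y ⟨n, hn, x, hx, rfl⟩
    refine ⟨n + 1, by omega, x, hx, ?_⟩
    rw [Function.iterate_succ_apply']
  · intro x hx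
    by_contra hcon
    push Not at hcon
    exact hx ⟨1, le_rfl, x, hcon, rfl⟩

end Pool.ETM
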