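import Mathlib
import Pool.Agent.ETM.LeDefs
import Pool.Agent.JS.SpA
import Pool.Agent.JS.SpA

set_option autoImplicit false

/-!
MODULE LeC (difficulty 3).  Basic facts about a topological two-sphere `X` (charts `Chart x σ` of module JS/SpA: `σ : ℂ → X` is an open embedding with range `{x}ᶜ`; `exists_chart`).

RECIPE.  `sph_pre`: if `X` is empty it is clear.  `{x}ᶜ = range σ` is preconnected; `X = {x}ᶜ ∪ {y}ᶜ` for two points `x ≠ y` (`y = σ 0`), and these two sets have the common point `z ∉ {x, y}` (`σ 1` or so).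
`sph_lpc`: `LocallyPathConnectedSpace.of_bases` or: every point `y` lies in the range of a chart `σ` at some `x ≠ y`, `σ` is an open embedding of a locally path connected space.  (`LocallyConnectedSpace X` follows by the instance of Mathlib.)
`exists_disc`: a chart `σ` at some `x' ≠ x`, `x = σ z`; `σ ⁻¹' W ∈ 𝓝 z` contains `closedBall z r`, `r > 0`; `B = σ '' ball z r`.  `closure B = σ '' closedBall z r` (`⊇` by continuity, `⊆` since the right hand side is compact), `frontier B = σ '' sphere z r` (`B` is open, `σ` injective), so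
`DiscX (closure B) (frontier B) B` with `Φ w = σ (z + r * w)`.  `IsSimplyConnected B`: `(convex_ball z r)` is simply connected (contractible) and `Topology.IsEmbedding.isSimplyConnected_image` or similar (see `Mathlib/AlgebraicTopology/FundamentalGroupoid/SimplyConnected.lean`, lines 137-170).
`B \ {x} = σ '' (ball z r \ {z})` is preconnected: `ball z r \ {z}` is the image of `{w | 0 < w.re < r} ..` or of the product `Ioo 0 r × ℝ` under `(t, θ) ↦ z + t exp (θ I)`.
`sph_infinite`: take `B ⊆ U` as above, an infinite set (`ball z r` is infinite, `σ` injective).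
`diff_finite`: induction on the finite set; one point `y ∈ U`: suppose `U \ {y} ⊆ A ∪ B'` with `A, B'` open and both meet `U \ {y}`; take a disc `B ⊆ U` around `y` with `B \ {y}` preconnected; if `(U \ {y}) ∩ A ∩ B' = ∅` then `B \ {y}` is contained in `A` or in `B'`, say `A`; then `U ∩ (A ∪ B)` and `(U \ {y}) ∩ B'` are open,
disjoint, nonempty and cover `U`: contradiction with the preconnectedness of `U`.
`sc_compl`: `{x}ᶜ` is homeomorphic to `ℂ` (`Sph.plane`), which is contractible, hence simply connected (`Homeomorph.contractibleSpace`, `SimplyConnectedSpace.ofContractible`).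
-/

open Set Metric Topology Filter
open Pool.JS

namespace Pool.ETM

variable {X : Type*} [TopologicalSpace X] [CompactSpace X] [T2Space X] [Sph X]

omit [CompactSpace X] in
private lemma lec_univ_pre : IsPreconnected (univ : Set X) := by
  rcases isEmpty_or_nonempty X with hX | ⟨⟨x⟩⟩
  · intro u v _ _ _ h1 _
    obtain ⟨a, -, -⟩ := h1
    exact (hX.false a).elim
  · obtain ⟨σ, hσ⟩ := exists_chart x
    obtain ⟨τ, hτ⟩ := exists_chart (σ 0)
    have h1 : IsPreconnected (({x} : Set X)ᶜ) := by
      rw [← hσ.range]; exact isPreconnected_range hσ.emb.continuous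
    have h2 : IsPreconnected (({σ 0} : Set X)ᶜ) := by
      rw [← hτ.range]; exact isPreconnected_range hτ.emb.continuous
    have hne : ∀ z, σ z ≠ x := fun z hz => by
      have : σ z ∈ ({x} : Set X)ᶜ := by rw [← hσ.range]; exact mem_range_self z
      exact this hz
    have h3 : IsPreconnected ((({x} : Set X)ᶜ) ∪ (({σ 0} : Set X)ᶜ)) := by
      apply IsPreconnected.union (σ 1) _ _ h1 h2
      · exact hne 1
      · intro h
        have := hσ.emb.injective h
        norm_num at this
    have h4 : (({x} : Set X)ᶜ) ∪ (({σ 0} : Set X)ᶜ) = univ := by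
      ext y
      simp only [mem_union, mem_compl_iff, mem_singleton_iff, mem_univ, iff_true]
      by_contra hcon
      push Not at hcon
      exact hne 0 (hcon.2.symm.trans hcon.1)
    rwa [h4] at h3

instance sph_pre : PreconnectedSpace X := ⟨lec_univ_pre⟩

omit [CompactSpace X] in
/-- charts cover -/
private lemma lec_cover (y : X) : ∃ (x : X) (σ : ℂ → X) (z : ℂ), Chart x σ ∧ σ z = y := by
  obtain ⟨τ, hτ⟩ := exists_chart y
  have hne : y ≠ τ 0 := fun h => by
    have : τ 0 ∈ ({y} : Set X)ᶜ := by rw [← hτ.range]; exact mem_range_self 0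
    exact this h.symm
  obtain ⟨σ, hσ⟩ := exists_chart (τ 0)
  obtain ⟨z, hz⟩ := hσ.exists_eq hne
  exact ⟨_, σ, z, hσ, hz⟩

omit [CompactSpace X] in
private lemma lec_ball {y : X} {W : Set X} (hW : W ∈ 𝓝 y) :
    ∃ (x : X) (σ : ℂ → X) (z : ℂ) (r : ℝ), Chart x σ ∧ σ z = y ∧ 0 < r ∧ σ '' closedBall z r ⊆ W := by
  obtain ⟨x, σ, z, hσ, hz⟩ := lec_cover y
  have h1 : σ ⁻¹' W ∈ 𝓝 z := hσ.emb.continuous.continuousAt (by rw [hz]; exact hW)
  obtain ⟨r, hr, h2⟩ := Metric.nhds_basis_closedBall.mem_iff.mp h1
  exact ⟨x, σ, z, r, hσ, hz, hr, image_subset_iff.mpr h2⟩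

instance sph_lpc : LocallyPathConnectedSpace X := by
  constructor
  intro y
  rw [hasBasis_self]
  intro W hW
  obtain ⟨x, σ, z, r, hσ, hz, hr, hsub⟩ := lec_ball hW
  refine ⟨σ '' ball z r, ?_, ?_, ?_⟩
  · rw [← hz]
    exact hσ.emb.isOpenMap.image_mem_nhds (ball_mem_nhds z hr)
  · exact ((convex_ball z r).isPathConnected ⟨z, mem_ball_self hr⟩).image hσ.emb.continuous
  · exact (image_mono ball_subset_closedBall).trans hsub

private lemma lec_punct (z : ℂ) (r : ℝ) : IsPreconnected (ball z r \ {z}) := by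
  have h : ball z r \ {z} = (fun p : ℝ × ℝ => z + (p.1 : ℂ) * Complex.exp ((p.2 : ℂ) * Complex.I)) ''
      (Ioo 0 r ×ˢ (univ : Set ℝ)) := by
    ext w
    simp only [mem_diff, mem_ball, mem_singleton_iff, mem_image, mem_prod, mem_Ioo, mem_univ, and_true, Prod.exists]
    constructor
    · rintro ⟨h1, h2⟩
      refine ⟨‖w - z‖, Complex.arg (w - z), ⟨norm_pos_iff.mpr (sub_ne_zero.mpr h2), by rwa [← dist_eq_norm]⟩, ?_⟩
      rw [Complex.norm_mul_exp_arg_mul_I]; ring
    · rintro ⟨t, θ, ⟨h1, h2⟩, rfl⟩
      have hn : ‖Complex.exp ((θ : ℂ) * Complex.I)‖ = 1 := Complex.norm_exp_ofReal_mul_I θ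
      refine ⟨?_, ?_⟩
      · rw [dist_eq_norm, add_sub_cancel_left, norm_mul, hn, mul_one, Complex.norm_real, Real.norm_eq_abs,
          abs_of_pos h1]
        exact h2
      · intro h
        have h3 : (t : ℂ) * Complex.exp ((θ : ℂ) * Complex.I) = 0 := by
          have := congrArg (fun u => u - z) h
          simpa using this
        rcases mul_eq_zero.mp h3 with h4 | h4
        · exact h1.ne' (by exact_mod_cast h4)
        · exact Complex.exp_ne_zero _ h4
  rw [h]
  apply IsPreconnected.image
  · exact isPreconnected_Ioo.prod isPreconnected_univ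
  · exact Continuous.continuousOn (by fun_prop)

theorem exists_disc {x : X} {W : Set X} (hW : W ∈ 𝓝 x) :
    ∃ B : Set X, x ∈ B ∧ closure B ⊆ W ∧ JDom B ∧ IsSimplyConnected B ∧ IsPreconnected (B \ {x}) := by
  obtain ⟨x', σ, z, r, hσ, hz, hr, hsub⟩ := lec_ball hW
  have hcont := hσ.emb.continuous
  have hinj := hσ.emb.injective
  have hcl : closure (σ '' ball z r) = σ '' closedBall z r := by
    apply Subset.antisymm
    · apply closure_minimal (image_mono ball_subset_closedBall)
      exact ((isCompact_closedBall z r).image hcont).isClosed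
    · rw [← closure_ball z hr.ne']
      exact image_closure_subset_closure_image hcont
  have hop : IsOpen (σ '' ball z r) := hσ.emb.isOpenMap _ isOpen_ball
  have hfr : frontier (σ '' ball z r) = σ '' sphere z r := by
    rw [hop.frontier_eq, hcl, ← image_diff hinj, closedBall_diff_ball]
  have hΦ : ∀ s : Set ℂ, (fun w : ℂ => σ (z + r * w)) '' s = σ '' ((fun w : ℂ => z + r * w) '' s) := by
    intro s; rw [image_image]
  have hrc : (r : ℂ) ≠ 0 := by exact_mod_cast hr.ne'
  have hnorm : ∀ w : ℂ, dist (z + r * w) z = r * ‖w‖ := by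
    intro w
    rw [dist_eq_norm, add_sub_cancel_left, norm_mul, Complex.norm_real, Real.norm_eq_abs, abs_of_pos hr]
  have hback : ∀ v : ℂ, z + r * ((v - z) / r) = v := by
    intro v; field_simp; ring
  have hbackn : ∀ v : ℂ, r * ‖(v - z) / r‖ = dist v z := by
    intro v; rw [← hnorm, hback]
  have e1 : (fun w : ℂ => z + r * w) '' closedBall 0 1 = closedBall z r := by
    ext v
    simp only [mem_image, mem_closedBall, dist_zero_right]
    constructor
    · rintro ⟨w, hw, rfl⟩
      rw [hnorm]; nlinarith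
    · intro hv
      refine ⟨(v - z) / r, ?_, hback v⟩
      have := hbackn v
      by_contra hcon
      push Not at hcon
      nlinarith
  have e2 : (fun w : ℂ => z + r * w) '' sphere 0 1 = sphere z r := by
    ext v
    simp only [mem_image, mem_sphere, dist_zero_right]
    constructor
    · rintro ⟨w, hw, rfl⟩
      rw [hnorm, hw, mul_one]
    · intro hv
      refine ⟨(v - z) / r, ?_, hback v⟩
      have := hbackn v
      rw [hv] at this
      exact mul_left_cancel₀ hr.ne' (by rw [this, mul_one])
  have e3 : (fun w : ℂ => z + r * w) '' ball 0 1 = ball z r := by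
    ext v
    simp only [mem_image, mem_ball, dist_zero_right]
    constructor
    · rintro ⟨w, hw, rfl⟩
      rw [hnorm]; nlinarith
    · intro hv
      refine ⟨(v - z) / r, ?_, hback v⟩
      have := hbackn v
      by_contra hcon
      push Not at hcon
      nlinarith
  refine ⟨σ '' ball z r, ⟨z, mem_ball_self hr, hz⟩, by rw [hcl]; exact hsub, ⟨hop, ?_⟩, ?_, ?_⟩
  · refine ⟨fun w => σ (z + r * w), ?_, ?_, ?_, ?_, ?_⟩
    · exact (hcont.comp (by fun_prop)).continuousOn
    · intro a _ b _ hab
      have := hinj hab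
      have h2 : (r : ℂ) * a = r * b := add_left_cancel this
      exact mul_left_cancel₀ hrc h2
    · rw [hΦ, e1, hcl]
    · rw [hΦ, e2, hfr]
    · rw [hΦ, e3]
  · rw [hσ.emb.isEmbedding.isSimplyConnected_image]
    haveI : ContractibleSpace (ball z r) := (convex_ball z r).contractibleSpace ⟨z, mem_ball_self hr⟩
    exact SimplyConnectedSpace.ofContractible _
  · have : σ '' ball z r \ {x} = σ '' (ball z r \ {z}) := by
      rw [image_diff hinj, image_singleton, hz]
    rw [this]
    exact (lec_punct z r).image _ hcont.continuousOn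

theorem sph_infinite {U : Set X} (hU : IsOpen U) (hne : U.Nonempty) : U.Infinite := by
  obtain ⟨y, hy⟩ := hne
  obtain ⟨x', σ, z, r, hσ, hz, hr, hsub⟩ := lec_ball (hU.mem_nhds hy)
  apply Infinite.mono hsub
  apply Infinite.image hσ.emb.injective.injOn
  have : (ball z r).Infinite := by
    have h1 : (ball z r).Nonempty := ⟨z, mem_ball_self hr⟩
    exact infinite_of_mem_nhds z (ball_mem_nhds z hr)
  exact this.mono ball_subset_closedBall

private lemma lec_diff_one {U : Set X} (hU : IsOpen U) (hc : IsPreconnected U) (y : X) :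
    IsPreconnected (U \ {y}) := by
  by_cases hy : y ∈ U
  swap
  · rwa [diff_singleton_eq_self hy]
  obtain ⟨B, hyB, hBU, hJ, -, hB⟩ := exists_disc (hU.mem_nhds hy)
  have hBo : IsOpen B := hJ.1
  have hBU' : B ⊆ U := subset_closure.trans hBU
  have key : ∀ A A' : Set X, IsOpen A → IsOpen A' → U \ {y} ⊆ A ∪ A' → ((U \ {y}) ∩ A).Nonempty →
      ((U \ {y}) ∩ A').Nonempty → ¬ ((U \ {y}) ∩ (A ∩ A')).Nonempty → B \ {y} ⊆ A → False := by
    intro A A' hA hA' hcov hA1 hA2 hemp hBA
    have h1 := hc (U ∩ (A ∪ B)) ((U \ {y}) ∩ A') (hU.inter (hA.union hBo))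
      ((hU.sdiff isClosed_singleton).inter hA') ?_ ?_ ?_
    · obtain ⟨w, hwU, ⟨-, hw1⟩, hw2, hw3⟩ := h1
      apply hemp
      refine ⟨w, hw2, ?_, hw3⟩
      rcases hw1 with hw1 | hw1
      · exact hw1
      · exact hBA ⟨hw1, hw2.2⟩
    · intro w hw
      by_cases hwy : w = y
      · left; exact ⟨hw, Or.inr (hwy ▸ hyB)⟩
      · rcases hcov ⟨hw, hwy⟩ with h | h
        · left; exact ⟨hw, Or.inl h⟩
        · right; exact ⟨⟨hw, hwy⟩, h⟩
    · obtain ⟨w, hw, hwA⟩ := hA1
      exact ⟨w, hw.1, hw.1, Or.inl hwA⟩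
    · obtain ⟨w, hw, hwA⟩ := hA2
      exact ⟨w, hw.1, hw, hwA⟩
  intro A A' hA hA' hcov hA1 hA2
  by_contra hemp
  -- the punctured disc lies in one of the two sets
  have hsub : B \ {y} ⊆ U \ {y} := diff_subset_diff_left hBU'
  have hdich : B \ {y} ⊆ A ∨ B \ {y} ⊆ A' := by
    by_contra hcon
    push Not at hcon
    obtain ⟨h1, h2⟩ := hcon
    obtain ⟨a, ha, haA⟩ := not_subset.mp h1
    obtain ⟨b, hb, hbA⟩ := not_subset.mp h2
    have haA' : a ∈ A' := (hcov (hsub ha)).resolve_left haA
    have hbA' : b ∈ A := (hcov (hsub hb)).resolve_right hbA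
    obtain ⟨w, hw, hw2⟩ := hB A A' hA hA' (hsub.trans hcov) ⟨b, hb, hbA'⟩ ⟨a, ha, haA'⟩
    exact hemp ⟨w, hsub hw, hw2⟩
  rcases hdich with h | h
  · exact key A A' hA hA' hcov hA1 hA2 hemp h
  · refine key A' A hA' hA (by rwa [union_comm]) hA2 hA1 ?_ h
    rwa [inter_comm A' A]

theorem sph_diff_finite {U F : Set X} (hU : IsOpen U) (hc : IsPreconnected U) (hF : F.Finite) :
    IsPreconnected (U \ F) := by
  induction F, hF using Set.Finite.induction_on with
  | empty => simpa using hc
  | insert ha hF ih =>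
    rename_i a S
    have h1 : U \ insert a S = (U \ S) \ {a} := by
      ext w; simp only [mem_diff, mem_insert_iff, mem_singleton_iff]; tauto
    rw [h1]
    exact lec_diff_one (hU.sdiff hF.isClosed) ih a

theorem sph_sc_compl (x : X) : IsSimplyConnected ({x}ᶜ : Set X) := by
  obtain ⟨e⟩ := Sph.plane x
  haveI : ContractibleSpace (({x} : Set X)ᶜ : Set X) := e.contractibleSpace
  exact SimplyConnectedSpace.ofContractible _

end Pool.ETM
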