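import Mathlib
import Pool.Agent.ETM.LeDefs

set_option autoImplicit false

/-!
MODULE LeD (difficulty 2).  Components: `IsComp U S` (`U` is a connected component of `S`; by definition `FaceX Sᶜ U`, a structure with the fields `ne`, `conn`, `sub : U ⊆ Sᶜᶜ`, `max`).

RECIPE.  `isComp_cc`: `isPreconnected_connectedComponentIn`, `connectedComponentIn_subset`, `IsPreconnected.subset_connectedComponentIn` (if `C` is preconnected, `C ⊆ S` and `C` meets the component in `y`, then `connectedComponentIn S y = connectedComponentIn S x` by `connectedComponentIn_eq`).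
`eq_cc`: `max` and the maximality of `connectedComponentIn`.  `isOpen`: `IsOpen.connectedComponentIn`.  `closure_inter`: for `y ∈ closure U ∩ S` the set `insert y U` is preconnected (`IsPreconnected.subset_closure`), contained in `S`, so `⊆ U` by `max`.
`frontier_disj`: `frontier U = closure U \ U` for the open set `U`, and `closure_inter`.  `of_subset`: `max` for the bigger set.  `exists_super`: the component of `S'` which contains a point of `U`.
`preimage_iff` `→`: `f '' V` is preconnected and contained in `S`; let `U` be the component of `S` containing `f x`, `x ∈ V`; `f '' V ⊆ U`, so `V ⊆ f ⁻¹' U ⊆ f ⁻¹' S`, `of_subset`.  `←`: let `V'` be a preconnected subset of `f ⁻¹' S` meeting `V`: `f '' V'` is preconnected in `S` and meets `U`, so `f '' V' ⊆ U` and `V' ⊆ f ⁻¹' U`, `V' ⊆ V`.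
`sUnion_comp`: every point of `S` is in its component.
-/

open Set Metric Topology Filter
open Pool.JS

namespace Pool.ETM

variable {X : Type*} [TopologicalSpace X] {U U' V S S' C : Set X} {x : X}

theorem isComp_cc (hx : x ∈ S) : IsComp (connectedComponentIn S x) S := by
  refine ⟨⟨x, mem_connectedComponentIn hx⟩, isPreconnected_connectedComponentIn, ?_, ?_⟩
  · rw [compl_compl]
    exact connectedComponentIn_subset S x
  · intro C hC hCS hne
    rw [compl_compl] at hCS
    obtain ⟨y, hy, hy2⟩ := hne
    rw [connectedComponentIn_eq hy2]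
    exact hC.subset_connectedComponentIn hy hCS

theorem IsComp.subset (h : IsComp U S) : U ⊆ S := by
  have h1 := h.sub
  rwa [compl_compl] at h1

theorem IsComp.sub_of (h : IsComp U S) (hC : IsPreconnected C) (hCS : C ⊆ S) (hne : (C ∩ U).Nonempty) : C ⊆ U := by
  exact h.max C hC (by rw [compl_compl]; exact hCS) hne

theorem IsComp.eq_cc (h : IsComp U S) (hx : x ∈ U) : U = connectedComponentIn S x := by
  refine Subset.antisymm (h.conn.subset_connectedComponentIn hx h.subset) ?_
  exact h.sub_of isPreconnected_connectedComponentIn (connectedComponentIn_subset S x)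
    ⟨x, mem_connectedComponentIn (h.subset hx), hx⟩

theorem isComp_iff : IsComp U S ↔ ∃ x ∈ S, U = connectedComponentIn S x := by
  constructor
  · intro h
    obtain ⟨x, hx⟩ := h.ne
    exact ⟨x, h.subset hx, h.eq_cc hx⟩
  · rintro ⟨x, hx, rfl⟩
    exact isComp_cc hx

theorem IsComp.eq (h : IsComp U S) (h' : IsComp U' S) (hne : (U ∩ U').Nonempty) : U = U' := by
  obtain ⟨x, hx, hx'⟩ := hne
  rw [h.eq_cc hx, h'.eq_cc hx']

theorem IsComp.disjoint (h : IsComp U S) (h' : IsComp U' S) (hne : U ≠ U') : Disjoint U U' := by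
  by_contra hd
  rw [Set.not_disjoint_iff_nonempty_inter] at hd
  exact hne (h.eq h' hd)

theorem IsComp.isOpen [LocallyConnectedSpace X] (h : IsComp U S) (hS : IsOpen S) : IsOpen U := by
  obtain ⟨x, hx⟩ := h.ne
  rw [h.eq_cc hx]
  exact hS.connectedComponentIn

theorem IsComp.closure_inter (h : IsComp U S) : closure U ∩ S = U := by
  refine Subset.antisymm ?_ fun y hy => ⟨subset_closure hy, h.subset hy⟩
  rintro y ⟨hy, hyS⟩
  obtain ⟨x, hx⟩ := h.ne
  have h1 : IsPreconnected (insert y U) :=
    h.conn.subset_closure (subset_insert y U) (insert_subset hy subset_closure)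
  exact h.sub_of h1 (insert_subset hyS h.subset) ⟨x, mem_insert_of_mem y hx, hx⟩ (mem_insert y U)

theorem IsComp.isClosed (h : IsComp U S) (hS : IsClosed S) : IsClosed U := by
  have h1 : closure U ⊆ S := closure_minimal h.subset hS
  have h2 := h.closure_inter
  rw [inter_eq_left.2 h1] at h2
  rw [← h2]
  exact isClosed_closure

theorem IsComp.frontier_disj [LocallyConnectedSpace X] (h : IsComp U S) (hS : IsOpen S) : Disjoint (frontier U) S := by
  rw [(h.isOpen hS).frontier_eq, Set.disjoint_left]
  rintro y ⟨hy, hyU⟩ hyS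
  exact hyU (h.closure_inter ▸ ⟨hy, hyS⟩)

theorem IsComp.of_subset (h : IsComp U S') (hUS : U ⊆ S) (hSS : S ⊆ S') : IsComp U S := by
  refine ⟨h.ne, h.conn, ?_, ?_⟩
  · rw [compl_compl]
    exact hUS
  · intro C hC hCS hne
    rw [compl_compl] at hCS
    exact h.sub_of hC (hCS.trans hSS) hne

theorem IsComp.exists_super (h : IsComp U S) (hSS : S ⊆ S') : ∃ U', IsComp U' S' ∧ U ⊆ U' := by
  obtain ⟨x, hx⟩ := h.ne
  have hxS : x ∈ S' := hSS (h.subset hx)
  exact ⟨connectedComponentIn S' x, isComp_cc hxS, (isComp_cc hxS).sub_of h.conn (h.subset.trans hSS)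
    ⟨x, hx, mem_connectedComponentIn hxS⟩⟩

theorem isComp_preimage_iff {Y : Type*} [TopologicalSpace Y] {f : X → Y} (hf : Continuous f) {T : Set Y} :
    IsComp V (f ⁻¹' T) ↔ ∃ U, IsComp U T ∧ IsComp V (f ⁻¹' U) := by
  constructor
  · intro h
    obtain ⟨x, hx⟩ := h.ne
    have hxT : f x ∈ T := h.subset hx
    have hU := isComp_cc hxT
    have h1 : f '' V ⊆ connectedComponentIn T (f x) :=
      hU.sub_of (h.conn.image f hf.continuousOn) (image_subset_iff.2 h.subset)
        ⟨f x, mem_image_of_mem f hx, mem_connectedComponentIn hxT⟩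
    exact ⟨_, hU, h.of_subset (image_subset_iff.1 h1) (preimage_mono hU.subset)⟩
  · rintro ⟨U, hU, hV⟩
    refine ⟨hV.ne, hV.conn, ?_, ?_⟩
    · rw [compl_compl]
      exact hV.subset.trans (preimage_mono hU.subset)
    · intro C hC hCT hne
      rw [compl_compl] at hCT
      obtain ⟨y, hy, hyV⟩ := hne
      have h1 : f '' C ⊆ U := hU.sub_of (hC.image f hf.continuousOn) (image_subset_iff.2 hCT)
        ⟨f y, mem_image_of_mem f hy, hV.subset hyV⟩
      exact hV.sub_of hC (image_subset_iff.1 h1) ⟨y, hy, hyV⟩

theorem sUnion_comp : ⋃₀ {U | IsComp U S} = S := by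
  ext x
  constructor
  · rintro ⟨U, hU, hx⟩
    exact IsComp.subset hU hx
  · intro hx
    exact ⟨_, isComp_cc hx, mem_connectedComponentIn hx⟩

end Pool.ETM
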