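import Mathlib
import Pool.Agent.ETM.LeB
import Pool.Agent.ETM.LeC
import Pool.Agent.ETM.LeD

set_option autoImplicit false

/-!
MODULE LeE (difficulty 3).  2.1 of the paper: a component `V` of the preimage of a connected open set `U` is mapped onto `U`.

RECIPE.  `f ⁻¹' U` is open, `V` is open (`IsComp.isOpen`), so `f '' V` is open.  `f '' V` is closed in `U`: `f` is a closed map, so `f '' closure V = closure (f '' V)` (`IsClosedMap.closure_image_eq_of_continuous` or two inclusions); a point of `U ∩ closure (f '' V)` is `f v` with `v ∈ closure V`, and `v ∈ f ⁻¹' U`,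
so `v ∈ V` (`IsComp.closure_inter`).  `U` is preconnected and `f '' V` is nonempty: `f '' V = U` (`IsPreconnected.subset_of_closure_inter_subset`, or two disjoint open sets `f '' V` and `U \ closure (f '' V)`).
`comp_closure`: `f '' closure V = closure (f '' V) = closure U`.  `comp_frontier`: `frontier V = closure V \ V`, a point `v` of it has `f v ∈ closure U` and `f v ∉ U` (otherwise `v ∈ closure V ∩ f ⁻¹' U = V`); `frontier U = closure U \ U`.  Equality of the images: a point of `frontier U ⊆ closure U` is `f v`, `v ∈ closure V`, and `v ∉ V`.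
`comp_finite`: fix `u ∈ U` (if `U` is empty there is no component); every component contains a point of the finite fibre of `u` and different components are disjoint: the map `V ↦` such a point is injective (`Set.Finite.of_injOn`..., or `Finite.subset` of the image of the fibre under `x ↦ connectedComponentIn (f ⁻¹' U) x`).
`preimage_closure`: `IsOpenMap.preimage_closure_eq_closure_preimage`.  `comp_exists`: for `x` with `f x ∈ U` the component.
-/

open Set Metric Topology Filter
open Pool.JS

namespace Pool.ETM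

variable {X : Type*} [TopologicalSpace X] [CompactSpace X] [T2Space X] [Sph X] {f : X → X} {P U V : Set X}

theorem Dyn.comp_isOpen (h : Dyn f P) (hU : IsOpen U) (hV : IsComp V (f ⁻¹' U)) : IsOpen V :=
  hV.isOpen (hU.preimage h.cont)

theorem Dyn.comp_image (h : Dyn f P) (hU : IsOpen U) (hc : IsPreconnected U) (hV : IsComp V (f ⁻¹' U)) :
    f '' V = U := by
  have hVo := h.comp_isOpen hU hV
  have hs : f '' V ⊆ U := image_subset_iff.mpr hV.subset
  obtain ⟨x, hx⟩ := hV.ne
  apply Subset.antisymm hs
  apply hc.subset_of_closure_inter_subset (h.opn V hVo) ⟨f x, hs ⟨x, hx, rfl⟩, ⟨x, hx, rfl⟩⟩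
  rw [h.isClosedMap.closure_image_eq_of_continuous h.cont]
  rintro y ⟨⟨v, hv, rfl⟩, hy⟩
  refine ⟨v, ?_, rfl⟩
  rw [← hV.closure_inter]
  exact ⟨hv, hy⟩

theorem Dyn.comp_closure (h : Dyn f P) (hU : IsOpen U) (hc : IsPreconnected U) (hV : IsComp V (f ⁻¹' U)) :
    f '' closure V = closure U := by
  rw [← h.isClosedMap.closure_image_eq_of_continuous h.cont, h.comp_image hU hc hV]

theorem Dyn.comp_frontier (h : Dyn f P) (hU : IsOpen U) (hc : IsPreconnected U) (hV : IsComp V (f ⁻¹' U)) :
    f '' frontier V = frontier U := by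
  rw [(h.comp_isOpen hU hV).frontier_eq, hU.frontier_eq]
  have hcl := h.comp_closure hU hc hV
  apply Subset.antisymm
  · rintro _ ⟨v, ⟨hv1, hv2⟩, rfl⟩
    refine ⟨?_, ?_⟩
    · rw [← hcl]
      exact ⟨v, hv1, rfl⟩
    · intro hu
      apply hv2
      rw [← hV.closure_inter]
      exact ⟨hv1, hu⟩
  · rintro y ⟨hy1, hy2⟩
    rw [← hcl] at hy1
    obtain ⟨v, hv, rfl⟩ := hy1
    refine ⟨v, ⟨hv, fun hvV => hy2 (hV.subset hvV)⟩, rfl⟩

theorem Dyn.comp_finite (h : Dyn f P) (hU : IsOpen U) (hc : IsPreconnected U) :
    {V | IsComp V (f ⁻¹' U)}.Finite := by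
  rcases U.eq_empty_or_nonempty with rfl | ⟨u, hu⟩
  · have : {V | IsComp V (f ⁻¹' (∅ : Set X))} = ∅ := by
      ext V
      simp only [mem_ofPred_eq, mem_empty_iff_false, iff_false]
      intro hV
      obtain ⟨x, hx⟩ := hV.ne
      exact hV.subset hx
    rw [this]
    exact finite_empty
  · apply ((h.fin u).image fun x => connectedComponentIn (f ⁻¹' U) x).subset
    intro V hV
    have h1 := h.comp_image hU hc hV
    rw [← h1] at hu
    obtain ⟨x, hx, hxu⟩ := hu
    exact ⟨x, hxu, (hV.eq_cc hx).symm⟩

theorem Dyn.preimage_closure (h : Dyn f P) (S : Set X) : f ⁻¹' closure S = closure (f ⁻¹' S) :=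
  h.opn.preimage_closure_eq_closure_preimage h.cont S

end Pool.ETM
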