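import Mathlib
import Pool.Agent.ETM.LeDefs

set_option autoImplicit false

/-!
MODULE LeJ (difficulty 3).  A Jordan domain can be parametrised by the disc with a given point as the centre.

RECIPE.  `DiscX`: `Φ`, `p = Φ a` with `‖a‖ < 1`.  It is enough to find a homeomorphism `M` of `closedBall 0 1` (continuous, injective on `closedBall 0 1`, mapping `closedBall`, `ball`, `sphere` onto themselves) with `M 0 = a`; take `Φ ∘ M`.
Moebius map: `M z = (z + a) / (1 + conj a * z)`; the denominator is not `0` for `‖z‖ ≤ 1`; `M 0 = a`; inverse `N w = (w - a) / (1 - conj a * w)`; `1 - ‖M z‖ ^ 2 = (1 - ‖a‖ ^ 2) * (1 - ‖z‖ ^ 2) / ‖1 + conj a * z‖ ^ 2` shows that `M` preserves the ball, the sphere and the closed ball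
(prove it with `Complex.normSq`: `normSq (1 + conj a * z) - normSq (z + a) = (1 - normSq a) * (1 - normSq z)`).  Surjectivity from `M (N w) = w`, injectivity from `N (M z) = z`.
-/

open Set Metric Topology Filter
open Pool.JS

namespace Pool.ETM

/-- the Moebius map -/
private noncomputable def lej_M (a z : ℂ) : ℂ := (z + a) / (1 + (starRingEnd ℂ) a * z)

private theorem lej_ne {a z : ℂ} (ha : ‖a‖ < 1) (hz : ‖z‖ ≤ 1) : 1 + (starRingEnd ℂ) a * z ≠ 0 := by
  intro h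
  have h1 : (starRingEnd ℂ) a * z = -1 := by linear_combination h
  have h2 : ‖(starRingEnd ℂ) a * z‖ = 1 := by rw [h1, norm_neg, norm_one]
  rw [norm_mul, RCLike.norm_conj] at h2
  nlinarith [norm_nonneg a, norm_nonneg z]

private theorem lej_id (a z : ℂ) : ‖1 + (starRingEnd ℂ) a * z‖ ^ 2 - ‖z + a‖ ^ 2 = (1 - ‖a‖ ^ 2) * (1 - ‖z‖ ^ 2) := by
  rw [Complex.sq_norm, Complex.sq_norm, Complex.sq_norm, Complex.sq_norm, Complex.normSq_apply, Complex.normSq_apply,
    Complex.normSq_apply, Complex.normSq_apply]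
  simp
  ring

private theorem lej_lt {a z : ℂ} (ha : ‖a‖ < 1) (hz : ‖z‖ < 1) : ‖lej_M a z‖ < 1 := by
  have h1 : 0 < ‖1 + (starRingEnd ℂ) a * z‖ := norm_pos_iff.2 (lej_ne ha hz.le)
  have h2 := lej_id a z
  have h3 : 0 < (1 - ‖a‖ ^ 2) * (1 - ‖z‖ ^ 2) :=
    mul_pos (by nlinarith [norm_nonneg a]) (by nlinarith [norm_nonneg z])
  unfold lej_M
  rw [norm_div, div_lt_one h1]
  exact lt_of_pow_lt_pow_left₀ 2 h1.le (by linarith)

private theorem lej_eq {a z : ℂ} (ha : ‖a‖ < 1) (hz : ‖z‖ = 1) : ‖lej_M a z‖ = 1 := by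
  have h1 : 0 < ‖1 + (starRingEnd ℂ) a * z‖ := norm_pos_iff.2 (lej_ne ha hz.le)
  have h2 := lej_id a z
  rw [hz, one_pow, sub_self, mul_zero] at h2
  unfold lej_M
  rw [norm_div, div_eq_one_iff_eq h1.ne']
  have h3 : ‖z + a‖ ^ 2 = ‖1 + (starRingEnd ℂ) a * z‖ ^ 2 := by linarith
  exact (pow_left_inj₀ (norm_nonneg _) h1.le two_ne_zero).1 h3

private theorem lej_le {a z : ℂ} (ha : ‖a‖ < 1) (hz : ‖z‖ ≤ 1) : ‖lej_M a z‖ ≤ 1 := by
  rcases hz.lt_or_eq with h | h
  · exact (lej_lt ha h).le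
  · exact (lej_eq ha h).le

private theorem lej_inv {a z : ℂ} (ha : ‖a‖ < 1) (hz : ‖z‖ ≤ 1) : lej_M (-a) (lej_M a z) = z := by
  have h1 := lej_ne ha hz
  have ha' : ‖-a‖ < 1 := by rw [norm_neg]; exact ha
  have h2 := lej_ne ha' (lej_le ha hz)
  have e : lej_M a z * (1 + (starRingEnd ℂ) a * z) = z + a := div_mul_cancel₀ _ h1
  rw [map_neg] at h2
  show (lej_M a z + -a) / (1 + (starRingEnd ℂ) (-a) * lej_M a z) = z
  rw [map_neg, div_eq_iff h2]
  linear_combination e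

private theorem lej_inv' {a z : ℂ} (ha : ‖a‖ < 1) (hz : ‖z‖ ≤ 1) : lej_M a (lej_M (-a) z) = z := by
  have ha' : ‖-a‖ < 1 := by rw [norm_neg]; exact ha
  have h := lej_inv ha' hz
  rwa [neg_neg] at h

theorem moebius_disc {a : ℂ} (ha : ‖a‖ < 1) : ∃ M : ℂ → ℂ, ContinuousOn M (closedBall 0 1) ∧
    InjOn M (closedBall 0 1) ∧ M 0 = a ∧ M '' ball 0 1 = ball 0 1 ∧ M '' sphere 0 1 = sphere 0 1 ∧
    M '' closedBall 0 1 = closedBall 0 1 := by
  have ha' : ‖-a‖ < 1 := by rw [norm_neg]; exact ha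
  refine ⟨lej_M a, ?_, ?_, ?_, ?_, ?_, ?_⟩
  · intro z hz
    rw [mem_closedBall_zero_iff] at hz
    have : ContinuousAt (fun z : ℂ => (z + a) / (1 + (starRingEnd ℂ) a * z)) z :=
      ContinuousAt.div (by fun_prop) (by fun_prop) (lej_ne ha hz)
    exact this.continuousWithinAt
  · intro z hz w hw h
    rw [mem_closedBall_zero_iff] at hz hw
    rw [← lej_inv ha hz, ← lej_inv ha hw, h]
  · show (0 + a) / (1 + (starRingEnd ℂ) a * 0) = a
    simp
  · apply Subset.antisymm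
    · rintro _ ⟨z, hz, rfl⟩
      rw [mem_ball_zero_iff] at hz ⊢
      exact lej_lt ha hz
    · intro w hw
      rw [mem_ball_zero_iff] at hw
      exact ⟨lej_M (-a) w, by rw [mem_ball_zero_iff]; exact lej_lt ha' hw, lej_inv' ha hw.le⟩
  · apply Subset.antisymm
    · rintro _ ⟨z, hz, rfl⟩
      rw [mem_sphere_zero_iff_norm] at hz ⊢
      exact lej_eq ha hz
    · intro w hw
      rw [mem_sphere_zero_iff_norm] at hw
      exact ⟨lej_M (-a) w, by rw [mem_sphere_zero_iff_norm]; exact lej_eq ha' hw, lej_inv' ha hw.le⟩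
  · apply Subset.antisymm
    · rintro _ ⟨z, hz, rfl⟩
      rw [mem_closedBall_zero_iff] at hz ⊢
      exact lej_le ha hz
    · intro w hw
      rw [mem_closedBall_zero_iff] at hw
      exact ⟨lej_M (-a) w, by rw [mem_closedBall_zero_iff]; exact lej_le ha' hw, lej_inv' ha hw⟩

theorem disc_center {X : Type*} [TopologicalSpace X] {D J U : Set X} (h : DiscX D J U) {p : X} (hp : p ∈ U) :
    ∃ Φ : ℂ → X, ContinuousOn Φ (closedBall 0 1) ∧ InjOn Φ (closedBall 0 1) ∧ Φ '' closedBall 0 1 = D ∧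
      Φ '' sphere 0 1 = J ∧ Φ '' ball 0 1 = U ∧ Φ 0 = p := by
  obtain ⟨Φ, h1, h2, h3, h4, h5⟩ := h
  rw [← h5] at hp
  obtain ⟨a, ha, hap⟩ := hp
  rw [mem_ball_zero_iff] at ha
  obtain ⟨M, m1, m2, m3, m4, m5, m6⟩ := moebius_disc ha
  have hm : MapsTo M (closedBall 0 1) (closedBall 0 1) := fun z hz => by
    rw [← m6]
    exact mem_image_of_mem M hz
  refine ⟨Φ ∘ M, h1.comp m1 hm, ?_, ?_, ?_, ?_, ?_⟩
  · intro z hz w hw he
    exact m2 hz hw (h2 (hm hz) (hm hw) he)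
  · rw [image_comp, m6, h3]
  · rw [image_comp, m5, h4]
  · rw [image_comp, m4, h5]
  · show Φ (M 0) = p
    rw [m3, hap]

end Pool.ETM
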