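import Mathlib
import Pool.Agent.ETM.LeB

set_option autoImplicit false

/-!
MODULE LeF (difficulty 2).  2.3 of the paper: uniqueness and existence of lifts of maps of convex sets.

RECIPE.  `eqOn`: `IsCoveringMapOn` gives a covering `f ⁻¹' Pᶜ → Pᶜ` (`IsCoveringMapOn.isCoveringMap_restrictPreimage`) and `IsCoveringMap.eqOn_of_comp_eqOn`; or directly: the set `{y ∈ S | g y = g' y}` is closed in `S` (T2) and open in `S` (`locInj` at `g y`: `g` and `g'` are continuous, so near `y` both values are in a set
where `f` is injective), use preconnectedness of `S` (e.g. `isPreconnected_iff_subset_of_disjoint`, or `PreconnectedSpace S` and `IsClopen.eq_univ` in the subtype).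
`lift_conv`: `A := ↥C` is simply connected (`Convex.contractibleSpace`, `SimplyConnectedSpace.ofContractible`) and locally path connected (`Convex.locallyPathConnectedSpace`), `IsCoveringMapOn.existsUnique_continuousMap_lifts` with `s = Pᶜ`; extend the lift from the subtype to `E` by an arbitrary value
(`fun c => if hc : c ∈ C then F ⟨c, hc⟩ else x`; `continuousOn_iff_continuous_domRestrict`).
`lift_sc`: the same for a simply connected open set `D ⊆ X` (`IsOpen.locallyPathConnectedSpace`) and the inclusion.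
-/

open Set Metric Topology Filter
open Pool.JS

namespace Pool.ETM

variable {X : Type*} [TopologicalSpace X] [CompactSpace X] [T2Space X] {f : X → X} {P : Set X}

theorem Dyn.eqOn (h : Dyn f P) {Y : Type*} [TopologicalSpace Y] {S : Set Y} (hS : IsPreconnected S) {g g' : Y → X}
    (hg : ContinuousOn g S) (hg' : ContinuousOn g' S) (he : ∀ y ∈ S, f (g y) = f (g' y)) (hP : ∀ y ∈ S, f (g y) ∉ P)
    {y : Y} (hy : y ∈ S) (hyy : g y = g' y) : EqOn g g' S := by
  have hSp : PreconnectedSpace S := Subtype.preconnectedSpace hS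
  have hgr : Continuous (S.domRestrict g) := continuousOn_iff_continuous_domRestrict.1 hg
  have hgr' : Continuous (S.domRestrict g') := continuousOn_iff_continuous_domRestrict.1 hg'
  have hcl : IsClosed {z : S | S.domRestrict g z = S.domRestrict g' z} := isClosed_eq hgr hgr'
  have hop : IsOpen {z : S | S.domRestrict g z = S.domRestrict g' z} := by
    rw [isOpen_iff_mem_nhds]
    intro z hz
    have hz' : g z = g' z := hz
    obtain ⟨W, hWo, hzW, hinj⟩ := h.locInj (hP z z.2)
    have h1 : ∀ᶠ w in 𝓝 z, S.domRestrict g w ∈ W := hgr.continuousAt.eventually_mem (hWo.mem_nhds hzW)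
    have h2 : ∀ᶠ w in 𝓝 z, S.domRestrict g' w ∈ W := by
      apply hgr'.continuousAt.eventually_mem
      apply hWo.mem_nhds
      rw [Set.domRestrict_apply, ← hz']
      exact hzW
    filter_upwards [h1, h2] with w hw1 hw2
    exact hinj hw1 hw2 (he w w.2)
  have huniv := IsClopen.eq_univ ⟨hcl, hop⟩ ⟨⟨y, hy⟩, hyy⟩
  intro z hz
  have hz2 : (⟨z, hz⟩ : S) ∈ {z : S | S.domRestrict g z = S.domRestrict g' z} := by
    rw [huniv]
    exact mem_univ _
  exact hz2

theorem Dyn.lift_conv (h : Dyn f P) {E : Type*} [NormedAddCommGroup E] [NormedSpace ℝ E] {C : Set E}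
    (hC : Convex ℝ C) {γ : E → X} (hγ : ContinuousOn γ C) (hP : ∀ c ∈ C, γ c ∉ P) {c₀ : E} (hc : c₀ ∈ C) {x : X}
    (hx : f x = γ c₀) : ∃ δ : E → X, ContinuousOn δ C ∧ δ c₀ = x ∧ ∀ c ∈ C, f (δ c) = γ c := by
  classical
  have hcs : ContractibleSpace C := hC.contractibleSpace ⟨c₀, hc⟩
  have hsc : SimplyConnectedSpace C := SimplyConnectedSpace.ofContractible C
  have hlp : LocallyPathConnectedSpace C := Convex.locallyPathConnectedSpace E hC
  obtain ⟨F, hF1, hF2⟩ := (h.cov.existsUnique_continuousMap_lifts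
    (⟨C.domRestrict γ, continuousOn_iff_continuous_domRestrict.1 hγ⟩ : C(C, X)) (a₀ := ⟨c₀, hc⟩) (e₀ := x) hx
    (fun a => hP a a.2)).exists
  refine ⟨fun c => if hc : c ∈ C then F ⟨c, hc⟩ else x, ?_, ?_, ?_⟩
  · rw [continuousOn_iff_continuous_domRestrict]
    have e : C.domRestrict (fun c => if hc : c ∈ C then F ⟨c, hc⟩ else x) = F := by
      funext z
      rw [Set.domRestrict_apply]
      simp
    rw [e]
    exact F.continuous
  · simp only [hc, dif_pos]
    exact hF1
  · intro c hcC
    simp only [hcC, dif_pos]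
    exact congrFun hF2 ⟨c, hcC⟩

theorem Dyn.lift_sc [LocallyPathConnectedSpace X] (h : Dyn f P) {D : Set X} (hD : IsOpen D)
    (hsc : IsSimplyConnected D) (hDP : Disjoint D P) {x : X} (hx : f x ∈ D) :
    ∃ g : X → X, ContinuousOn g D ∧ g (f x) = x ∧ ∀ y ∈ D, f (g y) = y := by
  classical
  have hsc' : SimplyConnectedSpace D := hsc
  have hlp : LocallyPathConnectedSpace D := hD.locallyPathConnectedSpace
  obtain ⟨F, hF1, hF2⟩ := (h.cov.existsUnique_continuousMap_lifts
    (⟨Subtype.val, continuous_subtype_val⟩ : C(D, X)) (a₀ := ⟨f x, hx⟩) (e₀ := x) rfl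
    (fun a => disjoint_left.1 hDP a.2)).exists
  refine ⟨fun c => if hc : c ∈ D then F ⟨c, hc⟩ else x, ?_, ?_, ?_⟩
  · rw [continuousOn_iff_continuous_domRestrict]
    have e : D.domRestrict (fun c => if hc : c ∈ D then F ⟨c, hc⟩ else x) = F := by
      funext z
      rw [Set.domRestrict_apply]
      simp
    rw [e]
    exact F.continuous
  · simp only [hx, dif_pos]
    exact hF1
  · intro c hcC
    simp only [hcC, dif_pos]
    exact congrFun hF2 ⟨c, hcC⟩

end Pool.ETM
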