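import Mathlib
import Pool.Agent.ETM.LeF

set_option autoImplicit false

/-!
MODULE LeG (difficulty 3).  Lifts extend continuously to the closure (the fibres are finite).

RECIPE.  `extend`: let `b ∈ B`, `F = f ⁻¹' {Φ b}` finite.  CLAIM: there is `x₀ ∈ F` with `Tendsto G (𝓝[A] b) (𝓝 x₀)`.  For every choice of pairwise disjoint open neighbourhoods `W x` of the points `x ∈ F` (they exist: finite set in a Hausdorff space, `Set.Finite.t2_separation`, and they can be taken inside prescribed neighbourhoods)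
there is a neighbourhood `N` of `Φ b` with `f ⁻¹' N ⊆ ⋃ x ∈ F, W x` (`f` is a closed map: `IsClosedMap` of the complement of the union; or `IsClosedMap.exists_isOpen...`), then (continuity of `Φ` on `B`, and the hypothesis `hloc`) a neighbourhood `W'` of `b` with `Φ '' (W' ∩ A) ⊆ N` and `W' ∩ A` preconnected; so `G '' (W' ∩ A)` is
preconnected (`G` is continuous on `A`), contained in `⋃ W x`, hence in one `W x₀` (it is nonempty because `b ∈ closure A`).  The index `x₀` does not depend on the choice (for two choices intersect the neighbourhoods: for smaller `W''x ⊆ W x` the point is the same, as the sets `G '' (W' ∩ A)` and `G '' (W'' ∩ A)` for two choices have a common point and the `W x` are disjoint).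
So for every neighbourhood `O` of `x₀` choose `W x₀ ⊆ O`: `G` maps `W' ∩ A` into `O`.  Then `continuousOn_extendFrom` (`A ⊆ B ⊆ closure A`, `X` is regular) gives `G' = extendFrom A G`, `G' = G` on `A` (`extendFrom_eq` with continuity of `G` on `A`), `f (G' b) = Φ b` because `G' b = x₀ ∈ F` (`extendFrom_eq`, or by continuity and density).
`lift_closure`: `lift_conv` for `C` and `extend` with `A = C`, `B = closure C`: `hloc`: `W' = ball b r ⊆ W`, `ball b r ∩ C` is convex.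
-/

open Set Metric Topology Filter
open Pool.JS

namespace Pool.ETM

variable {X : Type*} [TopologicalSpace X] [CompactSpace X] [T2Space X] {f : X → X} {P : Set X}

theorem leg_fib {f : X → X} (hf : Continuous f) {Y : Type*} {l : Filter Y} {G Φ : Y → X} {y x : X}
    (h1 : Tendsto Φ l (𝓝 y)) (h2 : ∀ᶠ a in l, f (G a) = Φ a) (hx : ClusterPt x (map G l)) : f x = y := by
  have h3 : Tendsto (f ∘ G) l (𝓝 y) := h1.congr' (h2.mono fun a ha => ha.symm)
  have h4 : ClusterPt (f x) (map f (map G l)) := hx.map hf.continuousAt tendsto_map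
  rw [map_map] at h4
  have h5 : NeBot (𝓝 (f x) ⊓ 𝓝 y) := NeBot.mono h4 (inf_le_inf_left _ h3)
  exact eq_of_nhds_neBot h5

theorem extend_fin (hf : Continuous f) (hfin : ∀ y, (f ⁻¹' {y}).Finite) {Y : Type*} [TopologicalSpace Y]
    {A B : Set Y} (hAB : A ⊆ B) (hB : B ⊆ closure A) {G Φ : Y → X} (hG : ContinuousOn G A) (hΦ : ContinuousOn Φ B)
    (he : ∀ a ∈ A, f (G a) = Φ a) (hloc : ∀ b ∈ B, ∀ W ∈ 𝓝 b, ∃ W' ∈ 𝓝 b, W' ⊆ W ∧ IsPreconnected (W' ∩ A)) :
    ∃ G' : Y → X, ContinuousOn G' B ∧ EqOn G' G A ∧ ∀ b ∈ B, f (G' b) = Φ b := by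
  have key : ∀ b ∈ B, ∃ x₀, f x₀ = Φ b ∧ Tendsto G (𝓝[A] b) (𝓝 x₀) := by
    intro b hb
    haveI : NeBot (𝓝[A] b) := mem_closure_iff_nhdsWithin_neBot.1 (hB hb)
    have hΦb : Tendsto Φ (𝓝[A] b) (𝓝 (Φ b)) := (hΦ b hb).mono_left (nhdsWithin_mono b hAB)
    have hev : ∀ᶠ a in 𝓝[A] b, f (G a) = Φ a := eventually_mem_nhdsWithin.mono fun a ha => he a ha
    have hcl : ∀ x, ClusterPt x (map G (𝓝[A] b)) → f x = Φ b := fun x hx => leg_fib hf hΦb hev hx
    obtain ⟨x₀, hx₀⟩ := exists_clusterPt_of_compactSpace (map G (𝓝[A] b))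
    refine ⟨x₀, hcl x₀ hx₀, le_nhds_of_unique_clusterPt fun x₁ hx₁ => ?_⟩
    by_contra hne
    obtain ⟨U, hU, hUd⟩ := (hfin (Φ b)).t2_separation
    have hF₀ : x₀ ∈ f ⁻¹' {Φ b} := hcl x₀ hx₀
    have hF₁ : x₁ ∈ f ⁻¹' {Φ b} := hcl x₁ hx₁
    have hOo : IsOpen (⋃ x ∈ f ⁻¹' {Φ b} \ {x₀}, U x) := isOpen_biUnion fun x _ => (hU x).2
    have hdis : Disjoint (U x₀) (⋃ x ∈ f ⁻¹' {Φ b} \ {x₀}, U x) := by
      rw [Set.disjoint_left]
      intro y hy hy'
      obtain ⟨x, ⟨hx, hxx⟩, hyx⟩ := mem_iUnion₂.1 hy'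
      exact Set.disjoint_left.1 (hUd hF₀ hx (fun h' => hxx h'.symm)) hy hyx
    have hmem : U x₀ ∪ (⋃ x ∈ f ⁻¹' {Φ b} \ {x₀}, U x) ∈ map G (𝓝[A] b) := by
      by_contra hnot
      haveI : NeBot (map G (𝓝[A] b) ⊓ 𝓟 (U x₀ ∪ (⋃ x ∈ f ⁻¹' {Φ b} \ {x₀}, U x))ᶜ) :=
        notMem_iff_inf_principal_compl.mp hnot
      obtain ⟨y, hy⟩ := exists_clusterPt_of_compactSpace
        (map G (𝓝[A] b) ⊓ 𝓟 (U x₀ ∪ (⋃ x ∈ f ⁻¹' {Φ b} \ {x₀}, U x))ᶜ)
      have hy1 : ClusterPt y (map G (𝓝[A] b)) := hy.mono inf_le_left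
      have hy2 : y ∈ (U x₀ ∪ (⋃ x ∈ f ⁻¹' {Φ b} \ {x₀}, U x))ᶜ :=
        isClosed_iff_clusterPt.1 (((hU x₀).2.union hOo).isClosed_compl) y (hy.mono inf_le_right)
      apply hy2
      by_cases hyx : y = x₀
      · rw [hyx]
        exact Or.inl (hU x₀).1
      · exact Or.inr (mem_iUnion₂.2 ⟨y, ⟨hcl y hy1, hyx⟩, (hU y).1⟩)
    obtain ⟨W, hW, hWA⟩ := mem_nhdsWithin_iff_exists_mem_nhds_inter.1 hmem
    obtain ⟨W', hW', hWW, hpre⟩ := hloc b hb W hW
    have hsub : G '' (W' ∩ A) ⊆ U x₀ ∪ (⋃ x ∈ f ⁻¹' {Φ b} \ {x₀}, U x) := by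
      rintro _ ⟨a, ⟨ha, haA⟩, rfl⟩
      exact hWA ⟨hWW ha, haA⟩
    have hGm : G '' (W' ∩ A) ∈ map G (𝓝[A] b) :=
      image_mem_map (Filter.inter_mem (mem_nhdsWithin_of_mem_nhds hW') self_mem_nhdsWithin)
    have hmeet : ∀ x, ClusterPt x (map G (𝓝[A] b)) → (G '' (W' ∩ A) ∩ U x).Nonempty := by
      intro x hx
      rw [inter_comm]
      exact clusterPt_iff_nonempty.1 hx ((hU x).2.mem_nhds (hU x).1) hGm
    have hin : G '' (W' ∩ A) ⊆ U x₀ :=
      IsPreconnected.subset_left_of_subset_union (hU x₀).2 hOo hdis hsub (hmeet x₀ hx₀)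
        (hpre.image G (hG.mono inter_subset_right))
    obtain ⟨y, hy, hy'⟩ := hmeet x₁ hx₁
    exact Set.disjoint_left.1 (hUd hF₀ hF₁ (fun h' => hne h'.symm)) (hin hy) hy'
  refine ⟨extendFrom A G, continuousOn_extendFrom hB fun b hb => ?_, fun a ha => ?_, fun b hb => ?_⟩
  · obtain ⟨x₀, -, h⟩ := key b hb
    exact ⟨x₀, h⟩
  · exact extendFrom_eq (hB (hAB ha)) (hG a ha)
  · obtain ⟨x₀, h1, h2⟩ := key b hb
    rw [extendFrom_eq (hB hb) h2]
    exact h1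

theorem Dyn.lift_closure (h : Dyn f P) {E : Type*} [NormedAddCommGroup E] [NormedSpace ℝ E] {C : Set E}
    (hC : Convex ℝ C) {γ : E → X} (hγ : ContinuousOn γ (closure C)) (hP : ∀ c ∈ C, γ c ∉ P) {c₀ : E} (hc : c₀ ∈ C)
    {x : X} (hx : f x = γ c₀) :
    ∃ δ : E → X, ContinuousOn δ (closure C) ∧ δ c₀ = x ∧ ∀ c ∈ closure C, f (δ c) = γ c := by
  obtain ⟨δ, h1, h2, h3⟩ := h.lift_conv hC (hγ.mono subset_closure) hP hc hx
  obtain ⟨δ', k1, k2, k3⟩ := extend_fin h.cont h.fin (A := C) (B := closure C) subset_closure Subset.rfl h1 hγ h3 (by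
    intro b _ W hW
    obtain ⟨r, hr, hrW⟩ := Metric.mem_nhds_iff.1 hW
    exact ⟨ball b r, ball_mem_nhds b hr, hrW, ((convex_ball b r).inter hC).isPreconnected⟩)
  exact ⟨δ', k1, (k2 hc).trans h2, k3⟩

end Pool.ETM
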