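import Mathlib
import Pool.Agent.ETM.LeG

set_option autoImplicit false

/-!
MODULE LeK (difficulty 3).  2.4 of the paper, first step: the lift of the punctured closed disc to the left half plane and its period.
`Φ` is injective on `closedBall 0 1`, and on the punctured disc its values are not in `P`.

RECIPE.  `HP = {w : ℂ | w.re ≤ 0}` is convex and closed, `Complex.exp` maps it to `closedBall 0 1 \ {0}` (`Complex.norm_exp`, `exp w.re ≤ 1`).  `lift_conv` for `γ = Φ ∘ exp`.
`translate`: if `f ∘ H = Φ ∘ exp` on `HP` then for `k : ℤ` also `H_k w = H (w + 2 π k I)` satisfies it (`Complex.exp_periodic`, `exp_add`), and if `H` and `H_k` agree at one point of `HP` they agree on `HP` (`Dyn.eqOn`).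
`period`: the values `H (w₀ + 2 π k I)`, `k ∈ ℕ`, are in the finite fibre of `Φ (exp w₀)`: two of them agree, `k < k'`; apply uniqueness to the points `w₀ + 2 π k I`: `H (w + 2 π (k' - k) I) = H w` at `w = w₀ + 2 π k I`, so on `HP`.  Let `d` be the least `d ≥ 1` with `∀ w ∈ HP, H (w + 2 π d I) = H w` (`Nat.find`).
If `H w = H w'` then `Φ (exp w) = Φ (exp w')`, so `exp w = exp w'` and `w' = w + 2 π k I`, `k ∈ ℤ` (`Complex.exp_eq_exp_iff_exists_int`), so `H (· + 2 π k I) = H` on `HP` (uniqueness); the set of such `k ∈ ℤ` is a subgroup with least positive element `d`, so `d ∣ k` (write `k = d * q + r`, `0 ≤ r < d`, minimality).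
-/

open Set Metric Topology Filter
open Pool.JS

namespace Pool.ETM

/-- the closed left half plane -/
def HP : Set ℂ := {w : ℂ | w.re ≤ 0}

variable {X : Type*} [TopologicalSpace X] [CompactSpace X] [T2Space X] {f : X → X} {P : Set X} {Φ : ℂ → X}

theorem LeK_exp {w : ℂ} (hw : w ∈ HP) : Complex.exp w ∈ closedBall (0 : ℂ) 1 := by
  rw [mem_closedBall_zero_iff, Complex.norm_exp]
  exact Real.exp_le_one_iff.2 hw

theorem LeK_shift {w : ℂ} (hw : w ∈ HP) (k : ℤ) : w + 2 * Real.pi * k * Complex.I ∈ HP := by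
  have h : (w + 2 * Real.pi * k * Complex.I).re = w.re := by
    simp
  show (w + 2 * Real.pi * k * Complex.I).re ≤ 0
  rw [h]
  exact hw

theorem LeK_expk (w : ℂ) (k : ℤ) : Complex.exp (w + 2 * Real.pi * k * Complex.I) = Complex.exp w := by
  rw [Complex.exp_eq_exp_iff_exists_int]
  exact ⟨k, by ring⟩

theorem LeK_conv : Convex ℝ HP := convex_halfSpace_re_le 0

theorem Dyn.half_lift (h : Dyn f P) (hΦ : ContinuousOn Φ (closedBall 0 1)) (hP : ∀ z ∈ closedBall (0 : ℂ) 1, z ≠ 0 → Φ z ∉ P)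
    {w₀ : ℂ} (hw : w₀ ∈ HP) {x : X} (hx : f x = Φ (Complex.exp w₀)) :
    ∃ H : ℂ → X, ContinuousOn H HP ∧ H w₀ = x ∧ ∀ w ∈ HP, f (H w) = Φ (Complex.exp w) := by
  refine h.lift_conv (C := HP) (γ := fun w => Φ (Complex.exp w)) LeK_conv ?_ ?_ hw hx
  · exact hΦ.comp Complex.continuous_exp.continuousOn (fun w hw => LeK_exp hw)
  · intro c hc
    exact hP _ (LeK_exp hc) (Complex.exp_ne_zero c)

theorem Dyn.half_translate (h : Dyn f P) (hP : ∀ z ∈ closedBall (0 : ℂ) 1, z ≠ 0 → Φ z ∉ P)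
    {H H' : ℂ → X} (hH : ContinuousOn H HP) (hH' : ContinuousOn H' HP) (he : ∀ w ∈ HP, f (H w) = Φ (Complex.exp w))
    (he' : ∀ w ∈ HP, f (H' w) = Φ (Complex.exp w)) (k : ℤ) {w : ℂ} (hw : w ∈ HP)
    (hww : H (w + 2 * Real.pi * k * Complex.I) = H' w) :
    ∀ v ∈ HP, H (v + 2 * Real.pi * k * Complex.I) = H' v := by
  have key : EqOn (fun v => H (v + 2 * Real.pi * k * Complex.I)) H' HP := by
    refine h.eqOn (S := HP) LeK_conv.isPreconnected ?_ hH' ?_ ?_ hw hww
    · exact hH.comp (by fun_prop) (fun v hv => LeK_shift hv k)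
    · intro v hv
      show f (H (v + 2 * Real.pi * k * Complex.I)) = f (H' v)
      rw [he _ (LeK_shift hv k), he' v hv, LeK_expk]
    · intro v hv
      show f (H (v + 2 * Real.pi * k * Complex.I)) ∉ P
      rw [he _ (LeK_shift hv k)]
      exact hP _ (LeK_exp (LeK_shift hv k)) (Complex.exp_ne_zero _)
  exact key

theorem Dyn.half_period (h : Dyn f P) (hi : InjOn Φ (closedBall 0 1)) (hP : ∀ z ∈ closedBall (0 : ℂ) 1, z ≠ 0 → Φ z ∉ P)
    {H : ℂ → X} (hH : ContinuousOn H HP) (he : ∀ w ∈ HP, f (H w) = Φ (Complex.exp w)) :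
    ∃ d : ℕ, 1 ≤ d ∧ (∀ w ∈ HP, ∀ k : ℤ, H (w + 2 * Real.pi * d * k * Complex.I) = H w) ∧
      ∀ w ∈ HP, ∀ w' ∈ HP, H w = H w' → ∃ k : ℤ, w' = w + 2 * Real.pi * d * k * Complex.I := by
  have htr : ∀ (k : ℤ) (w : ℂ), w ∈ HP → H (w + 2 * Real.pi * k * Complex.I) = H w →
      ∀ v ∈ HP, H (v + 2 * Real.pi * k * Complex.I) = H v :=
    fun k w hw hww => h.half_translate hP hH hH he he k hw hww
  let S : AddSubgroup ℤ :=
    { carrier := {k : ℤ | ∀ v ∈ HP, H (v + 2 * Real.pi * k * Complex.I) = H v}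
      zero_mem' := by
        intro v _
        simp
      add_mem' := by
        intro a b ha hb v hv
        have h1 := ha _ (LeK_shift hv b)
        have h2 := hb v hv
        rw [← h2, ← h1]
        congr 1
        push_cast
        ring
      neg_mem' := by
        intro a ha v hv
        have h1 := ha _ (LeK_shift hv (-a))
        rw [← h1]
        congr 1
        push_cast
        ring }
  have hSmem : ∀ k : ℤ, k ∈ S ↔ ∀ v ∈ HP, H (v + 2 * Real.pi * k * Complex.I) = H v := fun k => Iff.rfl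
  have h0 : (0 : ℂ) ∈ HP := by
    show (0 : ℂ).re ≤ 0
    simp
  obtain ⟨k₀, hk₀, hk₀ne⟩ : ∃ k ∈ S, k ≠ 0 := by
    have hfin := h.fin (Φ (Complex.exp 0))
    by_contra hcon
    push Not at hcon
    refine (Set.infinite_of_injective_forall_mem (f := fun n : ℕ => H (0 + 2 * Real.pi * (n : ℤ) * Complex.I)) ?_ ?_) hfin
    · intro m n hmn
      have hmn' : H (0 + 2 * Real.pi * (m : ℤ) * Complex.I) = H (0 + 2 * Real.pi * (n : ℤ) * Complex.I) := hmn
      have hk : ((n : ℤ) - (m : ℤ)) ∈ S := by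
        rw [hSmem]
        refine htr _ (0 + 2 * Real.pi * (m : ℤ) * Complex.I) (LeK_shift h0 _) ?_
        rw [hmn']
        congr 1
        push_cast
        ring
      have := hcon _ hk
      omega
    · intro n
      show f (H (0 + 2 * Real.pi * (n : ℤ) * Complex.I)) = Φ (Complex.exp 0)
      rw [he _ (LeK_shift h0 _), LeK_expk]
  obtain ⟨a, ha⟩ := Int.subgroup_cyclic S
  have hmem : ∀ k : ℤ, k ∈ S ↔ ∃ q : ℤ, q * a = k := by
    intro k
    rw [ha, AddSubgroup.mem_closure_singleton]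
    simp
  have ha0 : a ≠ 0 := by
    rintro rfl
    obtain ⟨q, hq⟩ := (hmem k₀).1 hk₀
    exact hk₀ne (by rw [← hq]; ring)
  obtain ⟨d, hd1, hda⟩ : ∃ d : ℕ, 1 ≤ d ∧ (a = d ∨ a = -d) :=
    ⟨a.natAbs, Int.natAbs_pos.2 ha0, Int.natAbs_eq a⟩
  refine ⟨d, hd1, ?_, ?_⟩
  · intro w hw k
    have h1 : ((d : ℤ) * k) ∈ S := by
      rw [hmem]
      rcases hda with h2 | h2
      · exact ⟨k, by rw [h2]; ring⟩
      · exact ⟨-k, by rw [h2]; ring⟩
    have h2 := (hSmem _).1 h1 w hw
    rw [← h2]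
    congr 1
    push_cast
    ring
  · intro w hw w' hw' hww
    have h1 : Complex.exp w' = Complex.exp w := by
      apply hi (LeK_exp hw') (LeK_exp hw)
      rw [← he w hw, ← he w' hw', hww]
    obtain ⟨k, hk⟩ := Complex.exp_eq_exp_iff_exists_int.1 h1
    have hk' : w' = w + 2 * Real.pi * k * Complex.I := by
      rw [hk]
      ring
    have hkS : k ∈ S := by
      rw [hSmem]
      exact htr k w hw (by rw [← hk', hww])
    obtain ⟨q, hq⟩ := (hmem k).1 hkS
    rcases hda with h2 | h2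
    · refine ⟨q, ?_⟩
      rw [hk', ← hq, h2]
      push_cast
      ring
    · refine ⟨-q, ?_⟩
      rw [hk', ← hq, h2]
      push_cast
      ring

end Pool.ETM
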