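import Mathlib
import Pool.Agent.ETM.LeK

set_option autoImplicit false

/-!
MODULE LeL (difficulty 4).  2.4 of the paper, second step: the lift of the closed disc with one branch point at the centre.

RECIPE.  Let `H`, `d` be as in `Dyn.half_period`.  Put `Ψ₀ z = H (d * Complex.log z)` for `z ≠ 0`, `‖z‖ ≤ 1` (`(d * log z).re = d * Real.log ‖z‖ ≤ 0`).  For every `w ∈ HP`: `Ψ₀ (exp (w / d)) = H w` (`log (exp (w / d)) = w / d + 2 π k I`, `d * log = w + 2 π d k I`, period).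
`f (Ψ₀ z) = Φ (exp (d * log z)) = Φ (z ^ d)`.  Injective on `closedBall 0 1 \ {0}`: `H (d log z) = H (d log z')` gives `d log z' = d log z + 2 π d k I`, so `z' = z`.
Continuous on `closedBall 0 1 \ {0}`: at `z₁ ≠ 0` there is a continuous local logarithm `ℓ` near `z₁` (`ℓ z = log (z / z₁) + log z₁`, `z / z₁` is in the slit plane near `z₁`) with `exp (ℓ z) = z`; `(ℓ z).re = Real.log ‖z‖ ≤ 0`; `Ψ₀ z = H (d * ℓ z)` by the period (`d * ℓ z` and `d * log z` differ by `2 π d k I`), a composition of continuous maps.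
`extend_fin` (module LeG) with `Y = ℂ`, `A = closedBall 0 1 \ {0}`, `B = closedBall 0 1`, `G = Ψ₀`, `Φ' z = Φ (z ^ d)`: `B ⊆ closure A`; `hloc`: at `b ≠ 0`: `W' = ball b r` with `r < ‖b‖`, `W' ∩ A = ball b r ∩ closedBall 0 1` is convex; at `b = 0`: `W' = ball 0 r`, `r ≤ 1`, `W' ∩ A = ball 0 r \ {0}` is preconnected
(image of the convex set `{w | w.re < log r}` under `exp`).  The extension `Ψ` satisfies `f (Ψ z) = Φ (z ^ d)` on `closedBall 0 1`; it is injective: `f (Ψ 0) = Φ 0` and `f (Ψ z) = Φ (z ^ d) ≠ Φ 0` for `z ≠ 0`.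
-/

open Set Metric Topology Filter
open Pool.JS

namespace Pool.ETM

variable {X : Type*} [TopologicalSpace X] [CompactSpace X] [T2Space X] {f : X → X} {P : Set X} {Φ : ℂ → X}

private theorem lel_two_pi (d : ℕ) (w : ℂ) (n : ℤ) (hd : (d : ℂ) ≠ 0) :
    (d : ℂ) * (w / d + n * (2 * Real.pi * Complex.I)) = w + 2 * Real.pi * d * n * Complex.I := by
  field_simp

private theorem lel_punct {r : ℝ} (hr : 0 < r) : IsPreconnected (ball (0 : ℂ) r \ {0}) := by
  have hconv : Convex ℝ {w : ℂ | w.re < Real.log r} := convex_halfSpace_re_lt _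
  have himg : ball (0 : ℂ) r \ {0} = Complex.exp '' {w : ℂ | w.re < Real.log r} := by
    apply Subset.antisymm
    · rintro z ⟨hz, hz0⟩
      have hz0' : z ≠ 0 := hz0
      refine ⟨Complex.log z, ?_, Complex.exp_log hz0'⟩
      change (Complex.log z).re < Real.log r
      rw [Complex.log_re]
      exact Real.log_lt_log (norm_pos_iff.2 hz0') (by simpa using hz)
    · rintro z ⟨w, hw, rfl⟩
      refine ⟨?_, Complex.exp_ne_zero w⟩
      rw [mem_ball_zero_iff, Complex.norm_exp]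
      exact (Real.lt_log_iff_exp_lt hr).1 hw
  rw [himg]
  exact hconv.isPreconnected.image _ Complex.continuous_exp.continuousOn

theorem Dyn.disc_lift (h : Dyn f P) (hΦ : ContinuousOn Φ (closedBall 0 1)) (hi : InjOn Φ (closedBall 0 1))
    (hP : ∀ z ∈ closedBall (0 : ℂ) 1, z ≠ 0 → Φ z ∉ P) {H : ℂ → X} (hH : ContinuousOn H HP)
    (he : ∀ w ∈ HP, f (H w) = Φ (Complex.exp w)) :
    ∃ (d : ℕ) (Ψ : ℂ → X), 1 ≤ d ∧ ContinuousOn Ψ (closedBall 0 1) ∧ InjOn Ψ (closedBall 0 1) ∧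
      (∀ z ∈ closedBall (0 : ℂ) 1, f (Ψ z) = Φ (z ^ d)) ∧ (∀ w ∈ HP, Ψ (Complex.exp (w / d)) = H w) ∧
      ∀ z ∈ closedBall (0 : ℂ) 1, z ≠ 0 → ∃ w ∈ HP, z = Complex.exp (w / d) := by
  obtain ⟨d, hd, hper, hinj⟩ := h.half_period hi hP hH he
  have hdR : (0 : ℝ) < d := by exact_mod_cast hd
  have hd0 : (d : ℂ) ≠ 0 := by
    have : (d : ℝ) ≠ 0 := hdR.ne'
    exact_mod_cast this
  -- general logarithms
  have hHP : ∀ z : ℂ, ‖z‖ ≤ 1 → ∀ l : ℂ, Complex.exp l = z → (d : ℂ) * l ∈ HP := by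
    intro z hz l hl
    have h1 : Real.exp l.re ≤ 1 := by rw [← Complex.norm_exp, hl]; exact hz
    have h2 : l.re ≤ 0 := by
      by_contra hcon
      push Not at hcon
      have := Real.one_lt_exp_iff.2 hcon
      linarith
    change ((d : ℂ) * l).re ≤ 0
    rw [Complex.mul_re, Complex.natCast_re, Complex.natCast_im, zero_mul, sub_zero]
    exact mul_nonpos_of_nonneg_of_nonpos hdR.le h2
  have hlogs : ∀ z : ℂ, ‖z‖ ≤ 1 → ∀ l l' : ℂ, Complex.exp l = z → Complex.exp l' = z → H (d * l) = H (d * l') := by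
    intro z hz l l' hl hl'
    obtain ⟨n, hn⟩ := Complex.exp_eq_exp_iff_exists_int.1 (hl.trans hl'.symm)
    have h1 := hper (d * l') (hHP z hz l' hl') n
    rw [← h1]
    congr 1
    rw [hn]
    have := lel_two_pi d (d * l') n hd0
    rw [mul_div_cancel_left₀ _ hd0] at this
    exact this
  set Ψ₀ : ℂ → X := fun z => H (d * Complex.log z) with hΨ₀
  have hA : ∀ z ∈ closedBall (0 : ℂ) 1 \ {0}, ‖z‖ ≤ 1 ∧ z ≠ 0 := fun z hz => ⟨by simpa using hz.1, hz.2⟩
  have hw : ∀ w ∈ HP, Complex.exp (w / d) ∈ closedBall (0 : ℂ) 1 \ {0} ∧ Ψ₀ (Complex.exp (w / d)) = H w := by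
    intro w hw
    have hre : (w / d).re ≤ 0 := by
      have hw' : w.re ≤ 0 := hw
      have : (w / (d : ℂ)).re = w.re / d := by
        have := Complex.div_natCast_re w d
        exact this
      rw [this]
      exact div_nonpos_of_nonpos_of_nonneg hw' hdR.le
    have hn : ‖Complex.exp (w / d)‖ ≤ 1 := by
      rw [Complex.norm_exp]
      exact Real.exp_le_one_iff.2 hre
    refine ⟨⟨by simpa using hn, Complex.exp_ne_zero _⟩, ?_⟩
    have := hlogs _ hn (Complex.log (Complex.exp (w / d))) (w / d) (Complex.exp_log (Complex.exp_ne_zero _)) rfl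
    rw [mul_div_cancel₀ _ hd0] at this
    exact this
  have hfΨ : ∀ z ∈ closedBall (0 : ℂ) 1 \ {0}, f (Ψ₀ z) = Φ (z ^ d) := by
    intro z hz
    obtain ⟨h1, h2⟩ := hA z hz
    have := he (d * Complex.log z) (hHP z h1 _ (Complex.exp_log h2))
    rw [Complex.exp_nat_mul, Complex.exp_log h2] at this
    exact this
  have hexists : ∀ z ∈ closedBall (0 : ℂ) 1, z ≠ 0 → ∃ w ∈ HP, z = Complex.exp (w / d) := by
    intro z hz hz0
    have h1 : ‖z‖ ≤ 1 := by simpa using hz
    refine ⟨d * Complex.log z, hHP z h1 _ (Complex.exp_log hz0), ?_⟩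
    rw [mul_div_cancel_left₀ _ hd0, Complex.exp_log hz0]
  have hinj₀ : InjOn Ψ₀ (closedBall (0 : ℂ) 1 \ {0}) := by
    intro z hz z' hz' hzz
    obtain ⟨h1, h2⟩ := hA z hz
    obtain ⟨h1', h2'⟩ := hA z' hz'
    obtain ⟨k, hk⟩ := hinj _ (hHP z h1 _ (Complex.exp_log h2)) _ (hHP z' h1' _ (Complex.exp_log h2')) hzz
    have h3 := lel_two_pi d (d * Complex.log z) k hd0
    rw [mul_div_cancel_left₀ _ hd0] at h3
    rw [← h3] at hk
    have h4 := mul_left_cancel₀ hd0 hk
    rw [← Complex.exp_log h2, ← Complex.exp_log h2']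
    exact (Complex.exp_eq_exp_iff_exists_int.2 ⟨k, h4⟩).symm
  have hcont₀ : ContinuousOn Ψ₀ (closedBall (0 : ℂ) 1 \ {0}) := by
    intro z₁ hz₁
    obtain ⟨h1, h2⟩ := hA z₁ hz₁
    set l : ℂ → ℂ := fun z => Complex.log (z / z₁) + Complex.log z₁ with hl
    have hexp : ∀ z : ℂ, z ≠ 0 → Complex.exp (l z) = z := by
      intro z hz
      rw [hl]
      simp only
      rw [Complex.exp_add, Complex.exp_log (div_ne_zero hz h2), Complex.exp_log h2, div_mul_cancel₀ _ h2]
    have hlc : ContinuousAt l z₁ := by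
      have hsl : z₁ / z₁ ∈ Complex.slitPlane := by
        rw [div_self h2]
        exact Complex.one_mem_slitPlane
      have : ContinuousAt (fun z : ℂ => z / z₁) z₁ := continuousAt_id.div_const z₁
      exact (this.clog hsl).add continuousAt_const
    have hcomp : ContinuousWithinAt (fun z => H (d * l z)) (closedBall (0 : ℂ) 1 \ {0}) z₁ := by
      have hmem : (d : ℂ) * l z₁ ∈ HP := hHP z₁ h1 _ (hexp z₁ h2)
      have := hH (d * l z₁) hmem
      refine ContinuousWithinAt.comp (t := HP) this ?_ ?_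
      · exact (continuousAt_const.mul hlc).continuousWithinAt
      · intro z hz
        obtain ⟨h3, h4⟩ := hA z hz
        exact hHP z h3 _ (hexp z h4)
    refine hcomp.congr ?_ ?_
    · intro z hz
      obtain ⟨h3, h4⟩ := hA z hz
      exact hlogs z h3 _ _ (Complex.exp_log h4) (hexp z h4)
    · exact hlogs z₁ h1 _ _ (Complex.exp_log h2) (hexp z₁ h2)
  have hpow : ∀ z ∈ closedBall (0 : ℂ) 1, z ^ d ∈ closedBall (0 : ℂ) 1 := by
    intro z hz
    rw [mem_closedBall_zero_iff] at hz ⊢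
    rw [norm_pow]
    exact pow_le_one₀ (norm_nonneg z) hz
  have hsub : closedBall (0 : ℂ) 1 ⊆ closure (closedBall (0 : ℂ) 1 \ {0}) := by
    intro b hb
    by_cases hb0 : b = 0
    · subst hb0
      rw [Metric.mem_closure_iff]
      intro ε hε
      have hm : 0 < min (ε / 2) 1 := lt_min (by linarith) one_pos
      refine ⟨((min (ε / 2) 1 : ℝ) : ℂ), ⟨?_, ?_⟩, ?_⟩
      · rw [mem_closedBall_zero_iff, Complex.norm_real, Real.norm_eq_abs, abs_of_pos hm]
        exact min_le_right _ _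
      · intro hh
        have hh' : ((min (ε / 2) 1 : ℝ) : ℂ) = 0 := hh
        have : (min (ε / 2) 1 : ℝ) = 0 := by exact_mod_cast hh'
        linarith
      · rw [dist_zero_left, Complex.norm_real, Real.norm_eq_abs, abs_of_pos hm]
        exact (min_le_left _ _).trans_lt (by linarith)
    · exact subset_closure ⟨hb, hb0⟩
  have hloc : ∀ b ∈ closedBall (0 : ℂ) 1, ∀ W ∈ 𝓝 b, ∃ W' ∈ 𝓝 b, W' ⊆ W ∧
      IsPreconnected (W' ∩ (closedBall (0 : ℂ) 1 \ {0})) := by
    intro b hb W hW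
    obtain ⟨r, hr, hrW⟩ := Metric.mem_nhds_iff.1 hW
    by_cases hb0 : b = 0
    · subst hb0
      have hm : 0 < min r 1 := lt_min hr one_pos
      refine ⟨ball 0 (min r 1), ball_mem_nhds _ hm, (ball_subset_ball (min_le_left _ _)).trans hrW, ?_⟩
      have : ball (0 : ℂ) (min r 1) ∩ (closedBall (0 : ℂ) 1 \ {0}) = ball (0 : ℂ) (min r 1) \ {0} := by
        ext z
        constructor
        · rintro ⟨h1, -, h2⟩
          exact ⟨h1, h2⟩
        · rintro ⟨h1, h2⟩
          refine ⟨h1, ?_, h2⟩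
          rw [mem_closedBall_zero_iff]
          rw [mem_ball_zero_iff] at h1
          exact (h1.trans_le (min_le_right _ _)).le
      rw [this]
      exact lel_punct hm
    · have hbn : 0 < ‖b‖ := norm_pos_iff.2 hb0
      have hm : 0 < min r ‖b‖ := lt_min hr hbn
      refine ⟨ball b (min r ‖b‖), ball_mem_nhds _ hm, (ball_subset_ball (min_le_left _ _)).trans hrW, ?_⟩
      have : ball b (min r ‖b‖) ∩ (closedBall (0 : ℂ) 1 \ {0}) = ball b (min r ‖b‖) ∩ closedBall (0 : ℂ) 1 := by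
        ext z
        constructor
        · rintro ⟨h1, h2, -⟩
          exact ⟨h1, h2⟩
        · rintro ⟨h1, h2⟩
          refine ⟨h1, h2, ?_⟩
          rintro rfl
          rw [mem_ball, dist_zero_left] at h1
          exact absurd (h1.trans_le (min_le_right _ _)) (lt_irrefl _)
      rw [this]
      exact ((convex_ball _ _).inter (convex_closedBall _ _)).isPreconnected
  obtain ⟨Ψ, hΨc, hΨe, hΨf⟩ := extend_fin h.cont h.fin (A := closedBall (0 : ℂ) 1 \ {0}) (B := closedBall (0 : ℂ) 1)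
    sdiff_subset hsub hcont₀ (Φ := fun z => Φ (z ^ d)) (hΦ.comp (by fun_prop) hpow) hfΨ hloc
  refine ⟨d, Ψ, hd, hΨc, ?_, hΨf, ?_, hexists⟩
  · have hz0 : ∀ z ∈ closedBall (0 : ℂ) 1, Ψ z = Ψ 0 → z = 0 := by
      intro z hz hzz
      have h0 : (0 : ℂ) ∈ closedBall (0 : ℂ) 1 := by simp
      have h1 := hΨf z hz
      rw [hzz, hΨf 0 h0] at h1
      have h2 := hi (hpow 0 h0) (hpow z hz) h1
      rw [zero_pow (by omega)] at h2
      exact pow_eq_zero_iff (by omega) |>.1 h2.symm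
    intro z hz z' hz' hzz
    by_cases h1 : z = 0
    · subst h1
      exact (hz0 z' hz' hzz.symm).symm
    · by_cases h2 : z' = 0
      · subst h2
        exact absurd (hz0 z hz hzz) h1
      · rw [hΨe ⟨hz, h1⟩, hΨe ⟨hz', h2⟩] at hzz
        exact hinj₀ ⟨hz, h1⟩ ⟨hz', h2⟩ hzz
  · intro w hw'
    obtain ⟨h1, h2⟩ := hw w hw'
    rw [hΨe h1, h2]

end Pool.ETM
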