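import Mathlib
import Pool.Agent.ETM.LeE
import Pool.Agent.ETM.LeJ
import Pool.Agent.ETM.LeL
import Pool.Agent.JS.Inv

set_option autoImplicit false

/-!
MODULE LeM (difficulty 4).  2.4 (LD) of the paper: a component `V` of the preimage of a Jordan domain `U` with at most one point of `P` (none on the frontier) is a Jordan domain; in suitable coordinates `f` is `z ↦ z ^ d` on `closure V`.

RECIPE.  `V` is open and nonempty, so infinite (`sph_infinite`), and the fibre of `p` is finite: choose `x ∈ V` with `f x ≠ p`; `f x = Φ z₀`, `z₀ ∈ ball 0 1`, `z₀ ≠ 0`, `z₀ = exp w₀`, `w₀ ∈ HP`.  `half_lift` gives `H` with `H w₀ = x`; `disc_lift` gives `d`, `Ψ`.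
(1) `V' := Ψ '' ball 0 1` is preconnected, contained in `f ⁻¹' U` (`f (Ψ z) = Φ (z ^ d)`) and contains `x = Ψ (exp (w₀ / d))`.
(2) `closure V' ∩ f ⁻¹' U ⊆ V'`: `closure V' ⊆ Ψ '' closedBall 0 1` (compact), and `Ψ z` with `‖z‖ = 1` is mapped to `Φ (z ^ d) ∈ frontier U`, disjoint from `U`.
(3) `V' \ {Ψ 0}` is open: let `z ∈ ball 0 1`, `z ≠ 0`, `y = Ψ z`; `f y ∉ P`; `f` is injective on an open `W ∋ y` (`locInj`).  The map `u z = Φ (z ^ d)` maps every neighbourhood of `z` to a neighbourhood of `f y`: `z ↦ z ^ d` is a local homeomorphism at `z ≠ 0` (`HasStrictDerivAt` with nonzero derivative: `map_nhds_eq`), and `Φ` restricted to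
`ball 0 1` is a homeomorphism onto the open set `U` (inverse `τ` of `exists_inverse` JS/Inv is continuous on `closure U`).  So for a neighbourhood `N` of `z` with `Ψ '' N ⊆ W`, `N ⊆ ball 0 1 \ {0}`, the set `f '' (Ψ '' N) = u '' N` is a neighbourhood of `f y`, and `W ∩ f ⁻¹' (u '' N)` is a neighbourhood of `y` contained in `Ψ '' N` (`f` injective on `W`).
(4) `V'` is a neighbourhood of `q₀ := Ψ 0`: by `exists_disc` take an open `B ∋ q₀`, `B ⊆ f ⁻¹' U`, `B ∩ f ⁻¹' {p} = {q₀}` (finite fibre) with `B \ {q₀}` preconnected.  `B \ {q₀}` is contained in `f ⁻¹' (U \ {p})`, where `V' \ {q₀}` is relatively closed by (2) and open by (3); it meets `V' \ {q₀}` (`Ψ z → q₀` for `z → 0`, `z ≠ 0`), so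
`B \ {q₀} ⊆ V'`.
(5) So `V'` is open, relatively closed in `f ⁻¹' U`, preconnected: `V' = V` (`V' ⊆ V` by `sub_of`; `V ⊆ V'` by preconnectedness of `V`).  `closure V = Ψ '' closedBall 0 1` (`⊇`: `ContinuousOn.image_closure`, `closure_ball`), `frontier V = closure V \ V = Ψ '' sphere 0 1`.
`ld_comp` is `ld` with `disc_center`.  `ld_fib`: `f (Ψ z) = p = Φ 0` iff `z ^ d = 0` iff `z = 0`.
-/

open Set Metric Topology Filter
open Pool.JS

namespace Pool.ETM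

variable {X : Type*} [TopologicalSpace X] [CompactSpace X] [T2Space X] [Sph X] {f : X → X} {P U V : Set X} {p : X}

private theorem lem_re_div {w : ℂ} {d : ℕ} : (w / (d : ℂ)).re = w.re / d := Complex.div_natCast_re w d

/-- the parametrised form: `Φ` parametrises `closure U` with centre `p` -/
theorem Dyn.ld (h : Dyn f P) (hU : IsOpen U) {Φ : ℂ → X} (hΦ : ContinuousOn Φ (closedBall 0 1))
    (hi : InjOn Φ (closedBall 0 1)) (hD : Φ '' closedBall 0 1 = closure U) (hF : Φ '' sphere 0 1 = frontier U)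
    (hB : Φ '' ball 0 1 = U) (h0 : Φ 0 = p) (hPU : U ∩ P ⊆ {p}) (hPF : Disjoint (frontier U) P)
    (hV : IsComp V (f ⁻¹' U)) :
    ∃ (d : ℕ) (Ψ H : ℂ → X), 1 ≤ d ∧ ContinuousOn Ψ (closedBall 0 1) ∧ InjOn Ψ (closedBall 0 1) ∧
      Ψ '' closedBall 0 1 = closure V ∧ Ψ '' sphere 0 1 = frontier V ∧ Ψ '' ball 0 1 = V ∧
      (∀ z ∈ closedBall (0 : ℂ) 1, f (Ψ z) = Φ (z ^ d)) ∧ ContinuousOn H HP ∧
      (∀ w ∈ HP, f (H w) = Φ (Complex.exp w)) ∧ H '' HP = closure V \ {Ψ 0} ∧ f (Ψ 0) = p := by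
  have h0B : (0 : ℂ) ∈ ball (0 : ℂ) 1 := by simp
  have h0C : (0 : ℂ) ∈ closedBall (0 : ℂ) 1 := by simp
  have hbc : ball (0 : ℂ) 1 ⊆ closedBall (0 : ℂ) 1 := ball_subset_closedBall
  have hPd : ∀ z ∈ closedBall (0 : ℂ) 1, z ≠ 0 → Φ z ∉ P := by
    intro z hz hz0 hzP
    rcases eq_or_lt_of_le (mem_closedBall_zero_iff.1 hz) with hz1 | hz1
    · have hs : Φ z ∈ frontier U := by
        rw [← hF]
        exact ⟨z, by simpa using hz1, rfl⟩
      exact Set.disjoint_left.1 hPF hs hzP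
    · have hzU : Φ z ∈ U := by
        rw [← hB]
        exact ⟨z, by simpa using hz1, rfl⟩
      have : Φ z = p := hPU ⟨hzU, hzP⟩
      exact hz0 (hi hz h0C (this.trans h0.symm))
  have hVo : IsOpen V := h.comp_isOpen hU hV
  obtain ⟨x, hxV, hxp⟩ : ∃ x ∈ V, f x ≠ p := by
    have hinf : V.Infinite := sph_infinite hVo hV.ne
    obtain ⟨x, hx, hx'⟩ := hinf.exists_notMem_finite (h.fin p)
    exact ⟨x, hx, fun hh => hx' hh⟩
  have hxU : f x ∈ U := hV.subset hxV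
  obtain ⟨z₀, hz₀, hz₀x⟩ : ∃ z₀ ∈ ball (0 : ℂ) 1, Φ z₀ = f x := by
    rw [← hB] at hxU
    exact hxU
  have hz₀0 : z₀ ≠ 0 := by
    rintro rfl
    exact hxp (hz₀x.symm.trans h0)
  have hw₀re : (Complex.log z₀).re < 0 := by
    rw [Complex.log_re]
    exact Real.log_neg (norm_pos_iff.2 hz₀0) (mem_ball_zero_iff.1 hz₀)
  have hw₀ : Complex.log z₀ ∈ HP := hw₀re.le
  obtain ⟨H, hHc, hHx, hHf⟩ := h.half_lift hΦ hPd hw₀ (x := x) (by rw [Complex.exp_log hz₀0, hz₀x])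
  obtain ⟨d, Ψ, hd, hΨc, hΨi, hΨf, hΨH, hΨs⟩ := h.disc_lift hΦ hi hPd hHc hHf
  have hdR : (0 : ℝ) < d := by exact_mod_cast hd
  have hfq : f (Ψ 0) = p := by
    rw [hΨf 0 h0C, zero_pow (by omega), h0]
  have hpowB : ∀ z ∈ ball (0 : ℂ) 1, z ^ d ∈ ball (0 : ℂ) 1 := by
    intro z hz
    rw [mem_ball_zero_iff] at hz ⊢
    rw [norm_pow]
    exact pow_lt_one₀ (norm_nonneg z) hz (by omega)
  have hpowC : ∀ z ∈ closedBall (0 : ℂ) 1, z ^ d ∈ closedBall (0 : ℂ) 1 := by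
    intro z hz
    rw [mem_closedBall_zero_iff] at hz ⊢
    rw [norm_pow]
    exact pow_le_one₀ (norm_nonneg z) hz
  have hexpC : ∀ w ∈ HP, Complex.exp (w / d) ∈ closedBall (0 : ℂ) 1 := by
    intro w hw
    have hw' : w.re ≤ 0 := hw
    rw [mem_closedBall_zero_iff, Complex.norm_exp, lem_re_div]
    exact Real.exp_le_one_iff.2 (div_nonpos_of_nonpos_of_nonneg hw' hdR.le)
  set V' : Set X := Ψ '' ball 0 1 with hV'
  have hV'pre : IsPreconnected V' := (convex_ball (0 : ℂ) 1).isPreconnected.image Ψ (hΨc.mono hbc)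
  have hV'U : V' ⊆ f ⁻¹' U := by
    rintro y ⟨z, hz, rfl⟩
    change f (Ψ z) ∈ U
    rw [hΨf z (hbc hz), ← hB]
    exact ⟨_, hpowB z hz, rfl⟩
  have hxV' : x ∈ V' := by
    refine ⟨Complex.exp (Complex.log z₀ / d), ?_, ?_⟩
    · rw [mem_ball_zero_iff, Complex.norm_exp, lem_re_div]
      exact Real.exp_lt_one_iff.2 (div_neg_of_neg_of_pos hw₀re hdR)
    · rw [hΨH _ hw₀, hHx]
  have hV'V : V' ⊆ V := hV.sub_of hV'pre hV'U ⟨x, hxV', hxV⟩
  have hcompact : IsCompact (Ψ '' closedBall 0 1) := (isCompact_closedBall 0 1).image_of_continuousOn hΨc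
  have hcl : closure V' ⊆ Ψ '' closedBall 0 1 := closure_minimal (image_mono hbc) hcompact.isClosed
  have hclos : ∀ y ∈ closure V', f y ∈ U → y ∈ V' := by
    intro y hy hyU
    obtain ⟨z, hz, rfl⟩ := hcl hy
    rw [hΨf z hz, ← hB] at hyU
    obtain ⟨z', hz', hzz⟩ := hyU
    have := hi (hbc hz') (hpowC z hz) hzz
    refine ⟨z, ?_, rfl⟩
    rw [this, mem_ball_zero_iff, norm_pow] at hz'
    rw [mem_ball_zero_iff]
    by_contra hcon
    push Not at hcon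
    exact absurd hz' (not_lt.2 (one_le_pow₀ hcon))
  obtain ⟨τ, hτc, hτ⟩ := exists_inverse (isCompact_closedBall (0 : ℂ) 1) hΦ hi
  rw [hD] at hτc
  have hΦnhd : ∀ z ∈ ball (0 : ℂ) 1, ∀ M ∈ 𝓝 z, M ⊆ ball (0 : ℂ) 1 → Φ '' M ∈ 𝓝 (Φ z) := by
    intro z hz M hM hMB
    have hzU : Φ z ∈ U := by
      rw [← hB]
      exact ⟨z, hz, rfl⟩
    have hUn : U ∈ 𝓝 (Φ z) := hU.mem_nhds hzU
    have hτa : ContinuousAt τ (Φ z) := hτc.continuousAt (mem_of_superset hUn subset_closure)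
    have hM' : M ∈ 𝓝 (τ (Φ z)) := by rwa [hτ z (hbc hz)]
    filter_upwards [hUn, hτa hM'] with y hy hyM
    rw [← hB] at hy
    obtain ⟨c, hc, rfl⟩ := hy
    have hcM : τ (Φ c) ∈ M := hyM
    rw [hτ c (hbc hc)] at hcM
    exact ⟨c, hcM, rfl⟩
  have hΨat : ∀ z ∈ ball (0 : ℂ) 1, ContinuousAt Ψ z := fun z hz =>
    hΨc.continuousAt (mem_of_superset (isOpen_ball.mem_nhds hz) hbc)
  have hnhd : ∀ z ∈ ball (0 : ℂ) 1, z ≠ 0 → V' ∈ 𝓝 (Ψ z) := by
    intro z hz hz0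
    have hfz : f (Ψ z) = Φ (z ^ d) := hΨf z (hbc hz)
    have hnP : f (Ψ z) ∉ P := by
      rw [hfz]
      exact hPd _ (hpowC z (hbc hz)) (pow_ne_zero _ hz0)
    obtain ⟨W, hWo, hWz, hWi⟩ := h.locInj hnP
    set N : Set ℂ := ball (0 : ℂ) 1 ∩ Ψ ⁻¹' W with hN
    have hNn : N ∈ 𝓝 z := inter_mem (isOpen_ball.mem_nhds hz) (hΨat z hz (hWo.mem_nhds hWz))
    have hpn : (fun w : ℂ => w ^ d) '' N ∈ 𝓝 (z ^ d) := by
      have hder := (hasStrictDerivAt_pow d z).map_nhds_eq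
        (mul_ne_zero (by exact_mod_cast hdR.ne') (pow_ne_zero _ hz0))
      rw [← hder]
      exact image_mem_map hNn
    have hsub : (fun w : ℂ => w ^ d) '' N ⊆ ball (0 : ℂ) 1 := by
      rintro w ⟨v, hv, rfl⟩
      exact hpowB v hv.1
    have hΦn := hΦnhd _ (hpowB z hz) _ hpn hsub
    rw [← hfz] at hΦn
    filter_upwards [hWo.mem_nhds hWz, h.cont.continuousAt hΦn] with y hyW hyf
    obtain ⟨w, ⟨v, hv, rfl⟩, hvy⟩ := hyf
    have hfv : f (Ψ v) = f y := by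
      rw [hΨf v (hbc hv.1)]
      exact hvy
    have := hWi hv.2 hyW hfv
    exact ⟨v, hv.1, this⟩
  have hnhd0 : V' ∈ 𝓝 (Ψ 0) := by
    have hW : f ⁻¹' U ∩ ((f ⁻¹' {p}) \ {Ψ 0})ᶜ ∈ 𝓝 (Ψ 0) := by
      refine inter_mem ?_ ?_
      · refine (hU.preimage h.cont).mem_nhds ?_
        exact hV'U ⟨0, h0B, rfl⟩
      · refine IsOpen.mem_nhds ?_ ?_
        · exact ((h.fin p).subset sdiff_subset).isClosed.isOpen_compl
        · rintro ⟨-, hh⟩
          exact hh rfl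
    obtain ⟨B, hqB, hBW, hBJ, -, hBpre⟩ := exists_disc hW
    have hu : IsOpen (V' \ {Ψ 0}) := by
      rw [isOpen_iff_mem_nhds]
      rintro y ⟨⟨z, hz, rfl⟩, hy⟩
      have hz0 : z ≠ 0 := by
        rintro rfl
        exact hy rfl
      exact inter_mem (hnhd z hz hz0) (isOpen_compl_singleton.mem_nhds hy)
    have hBsub : B \ {Ψ 0} ⊆ V' \ {Ψ 0} := by
      refine IsPreconnected.subset_left_of_subset_union hu (isClosed_closure (s := V')).isOpen_compl ?_ ?_ ?_ hBpre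
      · rw [Set.disjoint_left]
        rintro y ⟨hy, -⟩ hy'
        exact hy' (subset_closure hy)
      · rintro y ⟨hyB, hyq⟩
        by_cases hyc : y ∈ closure V'
        · left
          exact ⟨hclos y hyc (hBW (subset_closure hyB)).1, hyq⟩
        · exact Or.inr hyc
      · have h1 : Ψ ⁻¹' B ∩ ball (0 : ℂ) 1 ∈ 𝓝 (0 : ℂ) :=
          inter_mem (hΨat 0 h0B (hBJ.1.mem_nhds hqB)) (isOpen_ball.mem_nhds h0B)
        have h2 : Ψ ⁻¹' B ∩ ball (0 : ℂ) 1 ∈ 𝓝[≠] (0 : ℂ) := mem_nhdsWithin_of_mem_nhds h1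
        obtain ⟨z, ⟨hzB, hzb⟩, hz0⟩ := (inter_mem h2 self_mem_nhdsWithin : _ ∈ 𝓝[≠] (0 : ℂ)) |> Filter.nonempty_of_mem
        have hne : Ψ z ≠ Ψ 0 := fun hh => hz0 (hΨi (hbc hzb) h0C hh)
        exact ⟨Ψ z, ⟨hzB, hne⟩, ⟨z, hzb, rfl⟩, hne⟩
    refine mem_of_superset (hBJ.1.mem_nhds hqB) ?_
    intro y hy
    by_cases hyq : y = Ψ 0
    · rw [hyq]
      exact ⟨0, h0B, rfl⟩
    · exact (hBsub ⟨hy, hyq⟩).1
  have hV'o : IsOpen V' := by
    rw [isOpen_iff_mem_nhds]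
    rintro y ⟨z, hz, rfl⟩
    by_cases hz0 : z = 0
    · subst hz0
      exact hnhd0
    · exact hnhd z hz hz0
  have hVV' : V = V' := by
    apply Subset.antisymm _ hV'V
    refine IsPreconnected.subset_left_of_subset_union hV'o (isClosed_closure (s := V')).isOpen_compl ?_ ?_
      ⟨x, hxV, hxV'⟩ hV.conn
    · rw [Set.disjoint_left]
      intro y hy hy'
      exact hy' (subset_closure hy)
    · intro y hy
      by_cases hyc : y ∈ closure V'
      · exact Or.inl (hclos y hyc (hV.subset hy))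
      · exact Or.inr hyc
  have hclV : Ψ '' closedBall 0 1 = closure V := by
    rw [hVV']
    apply Subset.antisymm _ hcl
    have h1 : closure (ball (0 : ℂ) 1) = closedBall 0 1 := closure_ball 0 one_ne_zero
    have h2 : ContinuousOn Ψ (closure (ball (0 : ℂ) 1)) := by rwa [h1]
    have h3 := h2.image_closure
    rwa [h1] at h3
  refine ⟨d, Ψ, H, hd, hΨc, hΨi, hclV, ?_, hVV'.symm, hΨf, hHc, hHf, ?_, hfq⟩
  · rw [frontier, hVo.interior_eq, ← hclV]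
    apply Subset.antisymm
    · rintro y ⟨z, hz, rfl⟩
      refine ⟨⟨z, sphere_subset_closedBall hz, rfl⟩, ?_⟩
      rw [hVV']
      rintro ⟨z', hz', hzz⟩
      have := hΨi (hbc hz') (sphere_subset_closedBall hz) hzz
      subst this
      rw [mem_ball_zero_iff] at hz'
      rw [mem_sphere_zero_iff_norm] at hz
      linarith
    · rintro y ⟨⟨z, hz, rfl⟩, hy⟩
      refine ⟨z, ?_, rfl⟩
      rw [mem_sphere_zero_iff_norm]
      rw [mem_closedBall_zero_iff] at hz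
      by_contra hne
      apply hy
      rw [hVV']
      exact ⟨z, mem_ball_zero_iff.2 (lt_of_le_of_ne hz hne), rfl⟩
  · rw [← hclV]
    apply Subset.antisymm
    · rintro y ⟨w, hw, rfl⟩
      rw [← hΨH w hw]
      refine ⟨⟨_, hexpC w hw, rfl⟩, ?_⟩
      intro hh
      exact Complex.exp_ne_zero _ (hΨi (hexpC w hw) h0C hh)
    · rintro y ⟨⟨z, hz, rfl⟩, hy⟩
      have hz0 : z ≠ 0 := by
        rintro rfl
        exact hy rfl
      obtain ⟨w, hw, hzw⟩ := hΨs z hz hz0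
      refine ⟨w, hw, ?_⟩
      rw [hzw, hΨH w hw]

theorem Dyn.ld_comp (h : Dyn f P) (hU : JDom U) (hp : p ∈ U) (hPU : U ∩ P ⊆ {p}) (hPF : Disjoint (frontier U) P)
    (hV : IsComp V (f ⁻¹' U)) : JDom V ∧ ∃ q, V ∩ f ⁻¹' {p} = {q} := by
  obtain ⟨Φ, hΦ, hi, hD, hF, hB, h0⟩ := disc_center hU.2 hp
  obtain ⟨d, Ψ, H, hd, hΨc, hΨi, hΨC, hΨS, hΨB, hΨf, -, -, -, hq⟩ :=
    h.ld hU.1 hΦ hi hD hF hB h0 hPU hPF hV
  refine ⟨⟨h.comp_isOpen hU.1 hV, Ψ, hΨc, hΨi, hΨC, hΨS, hΨB⟩, Ψ 0, ?_⟩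
  have h0C : (0 : ℂ) ∈ closedBall (0 : ℂ) 1 := by simp
  apply Subset.antisymm
  · rintro y ⟨hy, hyp⟩
    rw [← hΨB] at hy
    obtain ⟨z, hz, rfl⟩ := hy
    have hzC : z ∈ closedBall (0 : ℂ) 1 := ball_subset_closedBall hz
    have h1 : f (Ψ z) = p := hyp
    rw [hΨf z hzC, ← h0] at h1
    have hzd : z ^ d ∈ closedBall (0 : ℂ) 1 := by
      rw [mem_closedBall_zero_iff] at hzC ⊢
      rw [norm_pow]
      exact pow_le_one₀ (norm_nonneg z) hzC
    have h2 := hi hzd h0C h1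
    have h3 : z = 0 := (pow_eq_zero_iff (by omega)).1 h2
    rw [h3]
    rfl
  · rintro y rfl
    refine ⟨?_, hq⟩
    rw [← hΨB]
    exact ⟨0, by simp, rfl⟩

end Pool.ETM
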