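import Mathlib
import Pool.Agent.ETM.LeD
import Pool.Agent.ETM.LeG
import Pool.Agent.JS.Inv

set_option autoImplicit false

/-!
MODULE LeH (difficulty 3).  Components of the preimages of embedded convex sets and of simply connected open sets are mapped homeomorphically (2.2 and the core of 2.5 of the paper).

RECIPE.  `conv_comp`: choose `x ∈ V` (`hV.ne`), `f x = γ c₀` with `c₀ ∈ C`; `lift_closure` gives `δ` with `δ c₀ = x`, `f ∘ δ = γ` on `closure C`.  `δ` is injective on `closure C` since `γ` is.  `δ '' C` is preconnected, contained in `f ⁻¹' (γ '' C)` and contains `x`: `δ '' C ⊆ V` (`IsComp.sub_of`).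
Conversely let `τ` be a continuous inverse of `γ` on `γ '' closure C` (`exists_inverse` of JS/Inv, `closure C` compact): `τ (γ c) = c`.  On the preconnected set `V` the maps `id` and `y ↦ δ (τ (f y))` are continuous, have the same composition with `f` (`f y = γ c`, `c ∈ C`, `f (δ (τ (γ c))) = γ c`), the values `f y = γ c` are not in `P`, and they agree
at `x`: `Dyn.eqOn`; so `y = δ (τ (f y)) ∈ δ '' C`.  `closure V = δ '' closure C`: `δ '' closure C` is compact, contains `V = δ '' C` and is contained in `closure (δ '' C)` (`ContinuousOn.image_closure`).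
`sc_comp`: the same with the branch `g` of `lift_sc` (`g (f x) = x`): `g '' D ⊆ V` (preconnected: `IsSimplyConnected` gives path connected), and on `V` the maps `id` and `g ∘ f` agree at `x`.  So `g (f y) = y` on `V`, `f` is injective on `V`, `f '' V = D`, `V = g '' D`.
`IsSimplyConnected V`: `V` is homeomorphic to `D` (`g` restricted to `D` has the continuous inverse `f`): use that a homeomorphism / homotopy equivalence transports simple connectedness (`Homeomorph` between the subtypes, `SimplyConnectedSpace`; see `IsInducing/IsEmbedding ... isSimplyConnected` in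
`Mathlib/AlgebraicTopology/FundamentalGroupoid/SimplyConnected.lean`).
-/

open Set Metric Topology Filter
open Pool.JS

namespace Pool.ETM

variable {X : Type*} [TopologicalSpace X] [CompactSpace X] [T2Space X] {f : X → X} {P V : Set X}

theorem Dyn.conv_comp (h : Dyn f P) {E : Type*} [NormedAddCommGroup E] [NormedSpace ℝ E] {C : Set E}
    (hC : Convex ℝ C) (hK : IsCompact (closure C)) {γ : E → X} (hγ : ContinuousOn γ (closure C))
    (hi : InjOn γ (closure C)) (hP : ∀ c ∈ C, γ c ∉ P) (hV : IsComp V (f ⁻¹' (γ '' C))) :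
    ∃ δ : E → X, ContinuousOn δ (closure C) ∧ InjOn δ (closure C) ∧ (∀ c ∈ closure C, f (δ c) = γ c) ∧
      δ '' C = V ∧ δ '' closure C = closure V := by
  obtain ⟨x, hx⟩ := hV.ne
  obtain ⟨c₀, hc₀, hxc⟩ := hV.subset hx
  obtain ⟨δ, h1, h2, h3⟩ := h.lift_closure hC hγ hP hc₀ hxc.symm
  have hiδ : InjOn δ (closure C) := by
    intro c hc c' hc' hcc
    apply hi hc hc'
    rw [← h3 c hc, ← h3 c' hc', hcc]
  have hsub : δ '' C ⊆ V := by
    refine hV.sub_of (hC.isPreconnected.image δ (h1.mono subset_closure)) ?_ ⟨x, ⟨c₀, hc₀, h2⟩, hx⟩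
    rintro _ ⟨c, hc, rfl⟩
    exact ⟨c, hc, (h3 c (subset_closure hc)).symm⟩
  obtain ⟨τ, hτ, hτγ⟩ := exists_inverse hK hγ hi
  have hVC : ∀ y ∈ V, ∃ c ∈ C, γ c = f y := fun y hy => hV.subset hy
  have heq : EqOn (fun y => y) (fun y => δ (τ (f y))) V := by
    refine h.eqOn hV.conn continuousOn_id ?_ ?_ ?_ hx ?_
    · refine h1.comp (hτ.comp h.cont.continuousOn ?_) ?_
      · intro y hy
        obtain ⟨c, hc, hcy⟩ := hVC y hy
        exact ⟨c, subset_closure hc, hcy⟩
      · intro y hy
        obtain ⟨c, hc, hcy⟩ := hVC y hy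
        show τ (f y) ∈ closure C
        rw [← hcy, hτγ c (subset_closure hc)]
        exact subset_closure hc
    · intro y hy
      obtain ⟨c, hc, hcy⟩ := hVC y hy
      show f y = f (δ (τ (f y)))
      rw [← hcy, hτγ c (subset_closure hc), h3 c (subset_closure hc)]
    · intro y hy
      obtain ⟨c, hc, hcy⟩ := hVC y hy
      show f y ∉ P
      rw [← hcy]
      exact hP c hc
    · show x = δ (τ (f x))
      rw [← hxc, hτγ c₀ (subset_closure hc₀), h2]
  have hVδ : δ '' C = V := by
    apply Subset.antisymm hsub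
    intro y hy
    obtain ⟨c, hc, hcy⟩ := hVC y hy
    refine ⟨c, hc, ?_⟩
    have h4 : y = δ (τ (f y)) := heq hy
    rw [h4, ← hcy, hτγ c (subset_closure hc)]
  refine ⟨δ, h1, hiδ, h3, hVδ, ?_⟩
  apply Subset.antisymm
  · rw [← hVδ]
    exact h1.image_closure
  · refine closure_minimal ?_ (hK.image_of_continuousOn h1).isClosed
    rw [← hVδ]
    exact image_mono subset_closure

theorem Dyn.sc_comp [LocallyPathConnectedSpace X] (h : Dyn f P) {D : Set X} (hD : IsOpen D)
    (hsc : IsSimplyConnected D) (hDP : Disjoint D P) (hV : IsComp V (f ⁻¹' D)) :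
    InjOn f V ∧ f '' V = D ∧ IsOpen V ∧ IsSimplyConnected V ∧
      ∃ g : X → X, ContinuousOn g D ∧ (∀ y ∈ D, g y ∈ V ∧ f (g y) = y) ∧ ∀ x ∈ V, g (f x) = x := by
  obtain ⟨x, hx⟩ := hV.ne
  have hxD : f x ∈ D := hV.subset hx
  obtain ⟨g, h1, h2, h3⟩ := h.lift_sc hD hsc hDP hxD
  have hsub : g '' D ⊆ V := by
    refine hV.sub_of (hsc.isPathConnected.isConnected.isPreconnected.image g h1) ?_ ⟨x, ⟨f x, hxD, h2⟩, hx⟩
    rintro _ ⟨y, hy, rfl⟩
    show f (g y) ∈ D
    rw [h3 y hy]
    exact hy
  have hVD : ∀ y ∈ V, f y ∈ D := fun y hy => hV.subset hy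
  have heq : EqOn (fun y => y) (fun y => g (f y)) V := by
    refine h.eqOn hV.conn continuousOn_id (h1.comp h.cont.continuousOn hVD) ?_ ?_ hx h2.symm
    · intro y hy
      show f y = f (g (f y))
      rw [h3 _ (hVD y hy)]
    · intro y hy
      exact fun hP => Set.disjoint_left.1 hDP (hVD y hy) hP
  have hgf : ∀ y ∈ V, g (f y) = y := fun y hy => (heq hy).symm
  have hgV : ∀ y ∈ D, g y ∈ V := fun y hy => hsub ⟨y, hy, rfl⟩
  refine ⟨?_, ?_, hV.isOpen (hD.preimage h.cont), ?_, g, h1, fun y hy => ⟨hgV y hy, h3 y hy⟩, hgf⟩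
  · intro y hy y' hy' hyy
    rw [← hgf y hy, ← hgf y' hy', hyy]
  · apply Subset.antisymm
    · rintro _ ⟨y, hy, rfl⟩
      exact hVD y hy
    · intro y hy
      exact ⟨g y, hgV y hy, h3 y hy⟩
  · let e : V ≃ₜ D :=
      { toFun := fun y => ⟨f y.1, hVD y.1 y.2⟩
        invFun := fun y => ⟨g y.1, hgV y.1 y.2⟩
        left_inv := fun y => Subtype.ext (hgf y.1 y.2)
        right_inv := fun y => Subtype.ext (h3 y.1 y.2)
        continuous_toFun := Continuous.subtype_mk (h.cont.comp continuous_subtype_val) _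
        continuous_invFun := Continuous.subtype_mk (continuousOn_iff_continuous_restrict.1 h1) _ }
    exact e.toHomotopyEquiv.simplyConnectedSpace_iff.2 hsc.simplyConnectedSpace

end Pool.ETM
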