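import Mathlib
import Pool.Agent.ETM.LeE
import Pool.Agent.ETM.LeH

set_option autoImplicit false

/-!
MODULE LeV (difficulty 4).  2.10 of the paper: the points of period `n` are finitely many.

RECIPE.  `fix_isolated`: let `f^[n] z = z`, `1 ≤ n`.  By `exists_disc` there is an open `B ∋ z` with `B ∩ P ⊆ {z}` (finite `P`), `diam B < η₀` (inside `ball z (η₀ / 3)`), `IsSimplyConnected B`; `ball z r ⊆ B`, `r > 0`.  `m₀` from `contr r`.  Let `N = n * m` with `m ≥ m₀`, `m ≥ 1` (so `N ≥ m₀`, `N ≥ 1`) and `g = f^[N]`; `g z = z`; `Dyn g P` (`iterate`).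
`B j := connectedComponentIn (g^[j] ⁻¹' B) z`, `g^[j] = f^[N * j]`.  For `j ≥ 1`: `diam (B j) < r` (`contr`, `f^[N j] '' B j ⊆ B` has diameter `< η₀`), so `B j ⊆ ball z r ⊆ B`; for every `η > 0`, `diam (B j) < η` for large `j` (`contr η`).
(a) `g ⁻¹' {z} ∩ B 1 = {z}`: if `z ∈ P`: `uv` for `B 1` (`g '' B 1 ⊆ B`): `B 1 ∩ g ⁻¹' P` is a subsingleton containing `z` and any point of `g ⁻¹' {z}`.  If `z ∉ P`: `B ∩ P = ∅`, `Dyn.sc_comp` for `g`, `D = B`: `g` is injective on `B 1`.
(b) if `y ∈ B 1`, `g y = y`, `y ∈ B j`, `j ≥ 1`, then `y ∈ B (j + 1)`: `V := connectedComponentIn (g ⁻¹' B j) y`; `B j` is open and connected; `g '' V = B j ∋ z` (`comp_image`), so there is `z' ∈ V`, `g z' = z`; `V` is preconnected, `V ⊆ g ⁻¹' B j ⊆ g ⁻¹' B`, `y ∈ V ∩ B 1`, so `V ⊆ B 1` (maximality of the component `B 1` of `g ⁻¹' B`); by (a) `z' = z`.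
So `V` is preconnected, contains `y` and `z`, `V ⊆ g^[j+1] ⁻¹' B` (`g '' V = B j ⊆ g^[j] ⁻¹' B`): `V ⊆ B (j + 1)`.
(c) so such a `y` is in all `B j`, `dist y z ≤ diam (B j)`: `y = z`.  A point `y ∈ B 1` with `f^[n] y = y` satisfies `g y = y`.  `B 1` is an open neighbourhood of `z`.
`finite_fix`: the set `{x | f^[n] x = x}` is closed in a compact space and all its points are isolated: finite (`IsCompact.elim_nhds_subcover`).
-/

open Set Metric Topology Filter
open Pool.JS

namespace Pool.ETM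

variable {X : Type*} [MetricSpace X] [CompactSpace X] [Sph X] {f : X → X} {P : Set X} {η₀ : ℝ}

theorem lev_bdd (S : Set X) : Bornology.IsBounded S := (isCompact_univ (X := X)).isBounded.subset (subset_univ S)

theorem Dyn.fix_isolated (h : Dyn f P) (he : Expd f P η₀) {n : ℕ} (hn : 1 ≤ n) {z : X} (hz : f^[n] z = z) :
    ∃ W ∈ 𝓝 z, ∀ y ∈ W, f^[n] y = y → y = z := by
  have hη : 0 < η₀ := he.pos
  have hW : ball z (η₀ / 3) ∩ (P \ {z})ᶜ ∈ 𝓝 z := by
    refine Filter.inter_mem (ball_mem_nhds z (by linarith)) ?_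
    exact (h.finP.subset sdiff_subset).isClosed.isOpen_compl.mem_nhds fun hz' => hz'.2 rfl
  obtain ⟨B, hzB, hBW, hJD, hsc, -⟩ := exists_disc hW
  have hBW' : B ⊆ ball z (η₀ / 3) ∩ (P \ {z})ᶜ := subset_closure.trans hBW
  have hBo : IsOpen B := hJD.1
  have hdB : diam B < η₀ := by
    refine lt_of_le_of_lt (diam_mono (fun x hx => (hBW' hx).1) (lev_bdd _)) ?_
    refine lt_of_le_of_lt (diam_ball (by linarith)) (by linarith)
  obtain ⟨r, hr, hrB⟩ := Metric.isOpen_iff.1 hBo z hzB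
  obtain ⟨m₀, hm₀⟩ := he.contr r hr
  obtain ⟨N, hN, hNm, hNn⟩ : ∃ N : ℕ, 1 ≤ N ∧ m₀ ≤ N ∧ ∀ y, f^[n] y = y → f^[N] y = y := by
    refine ⟨n * (m₀ + 1), ?_, ?_, ?_⟩
    · exact Nat.one_le_iff_ne_zero.2 (Nat.mul_ne_zero (by omega) (by omega))
    · exact le_trans (Nat.le_succ m₀) (Nat.le_mul_of_pos_left _ (by omega))
    · intro y hy
      rw [Function.iterate_mul]
      exact Function.IsFixedPt.iterate (f := f^[n]) hy (m₀ + 1)
  have hgz : f^[N] z = z := hNn z hz
  have hgj : ∀ j, f^[N * j] z = z := by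
    intro j
    rw [Function.iterate_mul]
    exact Function.IsFixedPt.iterate (f := f^[N]) hgz j
  have hg := h.iterate N
  set C : ℕ → Set X := fun j => connectedComponentIn (f^[N * j] ⁻¹' B) z with hC
  have hzC : ∀ j, z ∈ C j := fun j => mem_connectedComponentIn (show f^[N * j] z ∈ B by rw [hgj j]; exact hzB)
  have hCs : ∀ j, C j ⊆ f^[N * j] ⁻¹' B := fun j => connectedComponentIn_subset _ _
  have hCc : ∀ j, IsPreconnected (C j) := fun j => isPreconnected_connectedComponentIn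
  have hCo : ∀ j, IsOpen (C j) := fun j => (hBo.preimage (h.cont.iterate _)).connectedComponentIn
  have hCd : ∀ j, diam (f^[N * j] '' C j) < η₀ := fun j =>
    lt_of_le_of_lt (diam_mono (image_subset_iff.2 (hCs j)) (lev_bdd _)) hdB
  have hCr : ∀ j, 1 ≤ j → C j ⊆ B := by
    intro j hj x hx
    apply hrB
    have h1 : diam (C j) < r := hm₀ (N * j) (hNm.trans (Nat.le_mul_of_pos_right _ (by omega))) (C j) (hCc j) (hCd j)
    exact mem_ball.2 (lt_of_le_of_lt (dist_le_diam_of_mem (lev_bdd _) hx (hzC j)) h1)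
  have e1 : C 1 = connectedComponentIn (f^[N] ⁻¹' B) z := by
    simp only [hC, mul_one]
  have ha : ∀ x ∈ C 1, f^[N] x = z → x = z := by
    intro x hx hxz
    by_cases hzP : z ∈ P
    · have h1 := he.uv N (C 1) (hCc 1) (by have := hCd 1; rwa [mul_one] at this)
      exact h1 ⟨hx, show f^[N] x ∈ P by rw [hxz]; exact hzP⟩ ⟨hzC 1, show f^[N] z ∈ P by rw [hgz]; exact hzP⟩
    · have hdis : Disjoint B P := by
        rw [Set.disjoint_left]
        intro y hy hyP
        by_cases hyz : y = z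
        · rw [hyz] at hyP
          exact hzP hyP
        · exact (hBW' hy).2 ⟨hyP, hyz⟩
      have hV : IsComp (C 1) (f^[N] ⁻¹' B) := by
        rw [e1]
        exact isComp_cc (show f^[N] z ∈ B by rw [hgz]; exact hzB)
      exact (hg.sc_comp hBo hsc hdis hV).1 hx (hzC 1) (hxz.trans hgz.symm)
  have hb : ∀ y ∈ C 1, f^[N] y = y → ∀ j, 1 ≤ j → y ∈ C j := by
    intro y hy1 hgy j hj
    induction j, hj using Nat.le_induction with
    | base => exact hy1
    | succ j hj ih =>
      have hyV : y ∈ f^[N] ⁻¹' C j := show f^[N] y ∈ C j by rw [hgy]; exact ih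
      have hV : IsComp (connectedComponentIn (f^[N] ⁻¹' C j) y) (f^[N] ⁻¹' C j) := isComp_cc hyV
      have him := hg.comp_image (hCo j) (hCc j) hV
      obtain ⟨z', hz'V, hz'⟩ : z ∈ f^[N] '' connectedComponentIn (f^[N] ⁻¹' C j) y := by
        rw [him]
        exact hzC j
      have hVC : connectedComponentIn (f^[N] ⁻¹' C j) y ⊆ C 1 := by
        rw [e1, connectedComponentIn_eq (show y ∈ connectedComponentIn (f^[N] ⁻¹' B) z by rw [← e1]; exact hy1)]
        exact isPreconnected_connectedComponentIn.subset_connectedComponentIn (mem_connectedComponentIn hyV)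
          (hV.subset.trans (preimage_mono (hCr j hj)))
      have hzz : z' = z := ha z' (hVC hz'V) hz'
      rw [hzz] at hz'V
      have hVB : connectedComponentIn (f^[N] ⁻¹' C j) y ⊆ f^[N * (j + 1)] ⁻¹' B := by
        intro x hx
        have h1 : f^[N * j] (f^[N] x) ∈ B := hCs j (hV.subset hx)
        rw [← Function.iterate_add_apply] at h1
        rw [mem_preimage, Nat.mul_succ]
        exact h1
      exact isPreconnected_connectedComponentIn.subset_connectedComponentIn hz'V hVB (mem_connectedComponentIn hyV)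
  refine ⟨C 1, (hCo 1).mem_nhds (hzC 1), fun y hy hfy => ?_⟩
  by_contra hne
  have hpos : 0 < dist y z := dist_pos.2 hne
  obtain ⟨m₁, hm₁⟩ := he.contr (dist y z) hpos
  have hj1 : 1 ≤ m₁ + 1 := by omega
  have h1 : diam (C (m₁ + 1)) < dist y z := by
    refine hm₁ (N * (m₁ + 1)) ?_ (C (m₁ + 1)) (hCc _) (hCd _)
    exact le_trans (Nat.le_succ m₁) (Nat.le_mul_of_pos_left _ (by omega))
  exact absurd (dist_le_diam_of_mem (lev_bdd _) (hb y hy (hNn y hfy) _ hj1) (hzC _)) (not_le.2 h1)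

theorem Dyn.finite_fix (h : Dyn f P) (he : Expd f P η₀) {n : ℕ} (hn : 1 ≤ n) : {x | f^[n] x = x}.Finite := by
  by_contra hinf
  have hcl : IsClosed {x | f^[n] x = x} := isClosed_eq (h.cont.iterate n) continuous_id
  obtain ⟨z, hz, hacc⟩ := Set.Infinite.exists_accPt_of_subset_isCompact hinf hcl.isCompact Subset.rfl
  rw [accPt_iff_frequently] at hacc
  obtain ⟨W, hW, hWy⟩ := h.fix_isolated he hn hz
  exact hacc (Filter.mem_of_superset hW fun y hy hy' => hy'.1 (hWy y hy hy'.2))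

end Pool.ETM
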