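import Pool.Agent.ETM.ZDefs
import Pool.Agent.ETM.LeC
import Pool.Agent.JS.SpC

/-!
ETM, MODULE ZD (difficulty 3): nested discs near a finite set.

RECIPE.  `x∞ : X` not in the finite set `Z ∪ P` (`X` is infinite: `sph_infinite` of LeC for `univ`), chart `σ : ℂ → X` of `{x∞}ᶜ` (`exists_chart`): an open embedding with range `{x∞}ᶜ`.  For `z ∈ Z` let `z' = σ⁻¹ z`.  There is one `ρ > 0` such that for all `z ∈ Z`:
`σ '' closedBall z' ρ` has diameter `< ε` (continuity of `σ` at `z'`), contains no point of `(Z ∪ P) \ {z}` (finitely many points at positive distance in `ℂ`), and the closed balls for different `z` are disjoint.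
`B z = σ '' ball z' ρ`, `D j z = σ '' closedBall z' (ρ * (j + 1) / (j + 2))`.  `JDom (B z)`: `Φ w = σ (z' + ρ w)`; `closure (B z) = σ '' closedBall z' ρ` (`⊇`: continuity; `⊆`: compact, closed), `frontier = σ '' sphere z' ρ`.
Complement of `D j z`: `{x∞} ∪ σ '' {w | r < ‖w - z'‖}`; the set `{w | r < ‖w - z'‖}` is the image of the convex set `{w | log r < re w}` under `z' + exp w`, so it is connected, and `x∞` is in the closure of its image
(`Chart.mem_closure`: it is not bounded).  `interior`: `σ` is open.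
-/

open Set Metric Topology Filter
open Pool.JS

namespace Pool.ETM

/-- the complement of a closed disc of the plane is preconnected -/
theorem zd_ext (w : ℂ) {r : ℝ} (hr : 0 < r) : IsPreconnected {u : ℂ | r < ‖u - w‖} := by
  have h1 : IsPreconnected {v : ℂ | Real.log r < v.re} :=
    (convex_halfSpace_gt Complex.reLm.isLinear (Real.log r)).isPreconnected
  have h2 : {u : ℂ | r < ‖u - w‖} = (fun v : ℂ => w + Complex.exp v) '' {v : ℂ | Real.log r < v.re} := by
    ext u
    constructor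
    · intro hu
      have hu' : r < ‖u - w‖ := hu
      have h0 : u - w ≠ 0 := norm_pos_iff.1 (hr.trans hu')
      refine ⟨Complex.log (u - w), ?_, ?_⟩
      · show Real.log r < (Complex.log (u - w)).re
        rw [Complex.log_re]
        exact Real.log_lt_log hr hu'
      · show w + Complex.exp (Complex.log (u - w)) = u
        rw [Complex.exp_log h0]
        ring
    · rintro ⟨v, hv, rfl⟩
      have hv' : Real.log r < v.re := hv
      show r < ‖w + Complex.exp v - w‖
      rw [add_sub_cancel_left, Complex.norm_exp, ← Real.log_lt_iff_lt_exp hr]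
      exact hv'
  rw [h2]
  refine h1.image _ ?_
  exact (continuous_const.add Complex.continuous_exp).continuousOn

/-- the exterior of a disc is not bounded -/
theorem zd_unb (w : ℂ) (r : ℝ) : ¬ Bornology.IsBounded {u : ℂ | r < ‖u - w‖} := by
  intro hb
  obtain ⟨M, hM⟩ := hb.subset_closedBall w
  have h1 : (w + ((|M| + |r| + 1 : ℝ) : ℂ)) ∈ {u : ℂ | r < ‖u - w‖} := by
    show r < ‖w + ((|M| + |r| + 1 : ℝ) : ℂ) - w‖
    rw [add_sub_cancel_left, Complex.norm_real, Real.norm_of_nonneg (by positivity)]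
    linarith [le_abs_self r, abs_nonneg M]
  have h2 := hM h1
  rw [mem_closedBall, dist_eq_norm, add_sub_cancel_left, Complex.norm_real, Real.norm_of_nonneg (by positivity)] at h2
  linarith [le_abs_self M, abs_nonneg r]

section top
variable {X : Type*} [TopologicalSpace X] [CompactSpace X] [T2Space X] {x : X} {σ : ℂ → X}

omit [CompactSpace X] [T2Space X] in
theorem zd_cplEq (h : Chart x σ) (w : ℂ) (r : ℝ) :
    (σ '' closedBall w r)ᶜ = insert x (σ '' {u : ℂ | r < ‖u - w‖}) := by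
  ext y
  constructor
  · intro hy
    by_cases hyx : y = x
    · exact Or.inl hyx
    · obtain ⟨u, rfl⟩ := h.exists_eq hyx
      refine Or.inr ⟨u, ?_, rfl⟩
      show r < ‖u - w‖
      by_contra hu
      exact hy ⟨u, by rw [mem_closedBall, dist_eq_norm]; exact not_lt.1 hu, rfl⟩
  · rintro (rfl | ⟨u, hu, rfl⟩)
    · rintro ⟨u, -, hu⟩
      exact h.ne u hu
    · rintro ⟨u', hu', he⟩
      rw [h.inj he, mem_closedBall, dist_eq_norm] at hu'
      exact absurd (show r < ‖u - w‖ from hu) (not_lt.2 hu')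

theorem zd_cpl (h : Chart x σ) (w : ℂ) {r : ℝ} (hr : 0 < r) : IsPreconnected (σ '' closedBall w r)ᶜ := by
  rw [zd_cplEq h]
  have h1 : IsPreconnected (σ '' {u : ℂ | r < ‖u - w‖}) := (zd_ext w hr).image _ h.cont.continuousOn
  refine h1.subset_closure (subset_insert _ _) ?_
  refine insert_subset ?_ subset_closure
  exact h.mem_closure.2 (zd_unb w r)

theorem zd_fc (h : Chart x σ) (w : ℂ) {r : ℝ} (hr : 0 < r) : Fc1 (σ '' closedBall w r) (σ w) where
  mem := ⟨w, mem_closedBall_self hr.le, rfl⟩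
  closed := h.isClosed_image (isCompact_closedBall w r)
  conn := (convex_closedBall w r).isPreconnected.image _ h.cont.continuousOn
  cpl := zd_cpl h w hr
  ne := ⟨x, by
    rintro ⟨u, -, hu⟩
    exact h.ne u hu⟩

omit [CompactSpace X] in
theorem zd_closure (h : Chart x σ) (w : ℂ) {r : ℝ} (hr : 0 < r) :
    closure (σ '' ball w r) = σ '' closedBall w r := by
  refine Subset.antisymm ?_ ?_
  · exact closure_minimal (image_mono ball_subset_closedBall) (h.isClosed_image (isCompact_closedBall w r))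
  · rw [← closure_ball w hr.ne']
    exact image_closure_subset_closure_image h.cont

omit [CompactSpace X] [T2Space X] in
theorem zd_open (h : Chart x σ) (w : ℂ) (r : ℝ) : IsOpen (σ '' ball w r) :=
  h.emb.isOpenMap _ isOpen_ball

theorem zd_frontier (h : Chart x σ) (w : ℂ) {r : ℝ} (hr : 0 < r) :
    frontier (σ '' ball w r) = σ '' sphere w r := by
  rw [frontier, (zd_open h w r).interior_eq, zd_closure h w hr, ← image_sdiff h.inj, closedBall_sdiff_ball]

theorem zd_aff (w : ℂ) {r : ℝ} (hr : 0 < r) (S : Set ℝ) :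
    (fun u : ℂ => w + r * u) '' {u : ℂ | ‖u‖ ∈ S} = {u : ℂ | ‖u - w‖ / r ∈ S} := by
  ext v
  constructor
  · rintro ⟨u, hu, rfl⟩
    show ‖w + r * u - w‖ / r ∈ S
    rw [add_sub_cancel_left, norm_mul, Complex.norm_real, Real.norm_of_nonneg hr.le, mul_div_cancel_left₀ _ hr.ne']
    exact hu
  · intro hv
    refine ⟨(v - w) / r, ?_, ?_⟩
    · show ‖(v - w) / r‖ ∈ S
      rw [norm_div, Complex.norm_real, Real.norm_of_nonneg hr.le]
      exact hv
    · show w + r * ((v - w) / r) = v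
      rw [mul_div_cancel₀ _ (Complex.ofReal_ne_zero.2 hr.ne')]
      ring

theorem zd_aff1 (w : ℂ) {r : ℝ} (hr : 0 < r) : (fun u : ℂ => w + r * u) '' closedBall 0 1 = closedBall w r := by
  have h1 := zd_aff w hr (Iic 1)
  have h2 : {u : ℂ | ‖u‖ ∈ Iic (1 : ℝ)} = closedBall 0 1 := by
    ext u
    rw [mem_closedBall, dist_zero_right]
    exact Iff.rfl
  have h3 : {u : ℂ | ‖u - w‖ / r ∈ Iic (1 : ℝ)} = closedBall w r := by
    ext u
    rw [mem_closedBall, dist_eq_norm]
    exact div_le_one hr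
  rw [h2, h3] at h1
  exact h1

theorem zd_aff2 (w : ℂ) {r : ℝ} (hr : 0 < r) : (fun u : ℂ => w + r * u) '' ball 0 1 = ball w r := by
  have h1 := zd_aff w hr (Iio 1)
  have h2 : {u : ℂ | ‖u‖ ∈ Iio (1 : ℝ)} = ball 0 1 := by
    ext u
    rw [mem_ball, dist_zero_right]
    exact Iff.rfl
  have h3 : {u : ℂ | ‖u - w‖ / r ∈ Iio (1 : ℝ)} = ball w r := by
    ext u
    rw [mem_ball, dist_eq_norm]
    exact div_lt_one hr
  rw [h2, h3] at h1
  exact h1

theorem zd_aff3 (w : ℂ) {r : ℝ} (hr : 0 < r) : (fun u : ℂ => w + r * u) '' sphere 0 1 = sphere w r := by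
  have h1 := zd_aff w hr {1}
  have h2 : {u : ℂ | ‖u‖ ∈ ({1} : Set ℝ)} = sphere 0 1 := by
    ext u
    rw [mem_sphere, dist_zero_right]
    exact Iff.rfl
  have h3 : {u : ℂ | ‖u - w‖ / r ∈ ({1} : Set ℝ)} = sphere w r := by
    ext u
    rw [mem_sphere, dist_eq_norm]
    exact div_eq_one_iff_eq hr.ne'
  rw [h2, h3] at h1
  exact h1

theorem zd_jdom (h : Chart x σ) (w : ℂ) {r : ℝ} (hr : 0 < r) : JDom (σ '' ball w r) := by
  refine ⟨zd_open h w r, fun u : ℂ => σ (w + r * u), ?_, ?_, ?_, ?_, ?_⟩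
  · exact (h.cont.comp (continuous_const.add (continuous_const.mul continuous_id))).continuousOn
  · intro a _ b _ hab
    have h1 : w + r * a = w + r * b := h.inj hab
    exact mul_left_cancel₀ (Complex.ofReal_ne_zero.2 hr.ne') (add_left_cancel h1)
  · rw [zd_closure h w hr, ← zd_aff1 w hr, image_image]
  · rw [zd_frontier h w hr, ← zd_aff3 w hr, image_image]
  · rw [← zd_aff2 w hr, image_image]

end top

variable {X : Type*} [MetricSpace X] [CompactSpace X] [Sph X] [Nonempty X]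

omit [CompactSpace X] [Sph X] [Nonempty X] in
/-- small radius at a point -/
theorem zd_rad {x : X} {σ : ℂ → X} (h : Chart x σ) {F : Set X} (hF : F.Finite) {ε : ℝ} (hε : 0 < ε) (w : ℂ) :
    ∃ r : ℝ, 0 < r ∧ σ '' closedBall w r ⊆ closedBall (σ w) (ε / 3) ∧ ∀ u ∈ closedBall w r, σ u ∈ F → u = w := by
  have h1 : σ ⁻¹' closedBall (σ w) (ε / 3) ∈ 𝓝 w :=
    h.cont.continuousAt.preimage_mem_nhds (closedBall_mem_nhds _ (by positivity))
  have h2 : (σ ⁻¹' F \ {w}).Finite := (hF.preimage h.inj.injOn).subset sdiff_subset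
  have h3 : (σ ⁻¹' F \ {w})ᶜ ∈ 𝓝 w := h2.isClosed.isOpen_compl.mem_nhds (fun h => h.2 rfl)
  obtain ⟨r, hr, hs⟩ := nhds_basis_closedBall.mem_iff.1 (inter_mem h1 h3)
  refine ⟨r, hr, ?_, ?_⟩
  · rintro _ ⟨u, hu, rfl⟩
    exact (hs hu).1
  · intro u hu huF
    by_contra hne
    exact (hs hu).2 ⟨huF, hne⟩

theorem exists_discs {Z P : Set X} (hZ : Z.Finite) (hP : P.Finite) {ε : ℝ} (hε : 0 < ε) :
    ∃ (B : X → Set X) (D : ℕ → X → Set X), NestD Z B D ∧
      (∀ z ∈ Z, JDom (B z) ∧ z ∈ B z ∧ IsPreconnected (B z) ∧ diam (B z) < ε ∧ B z ∩ P ⊆ {z} ∧ Disjoint (frontier (B z)) P ∧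
        ((B z)ᶜ).Nonempty) ∧
      ∀ z ∈ Z, ∀ z' ∈ Z, z ≠ z' → Disjoint (B z) (B z') := by
  obtain ⟨x₀⟩ := ‹Nonempty X›
  have hinf : (univ : Set X).Infinite := sph_infinite isOpen_univ ⟨x₀, trivial⟩
  obtain ⟨x, -, hx⟩ := (hinf.sdiff (hZ.union hP)).nonempty
  obtain ⟨σ, h⟩ := exists_chart x
  choose r hr hball hFr using zd_rad h (hZ.union hP) hε
  have hs : ∀ z : X, ∃ w : ℂ, z ≠ x → σ w = z := by
    intro z
    by_cases hzx : z = x
    · exact ⟨0, fun h' => absurd hzx h'⟩
    · obtain ⟨w, hw⟩ := h.exists_eq hzx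
      exact ⟨w, fun _ => hw⟩
  choose s hs using hs
  have hsZ : ∀ z ∈ Z, σ (s z) = z := by
    intro z hz
    refine hs z ?_
    rintro rfl
    exact hx (Or.inl hz)
  have hρ : ∀ w, 0 < r w / 2 := fun w => by have := hr w; linarith
  have hρr : ∀ w, r w / 2 < r w := fun w => by have := hr w; linarith
  have hj : ∀ j : ℕ, 0 < ((j : ℝ) + 1) / (j + 2) ∧ ((j : ℝ) + 1) / (j + 2) < 1 := by
    intro j
    constructor
    · positivity
    · rw [div_lt_one (by positivity)]
      linarith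
  have hjj : ∀ j : ℕ, ((j : ℝ) + 1) / (j + 2) < (((j + 1 : ℕ) : ℝ) + 1) / ((j + 1 : ℕ) + 2) := by
    intro j
    rw [div_lt_div_iff₀ (by positivity) (by positivity)]
    push_cast
    nlinarith [(Nat.cast_nonneg j : (0 : ℝ) ≤ j)]
  refine ⟨fun z => σ '' ball (s z) (r (s z) / 2),
    fun j z => σ '' closedBall (s z) (r (s z) / 2 * (((j : ℝ) + 1) / (j + 2))), ⟨?_, ?_, ?_, ?_⟩, ?_, ?_⟩
  · intro j z hz
    have h1 := zd_fc h (s z) (mul_pos (hρ (s z)) (hj j).1)
    rw [hsZ z hz] at h1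
    exact h1
  · intro z hz
    have h1 : σ '' ball (s z) (r (s z) / 2 * (((0 : ℕ) + 1 : ℝ) / ((0 : ℕ) + 2))) ⊆
        interior (σ '' closedBall (s z) (r (s z) / 2 * (((0 : ℕ) + 1 : ℝ) / ((0 : ℕ) + 2)))) :=
      interior_maximal (image_mono ball_subset_closedBall) (zd_open h _ _)
    refine h1 ⟨s z, mem_ball_self (mul_pos (hρ (s z)) (hj 0).1), hsZ z hz⟩
  · intro j z hz
    have h1 : σ '' ball (s z) (r (s z) / 2 * ((((j + 1 : ℕ) : ℝ) + 1) / ((j + 1 : ℕ) + 2))) ⊆
        interior (σ '' closedBall (s z) (r (s z) / 2 * ((((j + 1 : ℕ) : ℝ) + 1) / ((j + 1 : ℕ) + 2)))) :=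
      interior_maximal (image_mono ball_subset_closedBall) (zd_open h _ _)
    refine Subset.trans (image_mono (closedBall_subset_ball ?_)) h1
    exact mul_lt_mul_of_pos_left (hjj j) (hρ (s z))
  · intro j z hz
    refine image_mono (closedBall_subset_ball ?_)
    calc r (s z) / 2 * (((j : ℝ) + 1) / (j + 2)) < r (s z) / 2 * 1 := mul_lt_mul_of_pos_left (hj j).2 (hρ (s z))
      _ = r (s z) / 2 := mul_one _
  · intro z hz
    have hsub : σ '' ball (s z) (r (s z) / 2) ⊆ closedBall (σ (s z)) (ε / 3) :=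
      (image_mono (ball_subset_closedBall.trans (closedBall_subset_closedBall (hρr _).le))).trans (hball (s z))
    refine ⟨zd_jdom h _ (hρ _), ⟨s z, mem_ball_self (hρ _), hsZ z hz⟩, ?_, ?_, ?_, ?_, ?_⟩
    · exact (convex_ball _ _).isPreconnected.image _ h.cont.continuousOn
    · have h1 : diam (σ '' ball (s z) (r (s z) / 2)) ≤ 2 * (ε / 3) :=
        diam_le_of_subset_closedBall (by positivity) hsub
      linarith
    · rintro y ⟨⟨u, hu, rfl⟩, hy⟩
      have h1 := hFr (s z) u (closedBall_subset_closedBall (hρr _).le (ball_subset_closedBall hu)) (Or.inr hy)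
      rw [h1, hsZ z hz]
      exact rfl
    · rw [zd_frontier h _ (hρ _), Set.disjoint_left]
      rintro _ ⟨u, hu, rfl⟩ hy
      have h1 := hFr (s z) u (closedBall_subset_closedBall (hρr _).le (sphere_subset_closedBall hu)) (Or.inr hy)
      rw [h1, mem_sphere, dist_self] at hu
      exact absurd hu (hρ _).ne
    · refine ⟨x, ?_⟩
      rintro ⟨u, -, hu⟩
      exact h.ne u hu
  · intro z hz z' hz' hne
    have hws : s z ≠ s z' := by
      intro he
      apply hne
      rw [← hsZ z hz, ← hsZ z' hz', he]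
    have h1 : ¬ dist (s z) (s z') ≤ r (s z') := by
      intro hd
      exact hws (hFr (s z') (s z) hd (Or.inl (by rw [hsZ z hz]; exact hz)))
    have h2 : ¬ dist (s z') (s z) ≤ r (s z) := by
      intro hd
      exact hws (hFr (s z) (s z') hd (Or.inl (by rw [hsZ z' hz']; exact hz'))).symm
    rw [Set.disjoint_left]
    rintro _ ⟨u, hu, rfl⟩ ⟨u', hu', he⟩
    have h3 : u' = u := h.inj he
    rw [h3] at hu'
    rw [mem_ball] at hu hu'
    have h4 := dist_triangle_left (s z) (s z') u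
    rw [dist_comm (s z') (s z)] at h2
    push Not at h1 h2
    linarith

end Pool.ETM
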