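import Pool.Agent.ETM.ZJ

/-!
ETM, MODULE ZK (difficulty 2): the depth function has all the properties of `Dep`.

RECIPE.  `TT Z (dep f Z K) n = TU f Z K n` for `n ≥ 1` (`le_dep_iff`, and `Z ⊆ TU n` by `TU_inter`).  The fields: `cover`: definition of `TU` and `TU_comp`; `disj`: `TU_comp`, `Tn ⊆ B` (`Tn_full`), `LocB.disj`; `img`: `Tn_img`; `compl`: `TU_compl`; `shrink`: `Tn_small`
(take `max N 1`); `clop`: the hypothesis gives `f '' C ⊆ TU 0` (`Z ⊆ TU 0`, `dep_pos`, `interior_subset`), then `TU_clop`; the others are `dep_nonneg`, `dep_cont`, `dep_open`, `dep_step` and the hypotheses.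
-/

open Set Metric Topology Filter
open Pool.JS

namespace Pool.ETM

variable {X : Type*} [MetricSpace X] [CompactSpace X] [Sph X] [LocallyConnectedSpace X] [PreconnectedSpace X] [Nonempty X]
  {f : X → X} {Z : Set X} {B K : X → Set X} {η : ℝ}

theorem dep_of_zhyp (h : ZHyp f Z B K η) {P : Set X} {m : ℕ}
    (h1 : ∀ x, ∀ j, 1 ≤ j → j < m → f^[j] x = x → x ∈ Z) (h2 : ∀ x ∈ P, (∃ j, 1 ≤ j ∧ f^[j] x = x) → x ∈ Z)
    (h3 : ∀ x ∈ Z, ∃ j, 1 ≤ j ∧ f^[j] x = x) : Dep f P m Z (dep f Z K) := by
  have hTT : ∀ n : ℕ, 1 ≤ n → TT Z (dep f Z K) n = TU f Z K n := by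
    intro n hn
    ext x
    by_cases hx : x ∈ Z
    · exact ⟨fun _ => (TU_inter h x).2 hx n, fun _ => Or.inl hx⟩
    · rw [← le_dep_iff h hx hn]
      exact ⟨fun hh => hh.resolve_left hx, fun hh => Or.inr hh⟩
  have hcomp : ∀ n : ℕ, 1 ≤ n → ∀ z ∈ Z, connectedComponentIn (TT Z (dep f Z K) n) z = Tn f K n z := by
    intro n hn z hz
    rw [hTT n hn, TU_comp h n hz]
  have hTT1 : TT Z (dep f Z K) 1 = TU f Z K 1 := by
    have := hTT 1 le_rfl
    rwa [Nat.cast_one] at this
  exact {
    finZ := h.loc.finZ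
    mapZ := h.loc.mapZ
    per := h1
    perP := h2
    perZ := h3
    nonneg := dep_nonneg h
    cont := dep_cont h
    openT := dep_open h
    step := fun x hx h1 => dep_step h hx h1
    clop := by
      intro C hC hne hy
      rw [hTT1] at hne ⊢
      apply TU_clop h hC hne
      rintro _ ⟨y, hyC, rfl⟩
      by_cases hfy : f y ∈ Z
      · exact (TU_inter h (f y)).2 hfy 0
      · exact interior_subset ((dep_pos h hfy).1 ((hy y hyC).resolve_left hfy))
    cover := by
      intro n hn
      rw [hTT n hn]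
      have e : ∀ z ∈ Z, connectedComponentIn (TU f Z K n) z = Tn f K n z := fun z hz => TU_comp h n hz
      rw [Set.iUnion₂_congr e]
      rfl
    disj := by
      intro n hn z hz z' hz' hne
      rw [hcomp n hn z hz, hcomp n hn z' hz']
      exact (h.loc.disj z hz z' hz' hne).mono (Tn_full h n hz).2 (Tn_full h n hz').2
    img := by
      intro n hn z hz
      have h4 := hcomp (n + 1) (by omega) z hz
      rw [Nat.cast_add, Nat.cast_one] at h4
      rw [h4, hcomp n hn (f z) (h.loc.mapZ hz)]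
      exact Tn_img h n hz
    compl := by
      intro n hn
      rw [hTT n hn]
      exact TU_compl h n
    shrink := by
      intro r hr
      obtain ⟨N, hN⟩ := Tn_small h hr
      refine ⟨max N 1, le_max_right _ _, ?_⟩
      intro z hz
      rw [hcomp _ (le_max_right _ _) z hz]
      exact hN _ (le_max_left _ _) z hz }

end Pool.ETM
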