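import Pool.Agent.ETM.ZF
import Pool.Agent.ETM.ZK
import Pool.Agent.ETM.ZD
import Pool.Agent.ETM.LeM
import Pool.Agent.ETM.LeV
import Pool.Agent.ETM.Bridge
import Pool.Agent.JS.ThA
import Pool.Agent.JS.SpF

/-!
ETM, MODULE ZL: output of block Z.

`jdom_compl`: `J = frontier V` is a Jordan curve, `JorX.jct` gives `SepX J U₁ U₂`; `V` is open, connected, disjoint from `J`, so `V ⊆ U₁` or `V ⊆ U₂`, say `U₁`; `V` is relatively closed in `U₁`, so `V = U₁`; `Vᶜ = U₂ ∪ J`.
`exists_depth`: `Z = {x | ∃ j, 1 ≤ j ∧ j < m ∧ f^[j] x = x} ∪ {x ∈ P | ∃ j, 1 ≤ j ∧ f^[j] x = x}`.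
-/

open Set Metric Topology Filter
open Pool.JS

namespace Pool.ETM

theorem jdom_compl {X : Type*} [TopologicalSpace X] [CompactSpace X] [T2Space X] [Sph X] {V : Set X} (hV : JDom V) :
    IsPreconnected Vᶜ := by
  have hJ : JorX (frontier V) := hV.jordan
  obtain ⟨U₁, U₂, hs⟩ := hJ.jct
  have hVo : IsOpen V := hV.1
  have hVc : IsConnected V := hV.isConnected
  have hdis : Disjoint V (frontier V) := (disjoint_frontier_iff_isOpen.mpr hVo).symm
  have key : ∀ U W, SepX (frontier V) U W → V ⊆ U → IsPreconnected Vᶜ := by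
    intro U W hs hVU
    have hUV : U ⊆ V := by
      refine hs.connU.isPreconnected.subset_of_closure_inter_subset hVo ?_ ?_
      · obtain ⟨x, hx⟩ := hVc.nonempty
        exact ⟨x, hVU hx, hx⟩
      · rintro x ⟨hx, hxU⟩
        by_contra hxV
        have hxF : x ∈ frontier V := ⟨hx, by rwa [hVo.interior_eq]⟩
        have : x ∈ (frontier V)ᶜ := by
          rw [← hs.union]
          exact Or.inl hxU
        exact this hxF
    have hVU' : V = U := Subset.antisymm hVU hUV
    have hW : Vᶜ = W ∪ frontier V := by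
      ext x
      constructor
      · intro hx
        by_cases hxF : x ∈ frontier V
        · exact Or.inr hxF
        · have : x ∈ U ∪ W := by
            rw [hs.union]
            exact hxF
          rcases this with h | h
          · exact absurd (hUV h) hx
          · exact Or.inl h
      · rintro (hx | hx) hxV
        · exact Set.disjoint_left.mp hs.disj (hVU hxV) hx
        · exact Set.disjoint_left.mp hdis hxV hx
    rw [hW]
    exact (hs.symm.union_conn subset_rfl).isPreconnected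
  rcases hs.sub_or hVc.isPreconnected hdis with hsub | hsub
  · exact key U₁ U₂ hs hsub
  · exact key U₂ U₁ hs.symm hsub

variable {X : Type*} [MetricSpace X] [CompactSpace X] [Sph X] [Nonempty X]

theorem exists_depth {f : X → X} {P : Set X} {η : ℝ} (h : Dyn f P) (he : Expd f P η) (m : ℕ) :
    ∃ (Z : Set X) (δ : X → ℝ), Dep f P m Z δ := by
  classical
  obtain ⟨Z, hZ⟩ : ∃ Z : Set X, Z = {x | ∃ j, 1 ≤ j ∧ j < m ∧ f^[j] x = x} ∪ {x | x ∈ P ∧ ∃ j, 1 ≤ j ∧ f^[j] x = x} :=
    ⟨_, rfl⟩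
  have hfin : Z.Finite := by
    rw [hZ]
    refine Set.Finite.union ?_ (h.finP.subset fun x hx => hx.1)
    refine ((Set.finite_Ico 1 m).biUnion fun j hj => h.finite_fix he hj.1).subset ?_
    rintro x ⟨j, h1, h2, h3⟩
    exact mem_biUnion (show j ∈ Ico 1 m from ⟨h1, h2⟩) h3
  have hper : ∀ x ∈ Z, ∃ j, 1 ≤ j ∧ f^[j] x = x := by
    intro x hx
    rw [hZ] at hx
    rcases hx with ⟨j, h1, _, h3⟩ | ⟨_, j, h1, h3⟩
    · exact ⟨j, h1, h3⟩
    · exact ⟨j, h1, h3⟩
  have hmap : MapsTo f Z Z := by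
    intro x hx
    rw [hZ] at hx ⊢
    rcases hx with ⟨j, h1, h2, h3⟩ | ⟨hP, j, h1, h3⟩
    · refine Or.inl ⟨j, h1, h2, ?_⟩
      rw [← Function.iterate_succ_apply, Function.iterate_succ_apply', h3]
    · refine Or.inr ⟨h.mapsP hP, j, h1, ?_⟩
      rw [← Function.iterate_succ_apply, Function.iterate_succ_apply', h3]
  -- two points
  obtain ⟨a, b, hab⟩ : ∃ a b : X, a ≠ b := by
    have hinf : (univ : Set X).Infinite := sph_infinite isOpen_univ univ_nonempty
    obtain ⟨a, -, b, -, hab⟩ := hinf.nontrivial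
    exact ⟨a, b, hab⟩
  have hdab : 0 < dist a b := dist_pos.mpr hab
  have hball : ∀ y : X, ∃ p : X, dist a b / 2 ≤ dist p y := by
    intro y
    by_contra hcon
    push Not at hcon
    have h1 := hcon a
    have h2 := hcon b
    have h3 : dist a b ≤ dist a y + dist b y := dist_triangle_right a b y
    linarith
  obtain ⟨ω, hω, huc⟩ := Metric.uniformContinuous_iff.mp (CompactSpace.uniformContinuous_of_continuous h.cont)
    (dist a b / 2) (by linarith)
  have hε : 0 < min η (min ω (dist a b / 2)) := lt_min he.pos (lt_min hω (by linarith))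
  obtain ⟨B, D, hN, hB, hdis⟩ := exists_discs hfin h.finP hε
  have hcomp : ∀ z ∈ Z, IsComp (gc f (B (f z)) z) (f ⁻¹' B (f z)) := fun z hz =>
    isComp_cc (show z ∈ f ⁻¹' B (f z) from (hB (f z) (hmap hz)).2.1)
  have hld : ∀ z ∈ Z, JDom (gc f (B (f z)) z) ∧ ∃ q, gc f (B (f z)) z ∩ f ⁻¹' {f z} = {q} := by
    intro z hz
    obtain ⟨h1, h2, h3, h4, h5, h6, h7⟩ := hB (f z) (hmap hz)
    exact h.ld_comp h1 h2 h5 h6 (hcomp z hz)
  have hdist : ∀ z ∈ Z, ∀ x ∈ B z, dist x z < min η (min ω (dist a b / 2)) := by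
    intro z hz x hx
    obtain ⟨h1, h2, h3, h4, h5, h6, h7⟩ := hB z hz
    exact (dist_le_diam_of_mem (isBounded_of_compactSpace) hx h2).trans_lt h4
  have hLoc : LocB f Z B := by
    refine ⟨hfin, hmap, fun z hz => (hB z hz).1.1, fun z hz => (hB z hz).2.2.1, fun z hz => (hB z hz).2.1, ?_, hdis, ?_,
      fun z hz => jdom_compl (hld z hz).1⟩
    · intro z hz
      obtain ⟨p, hp⟩ := hball (f z)
      obtain ⟨x, hx⟩ := h.surj p
      refine ⟨x, ?_, ?_⟩
      · intro hxB
        have h1 := hdist z hz x hxB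
        have h2 := huc (lt_of_lt_of_le h1 ((min_le_right _ _).trans (min_le_left _ _)))
        rw [hx] at h2
        linarith
      · intro hxg
        have h1 : x ∈ f ⁻¹' B (f z) := connectedComponentIn_subset _ _ hxg
        have h1' : f x ∈ B (f z) := h1
        have h2 := hdist (f z) (hmap hz) _ h1'
        rw [hx] at h2
        have h3 := lt_of_lt_of_le h2 ((min_le_right _ _).trans (min_le_right _ _))
        linarith
    · intro z hz y hy hfy
      obtain ⟨q, hq⟩ := (hld z hz).2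
      have h1 : y ∈ ({q} : Set X) := by
        rw [← hq]
        exact ⟨hy, hfy⟩
      have h2 : z ∈ ({q} : Set X) := by
        rw [← hq]
        exact ⟨mem_connectedComponentIn (show z ∈ f ⁻¹' B (f z) from (hB (f z) (hmap hz)).2.1), rfl⟩
      rw [mem_singleton_iff] at h1 h2
      rw [h1, h2]
  obtain ⟨K, hK⟩ := exists_trK h.cont h.opn hLoc hN he.pos
    (fun z hz => lt_of_lt_of_le (hB z hz).2.2.2.1 (min_le_left _ _)) he.contr
  refine ⟨Z, dep f Z K, dep_of_zhyp ⟨h.cont, h.opn, he.contr, hLoc, hK⟩ ?_ ?_ hper⟩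
  · intro x j h1 h2 h3
    rw [hZ]
    exact Or.inl ⟨j, h1, h2, h3⟩
  · intro x hx hj
    rw [hZ]
    exact Or.inr ⟨hx, hj⟩

end Pool.ETM
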