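import Mathlib
import Pool.Agent.ETM.LeE
import Pool.Agent.ETM.LeH

set_option autoImplicit false

/-!
MODULE LeO (difficulty 3).  If `f` is not injective then `P` has at least two points.

RECIPE.  Suppose `P ⊆ {p}` (if `P` is empty take any `p`; `X` is nonempty since `f` is not injective).  `D = {p}ᶜ` is open, simply connected (`sph_sc_compl`), disjoint from `P`.  `f ⁻¹' D = univ \ f ⁻¹' {p}` is preconnected (`sph_diff_finite` with `U = univ`, finite fibre), nonempty, so it is its own component: `IsComp (f ⁻¹' D) (f ⁻¹' D)`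
(`FaceX` with `max` trivial).  `Dyn.sc_comp`: `f` is injective on `f ⁻¹' D`.  Now let `f x = f x'`, `x ≠ x'` (`f` is not injective); disjoint open `W ∋ x`, `W' ∋ x'`; `f '' W ∩ f '' W'` is open and contains `f x`, so it is infinite (`sph_infinite`) and contains a point `y ≠ p`: `y = f a = f a'`, `a ∈ W`, `a' ∈ W'`, `a ≠ a'`, both in `f ⁻¹' D`: contradiction.
-/

open Set Metric Topology Filter
open Pool.JS

namespace Pool.ETM

variable {X : Type*} [TopologicalSpace X] [CompactSpace X] [T2Space X] [Sph X] {f : X → X} {P : Set X}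

theorem Dyn.not_subsingleton (h : Dyn f P) (hinj : ¬ Function.Injective f) : ¬ P.Subsingleton := by
  intro hP
  obtain ⟨x, x', hfx, hne⟩ : ∃ x x', f x = f x' ∧ x ≠ x' := by
    simpa [Function.Injective] using hinj
  obtain ⟨p, hp⟩ : ∃ p, P ⊆ {p} := by
    rcases hP.eq_empty_or_singleton with h1 | ⟨p, h1⟩
    · exact ⟨x, by rw [h1]; exact empty_subset _⟩
    · exact ⟨p, by rw [h1]⟩
  have hDP : Disjoint ({p}ᶜ : Set X) P := by
    rw [Set.disjoint_left]
    intro y hy hy'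
    exact hy (hp hy')
  have hpre : IsPreconnected (f ⁻¹' ({p}ᶜ : Set X)) := by
    have h1 := sph_diff_finite (X := X) isOpen_univ isPreconnected_univ (h.fin p)
    have h2 : f ⁻¹' ({p}ᶜ : Set X) = univ \ f ⁻¹' {p} := by
      rw [preimage_compl, compl_eq_univ_sdiff]
    rw [h2]
    exact h1
  have hnon : (f ⁻¹' ({p}ᶜ : Set X)).Nonempty := by
    have h1 : (univ : Set X).Infinite := sph_infinite isOpen_univ ⟨x, trivial⟩
    have h2 := (h1.sdiff (h.fin p)).nonempty
    rwa [← compl_eq_univ_sdiff, ← preimage_compl] at h2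
  obtain ⟨a, ha⟩ := hnon
  have hcomp : IsComp (f ⁻¹' ({p}ᶜ : Set X)) (f ⁻¹' ({p}ᶜ : Set X)) :=
    isComp_iff.2 ⟨a, ha, (hpre.connectedComponentIn ha).symm⟩
  obtain ⟨hi, -⟩ := h.sc_comp isOpen_compl_singleton (sph_sc_compl p) hDP hcomp
  obtain ⟨W, W', hW, hW', hxW, hxW', hWW⟩ := t2_separation hne
  have hop : IsOpen (f '' W ∩ f '' W') := (h.opn _ hW).inter (h.opn _ hW')
  have hin : (f '' W ∩ f '' W').Infinite :=
    sph_infinite hop ⟨f x, ⟨x, hxW, rfl⟩, ⟨x', hxW', hfx.symm⟩⟩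
  obtain ⟨y, ⟨⟨b, hb, hby⟩, ⟨b', hb', hby'⟩⟩, hyp⟩ := (hin.sdiff (finite_singleton p)).nonempty
  have h1 : b ∈ f ⁻¹' ({p}ᶜ : Set X) := by
    rw [mem_preimage, hby]
    exact hyp
  have h2 : b' ∈ f ⁻¹' ({p}ᶜ : Set X) := by
    rw [mem_preimage, hby']
    exact hyp
  have h3 : b = b' := hi h1 h2 (hby.trans hby'.symm)
  rw [← h3] at hb'
  exact Set.disjoint_left.1 hWW hb hb'

end Pool.ETM
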