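import Mathlib
import Pool.Agent.ETM.LeE
import Pool.Agent.ETM.LeH
import Pool.Agent.JS.SpD

set_option autoImplicit false

/-!
MODULE LeI (difficulty 3).  Lifts of arcs and of Jordan domains without postcritical points (2.2, 2.5 of the paper).

RECIPE.  All from `Dyn.conv_comp`.  `arc_comp`: `A = γ '' Icc 0 1`, `E = ℝ`, `C = Icc 0 1` (closed, so `closure C = C`); `V = δ '' Icc 0 1`, `p' = δ 0`, `q' = δ 1`.
`arc_comp_open`: `C = Ioo 0 1`, `closure C = Icc 0 1` (`closure_Ioo`); `A \ {p, q} = γ '' Ioo 0 1` (injectivity); `V = δ '' Ioo 0 1`, `closure V = δ '' Icc 0 1`, `V = closure V \ {δ 0, δ 1}`; `f` is injective on `closure V` as `f (δ c) = γ c`.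
`jdom_comp`: `JDom U`: `Φ` on `closedBall 0 1` with `Φ '' ball 0 1 = U`, `Φ '' closedBall 0 1 = closure U`; `E = ℂ`, `C = ball 0 1` (`closure_ball`), `isCompact_closedBall`.  `V = δ '' ball 0 1`, `closure V = δ '' closedBall 0 1`, `V` is open (`Dyn.comp_isOpen`), so `frontier V = closure V \ V = δ '' sphere 0 1` (injectivity, `closedBall \ ball = sphere`).
`jdom_branch`: `g = δ ∘ τ`, `τ` a continuous inverse of `Φ` on `closure U` (`exists_inverse`).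
-/

open Set Metric Topology Filter
open Pool.JS

namespace Pool.ETM

variable {X : Type*} [TopologicalSpace X] [CompactSpace X] [T2Space X] {f : X → X} {P A U V : Set X} {p q : X}

omit [TopologicalSpace X] [CompactSpace X] [T2Space X] in
theorem LeI_inj {E : Type*} {δ γ : E → X} {K : Set E} (hg : InjOn γ K) (hf : ∀ c ∈ K, f (δ c) = γ c) :
    InjOn f (δ '' K) := by
  rintro _ ⟨a, ha, rfl⟩ _ ⟨b, hb, rfl⟩ hab
  rw [hf a ha, hf b hb] at hab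
  rw [hg ha hb hab]

omit [TopologicalSpace X] [CompactSpace X] [T2Space X] in
theorem LeI_img {E : Type*} {δ γ : E → X} {K : Set E} (hf : ∀ c ∈ K, f (δ c) = γ c) :
    f '' (δ '' K) = γ '' K := by
  rw [image_image]
  exact image_congr hf

theorem Dyn.arc_comp (h : Dyn f P) (hA : ArcX A p q) (hP : Disjoint A P) (hV : IsComp V (f ⁻¹' A)) :
    ∃ p' q', f p' = p ∧ f q' = q ∧ ArcX V p' q' ∧ InjOn f V ∧ f '' V = A := by
  obtain ⟨γ, hγ, hi, hAim, hp, hq⟩ := hA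
  have hcl : closure (Icc (0 : ℝ) 1) = Icc 0 1 := isClosed_Icc.closure_eq
  obtain ⟨δ, hδ, hδi, hfδ, hδC, hδcl⟩ := h.conv_comp (convex_Icc (0 : ℝ) 1) (by rw [hcl]; exact isCompact_Icc)
    (by rw [hcl]; exact hγ) (by rw [hcl]; exact hi)
    (fun c hc hcP => disjoint_left.mp hP (hAim ▸ mem_image_of_mem γ hc) hcP) (by rw [hAim]; exact hV)
  rw [hcl] at hδ hδi hfδ
  refine ⟨δ 0, δ 1, ?_, ?_, ⟨δ, hδ, hδi, hδC, rfl, rfl⟩, ?_, ?_⟩
  · rw [hfδ 0 (left_mem_Icc.mpr zero_le_one), hp]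
  · rw [hfδ 1 (right_mem_Icc.mpr zero_le_one), hq]
  · rw [← hδC]; exact LeI_inj hi hfδ
  · rw [← hδC, LeI_img hfδ, hAim]

theorem Dyn.arc_comp_open (h : Dyn f P) (hA : ArcX A p q) (hP : Disjoint (A \ {p, q}) P)
    (hV : IsComp V (f ⁻¹' (A \ {p, q}))) :
    ∃ p' q', f p' = p ∧ f q' = q ∧ ArcX (closure V) p' q' ∧ V = closure V \ {p', q'} ∧ InjOn f (closure V) ∧
      f '' closure V = A := by
  obtain ⟨γ, hγ, hi, hAim, hp, hq⟩ := hA
  have hcl : closure (Ioo (0 : ℝ) 1) = Icc 0 1 := closure_Ioo zero_ne_one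
  have h0 : (0 : ℝ) ∈ Icc (0 : ℝ) 1 := left_mem_Icc.mpr zero_le_one
  have h1 : (1 : ℝ) ∈ Icc (0 : ℝ) 1 := right_mem_Icc.mpr zero_le_one
  have key : ∀ {θ : ℝ → X}, InjOn θ (Icc 0 1) → θ '' Ioo 0 1 = θ '' Icc 0 1 \ {θ 0, θ 1} := by
    intro θ hθ
    ext x
    constructor
    · rintro ⟨c, hc, rfl⟩
      refine ⟨⟨c, Ioo_subset_Icc_self hc, rfl⟩, ?_⟩
      rintro (hx | hx)
      · have := hθ (Ioo_subset_Icc_self hc) h0 hx
        rw [this] at hc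
        exact lt_irrefl _ hc.1
      · have := hθ (Ioo_subset_Icc_self hc) h1 hx
        rw [this] at hc
        exact lt_irrefl _ hc.2
    · rintro ⟨⟨c, hc, rfl⟩, hn⟩
      refine ⟨c, ⟨lt_of_le_of_ne hc.1 ?_, lt_of_le_of_ne hc.2 ?_⟩, rfl⟩
      · rintro rfl
        exact hn (Or.inl rfl)
      · rintro rfl
        exact hn (Or.inr rfl)
  have hAo : γ '' Ioo 0 1 = A \ {p, q} := by rw [key hi, hAim, hp, hq]
  obtain ⟨δ, hδ, hδi, hfδ, hδC, hδcl⟩ := h.conv_comp (convex_Ioo (0 : ℝ) 1) (by rw [hcl]; exact isCompact_Icc)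
    (by rw [hcl]; exact hγ) (by rw [hcl]; exact hi)
    (fun c hc hcP => disjoint_left.mp hP (hAo ▸ mem_image_of_mem γ hc) hcP) (by rw [hAo]; exact hV)
  rw [hcl] at hδ hδi hfδ hδcl
  refine ⟨δ 0, δ 1, ?_, ?_, ⟨δ, hδ, hδi, hδcl, rfl, rfl⟩, ?_, ?_, ?_⟩
  · rw [hfδ 0 h0, hp]
  · rw [hfδ 1 h1, hq]
  · rw [← hδcl, ← hδC, key hδi]
  · rw [← hδcl]; exact LeI_inj hi hfδ
  · rw [← hδcl, LeI_img hfδ, hAim]

theorem LeI_core (h : Dyn f P) (hP : Disjoint U P) (hV : IsComp V (f ⁻¹' U)) {Φ : ℂ → X}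
    (hΦ : ContinuousOn Φ (closedBall 0 1)) (hi : InjOn Φ (closedBall 0 1)) (hU : Φ '' ball 0 1 = U) :
    ∃ δ : ℂ → X, ContinuousOn δ (closedBall 0 1) ∧ InjOn δ (closedBall 0 1) ∧
      (∀ c ∈ closedBall (0 : ℂ) 1, f (δ c) = Φ c) ∧ δ '' ball 0 1 = V ∧ δ '' closedBall 0 1 = closure V := by
  have hcl : closure (ball (0 : ℂ) 1) = closedBall 0 1 := closure_ball _ one_ne_zero
  obtain ⟨δ, hδ, hδi, hfδ, hδC, hδcl⟩ := h.conv_comp (convex_ball (0 : ℂ) 1)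
    (by rw [hcl]; exact isCompact_closedBall _ _)
    (by rw [hcl]; exact hΦ) (by rw [hcl]; exact hi)
    (fun c hc hcP => disjoint_left.mp hP (hU ▸ mem_image_of_mem Φ hc) hcP) (by rw [hU]; exact hV)
  rw [hcl] at hδ hδi hfδ hδcl
  exact ⟨δ, hδ, hδi, hfδ, hδC, hδcl⟩

theorem Dyn.jdom_comp [Sph X] (h : Dyn f P) (hU : JDom U) (hP : Disjoint U P) (hV : IsComp V (f ⁻¹' U)) :
    JDom V ∧ InjOn f (closure V) ∧ f '' V = U ∧ f '' closure V = closure U ∧ f '' frontier V = frontier U := by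
  have hVo : IsOpen V := h.comp_isOpen hU.1 hV
  obtain ⟨hUo, Φ, hΦ, hi, hc, hs, hb⟩ := hU
  obtain ⟨δ, hδ, hδi, hfδ, hδC, hδcl⟩ := LeI_core h hP hV hΦ hi hb
  have hfr : δ '' sphere 0 1 = frontier V := by
    rw [hVo.frontier_eq, ← hδcl, ← hδC]
    ext x
    constructor
    · rintro ⟨c, hc, rfl⟩
      refine ⟨⟨c, sphere_subset_closedBall hc, rfl⟩, ?_⟩
      rintro ⟨d, hd, hdc⟩
      have := hδi (ball_subset_closedBall hd) (sphere_subset_closedBall hc) hdc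
      rw [this, mem_ball] at hd
      rw [mem_sphere] at hc
      exact (ne_of_lt hd) hc
    · rintro ⟨⟨c, hc, rfl⟩, hn⟩
      refine ⟨c, ?_, rfl⟩
      rw [mem_sphere]
      refine le_antisymm (mem_closedBall.mp hc) ?_
      by_contra hlt
      exact hn ⟨c, mem_ball.mpr (not_le.mp hlt), rfl⟩
  refine ⟨⟨hVo, δ, hδ, hδi, hδcl, hfr, hδC⟩, ?_, ?_, ?_, ?_⟩
  · rw [← hδcl]; exact LeI_inj hi hfδ
  · rw [← hδC, LeI_img (fun c hc => hfδ c (ball_subset_closedBall hc)), hb]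
  · rw [← hδcl, LeI_img hfδ, hc]
  · rw [← hfr, LeI_img (fun c hc => hfδ c (sphere_subset_closedBall hc)), hs]

theorem Dyn.jdom_branch [Sph X] (h : Dyn f P) (hU : JDom U) (hP : Disjoint U P) (hV : IsComp V (f ⁻¹' U)) :
    ∃ g : X → X, ContinuousOn g (closure U) ∧ (∀ y ∈ closure U, g y ∈ closure V ∧ f (g y) = y) ∧
      ∀ x ∈ closure V, g (f x) = x := by
  obtain ⟨hUo, Φ, hΦ, hi, hc, hs, hb⟩ := hU
  obtain ⟨δ, hδ, hδi, hfδ, hδC, hδcl⟩ := LeI_core h hP hV hΦ hi hb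
  obtain ⟨τ, hτ, hτi⟩ := exists_inverse (isCompact_closedBall (0 : ℂ) 1) hΦ hi
  rw [hc] at hτ
  have hmaps : MapsTo τ (closure U) (closedBall 0 1) := by
    intro y hy
    rw [← hc] at hy
    obtain ⟨c, hc', rfl⟩ := hy
    rw [hτi c hc']
    exact hc'
  refine ⟨fun y => δ (τ y), hδ.comp hτ hmaps, ?_, ?_⟩
  · intro y hy
    refine ⟨?_, ?_⟩
    · rw [← hδcl]; exact ⟨τ y, hmaps hy, rfl⟩
    · rw [hfδ _ (hmaps hy)]
      rw [← hc] at hy
      obtain ⟨c, hc', rfl⟩ := hy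
      rw [hτi c hc']
  · intro x hx
    rw [← hδcl] at hx
    obtain ⟨c, hc', rfl⟩ := hx
    show δ (τ (f (δ c))) = δ c
    rw [hfδ c hc', hτi c hc']

end Pool.ETM
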