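import Mathlib
import Pool.Agent.ETM.LeI
import Pool.Agent.JS.ThA
import Pool.Agent.JS.Inv

set_option autoImplicit false

/-!
MODULE LeQ (difficulty 3).  Tiles: closures of the components of `(g ⁻¹' C)ᶜ`, `C` a simple closed curve with the two sides `U₁`, `U₂`, `P ⊆ C`.

RECIPE.  `tile_side`: `(g ⁻¹' C)ᶜ = g ⁻¹' Cᶜ`; `isComp_preimage_iff`: `W` is a component of `g ⁻¹' U`, `U` a component of `Cᶜ`; `IsComp U Cᶜ` is `FaceX Cᶜᶜ U`, `FaceX C U`, and `FaceX.side` (JS/ThA) gives `U = U₁` or `U = U₂`.  `P ⊆ C` is disjoint from `U₁`, `U₂` (`SepX.union`).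
`tile`: `Dyn.jdom_comp`: `g` is injective on `closure W`, `g '' closure W = closure U`, and `closure U = U ∪ C ⊇ C` (`frU`: `frontier U = C`, frontier is in the closure).
`tiles_finite`: `comp_finite` for `U₁` and `U₂`.  `tiles_cover`: `closure Cᶜ = univ` (`closure U₁ ⊇ frontier U₁ = C`), `closure (g ⁻¹' Cᶜ) = g ⁻¹' closure Cᶜ = univ` (`preimage_closure`), `g ⁻¹' Cᶜ = ⋃₀` of finitely many components (`sUnion_comp`), closure of a finite union.
`tile_eq`: `x ∈ closure W`, `g x ∉ C` gives `x ∈ closure W ∩ (g ⁻¹' C)ᶜ = W` (`IsComp.closure_inter`), same for `W'`: `IsComp.eq`.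
`tile_inv`: `exists_inverse` (JS/Inv) for `g` on the compact set `T`: a map `s` continuous on `g '' T ⊇ C` with `s (g x) = x` for `x ∈ T`.
-/

open Set Metric Topology Filter
open Pool.JS

namespace Pool.ETM

variable {X : Type*} [TopologicalSpace X] [CompactSpace X] [T2Space X] [Sph X] {g : X → X} {P C U₁ U₂ W T T' : Set X}

theorem Dyn.tile_side (hg : Continuous g) (hs : SepX C U₁ U₂) (hW : IsComp W (g ⁻¹' C)ᶜ) :
    IsComp W (g ⁻¹' U₁) ∨ IsComp W (g ⁻¹' U₂) := by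
  rw [← preimage_compl] at hW
  obtain ⟨U, hU, hWU⟩ := (isComp_preimage_iff hg).mp hW
  have hF : FaceX C U := by
    have h2 := hU
    unfold IsComp at h2
    rwa [compl_compl] at h2
  rcases hF.side hs with rfl | rfl
  · exact Or.inl hWU
  · exact Or.inr hWU

omit [CompactSpace X] [T2Space X] [Sph X] in
theorem LeQ_sub (hs : SepX C U₁ U₂) : U₁ ⊆ Cᶜ ∧ U₂ ⊆ Cᶜ := by
  constructor
  · rw [← hs.union]; exact subset_union_left
  · rw [← hs.union]; exact subset_union_right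

theorem LeQ_aux (h : Dyn g P) (hU : JDom U₁) (hd : Disjoint U₁ P) (hfr : frontier U₁ = C)
    (hW : IsComp W (g ⁻¹' U₁)) : InjOn g (closure W) ∧ C ⊆ g '' closure W := by
  obtain ⟨_, hi, _, hc, _⟩ := h.jdom_comp hU hd hW
  refine ⟨hi, ?_⟩
  rw [hc, ← hfr]
  exact frontier_subset_closure

theorem Dyn.tile (h : Dyn g P) (hs : SepX C U₁ U₂) (h₁ : JDom U₁) (h₂ : JDom U₂) (hPC : P ⊆ C)
    (hT : T ∈ Tiles C g) : IsClosed T ∧ InjOn g T ∧ C ⊆ g '' T := by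
  obtain ⟨W, hW, rfl⟩ := hT
  obtain ⟨hs1, hs2⟩ := LeQ_sub hs
  refine ⟨isClosed_closure, ?_⟩
  rcases Dyn.tile_side h.cont hs hW with hW1 | hW2
  · exact LeQ_aux h h₁ (disjoint_left.mpr fun x hx hxP => hs1 hx (hPC hxP)) hs.frU hW1
  · exact LeQ_aux h h₂ (disjoint_left.mpr fun x hx hxP => hs2 hx (hPC hxP)) hs.frV hW2

theorem LeQ_fin (h : Dyn g P) (hs : SepX C U₁ U₂) : {W | IsComp W (g ⁻¹' C)ᶜ}.Finite := by
  refine ((h.comp_finite hs.openU hs.connU.isPreconnected).union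
    (h.comp_finite hs.openV hs.connV.isPreconnected)).subset ?_
  intro W hW
  exact Dyn.tile_side h.cont hs hW

theorem Dyn.tiles_finite (h : Dyn g P) (hs : SepX C U₁ U₂) : (Tiles C g).Finite := by
  refine ((LeQ_fin h hs).image closure).subset ?_
  rintro T ⟨W, hW, rfl⟩
  exact ⟨W, hW, rfl⟩

theorem Dyn.tiles_cover (h : Dyn g P) (hs : SepX C U₁ U₂) : ⋃₀ Tiles C g = univ := by
  have hcl : closure Cᶜ = univ := by
    rw [eq_univ_iff_forall]
    intro x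
    by_cases hx : x ∈ C
    · rw [← hs.frU] at hx
      exact closure_mono (LeQ_sub hs).1 (frontier_subset_closure hx)
    · exact subset_closure hx
  have h1 : closure (g ⁻¹' Cᶜ) = univ := by
    rw [← h.preimage_closure, hcl, preimage_univ]
  have h2 : ⋃₀ {W | IsComp W (g ⁻¹' C)ᶜ} = g ⁻¹' Cᶜ := by
    rw [sUnion_comp, preimage_compl]
  rw [← h2, sUnion_eq_biUnion, (LeQ_fin h hs).closure_biUnion] at h1
  rw [eq_univ_iff_forall] at h1 ⊢
  intro x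
  obtain ⟨W, hW, hx⟩ := mem_iUnion₂.mp (h1 x)
  exact ⟨closure W, ⟨W, hW, rfl⟩, hx⟩

theorem tile_eq (hT : T ∈ Tiles C g) (hT' : T' ∈ Tiles C g) {x : X} (hx : x ∈ T) (hx' : x ∈ T')
    (hgx : g x ∉ C) : T = T' := by
  obtain ⟨W, hW, rfl⟩ := hT
  obtain ⟨W', hW', rfl⟩ := hT'
  have h1 : x ∈ W := by
    rw [← hW.closure_inter]
    exact ⟨hx, hgx⟩
  have h2 : x ∈ W' := by
    rw [← hW'.closure_inter]
    exact ⟨hx', hgx⟩
  rw [hW.eq hW' ⟨x, h1, h2⟩]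

theorem Dyn.tile_inv (h : Dyn g P) (hs : SepX C U₁ U₂) (h₁ : JDom U₁) (h₂ : JDom U₂) (hPC : P ⊆ C)
    (hT : T ∈ Tiles C g) :
    ∃ s : X → X, ContinuousOn s C ∧ (∀ y ∈ C, s y ∈ T ∧ g (s y) = y) ∧ ∀ x ∈ T, g x ∈ C → s (g x) = x := by
  obtain ⟨hcl, hi, hsub⟩ := h.tile hs h₁ h₂ hPC hT
  have hne : Nonempty X := by
    obtain ⟨W, hW, -⟩ := hT
    exact ⟨hW.ne.some⟩
  obtain ⟨s, hsc, hsi⟩ := exists_inverse hcl.isCompact h.cont.continuousOn hi
  refine ⟨s, hsc.mono hsub, ?_, fun x hx _ => hsi x hx⟩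
  intro y hy
  obtain ⟨x, hx, rfl⟩ := hsub hy
  rw [hsi x hx]
  exact ⟨hx, rfl⟩

end Pool.ETM
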