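import Mathlib
import Pool.Agent.ETM.LeD
import Pool.Agent.JS.SpD

set_option autoImplicit false

/-!
MODULE LeP (difficulty 3).  The components of an arc or a simple closed curve minus a finite set.

RECIPE.  `comp_union`: if `S = S₁ ∪ S₂`, `S₁ = S ∩ F₁`, `S₂ = S ∩ F₂` with closed disjoint-on-`S` sets `F₁, F₂` (`S ∩ F₁ ∩ F₂ = ∅`), then `IsComp e S ↔ IsComp e S₁ ∨ IsComp e S₂`: a preconnected subset of `S` is contained in `F₁` or in `F₂` (`isPreconnected_closed_iff`).
`arc_diff`: strong induction on the number of points of `Q`.  If `Q = {p, q}`: `A \ {p, q}` is connected and dense in `A` (`ArcX.interior`), so it is the only component and its closure is `A` (closed).  Otherwise there is `r ∈ Q`, `r ≠ p, q`: `ArcX.split`: `A = B ∪ C`, `B ∩ C = {r}`, `ArcX B p r`, `ArcX C r q`; use the induction hypothesis for `B`, `Q ∩ B` (it does not contain `q`: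
`q ∈ C`, `q ≠ r`) and `C`, `Q ∩ C`; `A \ Q = (B \ Q) ∪ (C \ Q)`, `comp_union` with `F₁ = B`, `F₂ = C`.
`jor_diff`: two points `a ≠ b` of `P`, `JorX.split`: `C = A ∪ B`, `A ∩ B = {a, b}`, `arc_diff` for `A`, `P ∩ A` and `B`, `P ∩ B`, `comp_union`.
-/

open Set Metric Topology Filter
open Pool.JS

namespace Pool.ETM

variable {X : Type*} [TopologicalSpace X] [T2Space X] {A C P Q S F₁ F₂ e : Set X} {p q : X}

omit [T2Space X] in
private lemma lep_dich (h₁ : IsClosed F₁) (h₂ : IsClosed F₂) (hS : S ⊆ F₁ ∪ F₂) (hd : S ∩ (F₁ ∩ F₂) = ∅)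
    {D : Set X} (hD : IsPreconnected D) (hDS : D ⊆ S) : D ⊆ F₁ ∨ D ⊆ F₂ := by
  apply isPreconnected_iff_subset_of_disjoint_closed.mp hD F₁ F₂ h₁ h₂ (hDS.trans hS)
  apply Set.eq_empty_of_subset_empty
  rw [← hd]
  exact inter_subset_inter_left _ hDS

theorem isComp_union_iff (h₁ : IsClosed F₁) (h₂ : IsClosed F₂) (hS : S ⊆ F₁ ∪ F₂) (hd : S ∩ (F₁ ∩ F₂) = ∅) :
    IsComp e S ↔ IsComp e (S ∩ F₁) ∨ IsComp e (S ∩ F₂) := by
  constructor
  · intro h
    have hsub := h.subset
    rcases lep_dich h₁ h₂ hS hd h.conn hsub with h3 | h3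
    · left; exact h.of_subset (subset_inter hsub h3) inter_subset_left
    · right; exact h.of_subset (subset_inter hsub h3) inter_subset_left
  · rintro (h | h)
    · have hsub := h.subset
      refine ⟨h.ne, h.conn, ?_, ?_⟩
      · intro x hx; simpa using (hsub hx).1
      · intro D hD hDS hne
        have hDS' : D ⊆ S := by intro x hx; simpa using hDS hx
        rcases lep_dich h₁ h₂ hS hd hD hDS' with h3 | h3
        · exact h.sub_of hD (subset_inter hDS' h3) hne
        · exfalso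
          obtain ⟨x, hx1, hx2⟩ := hne
          have : x ∈ S ∩ (F₁ ∩ F₂) := ⟨hDS' hx1, (hsub hx2).2, h3 hx1⟩
          rw [hd] at this
          exact this
    · have hsub := h.subset
      refine ⟨h.ne, h.conn, ?_, ?_⟩
      · intro x hx; simpa using (hsub hx).1
      · intro D hD hDS hne
        have hDS' : D ⊆ S := by intro x hx; simpa using hDS hx
        rcases lep_dich h₁ h₂ hS hd hD hDS' with h3 | h3
        · exfalso
          obtain ⟨x, hx1, hx2⟩ := hne
          have : x ∈ S ∩ (F₁ ∩ F₂) := ⟨hDS' hx1, h3 hx1, (hsub hx2).2⟩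
          rw [hd] at this
          exact this
        · exact h.sub_of hD (subset_inter hDS' h3) hne

omit [T2Space X] in
private lemma lep_single (hc : IsPreconnected S) : IsComp e S → e = S := by
  intro h
  apply Subset.antisymm h.subset
  obtain ⟨x, hx⟩ := h.ne
  exact h.sub_of hc Subset.rfl ⟨x, h.subset hx, hx⟩

private lemma lep_arc (n : ℕ) : ∀ (A Q : Set X) (p q : X), Q.ncard = n → ArcX A p q → Q.Finite → p ∈ Q → q ∈ Q →
    {e | IsComp e (A \ Q)}.Finite ∧
      ∀ e, IsComp e (A \ Q) → ∃ a ∈ Q, ∃ b ∈ Q, ArcX (closure e) a b ∧ e = closure e \ {a, b} := by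
  induction n using Nat.strong_induction_on with
  | _ n ih =>
    intro A Q p q hn hA hQ hp hq
    by_cases hr : ∃ r ∈ A, r ∈ Q ∧ r ≠ p ∧ r ≠ q
    · obtain ⟨r, hrA, hrQ, hrp, hrq⟩ := hr
      obtain ⟨B, C, hB, hC, hBC, hint⟩ := hA.split hrA hrp hrq
      have hBA : B ⊆ A := by rw [← hBC]; exact subset_union_left
      have hCA : C ⊆ A := by rw [← hBC]; exact subset_union_right
      have hqB : q ∉ B := fun h => by
        have : q ∈ B ∩ C := ⟨h, hC.right_mem⟩
        rw [hint] at this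
        exact hrq this.symm
      have hpC : p ∉ C := fun h => by
        have : p ∈ B ∩ C := ⟨hB.left_mem, h⟩
        rw [hint] at this
        exact hrp this.symm
      have c1 : (Q ∩ B).ncard < n := by
        rw [← hn]
        apply ncard_lt_ncard _ hQ
        exact ⟨inter_subset_left, fun h => hqB (h hq).2⟩
      have c2 : (Q ∩ C).ncard < n := by
        rw [← hn]
        apply ncard_lt_ncard _ hQ
        exact ⟨inter_subset_left, fun h => hpC (h hp).2⟩
      obtain ⟨f1, g1⟩ := ih _ c1 B (Q ∩ B) p r rfl hB (hQ.inter_of_left _) ⟨hp, hB.left_mem⟩ ⟨hrQ, hB.right_mem⟩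
      obtain ⟨f2, g2⟩ := ih _ c2 C (Q ∩ C) r q rfl hC (hQ.inter_of_left _) ⟨hrQ, hC.left_mem⟩ ⟨hq, hC.right_mem⟩
      have e1 : (A \ Q) ∩ B = B \ (Q ∩ B) := by
        ext x; simp only [mem_inter_iff, mem_diff]
        constructor
        · rintro ⟨⟨_, h2⟩, h3⟩; exact ⟨h3, fun h => h2 h.1⟩
        · rintro ⟨h1, h2⟩; exact ⟨⟨hBA h1, fun h => h2 ⟨h, h1⟩⟩, h1⟩
      have e2 : (A \ Q) ∩ C = C \ (Q ∩ C) := by
        ext x; simp only [mem_inter_iff, mem_diff]
        constructor
        · rintro ⟨⟨_, h2⟩, h3⟩; exact ⟨h3, fun h => h2 h.1⟩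
        · rintro ⟨h1, h2⟩; exact ⟨⟨hCA h1, fun h => h2 ⟨h, h1⟩⟩, h1⟩
      have key : ∀ e, IsComp e (A \ Q) ↔ IsComp e (B \ (Q ∩ B)) ∨ IsComp e (C \ (Q ∩ C)) := by
        intro e
        rw [isComp_union_iff hB.isCompact.isClosed hC.isCompact.isClosed (by rw [hBC]; exact fun x hx => hx.1)
          (by rw [hint]; ext x; simp only [mem_inter_iff, mem_diff, mem_singleton_iff, mem_empty_iff_false, iff_false]
              rintro ⟨⟨_, h2⟩, rfl⟩; exact h2 hrQ), e1, e2]
      constructor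
      · apply (f1.union f2).subset
        intro e he
        exact (key e).mp he
      · intro e he
        rcases (key e).mp he with h | h
        · obtain ⟨a, ha, b, hb, h1, h2⟩ := g1 e h
          exact ⟨a, ha.1, b, hb.1, h1, h2⟩
        · obtain ⟨a, ha, b, hb, h1, h2⟩ := g2 e h
          exact ⟨a, ha.1, b, hb.1, h1, h2⟩
    · have hE : A \ Q = A \ {p, q} := by
        ext x; simp only [mem_diff, mem_insert_iff, mem_singleton_iff]
        constructor
        · rintro ⟨h1, h2⟩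
          refine ⟨h1, ?_⟩
          rintro (rfl | rfl)
          · exact h2 hp
          · exact h2 hq
        · rintro ⟨h1, h2⟩
          refine ⟨h1, fun h => ?_⟩
          push Not at hr h2
          exact h2.2 (hr x h1 h h2.1)
      obtain ⟨h1, h2⟩ := hA.interior
      have hcl : closure (A \ {p, q}) = A := by
        apply Subset.antisymm _ h2
        exact closure_minimal (fun x hx => hx.1) hA.isCompact.isClosed
      rw [hE]
      constructor
      · apply (finite_singleton (A \ {p, q})).subset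
        intro e he
        exact lep_single h1.isPreconnected he
      · intro e he
        have := lep_single h1.isPreconnected he
        subst this
        refine ⟨p, hp, q, hq, ?_, ?_⟩
        · rw [hcl]; exact hA
        · rw [hcl]

theorem arc_diff (hA : ArcX A p q) (hQ : Q.Finite) (hp : p ∈ Q) (hq : q ∈ Q) :
    {e | IsComp e (A \ Q)}.Finite ∧
      ∀ e, IsComp e (A \ Q) → ∃ a ∈ Q, ∃ b ∈ Q, ArcX (closure e) a b ∧ e = closure e \ {a, b} :=
  lep_arc _ A Q p q rfl hA hQ hp hq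

theorem jor_diff (hC : JorX C) (hP : P.Finite) (hPC : P ⊆ C) (h2 : ¬ P.Subsingleton) :
    {e | IsComp e (C \ P)}.Finite ∧
      ∀ e, IsComp e (C \ P) → ∃ a ∈ P, ∃ b ∈ P, ArcX (closure e) a b ∧ e = closure e \ {a, b} := by
  rw [not_subsingleton_iff] at h2
  obtain ⟨a, ha, b, hb, hab⟩ := h2
  obtain ⟨A, B, hA, hB, hAB, hint⟩ := hC.split (hPC ha) (hPC hb) hab
  have hAC : A ⊆ C := by rw [← hAB]; exact subset_union_left
  have hBC : B ⊆ C := by rw [← hAB]; exact subset_union_right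
  obtain ⟨f1, g1⟩ := arc_diff hA (hP.inter_of_left A) ⟨ha, hA.left_mem⟩ ⟨hb, hA.right_mem⟩
  obtain ⟨f2, g2⟩ := arc_diff hB (hP.inter_of_left B) ⟨ha, hB.left_mem⟩ ⟨hb, hB.right_mem⟩
  have e1 : (C \ P) ∩ A = A \ (P ∩ A) := by
    ext x; simp only [mem_inter_iff, mem_diff]
    constructor
    · rintro ⟨⟨_, h2⟩, h3⟩; exact ⟨h3, fun h => h2 h.1⟩
    · rintro ⟨h1, h2⟩; exact ⟨⟨hAC h1, fun h => h2 ⟨h, h1⟩⟩, h1⟩
  have e2 : (C \ P) ∩ B = B \ (P ∩ B) := by
    ext x; simp only [mem_inter_iff, mem_diff]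
    constructor
    · rintro ⟨⟨_, h2⟩, h3⟩; exact ⟨h3, fun h => h2 h.1⟩
    · rintro ⟨h1, h2⟩; exact ⟨⟨hBC h1, fun h => h2 ⟨h, h1⟩⟩, h1⟩
  have key : ∀ e, IsComp e (C \ P) ↔ IsComp e (A \ (P ∩ A)) ∨ IsComp e (B \ (P ∩ B)) := by
    intro e
    rw [isComp_union_iff hA.isCompact.isClosed hB.isCompact.isClosed (by rw [hAB]; exact fun x hx => hx.1)
      (by
        rw [hint]; ext x
        simp only [mem_inter_iff, mem_diff, mem_insert_iff, mem_singleton_iff, mem_empty_iff_false, iff_false]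
        rintro ⟨⟨_, h2⟩, rfl | rfl⟩
        · exact h2 ha
        · exact h2 hb), e1, e2]
  constructor
  · apply (f1.union f2).subset
    intro e he
    exact (key e).mp he
  · intro e he
    rcases (key e).mp he with h | h
    · obtain ⟨a, ha, b, hb, h1, h2⟩ := g1 e h
      exact ⟨a, ha.1, b, hb.1, h1, h2⟩
    · obtain ⟨a, ha, b, hb, h1, h2⟩ := g2 e h
      exact ⟨a, ha.1, b, hb.1, h1, h2⟩

end Pool.ETM
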