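import Mathlib
import Pool.Agent.ETM.LeP

set_option autoImplicit false

/-!
MODULE LeR (difficulty 2).  The open flowers `wset C P p`.

RECIPE.  `jor_diff` (module LeP): finitely many components `e` of `C \ P`, each with `e = closure e \ {a, b}`, `a, b ∈ P` the end points of the arc `closure e`.
`isOpen`: the complement of `wset C P p` is `(P \ {p}) ∪ ⋃ {closure e | IsComp e (C \ P), p ∉ closure e}` (a point of `C \ P` lies in its component `e` (`isComp_cc`); components are disjoint: if `x ∈ e` and `p ∉ closure e` then `x` is in no component with `p` in the closure; `closure e ⊆ e ∪ {a, b}`, `a, b ∈ P`, `a, b ≠ p` if `p ∉ closure e`, so `closure e`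
is disjoint from `wset`: points of `e` are not in `Cᶜ`, not `p`, not in another component; points of `P \ {p}` are not in `wset`, see the next claim).  A finite union of closed sets.
`inter`: `P ⊆ C` is disjoint from `Cᶜ` and from all components of `C \ P`.
`cover`: `x ∉ C`: any `p ∈ P`; `x ∈ P`: `p = x`; otherwise the component `e ∋ x` of `C \ P` and its end `a ∈ P`, `a ∈ closure e` (`ArcX.left_mem`).
-/

open Set Metric Topology Filter
open Pool.JS

namespace Pool.ETM

variable {X : Type*} [TopologicalSpace X] [T2Space X] {C P : Set X} {p : X}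

theorem wset_isOpen (hC : JorX C) (hP : P.Finite) (hPC : P ⊆ C) (h2 : ¬ P.Subsingleton) (hp : p ∈ P) :
    IsOpen (wset C P p) := by
  have hCc : IsClosed C := hC.isCompact.isClosed
  have hfin := (jor_diff hC hP hPC h2).1
  have hF : IsClosed ((P \ {p}) ∪ ⋃ e ∈ {e | IsComp e (C \ P) ∧ p ∉ closure e}, closure e) := by
    apply IsClosed.union (hP.subset diff_subset).isClosed
    apply Set.Finite.isClosed_biUnion
    · exact hfin.subset fun e he => he.1
    · intro e _
      exact isClosed_closure
  have hw : wset C P p = ((P \ {p}) ∪ ⋃ e ∈ {e | IsComp e (C \ P) ∧ p ∉ closure e}, closure e)ᶜ := by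
    apply Subset.antisymm
    · intro x hx hxF
      have hx1 : x ∈ P \ {p} ∨ ∃ e, IsComp e (C \ P) ∧ p ∉ closure e ∧ x ∈ closure e := by
        rcases hxF with h | h
        · exact Or.inl h
        · right
          rw [mem_iUnion₂] at h
          obtain ⟨e, he, hxe⟩ := h
          exact ⟨e, he.1, he.2, hxe⟩
      rcases hx with hx | hx | hx
      · rcases hx1 with h | ⟨e, he, -, hxe⟩
        · exact hx (hPC h.1)
        · exact hx (closure_minimal (he.subset.trans diff_subset) hCc hxe)
      · rw [mem_singleton_iff] at hx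
        subst hx
        rcases hx1 with h | ⟨e, he, hpe, hxe⟩
        · exact h.2 rfl
        · exact hpe hxe
      · obtain ⟨e', ⟨he', hpe'⟩, hxe'⟩ := hx
        rcases hx1 with h | ⟨e, he, hpe, hxe⟩
        · exact (he'.subset hxe').2 h.1
        · have h3 : x ∈ e := by
            rw [← he.closure_inter]
            exact ⟨hxe, he'.subset hxe'⟩
          have h4 : e = e' := he.eq he' ⟨x, h3, hxe'⟩
          rw [h4] at hpe
          exact hpe hpe'
    · intro x hx
      rw [mem_compl_iff, mem_union, not_or] at hx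
      by_cases hxC : x ∈ C
      · right
        by_cases hxP : x ∈ P
        · left
          by_contra hne
          exact hx.1 ⟨hxP, hne⟩
        · right
          refine ⟨connectedComponentIn (C \ P) x, ⟨isComp_cc ⟨hxC, hxP⟩, ?_⟩, mem_connectedComponentIn ⟨hxC, hxP⟩⟩
          by_contra hpe
          apply hx.2
          rw [mem_iUnion₂]
          exact ⟨connectedComponentIn (C \ P) x, ⟨isComp_cc ⟨hxC, hxP⟩, hpe⟩,
            subset_closure (mem_connectedComponentIn ⟨hxC, hxP⟩)⟩
      · exact Or.inl hxC
  rw [hw]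
  exact hF.isOpen_compl

theorem wset_inter (hPC : P ⊆ C) (hp : p ∈ P) : wset C P p ∩ P = {p} := by
  apply Subset.antisymm
  · rintro x ⟨hx | hx | ⟨e, ⟨he, -⟩, hxe⟩, hxP⟩
    · exact absurd (hPC hxP) hx
    · exact hx
    · exact absurd hxP (he.subset hxe).2
  · rintro x hx
    rw [mem_singleton_iff] at hx
    subst hx
    exact ⟨Or.inr (Or.inl rfl), hp⟩

theorem wset_cover (hC : JorX C) (hP : P.Finite) (hPC : P ⊆ C) (h2 : ¬ P.Subsingleton) (x : X) :
    ∃ p ∈ P, x ∈ wset C P p := by
  by_cases hxC : x ∈ C
  · by_cases hxP : x ∈ P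
    · exact ⟨x, hxP, Or.inr (Or.inl rfl)⟩
    · have he : IsComp (connectedComponentIn (C \ P) x) (C \ P) := isComp_cc ⟨hxC, hxP⟩
      obtain ⟨a, ha, b, hb, hab, -⟩ := (jor_diff hC hP hPC h2).2 _ he
      exact ⟨a, ha, Or.inr (Or.inr ⟨_, ⟨he, hab.left_mem⟩, mem_connectedComponentIn ⟨hxC, hxP⟩⟩)⟩
  · obtain ⟨p, hp, q, hq, hpq⟩ := Set.not_subsingleton_iff.mp h2
    exact ⟨p, hp, Or.inl hxC⟩

end Pool.ETM
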