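import Mathlib
import Pool.Agent.ETM.LeQ
import Pool.Agent.ETM.LeR

set_option autoImplicit false

/-!
MODULE LeS (difficulty 3).  2.6 of the paper: components of the preimage of a flower are in the flower of one vertex.

RECIPE.  `flower_point`: if `g x ∉ C`: `T = T'` (`tile_eq`), `g` is injective on `T`: `v = v'`.  If `g x = p`: `v = x = v'` by injectivity on `T` and on `T'`.  Otherwise `g x ∈ e`, `IsComp e (C \ P)`, `p ∈ closure e` (definition of `wset`, `g x ∈ C`, `g x ≠ p`).  Let `s, s'` be the inverse maps of `g` on `T`, `T'` (`tile_inv`), continuous on `C`.  On the preconnected set `e ⊆ C \ P`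
we have `g (s y) = y = g (s' y)`, `y ∉ P`, and `s (g x) = x = s' (g x)`: `Dyn.eqOn` gives `s = s'` on `e`.  Both are continuous at `p ∈ closure e`, `p ∈ C` (within `C`), so `s p = s' p` (two continuous maps on `C` which agree on `e` agree on `closure e ∩ C`: e.g. `{y ∈ C | s y = s' y}` is closed in `C`).  `v = s p`, `v' = s' p`.
`flower`: for `x` with `g x ∈ wset C P p` define `ν x` = a point of a tile `T ∋ x` (`tiles_cover`) with `g (ν x) = p` (`C ⊆ g '' T`); by `flower_point` every tile containing `x` contains `ν x`, and `ν x` does not depend on the tile.  `ν` is locally constant: the union of the (finitely many, closed) tiles not containing `x` is closed; for `y` in the complement, every tile `∋ y`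
contains `x`, so `ν y = ν x` (if `g y ∈ wset`).  `V` is preconnected: `ν` is constant on `V`, `= v₀` (`IsPreconnected.constant_of_...`, or the sets `{x ∈ V | ν x = v₀}` and its complement are both open in `V`).  If `x ∈ V`, `g x ∈ P`: `g x ∈ wset ∩ P = {p}` (`wset_inter`), so `ν x = x` (injectivity of `g` on the tile), `x = v₀`.
-/

open Set Metric Topology Filter
open Pool.JS

namespace Pool.ETM

variable {X : Type*} [TopologicalSpace X] [CompactSpace X] [T2Space X] [Sph X] {g : X → X} {P C U₁ U₂ V T T' : Set X}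
  {p v v' : X}

theorem Dyn.flower_point (h : Dyn g P) (hs : SepX C U₁ U₂) (h₁ : JDom U₁) (h₂ : JDom U₂) (hPC : P ⊆ C) (hp : p ∈ P)
    (hT : T ∈ Tiles C g) (hT' : T' ∈ Tiles C g) {x : X} (hx : x ∈ T) (hx' : x ∈ T') (hgx : g x ∈ wset C P p)
    (hv : v ∈ T) (hv' : v' ∈ T') (hgv : g v = p) (hgv' : g v' = p) : v = v' := by
  by_cases hC : g x ∈ C
  · have hT1 := h.tile hs h₁ h₂ hPC hT
    have hT2 := h.tile hs h₁ h₂ hPC hT'
    rcases hgx with h3 | h3 | h3
    · exact absurd hC h3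
    · have h4 : g x = p := h3
      have e1 : v = x := hT1.2.1 hv hx (by rw [hgv, h4])
      have e2 : v' = x := hT2.2.1 hv' hx' (by rw [hgv', h4])
      rw [e1, e2]
    · obtain ⟨e, ⟨he, hpe⟩, hxe⟩ := h3
      obtain ⟨s, sc, s1, s2⟩ := h.tile_inv hs h₁ h₂ hPC hT
      obtain ⟨s', sc', s1', s2'⟩ := h.tile_inv hs h₁ h₂ hPC hT'
      have heC : e ⊆ C := fun y hy => (he.subset hy).1
      have heq : EqOn s s' e := by
        refine h.eqOn he.conn (sc.mono heC) (sc'.mono heC) ?_ ?_ hxe ?_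
        · intro y hy
          rw [(s1 y (heC hy)).2, (s1' y (heC hy)).2]
        · intro y hy
          rw [(s1 y (heC hy)).2]
          exact (he.subset hy).2
        · rw [s2 x hx hC, s2' x hx' hC]
      have hsub : e ∪ {p} ⊆ C := union_subset heC (singleton_subset_iff.mpr (hPC hp))
      have heq' : EqOn s s' (e ∪ {p}) := heq.of_subset_closure (sc.mono hsub) (sc'.mono hsub)
        subset_union_left (union_subset subset_closure (singleton_subset_iff.mpr hpe))
      have h5 : s p = s' p := heq' (Or.inr rfl)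
      have e1 : s p = v := by
        rw [← hgv]
        exact s2 v hv (by rw [hgv]; exact hPC hp)
      have e2 : s' p = v' := by
        rw [← hgv']
        exact s2' v' hv' (by rw [hgv']; exact hPC hp)
      rw [← e1, ← e2, h5]
  · have hTT := tile_eq hT hT' hx hx' hC
    subst hTT
    exact (h.tile hs h₁ h₂ hPC hT).2.1 hv hv' (by rw [hgv, hgv'])

theorem Dyn.flower (h : Dyn g P) (hs : SepX C U₁ U₂) (h₁ : JDom U₁) (h₂ : JDom U₂) (hPC : P ⊆ C) (hp : p ∈ P)
    (hV : IsPreconnected V) (hne : V.Nonempty) (hVp : MapsTo g V (wset C P p)) :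
    ∃ v₀, (∀ x ∈ V, ∃ T ∈ Tiles C g, x ∈ T ∧ v₀ ∈ T) ∧ V ∩ g ⁻¹' P ⊆ {v₀} := by
  have hex : ∀ x, ∃ w, x ∈ V → (g w = p ∧ ∀ T ∈ Tiles C g, x ∈ T → w ∈ T) := by
    intro x
    by_cases hx : x ∈ V
    · have hcov : x ∈ ⋃₀ Tiles C g := by
        rw [h.tiles_cover hs]
        exact mem_univ x
      obtain ⟨T, hT, hxT⟩ := hcov
      obtain ⟨w, hw, hgw⟩ := (h.tile hs h₁ h₂ hPC hT).2.2 (hPC hp)
      refine ⟨w, fun _ => ⟨hgw, ?_⟩⟩
      intro T' hT' hxT'
      obtain ⟨w', hw', hgw'⟩ := (h.tile hs h₁ h₂ hPC hT').2.2 (hPC hp)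
      have := h.flower_point hs h₁ h₂ hPC hp hT hT' hxT hxT' (hVp hx) hw hw' hgw hgw'
      rw [this]
      exact hw'
    · exact ⟨x, fun h' => absurd h' hx⟩
  choose ν hν using hex
  obtain ⟨O, hO⟩ : ∃ O : X → Set X, O = fun x => (⋃₀ {T | T ∈ Tiles C g ∧ x ∉ T})ᶜ := ⟨_, rfl⟩
  have hOo : ∀ x, IsOpen (O x) := by
    intro x
    rw [hO]
    have hfin : {T | T ∈ Tiles C g ∧ x ∉ T}.Finite := (h.tiles_finite hs).subset (fun T hT => hT.1)
    show IsOpen (⋃₀ {T | T ∈ Tiles C g ∧ x ∉ T})ᶜ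
    rw [sUnion_eq_biUnion]
    refine (hfin.isClosed_biUnion ?_).isOpen_compl
    intro T hT
    exact (h.tile hs h₁ h₂ hPC hT.1).1
  have hOx : ∀ x, x ∈ O x := by
    intro x
    rw [hO]
    rintro ⟨T, hT, hxT⟩
    exact hT.2 hxT
  have hOν : ∀ x ∈ V, ∀ y ∈ V, y ∈ O x → ν y = ν x := by
    intro x hx y hy hyO
    have hcov : y ∈ ⋃₀ Tiles C g := by
      rw [h.tiles_cover hs]
      exact mem_univ y
    obtain ⟨T, hT, hyT⟩ := hcov
    have hxT : x ∈ T := by
      by_contra hxT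
      rw [hO] at hyO
      exact hyO ⟨T, ⟨hT, hxT⟩, hyT⟩
    exact (h.tile hs h₁ h₂ hPC hT).2.1 ((hν y hy).2 T hT hyT) ((hν x hx).2 T hT hxT)
      (by rw [(hν y hy).1, (hν x hx).1])
  obtain ⟨x₀, hx₀⟩ := hne
  have hconst : ∀ x ∈ V, ν x = ν x₀ := by
    by_contra hcon
    push Not at hcon
    obtain ⟨x₁, hx₁, hne₁⟩ := hcon
    obtain ⟨y, hy, hy1, hy2⟩ := hV (⋃ x ∈ {x | x ∈ V ∧ ν x = ν x₀}, O x) (⋃ x ∈ {x | x ∈ V ∧ ν x ≠ ν x₀}, O x)
      (isOpen_biUnion (fun x _ => hOo x)) (isOpen_biUnion (fun x _ => hOo x)) (by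
        intro x hx
        by_cases h1 : ν x = ν x₀
        · left
          rw [mem_iUnion₂]
          exact ⟨x, ⟨hx, h1⟩, hOx x⟩
        · right
          rw [mem_iUnion₂]
          exact ⟨x, ⟨hx, h1⟩, hOx x⟩)
      ⟨x₀, hx₀, by
        rw [mem_iUnion₂]
        exact ⟨x₀, ⟨hx₀, rfl⟩, hOx x₀⟩⟩
      ⟨x₁, hx₁, by
        rw [mem_iUnion₂]
        exact ⟨x₁, ⟨hx₁, hne₁⟩, hOx x₁⟩⟩
    rw [mem_iUnion₂] at hy1 hy2
    obtain ⟨a, ha, hya⟩ := hy1
    obtain ⟨b, hb, hyb⟩ := hy2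
    apply hb.2
    rw [← hOν b hb.1 y hy hyb, hOν a ha.1 y hy hya]
    exact ha.2
  refine ⟨ν x₀, ?_, ?_⟩
  · intro x hx
    have hcov : x ∈ ⋃₀ Tiles C g := by
      rw [h.tiles_cover hs]
      exact mem_univ x
    obtain ⟨T, hT, hxT⟩ := hcov
    refine ⟨T, hT, hxT, ?_⟩
    rw [← hconst x hx]
    exact (hν x hx).2 T hT hxT
  · rintro x ⟨hx, hxP⟩
    have h1 : g x ∈ wset C P p ∩ P := ⟨hVp hx, hxP⟩
    rw [wset_inter hPC hp] at h1
    have hcov : x ∈ ⋃₀ Tiles C g := by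
      rw [h.tiles_cover hs]
      exact mem_univ x
    obtain ⟨T, hT, hxT⟩ := hcov
    have h2 := (hν x hx).2 T hT hxT
    have h3 : x = ν x := (h.tile hs h₁ h₂ hPC hT).2.1 hxT h2 (by
      rw [(hν x hx).1]
      exact h1)
    show x = ν x₀
    rw [← hconst x hx]
    exact h3

end Pool.ETM
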