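import Mathlib
import Pool.Agent.ETM.LeO
import Pool.Agent.ETM.LeS

set_option autoImplicit false

/-!
MODULE LeT (difficulty 3).  2.7, 2.8 of the paper: the structure `Expd` (CONTR and UV) from the shrinking of the tiles.

RECIPE.  `¬ P.Subsingleton` (`Dyn.not_subsingleton`).  The open sets `wset C P p`, `p ∈ P`, cover the compact metric space `X` (`wset_isOpen`, `wset_cover`): Lebesgue number `η₀ > 0`: every ball of radius `η₀` is contained in one of them (`lebesgue_number_lemma_of_metric`, index type `↥P`).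
`X` is nonempty (`f` is not injective).  Let `V` be preconnected, nonempty, `diam (f^[n] '' V) < η₀`: for `y ∈ f^[n] '' V` the image is contained in `ball y η₀` (`dist_le_diam_of_mem`, bounded since `X` is compact), so `MapsTo f^[n] V (wset C P p)` for some `p ∈ P`.  `Dyn.flower` for `g = f^[n]` (`Dyn.iterate`): `v₀`.
`uv`: `V ∩ f^[n] ⁻¹' P ⊆ {v₀}` is a subsingleton (`V` empty: trivial).
`contr`: for `η > 0` let `N` be such that the components of `(f^[n] ⁻¹' C)ᶜ` have diameter `< η / 3` for `n ≥ N`; tiles have the same diameter (`Metric.diam_closure`); for `x, y ∈ V`: `dist x y ≤ dist x v₀ + dist v₀ y ≤ 2 * (η / 3)`, so `diam V ≤ 2 * η / 3 < η` (`diam_le_of_forall_dist_le`).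
-/

open Set Metric Topology Filter
open Pool.JS

namespace Pool.ETM

variable {X : Type*} [MetricSpace X] [CompactSpace X] [Sph X] {f : X → X} {P C U₁ U₂ : Set X}

theorem Dyn.expd (h : Dyn f P) (hinj : ¬ Function.Injective f) (hC : JorX C) (hs : SepX C U₁ U₂) (h₁ : JDom U₁)
    (h₂ : JDom U₂) (hPC : P ⊆ C)
    (hexp : ∀ ε : ℝ, 0 < ε → ∃ N : ℕ, ∀ n ≥ N, ∀ W : Set X, IsComp W (f^[n] ⁻¹' C)ᶜ → diam W < ε) :
    ∃ η, Expd f P η := by
  have h2 := h.not_subsingleton hinj
  obtain ⟨η, hη, hL⟩ := lebesgue_number_lemma_of_metric (s := (univ : Set X)) (c := fun p : P => wset C P p)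
    isCompact_univ (fun p => wset_isOpen hC h.finP hPC h2 p.2) (by
      intro x _
      obtain ⟨p, hp, hx⟩ := wset_cover hC h.finP hPC h2 x
      exact mem_iUnion.mpr ⟨⟨p, hp⟩, hx⟩)
  have key : ∀ n : ℕ, ∀ V : Set X, IsPreconnected V → V.Nonempty → diam (f^[n] '' V) < η →
      ∃ v₀, (∀ x ∈ V, ∃ T ∈ Tiles C f^[n], x ∈ T ∧ v₀ ∈ T) ∧ V ∩ f^[n] ⁻¹' P ⊆ {v₀} := by
    intro n V hV hne hd
    obtain ⟨x, hx⟩ := hne
    obtain ⟨p, hp⟩ := hL (f^[n] x) (mem_univ _)
    refine (h.iterate n).flower hs h₁ h₂ hPC p.2 hV ⟨x, hx⟩ ?_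
    intro y hy
    apply hp
    rw [mem_ball]
    exact lt_of_le_of_lt (dist_le_diam_of_mem (isBounded_of_compactSpace) (mem_image_of_mem _ hy)
      (mem_image_of_mem _ hx)) hd
  refine ⟨η, hη, ?_, ?_⟩
  · intro ε hε
    obtain ⟨N, hN⟩ := hexp (ε / 3) (by positivity)
    refine ⟨N, fun n hn V hV hd => ?_⟩
    rcases V.eq_empty_or_nonempty with rfl | hne
    · rw [diam_empty]; exact hε
    obtain ⟨v₀, hv, -⟩ := key n V hV hne hd
    have hdist : ∀ x ∈ V, dist x v₀ ≤ ε / 3 := by
      intro x hx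
      obtain ⟨T, ⟨W, hW, rfl⟩, hxT, hvT⟩ := hv x hx
      have h3 := hN n hn W hW
      have hb : Bornology.IsBounded (closure W) := isBounded_of_compactSpace
      have h4 := dist_le_diam_of_mem hb hxT hvT
      rw [Metric.diam_closure] at h4
      linarith
    have h5 : diam V ≤ 2 * (ε / 3) := by
      refine diam_le_of_forall_dist_le (by positivity) ?_
      intro x hx y hy
      have h6 := hdist x hx
      have h7 := hdist y hy
      have h8 := dist_triangle_right x y v₀
      linarith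
    linarith
  · intro n V hV hd
    rcases V.eq_empty_or_nonempty with rfl | hne
    · rw [empty_inter]; exact subsingleton_empty
    obtain ⟨v₀, -, hv⟩ := key n V hV hne hd
    exact subsingleton_singleton.anti hv

end Pool.ETM
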