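import Mathlib
import Pool.Agent.ETM.LeB

set_option autoImplicit false

/-!
MODULE LeU (difficulty 3).  2.9 (UEL) of the paper.

RECIPE.  `uel_one`: every `y` has an open neighbourhood `N y` such that every preconnected `V` with `g '' V ⊆ N y` has diameter `< η`: the fibre `F = g ⁻¹' {y}` is finite; choose `r > 0`, `r ≤ η / 4`, such that the balls `ball x r`, `x ∈ F`, are pairwise disjoint; `g` is closed, so the complement of `g '' (⋃ x ∈ F, ball x r)ᶜ` is an open neighbourhood `N y` of `y`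
with `g ⁻¹' N y ⊆ ⋃ x ∈ F, ball x r`; a preconnected `V` in the union of the disjoint open balls is contained in one of them (`IsPreconnected.subset_or_subset` by induction, or: the ball containing a point of `V` and the union of the others are disjoint open sets), so `diam V ≤ 2 * r < η`.  Lebesgue number `η₁` of the cover `N y` (`lebesgue_number_lemma_of_metric` on the compact
space `X`; a set of diameter `< η₁` is contained in a ball of radius `η₁` around one of its points, if it is nonempty).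
`uel`: `m₀` from `he.contr η`; for `n < m₀` the number `η₁ n` of `uel_one` for `g = f^[n]` (`Dyn.iterate`); take the minimum of `η₀` and the finitely many `η₁ n` (`Finset.exists_le`/induction on `m₀`).
-/

open Set Metric Topology Filter
open Pool.JS

namespace Pool.ETM

variable {X : Type*} [MetricSpace X] [CompactSpace X] {f g : X → X} {P : Set X} {η₀ : ℝ}

theorem uel_one (hg : Continuous g) (hfin : ∀ y, (g ⁻¹' {y}).Finite) {η : ℝ} (hη : 0 < η) :
    ∃ η₁ : ℝ, 0 < η₁ ∧ ∀ V : Set X, IsPreconnected V → diam (g '' V) < η₁ → diam V < η := by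
  have step : ∀ y : X, ∃ N : Set X, IsOpen N ∧ y ∈ N ∧
      ∀ V : Set X, IsPreconnected V → g '' V ⊆ N → diam V < η := by
    intro y
    obtain ⟨U, hU1, hU2⟩ := (hfin y).t2_separation
    set W : X → Set X := fun x => U x ∩ ball x (η / 4) with hW
    have hWo : ∀ x, IsOpen (W x) := fun x => (hU1 x).2.inter isOpen_ball
    have hWm : ∀ x, x ∈ W x := fun x => ⟨(hU1 x).1, mem_ball_self (by linarith)⟩
    refine ⟨(g '' (⋃ x ∈ g ⁻¹' {y}, W x)ᶜ)ᶜ, ?_, ?_, ?_⟩
    · exact (hg.isClosedMap _ (isOpen_biUnion fun x _ => hWo x).isClosed_compl).isOpen_compl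
    · rintro ⟨x, hx, hxy⟩
      exact hx (mem_biUnion (show x ∈ g ⁻¹' {y} from hxy) (hWm x))
    · intro V hV hVN
      rcases V.eq_empty_or_nonempty with rfl | ⟨v, hv⟩
      · simpa using hη
      have hVW : V ⊆ ⋃ x ∈ g ⁻¹' {y}, W x := by
        intro w hw
        by_contra hcon
        exact hVN (mem_image_of_mem g hw) ⟨w, hcon, rfl⟩
      obtain ⟨x, hx, hvx⟩ := mem_iUnion₂.mp (hVW hv)
      have hsub : V ⊆ W x := by
        apply IsPreconnected.subset_left_of_subset_union (hWo x)
          (isOpen_biUnion (s := {x' | x' ∈ g ⁻¹' {y} ∧ x' ≠ x}) fun x' _ => hWo x') _ _ ⟨v, hv, hvx⟩ hV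
        · rw [Set.disjoint_left]
          intro w hw hw'
          obtain ⟨x', ⟨hx', hne⟩, hw'⟩ := mem_iUnion₂.mp hw'
          exact Set.disjoint_left.mp (hU2 hx hx' hne.symm) hw.1 hw'.1
        · intro w hw
          obtain ⟨x', hx', hw'⟩ := mem_iUnion₂.mp (hVW hw)
          by_cases h : x' = x
          · left; rw [← h]; exact hw'
          · right; exact mem_iUnion₂.mpr ⟨x', ⟨hx', h⟩, hw'⟩
      calc diam V ≤ diam (ball x (η / 4)) := diam_mono (hsub.trans inter_subset_right) isBounded_ball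
        _ ≤ 2 * (η / 4) := diam_ball (by linarith)
        _ < η := by linarith
  choose N hN1 hN2 hN3 using step
  obtain ⟨δ, hδ, hleb⟩ := lebesgue_number_lemma_of_metric (isCompact_univ (X := X)) hN1
    (fun y _ => mem_iUnion.mpr ⟨y, hN2 y⟩)
  refine ⟨δ, hδ, ?_⟩
  intro V hV hd
  rcases V.eq_empty_or_nonempty with rfl | ⟨v, hv⟩
  · simpa using hη
  obtain ⟨y, hy⟩ := hleb (g v) (mem_univ _)
  refine hN3 y V hV (Subset.trans ?_ hy)
  rintro _ ⟨w, hw, rfl⟩
  rw [mem_ball]
  refine lt_of_le_of_lt (dist_le_diam_of_mem ?_ (mem_image_of_mem g hw) (mem_image_of_mem g hv)) hd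
  exact isBounded_of_compactSpace

theorem Dyn.uel (h : Dyn f P) (he : Expd f P η₀) {η : ℝ} (hη : 0 < η) :
    ∃ η₁ : ℝ, 0 < η₁ ∧ ∀ n : ℕ, ∀ V : Set X, IsPreconnected V → diam (f^[n] '' V) < η₁ → diam V < η := by
  obtain ⟨m, hm⟩ := he.contr η hη
  choose e he1 he2 using fun n : ℕ => uel_one (h.iterate n).cont (h.iterate n).fin hη
  have hmin : ∀ k : ℕ, ∃ η₁ : ℝ, 0 < η₁ ∧ η₁ ≤ η₀ ∧ ∀ n < k, η₁ ≤ e n := by
    intro k
    induction k with
    | zero => exact ⟨η₀, he.pos, le_rfl, fun n hn => absurd hn (Nat.not_lt_zero n)⟩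
    | succ k ih =>
      obtain ⟨a, ha, ha0, hak⟩ := ih
      refine ⟨min a (e k), lt_min ha (he1 k), (min_le_left _ _).trans ha0, ?_⟩
      intro n hn
      rcases Nat.lt_succ_iff_lt_or_eq.mp hn with h1 | rfl
      · exact (min_le_left _ _).trans (hak n h1)
      · exact min_le_right _ _
  obtain ⟨η₁, h0, h1, h2⟩ := hmin m
  refine ⟨η₁, h0, ?_⟩
  intro n V hV hd
  rcases lt_or_ge n m with hn | hn
  · exact he2 n V hV (hd.trans_le (h2 n hn))
  · exact hm n hn V hV (hd.trans_le h1)

end Pool.ETM
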