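import Mathlib
import Pool.Agent.ETM.LeI
import Pool.Agent.ETM.LeM

set_option autoImplicit false

/-!
MODULE LeN (difficulty 3).  2.4 of the paper, last part: closures of different components are disjoint.

RECIPE.  `ld_disjoint`: parametrise `closure U` by `Φ` with `Φ 0 = p` (`disc_center`), apply `Dyn.ld` to `V` and `V'`: `Ψ, H` and `Ψ', H'`.  Let `y ∈ closure V ∩ closure V'`.  If `y ∈ V` then the open set `V` meets `V'`, so `V = V'` (`IsComp.eq`); same for `y ∈ V'`.  So `y ∈ frontier V`, `f y ∈ frontier U` (`comp_frontier`), `f y ≠ p`, so `y ≠ Ψ 0`, `y ≠ Ψ' 0` and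
`y = H w = H' w'` with `w, w' ∈ HP`; `Φ (exp w) = f y = Φ (exp w')`, `Φ` injective: `exp w = exp w'`, so `w = w' + 2 π k I` (`Complex.exp_eq_exp_iff_exists_int`); `half_translate` (at `w'`): `H (v + 2 π k I) = H' v` for all `v ∈ HP`.  So `closure V' \ {Ψ' 0} = H' '' HP ⊆ H '' HP ⊆ closure V` (`HP` is invariant under the translation).
The open set `V'` is infinite (`sph_infinite`), so it has a point `≠ Ψ' 0`, which is in `closure V`: `V'` meets `V`, `V = V'`.
`ld_isComp_closure`: `f ⁻¹' closure U = closure (f ⁻¹' U) = ⋃ closure V_i` over the finitely many components (`preimage_closure`, `sUnion_comp`, `comp_finite`, `Set.Finite.closure_sUnion`).  The sets `closure V_i` are closed and pairwise disjoint, so a preconnected subset of the union which meets `closure V` is contained in it (`closure V` and the union of the others are disjoint closed sets: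
`IsPreconnected.subset_left_of_subset_union` for closed sets / `isPreconnected_closed_iff`).
`jdom_sub`: if `U ∩ P = ∅` use `jdom_comp`; otherwise `p ∈ U ∩ P`, the frontier of `U` contains no point of `P` (`U` is open, `closure U ∩ P` has one point), `ld_comp`.
-/

open Set Metric Topology Filter
open Pool.JS

namespace Pool.ETM

variable {X : Type*} [TopologicalSpace X] [CompactSpace X] [T2Space X] [Sph X] {f : X → X} {P U V V' : Set X} {p : X}

private theorem len_avoid {Φ : ℂ → X} (hi : InjOn Φ (closedBall 0 1)) (hF : Φ '' sphere 0 1 = frontier U)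
    (hB : Φ '' ball 0 1 = U) (h0 : Φ 0 = p) (hPU : U ∩ P ⊆ {p}) (hPF : Disjoint (frontier U) P) :
    ∀ z ∈ closedBall (0 : ℂ) 1, z ≠ 0 → Φ z ∉ P := by
  have h0C : (0 : ℂ) ∈ closedBall (0 : ℂ) 1 := by simp
  intro z hz hz0 hzP
  rcases eq_or_lt_of_le (mem_closedBall_zero_iff.1 hz) with hz1 | hz1
  · have hs : Φ z ∈ frontier U := by
      rw [← hF]
      exact ⟨z, by simpa using hz1, rfl⟩
    exact Set.disjoint_left.1 hPF hs hzP
  · have hzU : Φ z ∈ U := by
      rw [← hB]
      exact ⟨z, by simpa using hz1, rfl⟩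
    have : Φ z = p := hPU ⟨hzU, hzP⟩
    exact hz0 (hi hz h0C (this.trans h0.symm))

private theorem len_pre {U : Set X} (hU : JDom U) : IsPreconnected U := by
  obtain ⟨-, Φ, hc, -, -, -, hB⟩ := hU
  rw [← hB]
  exact (convex_ball (0 : ℂ) 1).isPreconnected.image Φ (hc.mono ball_subset_closedBall)

theorem Dyn.ld_disjoint (h : Dyn f P) (hU : JDom U) (hp : p ∈ U) (hPU : U ∩ P ⊆ {p}) (hPF : Disjoint (frontier U) P)
    (hV : IsComp V (f ⁻¹' U)) (hV' : IsComp V' (f ⁻¹' U)) (hne : V ≠ V') : Disjoint (closure V) (closure V') := by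
  obtain ⟨Φ, hΦ, hi, hD, hF, hB, h0⟩ := disc_center hU.2 hp
  obtain ⟨d, Ψ, H, hd, hΨc, hΨi, hΨC, hΨS, hΨB, hΨf, hHc, hHf, hHi, hq⟩ :=
    h.ld hU.1 hΦ hi hD hF hB h0 hPU hPF hV
  obtain ⟨d', Ψ', H', hd', hΨc', hΨi', hΨC', hΨS', hΨB', hΨf', hHc', hHf', hHi', hq'⟩ :=
    h.ld hU.1 hΦ hi hD hF hB h0 hPU hPF hV'
  have hav := len_avoid hi hF hB h0 hPU hPF
  have hno : ¬ (V ∩ V').Nonempty := fun hh => hne (hV.eq hV' hh)
  have hVo : IsOpen V := h.comp_isOpen hU.1 hV
  have hVo' : IsOpen V' := h.comp_isOpen hU.1 hV'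
  rw [Set.disjoint_left]
  intro y hy hy'
  have hyV : y ∉ V := by
    intro hyV
    obtain ⟨z, hz, hz'⟩ := mem_closure_iff.1 hy' V hVo hyV
    exact hno ⟨z, hz, hz'⟩
  have hfy : f y ∉ U := by
    intro hh
    apply hyV
    rw [← hV.closure_inter]
    exact ⟨hy, hh⟩
  have hfp : f y ≠ p := by
    rintro hh
    exact hfy (hh ▸ hp)
  have hyH : y ∈ H '' HP := by
    rw [hHi]
    refine ⟨hy, ?_⟩
    intro hh
    have hh' : y = Ψ 0 := hh
    exact hfp (by rw [hh', hq])
  have hyH' : y ∈ H' '' HP := by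
    rw [hHi']
    refine ⟨hy', ?_⟩
    intro hh
    have hh' : y = Ψ' 0 := hh
    exact hfp (by rw [hh', hq'])
  obtain ⟨w, hw, hwy⟩ := hyH
  obtain ⟨w', hw', hwy'⟩ := hyH'
  have hexp : ∀ v ∈ HP, Complex.exp v ∈ closedBall (0 : ℂ) 1 := by
    intro v hv
    rw [mem_closedBall_zero_iff, Complex.norm_exp]
    exact Real.exp_le_one_iff.2 hv
  have hee : Complex.exp w = Complex.exp w' := by
    apply hi (hexp w hw) (hexp w' hw')
    rw [← hHf w hw, ← hHf' w' hw', hwy, hwy']
  obtain ⟨k, hk⟩ := Complex.exp_eq_exp_iff_exists_int.1 hee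
  have hk' : w = w' + 2 * Real.pi * k * Complex.I := by
    rw [hk]
    ring
  have htr := h.half_translate hav hHc hHc' hHf hHf' k hw' (by rw [← hk', hwy, hwy'])
  obtain ⟨x', hx', hx'0⟩ := (sph_infinite hVo' hV'.ne).exists_notMem_finite (finite_singleton (Ψ' 0))
  have hx'H : x' ∈ H' '' HP := by
    rw [hHi']
    exact ⟨subset_closure hx', hx'0⟩
  obtain ⟨v, hv, hvx⟩ := hx'H
  have hvk : v + 2 * Real.pi * k * Complex.I ∈ HP := by
    change (v + 2 * Real.pi * k * Complex.I).re ≤ 0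
    have hv' : v.re ≤ 0 := hv
    simpa using hv'
  have hxcl : x' ∈ closure V := by
    rw [← hvx, ← htr v hv]
    have : H (v + 2 * Real.pi * k * Complex.I) ∈ H '' HP := ⟨_, hvk, rfl⟩
    rw [hHi] at this
    exact this.1
  obtain ⟨z, hz, hz'⟩ := mem_closure_iff.1 hxcl V' hVo' hx'
  exact hno ⟨z, hz', hz⟩

theorem Dyn.ld_isComp_closure (h : Dyn f P) (hU : JDom U) (hp : p ∈ U) (hPU : U ∩ P ⊆ {p})
    (hPF : Disjoint (frontier U) P) (hV : IsComp V (f ⁻¹' U)) : IsComp (closure V) (f ⁻¹' closure U) := by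
  have hUp := len_pre hU
  have hfin : {W | IsComp W (f ⁻¹' U)}.Finite := h.comp_finite hU.1 hUp
  have hcov : f ⁻¹' closure U = ⋃ W ∈ {W | IsComp W (f ⁻¹' U)}, closure W := by
    rw [h.preimage_closure, ← hfin.closure_biUnion]
    congr 1
    rw [← sUnion_eq_biUnion]
    exact sUnion_comp.symm
  have hother : IsClosed (⋃ W ∈ {W | IsComp W (f ⁻¹' U)} \ {V}, closure W) :=
    (hfin.subset sdiff_subset).isClosed_biUnion (fun W _ => isClosed_closure)
  have hdisj : ∀ y, y ∈ closure V → y ∉ ⋃ W ∈ {W | IsComp W (f ⁻¹' U)} \ {V}, closure W := by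
    intro y hy hy'
    rw [mem_iUnion₂] at hy'
    obtain ⟨W, ⟨hW, hWV⟩, hyW⟩ := hy'
    exact Set.disjoint_left.1 (h.ld_disjoint hU hp hPU hPF hV hW (fun hh => hWV hh.symm)) hy hyW
  have hsub : closure V ⊆ f ⁻¹' closure U := by
    rw [hcov]
    exact subset_biUnion_of_mem (u := fun W => closure W) (show V ∈ {W | IsComp W (f ⁻¹' U)} from hV)
  refine ⟨hV.ne.closure, hV.conn.closure, ?_, ?_⟩
  · rw [compl_compl]
    exact hsub
  · intro C hC hCs hCne
    rw [compl_compl] at hCs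
    intro c hc
    by_contra hcn
    have hcu : C ⊆ closure V ∪ ⋃ W ∈ {W | IsComp W (f ⁻¹' U)} \ {V}, closure W := by
      intro y hy
      have hy' := hCs hy
      rw [hcov, mem_iUnion₂] at hy'
      obtain ⟨W, hW, hyW⟩ := hy'
      by_cases hWV : W = V
      · left
        rw [← hWV]
        exact hyW
      · right
        exact mem_iUnion₂.2 ⟨W, ⟨hW, hWV⟩, hyW⟩
    obtain ⟨y, -, hy1, hy2⟩ := isPreconnected_closed_iff.1 hC _ _ isClosed_closure hother hcu hCne
      ⟨c, hc, (hcu hc).resolve_left hcn⟩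
    exact hdisj y hy1 hy2

theorem Dyn.jdom_sub (h : Dyn f P) (hU : JDom U) (hP : (closure U ∩ P).Subsingleton) (hV : IsComp V (f ⁻¹' U)) :
    JDom V := by
  by_cases hd : Disjoint U P
  · exact (h.jdom_comp hU hd hV).1
  · rw [Set.not_disjoint_iff] at hd
    obtain ⟨p, hpU, hpP⟩ := hd
    refine (h.ld_comp hU hpU ?_ ?_ hV).1
    · rintro y ⟨hyU, hyP⟩
      exact hP ⟨subset_closure hyU, hyP⟩ ⟨subset_closure hpU, hpP⟩
    · rw [Set.disjoint_left]
      intro y hy hyP
      have : y = p := hP ⟨frontier_subset_closure hy, hyP⟩ ⟨subset_closure hpU, hpP⟩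
      subst this
      rw [frontier, hU.1.interior_eq] at hy
      exact hy.2 hpU

end Pool.ETM
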