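import Mathlib
import Pool.Agent.ETM.LeI

set_option autoImplicit false

/-!
MODULE LeW (difficulty 3).  Pull back of plane graphs; the vertices may be in `P`.

RECIPE.  For `e ∈ E`: `ArcX e p q`, `e ∩ V = {p, q}`, so `e \ V = e \ {p, q}`; `Dyn.arc_comp_open` for every component `W` of `f ⁻¹' (e \ V)`: `closure W` is an arc from `p'` to `q'`, `f p' = p`, `f q' = q`, `W = closure W \ {p', q'}`, `f` maps `closure W` injectively onto `e`.
`closure W ∩ f ⁻¹' V = {p', q'}` (injectivity: the points of `closure W` over `e ∩ V = {p, q}`).  `finE`: for every `e` finitely many components: each contains a point over a fixed point of `e \ V` (`ArcX.exists_mid`; `f '' W = e \ V`), they are disjoint, the fibre is finite.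
`inter`: `x ∈ closure W ∩ closure W'`, `f x ∉ V`: then `x ∈ W` and `x ∈ W'`, `f x ∈ e ∩ e'` and not in `V`, so `e = e'` (`inter` for `E`), `W = W'` (`IsComp.eq`).
`sUnion_pullO`: `⊆`: `f '' closure W ⊆ e`.  `⊇`: `f x ∈ e ⊆ closure (e \ V)` (`ArcX.interior`), so `x ∈ f ⁻¹' closure (e \ V) = closure (f ⁻¹' (e \ V))` (`Dyn.preimage_closure`) `= ⋃ closure W` (finite union of components, `sUnion_comp`).  `vert`: from `sUnion_pullO`-argument for `v ∈ f ⁻¹' V`, `f v ∈ e` for some `e ∈ E`.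
-/

open Set Metric Topology Filter
open Pool.JS

namespace Pool.ETM

variable {X : Type*} [TopologicalSpace X] [CompactSpace X] [T2Space X] [Sph X] {f : X → X} {P V : Set X}
  {E : Set (Set X)}

private theorem lew_edge (hG : PG V E) {e : Set X} (he : e ∈ E) :
    ∃ p q, p ∈ V ∧ q ∈ V ∧ ArcX e p q ∧ e ∩ V = {p, q} ∧ e \ V = e \ {p, q} := by
  obtain ⟨p, hp, q, hq, harc, hV⟩ := hG.arc e he
  refine ⟨p, q, hp, hq, harc, hV, ?_⟩
  rw [← hV]
  exact (sdiff_self_inter (s := e) (t := V)).symm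

private theorem lew_comp (h : Dyn f P) (hG : PG V E) (hP : ∀ e ∈ E, Disjoint (e \ V) P) {e W : Set X}
    (he : e ∈ E) (hW : IsComp W (f ⁻¹' (e \ V))) :
    ∃ p' q', f p' ∈ V ∧ f q' ∈ V ∧ ArcX (closure W) p' q' ∧ W = closure W \ {p', q'} ∧ InjOn f (closure W) ∧
      f '' closure W = e ∧ closure W ∩ f ⁻¹' V = {p', q'} := by
  obtain ⟨p, q, hp, hq, harc, hV, hd⟩ := lew_edge hG he
  have hPe := hP e he
  rw [hd] at hW hPe
  obtain ⟨p', q', hp', hq', harc', hWe, hinj, himg⟩ := h.arc_comp_open harc hPe hW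
  refine ⟨p', q', by rw [hp']; exact hp, by rw [hq']; exact hq, harc', hWe, hinj, himg, ?_⟩
  ext x
  constructor
  · rintro ⟨hx, hfx⟩
    have hxe : f x ∈ e := himg ▸ mem_image_of_mem f hx
    have hxp : f x ∈ ({p, q} : Set X) := hV ▸ ⟨hxe, hfx⟩
    rcases hxp with hxp | hxp
    · left
      exact hinj hx harc'.left_mem (by rw [hxp, hp'])
    · right
      have hxp' : f x = q := hxp
      exact hinj hx harc'.right_mem (by rw [hxp', hq'])
  · rintro (hx | hx)
    · subst hx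
      exact ⟨harc'.left_mem, by rw [mem_preimage, hp']; exact hp⟩
    · have hx' : x = q' := hx
      subst hx'
      exact ⟨harc'.right_mem, by rw [mem_preimage, hq']; exact hq⟩

private theorem lew_mem (h : Dyn f P) (hG : PG V E) (hP : ∀ e ∈ E, Disjoint (e \ V) P) {e W : Set X}
    (he : e ∈ E) (hW : IsComp W (f ⁻¹' (e \ V))) {x : X} (hx : x ∈ closure W) (hfx : f x ∉ V) : x ∈ W := by
  obtain ⟨p', q', hp', hq', -, hWe, -, -, -⟩ := lew_comp h hG hP he hW
  rw [hWe]
  refine ⟨hx, ?_⟩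
  rintro (hx' | hx')
  · exact hfx (by rw [hx']; exact hp')
  · have hx'' : x = q' := hx'
    exact hfx (by rw [hx'']; exact hq')

private theorem lew_finite (h : Dyn f P) (hG : PG V E) (hP : ∀ e ∈ E, Disjoint (e \ V) P) {e : Set X}
    (he : e ∈ E) : {W | IsComp W (f ⁻¹' (e \ V))}.Finite := by
  obtain ⟨p, q, hp, hq, harc, hV, hd⟩ := lew_edge hG he
  obtain ⟨m, hm, hmp, hmq⟩ := harc.exists_mid
  have hmV : m ∉ V := by
    intro hmV
    have : m ∈ ({p, q} : Set X) := hV ▸ ⟨hm, hmV⟩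
    rcases this with h1 | h1
    · exact hmp h1
    · exact hmq h1
  refine ((h.fin m).image (fun w => connectedComponentIn (f ⁻¹' (e \ V)) w)).subset ?_
  intro W hW
  have hW' : IsComp W (f ⁻¹' (e \ V)) := hW
  obtain ⟨p', q', hp', hq', harc', hWe, hinj, himg, -⟩ := lew_comp h hG hP he hW'
  have hm' : m ∈ f '' closure W := by rw [himg]; exact hm
  obtain ⟨w, hw, hwm⟩ := hm'
  have hwW : w ∈ W := lew_mem h hG hP he hW' hw (by rw [hwm]; exact hmV)
  exact ⟨w, hwm, (hW'.eq_cc hwW).symm⟩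

theorem Dyn.sUnion_pullO (h : Dyn f P) (hG : PG V E) (hP : ∀ e ∈ E, Disjoint (e \ V) P) :
    ⋃₀ pullO f V E = f ⁻¹' ⋃₀ E := by
  ext x
  constructor
  · rintro ⟨c, ⟨e, he, W, hW, rfl⟩, hx⟩
    obtain ⟨p', q', hp', hq', harc', hWe, hinj, himg, -⟩ := lew_comp h hG hP he hW
    exact ⟨e, he, himg ▸ mem_image_of_mem f hx⟩
  · rintro ⟨e, he, hx⟩
    obtain ⟨p, q, hp, hq, harc, hV, hd⟩ := lew_edge hG he
    have h1 : f x ∈ closure (e \ V) := by
      rw [hd]
      exact harc.interior.2 hx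
    have h2 : x ∈ closure (f ⁻¹' (e \ V)) := by
      rw [← h.preimage_closure]
      exact h1
    rw [← sUnion_comp (S := f ⁻¹' (e \ V)), (lew_finite h hG hP he).closure_sUnion] at h2
    rw [mem_iUnion₂] at h2
    obtain ⟨W, hW, hxW⟩ := h2
    exact ⟨closure W, ⟨e, he, W, hW, rfl⟩, hxW⟩

theorem Dyn.pg_pullO (h : Dyn f P) (hG : PG V E) (hP : ∀ e ∈ E, Disjoint (e \ V) P) :
    PG (f ⁻¹' V) (pullO f V E) where
  finV := hG.finV.preimage' (fun y _ => h.fin y)
  finE := by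
    have h1 : (⋃ e ∈ E, closure '' {W | IsComp W (f ⁻¹' (e \ V))}).Finite :=
      hG.finE.biUnion (fun e he => (lew_finite h hG hP he).image _)
    refine h1.subset ?_
    rintro c ⟨e, he, W, hW, rfl⟩
    rw [mem_iUnion₂]
    exact ⟨e, he, W, hW, rfl⟩
  arc := by
    rintro c ⟨e, he, W, hW, rfl⟩
    obtain ⟨p', q', hp', hq', harc', hWe, hinj, himg, hc⟩ := lew_comp h hG hP he hW
    exact ⟨p', hp', q', hq', harc', hc⟩
  inter := by
    rintro c ⟨e, he, W, hW, rfl⟩ c' ⟨e', he', W', hW', rfl⟩ hne x ⟨hx, hx'⟩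
    by_contra hfx
    have hfx' : f x ∉ V := hfx
    have h1 : x ∈ W := lew_mem h hG hP he hW hx hfx'
    have h2 : x ∈ W' := lew_mem h hG hP he' hW' hx' hfx'
    have h3 : f x ∈ e \ V := hW.subset h1
    have h4 : f x ∈ e' \ V := hW'.subset h2
    by_cases hee : e = e'
    · subst hee
      exact hne (by rw [hW.eq hW' ⟨x, h1, h2⟩])
    · exact h3.2 (hG.inter e he e' he' hee ⟨h3.1, h4.1⟩)
  vert := by
    intro v hv
    obtain ⟨e, he, hve⟩ := hG.vert (f v) hv
    have : v ∈ ⋃₀ pullO f V E := by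
      rw [h.sUnion_pullO hG hP]
      exact ⟨e, he, hve⟩
    obtain ⟨c, hc, hvc⟩ := this
    exact ⟨c, hc, hvc⟩

end Pool.ETM
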