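import Mathlib
import Pool.Agent.ETM.LeW

set_option autoImplicit false

/-!
MODULE LeX (difficulty 3).  Pull back of plane graphs without postcritical points: the two forms of the pulled back edges agree; valence; simplicity.

RECIPE.  `edge_image`: `c ∈ pullE f E`: `IsComp c (f ⁻¹' e)`, `e ∈ E`; `Dyn.arc_comp`: `f '' c = e`, `InjOn f c`, `ArcX c p' q'`, `f p' = p`, `f q' = q`.
`pullE_eq`: `⊆`: let `W = c \ {p', q'} = c \ f ⁻¹' V` (injectivity, `e ∩ V = {p, q}`): preconnected and dense in `c` (`ArcX.interior`), contained in `f ⁻¹' (e \ V)`; a preconnected subset of `f ⁻¹' (e \ V)` which meets `W` is contained in `c` (`IsComp.sub_of`) and avoids `f ⁻¹' V`, so it is in `W`: `IsComp W (f ⁻¹' (e \ V))`, `closure W = c` (`c` is closed).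
`⊇`: `IsComp W (f ⁻¹' (e \ V))`, let `c` be the component of `f ⁻¹' e` containing `W` (`IsComp.exists_super`); as before `c \ f ⁻¹' V` is a component of `f ⁻¹' (e \ V)`, it contains `W`... (it meets `W`), so it is `W`, and `closure W = c`.
`pullE_val`: the map `c ↦ f '' c` maps `{c ∈ pullE f E | v ∈ c}` into `{e ∈ E | f v ∈ e}` and is injective: if `f '' c = f '' c' = e`, both are components of `f ⁻¹' e` containing `v` (`IsComp.eq`).  `Set.ncard_le_ncard_of_injOn` (the target is finite: `finE`).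
`pullE_simple`: `c ∩ f ⁻¹' V = c' ∩ f ⁻¹' V` gives `e ∩ V = f '' (c ∩ f ⁻¹' V) = e' ∩ V`, so `e = e'`; the two components of `f ⁻¹' e` have a common point (an end point), so they are equal.
-/

open Set Metric Topology Filter
open Pool.JS

namespace Pool.ETM

variable {X : Type*} [TopologicalSpace X] [CompactSpace X] [T2Space X] [Sph X] {f : X → X} {P V : Set X}
  {E : Set (Set X)}

theorem sUnion_pullE : ⋃₀ pullE f E = f ⁻¹' ⋃₀ E := by
  ext x
  constructor
  · rintro ⟨c, ⟨e, he, hc⟩, hx⟩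
    exact ⟨e, he, hc.subset hx⟩
  · rintro ⟨e, he, hx⟩
    exact ⟨connectedComponentIn (f ⁻¹' e) x, ⟨e, he, isComp_cc hx⟩, mem_connectedComponentIn hx⟩

theorem LeX_data (h : Dyn f P) (hG : PG V E) (hP : Disjoint (⋃₀ E) P) {e c : Set X} (he : e ∈ E)
    (hc : IsComp c (f ⁻¹' e)) :
    f '' c = e ∧ InjOn f c ∧ (c ∩ f ⁻¹' V).Nonempty ∧ IsComp (c \ f ⁻¹' V) (f ⁻¹' (e \ V)) ∧ closure (c \ f ⁻¹' V) = c := by
  obtain ⟨p, hp, q, hq, hA, hV⟩ := hG.arc e he
  have heP : Disjoint e P := hP.mono_left (subset_sUnion_of_mem he)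
  obtain ⟨p', q', hp', hq', hA', hinj, him⟩ := h.arc_comp hA heP hc
  have hpq : c ∩ f ⁻¹' V = {p', q'} := by
    ext x
    constructor
    · rintro ⟨hx, hxV⟩
      have h1 : f x ∈ e ∩ V := ⟨him ▸ mem_image_of_mem f hx, hxV⟩
      rw [hV] at h1
      rcases h1 with h1 | h1
      · left
        exact hinj hx hA'.left_mem (h1.trans hp'.symm)
      · right
        exact hinj hx hA'.right_mem (h1.trans hq'.symm)
    · rintro (hx | hx)
      · have hx' : x = p' := hx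
        subst hx'
        refine ⟨hA'.left_mem, ?_⟩
        show f x ∈ V
        rw [hp']
        exact hp
      · have hx' : x = q' := hx
        subst hx'
        refine ⟨hA'.right_mem, ?_⟩
        show f x ∈ V
        rw [hq']
        exact hq
  have hd : c \ f ⁻¹' V = c \ {p', q'} := by
    rw [← hpq, diff_self_inter]
  obtain ⟨hconn, hdense⟩ := hA'.interior
  refine ⟨him, hinj, ?_, ?_, ?_⟩
  · rw [hpq]
    exact ⟨p', Or.inl rfl⟩
  · have hsub : c \ f ⁻¹' V ⊆ f ⁻¹' (e \ V) := by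
      rintro x ⟨hx, hxV⟩
      exact ⟨hc.subset hx, hxV⟩
    refine ⟨?_, ?_, ?_, ?_⟩
    · rw [hd]
      exact hconn.nonempty
    · rw [hd]
      exact hconn.isPreconnected
    · rw [compl_compl]
      exact hsub
    · intro C hC hCS hne
      rw [compl_compl] at hCS
      have h1 : C ⊆ c := by
        refine hc.sub_of hC (fun x hx => (hCS hx).1) ?_
        obtain ⟨x, hx1, hx2⟩ := hne
        exact ⟨x, hx1, hx2.1⟩
      intro x hx
      exact ⟨h1 hx, (hCS hx).2⟩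
  · apply Subset.antisymm
    · exact closure_minimal diff_subset hA'.isCompact.isClosed
    · rw [hd]
      exact hdense

theorem Dyn.edge_image (h : Dyn f P) (hG : PG V E) (hP : Disjoint (⋃₀ E) P) {c : Set X} (hc : c ∈ pullE f E) :
    f '' c ∈ E ∧ InjOn f c ∧ IsComp c (f ⁻¹' (f '' c)) := by
  obtain ⟨e, he, hce⟩ := hc
  obtain ⟨him, hinj, -, -, -⟩ := LeX_data h hG hP he hce
  rw [him]
  exact ⟨he, hinj, hce⟩

theorem Dyn.pullE_eq (h : Dyn f P) (hG : PG V E) (hP : Disjoint (⋃₀ E) P) : pullE f E = pullO f V E := by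
  ext c
  constructor
  · rintro ⟨e, he, hce⟩
    obtain ⟨-, -, -, hcomp, hcl⟩ := LeX_data h hG hP he hce
    exact ⟨e, he, c \ f ⁻¹' V, hcomp, hcl.symm⟩
  · rintro ⟨e, he, W, hW, rfl⟩
    have hWe : IsComp W (f ⁻¹' (e \ V)) := hW
    obtain ⟨c, hc, hWc⟩ := hWe.exists_super (S' := f ⁻¹' e) (preimage_mono diff_subset)
    obtain ⟨-, -, -, hcomp, hcl⟩ := LeX_data h hG hP he hc
    have h1 : W = c \ f ⁻¹' V := by
      apply hW.eq hcomp
      obtain ⟨x, hx⟩ := hW.ne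
      exact ⟨x, hx, hWc hx, (hW.subset hx).2⟩
    refine ⟨e, he, ?_⟩
    rw [h1, hcl]
    exact hc

theorem Dyn.pullE_val (h : Dyn f P) (hG : PG V E) (hP : Disjoint (⋃₀ E) P)
    (hv : ∀ v ∈ V, {e | e ∈ E ∧ v ∈ e}.ncard ≤ 3) : ∀ v ∈ f ⁻¹' V, {e | e ∈ pullE f E ∧ v ∈ e}.ncard ≤ 3 := by
  intro v hvV
  refine le_trans ?_ (hv (f v) hvV)
  refine Set.ncard_le_ncard_of_injOn (fun c => f '' c) ?_ ?_ (hG.finE.subset (fun e he => he.1))
  · rintro c ⟨hc, hvc⟩
    exact ⟨(h.edge_image hG hP hc).1, mem_image_of_mem f hvc⟩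
  · rintro c ⟨hc, hvc⟩ c' ⟨hc', hvc'⟩ hcc
    have hcc' : f '' c = f '' c' := hcc
    have h1 := (h.edge_image hG hP hc).2.2
    have h2 := (h.edge_image hG hP hc').2.2
    rw [← hcc'] at h2
    exact h1.eq h2 ⟨v, hvc, hvc'⟩

theorem Dyn.pullE_simple (h : Dyn f P) (hG : PG V E) (hP : Disjoint (⋃₀ E) P)
    (hs : ∀ e ∈ E, ∀ e' ∈ E, e ∩ V = e' ∩ V → e = e') :
    ∀ c ∈ pullE f E, ∀ c' ∈ pullE f E, c ∩ f ⁻¹' V = c' ∩ f ⁻¹' V → c = c' := by
  rintro c ⟨e, he, hc⟩ c' ⟨e', he', hc'⟩ hcc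
  obtain ⟨him, -, hne, -, -⟩ := LeX_data h hG hP he hc
  obtain ⟨him', -, -, -, -⟩ := LeX_data h hG hP he' hc'
  have h1 : e = e' := by
    apply hs e he e' he'
    rw [← him, ← him', ← image_inter_preimage, ← image_inter_preimage, hcc]
  subst h1
  obtain ⟨x, hx⟩ := hne
  have hx' : x ∈ c' ∩ f ⁻¹' V := hcc ▸ hx
  exact hc.eq hc' ⟨x, hx.1, hx'.1⟩

end Pool.ETM
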