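import Mathlib
import Pool.Agent.ETM.LeN
import Pool.Agent.ETM.LeX

set_option autoImplicit false

/-!
MODULE LeY (difficulty 2).  2.11 of the paper: pull back of good graphs.

RECIPE.  `face_frontier`: `⋃₀ E` is closed (finitely many compact arcs), a face `U` is a component of the open set `(⋃₀ E)ᶜ`, so it is open and its frontier is disjoint from `(⋃₀ E)ᶜ` (`IsComp.frontier_disj`; note `FaceX G U` and `IsComp U Gᶜ` are the same up to `Gᶜᶜ = G`).
`fc_pullE`: `⋃₀ pullE f E = f ⁻¹' ⋃₀ E` (`sUnion_pullE`), so the faces are the components of `f ⁻¹' (⋃₀ E)ᶜ`: `isComp_preimage_iff`.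
`good_pullE`: `pg`: `pullE_eq` and `pg_pullO` (`Disjoint (e \ V) P` since `e ⊆ ⋃₀ E`); `ne`: `f` is onto, so `f ⁻¹' e` is nonempty and has a component; `val`, `simple`: `pullE_val`, `pullE_simple`; `finF`: `fc_pullE`, `comp_finite` for each of the finitely many faces (faces are open and connected);
`disc`: `jdom_sub`: `closure U ∩ P = U ∩ P` since `frontier U ⊆ ⋃₀ E` is disjoint from `P`.
-/

open Set Metric Topology Filter
open Pool.JS

namespace Pool.ETM

variable {X : Type*} [TopologicalSpace X] [CompactSpace X] [T2Space X] [Sph X] {f : X → X} {P V U : Set X}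
  {E : Set (Set X)}

theorem ley_closed (hG : PG V E) : IsClosed (⋃₀ E) := by
  rw [sUnion_eq_biUnion]
  refine hG.finE.isClosed_biUnion fun e he => ?_
  obtain ⟨p, _, q, _, ⟨γ, h1, _, h2, _⟩, _⟩ := hG.arc e he
  rw [← h2]
  exact (isCompact_Icc.image_of_continuousOn h1).isClosed

theorem ley_comp : U ∈ Fc E ↔ IsComp U (⋃₀ E)ᶜ := by
  unfold Fc IsComp
  rw [compl_compl]
  rfl

theorem face_isOpen (hG : PG V E) (hU : U ∈ Fc E) : IsOpen U := by
  exact (ley_comp.1 hU).isOpen (ley_closed hG).isOpen_compl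

theorem face_frontier (hG : PG V E) (hU : U ∈ Fc E) : frontier U ⊆ ⋃₀ E := by
  have h1 := (ley_comp.1 hU).frontier_disj (ley_closed hG).isOpen_compl
  intro x hx
  by_contra hn
  exact Set.disjoint_left.1 h1 hx hn

theorem fc_pullE (hf : Continuous f) : Fc (pullE f E) = {W | ∃ U ∈ Fc E, IsComp W (f ⁻¹' U)} := by
  ext W
  rw [ley_comp, sUnion_pullE, ← preimage_compl, isComp_preimage_iff hf]
  constructor
  · rintro ⟨U, hU, hW⟩
    exact ⟨U, ley_comp.2 hU, hW⟩
  · rintro ⟨U, hU, hW⟩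
    exact ⟨U, ley_comp.1 hU, hW⟩

theorem Dyn.good_pullE (h : Dyn f P) (hG : Good V E) (hP : Disjoint (⋃₀ E) P)
    (h1 : ∀ U ∈ Fc E, (U ∩ P).Subsingleton) : Good (f ⁻¹' V) (pullE f E) := by
  refine ⟨?_, ?_, h.pullE_val hG.pg hP hG.val, h.pullE_simple hG.pg hP hG.simple, ?_, ?_⟩
  · rw [h.pullE_eq hG.pg hP]
    exact h.pg_pullO hG.pg fun e he => hP.mono_left (sdiff_subset.trans (subset_sUnion_of_mem he))
  · obtain ⟨e, he⟩ := hG.ne
    obtain ⟨p, _, q, _, ⟨γ, _, _, h2, h3, _⟩, _⟩ := hG.pg.arc e he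
    obtain ⟨x, hx⟩ := h.surj p
    have hpe : p ∈ e := by
      rw [← h2, ← h3]
      exact mem_image_of_mem γ ⟨le_rfl, zero_le_one⟩
    have hxe : x ∈ f ⁻¹' e := by
      show f x ∈ e
      rw [hx]
      exact hpe
    exact ⟨_, e, he, isComp_cc hxe⟩
  · rw [fc_pullE h.cont]
    have h2 : {W | ∃ U ∈ Fc E, IsComp W (f ⁻¹' U)} = ⋃ U ∈ Fc E, {W | IsComp W (f ⁻¹' U)} := by
      ext W
      simp
    rw [h2]
    exact hG.finF.biUnion fun U hU => h.comp_finite (face_isOpen hG.pg hU) (FaceX.conn hU)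
  · intro W hW
    rw [fc_pullE h.cont] at hW
    obtain ⟨U, hU, hW⟩ := hW
    refine h.jdom_sub (hG.disc U hU) ?_ hW
    have h3 : closure U ∩ P ⊆ U ∩ P := by
      rintro x ⟨hx, hxP⟩
      refine ⟨?_, hxP⟩
      by_contra hxU
      have h4 : x ∈ frontier U := by
        rw [(face_isOpen hG.pg hU).frontier_eq]
        exact ⟨hx, hxU⟩
      exact Set.disjoint_left.1 hP (face_frontier hG.pg hU h4) hxP
    exact (h1 U hU).anti h3

end Pool.ETM
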