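import Mathlib
import Pool.Agent.ETM.LeT
import Pool.Agent.ETM.LeU
import Pool.Agent.ETM.LeV
import Pool.Agent.ETM.LeY

set_option autoImplicit false

/-!
MODULE LeZ: output of block LE (`pull_good`, `per_finite` of If.lean), assembled by helper49.
-/

open Set Metric Topology Filter
open Pool.JS

namespace Pool.ETM

variable {X : Type*} [MetricSpace X] [CompactSpace X] [Sph X]

/-- 2.11 -/
theorem pull_good {f : X → X} {P : Set X} (h : Dyn f P) {V : Set X} {E : Set (Set X)} (hG : Good V E)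
    (ha : Disjoint (⋃₀ E) P) (h1 : ∀ U ∈ Fc E, (U ∩ P).Subsingleton) :
    Good (f ⁻¹' V) (pullE f E) ∧ ⋃₀ pullE f E = f ⁻¹' ⋃₀ E ∧
      ∀ U, U ∈ Fc (pullE f E) ↔ ∃ W ∈ Fc E, IsComp U (f ⁻¹' W) := by
  refine ⟨h.good_pullE hG ha h1, sUnion_pullE, fun U => ?_⟩
  rw [fc_pullE h.cont]
  exact Iff.rfl

/-- 2.10 -/
theorem per_finite {f : X → X} {P : Set X} (h : Dyn f P) {η : ℝ} (he : Expd f P η) (n : ℕ) (hn : 1 ≤ n) :
    {x | f^[n] x = x}.Finite :=
  h.finite_fix he hn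

end Pool.ETM
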