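/-
Project ETM (MP_c7bb65_an). Block N0 (section 3): exists_net.
-/
import Pool.Agent.N0.Fin
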