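/-
Project ETM (MP_c7bb65_an). Definitions for the block MK (markers, section 5 of the paper proof /team-store/c7bb65_proof.md).
-/
import Mathlib
import Pool.Agent.ETM.Ctx

set_option autoImplicit false

open Set Metric Topology Filter
open Pool.JS

namespace Pool.ETM

variable {X : Type*}

/-- the depth of the first annulus -/
def mkNa (m s : ℕ) : ℕ := 2 * m * s + m + 4

/-- the depth of the second annulus is `mkNb m s + 1/2` -/
def mkNb (m s : ℕ) : ℕ := mkNa m s + 3 * m + 2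

/-- the time bound -/
def mkN (m s : ℕ) : ℕ := 3 * (mkNb m s + 2 + 3 * m * s)

open Classical in
/-- the annulus function of depth `n` -/
noncomputable def ann (Z : Set X) (δ : X → ℝ) (n : ℝ) (x : X) : ℝ :=
  if x ∈ Z then -1 else max (-1) (1 / 2 - |δ x - n|)

/-- all the marker functions: `s` ordinary ones and two annuli -/
noncomputable def mkA (Z : Set X) (δ : X → ℝ) (m s : ℕ) (a : ℕ → X → ℝ) (i : ℕ) : X → ℝ :=
  if i < s then a i else if i = s then ann Z δ (mkNa m s) else ann Z δ (mkNb m s + 1 / 2)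

/-- the ordinary markers -/
structure MkPre [MetricSpace X] (f : X → X) (Z : Set X) (δ : X → ℝ) (m s : ℕ) (w : ℝ) (g a : ℕ → X → ℝ) : Prop where
  mpos : 1 ≤ m
  wpos : 0 < w
  wle : w ≤ 1 / 8
  cont : ∀ i, Continuous (a i)
  le_g : ∀ i x, a i x ≤ g i x
  le_neg : ∀ i, ∀ j < i, ∀ t ≤ 2 * m * (i - j) + m, ∀ x, a i x ≤ - a j (f^[t] x)
  eq_or : ∀ i x, a i x = g i x ∨ ∃ j < i, ∃ t ≤ 2 * m * (i - j) + m, a i x = - a j (f^[t] x)
  disj : ∀ i < s, ∀ t, 1 ≤ t → t < m → ∀ x, 0 < g i x → ¬ 0 < g i (f^[t] x)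
  shallow : ∀ i < s, ∀ x, 0 < g i x → x ∉ Z ∧ δ x < 2
  cov : ∀ x, x ∉ Z → δ x ≤ 1 → ∃ i < s, 3 / 4 ≤ g i x
  gp : ∀ i₁ < s, ∀ i₂ < s, ∀ i₃ < s, ∀ t₁ t₂ t₃ : ℕ, t₁ < t₂ → t₂ < t₃ → t₃ ≤ mkN m s → ∀ x,
    w ≤ |g i₁ (f^[t₁] x)| ∨ w ≤ |g i₂ (f^[t₂] x)| ∨ w ≤ |g i₃ (f^[t₃] x)|

/-- `(Y, h₁, h₂)` is a piece: a compact set with two injective maps and disjoint images -/
structure Piece [TopologicalSpace X] (Y : Set X) (h₁ h₂ : X → X) : Prop where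
  comp : IsCompact Y
  ne : Y ≠ univ
  c₁ : Continuous h₁
  c₂ : Continuous h₂
  i₁ : InjOn h₁ Y
  i₂ : InjOn h₂ Y
  d₀₁ : Disjoint Y (h₁ '' Y)
  d₀₂ : Disjoint Y (h₂ '' Y)
  d₁₂ : Disjoint (h₁ '' Y) (h₂ '' Y)

end Pool.ETM
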