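/-
Project ETM, block MK, module MkA (difficulty 2). The cover of the shallow region by small open sets.

PROOF. K1 := {x | x ∉ Z, δ x <= 1} is the complement of the open set Z ∪ {1 < δ} (hD.openT 1; note that on Z the value of δ is
irrelevant because Z is in the union), so it is compact. Let x ∈ K1. For 1 <= t < m we have f^[t] x ≠ x (otherwise x ∈ Z by hD.per), so
there are disjoint open sets A_t ∋ x, B_t ∋ f^[t] x; with O_t := A_t ∩ (f^[t])⁻¹ B_t (open as f^[t] is continuous) we have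
f^[t] '' O_t ∩ O_t = ∅. The set {y | y ∉ Z, δ y < 2} is open (hD.cont on the open set Zᶜ; Z is finite hence closed). U_x := the
intersection of the finitely many O_t and of this set, open, contains x. Choose an open W_x ∋ x with closure W_x ⊆ U_x (X is a metric
space, hence regular). By compactness finitely many W_x cover K1; call them W_0..W_(s-1) with corresponding U_0..U_(s-1) (enlarge the list
by one copy of U = ∅, W = ∅ so that 1 <= s; for i >= s put U i = ∅). Urysohn (exists_continuous_zero_one_of_isClosed, or the explicit formula with infDist):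
g i continuous, = 1 on closure W_i, = -1 outside U_i, values in [-1,1]; for U_i = ∅ take the constant -1.
-/
import Mathlib
import Pool.Agent.ETM.MkDefs

set_option autoImplicit false

open Set Metric Topology Filter
open Pool.JS

namespace Pool.ETM

variable {X : Type*} [MetricSpace X] [CompactSpace X] {f : X → X} {P Z : Set X} {δ : X → ℝ} {m : ℕ}

theorem mka_sep (hf : Continuous f) {t : ℕ} {x : X} (hx : f^[t] x ≠ x) :
    ∃ O : Set X, IsOpen O ∧ x ∈ O ∧ Disjoint (f^[t] '' O) O := by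
  obtain ⟨A, B, hA, hB, hxA, hxB, hAB⟩ := t2_separation hx
  refine ⟨(f^[t]) ⁻¹' A ∩ B, (hA.preimage (hf.iterate t)).inter hB, ⟨hxA, hxB⟩, ?_⟩
  rw [Set.disjoint_left]
  rintro y ⟨z, hz, rfl⟩ hy
  exact Set.disjoint_left.1 hAB hz.1 hy.2

theorem mka_ball (hf : Continuous f) (hD : Dep f P m Z δ) {x : X} (hxZ : x ∉ Z) (hx1 : δ x ≤ 1) :
    ∃ r : ℝ, 0 < r ∧ (∀ y ∈ ball x (2 * r), y ∉ Z ∧ δ y < 2) ∧
      ∀ t, 1 ≤ t → t < m → Disjoint (f^[t] '' ball x (2 * r)) (ball x (2 * r)) := by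
  have h1 : ∀ t : ℕ, ∃ O : Set X, IsOpen O ∧ x ∈ O ∧ (1 ≤ t → t < m → Disjoint (f^[t] '' O) O) := by
    intro t
    by_cases ht : 1 ≤ t ∧ t < m
    · obtain ⟨O, hO, hxO, hd⟩ := mka_sep hf (t := t) (x := x) fun he => hxZ (hD.per x t ht.1 ht.2 he)
      exact ⟨O, hO, hxO, fun _ _ => hd⟩
    · exact ⟨univ, isOpen_univ, mem_univ _, fun h2 h3 => absurd ⟨h2, h3⟩ ht⟩
  choose O hO hxO hdO using h1
  have hZ : IsOpen Zᶜ := hD.finZ.isClosed.isOpen_compl
  have h2 : IsOpen (Zᶜ ∩ δ ⁻¹' Iio 2) := hD.cont.isOpen_inter_preimage hZ isOpen_Iio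
  have h3 : IsOpen (⋂ t ∈ Finset.range m, O t) := isOpen_biInter_finset fun t _ => hO t
  have h4 : x ∈ (Zᶜ ∩ δ ⁻¹' Iio 2) ∩ ⋂ t ∈ Finset.range m, O t := by
    refine ⟨⟨hxZ, ?_⟩, ?_⟩
    · show δ x < 2
      linarith
    · exact mem_iInter₂.2 fun t _ => hxO t
  obtain ⟨ε, hε, hε2⟩ := Metric.isOpen_iff.1 (h2.inter h3) x h4
  have e1 : 2 * (ε / 2) = ε := by ring
  refine ⟨ε / 2, by linarith, ?_, ?_⟩
  · intro y hy
    rw [e1] at hy
    exact ⟨(hε2 hy).1.1, (hε2 hy).1.2⟩
  · intro t ht1 ht2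
    have hsub : ball x (2 * (ε / 2)) ⊆ O t := by
      intro y hy
      rw [e1] at hy
      exact mem_iInter₂.1 (hε2 hy).2 t (Finset.mem_range.2 ht2)
    exact (hdO t ht1 ht2).mono (image_mono hsub) hsub

theorem mk_cover (hf : Continuous f) (hD : Dep f P m Z δ) :
    ∃ (s : ℕ) (U : ℕ → Set X) (g : ℕ → X → ℝ), 1 ≤ s ∧ (∀ i, Continuous (g i)) ∧ (∀ i x, |g i x| ≤ 1) ∧
      (∀ i < s, ∀ x ∈ U i, x ∉ Z ∧ δ x < 2) ∧
      (∀ i < s, ∀ t, 1 ≤ t → t < m → Disjoint (f^[t] '' U i) (U i)) ∧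
      (∀ i < s, ∀ x, x ∉ U i → g i x = -1) ∧
      ∀ x, x ∉ Z → δ x ≤ 1 → ∃ i < s, g i x = 1 := by
  classical
  have hex : ∀ x : X, ∃ r : ℝ, 0 < r ∧ (x ∉ Z → δ x ≤ 1 → (∀ y ∈ ball x (2 * r), y ∉ Z ∧ δ y < 2) ∧
      ∀ t, 1 ≤ t → t < m → Disjoint (f^[t] '' ball x (2 * r)) (ball x (2 * r))) := by
    intro x
    by_cases hx : x ∉ Z ∧ δ x ≤ 1
    · obtain ⟨r, hr, h1⟩ := mka_ball hf hD hx.1 hx.2
      exact ⟨r, hr, fun _ _ => h1⟩
    · exact ⟨1, one_pos, fun h1 h2 => absurd ⟨h1, h2⟩ hx⟩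
  choose r hr hr2 using hex
  have hK : IsCompact (Z ∪ {x | 1 < δ x})ᶜ := (hD.openT 1).isClosed_compl.isCompact
  obtain ⟨T, hT1, hT2⟩ := hK.elim_nhds_subcover (fun x => ball x (r x)) fun x _ => ball_mem_nhds x (hr x)
  have hTm : ∀ x ∈ T, x ∉ Z ∧ δ x ≤ 1 := by
    intro x hx
    have h1 := hT1 x hx
    exact ⟨fun h2 => h1 (Or.inl h2), not_lt.1 fun h2 => h1 (Or.inr h2)⟩
  set l := T.toList with hl
  have hlm : ∀ (i : ℕ) (c : X), l[i]? = some c → c ∈ T := by
    intro i c hc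
    have h1 : c ∈ l := List.mem_iff_getElem?.2 ⟨i, hc⟩
    rw [hl, Finset.mem_toList] at h1
    exact h1
  refine ⟨l.length + 1, fun i => (l[i]?).elim ∅ (fun c => ball c (2 * r c)),
    fun i => (l[i]?).elim (fun _ => -1) (fun c y => max (-1) (min 1 (3 - 2 * dist y c / r c))),
    by omega, ?_, ?_, ?_, ?_, ?_, ?_⟩
  · intro i
    rcases hi : l[i]? with _ | c
    · simp only [hi, Option.elim]
      exact continuous_const
    · simp only [hi, Option.elim]
      fun_prop
  · intro i x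
    rcases hi : l[i]? with _ | c
    · simp only [hi, Option.elim]
      rw [abs_neg, abs_one]
    · simp only [hi, Option.elim]
      rw [abs_le]
      exact ⟨le_max_left _ _, max_le (by norm_num) (min_le_left _ _)⟩
  · intro i _ x hx
    rcases hi : l[i]? with _ | c
    · simp only [hi, Option.elim] at hx
      exact absurd hx (notMem_empty x)
    · simp only [hi, Option.elim] at hx
      have hc := hTm c (hlm i c hi)
      exact (hr2 c hc.1 hc.2).1 x hx
  · intro i _ t ht1 ht2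
    rcases hi : l[i]? with _ | c
    · simp only [hi, Option.elim]
      exact disjoint_empty _
    · simp only [hi, Option.elim]
      have hc := hTm c (hlm i c hi)
      exact (hr2 c hc.1 hc.2).2 t ht1 ht2
  · intro i _ x hx
    rcases hi : l[i]? with _ | c
    · simp only [hi, Option.elim]
    · simp only [hi, Option.elim] at hx ⊢
      rw [mem_ball, not_lt] at hx
      have h1 : 4 ≤ 2 * dist x c / r c := by
        rw [le_div_iff₀ (hr c)]
        linarith
      exact max_eq_left ((min_le_right _ _).trans (by linarith))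
  · intro x hxZ hx1
    have hxK : x ∈ (Z ∪ {x | 1 < δ x})ᶜ := by
      rintro (h1 | h1)
      · exact hxZ h1
      · exact absurd hx1 (not_le.2 h1)
    obtain ⟨c, hc, hxc⟩ := mem_iUnion₂.1 (hT2 hxK)
    have hcl : c ∈ l := by
      rw [hl, Finset.mem_toList]
      exact hc
    obtain ⟨i, hi⟩ := List.mem_iff_getElem?.1 hcl
    obtain ⟨hil, _⟩ := List.getElem?_eq_some_iff.1 hi
    refine ⟨i, by omega, ?_⟩
    simp only [hi, Option.elim]
    have h1 : 2 * dist x c / r c ≤ 2 := by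
      rw [div_le_iff₀ (hr c)]
      have h2 : dist x c < r c := hxc
      linarith
    rw [min_eq_left (by linarith)]
    exact max_eq_right (by norm_num)

end Pool.ETM
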