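/-
Project ETM, block MK, module MkB (difficulty 2). A continuous map from a compact subset of the plane to R^3 can be
perturbed off zero.

PROOF. (1) For every continuous u : K → ℝ and κ > 0 there is a smooth function p : ℂ → ℝ (ContDiff ℝ 1, or smooth) with |p z - u z| < κ on K:
Stone-Weierstrass (ContinuousMap.subalgebra_topologicalClosure_eq_top_of_separatesPoints) for the subalgebra of C(K, ℝ)
of restrictions of ContDiff functions; it contains re and im, so it separates points. (CompactSpace K.)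
(2) Apply (1) to the three coordinates of Φ: get a C^1 map p : ℂ → EuclideanSpace ℝ (Fin 3) with ‖p z - Φ z‖ < κ/2 on K. (3) finrank ℝ ℂ = 2 < 3, so
(range p)ᶜ is dense: ContDiff.dense_compl_range_of_finrank_lt_finrank. Choose c with ‖c‖ < κ/2 and -c ∉ range p, i.e. c' ∈ (range p)ᶜ close to 0 and c = -c'.
Ψ z := p z + c has no zero and ‖Ψ z - Φ z‖ < κ on K.
-/
import Mathlib
import Pool.Agent.ETM.MkDefs

set_option autoImplicit false

open Set Metric Topology Filter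
open Pool.JS

namespace Pool.ETM

/-- restrictions of `C^1` functions -/
def mkb_alg (K : Set ℂ) : Subalgebra ℝ C(K, ℝ) where
  carrier := {φ | ∃ p : ℂ → ℝ, ContDiff ℝ 1 p ∧ ∀ z : K, φ z = p z}
  mul_mem' := by
    rintro a b ⟨p, hp, hp'⟩ ⟨q, hq, hq'⟩
    exact ⟨fun z => p z * q z, hp.mul hq, fun z => by simp [hp', hq']⟩
  add_mem' := by
    rintro a b ⟨p, hp, hp'⟩ ⟨q, hq, hq'⟩
    exact ⟨fun z => p z + q z, hp.add hq, fun z => by simp [hp', hq']⟩
  algebraMap_mem' := by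
    intro r
    exact ⟨fun _ => r, contDiff_const, fun z => by simp⟩

theorem mkb_sep (K : Set ℂ) : (mkb_alg K).SeparatesPoints := by
  intro x y hxy
  by_cases h : (x : ℂ).re = (y : ℂ).re
  · have h' : (x : ℂ).im ≠ (y : ℂ).im := fun h' => hxy (Subtype.ext (Complex.ext h h'))
    refine ⟨fun z => (z : ℂ).im, ⟨⟨fun z => (z : ℂ).im, by fun_prop⟩, ?_, rfl⟩, h'⟩
    exact ⟨fun z => z.im, Complex.imCLM.contDiff, fun z => rfl⟩
  · refine ⟨fun z => (z : ℂ).re, ⟨⟨fun z => (z : ℂ).re, by fun_prop⟩, ?_, rfl⟩, h⟩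
    exact ⟨fun z => z.re, Complex.reCLM.contDiff, fun z => rfl⟩

theorem mkb_approx {K : Set ℂ} (hK : IsCompact K) {u : ℂ → ℝ} (hu : ContinuousOn u K) {κ : ℝ} (hκ : 0 < κ) :
    ∃ p : ℂ → ℝ, ContDiff ℝ 1 p ∧ ∀ z ∈ K, |p z - u z| < κ := by
  have : CompactSpace K := isCompact_iff_compactSpace.mp hK
  obtain ⟨⟨g, p, hp, hg⟩, h⟩ := ContinuousMap.exists_mem_subalgebra_near_continuous_of_separatesPoints
    (mkb_alg K) (mkb_sep K) (fun z : K => u z) (continuousOn_iff_continuous_domRestrict.mp hu) κ hκ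
  refine ⟨p, hp, fun z hz => ?_⟩
  have h1 := h ⟨z, hz⟩
  rw [Real.norm_eq_abs] at h1
  have h2 := hg ⟨z, hz⟩
  simp only at h1
  rw [h2] at h1
  exact h1

theorem mkb_norm3 (v : EuclideanSpace ℝ (Fin 3)) {r : ℝ} (h : ∀ i, |v i| < r) : ‖v‖ < 2 * r := by
  have hr : 0 < r := lt_of_le_of_lt (abs_nonneg _) (h 0)
  rw [EuclideanSpace.norm_eq, Real.sqrt_lt' (by positivity), Fin.sum_univ_three]
  have h3 : ∀ i, ‖v i‖ ^ 2 < r ^ 2 := fun i => by
    rw [Real.norm_eq_abs]
    exact pow_lt_pow_left₀ (h i) (abs_nonneg _) two_ne_zero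
  nlinarith [h3 0, h3 1, h3 2, sq_nonneg r]

theorem mk_off_zero {K : Set ℂ} (hK : IsCompact K) {Φ : ℂ → EuclideanSpace ℝ (Fin 3)} (hΦ : ContinuousOn Φ K) {κ : ℝ}
    (hκ : 0 < κ) : ∃ Ψ : ℂ → EuclideanSpace ℝ (Fin 3), ContinuousOn Ψ K ∧ (∀ z ∈ K, ‖Ψ z - Φ z‖ < κ) ∧ ∀ z ∈ K, Ψ z ≠ 0 := by
  have h1 : ∀ i : Fin 3, ∃ p : ℂ → ℝ, ContDiff ℝ 1 p ∧ ∀ z ∈ K, |p z - Φ z i| < κ / 4 := by
    intro i
    refine mkb_approx hK (u := fun z => Φ z i) ?_ (by positivity)
    have h2 : Continuous fun v : EuclideanSpace ℝ (Fin 3) => v i := by fun_prop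
    exact h2.comp_continuousOn hΦ
  choose p hp hpa using h1
  set P : ℂ → EuclideanSpace ℝ (Fin 3) := fun z => WithLp.toLp 2 (fun i => p i z) with hP
  have hPc : ContDiff ℝ 1 P := by
    rw [contDiff_euclidean]
    intro i
    exact hp i
  have hPa : ∀ z ∈ K, ‖P z - Φ z‖ < κ / 2 := by
    intro z hz
    have h3 := mkb_norm3 (P z - Φ z) (r := κ / 4) (fun i => by
      have := hpa i z hz
      simpa [hP] using this)
    linarith
  have hd : Dense (range P)ᶜ := hPc.dense_compl_range_of_finrank_lt_finrank (by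
    rw [Complex.finrank_real_complex, finrank_euclideanSpace_fin]
    norm_num)
  obtain ⟨c, hc, hc'⟩ := hd.exists_dist_lt 0 (half_pos hκ)
  refine ⟨fun z => P z - c, (hPc.continuous.sub continuous_const).continuousOn, ?_, ?_⟩
  · intro z hz
    have h4 : P z - c - Φ z = (P z - Φ z) - c := by abel
    rw [h4]
    have h5 := norm_sub_le (P z - Φ z) c
    rw [dist_comm, dist_zero_right] at hc'
    have h6 := hPa z hz
    linarith
  · intro z _ h0
    exact hc ⟨z, sub_eq_zero.mp h0⟩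

end Pool.ETM
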