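/-
Project ETM, block MK, module MkC (difficulty 3). Perturbation on one piece, openness of the condition.

PROOF of mk_piece. X is a topological sphere: Y ≠ univ, so take x₀ ∉ Y and a chart σ : ℂ → X of the complement of x₀ (Pool.JS.exists_chart; Chart.isCompact_preimage,
Chart.image_preimage). K := σ⁻¹ Y is compact. Φ z := (g₁ (σ z), g₂ (h₁ (σ z)), g₃ (h₂ (σ z))) (as element of EuclideanSpace ℝ (Fin 3)), continuous.
mk_off_zero with κ/2 gives Ψ. Define on the closed set C := Y ∪ h₁ '' Y ∪ h₂ '' Y (three pairwise disjoint compact sets) the function v := Ψ₀ ∘ σ⁻¹ - g₁ on Y,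
v := Ψ₁ ∘ σ⁻¹ ∘ (h₁|Y)⁻¹ - g₂ on h₁ '' Y, v := Ψ₂ ∘ σ⁻¹ ∘ (h₂|Y)⁻¹ - g₃ on h₂ '' Y (use Function.invFunOn; the inverse of a continuous injective map on a compact set is
continuous on the image: e.g. for a compact Y and h continuous and injective on Y, a function F on h '' Y is continuous iff F ∘ h is continuous on Y: closed map argument
(IsCompact, the restriction is a closed embedding / quotient map)). v is continuous on C (each of the three closed pieces) and |v| <= κ/2. Tietze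
(ContinuousMap.exists_restrict_eq_of_isClosed or BoundedContinuousFunction.exists_extension_norm_eq_of_isClosedEmbedding): u : X → ℝ continuous with u = v on C and |u| <= κ/2 < κ.
For y ∈ Y the three numbers g₁ y + u y, g₂ (h₁ y) + u (h₁ y), g₃ (h₂ y) + u (h₂ y) are the coordinates of Ψ (σ⁻¹ y) ≠ 0.
PROOF of mk_open. The set of the C(X, ℝ) functions u such that for no y ∈ Y the three numbers vanish is open: y ↦ max |..| is continuous and positive on the compact Y, so >= r > 0; every u' with ‖u' - u‖ < r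
has the property. (If Y is empty it is everything.)
PROOF of mk_dense. Immediate from mk_piece applied to g_j + u₀ (density in the sup norm).
-/
import Mathlib
import Pool.Agent.ETM.MkDefs
import Pool.Agent.ETM.MkB
import Pool.Agent.JS.SpA

set_option autoImplicit false

open Set Metric Topology Filter
open Pool.JS

namespace Pool.ETM

variable {X : Type*} [MetricSpace X] [CompactSpace X]

theorem mk_piece [Sph X] {Y : Set X} {h₁ h₂ : X → X} (hY : Piece Y h₁ h₂) {g₁ g₂ g₃ : X → ℝ} (c₁ : Continuous g₁)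
    (c₂ : Continuous g₂) (c₃ : Continuous g₃) {κ : ℝ} (hκ : 0 < κ) :
    ∃ u : X → ℝ, Continuous u ∧ (∀ x, |u x| < κ) ∧
      ∀ y ∈ Y, ¬ (g₁ y + u y = 0 ∧ g₂ (h₁ y) + u (h₁ y) = 0 ∧ g₃ (h₂ y) + u (h₂ y) = 0) := by
  obtain ⟨x₀, hx₀⟩ : ∃ x₀, x₀ ∉ Y := by
    by_contra hcon
    push Not at hcon
    exact hY.ne (Set.eq_univ_of_forall hcon)
  obtain ⟨σ, hσ⟩ := exists_chart x₀
  have hK : IsCompact (σ ⁻¹' Y) := hσ.isCompact_preimage hY.comp.isClosed hx₀
  set K : Set ℂ := σ ⁻¹' Y with hKdef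
  have hσc : Continuous σ := hσ.cont
  have hσi : Function.Injective σ := hσ.inj
  have hc1 : Continuous fun z : ℂ => g₁ (σ z) := c₁.comp hσc
  have hc2 : Continuous fun z : ℂ => g₂ (h₁ (σ z)) := c₂.comp (hY.c₁.comp hσc)
  have hc3 : Continuous fun z : ℂ => g₃ (h₂ (σ z)) := c₃.comp (hY.c₂.comp hσc)
  have hΦ : Continuous fun z : ℂ => (!₂[g₁ (σ z), g₂ (h₁ (σ z)), g₃ (h₂ (σ z))] : EuclideanSpace ℝ (Fin 3)) := by
    refine (PiLp.continuous_toLp 2 _).comp ?_
    refine continuous_pi fun i => ?_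
    fin_cases i
    · exact hc1
    · exact hc2
    · exact hc3
  obtain ⟨Ψ, hΨc, hΨd, hΨ0⟩ := mk_off_zero hK hΦ.continuousOn (half_pos hκ)
  have hcoord : ∀ z ∈ K, ∀ i : Fin 3,
      |Ψ z i - (!₂[g₁ (σ z), g₂ (h₁ (σ z)), g₃ (h₂ (σ z))] : EuclideanSpace ℝ (Fin 3)) i| ≤ κ / 2 := by
    intro z hz i
    have h1 := PiLp.norm_apply_le
      (Ψ z - (!₂[g₁ (σ z), g₂ (h₁ (σ z)), g₃ (h₂ (σ z))] : EuclideanSpace ℝ (Fin 3))) i
    rw [PiLp.sub_apply, Real.norm_eq_abs] at h1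
    exact h1.trans (hΨd z hz).le
  haveI : CompactSpace K := isCompact_iff_compactSpace.1 hK
  have hΨK : Continuous fun z : K => Ψ z.1 := continuousOn_iff_continuous_domRestrict.1 hΨc
  have hΨi : ∀ i : Fin 3, Continuous fun z : K => Ψ z.1 i := fun i =>
    (PiLp.continuous_apply 2 (fun _ : Fin 3 => ℝ) i).comp hΨK
  -- the embedding
  let e : K ⊕ K ⊕ K → X := Sum.elim (fun z => σ z.1) (Sum.elim (fun z => h₁ (σ z.1)) (fun z => h₂ (σ z.1)))
  have hec : Continuous e := by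
    refine Continuous.sumElim (hσc.comp continuous_subtype_val) (Continuous.sumElim ?_ ?_)
    · exact hY.c₁.comp (hσc.comp continuous_subtype_val)
    · exact hY.c₂.comp (hσc.comp continuous_subtype_val)
  have hei : Function.Injective e := by
    refine Function.Injective.sumElim ?_ (Function.Injective.sumElim ?_ ?_ ?_) ?_
    · intro z z' h
      exact Subtype.ext (hσi h)
    · intro z z' h
      exact Subtype.ext (hσi (hY.i₁ z.2 z'.2 h))
    · intro z z' h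
      exact Subtype.ext (hσi (hY.i₂ z.2 z'.2 h))
    · intro z z' h
      exact Set.disjoint_left.1 hY.d₁₂ ⟨_, z.2, rfl⟩ (h ▸ ⟨_, z'.2, rfl⟩)
    · rintro z (z' | z') h
      · exact Set.disjoint_left.1 hY.d₀₁ z.2 (h ▸ ⟨_, z'.2, rfl⟩)
      · exact Set.disjoint_left.1 hY.d₀₂ z.2 (h ▸ ⟨_, z'.2, rfl⟩)
  have hemb : IsClosedEmbedding e := hec.isClosedEmbedding hei
  let w : K ⊕ K ⊕ K → ℝ := Sum.elim (fun z => Ψ z.1 0 - g₁ (σ z.1))
    (Sum.elim (fun z => Ψ z.1 1 - g₂ (h₁ (σ z.1))) (fun z => Ψ z.1 2 - g₃ (h₂ (σ z.1))))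
  have hwc : Continuous w := by
    refine Continuous.sumElim ?_ (Continuous.sumElim ?_ ?_)
    · exact (hΨi 0).sub (hc1.comp continuous_subtype_val)
    · exact (hΨi 1).sub (hc2.comp continuous_subtype_val)
    · exact (hΨi 2).sub (hc3.comp continuous_subtype_val)
  have hwb : ∀ t, ‖w t‖ ≤ κ / 2 := by
    rintro (z | z | z)
    · exact hcoord z.1 z.2 0
    · exact hcoord z.1 z.2 1
    · exact hcoord z.1 z.2 2
  obtain ⟨g, hg1, hg2⟩ := BoundedContinuousFunction.exists_extension_norm_eq_of_isClosedEmbedding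
    (BoundedContinuousFunction.mkOfCompact (⟨w, hwc⟩ : C(K ⊕ K ⊕ K, ℝ))) hemb
  have hgn : ‖g‖ ≤ κ / 2 := by
    rw [hg1]
    exact (BoundedContinuousFunction.norm_le (by linarith)).2 hwb
  have hgw : ∀ t, g (e t) = w t := fun t => congrFun hg2 t
  refine ⟨g, g.continuous, fun x => ?_, ?_⟩
  · have h1 := g.norm_coe_le_norm x
    rw [Real.norm_eq_abs] at h1
    linarith
  · rintro y hy ⟨a1, a2, a3⟩
    obtain ⟨z, rfl⟩ := hσ.exists_eq (fun h => hx₀ (h ▸ hy) : y ≠ x₀)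
    have b1 : g (σ z) = Ψ z 0 - g₁ (σ z) := hgw (Sum.inl ⟨z, hy⟩)
    have b2 : g (h₁ (σ z)) = Ψ z 1 - g₂ (h₁ (σ z)) := hgw (Sum.inr (Sum.inl ⟨z, hy⟩))
    have b3 : g (h₂ (σ z)) = Ψ z 2 - g₃ (h₂ (σ z)) := hgw (Sum.inr (Sum.inr ⟨z, hy⟩))
    refine hΨ0 z hy ?_
    ext i
    fin_cases i
    · show Ψ z 0 = 0
      linarith
    · show Ψ z 1 = 0
      linarith
    · show Ψ z 2 = 0
      linarith

theorem mk_open {Y : Set X} (hY : IsCompact Y) {h₁ h₂ : X → X} (k₁ : Continuous h₁) (k₂ : Continuous h₂) {g₁ g₂ g₃ : X → ℝ}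
    (c₁ : Continuous g₁) (c₂ : Continuous g₂) (c₃ : Continuous g₃) :
    IsOpen {u : C(X, ℝ) | ∀ y ∈ Y, ¬ (g₁ y + u y = 0 ∧ g₂ (h₁ y) + u (h₁ y) = 0 ∧ g₃ (h₂ y) + u (h₂ y) = 0)} := by
  have e1 : Continuous fun z : C(X, ℝ) × X => g₁ z.2 + z.1 z.2 := by fun_prop
  have e2 : Continuous fun z : C(X, ℝ) × X => g₂ (h₁ z.2) + z.1 (h₁ z.2) := by fun_prop
  have e3 : Continuous fun z : C(X, ℝ) × X => g₃ (h₂ z.2) + z.1 (h₂ z.2) := by fun_prop
  have hcl : IsClosed {z : C(X, ℝ) × X | g₁ z.2 + z.1 z.2 = 0 ∧ g₂ (h₁ z.2) + z.1 (h₁ z.2) = 0 ∧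
      g₃ (h₂ z.2) + z.1 (h₂ z.2) = 0} :=
    (isClosed_eq e1 continuous_const).inter ((isClosed_eq e2 continuous_const).inter
      (isClosed_eq e3 continuous_const))
  rw [isOpen_iff_eventually]
  intro u hu
  refine hY.eventually_forall_of_forall_eventually fun y hy => ?_
  exact hcl.isOpen_compl.mem_nhds (hu y hy)

theorem mk_dense [Sph X] {Y : Set X} {h₁ h₂ : X → X} (hY : Piece Y h₁ h₂) {g₁ g₂ g₃ : X → ℝ} (c₁ : Continuous g₁)
    (c₂ : Continuous g₂) (c₃ : Continuous g₃) :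
    Dense {u : C(X, ℝ) | ∀ y ∈ Y, ¬ (g₁ y + u y = 0 ∧ g₂ (h₁ y) + u (h₁ y) = 0 ∧ g₃ (h₂ y) + u (h₂ y) = 0)} := by
  rw [Metric.dense_iff]
  intro u₀ r hr
  obtain ⟨u, huc, hu1, hu2⟩ := mk_piece hY (c₁.add u₀.continuous) (c₂.add u₀.continuous)
    (c₃.add u₀.continuous) hr
  refine ⟨u₀ + ⟨u, huc⟩, ?_, ?_⟩
  · rw [Metric.mem_ball, ContinuousMap.dist_lt_iff hr]
    intro x
    rw [Real.dist_eq, ContinuousMap.add_apply, add_sub_cancel_left]
    exact hu1 x
  · intro y hy h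
    refine hu2 y hy ?_
    simp only [ContinuousMap.add_apply, ContinuousMap.coe_mk, ← add_assoc] at h
    exact h

end Pool.ETM
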