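/-
Project ETM, block MK, module MkD (difficulty 2). Points where the two iterates are nice.

PROOF of mk_locinj. By induction on b: f^[b] y ∉ P implies f^[j] y ∉ P for j <= b (P is mapped into itself by hf.mapsP). hf.cov : IsCoveringMapOn f Pᶜ, so f is a local homeomorphism at every point of f⁻¹ Pᶜ
(IsCoveringMapOn.isLocalHomeomorphOn), in particular injective in a neighbourhood of f^[j] y for j < b. Composition of locally injective continuous maps.
PROOF of mk_piece_nhds. The three points y, f^[a] y, f^[b] y are pairwise distinct: y = f^[a] y or y = f^[b] y would give y ∈ Q; f^[a] y = f^[b] y says that f^[a] y is fixed by f^[b-a],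
1 <= b - a <= N, so f^[a] y ∈ Q. By mk_locinj f^[b] and f^[a] are injective on a neighbourhood of y (f^[a] too because f^[a] y ∉ P, or because f^[b] = f^[b-a] ∘ f^[a]). Take a small closed ball Y around y: compact, neighbourhood of y, the
three sets Y, f^[a] '' Y, f^[b] '' Y are in three disjoint neighbourhoods of the three points; Y ≠ univ since f^[a] y ∉ Y.
-/
import Mathlib
import Pool.Agent.ETM.MkDefs

set_option autoImplicit false

open Set Metric Topology Filter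
open Pool.JS

namespace Pool.ETM

variable {X : Type*} [MetricSpace X] [CompactSpace X] {f : X → X} {P : Set X}

theorem mk_locinj (hf : Dyn f P) (b : ℕ) (y : X) (hy : f^[b] y ∉ P) : ∃ U ∈ 𝓝 y, InjOn f^[b] U := by
  induction b generalizing y with
  | zero => exact ⟨univ, Filter.univ_mem, fun x _ x' _ h => h⟩
  | succ b ih =>
    rw [Function.iterate_succ_apply] at hy
    obtain ⟨U', hU', hinj⟩ := ih (f y) hy
    have hfy : f y ∉ P := fun h => hy (hf.mapsP.iterate b h)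
    obtain ⟨e, hye, hfe⟩ := hf.cov.isLocalHomeomorphOn y hfy
    have h1 : e.source ∈ 𝓝 y := e.open_source.mem_nhds hye
    have h2 : f ⁻¹' U' ∈ 𝓝 y := hf.cont.continuousAt.preimage_mem_nhds hU'
    refine ⟨e.source ∩ f ⁻¹' U', Filter.inter_mem h1 h2, ?_⟩
    intro x hx x' hx' hxx
    rw [Function.iterate_succ_apply, Function.iterate_succ_apply] at hxx
    have h3 : f x = f x' := hinj hx.2 hx'.2 hxx
    rw [hfe] at h3
    exact e.injOn hx.1 hx'.1 h3

theorem mk_piece_nhds (hf : Dyn f P) {N a b : ℕ} (ha : 0 < a) (hab : a < b) (hb : b ≤ N) {Q : Set X} (hPQ : P ⊆ Q)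
    (hQ : ∀ x, ∀ j, 1 ≤ j → j ≤ N → f^[j] x = x → x ∈ Q) {y : X} (h₀ : y ∉ Q) (h₁ : f^[a] y ∉ Q) (h₂ : f^[b] y ∉ Q) :
    ∃ Y ∈ 𝓝 y, Piece Y f^[a] f^[b] := by
  have hPa : f^[a] y ∉ P := fun h => h₁ (hPQ h)
  have hPb : f^[b] y ∉ P := fun h => h₂ (hPQ h)
  obtain ⟨U₁, hU₁, inj₁⟩ := mk_locinj hf a y hPa
  obtain ⟨U₂, hU₂, inj₂⟩ := mk_locinj hf b y hPb
  have hfa : Continuous f^[a] := hf.cont.iterate a
  have hfb : Continuous f^[b] := hf.cont.iterate b
  have n₁ : y ≠ f^[a] y := fun h => h₀ (hQ y a ha (by omega) h.symm)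
  have n₂ : y ≠ f^[b] y := fun h => h₀ (hQ y b (by omega) hb h.symm)
  have n₃ : f^[a] y ≠ f^[b] y := by
    intro h
    apply h₁
    apply hQ _ (b - a) (by omega) (by omega)
    rw [← Function.iterate_add_apply, Nat.sub_add_cancel hab.le]
    exact h.symm
  obtain ⟨A₁, B₁, oA₁, oB₁, yA₁, yB₁, d₁⟩ := t2_separation n₁
  obtain ⟨A₂, B₂, oA₂, oB₂, yA₂, yB₂, d₂⟩ := t2_separation n₂
  obtain ⟨A₃, B₃, oA₃, oB₃, yA₃, yB₃, d₃⟩ := t2_separation n₃
  have hS : (U₁ ∩ U₂) ∩ (A₁ ∩ A₂) ∩ (f^[a] ⁻¹' (B₁ ∩ A₃) ∩ f^[b] ⁻¹' (B₂ ∩ B₃)) ∈ 𝓝 y := by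
    refine Filter.inter_mem (Filter.inter_mem (Filter.inter_mem hU₁ hU₂)
      (Filter.inter_mem (oA₁.mem_nhds yA₁) (oA₂.mem_nhds yA₂))) (Filter.inter_mem ?_ ?_)
    · exact hfa.continuousAt.preimage_mem_nhds ((oB₁.inter oA₃).mem_nhds ⟨yB₁, yA₃⟩)
    · exact hfb.continuousAt.preimage_mem_nhds ((oB₂.inter oB₃).mem_nhds ⟨yB₂, yB₃⟩)
  obtain ⟨δ, hδ, hsub⟩ := Metric.nhds_basis_closedBall.mem_iff.mp hS
  refine ⟨closedBall y δ, closedBall_mem_nhds y hδ, ?_⟩
  refine ⟨isClosed_closedBall.isCompact, ?_, hfa, hfb, ?_, ?_, ?_, ?_, ?_⟩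
  · intro h
    have h3 : f^[a] y ∈ closedBall y δ := by
      rw [h]
      exact mem_univ _
    exact Set.disjoint_left.mp d₁ (hsub h3).1.2.1 yB₁
  · exact inj₁.mono (fun x hx => (hsub hx).1.1.1)
  · exact inj₂.mono (fun x hx => (hsub hx).1.1.2)
  · rw [Set.disjoint_left]
    rintro x hx ⟨x', hx', rfl⟩
    exact Set.disjoint_left.mp d₁ (hsub hx).1.2.1 (hsub hx').2.1.1
  · rw [Set.disjoint_left]
    rintro x hx ⟨x', hx', rfl⟩
    exact Set.disjoint_left.mp d₂ (hsub hx).1.2.2 (hsub hx').2.2.1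
  · rw [Set.disjoint_left]
    rintro x ⟨x', hx', rfl⟩ ⟨x'', hx'', he⟩
    have h4 : f^[b] x'' ∈ B₃ := (hsub hx'').2.2.2
    rw [he] at h4
    exact Set.disjoint_left.mp d₃ (hsub hx').2.1.2 h4

end Pool.ETM
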