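/-
Project ETM, block MK, module MkE (difficulty 4). GENERAL POSITION (5.2).

PROOF. Q := P ∪ {x | f^[j] x = x for some 1 <= j <= N}, finite (hf.finP, hper). Step 0. There is a constant c₀ with |c₀| < r/2 and g i q + c₀ ≠ 0 for all i < s, q ∈ Q (finitely many excluded
values). Let u₀ be the constant function c₀. Step 1. For y ∈ X, i₁,i₂,i₃ < s, 0 < a < b <= N let v(y) := max(|g i₁ y + c₀|, |g i₂ (f^[a] y) + c₀|, |g i₃ (f^[b] y) + c₀|). If v(y) = 0 then y, f^[a] y, f^[b] y ∉ Q, so by mk_piece_nhds y has a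
neighbourhood which is a Piece. The set {v = 0} is compact (for each of the finitely many data (i₁,i₂,i₃,a,b)), so it is covered by the interiors of finitely many pieces Y; outside of the union of these interiors v is
positive, by compactness >= w' > 0. Let w' be the minimum over the finitely many data (w' := 1 if nothing). Step 2. By mk_open and mk_dense (applied to the functions g i, i.e. for u the total perturbation) the set of the
u ∈ C(X, ℝ) with the property for all the finitely many (data, Y) is a finite intersection of open dense sets, hence dense (for instance dense_biInter_of_isOpen or Dense.inter_of_isOpen_left by induction). Choose such a u with ‖u - u₀‖ < min(r/2, w')/2... <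
min(r/2, w'). Then |u x| < r. For y in one of the pieces of the datum the three numbers g i₁ y + u y, .. do not all vanish; for y outside of all the pieces one of the |g .. + c₀| is >= w' and |u - c₀| < w', so it does not vanish.
-/
import Mathlib
import Pool.Agent.ETM.MkDefs
import Pool.Agent.ETM.MkC
import Pool.Agent.ETM.MkD

set_option autoImplicit false

open Set Metric Topology Filter
open Pool.JS

namespace Pool.ETM

variable {X : Type*} [MetricSpace X] [CompactSpace X] [Sph X] {f : X → X} {P : Set X}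

theorem mke_one (hf : Dyn f P) {N a b : ℕ} (ha : 0 < a) (hab : a < b) (hb : b ≤ N) {Q : Set X} (hPQ : P ⊆ Q)
    (hQ : ∀ x, ∀ j, 1 ≤ j → j ≤ N → f^[j] x = x → x ∈ Q) {g₁ g₂ g₃ : X → ℝ}
    (c₁ : Continuous g₁) (c₂ : Continuous g₂) (c₃ : Continuous g₃) {c₀ : ℝ}
    (q₁ : ∀ q ∈ Q, g₁ q + c₀ ≠ 0) (q₂ : ∀ q ∈ Q, g₂ q + c₀ ≠ 0) (q₃ : ∀ q ∈ Q, g₃ q + c₀ ≠ 0) :
    ∃ w : ℝ, 0 < w ∧ ∃ O : Set C(X, ℝ), IsOpen O ∧ Dense O ∧ ∀ u ∈ O, (∀ x, |u x - c₀| < w) → ∀ y,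
      ¬ (g₁ y + u y = 0 ∧ g₂ (f^[a] y) + u (f^[a] y) = 0 ∧ g₃ (f^[b] y) + u (f^[b] y) = 0) := by
  have hfa : Continuous f^[a] := hf.cont.iterate a
  have hfb : Continuous f^[b] := hf.cont.iterate b
  obtain ⟨v, hv⟩ : ∃ v : X → ℝ, v = fun y => |g₁ y + c₀| + |g₂ (f^[a] y) + c₀| + |g₃ (f^[b] y) + c₀| := ⟨_, rfl⟩
  have hvc : Continuous v := by
    rw [hv]
    exact (((c₁.add continuous_const).abs).add (((c₂.comp hfa).add continuous_const).abs)).add
      (((c₃.comp hfb).add continuous_const).abs)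
  have hv0 : ∀ y, 0 ≤ v y := by
    intro y
    rw [hv]
    positivity
  have hZc : IsCompact {y | v y = 0} := (isClosed_eq hvc continuous_const).isCompact
  have hpc : ∀ y ∈ {y | v y = 0}, ∃ Y ∈ 𝓝 y, Piece Y f^[a] f^[b] := by
    intro y hy
    have hy' : v y = 0 := hy
    rw [hv] at hy'
    have z1 := abs_nonneg (g₁ y + c₀)
    have z2 := abs_nonneg (g₂ (f^[a] y) + c₀)
    have z3 := abs_nonneg (g₃ (f^[b] y) + c₀)
    have hy'' : |g₁ y + c₀| + |g₂ (f^[a] y) + c₀| + |g₃ (f^[b] y) + c₀| = 0 := hy'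
    have w1 : g₁ y + c₀ = 0 := abs_eq_zero.mp (by linarith)
    have w2 : g₂ (f^[a] y) + c₀ = 0 := abs_eq_zero.mp (by linarith)
    have w3 : g₃ (f^[b] y) + c₀ = 0 := abs_eq_zero.mp (by linarith)
    exact mk_piece_nhds hf ha hab hb hPQ hQ (fun h => q₁ _ h w1) (fun h => q₂ _ h w2) (fun h => q₃ _ h w3)
  have hex : ∀ y, ∃ Y : Set X, y ∈ {y | v y = 0} → (Y ∈ 𝓝 y ∧ Piece Y f^[a] f^[b]) := by
    intro y
    by_cases h : y ∈ {y | v y = 0}
    · obtain ⟨Y, h1, h2⟩ := hpc y h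
      exact ⟨Y, fun _ => ⟨h1, h2⟩⟩
    · exact ⟨∅, fun h' => absurd h' h⟩
  choose Y hY using hex
  obtain ⟨t, htZ, hcov⟩ := hZc.elim_nhds_subcover (fun x => interior (Y x))
    (fun x hx => interior_mem_nhds.mpr (hY x hx).1)
  have hWo : IsOpen (⋃ x ∈ t, interior (Y x)) := isOpen_biUnion (fun _ _ => isOpen_interior)
  have hK : IsCompact (⋃ x ∈ t, interior (Y x))ᶜ := hWo.isClosed_compl.isCompact
  obtain ⟨w, hw, hwK⟩ := hK.exists_forall_le' (a := (0 : ℝ)) hvc.continuousOn (by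
    intro y hy
    rcases (hv0 y).lt_or_eq with h | h
    · exact h
    · exact absurd (hcov h.symm) hy)
  obtain ⟨O, hO⟩ : ∃ O : X → Set C(X, ℝ), O = fun x => {u : C(X, ℝ) | ∀ y ∈ Y x, ¬ (g₁ y + u y = 0 ∧
    g₂ (f^[a] y) + u (f^[a] y) = 0 ∧ g₃ (f^[b] y) + u (f^[b] y) = 0)} := ⟨_, rfl⟩
  have hOo : ∀ x ∈ (t : Set X), IsOpen (O x) := by
    intro x hx
    rw [hO]
    exact mk_open (hY x (htZ x hx)).2.comp hfa hfb c₁ c₂ c₃
  have hOd : ∀ x ∈ (t : Set X), Dense (O x) := by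
    intro x hx
    rw [hO]
    exact mk_dense (hY x (htZ x hx)).2 c₁ c₂ c₃
  refine ⟨w / 3, by linarith, ⋂ x ∈ (t : Set X), O x, t.finite_toSet.isOpen_biInter hOo,
    dense_biInter_of_isOpen hOo t.finite_toSet.countable hOd, ?_⟩
  intro u hu hux y hy
  by_cases hyW : y ∈ ⋃ x ∈ t, interior (Y x)
  · rw [mem_iUnion₂] at hyW
    obtain ⟨x, hx, hxy⟩ := hyW
    rw [mem_iInter₂] at hu
    have h1 : u ∈ O x := hu x hx
    rw [hO] at h1
    exact h1 y (interior_subset hxy) hy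
  · have h1 := hwK y hyW
    rw [hv] at h1
    have h1' : w ≤ |g₁ y + c₀| + |g₂ (f^[a] y) + c₀| + |g₃ (f^[b] y) + c₀| := h1
    have e1 : |g₁ y + c₀| = |u y - c₀| := by
      rw [← abs_neg (u y - c₀)]
      congr 1
      linarith [hy.1]
    have e2 : |g₂ (f^[a] y) + c₀| = |u (f^[a] y) - c₀| := by
      rw [← abs_neg (u (f^[a] y) - c₀)]
      congr 1
      linarith [hy.2.1]
    have e3 : |g₃ (f^[b] y) + c₀| = |u (f^[b] y) - c₀| := by
      rw [← abs_neg (u (f^[b] y) - c₀)]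
      congr 1
      linarith [hy.2.2]
    rw [e1, e2, e3] at h1'
    have := hux y
    have := hux (f^[a] y)
    have := hux (f^[b] y)
    linarith

theorem mke_fin {ι : Type} (F : Finset ι) (c₀ : ℝ) (R : ι → (X → ℝ) → Prop)
    (h : ∀ d ∈ F, ∃ w : ℝ, 0 < w ∧ ∃ O : Set C(X, ℝ), IsOpen O ∧ Dense O ∧ ∀ u ∈ O,
      (∀ x, |u x - c₀| < w) → R d u) {κ : ℝ} (hκ : 0 < κ) :
    ∃ u : C(X, ℝ), (∀ x, |u x - c₀| < κ) ∧ ∀ d ∈ F, R d u := by
  have hex : ∀ d, ∃ w : ℝ, ∃ O : Set C(X, ℝ), d ∈ F → (0 < w ∧ IsOpen O ∧ Dense O ∧ ∀ u ∈ O,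
      (∀ x, |u x - c₀| < w) → R d u) := by
    intro d
    by_cases hd : d ∈ F
    · obtain ⟨w, h1, O, h2, h3, h4⟩ := h d hd
      exact ⟨w, O, fun _ => ⟨h1, h2, h3, h4⟩⟩
    · exact ⟨0, ∅, fun h' => absurd h' hd⟩
  choose w O hwO using hex
  have hmin : ∀ G : Finset ι, G ⊆ F → ∃ κ' : ℝ, 0 < κ' ∧ κ' ≤ κ ∧ ∀ d ∈ G, κ' ≤ w d := by
    classical
    intro G
    induction G using Finset.induction_on with
    | empty => intro _; exact ⟨κ, hκ, le_rfl, fun d hd => absurd hd (Finset.notMem_empty d)⟩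
    | insert d G hd ih =>
      intro hG
      obtain ⟨κ', h1, h2, h3⟩ := ih ((Finset.subset_insert d G).trans hG)
      have hwd := (hwO d (hG (Finset.mem_insert_self d G))).1
      refine ⟨min κ' (w d), lt_min h1 hwd, (min_le_left _ _).trans h2, ?_⟩
      intro e he
      rcases Finset.mem_insert.mp he with rfl | he
      · exact min_le_right _ _
      · exact (min_le_left _ _).trans (h3 e he)
  obtain ⟨κ', hκ', hle, hmw⟩ := hmin F (Finset.Subset.refl F)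
  have hd : Dense (⋂ d ∈ (F : Set ι), O d) :=
    dense_biInter_of_isOpen (fun d hd => (hwO d hd).2.1) F.finite_toSet.countable (fun d hd => (hwO d hd).2.2.1)
  obtain ⟨u, hu, hdist⟩ := hd.exists_dist_lt (ContinuousMap.const X c₀) hκ'
  have hux : ∀ x, |u x - c₀| < κ' := by
    intro x
    have h1 := ContinuousMap.dist_apply_le_dist (f := ContinuousMap.const X c₀) (g := u) x
    rw [ContinuousMap.const_apply, Real.dist_eq, abs_sub_comm] at h1
    exact lt_of_le_of_lt h1 hdist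
  refine ⟨u, fun x => (hux x).trans_le hle, ?_⟩
  intro d hdF
  rw [mem_iInter₂] at hu
  exact (hwO d hdF).2.2.2 u (hu d hdF) (fun x => (hux x).trans_le (hmw d hdF))

theorem mk_general_position (hf : Dyn f P) (hper : ∀ n : ℕ, 1 ≤ n → {x | f^[n] x = x}.Finite) (s N : ℕ) {g : ℕ → X → ℝ}
    (hg : ∀ i, Continuous (g i)) {r : ℝ} (hr : 0 < r) :
    ∃ u : X → ℝ, Continuous u ∧ (∀ x, |u x| < r) ∧ ∀ i₁ < s, ∀ i₂ < s, ∀ i₃ < s, ∀ a b : ℕ, 0 < a → a < b → b ≤ N → ∀ y,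
      ¬ (g i₁ y + u y = 0 ∧ g i₂ (f^[a] y) + u (f^[a] y) = 0 ∧ g i₃ (f^[b] y) + u (f^[b] y) = 0) := by
  obtain ⟨Q, hQd⟩ : ∃ Q : Set X, Q = P ∪ ⋃ j ∈ Finset.Icc 1 N, {x | f^[j] x = x} := ⟨_, rfl⟩
  have hQfin : Q.Finite := by
    rw [hQd]
    apply hf.finP.union
    apply Set.Finite.biUnion (Finset.finite_toSet _)
    intro j hj
    exact hper j (Finset.mem_Icc.mp hj).1
  have hPQ : P ⊆ Q := by
    rw [hQd]
    exact subset_union_left
  have hQ : ∀ x, ∀ j, 1 ≤ j → j ≤ N → f^[j] x = x → x ∈ Q := by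
    intro x j h1 h2 h3
    rw [hQd]
    right
    rw [mem_iUnion₂]
    exact ⟨j, Finset.mem_Icc.mpr ⟨h1, h2⟩, h3⟩
  have hBfin : (⋃ i ∈ Finset.range s, (fun q => - g i q) '' Q).Finite := by
    apply Set.Finite.biUnion (Finset.finite_toSet _)
    intro i _
    exact hQfin.image _
  have hIoo : (Set.Ioo (-(r / 2)) (r / 2)).Infinite := Set.Ioo_infinite (by linarith)
  obtain ⟨c₀, hc₀, hc₀'⟩ := (hIoo.diff hBfin).nonempty
  have hcq : ∀ i < s, ∀ q ∈ Q, g i q + c₀ ≠ 0 := by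
    intro i hi q hq h0
    apply hc₀'
    rw [mem_iUnion₂]
    refine ⟨i, Finset.mem_range.mpr hi, q, hq, ?_⟩
    show - g i q = c₀
    linarith
  obtain ⟨F, hF⟩ : ∃ F : Finset (ℕ × ℕ × ℕ × ℕ × ℕ), F = ((Finset.range s) ×ˢ (Finset.range s) ×ˢ (Finset.range s) ×ˢ
      (Finset.range (N + 1)) ×ˢ (Finset.range (N + 1))).filter (fun d => 0 < d.2.2.2.1 ∧ d.2.2.2.1 < d.2.2.2.2) :=
    ⟨_, rfl⟩
  have hmem : ∀ i₁ i₂ i₃ a b, (i₁, i₂, i₃, a, b) ∈ F ↔
      (i₁ < s ∧ i₂ < s ∧ i₃ < s ∧ a ≤ N ∧ b ≤ N) ∧ 0 < a ∧ a < b := by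
    intro i₁ i₂ i₃ a b
    rw [hF, Finset.mem_filter]
    simp only [Finset.mem_product, Finset.mem_range, Nat.lt_succ_iff]
  obtain ⟨u, hu1, hu2⟩ := mke_fin (X := X) F c₀ (fun d u => ∀ y,
      ¬ (g d.1 y + u y = 0 ∧ g d.2.1 (f^[d.2.2.2.1] y) + u (f^[d.2.2.2.1] y) = 0 ∧
        g d.2.2.1 (f^[d.2.2.2.2] y) + u (f^[d.2.2.2.2] y) = 0)) (by
      rintro ⟨i₁, i₂, i₃, a, b⟩ hd
      rw [hmem] at hd
      obtain ⟨⟨h1, h2, h3, _, h5⟩, h6, h7⟩ := hd
      exact mke_one hf h6 h7 h5 hPQ hQ (hg i₁) (hg i₂) (hg i₃) (hcq i₁ h1) (hcq i₂ h2) (hcq i₃ h3))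
      (κ := r / 2) (by linarith)
  refine ⟨u, u.continuous, ?_, ?_⟩
  · intro x
    have h1 := hu1 x
    rw [abs_lt] at h1 ⊢
    have h2 : -(r / 2) < c₀ := hc₀.1
    have h3 : c₀ < r / 2 := hc₀.2
    constructor <;> linarith [h1.1, h1.2]
  · intro i₁ h1 i₂ h2 i₃ h3 a b ha hab hbN y
    have hd : (i₁, i₂, i₃, a, b) ∈ F := by
      rw [hmem]
      exact ⟨⟨h1, h2, h3, by omega, hbN⟩, ha, hab⟩
    exact hu2 _ hd y

end Pool.ETM
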