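/-
Project ETM, block MK, module MkF (difficulty 3). The functions a_i, and the existence of the ordinary markers.

PROOF of mk_exists_a. Strong recursion on i: a i x := the minimum of the finite set consisting of g i x and of the numbers - a j (f^[t] x), j < i, t <= 2m(i-j)+m (Finset.inf' over a nonempty finite index set, for
instance over Option (pairs), or List.foldr min). Continuity by strong induction (Continuous.finset_inf', f^[t] continuous). The three properties are the properties of the minimum.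
PROOF of mk_exists_pre. mk_cover gives s, U, g⁰. mk_general_position with N := mkN m s and r := 1/4 gives u; g i := g⁰ i + u. mk_exists_a gives a. For x ∉ U i (i < s): g i x < -3/4 < 0, so 0 < g i x implies x ∈ U i: shallow, disj
(x ∈ U i, f^[t] x ∈ U i contradict the disjointness). cov: g⁰ i x = 1 gives g i x > 3/4. gp: For t₁<t₂<t₃<= N put y := f^[t₁] x, a := t₂ - t₁, b := t₃ - t₁: by general position (Function.iterate_add_apply) the
continuous function max(|g i₁ (f^[t₁] x)|, |g i₂ (f^[t₂] x)|, |g i₃ (f^[t₃] x)|) has no zero, so by compactness of X it is >= w(i,t) > 0; w := the minimum over the finitely many (i₁,i₂,i₃,t₁,t₂,t₃) and 1/8. (X is nonempty or the statement is trivial.)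
-/
import Mathlib
import Pool.Agent.ETM.MkDefs
import Pool.Agent.ETM.MkA
import Pool.Agent.ETM.MkE

set_option autoImplicit false

open Set Metric Topology Filter
open Pool.JS

namespace Pool.ETM

variable {X : Type*} [MetricSpace X] [CompactSpace X] {f : X → X} {P Z : Set X} {δ : X → ℝ} {m : ℕ}

/-- the index set of the minimum -/
abbrev mkf_T (m i : ℕ) : Type := Option ((j : Fin i) × Fin (2 * m * (i - (j : ℕ)) + m + 1))

/-- the functions `a i`, by recursion -/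
noncomputable def mkf_a (f : X → X) (m : ℕ) (g : ℕ → X → ℝ) (i : ℕ) : X → ℝ := fun x =>
  (Finset.univ : Finset (mkf_T m i)).inf' ⟨none, Finset.mem_univ _⟩
    (fun o => match o with
      | none => g i x
      | some ⟨j, t⟩ => - mkf_a f m g (j : ℕ) (f^[(t : ℕ)] x))
termination_by i
decreasing_by exact j.2

omit [CompactSpace X] in
theorem mkf_cont (hf : Continuous f) (m : ℕ) {g : ℕ → X → ℝ} (hg : ∀ i, Continuous (g i)) (i : ℕ) :
    Continuous (mkf_a f m g i) := by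
  induction i using Nat.strong_induction_on with
  | _ i ih =>
    rw [funext (mkf_a.eq_1 f m g i)]
    apply Continuous.finset_inf'_apply
    rintro (_ | ⟨j, t⟩) _
    · exact hg i
    · exact ((ih (j : ℕ) j.2).comp (hf.iterate (t : ℕ))).neg

omit [CompactSpace X] in
theorem mkf_min {ι : Type*} [Finite ι] (v : ι → ℝ) (hv : ∀ i, 0 < v i) : ∃ w : ℝ, 0 < w ∧ w ≤ 1 / 8 ∧ ∀ i, w ≤ v i := by
  rcases isEmpty_or_nonempty ι with h | h
  · exact ⟨1 / 8, by norm_num, le_rfl, fun i => isEmptyElim i⟩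
  · obtain ⟨i, hi⟩ := Finite.exists_min v
    exact ⟨min (1 / 8) (v i), lt_min (by norm_num) (hv i), min_le_left _ _, fun j => (min_le_right _ _).trans (hi j)⟩

theorem mkf_compact {v : X → ℝ} (hc : Continuous v) (hv : ∀ x, 0 < v x) : ∃ w : ℝ, 0 < w ∧ ∀ x, w ≤ v x := by
  rcases isEmpty_or_nonempty X with h | h
  · exact ⟨1, one_pos, fun x => isEmptyElim x⟩
  · obtain ⟨x, -, hx⟩ := isCompact_univ.exists_isMinOn univ_nonempty hc.continuousOn
    exact ⟨v x, hv x, fun y => hx (mem_univ y)⟩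

omit [CompactSpace X] in
theorem mk_exists_a (hf : Continuous f) (m : ℕ) {g : ℕ → X → ℝ} (hg : ∀ i, Continuous (g i)) :
    ∃ a : ℕ → X → ℝ, (∀ i, Continuous (a i)) ∧ (∀ i x, a i x ≤ g i x) ∧
      (∀ i, ∀ j < i, ∀ t ≤ 2 * m * (i - j) + m, ∀ x, a i x ≤ - a j (f^[t] x)) ∧
      ∀ i x, a i x = g i x ∨ ∃ j < i, ∃ t ≤ 2 * m * (i - j) + m, a i x = - a j (f^[t] x) := by
  refine ⟨mkf_a f m g, mkf_cont hf m hg, ?_, ?_, ?_⟩
  · intro i x
    rw [mkf_a]
    exact Finset.inf'_le _ (Finset.mem_univ none)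
  · intro i j hj t ht x
    rw [mkf_a]
    exact Finset.inf'_le _ (Finset.mem_univ (some ⟨⟨j, hj⟩, ⟨t, by
      show t < 2 * m * (i - j) + m + 1
      omega⟩⟩ : mkf_T m i))
  · intro i x
    obtain ⟨o, -, ho⟩ := Finset.exists_mem_eq_inf'
      (⟨none, Finset.mem_univ _⟩ : (Finset.univ : Finset (mkf_T m i)).Nonempty)
      (fun o => match o with
      | none => g i x
      | some ⟨j, t⟩ => - mkf_a f m g (j : ℕ) (f^[(t : ℕ)] x))
    have he : mkf_a f m g i x = _ := (mkf_a.eq_1 f m g i x).trans ho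
    rcases o with _ | ⟨j, t⟩
    · exact Or.inl he
    · exact Or.inr ⟨j, j.2, t, by have := t.2; omega, he⟩

theorem mk_exists_pre [Sph X] (hf : Dyn f P) (hper : ∀ n : ℕ, 1 ≤ n → {x | f^[n] x = x}.Finite) (hm : 1 ≤ m)
    (hD : Dep f P m Z δ) : ∃ (s : ℕ) (w : ℝ) (g a : ℕ → X → ℝ), 1 ≤ s ∧ MkPre f Z δ m s w g a := by
  obtain ⟨s, U, g₀, hs, hgc, -, hU, hdisj, hout, hcov⟩ := mk_cover hf.cont hD
  obtain ⟨u, huc, hur, hgp⟩ := mk_general_position hf hper s (mkN m s) hgc (r := 1 / 4) (by norm_num)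
  have hur' : ∀ x, -(1 / 4) < u x ∧ u x < 1 / 4 := fun x => abs_lt.1 (hur x)
  obtain ⟨g, hg⟩ : ∃ g : ℕ → X → ℝ, g = fun i x => g₀ i x + u x := ⟨_, rfl⟩
  have hgc' : ∀ i, Continuous (g i) := fun i => by rw [hg]; exact (hgc i).add huc
  obtain ⟨a, ha, ha1, ha2, ha3⟩ := mk_exists_a hf.cont m hgc'
  have hpos : ∀ i < s, ∀ x, 0 < g i x → x ∈ U i := by
    intro i hi x hx
    by_contra hn
    have h1 := hout i hi x hn
    have h2 := (hur' x).2
    rw [hg] at hx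
    simp only at hx
    linarith
  -- the constant `w`
  have hw : ∃ w : ℝ, 0 < w ∧ w ≤ 1 / 8 ∧ ∀ i₁ < s, ∀ i₂ < s, ∀ i₃ < s, ∀ t₁ t₂ t₃ : ℕ, t₁ < t₂ → t₂ < t₃ →
      t₃ ≤ mkN m s → ∀ x, w ≤ |g i₁ (f^[t₁] x)| ∨ w ≤ |g i₂ (f^[t₂] x)| ∨ w ≤ |g i₃ (f^[t₃] x)| := by
    have key : ∀ d : (Fin s × Fin s × Fin s) × Fin (mkN m s + 1) × Fin (mkN m s + 1) × Fin (mkN m s + 1),
        ∃ w : ℝ, 0 < w ∧ ((d.2.1 : ℕ) < d.2.2.1 → (d.2.2.1 : ℕ) < d.2.2.2 → ∀ x,
          w ≤ max |g d.1.1 (f^[(d.2.1 : ℕ)] x)| (max |g d.1.2.1 (f^[(d.2.2.1 : ℕ)] x)|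
            |g d.1.2.2 (f^[(d.2.2.2 : ℕ)] x)|)) := by
      rintro ⟨⟨i₁, i₂, i₃⟩, t₁, t₂, t₃⟩
      by_cases h12 : (t₁ : ℕ) < t₂
      swap
      · exact ⟨1, one_pos, fun h => absurd h h12⟩
      by_cases h23 : (t₂ : ℕ) < t₃
      swap
      · exact ⟨1, one_pos, fun _ h => absurd h h23⟩
      obtain ⟨w, hw, hwx⟩ := mkf_compact (v := fun x => max |g i₁ (f^[(t₁ : ℕ)] x)| (max |g i₂ (f^[(t₂ : ℕ)] x)|
            |g i₃ (f^[(t₃ : ℕ)] x)|))
        ((((hgc' i₁).comp (hf.cont.iterate _)).abs).max ((((hgc' i₂).comp (hf.cont.iterate _)).abs).max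
          (((hgc' i₃).comp (hf.cont.iterate _)).abs))) (by
          intro x
          by_contra hn
          have hn' := not_lt.1 hn
          have z1 : |g i₁ (f^[(t₁ : ℕ)] x)| ≤ 0 := (le_max_left _ _).trans hn'
          have z2 : |g i₂ (f^[(t₂ : ℕ)] x)| ≤ 0 := ((le_max_left _ _).trans (le_max_right _ _)).trans hn'
          have z3 : |g i₃ (f^[(t₃ : ℕ)] x)| ≤ 0 := ((le_max_right _ _).trans (le_max_right _ _)).trans hn'
          have y1 := abs_nonpos_iff.1 z1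
          have y2 := abs_nonpos_iff.1 z2
          have y3 := abs_nonpos_iff.1 z3
          have e2 : f^[(t₂ : ℕ) - t₁] (f^[(t₁ : ℕ)] x) = f^[(t₂ : ℕ)] x := by
            rw [← Function.iterate_add_apply]
            congr 2
            omega
          have e3 : f^[(t₃ : ℕ) - t₁] (f^[(t₁ : ℕ)] x) = f^[(t₃ : ℕ)] x := by
            rw [← Function.iterate_add_apply]
            congr 2
            omega
          rw [hg] at y1 y2 y3
          have h3 := t₃.2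
          refine hgp i₁ i₁.2 i₂ i₂.2 i₃ i₃.2 ((t₂ : ℕ) - t₁) ((t₃ : ℕ) - t₁) (by omega) (by omega) (by omega)
            (f^[(t₁ : ℕ)] x) ⟨y1, ?_, ?_⟩
          · rw [e2]; exact y2
          · rw [e3]; exact y3)
      exact ⟨w, hw, fun _ _ => hwx⟩
    choose v hv hvx using key
    obtain ⟨w, hw0, hw8, hwv⟩ := mkf_min v hv
    refine ⟨w, hw0, hw8, ?_⟩
    intro i₁ hi₁ i₂ hi₂ i₃ hi₃ t₁ t₂ t₃ h12 h23 h3 x
    have h := (hwv ((⟨i₁, hi₁⟩, ⟨i₂, hi₂⟩, ⟨i₃, hi₃⟩), ⟨t₁, by omega⟩, ⟨t₂, by omega⟩, ⟨t₃, by omega⟩)).trans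
      (hvx ((⟨i₁, hi₁⟩, ⟨i₂, hi₂⟩, ⟨i₃, hi₃⟩), ⟨t₁, by omega⟩, ⟨t₂, by omega⟩, ⟨t₃, by omega⟩) h12 h23 x)
    rcases le_max_iff.1 h with h | h
    · exact Or.inl h
    · rcases le_max_iff.1 h with h | h
      · exact Or.inr (Or.inl h)
      · exact Or.inr (Or.inr h)
  obtain ⟨w, hw0, hw8, hw⟩ := hw
  refine ⟨s, w, g, a, hs, ⟨hm, hw0, hw8, ha, ha1, ha2, ha3, ?_, ?_, ?_, hw⟩⟩
  · intro i hi t ht1 htm x hx hx'
    exact disjoint_left.1 (hdisj i hi t ht1 htm) ⟨x, hpos i hi x hx, rfl⟩ (hpos i hi _ hx')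
  · intro i hi x hx
    exact hU i hi x (hpos i hi x hx)
  · intro x hx hx1
    obtain ⟨i, hi, hix⟩ := hcov x hx hx1
    refine ⟨i, hi, ?_⟩
    rw [hg]
    simp only
    linarith [(hur' x).1]

end Pool.ETM
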