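/-
Project ETM, block MK, module MkG (difficulty 3). Orbits near Z and property (M1).

PROOF of mk_iter_depth. Induction on t with hD.step: as long as δ (f^[t'] x) = δ x - t' >= 1 the next point is not in Z and the depth drops by one.
PROOF of mk_ann_cont. On the open set Zᶜ the function is max(-1, 1/2 - |δ - n|), continuous (hD.cont). At z ∈ Z: O := Z ∪ {n + 2 < δ} is open (hD.openT), contains z, and ann = -1 on O (n + 2 < δ x gives 1/2 - |δ x - n| < -1).
PROOF of mk_ann_pos. 0 < ann gives x ∉ Z and |δ x - n| < 1/2.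
PROOF of mk_m1 (5.4). Let A i := mkA Z δ m s a i, 0 < A i x, 0 < A j (f^[t] x), (1 <= t or i ≠ j), i, j <= s + 1. Goal 2 m i + m <= 2 m j + t.
 - j > i: 2 m j >= 2 m i + 2 m. Done.
 - j = i < s: then 0 < g i x and 0 < g i (f^[t] x) (le_g), t >= 1; disj gives t >= m. Done.
 - j < i < s: if t <= 2m(i-j)+m then le_neg: a i x <= - a j (f^[t] x) < 0, contradiction. So t > 2m(i-j)+m. Done.
 - i = s (depth of x in (na - 1/2, na + 1/2), na := mkNa m s), j < s: δ (f^[t] x) < 2, f^[t] x ∉ Z (shallow). If t < na - 2 then by mk_iter_depth δ (f^[t] x) = δ x - t > na - 1/2 - (na - 3) > 2 (t <= na - 3), contradiction. So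
   t >= na - 2 = 2 m s + m + 2 >= 2 m i + m.
 - i = s, j = s, t >= 1: if t < na - 2, δ (f^[t] x) = δ x - t; both in (na - 1/2, na + 1/2) forces t < 1. So t >= na - 2 >= m. Done.
 - i = s + 1 (δ x ∈ (nb, nb + 1)), j < s: as before t >= nb - 1 >= 2 m (s+1) + m (nb = mkNa + 3m + 2 = 2ms + 4m + 6).
 - i = s + 1, j = s: if t < nb - 2 then δ (f^[t] x) = δ x - t < na + 1/2 so t > nb - na - 1/2, t >= 3m + 2, and 2 m (s+1) + m <= 2 m s + t. Otherwise t >= nb - 2. Done.
 - i = j = s + 1, t >= 1: if t < nb - 2 then δ x - t and δ x are both in (nb, nb+1): t < 1, contradiction. So t >= nb - 2 >= m.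
PROOF of mk_depth. i < s: shallow and 2 <= nb + 1. Annuli: mk_ann_pos.
-/
import Mathlib
import Pool.Agent.ETM.MkDefs

set_option autoImplicit false

open Set Metric Topology Filter
open Pool.JS

namespace Pool.ETM

variable {X : Type*} [MetricSpace X] {f : X → X} {P Z : Set X} {δ : X → ℝ} {m s : ℕ} {w : ℝ} {g a : ℕ → X → ℝ}

theorem mk_iter_depth (hD : Dep f P m Z δ) {x : X} (hx : x ∉ Z) {t : ℕ} (ht : (t : ℝ) ≤ δ x) :
    f^[t] x ∉ Z ∧ δ (f^[t] x) = δ x - t := by
  induction t with
  | zero => simpa using hx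
  | succ t ih =>
    push_cast at ht
    obtain ⟨h1, h2⟩ := ih (by linarith)
    rw [Function.iterate_succ_apply']
    obtain ⟨h3, h4⟩ := hD.step _ h1 (by rw [h2]; linarith)
    refine ⟨h3, ?_⟩
    rw [h4, h2]
    push_cast
    ring

theorem mk_ann_cont (hD : Dep f P m Z δ) (n : ℝ) (hn : 2 ≤ n) : Continuous (ann Z δ n) := by
  rw [continuous_iff_continuousAt]
  intro x
  by_cases hx : x ∈ Z
  · have hO := hD.openT (n + 2)
    have hev : ann Z δ n =ᶠ[𝓝 x] fun _ => (-1 : ℝ) := by
      filter_upwards [hO.mem_nhds (Or.inl hx)] with y hy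
      unfold ann
      by_cases hyZ : y ∈ Z
      · rw [if_pos hyZ]
      · rw [if_neg hyZ]
        have hy2 : n + 2 < δ y := hy.resolve_left hyZ
        apply max_eq_left
        have := le_abs_self (δ y - n)
        linarith
    exact (continuousAt_const).congr hev.symm
  · have hZ : IsOpen Zᶜ := hD.finZ.isClosed.isOpen_compl
    have hmem : Zᶜ ∈ 𝓝 x := hZ.mem_nhds hx
    have hδ : ContinuousAt δ x := hD.cont.continuousAt hmem
    have hev : ann Z δ n =ᶠ[𝓝 x] fun y => max (-1) (1 / 2 - |δ y - n|) := by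
      filter_upwards [hmem] with y hy
      unfold ann
      rw [if_neg hy]
    refine ContinuousAt.congr ?_ hev.symm
    exact continuousAt_const.max (continuousAt_const.sub (hδ.sub continuousAt_const).abs)

theorem mk_ann_pos {n : ℝ} {x : X} (h : 0 < ann Z δ n x) : x ∉ Z ∧ |δ x - n| < 1 / 2 := by
  unfold ann at h
  by_cases hx : x ∈ Z
  · rw [if_pos hx] at h
    linarith
  · rw [if_neg hx] at h
    refine ⟨hx, ?_⟩
    rcases lt_max_iff.mp h with h | h
    · linarith
    · linarith

theorem mkg_lt {i : ℕ} (hi : i < s) : mkA Z δ m s a i = a i := by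
  unfold mkA
  rw [if_pos hi]

theorem mkg_eq : mkA Z δ m s a s = ann Z δ (mkNa m s) := by
  unfold mkA
  rw [if_neg (lt_irrefl s), if_pos rfl]

theorem mkg_succ : mkA Z δ m s a (s + 1) = ann Z δ (mkNb m s + 1 / 2) := by
  unfold mkA
  rw [if_neg (by omega), if_neg (by omega)]

theorem mk_m1 (hD : Dep f P m Z δ) (hp : MkPre f Z δ m s w g a) {i j : ℕ} (hi : i < s + 2) (hj : j < s + 2) {x : X} {t : ℕ}
    (h1 : 0 < mkA Z δ m s a i x) (h2 : 0 < mkA Z δ m s a j (f^[t] x)) (h : 1 ≤ t ∨ i ≠ j) :
    2 * m * i + m ≤ 2 * m * j + t := by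
  rcases lt_trichotomy i j with hij | hij | hij
  · have : m * (i + 1) ≤ m * j := Nat.mul_le_mul_left m hij
    nlinarith
  · subst hij
    have ht : 1 ≤ t := h.resolve_right (fun h => h rfl)
    have key : m ≤ t := by
      by_contra hlt
      push Not at hlt
      rcases lt_trichotomy i s with his | his | his
      · rw [mkg_lt his] at h1 h2
        exact hp.disj i his t ht hlt x (lt_of_lt_of_le h1 (hp.le_g i x)) (lt_of_lt_of_le h2 (hp.le_g i _))
      · subst his
        rw [mkg_eq] at h1 h2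
        obtain ⟨hx, hd⟩ := mk_ann_pos h1
        obtain ⟨-, hd2⟩ := mk_ann_pos h2
        rw [abs_lt] at hd hd2
        have hna : (mkNa m i : ℝ) = 2 * m * i + m + 4 := by unfold mkNa; push_cast; ring
        have htm : (t : ℝ) < m := by exact_mod_cast hlt
        have ht1 : (1 : ℝ) ≤ t := by exact_mod_cast ht
        have hms : (0 : ℝ) ≤ 2 * m * i := by positivity
        obtain ⟨-, he⟩ := mk_iter_depth hD hx (t := t) (by linarith [hd.1])
        rw [he] at hd2
        linarith [hd.2, hd2.1]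
      · have his' : i = s + 1 := by omega
        subst his'
        rw [mkg_succ] at h1 h2
        obtain ⟨hx, hd⟩ := mk_ann_pos h1
        obtain ⟨-, hd2⟩ := mk_ann_pos h2
        rw [abs_lt] at hd hd2
        have hna : (mkNb m s : ℝ) = 2 * m * s + m + 4 + 3 * m + 2 := by unfold mkNb mkNa; push_cast; ring
        have htm : (t : ℝ) < m := by exact_mod_cast hlt
        have ht1 : (1 : ℝ) ≤ t := by exact_mod_cast ht
        have hms : (0 : ℝ) ≤ 2 * m * s := by positivity
        have hm : (0 : ℝ) ≤ m := by positivity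
        obtain ⟨-, he⟩ := mk_iter_depth hD hx (t := t) (by linarith [hd.1])
        rw [he] at hd2
        linarith [hd.2, hd2.1]
    linarith
  · by_contra hlt
    push Not at hlt
    have hltR : (2 * m * j + t : ℝ) < 2 * m * i + m := by exact_mod_cast hlt
    have hj0 : (0 : ℝ) ≤ 2 * m * j := by positivity
    rcases lt_trichotomy i s with his | his | his
    · rw [mkg_lt his] at h1
      rw [mkg_lt (hij.trans his)] at h2
      have hle : t ≤ 2 * m * (i - j) + m := by
        have h3 : 2 * m * (i - j) + 2 * m * j = 2 * m * i := by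
          rw [← Nat.mul_add, Nat.sub_add_cancel hij.le]
        omega
      have := hp.le_neg i j hij t hle x
      linarith
    · subst his
      rw [mkg_eq] at h1
      obtain ⟨hx, hd⟩ := mk_ann_pos h1
      rw [abs_lt] at hd
      have hna : (mkNa m i : ℝ) = 2 * m * i + m + 4 := by unfold mkNa; push_cast; ring
      rw [mkg_lt hij] at h2
      obtain ⟨-, hd2⟩ := hp.shallow j hij _ (lt_of_lt_of_le h2 (hp.le_g j _))
      obtain ⟨-, he⟩ := mk_iter_depth hD hx (t := t) (by linarith [hd.1])
      rw [he] at hd2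
      linarith [hd.1]
    · have his' : i = s + 1 := by omega
      subst his'
      rw [mkg_succ] at h1
      obtain ⟨hx, hd⟩ := mk_ann_pos h1
      rw [abs_lt] at hd
      have hnb : (mkNb m s : ℝ) = 2 * m * s + m + 4 + 3 * m + 2 := by unfold mkNb mkNa; push_cast; ring
      have hm : (0 : ℝ) ≤ m := by positivity
      push_cast at hltR
      obtain ⟨-, he⟩ := mk_iter_depth hD hx (t := t) (by nlinarith [hd.1])
      rcases lt_or_eq_of_le (Nat.lt_succ_iff.mp hij) with hjs | hjs
      · rw [mkg_lt hjs] at h2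
        obtain ⟨-, hd2⟩ := hp.shallow j hjs _ (lt_of_lt_of_le h2 (hp.le_g j _))
        rw [he] at hd2
        nlinarith [hd.1]
      · subst hjs
        rw [mkg_eq] at h2
        obtain ⟨-, hd2⟩ := mk_ann_pos h2
        rw [abs_lt] at hd2
        have hna : (mkNa m j : ℝ) = 2 * m * j + m + 4 := by unfold mkNa; push_cast; ring
        rw [he] at hd2
        nlinarith [hd.1, hd2.2]

theorem mk_depth (hp : MkPre f Z δ m s w g a) {i : ℕ} (hi : i < s + 2) {x : X} (h : 0 < mkA Z δ m s a i x) :
    x ∉ Z ∧ δ x < mkNb m s + 1 := by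
  have hnb : (mkNb m s : ℝ) = 2 * m * s + m + 4 + 3 * m + 2 := by unfold mkNb mkNa; push_cast; ring
  have hm : (0 : ℝ) ≤ m := by positivity
  have hms : (0 : ℝ) ≤ 2 * m * s := by positivity
  rcases lt_trichotomy i s with his | his | his
  · rw [mkg_lt his] at h
    obtain ⟨hx, hd⟩ := hp.shallow i his x (lt_of_lt_of_le h (hp.le_g i x))
    exact ⟨hx, by linarith⟩
  · subst his
    rw [mkg_eq] at h
    obtain ⟨hx, hd⟩ := mk_ann_pos h
    rw [abs_lt] at hd
    have hna : (mkNa m i : ℝ) = 2 * m * i + m + 4 := by unfold mkNa; push_cast; ring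
    exact ⟨hx, by linarith [hd.2]⟩
  · have his' : i = s + 1 := by omega
    subst his'
    rw [mkg_succ] at h
    obtain ⟨hx, hd⟩ := mk_ann_pos h
    rw [abs_lt] at hd
    exact ⟨hx, by linarith [hd.2]⟩

end Pool.ETM
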