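/-
Project ETM, block MK, module MkH (difficulty 3). Property (M2) (5.5).

PROOF of mk_chain. Let y ∈ X and i < s with 3/4 <= g i y (or only w/2 <= g i y), and suppose a l (f^[t] y) < w/2 for all l < s and all t <= T where T >= 3 m s. Claim: there are j <= i and t <= 3 m i with |g j (f^[t] y)| < w.
 More generally prove by strong induction on i: if |a i y| < w/2 and a l (f^[t] y) < w/2 for l <= i, t <= 3 m i, then exists j <= i, t <= 3 m i with |g j (f^[t] y)| < w/2: by eq_or either a i y = g i y (take t = 0), or a i y = - a j (f^[t] y) with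
 j < i, t <= 2m(i-j)+m <= 3m(i-j); then |a j (f^[t] y)| < w/2; apply the induction hypothesis to j at f^[t] y: total time <= 3m(i-j) + 3mj = 3mi. For the start: w/2 <= g i y and a i y < w/2: so a i y ≠ g i y, a i y = - a j (f^[t] y) with
 a i y < w/2, so a j (f^[t] y) > -w/2, and < w/2 by hypothesis; continue with j.
PROOF of mk_m2b. D := δ x >= nb + 3/4 (nb = mkNb m s, na = mkNa m s, na + 5 <= nb). For t <= D: f^[t] x ∉ Z, δ (f^[t] x) = D - t (mk_iter_depth, in MkG; prove it inline or import). If there is an integer n with |D - n| <= 1/4: then n >= na + 1 and with t := n - na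
 |δ (f^[t] x) - na| <= 1/4, so ann = 1/2 - |..| >= 1/4 (colour s). Otherwise the integer n := ⌊D⌋ satisfies 1/4 < D - n < 3/4, so |D - n - 1/2| < 1/4, and n >= nb + 1 or (n = nb and then D < nb + 3/4, excluded); t := n - nb: |δ (f^[t] x) - (nb + 1/2)| < 1/4:
 colour s + 1. In both cases t <= D.
PROOF of mk_m2a. N := mkN m s = 3 (nb + 2 + 3ms). Suppose the conclusion fails for x: for all t <= N: a l (f^[t] x) < w/2 for l < s, f^[t] x ∉ Z, δ (f^[t] x) < nb + 1. (For the annuli we do not need anything.) Step: for every t₀ <= N - (nb + 1) - 3ms there is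
 t₁ with t₀ <= t₁ <= t₀ + nb + 1 + 3ms and j < s with |g j (f^[t₁] x)| < w: let D := δ (f^[t₀] x) < nb + 1; if D <= 1 take τ = t₀, otherwise τ = t₀ + (⌈D⌉ - 1) <= t₀ + nb, δ (f^[τ] x) = D - (τ - t₀) ∈ (0, 1]. By cov some i < s with 3/4 <= g i (f^[τ] x); mk_chain
 (all times <= τ + 3ms <= N). Apply the step three times with t₀ = 0, t₁ + 1, t₁' + 1: three different times <= 3(nb+1+3ms) + 2 <= N, contradiction to gp.
-/
import Mathlib
import Pool.Agent.ETM.MkDefs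
import Pool.Agent.ETM.MkG

set_option autoImplicit false

open Set Metric Topology Filter
open Pool.JS

namespace Pool.ETM

variable {X : Type*} [MetricSpace X] {f : X → X} {P Z : Set X} {δ : X → ℝ} {m s : ℕ} {w : ℝ} {g a : ℕ → X → ℝ}

theorem mkh_time {m i j : ℕ} (hj : j < i) : 2 * m * (i - j) + m + 3 * m * j ≤ 3 * m * i := by
  obtain ⟨k, rfl⟩ := Nat.exists_eq_add_of_lt hj
  have h1 : j + k + 1 - j = k + 1 := by omega
  rw [h1]
  have : 3 * m * (j + k + 1) = 2 * m * (k + 1) + m + 3 * m * j + m * k := by ring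
  rw [this]
  exact Nat.le_add_right _ _

theorem mkh_aux (hp : MkPre f Z δ m s w g a) : ∀ i : ℕ, ∀ y : X, |a i y| < w / 2 →
    ∃ j ≤ i, ∃ t ≤ 3 * m * i, |g j (f^[t] y)| < w / 2 := by
  intro i
  induction i using Nat.strong_induction_on with
  | _ i ih =>
    intro y hy
    rcases hp.eq_or i y with he | ⟨j, hj, t, ht, he⟩
    · exact ⟨i, le_rfl, 0, Nat.zero_le _, by rw [Function.iterate_zero, id_eq, ← he]; exact hy⟩
    · have h1 : |a j (f^[t] y)| < w / 2 := by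
        rw [he, abs_neg] at hy
        exact hy
      obtain ⟨j', hj', t', ht', h2⟩ := ih j hj (f^[t] y) h1
      refine ⟨j', hj'.trans hj.le, t' + t, ?_, ?_⟩
      · have := mkh_time (m := m) hj
        omega
      · rw [Function.iterate_add_apply]
        exact h2

theorem mk_chain (hp : MkPre f Z δ m s w g a) {i : ℕ} (hi : i < s) {y : X} (hy : w / 2 ≤ g i y)
    (h : ∀ l < s, ∀ t ≤ 3 * m * s, a l (f^[t] y) < w / 2) : ∃ j < s, ∃ t ≤ 3 * m * s, |g j (f^[t] y)| < w := by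
  have hw := hp.wpos
  have h0 : a i y < w / 2 := by
    have := h i hi 0 (Nat.zero_le _)
    simpa using this
  have hmi : 3 * m * i ≤ 3 * m * s := Nat.mul_le_mul_left _ hi.le
  rcases hp.eq_or i y with he | ⟨j, hj, t, ht, he⟩
  · linarith
  · have htime := mkh_time (m := m) hj
    have h1 : a j (f^[t] y) < w / 2 := h j (hj.trans hi) t (by omega)
    have h2 : |a j (f^[t] y)| < w / 2 := by
      rw [abs_lt]
      constructor <;> linarith
    obtain ⟨j', hj', t', ht', h3⟩ := mkh_aux hp j (f^[t] y) h2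
    refine ⟨j', by omega, t' + t, by omega, ?_⟩
    rw [Function.iterate_add_apply]
    linarith

theorem mkh_ann {n : ℝ} {y : X} (hy : y ∉ Z) (h : |δ y - n| ≤ 1 / 4) : 1 / 4 ≤ ann Z δ n y := by
  unfold ann
  rw [if_neg hy]
  refine le_trans ?_ (le_max_right _ _)
  linarith

theorem mk_m2b (hD : Dep f P m Z δ) {x : X} (hx : x ∉ Z) (h : (mkNb m s : ℝ) + 3 / 4 ≤ δ x) :
    ∃ t : ℕ, (t : ℝ) ≤ δ x ∧ (∃ i < s + 2, 1 / 4 ≤ mkA Z δ m s a i (f^[t] x)) ∧
      ∀ t' ≤ t, f^[t'] x ∉ Z ∧ δ (f^[t'] x) = δ x - t' := by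
  have hnb0 : (0 : ℝ) ≤ (mkNb m s : ℝ) := Nat.cast_nonneg _
  have hD0 : 0 ≤ δ x := by linarith
  have hit : ∀ t : ℕ, (t : ℝ) ≤ δ x → ∀ t' ≤ t, f^[t'] x ∉ Z ∧ δ (f^[t'] x) = δ x - t' := by
    intro t ht t' ht'
    have : (t' : ℝ) ≤ t := by exact_mod_cast ht'
    exact mk_iter_depth hD hx (this.trans ht)
  have hna : mkNa m s + 5 ≤ mkNb m s + 3 := by unfold mkNb; omega
  have hA1 : ∀ y, mkA Z δ m s a s y = ann Z δ (mkNa m s) y := by
    intro y
    unfold mkA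
    rw [if_neg (lt_irrefl _), if_pos rfl]
  have hA2 : ∀ y, mkA Z δ m s a (s + 1) y = ann Z δ (mkNb m s + 1 / 2) y := by
    intro y
    unfold mkA
    rw [if_neg (by omega), if_neg (by omega)]
  have hint : ∀ N : ℕ, |δ x - N| ≤ 1 / 4 → ∃ t : ℕ, (t : ℝ) ≤ δ x ∧
      (∃ i < s + 2, 1 / 4 ≤ mkA Z δ m s a i (f^[t] x)) ∧
      ∀ t' ≤ t, f^[t'] x ∉ Z ∧ δ (f^[t'] x) = δ x - t' := by
    intro N hN
    rw [abs_le] at hN
    have h4 : 4 ≤ mkNa m s := by unfold mkNa; omega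
    have hNb : (mkNb m s : ℝ) < N := by linarith [hN.2]
    have hNb' : mkNb m s < N := by exact_mod_cast hNb
    have hle : mkNa m s ≤ N := by omega
    have hc : ((N - mkNa m s : ℕ) : ℝ) = N - mkNa m s := by rw [Nat.cast_sub hle]
    have h4' : (4 : ℝ) ≤ mkNa m s := by exact_mod_cast h4
    have ht : ((N - mkNa m s : ℕ) : ℝ) ≤ δ x := by rw [hc]; linarith [hN.1]
    refine ⟨N - mkNa m s, ht, ⟨s, by omega, ?_⟩, hit _ ht⟩
    obtain ⟨h5, h6⟩ := mk_iter_depth hD hx ht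
    rw [hA1]
    apply mkh_ann h5
    rw [h6, hc, abs_le]
    constructor <;> linarith [hN.1, hN.2]
  have hf1 : ((⌊δ x⌋₊ : ℕ) : ℝ) ≤ δ x := Nat.floor_le hD0
  have hf2 : δ x < (⌊δ x⌋₊ : ℕ) + 1 := Nat.lt_floor_add_one _
  by_cases hr1 : δ x - (⌊δ x⌋₊ : ℕ) ≤ 1 / 4
  · apply hint ⌊δ x⌋₊
    rw [abs_le]
    constructor <;> linarith
  · by_cases hr2 : 3 / 4 ≤ δ x - (⌊δ x⌋₊ : ℕ)
    · apply hint (⌊δ x⌋₊ + 1)
      push_cast
      rw [abs_le]
      constructor <;> linarith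
    · have hle : mkNb m s ≤ ⌊δ x⌋₊ := Nat.le_floor (by linarith)
      have hc : ((⌊δ x⌋₊ - mkNb m s : ℕ) : ℝ) = (⌊δ x⌋₊ : ℕ) - mkNb m s := by rw [Nat.cast_sub hle]
      have ht : ((⌊δ x⌋₊ - mkNb m s : ℕ) : ℝ) ≤ δ x := by rw [hc]; linarith
      refine ⟨⌊δ x⌋₊ - mkNb m s, ht, ⟨s + 1, by omega, ?_⟩, hit _ ht⟩
      obtain ⟨h5, h6⟩ := mk_iter_depth hD hx ht
      rw [hA2]
      apply mkh_ann h5
      rw [h6, hc, abs_le]
      constructor <;> linarith

theorem mk_m2a (hD : Dep f P m Z δ) (hp : MkPre f Z δ m s w g a) (x : X) :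
    ∃ t ≤ mkN m s, (∃ i < s + 2, w / 2 ≤ mkA Z δ m s a i (f^[t] x)) ∨ f^[t] x ∈ Z ∨
      (mkNb m s : ℝ) + 1 ≤ δ (f^[t] x) := by
  by_contra hcon
  have hA : ∀ t ≤ mkN m s, ∀ l < s, a l (f^[t] x) < w / 2 := by
    intro t ht l hl
    by_contra hno
    apply hcon
    refine ⟨t, ht, Or.inl ⟨l, by omega, ?_⟩⟩
    unfold mkA
    rw [if_pos hl]
    exact not_lt.1 hno
  have hZ : ∀ t ≤ mkN m s, f^[t] x ∉ Z := fun t ht hz => hcon ⟨t, ht, Or.inr (Or.inl hz)⟩
  have hd : ∀ t ≤ mkN m s, δ (f^[t] x) < (mkNb m s : ℝ) + 1 := by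
    intro t ht
    by_contra hno
    exact hcon ⟨t, ht, Or.inr (Or.inr (not_lt.1 hno))⟩
  have step : ∀ t₀, t₀ + (mkNb m s + 1) + 3 * m * s ≤ mkN m s →
      ∃ t₁, t₀ ≤ t₁ ∧ t₁ ≤ t₀ + (mkNb m s + 1) + 3 * m * s ∧ ∃ j < s, |g j (f^[t₁] x)| < w := by
    intro t₀ ht₀
    have hle₀ : t₀ ≤ mkN m s := by omega
    have hD0 : 0 ≤ δ (f^[t₀] x) := hD.nonneg _
    have hD1 := hd t₀ hle₀
    have hceil : ⌈δ (f^[t₀] x)⌉₊ ≤ mkNb m s + 1 := by
      apply Nat.ceil_le.2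
      push_cast
      exact hD1.le
    have hc1 : δ (f^[t₀] x) ≤ (⌈δ (f^[t₀] x)⌉₊ : ℕ) := Nat.le_ceil _
    have hc2 : ((⌈δ (f^[t₀] x)⌉₊ : ℕ) : ℝ) < δ (f^[t₀] x) + 1 := Nat.ceil_lt_add_one hD0
    obtain ⟨k, hk, hk1, hk2⟩ : ∃ k : ℕ, k ≤ mkNb m s + 1 ∧ (k : ℝ) ≤ δ (f^[t₀] x) ∧ δ (f^[t₀] x) - k ≤ 1 := by
      by_cases hz : ⌈δ (f^[t₀] x)⌉₊ = 0
      · refine ⟨0, Nat.zero_le _, by simpa using hD0, ?_⟩
        rw [hz] at hc1
        push_cast at hc1 ⊢
        linarith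
      · obtain ⟨k, hk⟩ := Nat.exists_eq_succ_of_ne_zero hz
        refine ⟨k, by omega, ?_, ?_⟩
        · rw [hk] at hc2
          push_cast at hc2
          linarith
        · rw [hk] at hc1
          push_cast at hc1
          linarith
    obtain ⟨h5, h6⟩ := mk_iter_depth hD (hZ t₀ hle₀) hk1
    obtain ⟨i, hi, hgi⟩ := hp.cov _ h5 (by rw [h6]; exact hk2)
    have hwle := hp.wle
    obtain ⟨j, hj, t, ht, hgj⟩ := mk_chain hp hi (y := f^[k] (f^[t₀] x)) (by linarith) (by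
      intro l hl t ht
      have := hA (t + (k + t₀)) (by omega) l hl
      rw [Function.iterate_add_apply, Function.iterate_add_apply] at this
      exact this)
    refine ⟨t + (k + t₀), by omega, by omega, j, hj, ?_⟩
    rw [Function.iterate_add_apply, Function.iterate_add_apply]
    exact hgj
  have hN : mkN m s = 3 * (mkNb m s + 2 + 3 * m * s) := rfl
  obtain ⟨t₁, -, h1, j₁, hj₁, hg₁⟩ := step 0 (by omega)
  obtain ⟨t₂, h2', h2, j₂, hj₂, hg₂⟩ := step (t₁ + 1) (by omega)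
  obtain ⟨t₃, h3', h3, j₃, hj₃, hg₃⟩ := step (t₂ + 1) (by omega)
  rcases hp.gp j₁ hj₁ j₂ hj₂ j₃ hj₃ t₁ t₂ t₃ (by omega) (by omega) (by omega) x with hh | hh | hh
  · linarith
  · linarith
  · linarith

end Pool.ETM
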