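/-
Project ETM, block MK, module MkI (difficulty 3). Pseudo orbits (5.6).

GENERAL LEMMA mk_pseudo. X compact metric, f continuous. For every n and r > 0 there is e > 0 such that for every sequence x with d(f (x j), x (j+1)) < e for j < n one has d(x j, f^[j] (x 0)) < r for j <= n. (Induction on n, uniform continuity of f:
CompactSpace.uniformContinuous_of_continuous.)
PROOF of mk_ps. The functions A i := mkA Z δ m s a i (i < s + 2) are continuous (hp.cont, mk_ann_cont), hence uniformly continuous. Instead of δ use the continuous function φ n := ann-type cut-offs: for a real number t the sets Z ∪ {t < δ} are open and Z ∪ {t <= δ} are closed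
(complement of {x ∉ Z, δ x < t} which is open by hD.cont), so by compactness there is r > 0 such that: d(x,y) < r and y ∈ Z ∪ {nb + 1 <= δ} imply x ∈ Z ∪ {nb + 3/4 < δ} (Lebesgue number: the compact set Z ∪ {nb+1 <= δ} is contained in the open set Z ∪ {nb + 3/4 < δ}:
IsCompact.exists_thickening_subset_open). Let r also be such that d(x,y) < r implies |A i x - A i y| < w/6. Take e from mk_pseudo with n := max (mkN m s) (mkNb m s + 3).
ps1: the true orbit of x 0 satisfies mk_m2a: A i (f^[j] x0) >= w/2 gives A i (x j) > w/2 - w/6 = w/3; f^[j] x0 ∈ Z or nb + 1 <= δ gives x j ∈ Z or nb + 3/4 < δ (x j).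
ps2: mk_m2b for x 0: t <= δ (x 0) <= nb + 2, so t <= nb + 3, A i (f^[t] x0) >= 1/4, so A i (x t) > 1/4 - w/6 > w/3 (w <= 1/8).
-/
import Mathlib
import Pool.Agent.ETM.MkDefs
import Pool.Agent.ETM.MkG
import Pool.Agent.ETM.MkH

set_option autoImplicit false

open Set Metric Topology Filter
open Pool.JS

namespace Pool.ETM

variable {X : Type*} [MetricSpace X] [CompactSpace X] {f : X → X} {P Z : Set X} {δ : X → ℝ} {m s : ℕ} {w : ℝ} {g a : ℕ → X → ℝ}

theorem mk_pseudo (hf : Continuous f) (n : ℕ) {r : ℝ} (hr : 0 < r) :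
    ∃ e : ℝ, 0 < e ∧ ∀ x : ℕ → X, (∀ j < n, dist (f (x j)) (x (j + 1)) < e) → ∀ j ≤ n, dist (x j) (f^[j] (x 0)) < r := by
  induction n generalizing r with
  | zero =>
    refine ⟨1, one_pos, fun x _ j hj => ?_⟩
    have : j = 0 := by omega
    subst this
    simpa using hr
  | succ n ih =>
    have hu := CompactSpace.uniformContinuous_of_continuous hf
    obtain ⟨r', hr', hfr⟩ := Metric.uniformContinuous_iff.1 hu (r / 2) (by linarith)
    obtain ⟨e, he, hx⟩ := ih (r := min r r') (lt_min hr hr')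
    refine ⟨min e (r / 2), lt_min he (by linarith), fun x h j hj => ?_⟩
    have hx' := hx x (fun j hj => (h j (by omega)).trans_le (min_le_left _ _))
    rcases Nat.lt_or_ge j (n + 1) with hj' | hj'
    · exact (hx' j (by omega)).trans_le (min_le_left _ _)
    · have hjn : j = n + 1 := by omega
      subst hjn
      have h1 := (h n (by omega)).trans_le (min_le_right _ _)
      have h2 := hfr ((hx' n le_rfl).trans_le (min_le_right _ _))
      rw [Function.iterate_succ_apply']
      calc dist (x (n + 1)) (f (f^[n] (x 0))) ≤ dist (x (n + 1)) (f (x n)) + dist (f (x n)) (f (f^[n] (x 0))) :=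
            dist_triangle _ _ _
        _ < r / 2 + r / 2 := by
            rw [dist_comm (x (n + 1))]
            exact add_lt_add h1 h2
        _ = r := by ring

omit [CompactSpace X] in
theorem mki_cont (hD : Dep f P m Z δ) (hp : MkPre f Z δ m s w g a) (i : ℕ) : Continuous (mkA Z δ m s a i) := by
  unfold mkA
  split_ifs with h1 h2
  · exact hp.cont i
  · apply mk_ann_cont hD
    have : (2 : ℕ) ≤ mkNa m s := by unfold mkNa; omega
    exact_mod_cast this
  · apply mk_ann_cont hD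
    have : (2 : ℕ) ≤ mkNb m s := by unfold mkNb; omega
    have h : (2 : ℝ) ≤ mkNb m s := by exact_mod_cast this
    linarith

theorem mki_unif (hD : Dep f P m Z δ) (hp : MkPre f Z δ m s w g a) {b : ℝ} (hb : 0 < b) (n : ℕ) :
    ∃ r : ℝ, 0 < r ∧ ∀ i < n, ∀ x y, dist x y < r → |mkA Z δ m s a i x - mkA Z δ m s a i y| < b := by
  induction n with
  | zero => exact ⟨1, one_pos, fun i hi => absurd hi (Nat.not_lt_zero i)⟩
  | succ n ih =>
    obtain ⟨r, hr, h⟩ := ih
    have hu := CompactSpace.uniformContinuous_of_continuous (mki_cont hD hp n)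
    obtain ⟨r', hr', hfr⟩ := Metric.uniformContinuous_iff.1 hu b hb
    refine ⟨min r r', lt_min hr hr', fun i hi x y hxy => ?_⟩
    rcases Nat.lt_or_ge i n with hi' | hi'
    · exact h i hi' x y (hxy.trans_le (min_le_left _ _))
    · have : i = n := by omega
      subst this
      have := hfr (hxy.trans_le (min_le_right _ _))
      rwa [Real.dist_eq] at this

omit [CompactSpace X] in
theorem mki_closed (hD : Dep f P m Z δ) (t : ℝ) : IsClosed (Z ∪ {x | t ≤ δ x}) := by
  rw [← isOpen_compl_iff]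
  have hZ : IsOpen Zᶜ := hD.finZ.isClosed.isOpen_compl
  have h := hD.cont.isOpen_inter_preimage hZ (isOpen_Iio (a := t))
  have e : (Z ∪ {x | t ≤ δ x})ᶜ = Zᶜ ∩ δ ⁻¹' Iio t := by
    ext x
    simp only [mem_compl_iff, mem_union, mem_setOf_eq, not_or, not_le, mem_inter_iff, mem_preimage, mem_Iio]
  rw [e]
  exact h

theorem mk_ps (hf : Continuous f) (hD : Dep f P m Z δ) (hp : MkPre f Z δ m s w g a) :
    ∃ e : ℝ, 0 < e ∧
      (∀ x : ℕ → X, (∀ j < mkN m s, dist (f (x j)) (x (j + 1)) < e) →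
        ∃ j ≤ mkN m s, (∃ i < s + 2, w / 3 < mkA Z δ m s a i (x j)) ∨ x j ∈ Z ∨ (mkNb m s : ℝ) + 3 / 4 < δ (x j)) ∧
      ∀ x : ℕ → X, (∀ j < mkNb m s + 3, dist (f (x j)) (x (j + 1)) < e) → x 0 ∉ Z →
        (mkNb m s : ℝ) + 3 / 4 ≤ δ (x 0) → δ (x 0) ≤ (mkNb m s : ℝ) + 2 →
        ∃ j ≤ mkNb m s + 3, ∃ i < s + 2, w / 3 < mkA Z δ m s a i (x j) := by
  have hw := hp.wpos
  have hw8 := hp.wle
  obtain ⟨r₁, hr₁, h₁⟩ := mki_unif hD hp (b := w / 6) (by linarith) (s + 2)
  obtain ⟨r₂, hr₂, h₂⟩ := (mki_closed hD ((mkNb m s : ℝ) + 1)).isCompact.exists_thickening_subset_open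
    (hD.openT ((mkNb m s : ℝ) + 3 / 4)) (by
      rintro x (hx | hx)
      · exact Or.inl hx
      · have hx' : (mkNb m s : ℝ) + 1 ≤ δ x := hx
        exact Or.inr (show (mkNb m s : ℝ) + 3 / 4 < δ x by linarith))
  obtain ⟨e₁, he₁, hx₁⟩ := mk_pseudo hf (mkN m s) (r := min r₁ r₂) (lt_min hr₁ hr₂)
  obtain ⟨e₂, he₂, hx₂⟩ := mk_pseudo hf (mkNb m s + 3) (r := min r₁ r₂) (lt_min hr₁ hr₂)
  refine ⟨min e₁ e₂, lt_min he₁ he₂, ?_, ?_⟩
  · intro x hx
    have hd := hx₁ x (fun j hj => (hx j hj).trans_le (min_le_left _ _))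
    obtain ⟨t, ht, h⟩ := mk_m2a hD hp (x 0)
    refine ⟨t, ht, ?_⟩
    rcases h with ⟨i, hi, h⟩ | h
    · left
      refine ⟨i, hi, ?_⟩
      have h3 := abs_lt.1 (h₁ i hi _ _ ((hd t ht).trans_le (min_le_left _ _)))
      linarith [h3.1]
    · right
      have h3 : x t ∈ Metric.thickening r₂ (Z ∪ {x | (mkNb m s : ℝ) + 1 ≤ δ x}) :=
        Metric.mem_thickening_iff.2 ⟨f^[t] (x 0), h, (hd t ht).trans_le (min_le_right _ _)⟩
      exact h₂ h3
  · intro x hx h0 hl hu
    have hd := hx₂ x (fun j hj => (hx j hj).trans_le (min_le_right _ _))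
    obtain ⟨t, ht, ⟨i, hi, h⟩, -⟩ := mk_m2b (m := m) (s := s) (a := a) hD h0 hl
    have ht' : t ≤ mkNb m s + 3 := by
      have : (t : ℝ) ≤ ((mkNb m s + 3 : ℕ) : ℝ) := by push_cast; linarith
      exact_mod_cast this
    refine ⟨t, ht', i, hi, ?_⟩
    have h3 := abs_lt.1 (h₁ i hi _ _ ((hd t ht').trans_le (min_le_left _ _)))
    linarith [h3.1]

end Pool.ETM
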