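/-
Project ETM, block MK, module MkJ (difficulty 3). The choice of k0 and the assembly: MarkOk.

PROOF. Let s, w, g, a from mk_exists_pre, e from mk_ps; nc := s + 2, A := mkA Z δ m s a, nb := mkNb m s, NN := mkN m s, ε₁ := e.
Choice of r > 0 (all by uniform continuity on the compact space X): d(x,y) < r implies |A i x - A i y| < w/1000 for i < s + 2 and d(f x, f y) < e (use 2 r for the latter: d(x,y) < 2r implies d(f x, f y) < e), and:
 x ∉ Z, δ x <= nb + 4, d(x,y) < r imply y ∉ Z and |δ x - δ y| < 1/1000. For the last one: the compact set K := {x | x ∉ Z, δ x <= nb + 4} (closed: complement of the open Z ∪ {nb + 4 < δ}) is contained in the open set O := {x | x ∉ Z, δ x < nb + 5}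
 (hD.cont); choose r₁ with thickening r₁ K ⊆ {x | x ∉ Z, δ x <= nb+5}; δ is continuous on the compact set {x ∉ Z, δ x <= nb + 5}, hence uniformly continuous on it (IsCompact.uniformContinuousOn_of_continuous).
By he.contr applied to η := r there is K₁ such that for n >= K₁ every preconnected C with diam (f^[n] '' C) < η has diam C < r (so dist x y <= diam C < r for x,y ∈ C; X compact so C is bounded: Metric.dist_le_diam_of_mem).
K := max K₁ (nb + m + 10). Then for k0 >= K all fields hold: cont (mk_ann_cont, hp.cont; 2 <= mkNa, mkNb), m1 = mk_m1, depth = mk_depth, m2a, m2b, ps1, ps2 from mk_ps, osca, oscd; oscf: z ∈ C ∩ C', d(x,z) < r, d(z,y) < r, so d(x,y) < 2r.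
(The casts: (c.nb : ℝ) = mkNb m s.)
-/
import Mathlib
import Pool.Agent.ETM.MkDefs
import Pool.Agent.ETM.MkF
import Pool.Agent.ETM.MkG
import Pool.Agent.ETM.MkH
import Pool.Agent.ETM.MkI

set_option autoImplicit false

open Set Metric Topology Filter
open Pool.JS

namespace Pool.ETM

variable {X : Type*} [MetricSpace X] [CompactSpace X] [Sph X] {f : X → X} {P Z : Set X} {δ : X → ℝ} {m : ℕ} {η : ℝ}

omit [CompactSpace X] [Sph X] in
theorem mkj_cont (hD : Dep f P m Z δ) {s : ℕ} {w : ℝ} {g a : ℕ → X → ℝ} (hp : MkPre f Z δ m s w g a)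
    (i : ℕ) : Continuous (mkA Z δ m s a i) := by
  unfold mkA
  by_cases h1 : i < s
  · rw [if_pos h1]
    exact hp.cont i
  · rw [if_neg h1]
    by_cases h2 : i = s
    · rw [if_pos h2]
      apply mk_ann_cont hD
      unfold mkNa
      push_cast
      have h3 : (0 : ℝ) ≤ 2 * (m : ℝ) * s := by positivity
      have h4 : (0 : ℝ) ≤ (m : ℝ) := by positivity
      linarith
    · rw [if_neg h2]
      apply mk_ann_cont hD
      unfold mkNb mkNa
      push_cast
      have h3 : (0 : ℝ) ≤ 2 * (m : ℝ) * s := by positivity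
      have h4 : (0 : ℝ) ≤ (m : ℝ) := by positivity
      linarith

open Classical in
/-- the truncated depth function -/
noncomputable def mkj_phi (Z : Set X) (δ : X → ℝ) (n : ℝ) (x : X) : ℝ := if x ∈ Z then n else min (δ x) n

omit [CompactSpace X] [Sph X] in
theorem mkj_phi_cont (hD : Dep f P m Z δ) (n : ℝ) : Continuous (mkj_phi Z δ n) := by
  rw [continuous_iff_continuousAt]
  intro x
  by_cases hx : x ∈ Z
  · have hO : Z ∪ {x | n < δ x} ∈ 𝓝 x := (hD.openT n).mem_nhds (Or.inl hx)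
    have he : mkj_phi Z δ n =ᶠ[𝓝 x] fun _ => n := by
      filter_upwards [hO] with y hy
      unfold mkj_phi
      rcases hy with hy | hy
      · rw [if_pos hy]
      · by_cases hyZ : y ∈ Z
        · rw [if_pos hyZ]
        · rw [if_neg hyZ]
          exact min_eq_right (le_of_lt hy)
    exact continuousAt_const.congr he.symm
  · have hO : Zᶜ ∈ 𝓝 x := hD.finZ.isClosed.isOpen_compl.mem_nhds hx
    have he : mkj_phi Z δ n =ᶠ[𝓝 x] fun y => min (δ y) n := by
      filter_upwards [hO] with y hy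
      unfold mkj_phi
      rw [if_neg hy]
    have hc : ContinuousAt δ x := hD.cont.continuousAt hO
    have h5 : ContinuousAt (fun y => min (δ y) n) x := hc.min continuousAt_const
    exact h5.congr he.symm

omit [Sph X] in
theorem mkj_depth (hD : Dep f P m Z δ) (n : ℝ) : ∃ r : ℝ, 0 < r ∧ ∀ x y, dist x y < r → x ∉ Z →
    δ x ≤ n → y ∉ Z ∧ |δ x - δ y| < 1 / 1000 := by
  have hu := CompactSpace.uniformContinuous_of_continuous (mkj_phi_cont hD (n + 1))
  rw [Metric.uniformContinuous_iff] at hu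
  obtain ⟨r, hr, h⟩ := hu (1 / 1000) (by norm_num)
  refine ⟨r, hr, fun x y hxy hx hn => ?_⟩
  have h1 := h hxy
  have hφx : mkj_phi Z δ (n + 1) x = δ x := by
    unfold mkj_phi
    rw [if_neg hx]
    exact min_eq_left (by linarith)
  rw [Real.dist_eq, hφx] at h1
  have h2 := abs_lt.1 h1
  have hy : y ∉ Z := by
    intro hy
    have hφy : mkj_phi Z δ (n + 1) y = n + 1 := by
      unfold mkj_phi
      rw [if_pos hy]
    rw [hφy] at h2
    linarith [h2.1]
  refine ⟨hy, ?_⟩
  have hφy : mkj_phi Z δ (n + 1) y = min (δ y) (n + 1) := by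
    unfold mkj_phi
    rw [if_neg hy]
  rw [hφy] at h1 h2
  rcases le_total (δ y) (n + 1) with h3 | h3
  · rw [min_eq_left h3] at h1
    exact h1
  · rw [min_eq_right h3] at h2
    linarith [h2.1]

omit [Sph X] in
theorem mkj_unif {A : ℕ → X → ℝ} (hA : ∀ i, Continuous (A i)) (N : ℕ) {e : ℝ} (he : 0 < e) :
    ∃ r : ℝ, 0 < r ∧ ∀ x y, dist x y < r → ∀ i < N, |A i x - A i y| < e := by
  have hF : Continuous (fun x => fun i : Fin N => A i x) := continuous_pi fun i => hA i
  have hu := CompactSpace.uniformContinuous_of_continuous hF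
  rw [Metric.uniformContinuous_iff] at hu
  obtain ⟨r, hr, h⟩ := hu e he
  refine ⟨r, hr, fun x y hxy i hi => ?_⟩
  have h1 := h hxy
  have h2 := (dist_le_pi_dist (fun i : Fin N => A i x) (fun i : Fin N => A i y) ⟨i, hi⟩).trans_lt h1
  rw [Real.dist_eq] at h2
  exact h2

theorem exists_marks (hf : Dyn f P) (he : Expd f P η) (hper : ∀ n : ℕ, 1 ≤ n → {x | f^[n] x = x}.Finite) (hm : 1 ≤ m)
    (hD : Dep f P m Z δ) :
    ∃ (nc : ℕ) (a : ℕ → X → ℝ) (w : ℝ) (nb NN : ℕ) (e : ℝ) (K : ℕ), ∀ c : Ctx X, c.f = f → c.P = P → c.η = η → c.m = m →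
      c.Z = Z → c.δ = δ → c.nc = nc → c.a = a → c.w = w → c.nb = nb → c.NN = NN → c.ε₁ = e → K ≤ c.k0 → c.MarkOk := by
  obtain ⟨s, w, g, a, hs1, hp⟩ := mk_exists_pre hf hper hm hD
  obtain ⟨e, he0, hps1, hps2⟩ := mk_ps hf.cont hD hp
  obtain ⟨r1, hr1, H1⟩ := mkj_unif (mkj_cont hD hp) (s + 2) (e := w / 1000) (by
    have := hp.wpos
    positivity)
  have hfu := CompactSpace.uniformContinuous_of_continuous hf.cont
  rw [Metric.uniformContinuous_iff] at hfu
  obtain ⟨r2, hr2, H2⟩ := hfu e he0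
  obtain ⟨r3, hr3, H3⟩ := mkj_depth hD ((mkNb m s : ℝ) + 4)
  obtain ⟨r, hr⟩ : ∃ r : ℝ, r = min r1 (min (r2 / 2) r3) := ⟨_, rfl⟩
  have hr0 : 0 < r := by
    rw [hr]
    exact lt_min hr1 (lt_min (by linarith) hr3)
  have hra : r ≤ r1 := by
    rw [hr]
    exact min_le_left _ _
  have hrb : r ≤ r2 / 2 := by
    rw [hr]
    exact (min_le_right _ _).trans (min_le_left _ _)
  have hrc : r ≤ r3 := by
    rw [hr]
    exact (min_le_right _ _).trans (min_le_right _ _)
  obtain ⟨K₁, hK₁⟩ := he.contr r hr0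
  have hsm : ∀ n, K₁ ≤ n → ∀ C : Set X, IsPreconnected C → diam (f^[n] '' C) < η →
      ∀ x ∈ C, ∀ y ∈ C, dist x y < r := by
    intro n hn C hC hd x hx y hy
    exact (Metric.dist_le_diam_of_mem
      (isCompact_univ.isBounded.subset (subset_univ C)) hx hy).trans_lt (hK₁ n hn C hC hd)
  refine ⟨s + 2, mkA Z δ m s a, w, mkNb m s, mkN m s, e, max K₁ (mkNb m s + m + 10), ?_⟩
  intro c hcf hcP hcη hcm hcZ hcδ hnc ha hw hnb hNN hε hk
  have hk1 : K₁ ≤ c.k0 := (le_max_left _ _).trans hk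
  have hk2 : mkNb m s + m + 10 ≤ c.k0 := (le_max_right _ _).trans hk
  constructor
  · rw [ha]
    exact fun i _ => mkj_cont hD hp i
  · rw [hw]
    exact hp.wpos
  · rw [hw]
    exact hp.wle
  · rw [hnc]
    omega
  · rw [hnb]
    unfold mkNb
    omega
  · rw [hnc, ha, hcf, hcm]
    exact fun i hi j hj x t h1 h2 h3 => mk_m1 hD hp hi hj h1 h2 h3
  · rw [hnc, ha, hcZ, hcδ, hnb]
    exact fun i hi x h1 => mk_depth hp hi h1
  · rw [hNN, hnc, ha, hw, hcf, hcZ, hcδ, hnb]
    exact fun x => mk_m2a hD hp x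
  · rw [hcZ, hcδ, hnb, hnc, ha, hcf]
    exact fun x hx h1 => mk_m2b hD hx h1
  · rw [hε]
    exact he0
  · rw [hNN, hcf, hε, hnc, ha, hw, hcZ, hcδ, hnb]
    exact hps1
  · rw [hnb, hcf, hε, hnc, ha, hw, hcZ, hcδ]
    exact hps2
  · rw [hnb, hcm]
    exact hk2
  · rw [hcf, hcη, hnc, ha, hw]
    intro n hn C hC hd x hx y hy i hi
    exact H1 x y ((hsm n (hk1.trans hn) C hC hd x hx y hy).trans_le hra) i hi
  · rw [hcf, hcη, hcZ, hcδ, hnb]
    intro n hn C hC hd x hx y hy hxZ hxδ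
    exact H3 x y ((hsm n (hk1.trans hn) C hC hd x hx y hy).trans_le hrc) hxZ hxδ
  · rw [hcf, hcη, hε]
    intro n hn n' hn' C C' hC hC' hne hd hd' x hx y hy
    obtain ⟨z, hz, hz'⟩ := hne
    have h1 := hsm n (hk1.trans hn) C hC hd x hx z hz
    have h2 := hsm n' (hk1.trans hn') C' hC' hd' z hz' y hy
    apply H2
    have h3 := dist_triangle x z y
    linarith

end Pool.ETM
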