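/-
Project ETM (MP_c7bb65_an). Assembly of the context: network, depth function, markers.
-/
import Mathlib
import Pool.Agent.ETM.IfLe
import Pool.Agent.ETM.IfNet
import Pool.Agent.ETM.IfDep
import Pool.Agent.ETM.MkJ

set_option autoImplicit false

open Set Metric Topology Filter
open Pool.JS

namespace Pool.ETM

variable {X : Type*} [MetricSpace X] [CompactSpace X] [Sph X]

theorem exists_ctx [Nonempty X] {f : X → X} {P : Set X} {η : ℝ} (h : Dyn f P) (he : Expd f P η) :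
    ∃ c : Ctx X, c.f = f ∧ c.P = P ∧ c.η = η ∧ c.Ok := by
  obtain ⟨V, E, D, q, m, ε, s, hnet⟩ := exists_net h he
  have hm : 1 ≤ m := by
    have := hnet ⟨f, P, η, V, E, D, q, m, ε, s, ∅, fun _ => 0, 0, fun _ _ => 0, 0, 0, 0, 0, 0, 0⟩ rfl rfl rfl rfl rfl rfl
      rfl rfl rfl rfl
    exact this.mpos
  obtain ⟨Z, δ, hD⟩ := exists_depth h he m
  obtain ⟨nc, a, w, nb, NN, e, K, hmk⟩ := exists_marks h he (fun n hn => per_finite h he n hn) hm hD
  obtain ⟨n0, hn0, hs⟩ := hD.shrink (η / 2) (half_pos he.pos)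
  refine ⟨⟨f, P, η, V, E, D, q, m, ε, s, Z, δ, nc, a, w, nb, NN, e, K, n0⟩, rfl, rfl, rfl, ?_⟩
  exact
    { dyn := h
      expd := he
      net := hnet _ rfl rfl rfl rfl rfl rfl rfl rfl rfl rfl
      dep := ⟨hD, hs, hn0⟩
      mark := hmk _ rfl rfl rfl rfl rfl rfl rfl rfl rfl rfl rfl rfl le_rfl }

end Pool.ETM
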