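/-
Project ETM (MP_c7bb65_an). Definitions for the blocks LV (section 6), SP (section 7, the splice), ST (section 8), FL (section 9),
SH (section 10), SEP (section 11) and the interface RAY (section 12) of the paper proof /team-store/c7bb65_proof.md.
-/
import Mathlib
import Pool.Agent.ETM.Ctx

set_option autoImplicit false

open Set Metric Topology Filter
open Pool.JS

namespace Pool.ETM

variable {X : Type*}

namespace Ctx

/-- the midpoint of the edge `θ` of level `k` (as a set) -/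
def mid (c : Ctx X) (k : ℕ) (θ : Set X) : Set X :=
  {y | y ∈ θ ∧ ∀ v ∈ c.V k, v ∈ θ → ‖c.Q k y - c.Q k v‖ = c.s / 2}

/-- the closed ball around the midpoint of `θ` -/
def Bm (c : Ctx X) (k : ℕ) (θ : Set X) (r : ℝ) : Set X :=
  {x | x ∈ c.D k θ ∧ ∃ y ∈ c.mid k θ, ‖c.Q k x - c.Q k y‖ ≤ r}

/-- the closed ball around a vertex -/
def Bc (c : Ctx X) (k : ℕ) (v : X) (r : ℝ) : Set X :=
  {x | ∃ θ ∈ c.E k, v ∈ θ ∧ x ∈ c.D k θ ∧ ‖c.Q k x - c.Q k v‖ ≤ r}

/-- the half of the edge `θ` next to `v` -/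
def half (c : Ctx X) (k : ℕ) (θ : Set X) (v : X) : Set X :=
  {x | x ∈ θ ∧ ‖c.Q k x - c.Q k v‖ ≤ c.s / 2}

section

variable [TopologicalSpace X]

/-- the faces touching the outer region -/
def Us (c : Ctx X) (E : Set (Set X)) : Set (Set X) := {U | U ∈ Fc E ∧ (closure U ∩ c.So).Nonempty}

def Om (c : Ctx X) (E : Set (Set X)) : Set X := ⋃₀ {F | ∃ U ∈ c.Us E, F = closure U}

def K (c : Ctx X) (E : Set (Set X)) : Set X := MS E c.So

/-- the subgraph around the midpoint of `θ` -/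
def Y (c : Ctx X) (k : ℕ) (θ : Set X) (E : Set (Set X)) : Set X := MS E (c.Bm k θ (3 * c.ε))

/-- the subgraph around the vertex `v` -/
def Yv (c : Ctx X) (k : ℕ) (v : X) (E : Set (Set X)) : Set X := MS E (c.Bc k v (3 * c.ε))

/-- the third star of `A i` at the level of `i`: a region where `a i` is positive -/
def R3 (c : Ctx X) (i : ℕ) : Set X := c.St (c.lev i) (c.St (c.lev i) (c.St (c.lev i) (c.A i)))

open Classical in
/-- the end point of `e_θ` at `v` -/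
noncomputable def wend (c : Ctx X) (i : ℕ) (us : X → X) (v : X) : X := if v ∈ c.Vint i then v else us v

/-- 7.3 and 7.4 at one interior edge `θ` of the colour `i`: the paths `Pt v` with their end points `us v`, and the arc `e` -/
structure Loc (c : Ctx X) (i : ℕ) (θ : Set X) (V : Set X) (E : Set (Set X)) (Pt : X → Set X) (us : X → X) (e : Set X) :
    Prop where
  path : ∀ v ∈ c.Vbd i, v ∈ θ → ∃ p ∈ V, p ∈ c.Y (c.lev i) θ E ∧ PathG E (Pt v) p (us v) ∧ us v ∈ V ∧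
    Pt v ⊆ MS E (c.half (c.lev i) θ v) ∧ Pt v ∩ c.Y (c.lev i) θ E = {p} ∧ Pt v ∩ c.K E = {us v}
  arc : ∀ v ∈ c.V (c.lev i), ∀ v' ∈ c.V (c.lev i), v ∈ θ → v' ∈ θ → v ≠ v' → ArcX e (c.wend i us v) (c.wend i us v')
  near : e ⊆ c.nh (c.lev i) θ (4 * c.ε)
  om : e ∩ c.Om E = {x | ∃ v ∈ c.Vbd i, v ∈ θ ∧ x = us v}
  atv : ∀ v ∈ c.Vint i, v ∈ θ → e ∩ c.Bc (c.lev i) v (6 * c.ε) ⊆ θ
  same : (∀ v ∈ c.V (c.lev i), v ∈ θ → v ∈ c.Vint i) → e = θ

/-- the vertices of the spliced graph -/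
def spV (c : Ctx X) (V : Set X) (E : Set (Set X)) : Set X := (V ∩ c.K E) ∪ ⋃ i < c.nc, c.Vint i

/-- the edges of the spliced graph -/
def spE (c : Ctx X) (E : Set (Set X)) (el : ℕ → Set X → Set X) : Set (Set X) :=
  {e | e ∈ E ∧ e ⊆ c.K E} ∪ {e | ∃ i < c.nc, ∃ θ ∈ c.Eint i, e = el i θ}

/-- `(V', E')` is a splice of `(V, E)` -/
structure Spl (c : Ctx X) (V : Set X) (E : Set (Set X)) (Pt : ℕ → Set X → X → Set X) (us : ℕ → Set X → X → X)
    (el : ℕ → Set X → Set X) (V' : Set X) (E' : Set (Set X)) : Prop where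
  hV : V' = c.spV V E
  hE : E' = c.spE E el
  loc : ∀ i < c.nc, ∀ θ ∈ c.Eint i, c.Loc i θ V E (Pt i θ) (us i θ) (el i θ)

/-- the local datum at `θ` -/
def dat (c : Ctx X) (i : ℕ) (θ : Set X) (V : Set X) (E : Set (Set X)) : Set X × Set X :=
  (⋃₀ E ∩ c.D (c.lev i) θ, V ∩ c.D (c.lev i) θ)

end

/-- a choice rule: paths and arcs as a function of the local datum -/
structure Rule [MetricSpace X] (c : Ctx X) (Pt : ℕ → Set X → Set X × Set X → X → Set X)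
    (us : ℕ → Set X → Set X × Set X → X → X) (el : ℕ → Set X → Set X × Set X → Set X) : Prop where
  loc : ∀ V E, c.Adm c.L1 V E → ∀ i < c.nc, ∀ θ ∈ c.Eint i,
    c.Loc i θ V E (Pt i θ (c.dat i θ V E)) (us i θ (c.dat i θ V E)) (el i θ (c.dat i θ V E))

/-- the fixed graph of section 8 -/
structure Fix [MetricSpace X] (c : Ctx X) (Pt : ℕ → Set X → X → Set X) (us : ℕ → Set X → X → X)
    (el : ℕ → Set X → Set X) (V : Set X) (E : Set (Set X)) : Prop where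
  adm : c.Adm c.L V E
  adm1 : c.Adm c.L1 (c.f ⁻¹' V) (pullE c.f E)
  spl : c.Spl (c.f ⁻¹' V) (pullE c.f E) Pt us el V E

/-- rigid edges of the fixed graph -/
def Rig [TopologicalSpace X] (c : Ctx X) (E : Set (Set X)) : Set (Set X) :=
  {e | e ∈ E ∧ e ∈ pullE c.f E ∧ e ⊆ c.K (pullE c.f E)}

/-- the push `φ` with its coordinates (section 9): `path e` is the set of the edges of `f⁻¹ G` in `φ '' e`, `r e` their
number, `π e` the coordinate of the edge `e` -/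
structure Push [MetricSpace X] (c : Ctx X) (el : ℕ → Set X → Set X) (V : Set X) (E : Set (Set X)) (φ : X → X)
    (path : Set X → Set (Set X)) (r : Set X → ℕ) (π : Set X → X → ℝ) : Prop where
  cont : ContinuousOn φ (⋃₀ E)
  inj : InjOn φ (⋃₀ E)
  mapV : ∀ v ∈ V, c.f (φ v) ∈ V
  rigid : ∀ e ∈ c.Rig E, path e = {e} ∧ r e = 1 ∧ ∀ x ∈ e, φ x = x
  path_sub : ∀ e ∈ E, path e ⊆ pullE c.f E
  path_img : ∀ e ∈ E, φ '' e = ⋃₀ path e
  flex : ∀ i < c.nc, ∀ θ ∈ c.Eint i, φ '' el i θ ⊆ c.nh (c.lev i) θ (4 * c.ε) ∧ 2 ≤ r (el i θ)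
  rpos : ∀ e ∈ E, 1 ≤ r e
  πcont : ∀ e ∈ E, ContinuousOn (π e) e
  πinj : ∀ e ∈ E, InjOn (π e) e
  πimg : ∀ e ∈ E, π e '' e = Icc 0 1
  lin : ∀ e ∈ E, ∀ e₁ ∈ path e, ∀ x ∈ e, ∀ y ∈ e, φ x ∈ e₁ → φ y ∈ e₁ →
    |π (c.f '' e₁) (c.f (φ x)) - π (c.f '' e₁) (c.f (φ y))| = r e * |π e x - π e y|

/-- the shadowing map (section 10): `D e`, `Db e` are the full and the closed neighbourhoods of the edge `e` of the fixed
graph, `lv e` its level -/
structure Shad [MetricSpace X] (c : Ctx X) (E : Set (Set X)) (φ : X → X) (D Db : Set X → Set X) (lv : Set X → ℕ)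
    (h : X → X) : Prop where
  Dopen : ∀ e ∈ E, IsOpen (D e)
  Dsc : ∀ e ∈ E, IsSimplyConnected (D e)
  Davoid : ∀ e ∈ E, Disjoint (D e) c.P
  sub : ∀ e ∈ E, e ⊆ Db e ∧ Db e ⊆ D e
  comp : ∀ e ∈ E, IsCompact (Db e) ∧ IsConnected (Db e)
  small : ∀ e ∈ E, diam (c.f^[lv e] '' D e) < c.η
  lvge : ∀ e ∈ E, c.k0 ≤ lv e
  /-- points of an edge are not deep, and the depth is almost constant on `D e` -/
  deep : ∀ e ∈ E, ∀ x ∈ e, x ∉ c.Z ∧ c.δ x < c.nhole + 1 / 8 ∧ ∀ y ∈ D e, y ∉ c.Z ∧ |c.δ y - c.δ x| < 1 / 16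
  cp : ∀ e ∈ E, ∀ e' ∈ E, e ≠ e' → ∀ x ∈ e ∩ e', ∀ z ∈ Db e ∩ Db e', ∃ C : Set X, IsPreconnected C ∧ C ⊆ D e ∩ D e' ∧
    z ∈ C ∧ x ∈ C
  hcont : ContinuousOn h (⋃₀ E)
  hinj : InjOn h (⋃₀ E)
  conj : ∀ x ∈ ⋃₀ E, c.f (h x) = h (c.f (φ x))
  hmem : ∀ e ∈ E, ∀ x ∈ e, h x ∈ Db e

end Ctx

/-- the component of `S` containing `x` -/
abbrev comp [TopologicalSpace X] (S : Set X) (x : X) : Set X := connectedComponentIn S x

/-- the invariant graph (end of section 11), the input of sections 12 and 13 -/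
structure Inv [MetricSpace X] (f : X → X) (P : Set X) (η : ℝ) (V : Set X) (E : Set (Set X)) : Prop where
  good : Good V E
  mapG : MapsTo f (⋃₀ E) (⋃₀ E)
  mapV : MapsTo f V V
  avoid : Disjoint (⋃₀ E) P
  /-- every face contains at most one point of `P` -/
  one : ∀ U ∈ Fc E, (U ∩ P).Subsingleton
  /-- at periodic points of `P` the face of the pull back graph is compactly inside the face -/
  nest : ∀ z ∈ P, (∃ j, 1 ≤ j ∧ f^[j] z = z) →
    closure (comp (f ⁻¹' comp (⋃₀ E)ᶜ (f z)) z) ⊆ comp (⋃₀ E)ᶜ z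
  /-- the faces of the periodic points of `P` are small in some forward level -/
  small : ∃ n : ℕ, ∀ z ∈ P, (∃ j, 1 ≤ j ∧ f^[j] z = z) → diam (f^[n] '' comp (⋃₀ E)ᶜ z) < η

end Pool.ETM
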