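/-
Project ETM (MP_c7bb65_an), block LV (section 6 of /team-store/c7bb65_proof.md).
MODULE LvA (difficulty 2).  Closed faces of the level networks; oscillation on faces and on the sets `D`.

RECIPE.  All properties are fields of `c.Ok` (`h.net : NetOk`, `h.mark : MarkOk`, see Ctx.lean); `X` is a compact metric space, so every
set is bounded (`Metric.isBounded_of_compactSpace`, `Metric.diam_mono`).
`lv_face_closed`: a face is a closure.  `lv_face_conn`: `IsPreconnected.closure`, (`FaceX.conn`, `FaceX.ne`).  `lv_face_fin`: image of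
the finite set `Fc (c.E k)` (`(h.net.good k).finF`).  `lv_face_cover`: `PG.cover` (Bridge) with `(h.net.good k).pg`, `.disc`.
`lv_face_diam`: `h.net.star k F hF` bounds the diameter of the image of `c.DSt k (c.St k (c.St k F))`, which contains `F`
(`F ⊆ St F` as `F` is nonempty, twice; `DSt k S ⊇ S`).  `lv_lev_ge`: `c.lev i = c.k0 + 2 * c.m * i`.
`lv_face`: `h.mark.osca`, `h.mark.oscd` with `n = c.lev i`, `C = F`.  `lv_D`: the same with `C = c.D (c.lev i) θ`, which is simply
connected (`h.net.Dsc`, `IsSimplyConnected.isPathConnected`), `h.net.Ddiam`.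
`lv_diam_closure`: the image of `closure U` is contained in the closure of the image of `U` (`image_closure_subset_closure_image`), and
`Metric.diam_closure`.
-/
import Mathlib
import Pool.Agent.ETM.SpDefs
import Pool.Agent.ETM.Bridge

set_option autoImplicit false

open Set Metric Topology Filter
open Pool.JS

namespace Pool.ETM

variable {X : Type*} [MetricSpace X] [CompactSpace X] [Sph X] {c : Ctx X}

theorem lv_lev_ge (i : ℕ) : c.k0 ≤ c.lev i := by
  unfold Ctx.lev
  omega

theorem lv_lev_le {i : ℕ} (hi : i < c.nc) : c.lev i + 2 * c.m ≤ c.kT := by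
  unfold Ctx.lev Ctx.kT
  have h1 : 2 * c.m * i + 2 * c.m ≤ 2 * c.m * c.nc := by
    have h2 : 2 * c.m * i + 2 * c.m = 2 * c.m * (i + 1) := by ring
    rw [h2]
    exact Nat.mul_le_mul_left _ hi
  omega

theorem lv_face_closed {k : ℕ} {F : Set X} (hF : F ∈ c.Face k) : IsClosed F := by
  obtain ⟨U, -, rfl⟩ := hF
  exact isClosed_closure

theorem lv_face_conn {k : ℕ} {F : Set X} (hF : F ∈ c.Face k) : IsConnected F := by
  obtain ⟨U, hU, rfl⟩ := hF
  exact ⟨hU.ne.closure, hU.conn.closure⟩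

theorem lv_sub_St {k : ℕ} {F : Set X} (hF : F ∈ c.Face k) {S : Set X} (hFS : (F ∩ S).Nonempty) : F ⊆ c.St k S :=
  fun _ hx => ⟨F, ⟨hF, hFS⟩, hx⟩

variable (h : c.Ok)

include h

theorem lv_diam_closure (n : ℕ) (U : Set X) : diam (c.f^[n] '' closure U) ≤ diam (c.f^[n] '' U) := by
  have h1 : c.f^[n] '' closure U ⊆ closure (c.f^[n] '' U) :=
    image_closure_subset_closure_image (h.dyn.cont.iterate n)
  calc diam (c.f^[n] '' closure U) ≤ diam (closure (c.f^[n] '' U)) :=
        diam_mono h1 (Metric.isBounded_of_compactSpace)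
    _ = diam (c.f^[n] '' U) := diam_closure _

theorem lv_face_fin (k : ℕ) : (c.Face k).Finite := by
  have h1 : c.Face k ⊆ closure '' (Fc (c.E k)) := by
    rintro F ⟨U, hU, rfl⟩
    exact ⟨U, hU, rfl⟩
  exact ((h.net.good k).finF.image _).subset h1

theorem lv_face_cover (k : ℕ) (x : X) : ∃ F ∈ c.Face k, x ∈ F := by
  obtain ⟨U, hU, hx⟩ := PG.cover (h.net.good k).pg (h.net.good k).disc x
  exact ⟨closure U, ⟨U, hU, rfl⟩, hx⟩

theorem lv_face_diam {k : ℕ} {F : Set X} (hF : F ∈ c.Face k) : diam (c.f^[k] '' F) < c.η := by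
  have hne : F.Nonempty := (lv_face_conn hF).nonempty
  have h1 : F ⊆ c.St k F := lv_sub_St hF (by rw [inter_self]; exact hne)
  have h2 : F ⊆ c.St k (c.St k F) := lv_sub_St hF (by rw [inter_eq_left.mpr h1]; exact hne)
  have h3 : F ⊆ c.DSt k (c.St k (c.St k F)) := fun x hx => Or.inl (h2 hx)
  exact lt_of_le_of_lt (diam_mono (image_mono h3) Metric.isBounded_of_compactSpace) (h.net.star k F hF)

/-- on the level `lev i` faces and on the sets `D` everything is almost constant -/
theorem lv_face {i : ℕ} (hi : i < c.nc) {F : Set X} (hF : F ∈ c.Face (c.lev i)) {x y : X} (hx : x ∈ F) (hy : y ∈ F) :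
    (∀ j < c.nc, |c.a j x - c.a j y| < c.w / 1000) ∧
      (x ∉ c.Z → c.δ x ≤ c.nb + 4 → y ∉ c.Z ∧ |c.δ x - c.δ y| < 1 / 1000) :=
  ⟨h.mark.osca _ (lv_lev_ge i) F (lv_face_conn hF).isPreconnected (lv_face_diam h hF) x hx y hy,
    h.mark.oscd _ (lv_lev_ge i) F (lv_face_conn hF).isPreconnected (lv_face_diam h hF) x hx y hy⟩

theorem lv_D {i : ℕ} (hi : i < c.nc) {θ : Set X} (hθ : θ ∈ c.E (c.lev i)) {x y : X} (hx : x ∈ c.D (c.lev i) θ)
    (hy : y ∈ c.D (c.lev i) θ) : (∀ j < c.nc, |c.a j x - c.a j y| < c.w / 1000) ∧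
      (x ∉ c.Z → c.δ x ≤ c.nb + 4 → y ∉ c.Z ∧ |c.δ x - c.δ y| < 1 / 1000) := by
  have hc : IsPreconnected (c.D (c.lev i) θ) := (h.net.Dsc _ θ hθ).isPathConnected.isConnected.isPreconnected
  exact ⟨h.mark.osca _ (lv_lev_ge i) _ hc (h.net.Ddiam _ θ hθ) x hx y hy,
    h.mark.oscd _ (lv_lev_ge i) _ hc (h.net.Ddiam _ θ hθ) x hx y hy⟩

end Pool.ETM
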