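/-
Project ETM (MP_c7bb65_an), block LV (section 6 of /team-store/c7bb65_proof.md).
MODULE LvB (difficulty 2).  The regions `A i` and their third stars.

RECIPE.  `lv_A`: `c.A i` is a finite union of closed faces (`lv_face_fin`, `lv_face_closed`: `Set.Finite.isClosed_sUnion`).  If
`c.w / 4 ≤ c.a i x` then EVERY closed face `F` of level `lev i` containing `x` is contained in `A i`; the complement of the (finite) union
of the closed faces not containing `x` is a neighbourhood of `x`, contained in `A i` by `lv_face_cover`: so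
  (*) `c.w / 4 ≤ c.a i x → x ∈ interior (c.A i)`.
This gives the second and the fourth claim (a point of the frontier is not in the interior; `frontier = closure \ interior`).  The third
claim is `lv_face` (the face contains a point with `w/4 ≤ a i`).
`lv_disj0`: `h.mark.m1` with `t = 0` in both orders: `2 * m * i + m ≤ 2 * m * j` and `2 * m * j + m ≤ 2 * m * i`, and `1 ≤ m`
(`h.net.mpos`).  `lv_notT`: `h.mark.depth`: `x ∉ Z`, `δ x < nb + 1`, and `nb + 1 ≤ nhole` (`nhole = k0 + 2 * m * nc + n0`, `k0big`);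
`c.T t = Z ∪ {x | t ≤ δ x}` (definitions `Ctx.T`, `TT`).
`lv_R3`: `x ∈ R3 i`: a chain of faces `F₃ ∋ x`, `F₃ ∩ F₂`, `F₂ ∩ F₁`, `F₁ ∩ A i` nonempty; the value of `a i` changes by less than `w / 1000`
on every face: `a i x > w/4 - 4 * w/1000 > w/5`.  If `θ ⊆ R3 i` and `x ∈ D θ`: `θ` is nonempty (an arc: `(h.net.good _).pg.arc`) and
`θ ⊆ D θ` (`h.net.Dsub`), one more step (`lv_D`).  If `x ∈ A j`, then `0 < a j x`, contradiction to `lv_disj0`.
-/
import Mathlib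
import Pool.Agent.ETM.LvA

set_option autoImplicit false

open Set Metric Topology Filter
open Pool.JS

namespace Pool.ETM

variable {X : Type*} [MetricSpace X] [CompactSpace X] [Sph X] {c : Ctx X} (h : c.Ok)

include h

theorem lv_int {i : ℕ} (hi : i < c.nc) {x : X} (hx : c.w / 4 ≤ c.a i x) : x ∈ interior (c.A i) := by
  have hfin : {F | F ∈ c.Face (c.lev i) ∧ x ∉ F}.Finite := (lv_face_fin h (c.lev i)).subset (fun F hF => hF.1)
  have hcl : IsClosed (⋃₀ {F | F ∈ c.Face (c.lev i) ∧ x ∉ F}) := by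
    rw [sUnion_eq_biUnion]
    exact hfin.isClosed_biUnion (fun F hF => lv_face_closed hF.1)
  rw [mem_interior]
  refine ⟨(⋃₀ {F | F ∈ c.Face (c.lev i) ∧ x ∉ F})ᶜ, ?_, hcl.isOpen_compl, ?_⟩
  · intro y hy
    obtain ⟨F, hF, hyF⟩ := lv_face_cover h (c.lev i) y
    by_cases hxF : x ∈ F
    · exact ⟨F, ⟨hF, x, hxF, hx⟩, hyF⟩
    · exact absurd ⟨F, ⟨hF, hxF⟩, hyF⟩ hy
  · rintro ⟨F, ⟨_, hxF⟩, hxF'⟩
    exact hxF hxF'

theorem lv_A {i : ℕ} (hi : i < c.nc) : IsClosed (c.A i) ∧ {x | c.w / 4 < c.a i x} ⊆ interior (c.A i) ∧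
    (∀ x ∈ c.A i, c.w / 4 - c.w / 1000 < c.a i x) ∧ (∀ x ∈ frontier (c.A i), c.a i x < c.w / 4) := by
  refine ⟨?_, ?_, ?_, ?_⟩
  · have hfin : {F | F ∈ c.Face (c.lev i) ∧ ∃ x ∈ F, c.w / 4 ≤ c.a i x}.Finite :=
      (lv_face_fin h (c.lev i)).subset (fun F hF => hF.1)
    show IsClosed (⋃₀ {F | F ∈ c.Face (c.lev i) ∧ ∃ x ∈ F, c.w / 4 ≤ c.a i x})
    rw [sUnion_eq_biUnion]
    exact hfin.isClosed_biUnion (fun F hF => lv_face_closed hF.1)
  · intro x hx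
    exact lv_int h hi (le_of_lt hx)
  · rintro x ⟨F, ⟨hF, y, hyF, hy⟩, hxF⟩
    have h1 := (lv_face h hi hF hxF hyF).1 i hi
    rw [abs_lt] at h1
    linarith [h1.1]
  · intro x hx
    by_contra hn
    exact hx.2 (lv_int h hi (not_lt.1 hn))

theorem lv_disj0 {i j : ℕ} (hi : i < c.nc) (hj : j < c.nc) (hij : i ≠ j) {x : X} (hx : 0 < c.a i x) : ¬ 0 < c.a j x := by
  intro hy
  have h1 := h.mark.m1 i hi j hj x 0 hx hy (Or.inr hij)
  have h2 := h.mark.m1 j hj i hi x 0 hy hx (Or.inr hij.symm)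
  have h3 := h.net.mpos
  linarith

theorem lv_notT {i : ℕ} (hi : i < c.nc) {x : X} (hx : 0 < c.a i x) : x ∉ c.Z ∧ c.δ x < c.nb + 1 ∧ x ∉ c.T c.nhole := by
  obtain ⟨h1, h2⟩ := h.mark.depth i hi x hx
  refine ⟨h1, h2, ?_⟩
  rintro (h3 | h3)
  · exact h1 h3
  · have h4 : (c.nhole : ℝ) ≤ c.δ x := h3
    have h5 : c.nb + 1 ≤ c.nhole := by
      have h6 := h.mark.k0big
      show c.nb + 1 ≤ c.k0 + 2 * c.m * c.nc + c.n0
      have h7 : 0 ≤ 2 * c.m * c.nc := Nat.zero_le _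
      omega
    have h6 : (c.nb : ℝ) + 1 ≤ c.nhole := by exact_mod_cast h5
    linarith

theorem lv_pos_A {i : ℕ} (hi : i < c.nc) {x : X} (hx : x ∈ c.A i) : 0 < c.a i x := by
  have h1 := (lv_A h hi).2.2.1 x hx
  have h2 := h.mark.wpos
  linarith

theorem lvB_R3 {i : ℕ} (hi : i < c.nc) {x : X} (hx : x ∈ c.R3 i) : c.w / 4 - 4 * (c.w / 1000) < c.a i x := by
  obtain ⟨F3, ⟨hF3, y2, hy23, F2, ⟨hF2, y1, hy12, F1, ⟨hF1, y0, hy01, hy0⟩, hy11⟩, hy22⟩, hx3⟩ := hx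
  have h0 := (lv_A h hi).2.2.1 y0 hy0
  have h1 := (lv_face h hi hF1 hy11 hy01).1 i hi
  have h2 := (lv_face h hi hF2 hy22 hy12).1 i hi
  have h3 := (lv_face h hi hF3 hx3 hy23).1 i hi
  rw [abs_lt] at h1 h2 h3
  linarith [h1.1, h2.1, h3.1]

/-- on the third star of `A i`, and on all the sets `D θ` for `θ` in it, `a i` is at least `w/5`; such points are in no
`A j`, `j ≠ i`, and not in the holes -/
theorem lv_R3 {i : ℕ} (hi : i < c.nc) {x : X} (hx : x ∈ c.R3 i ∨ ∃ θ ∈ c.E (c.lev i), θ ⊆ c.R3 i ∧ x ∈ c.D (c.lev i) θ) :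
    c.w / 5 < c.a i x ∧ (∀ j < c.nc, j ≠ i → x ∉ c.A j) ∧ x ∉ c.T c.nhole := by
  have hw := h.mark.wpos
  have h1 : c.w / 5 < c.a i x := by
    rcases hx with hx | ⟨θ, hθ, hθR, hxD⟩
    · have h2 := lvB_R3 h hi hx
      linarith
    · obtain ⟨p, _, q, _, hpq, _⟩ := (h.net.good (c.lev i)).pg.arc θ hθ
      have hp : p ∈ θ := by
        obtain ⟨γ, _, _, h5, h6, _⟩ := hpq
        rw [← h5, ← h6]
        exact ⟨0, left_mem_Icc.2 zero_le_one, rfl⟩
      have h2 := lvB_R3 h hi (hθR hp)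
      have h3 := (lv_D h hi hθ hxD (h.net.Dsub _ θ hθ hp)).1 i hi
      rw [abs_lt] at h3
      linarith [h3.1]
  have h0 : 0 < c.a i x := by linarith
  refine ⟨h1, ?_, (lv_notT h hi h0).2.2⟩
  intro j hj hji hxj
  exact lv_disj0 h hi hj (Ne.symm hji) h0 (lv_pos_A h hj hxj)

end Pool.ETM
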