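/-
Project ETM (MP_c7bb65_an), block LV (section 6 of /team-store/c7bb65_proof.md).
MODULE LvC (difficulty 2).  The holes; the pieces of the region `OO`.

RECIPE.  Let `n = c.nhole`, `1 ≤ n`; `h.dep.dep : Dep c.f c.P c.m c.Z c.δ` (Defs.lean).  `c.T t = TT c.Z c.δ t = Z ∪ {x | t ≤ δ x}`.
`lv_T`: closed: the complement is `Zᶜ ∩ {δ < n}`, open because `Zᶜ` is open (`finZ`) and `δ` is continuous on it
(`ContinuousOn.isOpen_inter_preimage`).  Connected complement: `compl`.  The set `Z ∪ {x | n < δ x}` is open (`openT`) and contained in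
`T n`, so it is contained in `OT = interior (T n)`; a point of the frontier is in `T n` (closed) and not in the interior, so `x ∉ Z` and
`δ x = n`.  The diameter: iterate `img` (induction on `j`): `f^[j] '' Tz (n' + j) z ⊆ Tz n' (f^[j] z)` for `1 ≤ n'`, `z ∈ Z`
(`mapZ`), with `j = kT`, `n' = n0` (`nhole = kT + n0`), then `h.dep.small` and `diam_mono` (everything is bounded, `X` compact).
`lv_pieces`: the open sets `interior (A i)`, `i < nc`, and `OT` are pairwise disjoint (`lv_pos_A`, `lv_disj0`, `lv_notT`, `interior_subset`)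
and cover the preconnected set `C`: it is contained in one of them (e.g. induct, or: pick `x ∈ C` and its piece `O₁`; the union `O₂` of the
other pieces is open, `IsPreconnected.subset_left_of_subset_union`).  If `C ⊆ OT ⊆ T n`: `x ∈ C` lies in
`connectedComponentIn (T n) z` for some `z ∈ Z` (`cover`), and `connectedComponentIn (T n) x` is the same set
(`connectedComponentIn_eq`), `IsPreconnected.subset_connectedComponentIn`.
-/
import Mathlib
import Pool.Agent.ETM.LvB

set_option autoImplicit false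

open Set Metric Topology Filter
open Pool.JS

namespace Pool.ETM

variable {X : Type*} [MetricSpace X] [CompactSpace X] [Sph X] {c : Ctx X} (h : c.Ok)

include h

theorem lv_nhole : c.nb + c.m + 10 ≤ c.nhole ∧ c.kT + 1 ≤ c.nhole := by
  have h1 := h.mark.k0big
  have h2 := h.dep.n0pos
  refine ⟨?_, ?_⟩
  · show c.nb + c.m + 10 ≤ c.k0 + 2 * c.m * c.nc + c.n0
    have h7 : 0 ≤ 2 * c.m * c.nc := Nat.zero_le _
    omega
  · show c.kT + 1 ≤ c.kT + c.n0
    omega

theorem lvC_one : 1 ≤ c.nhole := by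
  have := (lv_nhole h).2
  omega

theorem lvC_sub : {x | (c.nhole : ℝ) < c.δ x} ∪ c.Z ⊆ c.OT := by
  have h1 : IsOpen (c.Z ∪ {x | (c.nhole : ℝ) < c.δ x}) := h.dep.dep.openT _
  have h2 : c.Z ∪ {x | (c.nhole : ℝ) < c.δ x} ⊆ c.T c.nhole := by
    rintro x (hx | hx)
    · exact Or.inl hx
    · exact Or.inr (le_of_lt (show (c.nhole : ℝ) < c.δ x from hx))
  rw [union_comm]
  exact interior_maximal h2 h1

theorem lvC_closed : IsClosed (c.T c.nhole) := by
  have hZ : IsOpen (c.Zᶜ) := h.dep.dep.finZ.isClosed.isOpen_compl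
  have h1 : IsOpen (c.Zᶜ ∩ c.δ ⁻¹' Iio (c.nhole : ℝ)) := h.dep.dep.cont.isOpen_inter_preimage hZ isOpen_Iio
  have h2 : (c.T c.nhole)ᶜ = c.Zᶜ ∩ c.δ ⁻¹' Iio (c.nhole : ℝ) := by
    ext x
    constructor
    · intro hx
      refine ⟨fun hz => hx (Or.inl hz), ?_⟩
      show c.δ x < c.nhole
      by_contra hn
      exact hx (Or.inr (not_lt.1 hn))
    · rintro ⟨hx, hx'⟩ (h3 | h3)
      · exact hx h3
      · have h4 : (c.nhole : ℝ) ≤ c.δ x := h3
        have h5 : c.δ x < c.nhole := hx'
        linarith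
  rw [← isOpen_compl_iff, h2]
  exact h1

theorem lvC_mapZ (j : ℕ) {z : X} (hz : z ∈ c.Z) : c.f^[j] z ∈ c.Z := by
  induction j generalizing z with
  | zero => exact hz
  | succ j ih =>
    rw [Function.iterate_succ_apply]
    exact ih (h.dep.dep.mapZ hz)

theorem lvC_img (j : ℕ) {n : ℕ} (hn : 1 ≤ n) {z : X} (hz : z ∈ c.Z) :
    c.f^[j] '' c.Tz (n + j) z ⊆ c.Tz n (c.f^[j] z) := by
  induction j generalizing z with
  | zero =>
    rintro _ ⟨x, hx, rfl⟩
    exact hx
  | succ j ih =>
    rintro _ ⟨x, hx, rfl⟩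
    rw [Function.iterate_succ_apply, Function.iterate_succ_apply]
    apply ih (h.dep.dep.mapZ hz)
    refine ⟨c.f x, ?_, rfl⟩
    have h1 := h.dep.dep.img (n + j) (by omega) z hz
    have h2 : c.f x ∈ c.f '' connectedComponentIn (TT c.Z c.δ ((n + j : ℕ) + 1)) z := by
      refine ⟨x, ?_, rfl⟩
      have h3 : (((n + (j + 1) : ℕ)) : ℝ) = ((n + j : ℕ) : ℝ) + 1 := by
        push_cast
        ring
      have h4 : x ∈ connectedComponentIn (TT c.Z c.δ ((n + (j + 1) : ℕ) : ℝ)) z := hx
      rw [h3] at h4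
      exact h4
    exact h1 h2

theorem lv_T : IsClosed (c.T c.nhole) ∧ IsConnected (c.T c.nhole)ᶜ ∧ frontier (c.T c.nhole) ⊆ {x | x ∉ c.Z ∧ c.δ x = c.nhole} ∧
    {x | (c.nhole : ℝ) < c.δ x} ∪ c.Z ⊆ c.OT ∧ (∀ z ∈ c.Z, diam (c.f^[c.kT] '' c.Tz c.nhole z) < c.η) := by
  refine ⟨lvC_closed h, h.dep.dep.compl c.nhole (lvC_one h), ?_, lvC_sub h, ?_⟩
  · intro x hx
    have h1 : x ∈ c.T c.nhole := by
      have := hx.1
      rwa [(lvC_closed h).closure_eq] at this
    have h2 : x ∉ {x | (c.nhole : ℝ) < c.δ x} ∪ c.Z := fun h3 => hx.2 (lvC_sub h h3)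
    have h3 : x ∉ c.Z := fun h4 => h2 (Or.inr h4)
    refine ⟨h3, ?_⟩
    have h4 : ¬ (c.nhole : ℝ) < c.δ x := fun h5 => h2 (Or.inl h5)
    rcases h1 with h5 | h5
    · exact absurd h5 h3
    · exact le_antisymm (not_lt.1 h4) h5
  · intro z hz
    have h1 := lvC_img h c.kT h.dep.n0pos hz
    have h2 : c.n0 + c.kT = c.nhole := by
      show c.n0 + c.kT = c.kT + c.n0
      omega
    rw [h2] at h1
    have h3 := h.dep.small _ (lvC_mapZ h c.kT hz)
    have h4 : diam (c.f^[c.kT] '' c.Tz c.nhole z) ≤ diam (c.Tz c.n0 (c.f^[c.kT] z)) :=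
      diam_mono h1 (Metric.isBounded_of_compactSpace)
    have h5 := h.expd.pos
    linarith

/-- the region `OO` is the disjoint union of its pieces -/
theorem lv_pieces {C : Set X} (hC : IsPreconnected C) (hsub : C ⊆ c.OO) (hne : C.Nonempty) :
    (∃ i < c.nc, C ⊆ interior (c.A i)) ∨ ∃ z ∈ c.Z, C ⊆ c.Tz c.nhole z ∧ C ⊆ c.OT := by
  obtain ⟨x, hx⟩ := hne
  rcases hsub hx with hx1 | hx1
  · left
    simp only [mem_iUnion] at hx1
    obtain ⟨i, hi, hxi⟩ := hx1
    refine ⟨i, hi, ?_⟩
    refine IsPreconnected.subset_left_of_subset_union (v := (⋃ j ∈ {j | j < c.nc ∧ j ≠ i}, interior (c.A j)) ∪ c.OT)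
      isOpen_interior ?_ ?_ ?_ ⟨x, hx, hxi⟩ hC
    · exact (isOpen_biUnion fun _ _ => isOpen_interior).union isOpen_interior
    · rw [Set.disjoint_left]
      intro y hy hy'
      have h0 := lv_pos_A h hi (interior_subset hy)
      rcases hy' with hy' | hy'
      · simp only [mem_iUnion] at hy'
        obtain ⟨j, ⟨hj, hji⟩, hyj⟩ := hy'
        exact lv_disj0 h hi hj (Ne.symm hji) h0 (lv_pos_A h hj (interior_subset hyj))
      · exact (lv_notT h hi h0).2.2 (interior_subset hy')
    · intro y hy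
      rcases hsub hy with hy1 | hy1
      · simp only [mem_iUnion] at hy1
        obtain ⟨j, hj, hyj⟩ := hy1
        by_cases hji : j = i
        · subst hji
          exact Or.inl hyj
        · refine Or.inr (Or.inl ?_)
          simp only [mem_iUnion]
          exact ⟨j, ⟨hj, hji⟩, hyj⟩
      · exact Or.inr (Or.inr hy1)
  · right
    have h1 : C ⊆ c.OT := by
      refine IsPreconnected.subset_left_of_subset_union (v := ⋃ i < c.nc, interior (c.A i))
        isOpen_interior ?_ ?_ ?_ ⟨x, hx, hx1⟩ hC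
      · exact isOpen_biUnion fun _ _ => isOpen_interior
      · rw [Set.disjoint_left]
        intro y hy hy'
        simp only [mem_iUnion] at hy'
        obtain ⟨i, hi, hyi⟩ := hy'
        exact (lv_notT h hi (lv_pos_A h hi (interior_subset hyi))).2.2 (interior_subset hy)
      · intro y hy
        rcases hsub hy with hy1 | hy1
        · exact Or.inr hy1
        · exact Or.inl hy1
    have h2 : C ⊆ c.T c.nhole := h1.trans interior_subset
    have h3 := h.dep.dep.cover c.nhole (lvC_one h)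
    have h4 : x ∈ ⋃ z ∈ c.Z, connectedComponentIn (TT c.Z c.δ c.nhole) z := by
      rw [← h3]
      exact h2 hx
    simp only [mem_iUnion] at h4
    obtain ⟨z, hz, hxz⟩ := h4
    refine ⟨z, hz, ?_, h1⟩
    show C ⊆ connectedComponentIn (TT c.Z c.δ c.nhole) z
    rw [connectedComponentIn_eq hxz]
    exact hC.subset_connectedComponentIn hx h2

end Pool.ETM
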