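/-
Project ETM (MP_c7bb65_an), block LV (section 6 of /team-store/c7bb65_proof.md).
MODULE LvD (difficulty 2).  The level function.

RECIPE.  `lv_hit`: `h.mark.m2a x` gives `t ≤ NN`.  First case: `y = f^[t] x` has `w / 2 ≤ a i y`, so `y ∈ interior (A i) ⊆ OO` (`lv_int`,
`w > 0`).  Second case `y ∈ Z ⊆ OT` (`lv_T`).  Third case (`y ∉ Z`): if `nhole < δ y` then `y ∈ OT` (`lv_T`); otherwise `m2b` for `y` gives
`t' ≤ δ y ≤ nhole` (natural number) with `1 / 4 ≤ a i (f^[t'] y)`, and `w / 4 ≤ 1 / 4` (`wle`): `f^[t'] y = f^[t' + t] x ∈ interior (A i)`.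
`lv_tt`: `Nat.sInf_mem`, `Nat.sInf_le` for the set `{t | f^[t] x ∈ OO}` (nonempty by `lv_hit`).
`lv_at`: unfold `Ctx.levAt`; for `y ∈ OO`, `y ∉ OT`: the set `{i | i < nc ∧ y ∈ interior (A i)}` is nonempty; its infimum is in it; it has
only one element (`lv_pos_A`, `lv_disj0`); and `y ∈ interior (A i)` implies `y ∉ OT` (`lv_notT`, `interior_subset`).
`lv_bound`: `tt x ≤ NN + nhole + 2` and `levAt y ≤ kT` for `y ∈ OO`.  `lv_out`: `f^[0] x = x ∉ OO`, so the set for `x` is the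
successor of the set for `f x`: `tt x = tt (f x) + 1`.  `lv_in`, `lv_hole`: `tt x = 0` as `x ∈ OO`.  `lv_ge`: `levAt y ≥ k0`
(`lv_lev_ge`).
-/
import Mathlib
import Pool.Agent.ETM.LvC

set_option autoImplicit false

open Set Metric Topology Filter
open Pool.JS

namespace Pool.ETM

variable {X : Type*} [MetricSpace X] [CompactSpace X] [Sph X] {c : Ctx X} (h : c.Ok)

include h

/-- every orbit enters `OO` in bounded time -/
theorem lv_hit (x : X) : ∃ t ≤ c.NN + c.nhole + 2, c.f^[t] x ∈ c.OO := by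
  obtain ⟨t, ht, h1⟩ := h.mark.m2a x
  have hw := h.mark.wpos
  rcases h1 with ⟨i, hi, hw2⟩ | hZ | hδ
  · refine ⟨t, by omega, Or.inl ?_⟩
    rw [mem_iUnion₂]
    exact ⟨i, hi, lv_int h hi (by linarith)⟩
  · exact ⟨t, by omega, Or.inr ((lv_T h).2.2.2.1 (Or.inr hZ))⟩
  · by_cases hZ : c.f^[t] x ∈ c.Z
    · exact ⟨t, by omega, Or.inr ((lv_T h).2.2.2.1 (Or.inr hZ))⟩
    · by_cases hn : (c.nhole : ℝ) < c.δ (c.f^[t] x)
      · exact ⟨t, by omega, Or.inr ((lv_T h).2.2.2.1 (Or.inl hn))⟩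
      · obtain ⟨t', ht', ⟨i, hi, hai⟩, _⟩ := h.mark.m2b _ hZ (by linarith)
        have hle : (t' : ℝ) ≤ c.nhole := ht'.trans (not_lt.1 hn)
        have hle' : t' ≤ c.nhole := by exact_mod_cast hle
        have hwle := h.mark.wle
        refine ⟨t' + t, by omega, Or.inl ?_⟩
        rw [mem_iUnion₂]
        refine ⟨i, hi, lv_int h hi ?_⟩
        rw [Function.iterate_add_apply]
        linarith

theorem lv_tt (x : X) : c.f^[c.tt x] x ∈ c.OO ∧ (∀ t < c.tt x, c.f^[t] x ∉ c.OO) ∧ c.tt x ≤ c.NN + c.nhole + 2 := by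
  obtain ⟨t, ht, h1⟩ := lv_hit h x
  have hne : {t | c.f^[t] x ∈ c.OO}.Nonempty := ⟨t, h1⟩
  refine ⟨Nat.sInf_mem hne, ?_, (Nat.sInf_le h1).trans ht⟩
  intro t' ht'
  exact Nat.notMem_of_lt_sInf ht'

/-- the level attached to a point of `OO` -/
theorem lv_at {y : X} (hy : y ∈ c.OO) : (y ∈ c.OT ∧ c.levAt y = c.kT) ∨
    ∃ i < c.nc, y ∈ interior (c.A i) ∧ y ∉ c.OT ∧ c.levAt y = c.lev i := by
  by_cases hT : y ∈ c.OT
  · left
    refine ⟨hT, ?_⟩
    unfold Ctx.levAt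
    rw [if_pos hT]
  · right
    rcases hy with hy | hy
    · rw [mem_iUnion₂] at hy
      obtain ⟨i, hi, hyi⟩ := hy
      have hne : {i | i < c.nc ∧ y ∈ interior (c.A i)}.Nonempty := ⟨i, hi, hyi⟩
      have hmem := Nat.sInf_mem hne
      refine ⟨sInf {i | i < c.nc ∧ y ∈ interior (c.A i)}, hmem.1, hmem.2, hT, ?_⟩
      unfold Ctx.levAt
      rw [if_neg hT]
    · exact absurd hy hT

theorem lv_at_in {i : ℕ} (hi : i < c.nc) {y : X} (hy : y ∈ interior (c.A i)) : c.levAt y = c.lev i := by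
  have hpos := lv_pos_A h hi (interior_subset hy)
  have hT : y ∉ c.OT := fun hT => (lv_notT h hi hpos).2.2 (interior_subset hT)
  have hOO : y ∈ c.OO := by
    left
    rw [mem_iUnion₂]
    exact ⟨i, hi, hy⟩
  rcases lv_at h hOO with ⟨h1, _⟩ | ⟨j, hj, hyj, _, h2⟩
  · exact absurd h1 hT
  · by_cases hij : i = j
    · rw [h2, hij]
    · exact absurd (lv_pos_A h hj (interior_subset hyj)) (lv_disj0 h hi hj hij hpos)

theorem lv_bound : ∃ B : ℕ, ∀ x, c.L x ≤ B := by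
  refine ⟨(c.NN + c.nhole + 2) + c.kT, fun x => ?_⟩
  obtain ⟨h1, _, h3⟩ := lv_tt h x
  have h4 : c.levAt (c.f^[c.tt x] x) ≤ c.kT := by
    rcases lv_at h h1 with ⟨_, h5⟩ | ⟨i, hi, _, _, h5⟩
    · rw [h5]
    · rw [h5]
      have := lv_lev_le (c := c) hi
      omega
  unfold Ctx.L
  omega

/-- 6.1 -/
theorem lv_out {x : X} (hx : x ∉ c.OO) : c.L x = c.L1 x := by
  have h1 : c.tt x = c.tt (c.f x) + 1 := by
    obtain ⟨h2, _, _⟩ := lv_tt h x
    obtain ⟨h3, _, _⟩ := lv_tt h (c.f x)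
    apply le_antisymm
    · apply Nat.sInf_le
      change c.f^[c.tt (c.f x) + 1] x ∈ c.OO
      rw [Function.iterate_succ_apply]
      exact h3
    · have h4 : c.tt x ≠ 0 := by
        intro h0
        rw [h0] at h2
        exact hx h2
      obtain ⟨k, hk⟩ := Nat.exists_eq_succ_of_ne_zero h4
      rw [hk, Nat.succ_eq_add_one, Function.iterate_succ_apply] at h2
      have h5 : c.tt (c.f x) ≤ k := Nat.sInf_le h2
      omega
  unfold Ctx.L1 Ctx.L
  rw [h1, Function.iterate_succ_apply]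
  omega

theorem lv_in {i : ℕ} (hi : i < c.nc) {x : X} (hx : x ∈ interior (c.A i)) : c.L x = c.lev i := by
  have h1 : c.tt x = 0 := by
    apply Nat.le_zero.1
    apply Nat.sInf_le
    change x ∈ c.OO
    left
    rw [mem_iUnion₂]
    exact ⟨i, hi, hx⟩
  unfold Ctx.L
  rw [h1, zero_add]
  exact lv_at_in h hi hx

theorem lv_hole {x : X} (hx : x ∈ c.OT) : c.L x = c.kT := by
  have h1 : c.tt x = 0 := by
    apply Nat.le_zero.1
    apply Nat.sInf_le
    exact Or.inr hx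
  unfold Ctx.L
  rw [h1, zero_add]
  change c.levAt x = c.kT
  unfold Ctx.levAt
  rw [if_pos hx]

theorem lv_ge (x : X) : c.k0 ≤ c.L x ∧ c.k0 ≤ c.L1 x := by
  have key : ∀ y, c.k0 ≤ c.L y := by
    intro y
    obtain ⟨h1, _, _⟩ := lv_tt h y
    have h4 : c.k0 ≤ c.levAt (c.f^[c.tt y] y) := by
      rcases lv_at h h1 with ⟨_, h5⟩ | ⟨i, hi, _, _, h5⟩
      · rw [h5]
        unfold Ctx.kT
        omega
      · rw [h5]
        exact lv_lev_ge (c := c) i
    unfold Ctx.L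
    omega
  refine ⟨key x, ?_⟩
  have h2 := key (c.f x)
  unfold Ctx.L1
  omega

end Pool.ETM
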