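/-
Project ETM (MP_c7bb65_an), block LV (section 6 of /team-store/c7bb65_proof.md).
MODULE LvE (difficulty 2).  Lower bounds for the level function; small sets near an edge.

RECIPE.  `L1 x = 1 + (tt (f x) + levAt (f^[tt (f x)] (f x)))` (unfold `Ctx.L1`, `Ctx.L`).
`lv_pos` (6.2): `t = tt (f x) + 1 ≥ 1`, `y = f^[t] x ∈ OO` (`lv_tt`).  By `lv_at`: if `levAt y = kT`: `lv_lev_le`.  If `y ∈ interior (A j)`,
`levAt y = lev j`: `0 < a j y` (`lv_pos_A`) and `h.mark.m1` gives `2 * m * i + m ≤ 2 * m * j + t`.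
`lv_drop`: induction on `t` with `h.dep.dep.step`: while `1 ≤ δ`, `δ` drops by exactly one.
`lv_run`: KEY.  `x ∉ Z`, `1 ≤ δ x < nhole + 1`.  Let `t₀ = tt (f x)`, so `y = f^[t₀ + 1] x ∈ OO`.  Claim `δ x - nb - 2 ≤ t₀`.  Otherwise
`(t₀ : ℝ) < δ x - nb - 2`, by `lv_drop` `y ∉ Z` and `δ y = δ x - t₀ - 1 > nb + 1`, and `δ y < nhole` (as `δ x < nhole + 1`): so `y` is
not in any `A j` (`lv_pos_A`, `lv_notT`) and not in `T nhole` (`c.T t = Z ∪ {t ≤ δ}`), so not in `OT`: contradiction to `y ∈ OO`.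
`lv_deep` (6.4): `L1 x ≥ 1 + t₀ + k0` (`levAt ≥ k0`: `lv_at`, `lv_lev_ge`, `lv_lev_le`) `≥ k0 + δ x - nb - 1`.
`lv_rim` (6.3): the same bound with `δ x ≥ nhole - 1`: `L1 x ≥ k0 + nhole - nb - 2`, `nhole ≥ kT + 1`, `k0 ≥ nb + m + 10`.
`lv_small` (7.1): let `x ∈ closure U ∩ nh θ (10 ε)`; `x ∈ D θ`, so `0 < a i x` (`lv_R3`), `lev i + m ≤ L1 x` (`lv_pos`), `hA.fi` gives
`diam (f^[L1 x] '' U) < η`, so `diam (f^[L1 x] '' closure U) < η` (`lv_diam_closure`); `h.net.small` with `n = L1 x`, `C = closure U`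
(`IsPreconnected.closure`).
-/
import Mathlib
import Pool.Agent.ETM.LvD

set_option autoImplicit false

open Set Metric Topology Filter
open Pool.JS

namespace Pool.ETM

variable {X : Type*} [MetricSpace X] [CompactSpace X] [Sph X] {c : Ctx X} (h : c.Ok)

include h

theorem lve_L1 (x : X) : c.k0 + 1 + c.tt (c.f x) ≤ c.L1 x := by
  obtain ⟨h1, _, _⟩ := lv_tt h (c.f x)
  have h4 : c.k0 ≤ c.levAt (c.f^[c.tt (c.f x)] (c.f x)) := by
    rcases lv_at h h1 with ⟨_, h5⟩ | ⟨i, hi, _, _, h5⟩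
    · rw [h5]
      unfold Ctx.kT
      omega
    · rw [h5]
      exact lv_lev_ge (c := c) i
  unfold Ctx.L1 Ctx.L
  omega

/-- 6.2 -/
theorem lv_pos {i : ℕ} (hi : i < c.nc) {x : X} (hx : 0 < c.a i x) : c.lev i + c.m ≤ c.L1 x := by
  obtain ⟨h1, _, _⟩ := lv_tt h (c.f x)
  rcases lv_at h h1 with ⟨_, h5⟩ | ⟨j, hj, hy, _, h5⟩
  · have h6 := lv_lev_le (c := c) hi
    unfold Ctx.L1 Ctx.L
    rw [h5]
    omega
  · have h7 := lv_pos_A h hj (interior_subset hy)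
    rw [← Function.iterate_succ_apply] at h7
    have h8 := h.mark.m1 i hi j hj x (c.tt (c.f x) + 1) hx h7 (Or.inl (by omega))
    unfold Ctx.L1 Ctx.L
    rw [h5]
    unfold Ctx.lev
    omega

theorem lv_drop {x : X} (hx : x ∉ c.Z) (t : ℕ) (ht : (t : ℝ) ≤ c.δ x) : c.f^[t] x ∉ c.Z ∧ c.δ (c.f^[t] x) = c.δ x - t := by
  induction t with
  | zero =>
    refine ⟨hx, ?_⟩
    simp
  | succ t ih =>
    push_cast at ht
    obtain ⟨h1, h2⟩ := ih (by linarith)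
    have h3 := h.dep.dep.step _ h1 (by rw [h2]; linarith)
    rw [Function.iterate_succ_apply']
    refine ⟨h3.1, ?_⟩
    rw [h3.2, h2]
    push_cast
    ring

theorem lv_run {x : X} (hx : x ∉ c.Z) (h1 : 1 ≤ c.δ x) (h2 : c.δ x < c.nhole + 1) :
    c.δ x - c.nb - 2 ≤ c.tt (c.f x) := by
  by_contra hlt
  push Not at hlt
  obtain ⟨h3, _, _⟩ := lv_tt h (c.f x)
  rw [← Function.iterate_succ_apply] at h3
  have hnb : (0 : ℝ) ≤ (c.nb : ℝ) := Nat.cast_nonneg _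
  have ht0 : (0 : ℝ) ≤ (c.tt (c.f x) : ℝ) := Nat.cast_nonneg _
  obtain ⟨h4, h5⟩ := lv_drop h hx (c.tt (c.f x) + 1) (by push_cast; linarith)
  push_cast at h5
  rcases h3 with h3 | h3
  · rw [mem_iUnion₂] at h3
    obtain ⟨j, hj, hy⟩ := h3
    have h6 := (lv_notT h hj (lv_pos_A h hj (interior_subset hy))).2.1
    have h7 : c.δ (c.f^[(c.tt (c.f x)).succ] x) = c.δ x - (c.tt (c.f x) + 1) := h5
    rw [h7] at h6
    linarith
  · have h6 : c.f^[(c.tt (c.f x)).succ] x ∈ c.T c.nhole := interior_subset h3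
    rcases h6 with h6 | h6
    · exact h4 h6
    · have h7 : c.δ (c.f^[(c.tt (c.f x)).succ] x) = c.δ x - (c.tt (c.f x) + 1) := h5
      have h8 : (c.nhole : ℝ) ≤ c.δ (c.f^[(c.tt (c.f x)).succ] x) := h6
      rw [h7] at h8
      linarith

/-- 6.3 -/
theorem lv_rim {x : X} (hx : x ∉ c.Z) (h1 : (c.nhole : ℝ) - 1 ≤ c.δ x) (h2 : c.δ x < c.nhole + 1) :
    c.kT + c.m ≤ c.L1 x := by
  obtain ⟨h3, h4⟩ := lv_nhole h
  have h3' : (c.nb : ℝ) + c.m + 10 ≤ c.nhole := by exact_mod_cast h3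
  have h4' : (c.kT : ℝ) + 1 ≤ c.nhole := by exact_mod_cast h4
  have hk : (c.nb : ℝ) + c.m + 10 ≤ c.k0 := by exact_mod_cast h.mark.k0big
  have hnb : (0 : ℝ) ≤ (c.nb : ℝ) := Nat.cast_nonneg _
  have hm : (0 : ℝ) ≤ (c.m : ℝ) := Nat.cast_nonneg _
  have h5 := lv_run h hx (by linarith) h2
  have h6 : (c.k0 : ℝ) + 1 + c.tt (c.f x) ≤ c.L1 x := by exact_mod_cast lve_L1 h x
  have h7 : (c.kT : ℝ) + c.m ≤ c.L1 x := by linarith
  exact_mod_cast h7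

/-- 6.4 -/
theorem lv_deep {x : X} (hx : x ∉ c.Z) (h1 : (c.nb : ℝ) + 1 ≤ c.δ x) (h2 : c.δ x < c.nhole + 1) :
    (c.k0 : ℝ) + c.δ x - c.nb - 1 ≤ c.L1 x := by
  have hnb : (0 : ℝ) ≤ (c.nb : ℝ) := Nat.cast_nonneg _
  have h5 := lv_run h hx (by linarith) h2
  have h6 : (c.k0 : ℝ) + 1 + c.tt (c.f x) ≤ c.L1 x := by exact_mod_cast lve_L1 h x
  linarith

/-- 7.1: small sets near an edge of the third star -/
theorem lv_small {i : ℕ} (hi : i < c.nc) {θ : Set X} (hθ : θ ∈ c.E (c.lev i)) (hR : θ ⊆ c.R3 i) {V : Set X}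
    {E : Set (Set X)} (hA : c.Adm c.L1 V E) {U : Set X} (hU : U ∈ Fc E)
    (hx : (closure U ∩ c.nh (c.lev i) θ (10 * c.ε)).Nonempty) :
    closure U ⊆ c.D (c.lev i) θ ∧ ∀ x ∈ closure U, ∀ y ∈ closure U, ‖c.Q (c.lev i) x - c.Q (c.lev i) y‖ < c.ε := by
  have hx' := hx
  obtain ⟨x, hxU, hxn⟩ := hx
  have h1 := (lv_R3 h hi (x := x) (Or.inr ⟨θ, hθ, hR, hxn.1⟩)).1
  have hw := h.mark.wpos
  have h2 := lv_pos h hi (x := x) (by linarith)
  have h3 := hA.fi U hU x hxU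
  have h4 := (lv_diam_closure h (c.L1 x) U).trans_lt h3
  have hpre : IsPreconnected U := FaceX.conn hU
  exact h.net.small (c.lev i) θ hθ (c.L1 x) h2 (closure U) hpre.closure hx' h4

end Pool.ETM
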