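/-
Project ETM (MP_c7bb65_an), block LV (3.4a of /team-store/c7bb65_proof.md).
MODULE LvG (difficulty 2).  A boundary vertex of `A i` has at most one interior edge.

RECIPE.  Let `k = lev i`, `G = (V k, E k)` (good: `h.net.good k`).  `lv_face_two`: `U ∈ Fc (E k)`, `v ∈ V k`, `v ∈ closure U`: the set
`{e ∈ E k | v ∈ e ∧ e ⊆ closure U}` has at least two elements: `v ∈ ⋃₀ E`, `U ∩ ⋃₀ E = ∅` so `v ∈ frontier U`; `frontier U = ⋃₀ D`, `D ⊆ E`
(`PG.frontier_edges`, Bridge), it is a Jordan curve (`JDom.jordan`), `PG.jordan_two`: exactly two edges of `D` contain `v`.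
`lv_bd`: let `θ₁ ≠ θ₂` be in `Eint i` and contain `v ∈ Vbd i`.  For every closed face `F` of level `k` containing `v`: two of the at most three
edges at `v` are contained in `F` (`lv_face_two`), so `θ₁ ⊆ F` or `θ₂ ⊆ F` (`ncard` of a union, `val`), hence `F ⊆ A i` (definition of `Eint`).
So all closed faces containing `v` are in `A i`, and the complement of the finite union of the other closed faces (closed) is a
neighbourhood of `v` contained in `A i` (`lv_face_cover`, `lv_face_fin`, `lv_face_closed`): `v ∈ interior (A i)`, contradiction to `v ∈ Vbd i`.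
-/
import Mathlib
import Pool.Agent.ETM.LvA

set_option autoImplicit false

open Set Metric Topology Filter
open Pool.JS

namespace Pool.ETM

variable {X : Type*} [MetricSpace X] [CompactSpace X] [Sph X] {c : Ctx X} (h : c.Ok)

include h

theorem lv_face_two {k : ℕ} {U : Set X} (hU : U ∈ Fc (c.E k)) {v : X} (hv : v ∈ c.V k) (hvU : v ∈ closure U) :
    2 ≤ {e | e ∈ c.E k ∧ v ∈ e ∧ e ⊆ closure U}.ncard := by
  have G := h.net.good k
  have hG := G.pg
  obtain ⟨D, hD, hfr⟩ := hG.frontier_edges hU (G.disc U hU)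
  have hvE : v ∈ ⋃₀ c.E k := hG.subV hv
  have hvnU : v ∉ U := fun hvU' => hU.sub hvU' hvE
  have hvf : v ∈ frontier U := by
    rw [frontier, (G.disc U hU).isOpen.interior_eq]
    exact ⟨hvU, hvnU⟩
  have hJ : JorX (⋃₀ D) := hfr ▸ (G.disc U hU).jordan
  have hvD : v ∈ ⋃₀ D := hfr ▸ hvf
  have h2 := hG.jordan_two hD hJ hv hvD
  rw [← h2]
  refine ncard_le_ncard ?_ (hG.finE.subset (fun e he => he.1))
  rintro e ⟨heD, hve⟩
  refine ⟨hD heD, hve, ?_⟩
  intro x hx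
  have : x ∈ frontier U := by
    rw [hfr]
    exact ⟨e, heD, hx⟩
  exact frontier_subset_closure this

/-- if all the closed faces containing `v` are contained in `S` then `v` is in the interior of `S` -/
theorem lv_face_int {k : ℕ} {v : X} {S : Set X} (hS : ∀ F ∈ c.Face k, v ∈ F → F ⊆ S) : v ∈ interior S := by
  have hfin : {F | F ∈ c.Face k ∧ v ∉ F}.Finite := (lv_face_fin h k).subset (fun F hF => hF.1)
  have hcl : IsClosed (⋃₀ {F | F ∈ c.Face k ∧ v ∉ F}) := by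
    rw [sUnion_eq_biUnion]
    exact hfin.isClosed_biUnion (fun F hF => lv_face_closed hF.1)
  rw [mem_interior]
  refine ⟨(⋃₀ {F | F ∈ c.Face k ∧ v ∉ F})ᶜ, ?_, hcl.isOpen_compl, ?_⟩
  · intro x hx
    obtain ⟨F, hF, hxF⟩ := lv_face_cover h k x
    have hvF : v ∈ F := by
      by_contra hvF
      exact hx ⟨F, ⟨hF, hvF⟩, hxF⟩
    exact hS F hF hvF hxF
  · rintro ⟨F, ⟨_, hvF⟩, hvF'⟩
    exact hvF hvF'

/-- 3.4a for `A i` -/
theorem lv_bd {i : ℕ} (hi : i < c.nc) {v : X} (hv : v ∈ c.Vbd i) :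
    {θ | θ ∈ c.Eint i ∧ v ∈ θ}.Subsingleton := by
  have _hi := hi
  rintro θ₁ ⟨h1, hv1⟩ θ₂ ⟨h2, hv2⟩
  by_contra hne
  apply hv.2
  have hvV : v ∈ c.V (c.lev i) := hv.1.1
  have G := h.net.good (c.lev i)
  apply lv_face_int h (k := c.lev i)
  rintro F hF hvF
  obtain ⟨U, hU, rfl⟩ := hF
  have ht := lv_face_two h hU hvV hvF
  have hfin : {e | e ∈ c.E (c.lev i) ∧ v ∈ e}.Finite := G.pg.finE.subset (fun e he => he.1)
  have hT : {e | e ∈ c.E (c.lev i) ∧ v ∈ e ∧ e ⊆ closure U} ⊆ {e | e ∈ c.E (c.lev i) ∧ v ∈ e} :=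
    fun e he => ⟨he.1, he.2.1⟩
  have hP : ({θ₁, θ₂} : Set (Set X)) ⊆ {e | e ∈ c.E (c.lev i) ∧ v ∈ e} := by
    rintro e (he | he)
    · rw [he]; exact ⟨h1.1, hv1⟩
    · have he' : e = θ₂ := he
      rw [he']; exact ⟨h2.1, hv2⟩
  have hnd : ¬ Disjoint {e | e ∈ c.E (c.lev i) ∧ v ∈ e ∧ e ⊆ closure U} ({θ₁, θ₂} : Set (Set X)) := by
    intro hd
    have h3 := ncard_union_eq hd (hfin.subset hT) (hfin.subset hP)
    have h4 : ({e | e ∈ c.E (c.lev i) ∧ v ∈ e ∧ e ⊆ closure U} ∪ {θ₁, θ₂}).ncard ≤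
        {e | e ∈ c.E (c.lev i) ∧ v ∈ e}.ncard := ncard_le_ncard (union_subset hT hP) hfin
    have h5 := G.val v hvV
    have h6 : ({θ₁, θ₂} : Set (Set X)).ncard = 2 := ncard_pair hne
    omega
  rw [not_disjoint_iff] at hnd
  obtain ⟨e, ⟨_, _, heU⟩, he⟩ := hnd
  rcases he with he | he
  · rw [he] at heU
    exact h1.2 (closure U) ⟨U, hU, rfl⟩ heU
  · have he' : e = θ₂ := he
    rw [he'] at heU
    exact h2.2 (closure U) ⟨U, hU, rfl⟩ heU

end Pool.ETM
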