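/-
Project ETM (MP_c7bb65_an), block SPa1, module SaA (difficulty 3): geometry of one edge `θ` of the level `k` network in its
coordinate `c.Q k`. Everything only uses `NetOk`.

Notation: `Q := c.Q k`, `D := c.D k θ`, `S := Q '' θ` (a segment of length `s`, by `Qseg`), `T := thickening (20 ε) S`. By `Qimg`
`Q '' D = T`; `Qinj`: `Q` is injective on `D`; `Qinv`: there is `g` continuous on `T` with `g (Q x) = x` for `x ∈ D`. Consequences:
for `p ∈ T`: `g p ∈ D`, `Q (g p) = p`. A set `{x | x ∈ D ∧ Q x ∈ C}` with `C ⊆ T` is `g '' C`: compact if `C` is compact,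
preconnected if `C` is preconnected (`IsCompact.image_of_continuousOn`, `IsPreconnected.image`).  THIS IS THE TOOL (prove it first).
`θ ⊆ D` is `Dsub`. `ε > 0`, `s ≥ 400 ε > 0` (`εpos`, `sε`). An edge is compact (it is an arc: `ArcX`).

* `net_ends`: `(good k).pg.arc θ` gives `a b ∈ V` with `ArcX θ a b`, `θ ∩ V = {a, b}`; `a ≠ b` because the parametrisation is
  injective on `[0,1]` and `γ 0 = a`, `γ 1 = b`; then `Qseg`.
* `net_mid`: ends `a, b`. A point `y ∈ θ` has `Q y ∈ segment (Q a) (Q b)`, i.e. `Q y = (1-t) Q a + t Q b`, and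
  `‖Q y - Q a‖ = t s`, `‖Q y - Q b‖ = (1-t) s`. So both are `s/2` iff `t = 1/2`; existence: the midpoint is in the segment
  `= Q '' θ`; uniqueness: `Q` is injective on `D ⊇ θ`.
* `net_half`: with `v' ` the other end: `half = {x ∈ θ | ‖Q x - Q v‖ ≤ s/2} = g '' (segment (Q v) (Q y))`, parametrised by
  `t ↦ g ((1-t) Q v + t Q y)`, injective since `Q v ≠ Q y`.
* `net_halves`: `Q x = (1-t) Q v + t Q v'` for `x ∈ θ`: `t ≤ 1/2` or `t ≥ 1/2`, both iff `t = 1/2`.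
* `net_nh`: `nh k θ r = {x ∈ D | infDist (Q x) S ≤ r}`, for `0 ≤ r < 20 ε` this is `g '' (cthickening r S)`; `cthickening r S` is
  compact (closed and bounded in `ℂ`), convex (`Convex.cthickening`), nonempty; `S` is compact and nonempty.
* `net_bm`: the same with `C = closedBall (Q y) r`, `Q y ∈ S` so that `C ⊆ T`.
* `net_bc`: by `ball`: `B k v (20 ε) = {x ∈ D | ‖Q x - Q v‖ < 20 ε}`; so `x ∈ Bc k v r` (some `θ' ∋ v`, `x ∈ D θ'`,
  `‖Q x - Q v‖ ≤ r < 20 ε`) gives `x ∈ B k v (20 ε)` hence `x ∈ D θ`. Compact and connected as before, `C = closedBall (Q v) r`.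
* `net_far`: `v'' ∈ V k`, `v'' ∈ nh k θ (10 ε)`. By `(good k).pg.vert` there is `θ' ∈ E k`, `v'' ∈ θ'`. If `θ' = θ` done. Otherwise
  `two` (with `r = 10 ε`; `v'' ∈ nh k θ' (10 ε)` because the distance is `0`) gives `u ∈ V k`, `u ∈ θ`, `u ∈ θ'`,
  `‖Q v'' - Q u‖ ≤ 15 ε`. If `u = v''` done. Otherwise `Qseg` for `θ'` gives `‖Q v'' - Q u‖ = s ≥ 400 ε`: contradiction.
-/
import Mathlib
import Pool.Agent.ETM.SpDefs
import Pool.Agent.ETM.Bridge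

set_option autoImplicit false

open Set Metric Topology Filter
open Pool.JS

namespace Pool.ETM

variable {X : Type*} [MetricSpace X] {c : Ctx X} (hN : c.NetOk)

/-- parameter on a segment -/
private theorem saA_par {p q z : ℂ} {s : ℝ} (hs : ‖p - q‖ = s) (hz : z ∈ segment ℝ p q) :
    ∃ t : ℝ, 0 ≤ t ∧ t ≤ 1 ∧ z = p + (t : ℂ) * (q - p) ∧ ‖z - p‖ = t * s ∧ ‖z - q‖ = (1 - t) * s := by
  rw [segment_eq_image'] at hz
  obtain ⟨t, ht, rfl⟩ := hz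
  have hs' : ‖q - p‖ = s := by rw [norm_sub_rev]; exact hs
  refine ⟨t, ht.1, ht.2, by simp, ?_, ?_⟩
  · show ‖p + t • (q - p) - p‖ = _
    rw [add_sub_cancel_left, norm_smul, hs', Real.norm_eq_abs, abs_of_nonneg ht.1]
  · show ‖p + t • (q - p) - q‖ = _
    have e : p + t • (q - p) - q = (1 - t) • (p - q) := by
      rw [sub_smul, one_smul, smul_sub, smul_sub]
      ring
    rw [e, norm_smul, hs, Real.norm_eq_abs, abs_of_nonneg (by linarith [ht.2])]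

private theorem saA_seg {p q : ℂ} {t : ℝ} (h0 : 0 ≤ t) (h1 : t ≤ 1) : p + (t : ℂ) * (q - p) ∈ segment ℝ p q := by
  rw [segment_eq_image']
  exact ⟨t, ⟨h0, h1⟩, by simp⟩

include hN

theorem net_pos : 0 < c.ε ∧ 0 < c.s ∧ 400 * c.ε ≤ c.s := by
  have h1 := hN.εpos
  have h2 := hN.sε
  exact ⟨h1, by linarith, h2⟩

/-- sets given in the coordinate -/
theorem net_img {k : ℕ} {θ : Set X} (hθ : θ ∈ c.E k) {C : Set ℂ} (hC : C ⊆ thickening (20 * c.ε) (c.Q k '' θ)) :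
    c.Q k '' {x | x ∈ c.D k θ ∧ c.Q k x ∈ C} = C ∧ (IsCompact C → IsCompact {x | x ∈ c.D k θ ∧ c.Q k x ∈ C}) ∧
      (IsPreconnected C → IsPreconnected {x | x ∈ c.D k θ ∧ c.Q k x ∈ C}) := by
  obtain ⟨g, hg, hgx⟩ := hN.Qinv k θ hθ
  have himg := hN.Qimg k θ hθ
  have h1 : c.Q k '' {x | x ∈ c.D k θ ∧ c.Q k x ∈ C} = C := by
    apply Subset.antisymm
    · rintro _ ⟨x, hx, rfl⟩
      exact hx.2
    · intro p hp
      have h2 := hC hp
      rw [← himg] at h2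
      obtain ⟨x, hx, rfl⟩ := h2
      exact ⟨x, ⟨hx, hp⟩, rfl⟩
  have h2 : {x | x ∈ c.D k θ ∧ c.Q k x ∈ C} = g '' C := by
    apply Subset.antisymm
    · rintro x ⟨hx, hxC⟩
      exact ⟨c.Q k x, hxC, hgx x hx⟩
    · rintro _ ⟨p, hp, rfl⟩
      have h3 := hC hp
      rw [← himg] at h3
      obtain ⟨x, hx, rfl⟩ := h3
      rw [hgx x hx]
      exact ⟨hx, hp⟩
  refine ⟨h1, ?_, ?_⟩
  · intro h3
    rw [h2]
    exact h3.image_of_continuousOn (hg.mono hC)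
  · intro h3
    rw [h2]
    exact h3.image g (hg.mono hC)

theorem net_ends {k : ℕ} {θ : Set X} (hθ : θ ∈ c.E k) : ∃ a ∈ c.V k, ∃ b ∈ c.V k, a ≠ b ∧ a ∈ θ ∧ b ∈ θ ∧ ArcX θ a b ∧
    (∀ v ∈ c.V k, v ∈ θ → v = a ∨ v = b) ∧ c.Q k '' θ = segment ℝ (c.Q k a) (c.Q k b) ∧ ‖c.Q k a - c.Q k b‖ = c.s := by
  obtain ⟨a, ha, b, hb, harc, hV⟩ := (hN.good k).pg.arc θ hθ
  have hab : a ≠ b := by
    obtain ⟨γ, -, hinj, -, h0, h1⟩ := harc
    intro h
    rw [← h0, ← h1] at h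
    exact zero_ne_one (hinj (left_mem_Icc.2 zero_le_one) (right_mem_Icc.2 zero_le_one) h)
  have haθ : a ∈ θ := by
    have : a ∈ θ ∩ c.V k := by rw [hV]; exact Or.inl rfl
    exact this.1
  have hbθ : b ∈ θ := by
    have : b ∈ θ ∩ c.V k := by rw [hV]; exact Or.inr rfl
    exact this.1
  obtain ⟨h1, h2⟩ := hN.Qseg k θ hθ a ha b hb hab haθ hbθ
  refine ⟨a, ha, b, hb, hab, haθ, hbθ, harc, ?_, h1, h2⟩
  intro v hv hvθ
  have : v ∈ θ ∩ c.V k := ⟨hvθ, hv⟩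
  rw [hV] at this
  exact this

/-- the other end -/
theorem net_other {k : ℕ} {θ : Set X} (hθ : θ ∈ c.E k) {v : X} (hv : v ∈ c.V k) (hvθ : v ∈ θ) : ∃ v' ∈ c.V k, v' ∈ θ ∧
    v' ≠ v ∧ ArcX θ v v' ∧ (∀ u ∈ c.V k, u ∈ θ → u = v ∨ u = v') ∧ c.Q k '' θ = segment ℝ (c.Q k v) (c.Q k v') ∧
    ‖c.Q k v - c.Q k v'‖ = c.s := by
  obtain ⟨a, ha, b, hb, hab, haθ, hbθ, harc, hV, h1, h2⟩ := net_ends hN hθ
  rcases hV v hv hvθ with h | h
  · subst h
    exact ⟨b, hb, hbθ, hab.symm, harc, hV, h1, h2⟩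
  · subst h
    have h3 : ArcX θ v a := by
      obtain ⟨γ, g1, g2, g3, g4, g5⟩ := harc
      have hm : ∀ t ∈ Icc (0 : ℝ) 1, 1 - t ∈ Icc (0 : ℝ) 1 := fun t ht => ⟨by linarith [ht.2], by linarith [ht.1]⟩
      refine ⟨fun t => γ (1 - t), ?_, ?_, ?_, ?_, ?_⟩
      · exact g1.comp (continuousOn_const.sub continuousOn_id) hm
      · intro t ht t' ht' he
        have := g2 (hm t ht) (hm t' ht') he
        linarith
      · apply Subset.antisymm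
        · rintro _ ⟨t, ht, rfl⟩
          rw [← g3]
          exact mem_image_of_mem γ (hm t ht)
        · intro x hx
          rw [← g3] at hx
          obtain ⟨t, ht, rfl⟩ := hx
          exact ⟨1 - t, hm t ht, by show γ (1 - (1 - t)) = γ t; rw [sub_sub_cancel]⟩
      · show γ (1 - 0) = v
        rw [sub_zero, g5]
      · show γ (1 - 1) = a
        rw [sub_self, g4]
    refine ⟨a, ha, haθ, hab, h3, fun u hu huθ => (hV u hu huθ).symm, ?_, ?_⟩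
    · rw [h1, segment_symm]
    · rw [norm_sub_rev, h2]

theorem net_mid {k : ℕ} {θ : Set X} (hθ : θ ∈ c.E k) : ∃ y, c.mid k θ = {y} ∧ y ∈ θ ∧
    ∀ v ∈ c.V k, v ∈ θ → ‖c.Q k y - c.Q k v‖ = c.s / 2 := by
  obtain ⟨a, ha, b, hb, hab, haθ, hbθ, harc, hV, h1, h2⟩ := net_ends hN hθ
  obtain ⟨hε, hs, hsε⟩ := net_pos hN
  have hm : c.Q k a + ((1 / 2 : ℝ) : ℂ) * (c.Q k b - c.Q k a) ∈ c.Q k '' θ := by
    rw [h1]
    exact saA_seg (by norm_num) (by norm_num)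
  obtain ⟨y, hy, hye⟩ := hm
  have hya : ‖c.Q k y - c.Q k a‖ = c.s / 2 := by
    rw [hye, add_sub_cancel_left, norm_mul, Complex.norm_real, norm_sub_rev, h2, Real.norm_eq_abs,
      abs_of_pos (by norm_num)]
    ring
  have hyb : ‖c.Q k y - c.Q k b‖ = c.s / 2 := by
    have e : c.Q k y - c.Q k b = ((1 / 2 : ℝ) : ℂ) * (c.Q k a - c.Q k b) := by
      rw [hye]
      push_cast
      ring
    rw [e, norm_mul, Complex.norm_real, h2, Real.norm_eq_abs, abs_of_pos (by norm_num)]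
    ring
  have hyv : ∀ v ∈ c.V k, v ∈ θ → ‖c.Q k y - c.Q k v‖ = c.s / 2 := by
    intro v hv hvθ
    rcases hV v hv hvθ with h | h
    · rw [h]; exact hya
    · rw [h]; exact hyb
  refine ⟨y, ?_, hy, hyv⟩
  apply Subset.antisymm
  · rintro x ⟨hx, hxv⟩
    have hQx : c.Q k x ∈ segment ℝ (c.Q k a) (c.Q k b) := by
      rw [← h1]
      exact mem_image_of_mem _ hx
    obtain ⟨t, ht0, ht1, hte, hta, htb⟩ := saA_par h2 hQx
    have h3 := hxv a ha haθ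
    rw [hta] at h3
    have ht : t = 1 / 2 := by
      have : (t - 1 / 2) * c.s = 0 := by linarith
      rcases mul_eq_zero.1 this with h4 | h4
      · linarith
      · exact absurd h4 hs.ne'
    rw [ht, ← hye] at hte
    exact hN.Qinj k θ hθ (hN.Dsub k θ hθ hx) (hN.Dsub k θ hθ hy) hte
  · rintro x hx
    rw [mem_singleton_iff] at hx
    rw [hx]
    exact ⟨hy, hyv⟩

theorem net_half {k : ℕ} {θ : Set X} (hθ : θ ∈ c.E k) {v : X} (hv : v ∈ c.V k) (hvθ : v ∈ θ) {y : X} (hy : y ∈ c.mid k θ) :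
    ArcX (c.half k θ v) v y ∧ c.half k θ v ⊆ θ ∧ y ∈ c.half k θ v ∧ v ∈ c.half k θ v := by
  obtain ⟨v', hv', hvθ', hne, harc, hV, h1, h2⟩ := net_other hN hθ hv hvθ
  obtain ⟨hε, hs, hsε⟩ := net_pos hN
  obtain ⟨g, hg, hgx⟩ := hN.Qinv k θ hθ
  have himg := hN.Qimg k θ hθ
  have hsub := hN.Dsub k θ hθ
  have hST : c.Q k '' θ ⊆ thickening (20 * c.ε) (c.Q k '' θ) := self_subset_thickening (by positivity) _
  have hseg : ∀ t : ℝ, 0 ≤ t → t ≤ 1 → c.Q k v + (t : ℂ) * (c.Q k v' - c.Q k v) ∈ c.Q k '' θ := by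
    intro t ht0 ht1
    rw [h1]
    exact saA_seg ht0 ht1
  have hd : c.Q k v' - c.Q k v ≠ 0 := by
    intro h
    rw [norm_sub_rev, h, norm_zero] at h2
    exact hs.ne h2
  have hhalf : ∀ t ∈ Icc (0 : ℝ) 1, 0 ≤ t / 2 ∧ t / 2 ≤ 1 := fun t ht => ⟨by linarith [ht.1], by linarith [ht.2]⟩
  have hyQ : c.Q k y = c.Q k v + ((1 / 2 : ℝ) : ℂ) * (c.Q k v' - c.Q k v) := by
    have hQy : c.Q k y ∈ segment ℝ (c.Q k v) (c.Q k v') := by
      rw [← h1]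
      exact mem_image_of_mem _ hy.1
    obtain ⟨t, ht0, ht1, hte, hta, htb⟩ := saA_par h2 hQy
    have h3 := hy.2 v hv hvθ
    rw [hta] at h3
    have ht : t = 1 / 2 := by
      have : (t - 1 / 2) * c.s = 0 := by linarith
      rcases mul_eq_zero.1 this with h4 | h4
      · linarith
      · exact absurd h4 hs.ne'
    rw [hte, ht]
  refine ⟨⟨fun t => g (c.Q k v + ((t / 2 : ℝ) : ℂ) * (c.Q k v' - c.Q k v)), ?_, ?_, ?_, ?_, ?_⟩, fun x hx => hx.1,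
    ⟨hy.1, (hy.2 v hv hvθ).le⟩, ⟨hvθ, by rw [sub_self, norm_zero]; linarith⟩⟩
  · refine hg.comp ?_ ?_
    · have : Continuous fun t : ℝ => c.Q k v + ((t / 2 : ℝ) : ℂ) * (c.Q k v' - c.Q k v) := by fun_prop
      exact this.continuousOn
    · intro t ht
      exact hST (hseg _ (hhalf t ht).1 (hhalf t ht).2)
  · intro t ht t' ht' he
    obtain ⟨x, hx, hxe⟩ := hseg _ (hhalf t ht).1 (hhalf t ht).2
    obtain ⟨x', hx', hxe'⟩ := hseg _ (hhalf t' ht').1 (hhalf t' ht').2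
    have he' : g (c.Q k v + ((t / 2 : ℝ) : ℂ) * (c.Q k v' - c.Q k v)) =
      g (c.Q k v + ((t' / 2 : ℝ) : ℂ) * (c.Q k v' - c.Q k v)) := he
    rw [← hxe, ← hxe', hgx x (hsub hx), hgx x' (hsub hx')] at he'
    rw [he', hxe'] at hxe
    have h3 : (((t' / 2 : ℝ) : ℂ) - ((t / 2 : ℝ) : ℂ)) * (c.Q k v' - c.Q k v) = 0 := by linear_combination hxe
    rcases mul_eq_zero.1 h3 with h4 | h4
    · rw [← Complex.ofReal_sub, Complex.ofReal_eq_zero] at h4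
      linarith
    · exact absurd h4 hd
  · apply Subset.antisymm
    · rintro _ ⟨t, ht, rfl⟩
      obtain ⟨x, hx, hxe⟩ := hseg _ (hhalf t ht).1 (hhalf t ht).2
      show g (c.Q k v + ((t / 2 : ℝ) : ℂ) * (c.Q k v' - c.Q k v)) ∈ _
      rw [← hxe, hgx x (hsub hx)]
      refine ⟨hx, ?_⟩
      rw [hxe, add_sub_cancel_left, norm_mul, Complex.norm_real, norm_sub_rev, h2, Real.norm_eq_abs,
        abs_of_nonneg (hhalf t ht).1]
      nlinarith [ht.2]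
    · rintro x ⟨hx, hxn⟩
      have hQx : c.Q k x ∈ segment ℝ (c.Q k v) (c.Q k v') := by
        rw [← h1]
        exact mem_image_of_mem _ hx
      obtain ⟨t, ht0, ht1, hte, hta, htb⟩ := saA_par h2 hQx
      rw [hta] at hxn
      have ht : t ≤ 1 / 2 := by
        by_contra hc
        have := mul_lt_mul_of_pos_right (not_le.1 hc) hs
        linarith
      refine ⟨2 * t, ⟨by linarith, by linarith⟩, ?_⟩
      show g (c.Q k v + ((2 * t / 2 : ℝ) : ℂ) * (c.Q k v' - c.Q k v)) = x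
      rw [mul_div_cancel_left₀ t two_ne_zero, ← hte, hgx x (hsub hx)]
  · show g (c.Q k v + ((0 / 2 : ℝ) : ℂ) * (c.Q k v' - c.Q k v)) = v
    rw [zero_div, Complex.ofReal_zero, zero_mul, add_zero, hgx v (hsub hvθ)]
  · show g (c.Q k v + ((1 / 2 : ℝ) : ℂ) * (c.Q k v' - c.Q k v)) = y
    rw [← hyQ, hgx y (hsub hy.1)]

theorem net_halves {k : ℕ} {θ : Set X} (hθ : θ ∈ c.E k) {v v' : X} (hv : v ∈ c.V k) (hvθ : v ∈ θ) (hv' : v' ∈ c.V k)
    (hvθ' : v' ∈ θ) (hne : v ≠ v') : c.half k θ v ∪ c.half k θ v' = θ ∧ c.half k θ v ∩ c.half k θ v' = c.mid k θ := by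
  obtain ⟨u, hu, huθ, hne', harc, hV, h1, h2⟩ := net_other hN hθ hv hvθ
  obtain ⟨hε, hs, hsε⟩ := net_pos hN
  have hu' : v' = u := by
    rcases hV v' hv' hvθ' with h | h
    · exact absurd h.symm hne
    · exact h
  rw [← hu'] at hV h1 h2
  have hp : ∀ x ∈ θ, ∃ t : ℝ, 0 ≤ t ∧ t ≤ 1 ∧ ‖c.Q k x - c.Q k v‖ = t * c.s ∧ ‖c.Q k x - c.Q k v'‖ = (1 - t) * c.s := by
    intro x hx
    have hQx : c.Q k x ∈ segment ℝ (c.Q k v) (c.Q k v') := by
      rw [← h1]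
      exact mem_image_of_mem _ hx
    obtain ⟨t, ht0, ht1, hte, hta, htb⟩ := saA_par h2 hQx
    exact ⟨t, ht0, ht1, hta, htb⟩
  constructor
  · apply Subset.antisymm
    · rintro x (hx | hx)
      · exact hx.1
      · exact hx.1
    · intro x hx
      obtain ⟨t, ht0, ht1, hta, htb⟩ := hp x hx
      by_cases ht : t ≤ 1 / 2
      · refine Or.inl ⟨hx, ?_⟩
        rw [hta]
        nlinarith
      · refine Or.inr ⟨hx, ?_⟩
        rw [htb]
        nlinarith [not_le.1 ht]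
  · apply Subset.antisymm
    · rintro x ⟨hx, hx'⟩
      obtain ⟨t, ht0, ht1, hta, htb⟩ := hp x hx.1
      have e1 := hx.2
      have e2 := hx'.2
      rw [hta] at e1
      rw [htb] at e2
      have ht : t * c.s = c.s / 2 := by linarith
      refine ⟨hx.1, fun w hw hwθ => ?_⟩
      rcases hV w hw hwθ with h | h
      · rw [h, hta, ht]
      · rw [h, htb]
        linarith
    · rintro x ⟨hx, hxv⟩
      exact ⟨⟨hx, (hxv v hv hvθ).le⟩, ⟨hx, (hxv v' hv' hvθ').le⟩⟩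

theorem net_nh {k : ℕ} {θ : Set X} (hθ : θ ∈ c.E k) {r : ℝ} (h0 : 0 ≤ r) (hr : r < 20 * c.ε) :
    IsCompact (c.nh k θ r) ∧ IsConnected (c.nh k θ r) ∧ c.Q k '' c.nh k θ r = cthickening r (c.Q k '' θ) ∧
      θ ⊆ c.nh k θ r := by
  obtain ⟨a, ha, b, hb, hab, haθ, hbθ, harc, hV, h1, h2⟩ := net_ends hN hθ
  obtain ⟨hε, hs, hsε⟩ := net_pos hN
  have hne : (c.Q k '' θ).Nonempty := ⟨c.Q k a, mem_image_of_mem _ haθ⟩
  have hmem : ∀ p : ℂ, infDist p (c.Q k '' θ) ≤ r ↔ p ∈ cthickening r (c.Q k '' θ) := by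
    intro p
    rw [mem_cthickening_iff, infDist]
    exact (ENNReal.le_ofReal_iff_toReal_le (infEDist_ne_top hne) h0).symm
  have hnh : c.nh k θ r = {x | x ∈ c.D k θ ∧ c.Q k x ∈ cthickening r (c.Q k '' θ)} := by
    unfold Ctx.nh
    ext x
    exact and_congr_right fun _ => hmem _
  have hC : cthickening r (c.Q k '' θ) ⊆ thickening (20 * c.ε) (c.Q k '' θ) :=
    cthickening_subset_thickening' (by positivity) hr _
  obtain ⟨i1, i2, i3⟩ := net_img hN hθ hC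
  have hcomp : IsCompact (c.Q k '' θ) := by
    obtain ⟨γ, g1, -, g3, -, -⟩ := harc
    have h3 : IsCompact θ := by
      rw [← g3]
      exact isCompact_Icc.image_of_continuousOn g1
    exact h3.image_of_continuousOn ((hN.Qcont k θ hθ).mono (hN.Dsub k θ hθ))
  have hconv : Convex ℝ (c.Q k '' θ) := by
    rw [h1]
    exact convex_segment _ _
  have hθs : θ ⊆ c.nh k θ r := by
    intro x hx
    refine ⟨hN.Dsub k θ hθ hx, ?_⟩
    rw [infDist_zero_of_mem (mem_image_of_mem _ hx)]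
    exact h0
  refine ⟨?_, ⟨⟨a, hθs haθ⟩, ?_⟩, ?_, hθs⟩
  · rw [hnh]
    exact i2 hcomp.cthickening
  · rw [hnh]
    exact i3 (hconv.cthickening r).isPreconnected
  · rw [hnh]
    exact i1

private theorem saA_ball {k : ℕ} {θ : Set X} (hθ : θ ∈ c.E k) {y : X} (hy : y ∈ θ) {r : ℝ} (h0 : 0 ≤ r)
    (hr : r < 20 * c.ε) : IsCompact {x | x ∈ c.D k θ ∧ ‖c.Q k x - c.Q k y‖ ≤ r} ∧
      IsConnected {x | x ∈ c.D k θ ∧ ‖c.Q k x - c.Q k y‖ ≤ r} ∧ y ∈ {x | x ∈ c.D k θ ∧ ‖c.Q k x - c.Q k y‖ ≤ r} ∧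
      {x | x ∈ c.D k θ ∧ ‖c.Q k x - c.Q k y‖ ≤ r} ⊆ c.nh k θ r := by
  have hC : closedBall (c.Q k y) r ⊆ thickening (20 * c.ε) (c.Q k '' θ) := by
    intro p hp
    rw [mem_closedBall] at hp
    rw [mem_thickening_iff]
    exact ⟨c.Q k y, mem_image_of_mem _ hy, by linarith⟩
  have he : {x | x ∈ c.D k θ ∧ ‖c.Q k x - c.Q k y‖ ≤ r} = {x | x ∈ c.D k θ ∧ c.Q k x ∈ closedBall (c.Q k y) r} := by
    ext x
    exact and_congr_right fun _ => by rw [mem_closedBall, dist_eq_norm]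
  obtain ⟨i1, i2, i3⟩ := net_img hN hθ hC
  have hym : y ∈ {x | x ∈ c.D k θ ∧ ‖c.Q k x - c.Q k y‖ ≤ r} :=
    ⟨hN.Dsub k θ hθ hy, by rw [sub_self, norm_zero]; exact h0⟩
  refine ⟨?_, ⟨⟨y, hym⟩, ?_⟩, hym, ?_⟩
  · rw [he]
    exact i2 (isCompact_closedBall _ _)
  · rw [he]
    exact i3 (convex_closedBall _ _).isPreconnected
  · rintro x ⟨hx, hxr⟩
    refine ⟨hx, ?_⟩
    refine (infDist_le_dist_of_mem (mem_image_of_mem _ hy)).trans ?_
    rw [dist_eq_norm]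
    exact hxr

theorem net_bm {k : ℕ} {θ : Set X} (hθ : θ ∈ c.E k) {y : X} (hy : y ∈ c.mid k θ) {r : ℝ} (h0 : 0 ≤ r) (hr : r < 20 * c.ε) :
    IsCompact (c.Bm k θ r) ∧ IsConnected (c.Bm k θ r) ∧ y ∈ c.Bm k θ r ∧ c.Bm k θ r ⊆ c.nh k θ r ∧
      c.Bm k θ r = {x | x ∈ c.D k θ ∧ ‖c.Q k x - c.Q k y‖ ≤ r} := by
  obtain ⟨y', hm, -, -⟩ := net_mid hN hθ
  have hyy : y = y' := by
    rw [hm] at hy
    exact hy
  have he : c.Bm k θ r = {x | x ∈ c.D k θ ∧ ‖c.Q k x - c.Q k y‖ ≤ r} := by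
    unfold Ctx.Bm
    rw [hm, ← hyy]
    ext x
    constructor
    · rintro ⟨hx, z, hz, hxz⟩
      rw [mem_singleton_iff] at hz
      rw [hz] at hxz
      exact ⟨hx, hxz⟩
    · rintro ⟨hx, hxy⟩
      exact ⟨hx, y, rfl, hxy⟩
  obtain ⟨b1, b2, b3, b4⟩ := saA_ball hN hθ hy.1 h0 hr
  rw [he]
  exact ⟨b1, b2, b3, b4, rfl⟩

theorem net_bc {k : ℕ} {θ : Set X} (hθ : θ ∈ c.E k) {v : X} (hv : v ∈ c.V k) (hvθ : v ∈ θ) {r : ℝ} (h0 : 0 ≤ r)
    (hr : r < 20 * c.ε) : IsCompact (c.Bc k v r) ∧ IsConnected (c.Bc k v r) ∧ v ∈ c.Bc k v r ∧ c.Bc k v r ⊆ c.nh k θ r ∧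
      c.Bc k v r = {x | x ∈ c.D k θ ∧ ‖c.Q k x - c.Q k v‖ ≤ r} := by
  have he : c.Bc k v r = {x | x ∈ c.D k θ ∧ ‖c.Q k x - c.Q k v‖ ≤ r} := by
    apply Subset.antisymm
    · rintro x ⟨θ', hθ', hvθ', hx, hxr⟩
      have h1 : x ∈ c.B k v (20 * c.ε) := ⟨θ', hθ', hvθ', hx, lt_of_le_of_lt hxr hr⟩
      rw [hN.ball k θ hθ v hv hvθ] at h1
      exact ⟨h1.1, hxr⟩
    · rintro x ⟨hx, hxr⟩
      exact ⟨θ, hθ, hvθ, hx, hxr⟩
  obtain ⟨b1, b2, b3, b4⟩ := saA_ball hN hθ hvθ h0 hr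
  rw [he]
  exact ⟨b1, b2, b3, b4, rfl⟩

theorem net_far {k : ℕ} {θ : Set X} (hθ : θ ∈ c.E k) {v : X} (hv : v ∈ c.V k) (hvθ : v ∈ c.nh k θ (10 * c.ε)) : v ∈ θ := by
  obtain ⟨hε, hs, hsε⟩ := net_pos hN
  obtain ⟨θ', hθ', hvθ'⟩ := (hN.good k).pg.vert v hv
  by_cases he : θ = θ'
  · rw [he]
    exact hvθ'
  · have h1 : v ∈ c.nh k θ' (10 * c.ε) := by
      refine ⟨hN.Dsub k θ' hθ' hvθ', ?_⟩
      rw [infDist_zero_of_mem (mem_image_of_mem _ hvθ')]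
      positivity
    obtain ⟨u, hu, huθ, huθ', hd⟩ := hN.two k θ hθ θ' hθ' he (10 * c.ε) le_rfl v ⟨hvθ, h1⟩
    by_cases huv : v = u
    · rw [huv]
      exact huθ
    · have h2 := (hN.Qseg k θ' hθ' v hv u hu huv hvθ' huθ').2
      rw [h2] at hd
      linarith

end Pool.ETM
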