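/-
Project ETM (MP_c7bb65_an), block SPa1, module SaB (difficulty 3): faces, stars, the sets `A i`, `R3 i`, `So`.

* `net_faces`: `PG.faces` for `(good k).pg`, `(good k).ne`, `PG.noCut_of_discs (good k).pg (good k).disc`. If `θ ⊆ closure U` with
  `U ∈ Fc (E k)` then `θ ⊆ frontier U`: `U` is open, `closure U = U ∪ frontier U`, and `U` is disjoint from `⋃₀ E k ⊇ θ`
  (`FaceX.sub`).
* `sub_St`: a point `x ∈ S` lies in a closed face `F` (`PG.cover`), `F` meets `S` in `x`, so `F ⊆ St S`. `St_mono` clear.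
  `A_sub_R3`: three times `sub_St`.
* `R3_of_Eint`: `net_faces` gives a face `F ⊇ θ`; by the definition of `Eint` `F ⊆ A i`; so `θ ⊆ A i ⊆ R3 i`.
* `R3_of_A`: `v ∈ A i`, `v ∈ θ`, `θ ∈ E (lev i)`: `θ ⊆ F` for a face `F` (`net_faces`), `F` meets `A i` in `v`, so
  `F ⊆ St (A i) ⊆ R3 i` (`sub_St` twice, `St_mono`).
* `not_int_A`: put `k = lev i`, `𝓕 = {F ∈ Face k | ∃ x ∈ F, w/4 ≤ a i x}`, so `A i = ⋃₀ 𝓕`. Let `x ∉ interior (A i)`. The set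
  `N = (⋃ {closure U | U ∈ Fc, x ∉ closure U})ᶜ` is open (finitely many faces, `Good.finF`), contains `x`, and every `y ∈ N` lies
  in `closure U` for a face `U` (`PG.cover`) with `x ∈ closure U`. If all faces `U` with `x ∈ closure U` had `closure U ∈ 𝓕`,
  then `N ⊆ A i` and `x ∈ interior (A i)`: contradiction. So there is `U ∈ Fc`, `x ∈ closure U`, `closure U ∉ 𝓕`. Then
  `Disjoint U (A i)`: `y ∈ U ∩ closure U'`, `closure U' ∈ 𝓕`: `U' ≠ U`, `U` open, so `U` meets `U'`: contradicts `Fc.disj`.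
  Then the open set `interior (A i)` is disjoint from `closure U`.
* `mem_So_of`: unfold `So`, `OO`: `x ∉ interior (A j)` for all `j < nc`, `x ∉ interior (T nhole)`.
* `mem_So_near`: `x ∉ interior (A i)` and `x ∈ R3 i`, or `x ∈ D θ` with `θ ∈ E (lev i)`, `θ ⊆ R3 i`: `lv_R3` gives `x ∉ A j`
  (`j ≠ i`) and `x ∉ T nhole`.
* `Vbd_So`: `v ∈ Vbd i`: `v ∈ A i ⊆ R3 i`, not in `interior (A i)`: `mem_So_near`.
-/
import Mathlib
import Pool.Agent.ETM.IfLv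
import Pool.Agent.ETM.SaA

set_option autoImplicit false

open Set Metric Topology Filter
open Pool.JS

namespace Pool.ETM

variable {X : Type*} [MetricSpace X] [CompactSpace X] [Sph X] {c : Ctx X}

theorem net_faces (hN : c.NetOk) {k : ℕ} {θ : Set X} (hθ : θ ∈ c.E k) : ∃ U₁ ∈ Fc (c.E k), ∃ U₂ ∈ Fc (c.E k), U₁ ≠ U₂ ∧
    θ ⊆ frontier U₁ ∧ θ ⊆ frontier U₂ ∧ ∀ U ∈ Fc (c.E k), θ ⊆ closure U → U = U₁ ∨ U = U₂ := by
  have hG := hN.good k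
  obtain ⟨U₁, hU₁, U₂, hU₂, hne, h1, h2, h3⟩ := (hG.pg.faces hG.ne (noCut_of_discs hG.pg hG.disc)).2.2 θ hθ
  refine ⟨U₁, hU₁, U₂, hU₂, hne, h1, h2, fun U hU hs => h3 U hU ?_⟩
  intro x hx
  rw [frontier, (Fc.isOpen hG.pg hU).interior_eq]
  exact ⟨hs hx, fun hxU => FaceX.sub hU hxU ⟨θ, hθ, hx⟩⟩

theorem sub_St (hN : c.NetOk) (k : ℕ) (S : Set X) : S ⊆ c.St k S := by
  intro x hx
  have hG := hN.good k
  obtain ⟨U, hU, hxU⟩ := hG.pg.cover hG.disc x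
  exact ⟨closure U, ⟨⟨U, hU, rfl⟩, ⟨x, hxU, hx⟩⟩, hxU⟩

theorem St_mono (k : ℕ) {S S' : Set X} (hS : S ⊆ S') : c.St k S ⊆ c.St k S' := by
  rintro x ⟨F, ⟨hF, y, hy⟩, hx⟩
  exact ⟨F, ⟨hF, y, hy.1, hS hy.2⟩, hx⟩

theorem A_sub_R3 (hN : c.NetOk) (i : ℕ) : c.A i ⊆ c.R3 i :=
  ((sub_St hN (c.lev i) _).trans (sub_St hN (c.lev i) _)).trans (sub_St hN (c.lev i) _)

theorem R3_of_Eint (hN : c.NetOk) {i : ℕ} {θ : Set X} (hθ : θ ∈ c.Eint i) :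
    θ ∈ c.E (c.lev i) ∧ θ ⊆ c.A i ∧ θ ⊆ c.R3 i := by
  obtain ⟨U₁, hU₁, -, -, -, h1, -, -⟩ := net_faces hN hθ.1
  have hA : θ ⊆ c.A i := fun x hx =>
    hθ.2 _ ⟨U₁, hU₁, rfl⟩ (h1.trans frontier_subset_closure) (frontier_subset_closure (h1 hx))
  exact ⟨hθ.1, hA, hA.trans (A_sub_R3 hN i)⟩

theorem R3_of_A (hN : c.NetOk) {i : ℕ} {θ : Set X} (hθ : θ ∈ c.E (c.lev i)) {v : X} (hv : v ∈ c.A i) (hvθ : v ∈ θ) :
    θ ⊆ c.R3 i := by
  obtain ⟨U₁, hU₁, -, -, -, h1, -, -⟩ := net_faces hN hθ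
  have h2 : θ ⊆ c.St (c.lev i) (c.A i) := fun x hx =>
    ⟨closure U₁, ⟨⟨U₁, hU₁, rfl⟩, v, frontier_subset_closure (h1 hvθ), hv⟩, frontier_subset_closure (h1 hx)⟩
  exact h2.trans ((sub_St hN _ _).trans (sub_St hN _ _))

theorem not_int_A (hN : c.NetOk) {i : ℕ} {x : X} (hx : x ∉ interior (c.A i)) : ∃ U ∈ Fc (c.E (c.lev i)), x ∈ closure U ∧
    Disjoint U (c.A i) ∧ Disjoint (closure U) (interior (c.A i)) := by
  have hG := hN.good (c.lev i)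
  have hWf : {U | U ∈ Fc (c.E (c.lev i)) ∧ x ∉ closure U}.Finite := hG.finF.subset (fun U hU => hU.1)
  have hcl : IsClosed (⋃ U ∈ {U | U ∈ Fc (c.E (c.lev i)) ∧ x ∉ closure U}, closure U) :=
    hWf.isClosed_biUnion (fun U _ => isClosed_closure)
  by_cases hall : ∀ U ∈ Fc (c.E (c.lev i)), x ∈ closure U → closure U ⊆ c.A i
  · exfalso
    apply hx
    rw [mem_interior]
    refine ⟨(⋃ U ∈ {U | U ∈ Fc (c.E (c.lev i)) ∧ x ∉ closure U}, closure U)ᶜ, ?_, hcl.isOpen_compl, ?_⟩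
    · intro y hy
      obtain ⟨U, hU, hyU⟩ := hG.pg.cover hG.disc y
      have hxU : x ∈ closure U := by
        by_contra hxU
        exact hy (mem_biUnion (show U ∈ {U | U ∈ Fc (c.E (c.lev i)) ∧ x ∉ closure U} from ⟨hU, hxU⟩) hyU)
      exact hall U hU hxU hyU
    · intro hxW
      simp only [mem_iUnion] at hxW
      obtain ⟨U, hU, hxU⟩ := hxW
      exact hU.2 hxU
  · push Not at hall
    obtain ⟨U, hU, hxU, hnA⟩ := hall
    have hd : Disjoint U (c.A i) := by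
      rw [Set.disjoint_left]
      rintro y hyU ⟨F', ⟨⟨U', hU', rfl⟩, hw⟩, hyF'⟩
      obtain ⟨z, hzU, hzU'⟩ := mem_closure_iff.mp hyF' U (Fc.isOpen hG.pg hU) hyU
      have hUU : U = U' := by
        by_contra hne
        exact Set.disjoint_left.mp (Fc.disj hU hU' hne) hzU hzU'
      subst hUU
      exact hnA (subset_sUnion_of_mem ⟨⟨U, hU, rfl⟩, hw⟩)
    exact ⟨U, hU, hxU, hd, (hd.mono_right interior_subset).closure_left isOpen_interior⟩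

theorem mem_So_iff {x : X} : x ∈ c.So ↔ (∀ j < c.nc, x ∉ interior (c.A j)) ∧ x ∉ c.OT := by
  simp only [Ctx.So, Ctx.OO, mem_compl_iff, mem_union, mem_iUnion, not_or, not_exists]

theorem mem_So_near (h : c.Ok) {i : ℕ} (hi : i < c.nc) {x : X} (hx : x ∉ interior (c.A i))
    (hx' : x ∈ c.R3 i ∨ ∃ θ ∈ c.E (c.lev i), θ ⊆ c.R3 i ∧ x ∈ c.D (c.lev i) θ) : x ∈ c.So := by
  obtain ⟨-, h2, h3⟩ := lv_R3 h hi hx'
  rw [mem_So_iff]
  refine ⟨fun j hj => ?_, fun h' => h3 (interior_subset h')⟩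
  by_cases hji : j = i
  · rw [hji]
    exact hx
  · exact fun h' => h2 j hj hji (interior_subset h')

theorem Vbd_So (h : c.Ok) {i : ℕ} (hi : i < c.nc) {v : X} (hv : v ∈ c.Vbd i) : v ∈ c.So ∧ v ∈ c.V (c.lev i) :=
  ⟨mem_So_near h hi hv.2 (Or.inl (A_sub_R3 h.net i hv.1.2)), hv.1.1⟩

/-- an end of an interior edge is an interior vertex or a boundary vertex -/
theorem Vint_or_Vbd (hN : c.NetOk) {i : ℕ} {θ : Set X} (hθ : θ ∈ c.Eint i) {v : X} (hv : v ∈ c.V (c.lev i)) (hvθ : v ∈ θ) :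
    (v ∈ c.Vint i ∧ v ∉ c.Vbd i) ∨ (v ∈ c.Vbd i ∧ v ∉ c.Vint i) := by
  by_cases hi : v ∈ interior (c.A i)
  · exact Or.inl ⟨⟨hv, hi⟩, fun h' => h'.2 hi⟩
  · exact Or.inr ⟨⟨⟨hv, (R3_of_Eint hN hθ).2.1 hvθ⟩, hi⟩, fun h' => hi h'.2⟩

end Pool.ETM
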