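/-
Project ETM (MP_c7bb65_an), block SPa1, module SaC (difficulty 3): 7.2, the set `Om` near an interior edge.

PROOF. `k = lev i`, `Q = c.Q k`, `D = c.D k θ`. By `R3_of_Eint`: `θ ∈ E k`, `θ ⊆ A i`, `θ ⊆ R3 i`. `U ∈ Us E` means `U ∈ Fc E` and
`closure U` meets `So`. The set `closure U ∩ nh k θ (10 ε)` contains `z` (`4 ε ≤ 10 ε`), so by `lv_small` `closure U ⊆ D` and
`‖Q u - Q u'‖ < ε` for `u, u' ∈ closure U`. So `x ∈ D`, `‖Q x - Q z‖ < ε`, and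
`infDist (Q x) (Q '' θ) ≤ ‖Q x - Q z‖ + infDist (Q z) (Q '' θ) ≤ 5 ε`.
`x ∈ So` gives `x ∉ interior (A i)` (`mem_So_iff`). By `not_int_A` there is `U' ∈ Fc (E k)`, `x ∈ closure U'`,
`Disjoint U' (A i)`, `Disjoint (closure U') (interior (A i))`. Put `F = closure U' ∈ Face k`. Not `θ ⊆ F`: otherwise `F ⊆ A i` by the
definition of `Eint`, but `U' ⊆ F`, `U' ≠ ∅` (`FaceX.ne`) and `Disjoint U' (A i)`. So `third` (for `F`, `x ∈ F ∩ D`) gives `v ∈ V k`,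
`v ∈ θ`, `v ∈ F`, `‖Q x - Q v‖ ≤ infDist (Q x) (Q '' θ) ≤ 5 ε`, `JoinedIn (F ∩ B k v (20 ε)) x v`.
`‖Q z - Q v‖ ≤ ‖Q z - Q x‖ + ‖Q x - Q v‖ ≤ 6 ε`. `v ∈ Vbd i`: `v ∈ V k`, `v ∈ θ ⊆ A i`, `v ∈ F` so `v ∉ interior (A i)`.
Finally `F ∩ B k v (20 ε) ⊆ So ∩ B k v (20 ε)` (`JoinedIn.mono`): for `y ∈ F ∩ B k v (20 ε)`: `y ∉ interior (A i)`; there is
`θ' ∈ E k`, `v ∈ θ'`, `y ∈ D θ'`; `θ' ⊆ R3 i` by `R3_of_A` (`v ∈ A i`); so `y ∈ So` by `mem_So_near`.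

`face_So`: the last step, stated separately: `U' ∈ Fc (E k)`, `Disjoint (closure U') (interior (A i))`, `v ∈ A i`.
-/
import Mathlib
import Pool.Agent.ETM.SaB

set_option autoImplicit false

open Set Metric Topology Filter
open Pool.JS

namespace Pool.ETM

variable {X : Type*} [MetricSpace X] [CompactSpace X] [Sph X] {c : Ctx X} (h : c.Ok)

include h

theorem face_So {i : ℕ} (hi : i < c.nc) {v : X} (hv : v ∈ c.V (c.lev i)) (hvA : v ∈ c.A i) {y : X}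
    (hy : y ∈ c.B (c.lev i) v (20 * c.ε)) (hyA : y ∉ interior (c.A i)) : y ∈ c.So := by
  obtain ⟨θ', hθ', hvθ', hyD, -⟩ := hy
  exact mem_So_near h hi hyA (Or.inr ⟨θ', hθ', R3_of_A h.net hθ' hvA hvθ', hyD⟩)

/-- 7.2: `Om` near an interior edge -/
theorem om_near {V : Set X} {E : Set (Set X)} (hA : c.Adm c.L1 V E) {i : ℕ} (hi : i < c.nc) {θ : Set X}
    (hθ : θ ∈ c.Eint i) {U : Set X} (hU : U ∈ c.Us E) {z : X} (hz : z ∈ closure U) (hz' : z ∈ c.nh (c.lev i) θ (4 * c.ε))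
    {x : X} (hx : x ∈ closure U) (hx' : x ∈ c.So) :
    ∃ v ∈ c.Vbd i, v ∈ θ ∧ ‖c.Q (c.lev i) z - c.Q (c.lev i) v‖ ≤ 6 * c.ε ∧ ‖c.Q (c.lev i) x - c.Q (c.lev i) v‖ ≤ 5 * c.ε ∧
      x ∈ c.D (c.lev i) θ ∧ JoinedIn (c.So ∩ c.B (c.lev i) v (20 * c.ε)) x v := by
  obtain ⟨hθE, hθA, hθR⟩ := R3_of_Eint h.net hθ
  have hε := h.net.εpos
  have hzn : z ∈ c.nh (c.lev i) θ (10 * c.ε) := ⟨hz'.1, hz'.2.trans (by linarith)⟩
  obtain ⟨hUD, hUQ⟩ := lv_small h hi hθE hθR hA hU.1 ⟨z, hz, hzn⟩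
  have hxD := hUD hx
  have hxz := hUQ x hx z hz
  have hinf : infDist (c.Q (c.lev i) x) (c.Q (c.lev i) '' θ) ≤ 5 * c.ε := by
    have h1 := infDist_le_infDist_add_dist (s := c.Q (c.lev i) '' θ) (x := c.Q (c.lev i) x) (y := c.Q (c.lev i) z)
    rw [dist_eq_norm] at h1
    linarith [hz'.2]
  obtain ⟨U', hU', hxU', hdA, hdI⟩ := not_int_A h.net ((mem_So_iff.mp hx').1 i hi)
  have hFace : closure U' ∈ c.Face (c.lev i) := ⟨U', hU', rfl⟩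
  rcases h.net.third (c.lev i) θ hθE (closure U') hFace x ⟨hxU', hxD⟩ with hsub | ⟨v, hv, hvθ, hvF, hvd, hj⟩
  · exfalso
    have h2 := hθ.2 _ hFace hsub
    obtain ⟨y, hy⟩ := FaceX.ne hU'
    exact Set.disjoint_left.mp hdA hy (h2 (subset_closure hy))
  · have hvI : v ∉ interior (c.A i) := fun h' => Set.disjoint_left.mp hdI hvF h'
    have hxv : ‖c.Q (c.lev i) x - c.Q (c.lev i) v‖ ≤ 5 * c.ε := hvd.trans hinf
    refine ⟨v, ⟨⟨hv, hθA hvθ⟩, hvI⟩, hvθ, ?_, hxv, hxD, ?_⟩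
    · have h3 : c.Q (c.lev i) z - c.Q (c.lev i) v =
          (c.Q (c.lev i) x - c.Q (c.lev i) v) - (c.Q (c.lev i) x - c.Q (c.lev i) z) := by ring
      rw [h3]
      exact (norm_sub_le _ _).trans (by linarith)
    · refine hj.mono ?_
      rintro y ⟨hyF, hyB⟩
      exact ⟨face_So h hi hv (hθA hvθ) hyB (fun h' => Set.disjoint_left.mp hdI hyF h'), hyB⟩

end Pool.ETM
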