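/-
Project ETM (MP_c7bb65_an), block SPa1, module SaD (difficulty 3): the subgraphs `MS E S` near an edge of `R3 i`.

Throughout `k = lev i`, `Q = c.Q k`, `D = c.D k θ`; `(V, E)` is a good graph whose faces are small near `θ` (`lv_small`).

* `ms_near`: `x ∈ MS E S` means: there is `U ∈ Fc E`, `closure U` meets `S` in some `z`, `x ∈ frontier U ⊆ closure U`. As
  `z ∈ nh k θ r`, `r ≤ 9 ε ≤ 10 ε`, `lv_small` gives `closure U ⊆ D` and `‖Q x - Q z‖ < ε`. And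
  `infDist (Q x) (Q '' θ) ≤ ‖Q x - Q z‖ + infDist (Q z) (Q '' θ) ≤ ε + r`.
* `Y_facts`: `Y = MS E (Bm k θ (3 ε))`, `Bm` is compact, connected, contains `y`, contained in `nh k θ (3 ε)` (`net_bm`).
  Connected: `Good.MS_connected` and nonempty: a face `U` with `y ∈ closure U` exists (`PG.cover`) and then `frontier U ⊆ Y`
  (definition of `MS`) and `frontier U ≠ ∅` (`JDom.jordan`: image of the unit circle). Union of edges: `Good.MS_edges`.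
  `‖Q x - Q y‖ < 4 ε` for `x ∈ Y`: `ms_near` gives `z ∈ Bm` with `‖Q x - Q z‖ < ε`, `‖Q z - Q y‖ ≤ 3 ε`.
  Disjoint from `Om E` (for `θ ∈ Eint i`): `x ∈ Y ∩ closure U'`, `U' ∈ Us E`; there is `x' ∈ closure U' ∩ So`; `x ∈ nh k θ (4 ε)`
  (`ms_near`), so `om_near` gives `v ∈ Vbd i`, `v ∈ θ`, `‖Q x - Q v‖ ≤ 6 ε`; but `‖Q y - Q v‖ = s / 2 ≥ 200 ε` and
  `‖Q x - Q y‖ < 4 ε`: contradiction.
* `half_facts`: `half k θ v` is connected (arc, `net_half`), contained in `θ ⊆ nh k θ 0`; `ms_near` with `r = 0`. The statement about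
  `So`: `U ∈ Fc E`, `v ∈ closure U`: `frontier U ⊆ MS E (half)`, and if `v ∈ So` then `frontier U ⊆ K E = MS E So`.
* `near_end`: `x ∈ MS E (half k θ v)`, `x ∈ Om E`, `θ ∈ Eint i`, `v` an end of `θ`: then `v ∈ Vbd i`, `‖Q x - Q v‖ ≤ 6 ε`.
  [`half_facts`: `x ∈ nh k θ ε`, `z ∈ half`, `‖Q x - Q z‖ < ε`, `‖Q z - Q v‖ ≤ s/2`. `x ∈ closure U`, `U ∈ Us E`; `om_near` gives
  `v' ∈ Vbd i`, `v' ∈ θ`, `‖Q x - Q v'‖ ≤ 6 ε`. If `v' ≠ v` then `‖Q v - Q v'‖ = s` (`net_other`), so `s ≤ s/2 + ε + 6 ε`: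
  contradiction with `s ≥ 400 ε > 0`. So `v' = v`.]
* `mem_K_of_Om`: `x ∈ ⋃₀ E`, `x ∈ Om E` gives `x ∈ K E`: `x ∈ closure U`, `U ∈ Us E`, `U` is open and disjoint from `⋃₀ E`, so
  `x ∈ frontier U`. `K_sub_Om` clear (`frontier U ⊆ closure U`). `K_edges`: `Good.MS_edges`.
* `us_near`: `Loc.path` gives `p`, `PathG E (Pt v) p (us v)`, `us v ∈ Pt v ⊆ MS E (half)`, `Pt v ∩ Y = {p}`, `Pt v ∩ K E = {us v}`. So
  `us v ∈ K E`; `near_end` gives the distance, `half_facts` `us v ∈ D`. If `us v ∈ Y` then `us v = p`; but `p ≠ us v` as the two ends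
  of an arc. (`us v ∈ Pt v` because it is an end of the arc.)
-/
import Mathlib
import Pool.Agent.ETM.SaC

set_option autoImplicit false

open Set Metric Topology Filter
open Pool.JS

namespace Pool.ETM

variable {X : Type*} [MetricSpace X] [CompactSpace X] [Sph X] {c : Ctx X} (h : c.Ok)

theorem mem_K_of_Om {V : Set X} {E : Set (Set X)} (hG : Good V E) {x : X} (hx : x ∈ ⋃₀ E) (hx' : x ∈ c.Om E) :
    x ∈ c.K E := by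
  obtain ⟨F, ⟨U, hU, rfl⟩, hxU⟩ := hx'
  have hUF : U ∈ Fc E := hU.1
  have hxU' : x ∉ U := fun h => FaceX.sub hUF h hx
  refine ⟨frontier U, ⟨U, hUF, hU.2, rfl⟩, ?_⟩
  rw [(Fc.isOpen hG.pg hUF).frontier_eq]
  exact ⟨hxU, hxU'⟩

theorem K_sub_Om (E : Set (Set X)) : c.K E ⊆ c.Om E := by
  rintro x ⟨F, ⟨U, hU, hne, rfl⟩, hx⟩
  exact ⟨closure U, ⟨U, ⟨hU, hne⟩, rfl⟩, frontier_subset_closure hx⟩

theorem K_edges {V : Set X} {E : Set (Set X)} (hG : Good V E) : ∃ D ⊆ E, c.K E = ⋃₀ D :=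
  hG.pg.MS_edges hG.disc

theorem So_sub_Om {V : Set X} {E : Set (Set X)} (hG : Good V E) : c.So ⊆ c.Om E := by
  intro x hx
  obtain ⟨U, hU, hxU⟩ := hG.pg.cover hG.disc x
  exact ⟨closure U, ⟨U, ⟨hU, x, hxU, hx⟩, rfl⟩, hxU⟩

theorem saD_ne {V : Set X} {E : Set (Set X)} (hG : Good V E) {S : Set X} {y : X} (hy : y ∈ S) : (MS E S).Nonempty := by
  obtain ⟨U, hU, hyU⟩ := hG.pg.cover hG.disc y
  obtain ⟨x, hx⟩ := (hG.disc U hU).jordan.isConnected.nonempty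
  exact ⟨x, frontier U, ⟨U, hU, ⟨y, hyU, hy⟩, rfl⟩, hx⟩

include h

theorem ms_near {V : Set X} {E : Set (Set X)} (hA : c.Adm c.L1 V E) {i : ℕ} (hi : i < c.nc) {θ : Set X}
    (hθ : θ ∈ c.E (c.lev i)) (hR : θ ⊆ c.R3 i) {S : Set X} {r : ℝ} (h0 : 0 ≤ r) (hr : r ≤ 9 * c.ε)
    (hS : S ⊆ c.nh (c.lev i) θ r) {x : X} (hx : x ∈ MS E S) :
    x ∈ c.nh (c.lev i) θ (r + c.ε) ∧ ∃ z ∈ S, ‖c.Q (c.lev i) x - c.Q (c.lev i) z‖ < c.ε ∧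
      ∃ U ∈ Fc E, x ∈ frontier U ∧ z ∈ closure U ∧ closure U ⊆ c.D (c.lev i) θ := by
  have hε := h.net.εpos
  obtain ⟨F, ⟨U, hU, ⟨z, hzU, hzS⟩, rfl⟩, hxU⟩ := hx
  have hz := hS hzS
  have hz10 : z ∈ c.nh (c.lev i) θ (10 * c.ε) := ⟨hz.1, hz.2.trans (by linarith)⟩
  obtain ⟨h1, h2⟩ := lv_small h hi hθ hR hA hU ⟨z, hzU, hz10⟩
  have hxc : x ∈ closure U := frontier_subset_closure hxU
  have h3 := h2 x hxc z hzU
  refine ⟨⟨h1 hxc, ?_⟩, z, hzS, h3, U, hU, hxU, hzU, h1⟩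
  have h4 : infDist (c.Q (c.lev i) x) (c.Q (c.lev i) '' θ) ≤
      infDist (c.Q (c.lev i) z) (c.Q (c.lev i) '' θ) + dist (c.Q (c.lev i) x) (c.Q (c.lev i) z) :=
    infDist_le_infDist_add_dist
  rw [dist_eq_norm] at h4
  have h5 := hz.2
  linarith

theorem Y_facts {V : Set X} {E : Set (Set X)} (hA : c.Adm c.L1 V E) {i : ℕ} (hi : i < c.nc) {θ : Set X}
    (hθ : θ ∈ c.Eint i) {y : X} (hy : y ∈ c.mid (c.lev i) θ) :
    IsConnected (c.Y (c.lev i) θ E) ∧ (∃ D ⊆ E, c.Y (c.lev i) θ E = ⋃₀ D) ∧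
    (∀ x ∈ c.Y (c.lev i) θ E, x ∈ c.D (c.lev i) θ ∧ x ∈ c.nh (c.lev i) θ (4 * c.ε) ∧
      ‖c.Q (c.lev i) x - c.Q (c.lev i) y‖ < 4 * c.ε) ∧
    Disjoint (c.Y (c.lev i) θ E) (c.Om E) ∧ ∀ U ∈ Fc E, y ∈ closure U → frontier U ⊆ c.Y (c.lev i) θ E := by
  have hε := h.net.εpos
  have hs := h.net.sε
  have hG := hA.good
  obtain ⟨hθE, -, hR⟩ := R3_of_Eint h.net hθ
  obtain ⟨hb1, hb2, hb3, hb4, hb5⟩ := net_bm h.net hθE hy (r := 3 * c.ε) (by linarith) (by linarith)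
  have hfr : ∀ U ∈ Fc E, y ∈ closure U → frontier U ⊆ c.Y (c.lev i) θ E := by
    intro U hU hyU x hx
    exact ⟨frontier U, ⟨U, hU, ⟨y, hyU, hb3⟩, rfl⟩, hx⟩
  have hpt : ∀ x ∈ c.Y (c.lev i) θ E, x ∈ c.D (c.lev i) θ ∧ x ∈ c.nh (c.lev i) θ (4 * c.ε) ∧
      ‖c.Q (c.lev i) x - c.Q (c.lev i) y‖ < 4 * c.ε := by
    intro x hx
    obtain ⟨h1, z, hz, hxz, -⟩ := ms_near h hA hi hθE hR (by linarith) (by linarith) hb4 hx
    have hz' := hz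
    rw [hb5] at hz'
    refine ⟨h1.1, ⟨h1.1, h1.2.trans (by linarith)⟩, ?_⟩
    have h2 : ‖c.Q (c.lev i) z - c.Q (c.lev i) y‖ ≤ 3 * c.ε := hz'.2
    have h3 := norm_sub_le_norm_sub_add_norm_sub (c.Q (c.lev i) x) (c.Q (c.lev i) z) (c.Q (c.lev i) y)
    linarith
  refine ⟨⟨saD_ne hG hb3, hG.pg.MS_connected hG.disc hb2.isPreconnected⟩, hG.pg.MS_edges hG.disc, hpt, ?_, hfr⟩
  rw [Set.disjoint_left]
  rintro x hxY ⟨F, ⟨U, hU, rfl⟩, hxU⟩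
  obtain ⟨x', hx'U, hx'S⟩ := hU.2
  obtain ⟨h1, h2, h3⟩ := hpt x hxY
  obtain ⟨v, hv, hvθ, hd, -, -, -⟩ := om_near h hA hi hθ hU hxU h2 hx'U hx'S
  have h4 : ‖c.Q (c.lev i) y - c.Q (c.lev i) v‖ = c.s / 2 := hy.2 v hv.1.1 hvθ
  have h5 := norm_sub_le_norm_sub_add_norm_sub (c.Q (c.lev i) y) (c.Q (c.lev i) x) (c.Q (c.lev i) v)
  rw [norm_sub_rev] at h3
  linarith

theorem half_facts {V : Set X} {E : Set (Set X)} (hA : c.Adm c.L1 V E) {i : ℕ} (hi : i < c.nc) {θ : Set X}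
    (hθ : θ ∈ c.E (c.lev i)) (hR : θ ⊆ c.R3 i) {v : X} (hv : v ∈ c.V (c.lev i)) (hvθ : v ∈ θ) :
    IsConnected (MS E (c.half (c.lev i) θ v)) ∧ (∃ D ⊆ E, MS E (c.half (c.lev i) θ v) = ⋃₀ D) ∧
    (∀ x ∈ MS E (c.half (c.lev i) θ v), x ∈ c.D (c.lev i) θ ∧ x ∈ c.nh (c.lev i) θ c.ε ∧
      ∃ z ∈ c.half (c.lev i) θ v, ‖c.Q (c.lev i) x - c.Q (c.lev i) z‖ < c.ε ∧
        ‖c.Q (c.lev i) x - c.Q (c.lev i) v‖ < c.s / 2 + c.ε) ∧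
    (∀ U ∈ Fc E, (closure U ∩ c.half (c.lev i) θ v).Nonempty → frontier U ⊆ MS E (c.half (c.lev i) θ v)) ∧
    (v ∈ c.So → ∀ U ∈ Fc E, v ∈ closure U → frontier U ⊆ MS E (c.half (c.lev i) θ v) ∩ c.K E) := by
  have hε := h.net.εpos
  have hG := hA.good
  obtain ⟨y, hy1, hy2, hy3⟩ := net_mid h.net hθ
  have hy : y ∈ c.mid (c.lev i) θ := by
    rw [hy1]
    exact rfl
  obtain ⟨ha1, ha2, ha3, ha4⟩ := net_half h.net hθ hv hvθ hy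
  have hfr : ∀ U ∈ Fc E, (closure U ∩ c.half (c.lev i) θ v).Nonempty → frontier U ⊆ MS E (c.half (c.lev i) θ v) := by
    intro U hU hne x hx
    exact ⟨frontier U, ⟨U, hU, hne, rfl⟩, hx⟩
  have hnh : c.half (c.lev i) θ v ⊆ c.nh (c.lev i) θ 0 :=
    ha2.trans (net_nh h.net hθ le_rfl (by linarith)).2.2.2
  refine ⟨⟨saD_ne hG ha4, hG.pg.MS_connected hG.disc ha1.isConnected.isPreconnected⟩, hG.pg.MS_edges hG.disc, ?_, hfr, ?_⟩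
  · intro x hx
    obtain ⟨h1, z, hz, hxz, -⟩ := ms_near h hA hi hθ hR le_rfl (by linarith) hnh hx
    refine ⟨h1.1, ⟨h1.1, h1.2.trans (by linarith)⟩, z, hz, hxz, ?_⟩
    have h2 : ‖c.Q (c.lev i) z - c.Q (c.lev i) v‖ ≤ c.s / 2 := hz.2
    have h3 := norm_sub_le_norm_sub_add_norm_sub (c.Q (c.lev i) x) (c.Q (c.lev i) z) (c.Q (c.lev i) v)
    linarith
  · intro hvS U hU hvU x hx
    exact ⟨hfr U hU ⟨v, hvU, ha4⟩ hx, frontier U, ⟨U, hU, ⟨v, hvU, hvS⟩, rfl⟩, hx⟩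

theorem near_end {V : Set X} {E : Set (Set X)} (hA : c.Adm c.L1 V E) {i : ℕ} (hi : i < c.nc) {θ : Set X}
    (hθ : θ ∈ c.Eint i) {v : X} (hv : v ∈ c.V (c.lev i)) (hvθ : v ∈ θ) {x : X} (hx : x ∈ MS E (c.half (c.lev i) θ v))
    (hx' : x ∈ c.Om E) : v ∈ c.Vbd i ∧ ‖c.Q (c.lev i) x - c.Q (c.lev i) v‖ ≤ 6 * c.ε := by
  have hε := h.net.εpos
  have hs := h.net.sε
  obtain ⟨hθE, -, hR⟩ := R3_of_Eint h.net hθ
  obtain ⟨-, -, hpt, -, -⟩ := half_facts h hA hi hθE hR hv hvθ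
  obtain ⟨h1, h2, z, hz, hxz, hxv⟩ := hpt x hx
  obtain ⟨F, ⟨U, hU, rfl⟩, hxU⟩ := hx'
  obtain ⟨x', hx'U, hx'S⟩ := hU.2
  obtain ⟨v', hv', hvθ', hd, -, -, -⟩ := om_near h hA hi hθ hU hxU ⟨h2.1, h2.2.trans (by linarith)⟩ hx'U hx'S
  obtain ⟨v'', hv'', hvθ'', hne, -, hall, -, hdist⟩ := net_other h.net hθE hv hvθ
  rcases hall v' hv'.1.1 hvθ' with h3 | h3
  · rw [h3] at hv' hd
    exact ⟨hv', hd⟩
  · exfalso
    rw [h3] at hd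
    have h4 := norm_sub_le_norm_sub_add_norm_sub (c.Q (c.lev i) v) (c.Q (c.lev i) x) (c.Q (c.lev i) v'')
    rw [norm_sub_rev] at hxv
    linarith

/-- consequence of 7.2: the end points `us v` are near `v` -/
theorem us_near {V : Set X} {E : Set (Set X)} (hA : c.Adm c.L1 V E) {i : ℕ} (hi : i < c.nc) {θ : Set X}
    (hθ : θ ∈ c.Eint i) {Pt : X → Set X} {us : X → X} {e : Set X} (hl : c.Loc i θ V E Pt us e) {v : X} (hv : v ∈ c.Vbd i)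
    (hvθ : v ∈ θ) : us v ∈ c.D (c.lev i) θ ∧ ‖c.Q (c.lev i) (us v) - c.Q (c.lev i) v‖ ≤ 6 * c.ε ∧ us v ∈ c.K E ∧
      us v ∉ c.Y (c.lev i) θ E := by
  obtain ⟨p, -, -, hP, -, hsub, hY, hK⟩ := hl.path v hv hvθ
  obtain ⟨hθE, -, hR⟩ := R3_of_Eint h.net hθ
  have hus : us v ∈ Pt v ∩ c.K E := by
    rw [hK]
    exact rfl
  have h1 := near_end h hA hi hθ hv.1.1 hvθ (hsub hus.1) (K_sub_Om E hus.2)
  have h2 := (half_facts h hA hi hθE hR hv.1.1 hvθ).2.2.1 (us v) (hsub hus.1)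
  refine ⟨h2.1, h1.2, hus.2, ?_⟩
  intro hcon
  have h3 : us v ∈ Pt v ∩ c.Y (c.lev i) θ E := ⟨hus.1, hcon⟩
  rw [hY] at h3
  exact hP.1.ne h3.symm

end Pool.ETM
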