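/-
Project ETM (MP_c7bb65_an). Block SPa3: the theorems of other blocks used in this block.
-/
import Pool.Agent.ETM.Bridge
import Pool.Agent.ETM.MkDefs
import Pool.Agent.ETM.SpDefs
import Pool.Agent.ETM.LvB
import Pool.Agent.ETM.LvC
import Pool.Agent.ETM.LvE
import Pool.Agent.ETM.LvG
import Pool.Agent.ETM.SaC
import Pool.Agent.ETM.SaD
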