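/-
Project ETM (MP_c7bb65_an), block SPa3, module SqA: elementary facts on interior edges and vertices.
-/
import Mathlib
import Pool.Agent.ETM.SqIf

set_option autoImplicit false

open Set Metric Topology Filter
open Pool.JS

namespace Pool.ETM

variable {X : Type*} [MetricSpace X] [CompactSpace X] [Sph X]

/-- the vertices of an edge of a good graph -/
theorem sq_gends {V : Set X} {E : Set (Set X)} (hG : Good V E) {e : Set X} (he : e ∈ E) :
    ∃ p ∈ V, ∃ q ∈ V, p ≠ q ∧ ArcX e p q ∧ e ∩ V = {p, q} := by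
  obtain ⟨p, hp, q, hq, harc, hV⟩ := hG.pg.arc e he
  refine ⟨p, hp, q, hq, ?_, harc, hV⟩
  obtain ⟨γ, -, hinj, -, h0, h1⟩ := harc
  intro hpq
  have h01 : (0 : ℝ) = 1 := hinj ⟨le_refl _, zero_le_one⟩ ⟨zero_le_one, le_refl _⟩ (by rw [h0, h1, hpq])
  exact zero_ne_one h01

/-- two different edges of a good graph do not have two common vertices -/
theorem sq_two {V : Set X} {E : Set (Set X)} (hG : Good V E) {e e' : Set X} (he : e ∈ E) (he' : e' ∈ E) {x y : X}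
    (hxy : x ≠ y) (hx : x ∈ V) (hy : y ∈ V) (hxe : x ∈ e) (hxe' : x ∈ e') (hye : y ∈ e) (hye' : y ∈ e') : e = e' := by
  have key : ∀ d ∈ E, x ∈ d → y ∈ d → d ∩ V = {x, y} := by
    intro d hd hxd hyd
    obtain ⟨p, -, q, -, hpq, -, hV⟩ := sq_gends hG hd
    have h1 : x ∈ ({p, q} : Set X) := by rw [← hV]; exact ⟨hxd, hx⟩
    have h2 : y ∈ ({p, q} : Set X) := by rw [← hV]; exact ⟨hyd, hy⟩
    rw [hV]
    rcases h1 with rfl | h1 <;> rcases h2 with rfl | h2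
    · exact absurd rfl hxy
    · rw [mem_singleton_iff] at h2
      rw [h2]
    · rw [mem_singleton_iff] at h1
      rw [h1, pair_comm]
    · rw [mem_singleton_iff] at h1 h2
      exact absurd (h1.trans h2.symm) hxy
  exact hG.simple e he e' he' (by rw [key e he hxe hye, key e' he' hxe' hye'])

/-- `K E` is contained in `Om E` and is a union of edges -/
theorem sq_K {c : Ctx X} {V : Set X} {E : Set (Set X)} (hG : Good V E) :
    c.K E ⊆ c.Om E ∧ c.K E = ⋃₀ {e | e ∈ E ∧ e ⊆ c.K E} := by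
  constructor
  · rintro x ⟨J, ⟨U, hU, hne, rfl⟩, hx⟩
    exact ⟨closure U, ⟨U, ⟨hU, hne⟩, rfl⟩, frontier_subset_closure hx⟩
  · obtain ⟨D, hD, hDe⟩ := hG.pg.MS_edges (S := c.So) hG.disc
    have hK : c.K E = ⋃₀ D := hDe
    apply Subset.antisymm
    · intro x hx
      rw [hK] at hx
      obtain ⟨e, he, hxe⟩ := hx
      refine ⟨e, ⟨hD he, ?_⟩, hxe⟩
      rw [hK]
      exact subset_sUnion_of_mem he
    · rintro x ⟨e, he, hxe⟩
      exact he.2 hxe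

section

variable {c : Ctx X} (h : c.Ok)

include h

/-- an interior edge is contained in `A i` (it is contained in the frontier of some face) -/
theorem sq_sub_A {i : ℕ} {θ : Set X} (hθ : θ ∈ c.Eint i) : θ ⊆ c.A i := by
  have hG := h.net.good (c.lev i)
  obtain ⟨U₁, hU₁, U₂, hU₂, -, h1, -, -⟩ :=
    (hG.pg.faces hG.ne (noCut_of_discs hG.pg hG.disc)).2.2 θ hθ.1
  have hF : closure U₁ ∈ c.Face (c.lev i) := ⟨U₁, hU₁, rfl⟩
  exact fun x hx => hθ.2 _ hF (h1.trans frontier_subset_closure) (frontier_subset_closure (h1 hx))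

theorem sqa_sub_St (k : ℕ) (S : Set X) : S ⊆ c.St k S := by
  intro x hx
  have hG := h.net.good k
  obtain ⟨U, hU, hxU⟩ := hG.pg.cover hG.disc x
  exact ⟨closure U, ⟨⟨U, hU, rfl⟩, ⟨x, hxU, hx⟩⟩, hxU⟩

/-- `A i` is contained in its third star -/
theorem sq_A_R3 (i : ℕ) : c.A i ⊆ c.R3 i :=
  ((sqa_sub_St h (c.lev i) _).trans (sqa_sub_St h (c.lev i) _)).trans (sqa_sub_St h (c.lev i) _)

/-- the ends of an edge of the level `k` network -/
theorem sq_ends {k : ℕ} {θ : Set X} (hθ : θ ∈ c.E k) :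
    ∃ v ∈ c.V k, ∃ v' ∈ c.V k, v ≠ v' ∧ v ∈ θ ∧ v' ∈ θ ∧ θ ∩ c.V k = {v, v'} := by
  obtain ⟨p, hp, q, hq, hpq, -, hV⟩ := sq_gends (h.net.good k) hθ
  have h1 : p ∈ θ ∩ c.V k := by rw [hV]; exact mem_insert _ _
  have h2 : q ∈ θ ∩ c.V k := by rw [hV]; exact mem_insert_of_mem _ rfl
  exact ⟨p, hp, q, hq, hpq, h1.1, h2.1, hV⟩

/-- two different vertices of an edge are not near -/
theorem sq_far {k : ℕ} {θ : Set X} (hθ : θ ∈ c.E k) {v v' : X} (hv : v ∈ c.V k) (hv' : v' ∈ c.V k) (hvθ : v ∈ θ)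
    (hvθ' : v' ∈ θ) (hd : ‖c.Q k v - c.Q k v'‖ ≤ 20 * c.ε) : v = v' := by
  by_contra hne
  have h1 := (h.net.Qseg k θ hθ v hv v' hv' hne hvθ hvθ').2
  have h2 := h.net.sε
  have h3 := h.net.εpos
  rw [h1] at hd
  linarith

theorem sq_nh {k : ℕ} {θ : Set X} (hθ : θ ∈ c.E k) {x : X} (hx : x ∈ θ) {r : ℝ} (hr : 0 ≤ r) : x ∈ c.nh k θ r := by
  refine ⟨h.net.Dsub k θ hθ hx, ?_⟩
  rw [infDist_zero_of_mem (mem_image_of_mem _ hx)]
  exact hr

/-- a vertex of an interior edge is an interior or a boundary vertex -/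
theorem sq_vertex {i : ℕ} {θ : Set X} (hθ : θ ∈ c.Eint i) {v : X} (hv : v ∈ c.V (c.lev i)) (hvθ : v ∈ θ) :
    v ∈ c.Vint i ∨ (v ∈ c.Vbd i ∧ v ∉ c.Vint i) := by
  by_cases hi : v ∈ interior (c.A i)
  · exact Or.inl ⟨hv, hi⟩
  · exact Or.inr ⟨⟨⟨hv, sq_sub_A h hθ hvθ⟩, hi⟩, fun h' => hi h'.2⟩

/-- all the edges at an interior vertex are interior -/
theorem sq_edge {i : ℕ} {v : X} (hv : v ∈ c.Vint i) {θ : Set X} (hθ : θ ∈ c.E (c.lev i)) (hvθ : v ∈ θ) :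
    θ ∈ c.Eint i := by
  have hG := h.net.good (c.lev i)
  refine ⟨hθ, ?_⟩
  rintro F ⟨U, hU, rfl⟩ hF
  obtain ⟨y, hyA, hyU⟩ := mem_closure_iff.mp (hF hvθ) _ isOpen_interior hv.2
  obtain ⟨F', ⟨⟨U', hU', rfl⟩, hw⟩, hyF'⟩ := interior_subset hyA
  obtain ⟨z, hzU, hzU'⟩ := mem_closure_iff.mp hyF' U (Fc.isOpen hG.pg hU) hyU
  have hUU : U = U' := by
    by_contra hne
    exact Set.disjoint_left.mp (Fc.disj hU hU' hne) hzU hzU'
  subst hUU
  exact subset_sUnion_of_mem ⟨⟨U, hU, rfl⟩, hw⟩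

/-- there is an edge at each vertex -/
theorem sq_exists_edge {i : ℕ} {v : X} (hv : v ∈ c.Vint i) : ∃ θ ∈ c.Eint i, v ∈ θ := by
  obtain ⟨θ, hθ, hvθ⟩ := (h.net.good (c.lev i)).pg.vert v hv.1
  exact ⟨θ, sq_edge h hv hθ hvθ, hvθ⟩

/-- (M1) for `t = 0` -/
theorem sq_colour {i j : ℕ} (hi : i < c.nc) (hj : j < c.nc) {x : X} (h1 : 0 < c.a i x) (h2 : 0 < c.a j x) : i = j := by
  by_contra hne
  have a1 := h.mark.m1 i hi j hj x 0 h1 h2 (Or.inr hne)
  have a2 := h.mark.m1 j hj i hi x 0 h2 h1 (Or.inr (Ne.symm hne))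
  have a3 := h.net.mpos
  omega

theorem sq_vint_pos {i : ℕ} (hi : i < c.nc) {v : X} (hv : v ∈ c.Vint i) : 0 < c.a i v := by
  have h1 := (lv_A h hi).2.2.1 v (interior_subset hv.2)
  have h2 := h.mark.wpos
  linarith

end

/-- 7.9 (c): flexible edges of the colour `i` are in a region where `a i` is positive -/
theorem sq_el_facts {c : Ctx X} (h : c.Ok) {i : ℕ} (hi : i < c.nc) {θ : Set X} (hθ : θ ∈ c.Eint i) {V : Set X}
    {E : Set (Set X)} {Pt : X → Set X} {us : X → X} {e : Set X} (hl : c.Loc i θ V E Pt us e) {x : X} (hx : x ∈ e) :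
    c.w / 5 < c.a i x ∧ x ∉ c.Z ∧ c.δ x < c.nb + 1 := by
  have hD : x ∈ c.D (c.lev i) θ := (hl.near hx).1
  have h1 := (lv_R3 h hi (x := x) (Or.inr ⟨θ, hθ.1, (sq_sub_A h hθ).trans (sq_A_R3 h i), hD⟩)).1
  have hw := h.mark.wpos
  have h2 := h.mark.depth i hi x (by linarith)
  exact ⟨h1, h2.1, h2.2⟩

end Pool.ETM
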