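/-
Project ETM (MP_c7bb65_an), block SPa3, module SqC: the set of points of the spliced graph; it is not empty and avoids `P`.

PROOFS.
`sq_union`. `⋃₀ spE = ⋃₀ {e ∈ E | e ⊆ K E} ∪ ⋃ el i θ` and the first part is `K E` by `sq_K`.
`sq_avoid`. `K E ⊆ ⋃₀ E` (by `sq_K`) is disjoint from `P` (`Adm.avoid`). `el i θ ⊆ nh (lev i) θ (4 ε) ⊆ D (lev i) θ` (`Loc.near`) is disjoint from
`f^[lev i] ⁻¹' P` (`NetOk.Davoid`), and `P ⊆ f^[lev i] ⁻¹' P` by `Dyn.mapsP` (`MapsTo.iterate`).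
`sq_ne`. Case 1: `So` is not empty, `x ∈ So`. `PG.cover` (for `Good V E`): `x ∈ closure U`, `U ∈ Fc E`, so `U ∈ Us E`, `frontier U` is a Jordan curve
(`JDom.jordan`), hence not empty, and it is contained in `K E = MS E So`; by `sq_K` a point of `K E` is in some `e ∈ E`, `e ⊆ K E`, so `e ∈ spE`.
Case 2: `So = ∅`, so `OO = univ`. `univ` is preconnected: for `x₀ : X` (`X` is not empty since `Fc E`/`E` is not empty) and `x₁ ≠ x₀` the set
`{x₀}ᶜ` is homeomorphic to `ℂ`, connected, dense; or simpler: `lv_T` gives that `(T nhole)ᶜ` is connected and not empty; and use any fact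
of the library (JS/Sp*, for example that `univ` is preconnected in a `Sph` space: two point complements `{x₀}ᶜ`, `{x₁}ᶜ`, both preconnected with a
common point, cover `X`). `lv_pieces` with `C = univ`: either `univ ⊆ interior (A i)` for some `i < nc`: then for every edge `θ` of
`E (lev i)` (there is one: `Good.ne`) and every closed face `F`: `F ⊆ A i`, so `θ ∈ Eint i`, `el i θ ∈ spE`; or `univ ⊆ Tz nhole z ⊆ T nhole`
(`connectedComponentIn_subset`), contradiction with `(T nhole)ᶜ` nonempty (`lv_T`).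
-/
import Mathlib
import Pool.Agent.ETM.SqA

set_option autoImplicit false

open Set Metric Topology Filter
open Pool.JS

namespace Pool.ETM

variable {X : Type*} [MetricSpace X] [CompactSpace X] [Sph X]

private theorem sqc_compl (x : X) : IsPreconnected ({x}ᶜ : Set X) := by
  obtain ⟨e⟩ := Sph.plane x
  have h1 : IsPreconnected ((fun z : ℂ => ((e.symm z : ({x}ᶜ : Set X)) : X)) '' univ) :=
    isPreconnected_univ.image _ (continuous_subtype_val.comp e.symm.continuous).continuousOn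
  convert h1 using 1
  ext y
  constructor
  · intro hy
    exact ⟨e ⟨y, hy⟩, mem_univ _, by simp⟩
  · rintro ⟨z, -, rfl⟩
    exact (e.symm z).2

private theorem sqc_univ (x : X) : IsPreconnected (univ : Set X) := by
  obtain ⟨e⟩ := Sph.plane x
  have hne : ((e.symm 0 : ({x}ᶜ : Set X)) : X) ≠ ((e.symm 1 : ({x}ᶜ : Set X)) : X) := by
    intro hh
    have h2 := e.symm.injective (Subtype.val_injective hh)
    exact zero_ne_one h2
  set y : X := ((e.symm 0 : ({x}ᶜ : Set X)) : X) with hy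
  set z : X := ((e.symm 1 : ({x}ᶜ : Set X)) : X) with hz
  have hyx : y ∈ ({x}ᶜ : Set X) := (e.symm 0).2
  have hzx : z ∈ ({x}ᶜ : Set X) := (e.symm 1).2
  have hzy : z ∈ ({y}ᶜ : Set X) := fun hh => hne (by rw [mem_singleton_iff] at hh; exact hh.symm)
  have h3 := IsPreconnected.union z hzx hzy (sqc_compl x) (sqc_compl y)
  convert h3 using 1
  rw [eq_comm, eq_univ_iff_forall]
  intro w
  by_cases hw : w = x
  · right
    rw [hw]
    intro hh
    exact hyx (by rw [mem_singleton_iff] at hh ⊢; exact hh.symm)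
  · left
    exact hw

section

variable {c : Ctx X} (h : c.Ok) {V : Set X} {E : Set (Set X)} (hA : c.Adm c.L1 V E) {Pt : ℕ → Set X → X → Set X}
    {us : ℕ → Set X → X → X} {el : ℕ → Set X → Set X}
    (hl : ∀ i < c.nc, ∀ θ ∈ c.Eint i, c.Loc i θ V E (Pt i θ) (us i θ) (el i θ))

include h hA hl

theorem sq_union : ⋃₀ c.spE E el = c.K E ∪ ⋃ i < c.nc, ⋃ θ ∈ c.Eint i, el i θ := by
  unfold Ctx.spE
  rw [sUnion_union, ← (sq_K (c := c) hA.good).2]
  congr 1
  ext x
  constructor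
  · rintro ⟨_, ⟨i, hi, θ, hθ, rfl⟩, hx⟩
    exact mem_iUnion₂.mpr ⟨i, hi, mem_iUnion₂.mpr ⟨θ, hθ, hx⟩⟩
  · intro hx
    obtain ⟨i, hi, hx⟩ := mem_iUnion₂.mp hx
    obtain ⟨θ, hθ, hx⟩ := mem_iUnion₂.mp hx
    exact ⟨_, ⟨i, hi, θ, hθ, rfl⟩, hx⟩

theorem sq_avoid : Disjoint (⋃₀ c.spE E el) c.P := by
  rw [disjoint_left]
  rintro x ⟨e, he | ⟨i, hi, θ, hθ, rfl⟩, hx⟩ hxP
  · exact disjoint_left.mp hA.avoid ⟨e, he.1, hx⟩ hxP
  · have h1 : x ∈ c.D (c.lev i) θ := ((hl i hi θ hθ).near hx).1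
    exact disjoint_left.mp (h.net.Davoid (c.lev i) θ hθ.1) h1 (h.dyn.mapsP.iterate (c.lev i) hxP)

theorem sq_ne : (c.spE E el).Nonempty := by
  rcases (c.So).eq_empty_or_nonempty with hS | ⟨x, hx⟩
  · have hOO : c.OO = univ := by
      have h1 : (c.OO)ᶜ = ∅ := hS
      rwa [compl_empty_iff] at h1
    obtain ⟨-, hT, -⟩ := lv_T h
    obtain ⟨y, hy⟩ := hT.nonempty
    rcases lv_pieces h (sqc_univ y) (by rw [hOO]) ⟨y, mem_univ _⟩ with ⟨i, hi, hsub⟩ | ⟨z, hz, hsub, -⟩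
    · obtain ⟨θ, hθ⟩ := (h.net.good (c.lev i)).ne
      exact ⟨el i θ, Or.inr ⟨i, hi, θ, ⟨hθ, fun F _ _ w _ => interior_subset (hsub (mem_univ w))⟩, rfl⟩⟩
    · exact absurd (connectedComponentIn_subset _ _ (hsub (mem_univ y))) hy
  · obtain ⟨U, hU, hxU⟩ := hA.good.pg.cover hA.good.disc x
    obtain ⟨γ, -, -, hγ⟩ := (hA.good.disc U hU).jordan
    have h1 : γ 1 ∈ frontier U := by
      rw [← hγ]
      exact ⟨1, by simp, rfl⟩
    have h2 : γ 1 ∈ c.K E := ⟨frontier U, ⟨U, hU, ⟨x, hxU, hx⟩, rfl⟩, h1⟩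
    rw [(sq_K (c := c) hA.good).2] at h2
    obtain ⟨e, he, -⟩ := h2
    exact ⟨e, Or.inl he⟩

end

end Pool.ETM
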