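/-
Project ETM (MP_c7bb65_an), block SPa3, module SqB: interior vertices are not in `Om`, flexible edges at interior vertices,
and `sq_el_inter` (7.4): two different flexible edges only meet in a common interior vertex.

PROOFS.
`sq_vint_om`. Suppose `v ∈ Vint i`, `v ∈ closure U`, `U ∈ Us E`. Take `θ ∈ Eint i` with `v ∈ θ` (`sq_exists_edge`), a point
`x ∈ closure U ∩ So`. `om_near` with `z = v` (`sq_nh`) gives `v' ∈ Vbd i`, `v' ∈ θ`, `‖Q v - Q v'‖ ≤ 6 ε`. By `sq_far` `v = v'`, but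
`v ∈ interior (A i)` and `v' ∉ interior (A i)`.
`sq_at_vint`. Let `v ∈ Vint i`, `v ∈ e` (the flexible edge of `θ'`, colour `j`). `0 < a j v` by `sq_el_facts` (and `0 < c.w`),
`0 < a i v` by `sq_vint_pos`, so `i = j` by `sq_colour`. Take `θ ∈ Eint i` with `v ∈ θ`. If `θ = θ'`: done. Otherwise `v` is in
`nh θ (4 ε)` (`sq_nh`) and in `nh θ' (4 ε)` (`Loc.near`); `NetOk.two` with `r = 4 ε` gives a vertex `u` of both with
`‖Q v - Q u‖ ≤ 6 ε`; `v, u` are vertices in `θ`: `v = u ∈ θ'` by `sq_far`.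
`sq_el_inter`. Let `x` be in both flexible edges. `0 < a i x`, `0 < a j x`, so `i = j`. `NetOk.two` (`r = 4 ε`): a vertex `v` of
`θ` and `θ'` with `‖Q x - Q v‖ ≤ 6 ε`. `v ∈ Vbd i` is impossible by `lv_bd` (`θ ≠ θ'`), so `v ∈ Vint i` (`sq_vertex`). `Loc.atv`: `x ∈ θ`
and `x ∈ θ'` (`x ∈ Bc (lev i) v (6 ε)` with the edge `θ` resp. `θ'`, `nh` is contained in `D`). `PG.inter`: `x ∈ V (lev i)`. By `sq_far` (for `x, v ∈ θ`)
`x = v ∈ Vint i`.
-/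
import Mathlib
import Pool.Agent.ETM.SqA

set_option autoImplicit false

open Set Metric Topology Filter
open Pool.JS

namespace Pool.ETM

variable {X : Type*} [MetricSpace X] [CompactSpace X] [Sph X]

section

variable {c : Ctx X} (h : c.Ok)

include h

theorem sq_vint_om {V : Set X} {E : Set (Set X)} (hA : c.Adm c.L1 V E) {i : ℕ} (hi : i < c.nc) {v : X}
    (hv : v ∈ c.Vint i) : v ∉ c.Om E := by
  rintro ⟨F, ⟨U, hU, rfl⟩, hvU⟩
  have hε := h.net.εpos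
  obtain ⟨x, hx, hx'⟩ := hU.2
  obtain ⟨θ, hθ, hvθ⟩ := sq_exists_edge h hv
  obtain ⟨v', hv', hvθ', hd, -, -, -⟩ := om_near h hA hi hθ hU hvU (sq_nh h hθ.1 hvθ (by linarith)) hx hx'
  have h1 : v = v' := sq_far h hθ.1 hv.1 hv'.1.1 hvθ hvθ' (by linarith)
  exact hv'.2 (h1 ▸ hv.2)

theorem sq_at_vint {V : Set X} {E : Set (Set X)} {i j : ℕ} (hi : i < c.nc) (hj : j < c.nc)
    {θ' : Set X} (hθ' : θ' ∈ c.Eint j) {Pt : X → Set X} {us : X → X} {e : Set X} (hl : c.Loc j θ' V E Pt us e) {v : X}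
    (hv : v ∈ c.Vint i) (hve : v ∈ e) : i = j ∧ v ∈ θ' := by
  have hε := h.net.εpos
  have hw := h.mark.wpos
  have h1 := (sq_el_facts h hj hθ' hl hve).1
  have h2 : i = j := sq_colour h hi hj (sq_vint_pos h hi hv) (by linarith)
  subst h2
  refine ⟨rfl, ?_⟩
  obtain ⟨θ, hθ, hvθ⟩ := sq_exists_edge h hv
  by_cases hne : θ = θ'
  · exact hne ▸ hvθ
  · obtain ⟨u, huV, huθ, huθ', hd⟩ := h.net.two (c.lev i) θ hθ.1 θ' hθ'.1 hne (4 * c.ε) (by linarith) v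
      ⟨sq_nh h hθ.1 hvθ (by linarith), hl.near hve⟩
    have h3 : v = u := sq_far h hθ.1 hv.1 huV hvθ huθ (by linarith)
    rw [h3]
    exact huθ'

/-- 7.4 -/
theorem sq_el_inter {V : Set X} {E : Set (Set X)} {Pt : ℕ → Set X → X → Set X}
    {us : ℕ → Set X → X → X} {el : ℕ → Set X → Set X}
    (hl : ∀ i < c.nc, ∀ θ ∈ c.Eint i, c.Loc i θ V E (Pt i θ) (us i θ) (el i θ))
    {i j : ℕ} (hi : i < c.nc) (hj : j < c.nc) {θ θ' : Set X} (hθ : θ ∈ c.Eint i) (hθ' : θ' ∈ c.Eint j)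
    (hne : i ≠ j ∨ θ ≠ θ') {x : X} (hx : x ∈ el i θ) (hx' : x ∈ el j θ') :
    i = j ∧ x ∈ c.Vint i ∧ x ∈ θ ∧ x ∈ θ' := by
  have hε := h.net.εpos
  have hw := h.mark.wpos
  have hl1 := hl i hi θ hθ
  have hl2 := hl j hj θ' hθ'
  have h1 := (sq_el_facts h hi hθ hl1 hx).1
  have h2 := (sq_el_facts h hj hθ' hl2 hx').1
  have h3 : i = j := sq_colour h hi hj (x := x) (by linarith) (by linarith)
  subst h3
  have hne' : θ ≠ θ' := by
    rcases hne with hne | hne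
    · exact absurd rfl hne
    · exact hne
  have hn1 := hl1.near hx
  have hn2 := hl2.near hx'
  obtain ⟨v, hvV, hvθ, hvθ', hd⟩ := h.net.two (c.lev i) θ hθ.1 θ' hθ'.1 hne' (4 * c.ε) (by linarith) x ⟨hn1, hn2⟩
  have hv : v ∈ c.Vint i := by
    rcases sq_vertex h hθ hvV hvθ with hv | hv
    · exact hv
    · exact absurd (lv_bd h hi hv.1 ⟨hθ, hvθ⟩ ⟨hθ', hvθ'⟩) hne'
  have hxθ : x ∈ θ := hl1.atv v hv hvθ ⟨hx, θ, hθ.1, hvθ, hn1.1, by linarith⟩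
  have hxθ' : x ∈ θ' := hl2.atv v hv hvθ' ⟨hx', θ', hθ'.1, hvθ', hn2.1, by linarith⟩
  have hxV : x ∈ c.V (c.lev i) := (h.net.good (c.lev i)).pg.inter θ hθ.1 θ' hθ'.1 hne' ⟨hxθ, hxθ'⟩
  have hxv : x = v := sq_far h hθ.1 hxV hvV hxθ hvθ (by linarith)
  exact ⟨rfl, hxv ▸ hv, hxθ, hxθ'⟩

end

end Pool.ETM
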