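/-
Project ETM (MP_c7bb65_an), block SPa3, module SqD: the vertices on the edges of the spliced graph.

PROOFS.
`sq_us`. `v ∈ Vbd i`, `v ∈ θ`: `Loc.path` gives `us v ∈ V` and `Pt v ∩ K E = {us v}`, so `us v ∈ K E`.
`sq_wend`. `v ∈ θ` is in `Vint i` or (in `Vbd i` and not in `Vint i`) by `sq_vertex`; `wend` is `v` resp. `us v`; use `sq_us`.
`sq_rig`. `e ⊆ K E ⊆ Om E` (`sq_K`) contains no point of `Vint j`, `j < nc` (`sq_vint_om`). So `e ∩ spV = e ∩ V`.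
`sq_flex`. Let `θ ∩ V (lev i) = {v, v'}`. `wend v, wend v'` are in `el i θ` (ends of the arc, `Loc.arc`) and in `spV` (`sq_wend`).
Conversely let `x ∈ el i θ ∩ spV`. If `x ∈ V ∩ K E`: `x ∈ Om E` (`sq_K`), by `Loc.om` `x = us v''` with `v'' ∈ Vbd i`, `v'' ∈ θ`, `v''` is `v` or `v'` and
`wend v'' = us v''` (`v''` is not in the interior of `A i`). If `x ∈ Vint j`: `sq_at_vint` gives `j = i` and `x ∈ θ`, `x ∈ V (lev i)`, so `x = v` or
`x = v'`, and `wend x = x`.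
-/
import Mathlib
import Pool.Agent.ETM.SqB

set_option autoImplicit false

open Set Metric Topology Filter
open Pool.JS

namespace Pool.ETM

variable {X : Type*} [MetricSpace X] [CompactSpace X] [Sph X]

theorem sqd_wend_int {c : Ctx X} {i : ℕ} {us : X → X} {v : X} (hv : v ∈ c.Vint i) : c.wend i us v = v := by
  unfold Ctx.wend
  rw [if_pos hv]

theorem sqd_wend_bd {c : Ctx X} {i : ℕ} {us : X → X} {v : X} (hv : v ∉ c.Vint i) : c.wend i us v = us v := by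
  unfold Ctx.wend
  rw [if_neg hv]

theorem sqd_bd_int {c : Ctx X} {i : ℕ} {v : X} (hv : v ∈ c.Vbd i) : v ∉ c.Vint i := fun h => hv.2 h.2

section

variable {c : Ctx X} (h : c.Ok)

include h

theorem sq_us {V : Set X} {E : Set (Set X)} {i : ℕ} {θ : Set X} {Pt : X → Set X} {us : X → X} {e : Set X}
    (hl : c.Loc i θ V E Pt us e) {v : X} (hv : v ∈ c.Vbd i) (hvθ : v ∈ θ) : us v ∈ V ∩ c.K E := by
  obtain ⟨p, hp, hpY, hP, huV, hs, h1, h2⟩ := hl.path v hv hvθ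
  have h3 : us v ∈ Pt v ∩ c.K E := by
    rw [h2]
    exact mem_singleton _
  exact ⟨huV, h3.2⟩

theorem sq_wend {V : Set X} {E : Set (Set X)} {i : ℕ} (hi : i < c.nc) {θ : Set X} (hθ : θ ∈ c.Eint i)
    {Pt : X → Set X} {us : X → X} {e : Set X} (hl : c.Loc i θ V E Pt us e) {v : X} (hv : v ∈ c.V (c.lev i)) (hvθ : v ∈ θ) :
    c.wend i us v ∈ c.spV V E := by
  rcases sq_vertex h hθ hv hvθ with h1 | ⟨h1, h2⟩
  · rw [sqd_wend_int h1]
    right
    exact mem_iUnion₂.mpr ⟨i, hi, h1⟩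
  · rw [sqd_wend_bd h2]
    left
    exact sq_us h hl h1 hvθ

/-- vertices of a rigid edge -/
theorem sq_rig {V : Set X} {E : Set (Set X)} (hA : c.Adm c.L1 V E) {e : Set X} (hs : e ⊆ c.K E) :
    e ∩ c.spV V E = e ∩ V := by
  apply Subset.antisymm
  · rintro x ⟨hxe, hx | hx⟩
    · exact ⟨hxe, hx.1⟩
    · obtain ⟨j, hj, hxj⟩ := mem_iUnion₂.mp hx
      exact absurd ((sq_K hA.good).1 (hs hxe)) (sq_vint_om h hA hj hxj)
  · rintro x ⟨hxe, hx⟩
    exact ⟨hxe, Or.inl ⟨hx, hs hxe⟩⟩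

/-- vertices of a flexible edge -/
theorem sq_flex {V : Set X} {E : Set (Set X)} (hA : c.Adm c.L1 V E) {i : ℕ} (hi : i < c.nc) {θ : Set X}
    (hθ : θ ∈ c.Eint i) {Pt : X → Set X} {us : X → X} {e : Set X} (hl : c.Loc i θ V E Pt us e) :
    ∃ v ∈ c.V (c.lev i), ∃ v' ∈ c.V (c.lev i), v ≠ v' ∧ v ∈ θ ∧ v' ∈ θ ∧ ArcX e (c.wend i us v) (c.wend i us v') ∧
      e ∩ c.spV V E = {c.wend i us v, c.wend i us v'} := by
  obtain ⟨v, hv, v', hv', hne, hvθ, hv'θ, hθV⟩ := sq_ends h hθ.1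
  have harc := hl.arc v hv v' hv' hvθ hv'θ hne
  refine ⟨v, hv, v', hv', hne, hvθ, hv'θ, harc, ?_⟩
  apply Subset.antisymm
  · rintro x ⟨hxe, hx | hx⟩
    · have h1 : x ∈ e ∩ c.Om E := ⟨hxe, (sq_K hA.good).1 hx.2⟩
      rw [hl.om] at h1
      obtain ⟨u, hu, huθ, rfl⟩ := h1
      have h2 : u ∈ θ ∩ c.V (c.lev i) := ⟨huθ, hu.1.1⟩
      rw [hθV] at h2
      have h3 := sqd_wend_bd (us := us) (sqd_bd_int hu)
      rcases h2 with h2 | h2
      · rw [mem_singleton_iff.mp h2] at h3 ⊢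
        exact Or.inl h3.symm
      · rw [mem_singleton_iff.mp h2] at h3 ⊢
        exact Or.inr h3.symm
    · obtain ⟨j, hj, hxj⟩ := mem_iUnion₂.mp hx
      obtain ⟨hji, hxθ⟩ := sq_at_vint h hj hi hθ hl hxj hxe
      subst hji
      have h2 : x ∈ θ ∩ c.V (c.lev j) := ⟨hxθ, hxj.1⟩
      rw [hθV] at h2
      have h3 := sqd_wend_int (us := us) hxj
      rcases h2 with h2 | h2
      · rw [mem_singleton_iff.mp h2] at h3 ⊢
        exact Or.inl h3.symm
      · rw [mem_singleton_iff.mp h2] at h3 ⊢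
        exact Or.inr h3.symm
  · rintro x (hx | hx)
    · rw [hx]
      exact ⟨harc.left_mem, sq_wend h hi hθ hl hv hvθ⟩
    · rw [mem_singleton_iff.mp hx]
      exact ⟨harc.right_mem, sq_wend h hi hθ hl hv' hv'θ⟩

end

end Pool.ETM
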