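/-
Project ETM (MP_c7bb65_an), block SPa3, module SqE: the spliced graph is a finite plane graph (7.5).

PROOF of `sq_pg`, the fields of `PG` (it extends `GrX`).
`finV`: `V ∩ K E` is finite (`Good.pg.finV`), `Vint i ⊆ V (lev i)` finite, `i < nc`: `Set.Finite.union`, `Set.finite_lt_nat`/`Set.Finite.biUnion`.
`finE`: `{e ∈ E | e ⊆ K E}` finite; `{e | ∃ i < nc, ∃ θ ∈ Eint i, e = el i θ}` is a finite union of images of finite sets (`Eint i ⊆ E (lev i)`).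
`arc`: rigid `e`: `sq_gends` (ends `p, q ∈ e ∩ V`, and `e ⊆ K E`, so `p, q ∈ spV`), `sq_rig`. Flexible: `sq_flex`, `sq_wend`.
`inter`: rigid, rigid: `e ∩ e' ⊆ V` (`GrX.inter`) and `⊆ K E`. Rigid `e`, flexible `el i θ`: `x ∈ K E ⊆ Om E`, by `Loc.om` `x = us v`, `sq_us`.
Flexible, flexible: `sq_el_inter` (if `(i, θ) = (j, θ')` the edges are equal).
`vert`: `v ∈ V ∩ K E`: `sq_K` gives a rigid edge containing `v`. `v ∈ Vint i`: `sq_exists_edge`: `θ ∈ Eint i`, `v ∈ θ`; `v = wend i us v` is an end point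
of the arc `el i θ` (`Loc.arc` with the other vertex of `θ`, `sq_ends`).
-/
import Mathlib
import Pool.Agent.ETM.SqD

set_option autoImplicit false

open Set Metric Topology Filter
open Pool.JS

namespace Pool.ETM

variable {X : Type*} [MetricSpace X] [CompactSpace X] [Sph X]

section

variable {c : Ctx X} (h : c.Ok) {V : Set X} {E : Set (Set X)} (hA : c.Adm c.L1 V E) {Pt : ℕ → Set X → X → Set X}
    {us : ℕ → Set X → X → X} {el : ℕ → Set X → Set X}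
    (hl : ∀ i < c.nc, ∀ θ ∈ c.Eint i, c.Loc i θ V E (Pt i θ) (us i θ) (el i θ))

include h hA hl

theorem sq_pg : PG (c.spV V E) (c.spE E el) := by
  have hG := hA.good
  have hK := sq_K (c := c) hG
  have hrf : ∀ e ∈ E, e ⊆ c.K E → ∀ i < c.nc, ∀ θ ∈ c.Eint i, e ∩ el i θ ⊆ c.spV V E := by
    intro e he hs i hi θ hθ x hx
    have hxo : x ∈ el i θ ∩ c.Om E := ⟨hx.2, hK.1 (hs hx.1)⟩
    rw [(hl i hi θ hθ).om] at hxo
    obtain ⟨v, hv, hvθ, hxv⟩ := hxo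
    rw [hxv]
    exact Or.inl (sq_us h (hl i hi θ hθ) hv hvθ)
  refine ⟨⟨?_, ?_, ?_, ?_⟩, ?_⟩
  · refine (hG.pg.finV.subset inter_subset_left).union ?_
    refine (Set.finite_lt_nat c.nc).biUnion fun i _ => ?_
    exact (h.net.good (c.lev i)).pg.finV.subset inter_subset_left
  · refine (hG.pg.finE.subset fun e he => he.1).union ?_
    have hs : {e | ∃ i < c.nc, ∃ θ ∈ c.Eint i, e = el i θ} ⊆ ⋃ i ∈ {i | i < c.nc}, el i '' c.Eint i := by
      rintro e ⟨i, hi, θ, hθ, rfl⟩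
      exact mem_biUnion (show i ∈ {i | i < c.nc} from hi) (mem_image_of_mem _ hθ)
    refine Set.Finite.subset ((Set.finite_lt_nat c.nc).biUnion fun i _ => ?_) hs
    exact ((h.net.good (c.lev i)).pg.finE.subset fun θ hθ => hθ.1).image _
  · rintro e (⟨he, hs⟩ | ⟨i, hi, θ, hθ, rfl⟩)
    · obtain ⟨p, hp, q, hq, -, hpq, hpqV⟩ := sq_gends hG he
      have hpe : p ∈ e := by
        have : p ∈ e ∩ V := by rw [hpqV]; exact Or.inl rfl
        exact this.1
      have hqe : q ∈ e := by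
        have : q ∈ e ∩ V := by rw [hpqV]; exact Or.inr rfl
        exact this.1
      refine ⟨p, Or.inl ⟨hp, hs hpe⟩, q, Or.inl ⟨hq, hs hqe⟩, hpq, ?_⟩
      rw [sq_rig h hA hs, hpqV]
    · obtain ⟨v, hv, v', hv', -, hvθ, hvθ', harc, hV⟩ := sq_flex h hA hi hθ (hl i hi θ hθ)
      exact ⟨_, sq_wend h hi hθ (hl i hi θ hθ) hv hvθ, _, sq_wend h hi hθ (hl i hi θ hθ) hv' hvθ', harc, hV⟩
  · rintro e (⟨he, hs⟩ | ⟨i, hi, θ, hθ, rfl⟩) e' (⟨he', hs'⟩ | ⟨j, hj, θ', hθ', rfl⟩) hne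
    · intro x hx
      exact Or.inl ⟨hG.pg.inter e he e' he' hne hx, hs hx.1⟩
    · exact hrf e he hs j hj θ' hθ'
    · rw [inter_comm]
      exact hrf e' he' hs' i hi θ hθ
    · intro x hx
      have hne' : i ≠ j ∨ θ ≠ θ' := by
        by_contra hc
        push Not at hc
        obtain ⟨rfl, rfl⟩ := hc
        exact hne rfl
      have h1 := sq_el_inter h hl hi hj hθ hθ' hne' hx.1 hx.2
      exact Or.inr (mem_biUnion (show i ∈ {i | i < c.nc} from hi) h1.2.1)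
  · rintro v (hv | hv)
    · have h1 : v ∈ c.K E := hv.2
      rw [hK.2] at h1
      obtain ⟨e, ⟨he, hs⟩, hve⟩ := h1
      exact ⟨e, Or.inl ⟨he, hs⟩, hve⟩
    · obtain ⟨i, hi, hvi⟩ := mem_iUnion₂.1 hv
      obtain ⟨θ, hθ, hvθ⟩ := sq_exists_edge h hvi
      obtain ⟨v₁, hv₁, v₂, hv₂, hne, hvθ₁, hvθ₂, hVθ⟩ := sq_ends h hθ.1
      have hvV : v ∈ θ ∩ c.V (c.lev i) := ⟨hvθ, hvi.1⟩
      have hw : c.wend i (us i θ) v = v := by
        unfold Ctx.wend
        exact if_pos hvi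
      have hfin : ∀ v' ∈ c.V (c.lev i), v' ∈ θ → v ≠ v' → v ∈ el i θ := by
        intro v' hv' hvθ' hne'
        obtain ⟨γ, -, -, hγ, hγ0, -⟩ := (hl i hi θ hθ).arc v hvi.1 v' hv' hvθ hvθ' hne'
        rw [← hγ, ← hw, ← hγ0]
        exact mem_image_of_mem γ (left_mem_Icc.2 zero_le_one)
      refine ⟨el i θ, Or.inr ⟨i, hi, θ, hθ, rfl⟩, ?_⟩
      rw [hVθ] at hvV
      rcases hvV with h1 | h1
      · exact hfin v₂ hv₂ hvθ₂ (by rw [h1]; exact hne)
      · have h1' : v = v₂ := h1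
        exact hfin v₁ hv₁ hvθ₁ (by rw [h1']; exact hne.symm)

end

end Pool.ETM
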