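/-
Project ETM (MP_c7bb65_an), block SPa3, module SqF: valences in the spliced graph (7.5).

PROOF of `sq_val`.
(a) `v ∈ Vint i`. No rigid edge contains `v` (`sq_vint_om`, `sq_K`). A flexible edge `el j θ'` containing `v` has `j = i` and `v ∈ θ'` (`sq_at_vint`). So
`{e ∈ spE | v ∈ e} ⊆ (el i) '' {θ ∈ E (lev i) | v ∈ θ}`, and this has at most 3 elements (`Good.val` of the network, `Set.ncard_image_le`,
`Set.ncard_le_ncard`, finiteness from `Good.pg.finE`).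
(b) `v ∈ V ∩ K E` (and not case (a)). If no flexible edge contains `v`, then `{e ∈ spE | v ∈ e} ⊆ {e ∈ E | v ∈ e}`: at most 3. Otherwise let `el i θ ∋ v`,
`i < nc`, `θ ∈ Eint i`. Every flexible edge containing `v` is equal to it: if `el j θ'` is another one with `i ≠ j ∨ θ ≠ θ'`, `sq_el_inter`
gives `v ∈ Vint i`, contradiction. `v ∈ K E ⊆ Om E`, so by `Loc.om` `v = us v'`, `v' ∈ Vbd i`, `v' ∈ θ`. By `Loc.path` there is an edge `e₀ ∈ E` with
`us v' ∈ e₀ ⊆ Pt v'` (`PathG E (Pt v') p (us v')`: `Pt v'` is a union of edges and contains its end point), and `e₀` is not contained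
in `K E`, because `Pt v' ∩ K E = {us v'}` and `e₀` has two different points (`sq_gends`). So
`{e ∈ spE | v ∈ e} ⊆ insert (el i θ) ({e ∈ E | v ∈ e} \ {e₀})`, at most `1 + (3 - 1)` elements (`Set.ncard_insert_le`,
`Set.ncard_sdiff_singleton_of_mem`).
-/
import Mathlib
import Pool.Agent.ETM.SqD

set_option autoImplicit false

open Set Metric Topology Filter
open Pool.JS

namespace Pool.ETM

variable {X : Type*} [MetricSpace X] [CompactSpace X] [Sph X]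

private theorem sqf_a {c : Ctx X} (h : c.Ok) {V : Set X} {E : Set (Set X)} (hA : c.Adm c.L1 V E)
    {Pt : ℕ → Set X → X → Set X} {us : ℕ → Set X → X → X} {el : ℕ → Set X → Set X}
    (hl : ∀ i < c.nc, ∀ θ ∈ c.Eint i, c.Loc i θ V E (Pt i θ) (us i θ) (el i θ)) {i : ℕ} (hi : i < c.nc) {v : X}
    (hv : v ∈ c.Vint i) : {e | e ∈ c.spE E el ∧ v ∈ e}.ncard ≤ 3 := by
  have hG := h.net.good (c.lev i)
  have hsub : {e | e ∈ c.spE E el ∧ v ∈ e} ⊆ (el i) '' {θ | θ ∈ c.E (c.lev i) ∧ v ∈ θ} := by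
    rintro e ⟨he, hve⟩
    rcases he with ⟨_, he2⟩ | ⟨j, hj, θ', hθ', rfl⟩
    · exact absurd ((sq_K (c := c) hA.good).1 (he2 hve)) (sq_vint_om h hA hi hv)
    · obtain ⟨rfl, h2⟩ := sq_at_vint h hi hj hθ' (hl j hj θ' hθ') hv hve
      exact ⟨θ', ⟨hθ'.1, h2⟩, rfl⟩
  have hfin : {θ | θ ∈ c.E (c.lev i) ∧ v ∈ θ}.Finite := hG.pg.finE.subset fun θ hθ => hθ.1
  exact (Set.ncard_le_ncard hsub (hfin.image _)).trans ((Set.ncard_image_le hfin).trans (hG.val v hv.1))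

private theorem sqf_b {c : Ctx X} (h : c.Ok) {V : Set X} {E : Set (Set X)} (hA : c.Adm c.L1 V E)
    {Pt : ℕ → Set X → X → Set X} {us : ℕ → Set X → X → X} {el : ℕ → Set X → Set X}
    (hl : ∀ i < c.nc, ∀ θ ∈ c.Eint i, c.Loc i θ V E (Pt i θ) (us i θ) (el i θ)) {v : X}
    (hv : v ∈ V) (hvK : v ∈ c.K E) : {e | e ∈ c.spE E el ∧ v ∈ e}.ncard ≤ 3 := by
  have hvO : v ∈ c.Om E := (sq_K (c := c) hA.good).1 hvK
  have hfin : {e | e ∈ E ∧ v ∈ e}.Finite := hA.good.pg.finE.subset fun e he => he.1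
  by_cases hex : ∃ i < c.nc, ∃ θ ∈ c.Eint i, v ∈ el i θ
  · obtain ⟨i, hi, θ, hθ, hvel⟩ := hex
    have hL := hl i hi θ hθ
    have hvo : v ∈ el i θ ∩ c.Om E := ⟨hvel, hvO⟩
    rw [hL.om] at hvo
    obtain ⟨v', hv', hvθ', hvu⟩ := hvo
    obtain ⟨p, _, _, hpath, _, _, _, hPK⟩ := hL.path v' hv' hvθ'
    obtain ⟨harc, E', hE', hPt⟩ := hpath
    have hvPt : v ∈ ⋃₀ E' := by
      rw [← hPt, hvu]
      exact harc.right_mem
    obtain ⟨e₀, he₀, hve₀⟩ := hvPt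
    have he₀E : e₀ ∈ E := hE' he₀
    have he₀P : e₀ ⊆ Pt i θ v' := by
      rw [hPt]
      exact Set.subset_sUnion_of_mem he₀
    have hnK : ¬ e₀ ⊆ c.K E := by
      intro hK
      obtain ⟨p, _, q, _, hpq, hap, _⟩ := sq_gends hA.good he₀E
      have hp1 : p ∈ Pt i θ v' ∩ c.K E := ⟨he₀P hap.left_mem, hK hap.left_mem⟩
      have hq1 : q ∈ Pt i θ v' ∩ c.K E := ⟨he₀P hap.right_mem, hK hap.right_mem⟩
      rw [hPK] at hp1 hq1
      exact hpq (hp1.trans hq1.symm)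
    have hsub : {e | e ∈ c.spE E el ∧ v ∈ e} ⊆ insert (el i θ) ({e | e ∈ E ∧ v ∈ e} \ {e₀}) := by
      rintro e ⟨he, hve⟩
      rcases he with ⟨he1, he2⟩ | ⟨j, hj, θ', hθ', rfl⟩
      · refine Set.mem_insert_of_mem _ ⟨⟨he1, hve⟩, ?_⟩
        intro hee
        have hee' : e = e₀ := hee
        exact hnK (hee' ▸ he2)
      · by_cases heq : i = j ∧ θ = θ'
        · obtain ⟨rfl, rfl⟩ := heq
          exact Set.mem_insert _ _
        · have hne : i ≠ j ∨ θ ≠ θ' := by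
            by_contra hcon
            push Not at hcon
            exact heq hcon
          obtain ⟨_, hvi, _⟩ := sq_el_inter h hl hi hj hθ hθ' hne hvel hve
          exact absurd hvO (sq_vint_om h hA hi hvi)
    have h1 := Set.ncard_le_ncard hsub ((hfin.subset Set.sdiff_subset).insert _)
    have h2 := Set.ncard_insert_le (el i θ) ({e | e ∈ E ∧ v ∈ e} \ {e₀})
    have h3 := Set.ncard_sdiff_singleton_of_mem (s := {e | e ∈ E ∧ v ∈ e}) (a := e₀) ⟨he₀E, hve₀⟩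
    have h4 := hA.good.val v hv
    have h5 : 0 < {e | e ∈ E ∧ v ∈ e}.ncard := (Set.ncard_pos hfin).mpr ⟨e₀, he₀E, hve₀⟩
    omega
  · have hsub : {e | e ∈ c.spE E el ∧ v ∈ e} ⊆ {e | e ∈ E ∧ v ∈ e} := by
      rintro e ⟨he, hve⟩
      rcases he with ⟨he1, _⟩ | ⟨j, hj, θ', hθ', rfl⟩
      · exact ⟨he1, hve⟩
      · exact absurd ⟨j, hj, θ', hθ', hve⟩ hex
    exact (Set.ncard_le_ncard hsub hfin).trans (hA.good.val v hv)

section

variable {c : Ctx X} (h : c.Ok) {V : Set X} {E : Set (Set X)} (hA : c.Adm c.L1 V E) {Pt : ℕ → Set X → X → Set X}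
    {us : ℕ → Set X → X → X} {el : ℕ → Set X → Set X}
    (hl : ∀ i < c.nc, ∀ θ ∈ c.Eint i, c.Loc i θ V E (Pt i θ) (us i θ) (el i θ))

include h hA hl

theorem sq_val : ∀ v ∈ c.spV V E, {e | e ∈ c.spE E el ∧ v ∈ e}.ncard ≤ 3 := by
  rintro v (⟨hv, hvK⟩ | hv)
  · exact sqf_b h hA hl hv hvK
  · simp only [Set.mem_iUnion] at hv
    obtain ⟨i, hi, hvi⟩ := hv
    exact sqf_a h hA hl hi hvi

end

end Pool.ETM
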