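/-
Project ETM (MP_c7bb65_an), block SPa3, module SqG: the spliced graph is simple (7.5).

PROOF of `sq_simple`. Let `e, e' ∈ spE`, `e ∩ spV = e' ∩ spV`.
rigid, rigid: `sq_rig`, `Good.simple`.
rigid `e`, flexible `e' = el i θ` (and symmetrically): by `sq_flex` `e' ∩ spV = {wend v, wend v'}`, `v ≠ v'` the vertices of `θ`; so `wend v, wend v' ∈ e ⊆ K E ⊆ Om E`.
`v ∈ Vint i` is impossible (`wend v = v`, `sq_vint_om`), so `v ∈ Vbd i` (`sq_vertex`), `wend v = us v`; the same for `v'`. By `us_near`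
`‖Q (us v) - Q v‖ ≤ 6 ε`, `‖Q (us v') - Q v'‖ ≤ 6 ε`. `e ∈ E` is contained in the closure of a face `U ∈ Fc E` (`PG.faces` of the bridge with
`noCut_of_discs`; or `PG.mem_frontier` at a point of `e` which is not a vertex and `PG.frontier_edges` + `PG.mem_of_point`).
`us v ∈ e'` is in `nh (lev i) θ (4 ε) ⊆ nh (lev i) θ (10 ε)` (`Loc.near`; `us v = wend v` is an end point of `e'`), so
`lv_small` (`θ ⊆ R3 i` by `sq_sub_A`, `sq_A_R3`) gives `‖Q (us v) - Q (us v')‖ < ε`. So `‖Q v - Q v'‖ < 13 ε`, contradiction with `sq_far`.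
flexible `el i θ`, flexible `el j θ'`: if `i = j` and `θ = θ'` they are equal. Otherwise let `v ≠ v'` be as in `sq_flex` for `(i, θ)`:
`wend v ≠ wend v'` (end points of an arc `ArcX`) are both in `el i θ ∩ el j θ'`. `sq_el_inter`: `i = j` and both are in `Vint i`, in `θ` and in `θ'`, hence
`θ = θ'` by `sq_two`. Contradiction.
-/
import Mathlib
import Pool.Agent.ETM.SqD

set_option autoImplicit false

open Set Metric Topology Filter
open Pool.JS

namespace Pool.ETM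

variable {X : Type*} [MetricSpace X] [CompactSpace X] [Sph X]

private theorem sqg_end {c : Ctx X} (h : c.Ok) {V : Set X} {E : Set (Set X)} (hA : c.Adm c.L1 V E) {i : ℕ} (hi : i < c.nc)
    {θ : Set X} (hθ : θ ∈ c.Eint i) {Pt : X → Set X} {us : X → X} {e : Set X} (hl : c.Loc i θ V E Pt us e) {v : X}
    (hv : v ∈ c.V (c.lev i)) (hvθ : v ∈ θ) (hO : c.wend i us v ∈ c.Om E) :
    c.wend i us v = us v ∧ ‖c.Q (c.lev i) (us v) - c.Q (c.lev i) v‖ ≤ 6 * c.ε := by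
  rcases sq_vertex h hθ hv hvθ with h1 | ⟨h1, h2⟩
  · exfalso
    rw [Ctx.wend, if_pos h1] at hO
    exact sq_vint_om h hA hi h1 hO
  · refine ⟨?_, (us_near h hA hi hθ hl h1 hvθ).2.1⟩
    rw [Ctx.wend, if_neg h2]

private theorem sqg_mixed {c : Ctx X} (h : c.Ok) {V : Set X} {E : Set (Set X)} (hA : c.Adm c.L1 V E) {i : ℕ}
    (hi : i < c.nc) {θ : Set X} (hθ : θ ∈ c.Eint i) {Pt : X → Set X} {us : X → X} {e' : Set X}
    (hl : c.Loc i θ V E Pt us e') {e : Set X} (he : e ∈ E) (hs : e ⊆ c.K E)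
    (heq : e ∩ c.spV V E = e' ∩ c.spV V E) : False := by
  obtain ⟨v, hv, v', hv', hne, hvθ, hvθ', harc, hsp⟩ := sq_flex h hA hi hθ hl
  have hG : Good V E := hA.good
  have hεpos := h.net.εpos
  rw [hsp] at heq
  have hw : c.wend i us v ∈ e := by
    have : c.wend i us v ∈ e ∩ c.spV V E := by
      rw [heq]
      exact Or.inl rfl
    exact this.1
  have hw' : c.wend i us v' ∈ e := by
    have : c.wend i us v' ∈ e ∩ c.spV V E := by
      rw [heq]
      exact Or.inr rfl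
    exact this.1
  obtain ⟨hKO, -⟩ := sq_K (c := c) hG
  obtain ⟨e1, n1⟩ := sqg_end h hA hi hθ hl hv hvθ (hKO (hs hw))
  obtain ⟨e2, n2⟩ := sqg_end h hA hi hθ hl hv' hvθ' (hKO (hs hw'))
  obtain ⟨U, hU, -, -, -, heU, -⟩ := (hG.pg.faces hG.ne (noCut_of_discs hG.pg hG.disc)).2.2 e he
  have hc : e ⊆ closure U := heU.trans frontier_subset_closure
  have hus : us v ∈ closure U := by
    rw [← e1]
    exact hc hw
  have hus' : us v' ∈ closure U := by
    rw [← e2]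
    exact hc hw'
  have husel : us v ∈ e' := by
    rw [← e1]
    exact harc.left_mem
  have hnh := hl.near husel
  have hnh10 : us v ∈ c.nh (c.lev i) θ (10 * c.ε) := ⟨hnh.1, hnh.2.trans (by linarith)⟩
  have hR : θ ⊆ c.R3 i := (sq_sub_A h hθ).trans (sq_A_R3 h i)
  have hsm := (lv_small h hi hθ.1 hR hA hU ⟨us v, hus, hnh10⟩).2 _ hus _ hus'
  apply hne
  apply sq_far h hθ.1 hv hv' hvθ hvθ'
  have htri : ‖c.Q (c.lev i) v - c.Q (c.lev i) v'‖ ≤ ‖c.Q (c.lev i) (us v) - c.Q (c.lev i) v‖ +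
      ‖c.Q (c.lev i) (us v) - c.Q (c.lev i) (us v')‖ + ‖c.Q (c.lev i) (us v') - c.Q (c.lev i) v'‖ := by
    have hdec : c.Q (c.lev i) v - c.Q (c.lev i) v' = -(c.Q (c.lev i) (us v) - c.Q (c.lev i) v) +
      (c.Q (c.lev i) (us v) - c.Q (c.lev i) (us v')) + (c.Q (c.lev i) (us v') - c.Q (c.lev i) v') := by ring
    rw [hdec]
    refine (norm_add_le _ _).trans ?_
    have := norm_add_le (-(c.Q (c.lev i) (us v) - c.Q (c.lev i) v)) (c.Q (c.lev i) (us v) - c.Q (c.lev i) (us v'))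
    rw [norm_neg] at this
    linarith
  linarith

private theorem sqg_flex {c : Ctx X} (h : c.Ok) {V : Set X} {E : Set (Set X)} (hA : c.Adm c.L1 V E)
    {Pt : ℕ → Set X → X → Set X} {us : ℕ → Set X → X → X} {el : ℕ → Set X → Set X}
    (hl : ∀ i < c.nc, ∀ θ ∈ c.Eint i, c.Loc i θ V E (Pt i θ) (us i θ) (el i θ)) {i j : ℕ} (hi : i < c.nc)
    (hj : j < c.nc) {θ θ' : Set X} (hθ : θ ∈ c.Eint i) (hθ' : θ' ∈ c.Eint j)
    (heq : el i θ ∩ c.spV V E = el j θ' ∩ c.spV V E) : el i θ = el j θ' := by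
  by_cases hne : i ≠ j ∨ θ ≠ θ'
  · exfalso
    obtain ⟨v, hv, v', hv', hvv, hvθ, hvθ', harc, hsp⟩ := sq_flex h hA hi hθ (hl i hi θ hθ)
    have hw : c.wend i (us i θ) v ∈ el i θ ∩ c.spV V E := by
      rw [hsp]
      exact Or.inl rfl
    have hw' : c.wend i (us i θ) v' ∈ el i θ ∩ c.spV V E := by
      rw [hsp]
      exact Or.inr rfl
    have hx := hw
    have hx' := hw'
    rw [heq] at hx hx'
    obtain ⟨hij, h1, h2, h3⟩ := sq_el_inter h hl hi hj hθ hθ' hne hw.1 hx.1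
    obtain ⟨-, h1', h2', h3'⟩ := sq_el_inter h hl hi hj hθ hθ' hne hw'.1 hx'.1
    subst hij
    have hG := h.net.good (c.lev i)
    have := sq_two hG hθ.1 hθ'.1 harc.ne h1.1 h1'.1 h2 h3 h2' h3'
    rcases hne with hne | hne
    · exact hne rfl
    · exact hne this
  · push Not at hne
    obtain ⟨rfl, rfl⟩ := hne
    rfl

section

variable {c : Ctx X} (h : c.Ok) {V : Set X} {E : Set (Set X)} (hA : c.Adm c.L1 V E) {Pt : ℕ → Set X → X → Set X}
    {us : ℕ → Set X → X → X} {el : ℕ → Set X → Set X}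
    (hl : ∀ i < c.nc, ∀ θ ∈ c.Eint i, c.Loc i θ V E (Pt i θ) (us i θ) (el i θ))

include h hA hl

theorem sq_simple : ∀ e ∈ c.spE E el, ∀ e' ∈ c.spE E el, e ∩ c.spV V E = e' ∩ c.spV V E → e = e' := by
  intro e he e' he' heq
  rcases he with ⟨h1, h2⟩ | ⟨i, hi, θ, hθ, rfl⟩
  · rcases he' with ⟨h1', h2'⟩ | ⟨j, hj, θ', hθ', rfl⟩
    · rw [sq_rig h hA h2, sq_rig h hA h2'] at heq
      exact hA.good.simple e h1 e' h1' heq
    · exact (sqg_mixed h hA hj hθ' (hl j hj θ' hθ') h1 h2 heq).elim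
  · rcases he' with ⟨h1', h2'⟩ | ⟨j, hj, θ', hθ', rfl⟩
    · exact (sqg_mixed h hA hi hθ (hl i hi θ hθ) h1' h2' heq.symm).elim
    · exact sqg_flex h hA hl hi hj hθ hθ' heq

end

end Pool.ETM
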