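/-
Project ETM (MP_c7bb65_an), block SPa3, final module: the statements of ETM/If.lean.
-/
import Mathlib
import Pool.Agent.ETM.SqC
import Pool.Agent.ETM.SqE
import Pool.Agent.ETM.SqF
import Pool.Agent.ETM.SqG

set_option autoImplicit false

open Set Metric Topology Filter
open Pool.JS

namespace Pool.ETM

variable {X : Type*} [MetricSpace X] [CompactSpace X] [Sph X]

section

variable {c : Ctx X} (h : c.Ok)

include h

/-- 7.9 (b), (c), (d) -/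
theorem el_facts {V : Set X} {E : Set (Set X)} (_hA : c.Adm c.L1 V E) {Pt : ℕ → Set X → X → Set X}
    {us : ℕ → Set X → X → X} {el : ℕ → Set X → Set X}
    (hl : ∀ i < c.nc, ∀ θ ∈ c.Eint i, c.Loc i θ V E (Pt i θ) (us i θ) (el i θ)) {i : ℕ} (hi : i < c.nc) {θ : Set X}
    (hθ : θ ∈ c.Eint i) {x : X} (hx : x ∈ el i θ) : c.w / 5 < c.a i x ∧ x ∉ c.Z ∧ c.δ x < c.nb + 1 :=
  sq_el_facts h hi hθ (hl i hi θ hθ) hx

section

variable {V : Set X} {E : Set (Set X)} (hA : c.Adm c.L1 V E) {Pt : ℕ → Set X → X → Set X}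
    {us : ℕ → Set X → X → X} {el : ℕ → Set X → Set X}
    (hl : ∀ i < c.nc, ∀ θ ∈ c.Eint i, c.Loc i θ V E (Pt i θ) (us i θ) (el i θ))

include hA hl

/-- 7.4 (SPa3): two different flexible edges only meet in a common interior vertex -/
theorem el_inter {i j : ℕ} (hi : i < c.nc) (hj : j < c.nc) {θ θ' : Set X} (hθ : θ ∈ c.Eint i) (hθ' : θ' ∈ c.Eint j)
    (hne : i ≠ j ∨ θ ≠ θ') {x : X} (hx : x ∈ el i θ) (hx' : x ∈ el j θ') :
    i = j ∧ x ∈ c.Vint i ∧ x ∈ θ ∧ x ∈ θ' :=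
  sq_el_inter h hl hi hj hθ hθ' hne hx hx'

/-- 7.5 (SPa3) -/
theorem sp_union : ⋃₀ c.spE E el = c.K E ∪ ⋃ i < c.nc, ⋃ θ ∈ c.Eint i, el i θ :=
  sq_union h hA hl

theorem sp_pg : PG (c.spV V E) (c.spE E el) :=
  sq_pg h hA hl

theorem sp_ne : (c.spE E el).Nonempty :=
  sq_ne h hA hl

theorem sp_val : ∀ v ∈ c.spV V E, {e | e ∈ c.spE E el ∧ v ∈ e}.ncard ≤ 3 :=
  sq_val h hA hl

theorem sp_simple : ∀ e ∈ c.spE E el, ∀ e' ∈ c.spE E el, e ∩ c.spV V E = e' ∩ c.spV V E → e = e' :=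
  sq_simple h hA hl

theorem sp_avoid : Disjoint (⋃₀ c.spE E el) c.P :=
  sq_avoid h hA hl

end

end

end Pool.ETM
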