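/-
Project ETM (MP_c7bb65_an), block LV (section 6 of /team-store/c7bb65_proof.md).
MODULE LvF (difficulty 2).  Oscillation of the depth function on small connected sets (6.5).

RECIPE.  `lv_drop'` is a copy of `LvE.lv_drop` (this module does not import it): induction on `t` with `h.dep.dep.step`.
`lv_osc`: if `δ x ≤ nb + 3`: `h.mark.oscd` with `n = ℓ`.  Otherwise let `J = ⌊δ x⌋₊ - nb - 2 ≥ 1`.  By `h3` (and `⌊δ x⌋ ≤ δ x`)
`k0 ≤ ℓ - J`, `J ≤ ℓ`.  `C' = f^[J] '' C` is preconnected, `diam (f^[ℓ - J] '' C') = diam (f^[ℓ] '' C) < η` (`Function.iterate_add`,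
`image_comp`), it contains `f^[J] x`, which is not in `Z` and has `δ (f^[J] x) = δ x - J ∈ [nb + 2, nb + 3)` (`lv_drop'`).  `oscd`: all
points `y'` of `C'` satisfy `y' ∉ Z` and `|δ y' - δ (f^[J] x)| < 1 / 1000`, in particular `1 < δ y'`.
Now show by induction on `j` from `J` down to `0` (or: for `d ≤ J`, with `j = J - d`): for all `y ∈ C`, `f^[j] y ∉ Z` and
`δ (f^[j] y) = δ (f^[J] y) + (J - j)`.  Step: the preconnected set `f^[j] '' C` contains `f^[j] x ∈ TT Z δ 1` (`δ (f^[j] x) = δ x - j ≥ 1`),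
and `f` maps it into `f^[j+1] '' C` where `δ > 0`: `h.dep.dep.clop` gives `f^[j] '' C ⊆ TT Z δ 1`; a point of it is not in `Z` (else
its image would be in `Z`: `mapZ`), so `1 ≤ δ` and `step` applies.  With `j = 0`: `|δ y - δ x| = |δ (f^[J] y) - δ (f^[J] x)| < 1 / 1000`.
-/
import Mathlib
import Pool.Agent.ETM.SpDefs

set_option autoImplicit false

open Set Metric Topology Filter
open Pool.JS

namespace Pool.ETM

variable {X : Type*} [MetricSpace X] {c : Ctx X} (h : c.Ok)

include h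

theorem lv_drop' {x : X} (hx : x ∉ c.Z) (t : ℕ) (ht : (t : ℝ) ≤ c.δ x) : c.f^[t] x ∉ c.Z ∧ c.δ (c.f^[t] x) = c.δ x - t := by
  induction t with
  | zero =>
    refine ⟨hx, ?_⟩
    simp
  | succ t ih =>
    push_cast at ht
    obtain ⟨h1, h2⟩ := ih (by linarith)
    have h3 := h.dep.dep.step _ h1 (by rw [h2]; linarith)
    rw [Function.iterate_succ_apply']
    refine ⟨h3.1, ?_⟩
    rw [h3.2, h2]
    push_cast
    ring

/-- 6.5 -/
theorem lv_osc {x : X} (hx : x ∉ c.Z) (h2 : c.δ x < c.nhole + 1) {C : Set X} (hC : IsPreconnected C) (hxC : x ∈ C) {ℓ : ℕ}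
    (hd : diam (c.f^[ℓ] '' C) < c.η) (h0 : c.k0 ≤ ℓ) (h3 : (c.k0 : ℝ) + c.δ x - c.nb - 1 ≤ ℓ) :
    ∀ y ∈ C, y ∉ c.Z ∧ |c.δ y - c.δ x| < 1 / 16 := by
  by_cases hs : c.δ x ≤ c.nb + 3
  · intro y hy
    have h4 := h.mark.oscd ℓ h0 C hC hd x hxC y hy hx (by linarith)
    refine ⟨h4.1, ?_⟩
    rw [abs_sub_comm]
    linarith [h4.2]
  · push Not at hs
    have hδ0 : 0 ≤ c.δ x := h.dep.dep.nonneg x
    have hfl := Nat.floor_le hδ0
    have hfl2 := Nat.lt_floor_add_one (c.δ x)
    have hnb3 : c.nb + 3 ≤ ⌊c.δ x⌋₊ := by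
      apply Nat.le_floor
      push_cast
      exact hs.le
    obtain ⟨J, hJ⟩ : ∃ J : ℕ, ⌊c.δ x⌋₊ = J + c.nb + 2 := ⟨⌊c.δ x⌋₊ - c.nb - 2, by omega⟩
    have hJR : ((⌊c.δ x⌋₊ : ℕ) : ℝ) = (J : ℝ) + c.nb + 2 := by
      rw [hJ]
      push_cast
      ring
    rw [hJR] at hfl hfl2
    have hnb0 : (0 : ℝ) ≤ (c.nb : ℝ) := Nat.cast_nonneg _
    have hJδ : (J : ℝ) ≤ c.δ x := by linarith
    have hk : c.k0 + J ≤ ℓ := by
      have : (c.k0 : ℝ) + J ≤ ℓ := by linarith
      exact_mod_cast this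
    have hC' : IsPreconnected (c.f^[J] '' C) :=
      hC.image _ ((h.dyn.cont.iterate J).continuousOn)
    have hd' : diam (c.f^[ℓ - J] '' (c.f^[J] '' C)) < c.η := by
      rw [← image_comp, ← Function.iterate_add, Nat.sub_add_cancel (by omega)]
      exact hd
    obtain ⟨hJZ, hJδx⟩ := lv_drop' h hx J hJδ
    have hosc := h.mark.oscd (ℓ - J) (by omega) (c.f^[J] '' C) hC' hd' _ (mem_image_of_mem _ hxC)
    have hJb : c.δ (c.f^[J] x) ≤ c.nb + 4 := by
      rw [hJδx]
      linarith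
    -- downward induction
    have key : ∀ d ≤ J, ∀ y ∈ C, c.f^[J - d] y ∉ c.Z ∧ c.δ (c.f^[J - d] y) = c.δ (c.f^[J] y) + d := by
      intro d
      induction d with
      | zero =>
        intro _ y hy
        have h4 := hosc _ (mem_image_of_mem _ hy) hJZ hJb
        refine ⟨h4.1, ?_⟩
        simp
      | succ d ih =>
        intro hdJ
        have ih' := ih (by omega)
        have e : J - d = (J - (d + 1)) + 1 := by omega
        have hp : IsPreconnected (c.f^[J - (d + 1)] '' C) :=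
          hC.image _ ((h.dyn.cont.iterate _).continuousOn)
        have hxj := lv_drop' h hx (J - (d + 1)) (by
          have : ((J - (d + 1) : ℕ) : ℝ) ≤ J := by exact_mod_cast Nat.sub_le _ _
          linarith)
        have hle : ((J - (d + 1) : ℕ) : ℝ) ≤ (J : ℝ) - 1 := by
          have : J - (d + 1) + 1 ≤ J := by omega
          have h5 : ((J - (d + 1) : ℕ) : ℝ) + 1 ≤ J := by exact_mod_cast this
          linarith
        have hclop := h.dep.dep.clop (c.f^[J - (d + 1)] '' C) hp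
          ⟨c.f^[J - (d + 1)] x, mem_image_of_mem _ hxC, Or.inr (by
            change 1 ≤ c.δ (c.f^[J - (d + 1)] x)
            rw [hxj.2]
            linarith)⟩ (by
            rintro _ ⟨y, hy, rfl⟩
            right
            rw [← Function.iterate_succ_apply' c.f, Nat.succ_eq_add_one, ← e, (ih' y hy).2]
            have h6 := (hosc _ (mem_image_of_mem _ hy) hJZ hJb).2
            rw [abs_lt, hJδx] at h6
            have hd0 : (0 : ℝ) ≤ (d : ℝ) := Nat.cast_nonneg _
            linarith [h6.1, h6.2])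
        intro y hy
        have h7 := hclop (mem_image_of_mem _ hy)
        have h8 : c.f^[J - (d + 1)] y ∉ c.Z := by
          intro h9
          have h10 := h.dep.dep.mapZ h9
          rw [← Function.iterate_succ_apply' c.f, Nat.succ_eq_add_one, ← e] at h10
          exact (ih' y hy).1 h10
        have h9 : 1 ≤ c.δ (c.f^[J - (d + 1)] y) := by
          rcases h7 with h7 | h7
          · exact absurd h7 h8
          · exact h7
        have h11 := (h.dep.dep.step _ h8 h9).2
        rw [← Function.iterate_succ_apply' c.f, Nat.succ_eq_add_one, ← e, (ih' y hy).2] at h11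
        refine ⟨h8, ?_⟩
        push_cast
        linarith
    intro y hy
    have h4 := key J le_rfl y hy
    have h5 := key J le_rfl x hxC
    rw [Nat.sub_self] at h4 h5
    have h6 := (hosc _ (mem_image_of_mem _ hy) hJZ hJb).2
    have e4 : c.δ y = c.δ (c.f^[J] y) + J := h4.2
    have e5 : c.δ x = c.δ (c.f^[J] x) + J := h5.2
    refine ⟨h4.1, ?_⟩
    rw [e4, e5, abs_sub_comm]
    have e6 : c.δ (c.f^[J] x) + J - (c.δ (c.f^[J] y) + J) = c.δ (c.f^[J] x) - c.δ (c.f^[J] y) := by ring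
    rw [e6]
    linarith

end Pool.ETM
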