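/-
Project ETM (MP_c7bb65_an). Block LV (section 6): the theorems lv_*.
-/
import Pool.Agent.ETM.LvA
import Pool.Agent.ETM.LvB
import Pool.Agent.ETM.LvC
import Pool.Agent.ETM.LvD
import Pool.Agent.ETM.LvE
import Pool.Agent.ETM.LvF
import Pool.Agent.ETM.LvG
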