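/-
Project ETM (MP_c7bb65_an). Block SPa3: el_facts, el_inter, sp_union, sp_pg, sp_ne, sp_val, sp_simple, sp_avoid.
-/
import Pool.Agent.ETM.SqFin
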