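/-
Project ETM (MP_c7bb65_an), block SPc (helper31). MODULE ScB (difficulty 2): small faces, `So` is interior to `Om`, and 7.9 (a), (b).

PROOFS.
`sc_fi`: `U` is connected (`FaceX.conn`), so is its closure; `f^[n]` is continuous (`h.dyn.cont.iterate n`), `f^[n] '' closure U ⊆ closure (f^[n] '' U)`
(`image_closure_subset_closure_image`), so the diameter is the same (`Metric.diam_closure`, bounded because `X` is compact); `hA.fi`.
`sc_so`: `Fc E` is finite (`Good.finF`); let `W` be the union of the closures of the `U ∈ Fc E` with `U ∉ Us E`: closed (finite union). `So` is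
disjoint from `W` by definition of `Us`. Every point is in the closure of a face (`PG.cover`, module Bridge), so `Wᶜ ⊆ Om E`. `Wᶜ` is open.
`sc_path` : `closure U` is the image of a closed disc (`Good.disc`, `JDom`, `DiscX`), so it is path connected.
`K_shallow` (7.9 a): `x ∈ K E` means `x ∈ frontier U`, `y ∈ closure U ∩ So` for a face `U`. Suppose `w/3 ≤ a i x`. Then `x ∈ interior (A i)`
(`lv_A`: `w/4 < a i x`), `y ∉ interior (A i)`, so the connected set `closure U` meets `frontier (A i)`: `IsPreconnected.inter_frontier_nonempty` with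
`t = interior (A i)` gives `y' ∈ closure U ∩ frontier (interior (A i))`, `frontier_interior_subset`: `y' ∈ frontier (A i)`, `a i y' < w/4`.
By `sc_fi` and `lv_ge` (k0 ≤ L1 x) `h.mark.osca` gives `|a i x - a i y'| < w/1000`. Contradiction (`w > 0`).
`K_deep` (7.9 b): `x ∈ frontier U`, `x' ∈ closure U ∩ So`. `x' ∉ OT`, so `x' ∉ Z` and `δ x' ≤ nhole` (`lv_T`). Suppose `x ∈ Z` or
`nhole + 1/8 ≤ δ x`. The sets `A = Z ∪ {t < δ}` (open: `h.dep.dep.openT`) and `B = {y ∉ Z, δ y < t}` (open: `δ` is continuous on the open set `Zᶜ`, `Z`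
finite), `t = nhole + 1/16`, are disjoint; `x ∈ A`, `x' ∈ B`, so by connectedness some `y ∈ closure U` is in neither: `y ∉ Z`, `δ y = t`.
`lv_deep` for `y` (nb + 1 ≤ nhole: `nhole = kT + n0 ≥ k0 ≥ nb + m + 10`), `lv_osc` for `y`, `C = closure U`, `ℓ = L1 y` (`sc_fi`, `lv_ge`): `|δ x' - δ y| < 1/16`,
so `δ x' > nhole`, contradiction.
-/
import Mathlib
import Pool.Agent.ETM.IfLv
import Pool.Agent.ETM.IfSd
import Pool.Agent.ETM.Bridge

set_option autoImplicit false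

open Set Metric Topology Filter
open Pool.JS

namespace Pool.ETM

variable {X : Type*} [MetricSpace X] [CompactSpace X] [Sph X] {c : Ctx X} (h : c.Ok) {V : Set X} {E : Set (Set X)}

omit [CompactSpace X] [Sph X] in
private theorem scb_fr {C t : Set X} (hC : IsPreconnected C) (ht : IsOpen t) (h1 : (C ∩ t).Nonempty)
    (h2 : (C ∩ tᶜ).Nonempty) : (C ∩ frontier t).Nonempty := by
  by_contra hno
  rw [Set.not_nonempty_iff_eq_empty, Set.eq_empty_iff_forall_notMem] at hno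
  have hsub : C ⊆ t ∪ (closure t)ᶜ := by
    intro y hy
    by_cases hyt : y ∈ t
    · exact Or.inl hyt
    · right
      intro hyc
      apply hno y
      refine ⟨hy, hyc, ?_⟩
      rwa [ht.interior_eq]
  have h2' : (C ∩ (closure t)ᶜ).Nonempty := by
    obtain ⟨y, hy, hyt⟩ := h2
    refine ⟨y, hy, ?_⟩
    rcases hsub hy with hh | hh
    · exact absurd hh hyt
    · exact hh
  obtain ⟨y, _, hy1, hy2⟩ := hC t (closure t)ᶜ ht isClosed_closure.isOpen_compl hsub h1 h2'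
  exact hy2 (subset_closure hy1)

include h

theorem sc_fi (hA : c.Adm c.L1 V E) {U : Set X} (hU : U ∈ Fc E) {x : X} (hx : x ∈ closure U) :
    IsPreconnected (closure U) ∧ diam (c.f^[c.L1 x] '' closure U) < c.η := by
  refine ⟨hU.conn.closure, ?_⟩
  have h1 := hA.fi U hU x hx
  have hc : Continuous c.f^[c.L1 x] := h.dyn.cont.iterate _
  have h2 : c.f^[c.L1 x] '' closure U ⊆ closure (c.f^[c.L1 x] '' U) := image_closure_subset_closure_image hc
  have h3 := Metric.diam_mono h2 (isClosed_closure.isCompact.isBounded)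
  rw [Metric.diam_closure] at h3
  exact h3.trans_lt h1

theorem sc_path (hA : c.Adm c.L1 V E) {U : Set X} (hU : U ∈ Fc E) : IsPathConnected (closure U) := by
  obtain ⟨_, Φ, hΦ, _, him, _⟩ := hA.good.disc U hU
  rw [← him]
  apply IsPathConnected.image' _ hΦ
  exact (convex_closedBall (0 : ℂ) 1).isPathConnected ⟨0, mem_closedBall_self zero_le_one⟩

theorem sc_so (hA : c.Adm c.L1 V E) : c.So ⊆ interior (c.Om E) ∧ IsClosed (c.Om E) := by
  have hOm : c.Om E = ⋃ U ∈ c.Us E, closure U := by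
    ext x
    simp only [Ctx.Om, mem_sUnion, mem_ofPred_eq, mem_iUnion]
    constructor
    · rintro ⟨F, ⟨U, hU, rfl⟩, hx⟩
      exact ⟨U, hU, hx⟩
    · rintro ⟨U, hU, hx⟩
      exact ⟨_, ⟨U, hU, rfl⟩, hx⟩
  have hfin : (c.Us E).Finite := hA.good.finF.subset (fun U hU => hU.1)
  have hW : IsClosed (⋃ U ∈ {U | U ∈ Fc E ∧ U ∉ c.Us E}, closure U) :=
    (hA.good.finF.subset (fun U hU => hU.1)).isClosed_biUnion fun U _ => isClosed_closure
  constructor
  · apply (interior_maximal _ hW.isOpen_compl).trans' _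
    · intro x hx
      obtain ⟨U, hU, hxU⟩ := hA.good.pg.cover hA.good.disc x
      rw [hOm]
      by_contra hcon
      apply hx
      refine mem_iUnion₂.2 ⟨U, ⟨hU, fun hUs => hcon (mem_iUnion₂.2 ⟨U, hUs, hxU⟩)⟩, hxU⟩
    · intro x hx hxW
      obtain ⟨U, ⟨hU, hUs⟩, hxU⟩ := mem_iUnion₂.1 hxW
      exact hUs ⟨hU, x, hxU, hx⟩
  · rw [hOm]
    exact hfin.isClosed_biUnion fun U _ => isClosed_closure

/-- 7.9 (a) -/
theorem sc_shallow (hA : c.Adm c.L1 V E) {i : ℕ} (hi : i < c.nc) {x : X} (hx : x ∈ c.K E) : c.a i x < c.w / 3 := by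
  obtain ⟨J, ⟨U, hU, ⟨y, hyU, hyS⟩, rfl⟩, hxU⟩ := hx
  by_contra hcon
  have hcon' : c.w / 3 ≤ c.a i x := not_lt.1 hcon
  have hw := h.mark.wpos
  obtain ⟨_, hA1, _, hA2⟩ := lv_A h hi
  have hxA : x ∈ interior (c.A i) := hA1 (by
    show c.w / 4 < c.a i x
    linarith)
  have hyA : y ∉ interior (c.A i) := fun hy => hyS (Or.inl (mem_iUnion₂.2 ⟨i, hi, hy⟩))
  have hxc : x ∈ closure U := frontier_subset_closure hxU
  obtain ⟨hpre, hdiam⟩ := sc_fi h hA hU hxc
  obtain ⟨y', hy'U, hy'f⟩ := scb_fr hpre isOpen_interior ⟨x, hxc, hxA⟩ ⟨y, hyU, hyA⟩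
  have h1 := hA2 y' (frontier_interior_subset hy'f)
  have h2 := h.mark.osca _ (lv_ge h x).2 _ hpre hdiam x hxc y' hy'U i hi
  rw [abs_lt] at h2
  linarith [h2.2]

/-- 7.9 (b) -/
theorem sc_deep (hA : c.Adm c.L1 V E) {x : X} (hx : x ∈ c.K E) : x ∉ c.Z ∧ c.δ x < c.nhole + 1 / 8 := by
  obtain ⟨J, ⟨U, hU, ⟨x', hx'U, hx'S⟩, rfl⟩, hxU⟩ := hx
  have hxc : x ∈ closure U := frontier_subset_closure hxU
  obtain ⟨_, _, _, hT, _⟩ := lv_T h
  have hx'OT : x' ∉ c.OT := fun hy => hx'S (Or.inr hy)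
  have hx'Z : x' ∉ c.Z := fun hz => hx'OT (hT (Or.inr hz))
  have hx'd : c.δ x' ≤ c.nhole := by
    by_contra hh
    exact hx'OT (hT (Or.inl (not_le.1 hh)))
  by_contra hcon
  have hcon' : x ∈ c.Z ∨ (c.nhole : ℝ) + 1 / 8 ≤ c.δ x := by
    by_contra hh
    push Not at hh
    exact hcon hh
  have hAo : IsOpen (c.Z ∪ {y | (c.nhole : ℝ) + 1 / 16 < c.δ y}) := h.dep.dep.openT _
  have hZo : IsOpen (c.Zᶜ) := h.dep.dep.finZ.isClosed.isOpen_compl
  have hBo : IsOpen (c.Zᶜ ∩ c.δ ⁻¹' Iio ((c.nhole : ℝ) + 1 / 16)) :=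
    h.dep.dep.cont.isOpen_inter_preimage hZo isOpen_Iio
  have hpre : IsPreconnected (closure U) := (sc_fi h hA hU hxc).1
  have hy : ∃ y ∈ closure U, y ∉ c.Z ∧ c.δ y = c.nhole + 1 / 16 := by
    by_contra hno
    push Not at hno
    have hsub : closure U ⊆ (c.Z ∪ {y | (c.nhole : ℝ) + 1 / 16 < c.δ y}) ∪
        (c.Zᶜ ∩ c.δ ⁻¹' Iio ((c.nhole : ℝ) + 1 / 16)) := by
      intro y hy
      by_cases hyZ : y ∈ c.Z
      · exact Or.inl (Or.inl hyZ)
      · rcases lt_or_gt_of_ne (hno y hy hyZ) with hlt | hgt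
        · exact Or.inr ⟨hyZ, hlt⟩
        · exact Or.inl (Or.inr hgt)
    have hm1 : (closure U ∩ (c.Z ∪ {y | (c.nhole : ℝ) + 1 / 16 < c.δ y})).Nonempty := by
      refine ⟨x, hxc, ?_⟩
      rcases hcon' with hz | hd
      · exact Or.inl hz
      · right
        show (c.nhole : ℝ) + 1 / 16 < c.δ x
        linarith
    have hm2 : (closure U ∩ (c.Zᶜ ∩ c.δ ⁻¹' Iio ((c.nhole : ℝ) + 1 / 16))).Nonempty := by
      refine ⟨x', hx'U, hx'Z, ?_⟩
      show c.δ x' < (c.nhole : ℝ) + 1 / 16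
      linarith
    obtain ⟨y, _, hy1, hy2, hy3⟩ := hpre _ _ hAo hBo hsub hm1 hm2
    rcases hy1 with hy1 | hy1
    · exact hy2 hy1
    · have h1 : (c.nhole : ℝ) + 1 / 16 < c.δ y := hy1
      have h2 : c.δ y < (c.nhole : ℝ) + 1 / 16 := hy3
      linarith
  obtain ⟨y, hyU, hyZ, hyd⟩ := hy
  have hk0 := h.mark.k0big
  have hnh : c.k0 ≤ c.nhole := by
    unfold Ctx.nhole Ctx.kT
    rw [Nat.add_assoc]
    exact Nat.le_add_right _ _
  have hnbR : (c.nb : ℝ) + 1 ≤ c.nhole := by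
    have : c.nb + 1 ≤ c.nhole := by omega
    exact_mod_cast this
  have h1 := lv_deep h hyZ (by rw [hyd]; linarith) (by rw [hyd]; linarith)
  obtain ⟨_, hdy⟩ := sc_fi h hA hU hyU
  have h2 := (lv_osc h hyZ (by rw [hyd]; linarith) hpre hyU hdy (lv_ge h y).2 h1 x' hx'U).2
  rw [abs_lt, hyd] at h2
  linarith [h2.1]

end Pool.ETM
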