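/-
Project ETM (MP_c7bb65_an), block SPc: the interface names `K_shallow`, `K_deep`.
-/
import Mathlib
import Pool.Agent.ETM.ScB

set_option autoImplicit false

open Set Metric Topology Filter
open Pool.JS

namespace Pool.ETM

variable {X : Type*} [MetricSpace X] [CompactSpace X] [Sph X]

section

variable {c : Ctx X} (h : c.Ok)

include h

/-- 7.9 (a) -/
theorem K_shallow {V : Set X} {E : Set (Set X)} (hA : c.Adm c.L1 V E) {i : ℕ} (hi : i < c.nc) {x : X} (hx : x ∈ c.K E) :
    c.a i x < c.w / 3 :=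
  sc_shallow h hA hi hx

/-- 7.9 (b) -/
theorem K_deep {V : Set X} {E : Set (Set X)} (hA : c.Adm c.L1 V E) {x : X} (hx : x ∈ c.K E) :
    x ∉ c.Z ∧ c.δ x < c.nhole + 1 / 8 :=
  sc_deep h hA hx

end

end Pool.ETM
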