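/-
Project ETM (MP_c7bb65_an), block ST (section 8 of /team-store/c7bb65_proof.md).
MODULE StF (difficulty 2).  The edges of the fixed graph (8.4).

RECIPE.  `st_alt`: `E = spE (pullE f E) el` (`hF.spl.hE`): `e ∈ pullE f E` and `e ⊆ K (pullE f E)`, so `e ∈ Rig E`; or `e = el i θ`.
`st_map`: `e ∈ Rig E` is in `pullE f E`, so `f '' e ∈ E` by `Dyn.edge_image` (LeX; `hF.adm.good.pg`, `hF.adm.avoid`).
`st_exit`: let all the sets `f^[j] '' e` be in `Rig E`, `x ∈ e` (an edge is nonempty: an arc).  Then `f^[j] x ∈ K (pullE f E)` for all `j`; so by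
`K_shallow`, `K_deep` (IfSc, with `hF.adm1`): `a i (f^[j] x) < w/3` for all `i < nc`, `f^[j] x ∉ Z`.  `h.mark.m2a x`: some `t` with
`w/2 ≤ a i (f^[t] x)`: contradiction (`w > 0`); or `∈ Z`: contradiction; or `nb + 1 ≤ δ (f^[t] x)`: `h.mark.m2b` gives `t'` with
`1/4 ≤ a i (f^[t' + t] x) < w/3 ≤ 1/24`: contradiction.
`fix_edges`: let `t` be the least `t` with `f^[t] '' e ∉ Rig E` (`Nat.find`, `st_exit`); by `st_map` (induction on `j ≤ t`;
`f^[j + 1] '' e = f '' (f^[j] '' e)`) `f^[t] '' e ∈ E`; `st_alt`.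
-/
import Mathlib
import Pool.Agent.ETM.LeX
import Pool.Agent.ETM.ScH1

set_option autoImplicit false

open Set Metric Topology Filter
open Pool.JS

namespace Pool.ETM

variable {X : Type*} [MetricSpace X] [CompactSpace X] [Sph X] {c : Ctx X} (h : c.Ok)

include h

variable {Pt : ℕ → Set X → X → Set X} {us : ℕ → Set X → X → X} {el : ℕ → Set X → Set X} {V : Set X} {E : Set (Set X)}


theorem st_alt (hF : c.Fix Pt us el V E) {e : Set X} (he : e ∈ E) :
    e ∈ c.Rig E ∨ ∃ i < c.nc, ∃ θ ∈ c.Eint i, e = el i θ := by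
  have he' := he
  rw [hF.spl.hE] at he'
  rcases he' with ⟨h1, h2⟩ | h1
  · exact Or.inl ⟨he, h1, h2⟩
  · exact Or.inr h1

theorem st_map (hF : c.Fix Pt us el V E) {e : Set X} (he : e ∈ c.Rig E) : c.f '' e ∈ E :=
  (h.dyn.edge_image hF.adm.good.pg hF.adm.avoid he.2.1).1

theorem st_exit (hF : c.Fix Pt us el V E) {e : Set X} (he : e ∈ E) : ∃ t : ℕ, c.f^[t] '' e ∉ c.Rig E := by
  by_contra hno
  push Not at hno
  obtain ⟨x, -, q, -, harc, -⟩ := hF.adm.good.pg.arc e he
  have hx : x ∈ e := harc.left_mem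
  have hK : ∀ j, c.f^[j] x ∈ c.K (pullE c.f E) := fun j => (hno j).2.2 ⟨x, hx, rfl⟩
  have ha : ∀ j, ∀ i < c.nc, c.a i (c.f^[j] x) < c.w / 3 := fun j i hi => K_shallow h hF.adm1 hi (hK j)
  have hZ : ∀ j, c.f^[j] x ∉ c.Z := fun j => (K_deep h hF.adm1 (hK j)).1
  have hw := h.mark.wpos
  have hw' := h.mark.wle
  obtain ⟨t, ht, h1⟩ := h.mark.m2a x
  rcases h1 with ⟨i, hi, h1⟩ | h1 | h1
  · have := ha t i hi
    linarith
  · exact hZ t h1
  · obtain ⟨t', -, ⟨i, hi, h2⟩, -⟩ := h.mark.m2b _ (hZ t) (by linarith)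
    rw [← Function.iterate_add_apply] at h2
    have := ha (t' + t) i hi
    linarith

/-- 8.4: every edge of the fixed graph is rigid or flexible; rigid edges are mapped to edges and become flexible -/
theorem fix_edges (hF : c.Fix Pt us el V E) {e : Set X} (he : e ∈ E) :
    (e ∈ c.Rig E ∨ ∃ i < c.nc, ∃ θ ∈ c.Eint i, e = el i θ) ∧
      ∃ t : ℕ, (∀ j < t, c.f^[j] '' e ∈ c.Rig E) ∧ ∃ i < c.nc, ∃ θ ∈ c.Eint i, c.f^[t] '' e = el i θ := by
  classical
  refine ⟨st_alt h hF he, ?_⟩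
  have hex := st_exit h hF he
  have hlt : ∀ j < Nat.find hex, c.f^[j] '' e ∈ c.Rig E := by
    intro j hj
    by_contra hno
    exact Nat.find_min hex hj hno
  have hE : ∀ j ≤ Nat.find hex, c.f^[j] '' e ∈ E := by
    intro j
    induction j with
    | zero =>
      intro _
      have : c.f^[0] '' e = e := by simp
      rw [this]
      exact he
    | succ j ih =>
      intro hj
      have h1 : c.f^[j + 1] '' e = c.f '' (c.f^[j] '' e) := by
        rw [Function.iterate_succ', image_comp]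
      rw [h1]
      exact st_map h hF (hlt j (by omega))
  refine ⟨Nat.find hex, hlt, ?_⟩
  rcases st_alt h hF (hE _ le_rfl) with h2 | h2
  · exact absurd h2 (Nat.find_spec hex)
  · exact h2

end Pool.ETM
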