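import Pool.Agent.ETM.LvB
import Pool.Agent.ETM.LvE
import Pool.Agent.ETM.LvG
import Pool.Agent.ETM.SaC
import Pool.Agent.ETM.SaD
import Pool.Agent.ETM.SqFin
import Pool.Agent.ETM.StF
import Pool.Agent.ETM.Bridge
import Pool.Agent.ETM.LeX

/-!
ETM, block FL: the theorems of other blocks used by block FL (`lv_small`, `lv_R3`, `lv_bd`, `lv_A`, `om_near`, `us_near`, `el_inter`, `fix_edges`, `Dyn.edge_image`).
-/
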