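import Pool.Agent.ETM.FlDefs
import Pool.Agent.ETM.FlIf

/-!
ETM, MODULE FlA (difficulty 3): geometry of one edge `θ` of level `k` in the coordinate `Q k` (a segment of length `s`).

RECIPE.  `hθ : θ ∈ c.E k`; `h.good k : Good (c.V k) (c.E k)`, so `PG` gives the two ends: `(h.good k).pg.arc`.  `h.Qseg`: `Q '' θ = segment ℝ (Q v) (Q v')`, `‖Q v - Q v'‖ = s`; `s ≥ 400 ε > 0`.
`fl_other`: from `arc`: `θ ∩ V k = {p, q}`, `ArcX θ p q` so `p ≠ q` (`ArcX.ne`).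
`fl_dist`: `Q x = Q v + t • (Q v' - Q v)`, `0 ≤ t ≤ 1` (`segment_eq_image'`), so `‖Q x - Q v‖ = t * s`, `‖Q x - Q v'‖ = (1 - t) * s`, `‖Q x - Q y‖ = |t - t'| * s`.
`fl_at`: the point `Q v + (r / s) • (Q v' - Q v)` of the segment is `Q x`, `x ∈ θ`.
`fl_mid`: `y` with `‖Q y - Q v‖ = s / 2` (`fl_at`), then also `‖Q y - Q v'‖ = s / 2` and all vertices in `θ` are `v` or `v'`; uniqueness: `fl_dist` and `Qinj` on `D k θ ⊇ θ` (`Dsub`).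
`fl_half`: `half k θ v = g '' (segment ∩ closedBall (Q v) (s / 2))`, `g` from `Qinv` (continuous on the thickening, which contains the segment as `ε > 0`), the intersection is convex.  For `x ∈ θ`, `g (Q x) = x`.
`fl_Bm`: `Bm k θ r = g '' closedBall (Q y) r` with `mid = {y}`, `closedBall (Q y) r ⊆ thickening (20 ε) (Q '' θ)` since `r < 20 ε`; `z ∈ thickening` is `z = Q x`, `x ∈ D` (`Qimg`), `g z = x`.  In `nh k θ r`: `infDist (Q x) (Q '' θ) ≤ ‖Q x - Q y‖ ≤ r`.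
`fl_Bc_iff`: `→`: `x ∈ c.B k v (20 ε)` (as `r < 20 ε`), `h.ball`.  `fl_Bc`: as for `Bm` with `Q v`.
-/

set_option autoImplicit false

open Set Metric Topology Filter
open Pool.JS

namespace Pool.ETM

theorem fla_norm (A B : ℂ) {s : ℝ} (hAB : ‖A - B‖ = s) (t : ℝ) (ht : 0 ≤ t) (ht1 : t ≤ 1) :
    ‖A + t • (B - A) - A‖ = t * s ∧ ‖A + t • (B - A) - B‖ = (1 - t) * s := by
  have hBA : ‖B - A‖ = s := by rw [norm_sub_rev, hAB]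
  constructor
  · have h1 : A + t • (B - A) - A = t • (B - A) := by abel
    rw [h1, norm_smul, hBA, Real.norm_eq_abs, abs_of_nonneg ht]
  · have h1 : A + t • (B - A) - B = (1 - t) • (A - B) := by
      simp only [Complex.real_smul]
      push_cast
      ring
    rw [h1, norm_smul, hAB, Real.norm_eq_abs, abs_of_nonneg (by linarith)]

theorem fla_norm2 (A B : ℂ) {s : ℝ} (hAB : ‖A - B‖ = s) (t t' : ℝ) :
    ‖A + t • (B - A) - (A + t' • (B - A))‖ = |t - t'| * s := by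
  have hBA : ‖B - A‖ = s := by rw [norm_sub_rev, hAB]
  have h1 : A + t • (B - A) - (A + t' • (B - A)) = (t - t') • (B - A) := by
    simp only [Complex.real_smul]
    push_cast
    ring
  rw [h1, norm_smul, hBA, Real.norm_eq_abs]

variable {X : Type*} [MetricSpace X] {c : Ctx X} (h : c.NetOk) {k : ℕ} {θ : Set X} (hθ : θ ∈ c.E k)

include h hθ

omit hθ in
theorem fla_spos : 0 < c.s := by
  have h1 := h.εpos
  have h2 := h.sε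
  linarith

theorem fla_ends : ∃ p ∈ c.V k, ∃ q ∈ c.V k, p ∈ θ ∧ q ∈ θ ∧ p ≠ q ∧ θ ∩ c.V k = {p, q} := by
  obtain ⟨p, hp, q, hq, harc, hpq⟩ := (h.good k).pg.arc θ hθ
  exact ⟨p, hp, q, hq, harc.left_mem, harc.right_mem, harc.ne, hpq⟩

theorem fl_other {v : X} (hv : v ∈ c.V k) (hvθ : v ∈ θ) :
    ∃ v' ∈ c.V k, v' ∈ θ ∧ v' ≠ v ∧ ∀ w ∈ c.V k, w ∈ θ → w = v ∨ w = v' := by
  obtain ⟨p, hp, q, hq, hpθ, hqθ, hne, hpq⟩ := fla_ends h hθ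
  have hmem : ∀ w ∈ c.V k, w ∈ θ → w = p ∨ w = q := by
    intro w hw hwθ
    have : w ∈ θ ∩ c.V k := ⟨hwθ, hw⟩
    rw [hpq] at this
    exact this
  rcases hmem v hv hvθ with rfl | rfl
  · exact ⟨q, hq, hqθ, hne.symm, hmem⟩
  · exact ⟨p, hp, hpθ, hne, fun w hw hwθ => (hmem w hw hwθ).symm⟩

theorem fla_par {v v' : X} (hv : v ∈ c.V k) (hvθ : v ∈ θ) (hv' : v' ∈ c.V k) (hvθ' : v' ∈ θ) (hne : v ≠ v') {x : X}
    (hx : x ∈ θ) : ∃ t : ℝ, 0 ≤ t ∧ t ≤ 1 ∧ c.Q k x = c.Q k v + t • (c.Q k v' - c.Q k v) := by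
  have h1 : c.Q k x ∈ c.Q k '' θ := ⟨x, hx, rfl⟩
  rw [(h.Qseg k θ hθ v hv v' hv' hne hvθ hvθ').1, segment_eq_image'] at h1
  obtain ⟨t, ht, hxt⟩ := h1
  exact ⟨t, ht.1, ht.2, hxt.symm⟩

theorem fl_dist {v v' : X} (hv : v ∈ c.V k) (hvθ : v ∈ θ) (hv' : v' ∈ c.V k) (hvθ' : v' ∈ θ) (hne : v ≠ v') {x y : X}
    (hx : x ∈ θ) (hy : y ∈ θ) : ‖c.Q k x - c.Q k y‖ = |‖c.Q k x - c.Q k v‖ - ‖c.Q k y - c.Q k v‖| ∧
      ‖c.Q k x - c.Q k v'‖ = c.s - ‖c.Q k x - c.Q k v‖ := by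
  obtain ⟨t, ht0, ht1, hxt⟩ := fla_par h hθ hv hvθ hv' hvθ' hne hx
  obtain ⟨t', ht0', ht1', hyt⟩ := fla_par h hθ hv hvθ hv' hvθ' hne hy
  have hs := (h.Qseg k θ hθ v hv v' hv' hne hvθ hvθ').2
  have hs0 := fla_spos h
  have n1 := fla_norm _ _ hs t ht0 ht1
  have n2 := fla_norm _ _ hs t' ht0' ht1'
  have n3 := fla_norm2 _ _ hs t t'
  rw [← hxt] at n1
  rw [← hyt] at n2
  rw [← hxt, ← hyt] at n3
  rw [n1.1, n1.2, n2.1, n3]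
  constructor
  · rw [← sub_mul, abs_mul, abs_of_pos hs0]
  · ring

theorem fl_at {v : X} (hv : v ∈ c.V k) (hvθ : v ∈ θ) {r : ℝ} (h0 : 0 ≤ r) (h1 : r ≤ c.s) :
    ∃ x ∈ θ, ‖c.Q k x - c.Q k v‖ = r := by
  obtain ⟨v', hv', hvθ', hne, -⟩ := fl_other h hθ hv hvθ
  have hs0 := fla_spos h
  obtain ⟨hseg, hs⟩ := h.Qseg k θ hθ v hv v' hv' hne.symm hvθ hvθ'
  have ht0 : 0 ≤ r / c.s := div_nonneg h0 hs0.le
  have ht1 : r / c.s ≤ 1 := (div_le_one hs0).mpr h1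
  have h2 : c.Q k v + (r / c.s) • (c.Q k v' - c.Q k v) ∈ c.Q k '' θ := by
    rw [hseg, segment_eq_image']
    exact ⟨r / c.s, ⟨ht0, ht1⟩, rfl⟩
  obtain ⟨x, hx, hxe⟩ := h2
  refine ⟨x, hx, ?_⟩
  rw [hxe, (fla_norm _ _ hs _ ht0 ht1).1, div_mul_cancel₀ _ hs0.ne']

theorem fl_mid : ∃ y ∈ θ, c.mid k θ = {y} ∧ ∀ v ∈ c.V k, v ∈ θ → ‖c.Q k y - c.Q k v‖ = c.s / 2 := by
  have hs0 := fla_spos h
  obtain ⟨v, hv, -, -, hvθ, -⟩ := fla_ends h hθ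
  obtain ⟨v', hv', hvθ', hne, hall⟩ := fl_other h hθ hv hvθ
  obtain ⟨y, hy, hyv⟩ := fl_at h hθ hv hvθ (r := c.s / 2) (by linarith) (by linarith)
  have hy2 : ∀ w ∈ c.V k, w ∈ θ → ‖c.Q k y - c.Q k w‖ = c.s / 2 := by
    intro w hw hwθ
    rcases hall w hw hwθ with rfl | rfl
    · exact hyv
    · rw [(fl_dist h hθ hv hvθ hw hwθ hne.symm hy hy).2, hyv]
      ring
  refine ⟨y, hy, ?_, hy2⟩
  apply Subset.antisymm
  · rintro y' ⟨hy', hy2'⟩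
    have h1 := (fl_dist h hθ hv hvθ hv' hvθ' hne.symm hy' hy).1
    rw [hy2' v hv hvθ, hyv, sub_self, abs_zero, norm_eq_zero, sub_eq_zero] at h1
    exact h.Qinj k θ hθ (h.Dsub k θ hθ hy') (h.Dsub k θ hθ hy) h1
  · rintro y' hy'
    rw [mem_singleton_iff] at hy'
    subst hy'
    exact ⟨hy, hy2⟩

theorem fla_sub : c.Q k '' θ ⊆ thickening (20 * c.ε) (c.Q k '' θ) :=
  self_subset_thickening (by have := h.εpos; linarith) _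

theorem fl_half {v : X} (hv : v ∈ c.V k) (hvθ : v ∈ θ) : IsPreconnected (c.half k θ v) ∧ v ∈ c.half k θ v ∧
    c.mid k θ ⊆ c.half k θ v ∧ c.half k θ v ⊆ c.nh k θ 0 := by
  have hs0 := fla_spos h
  obtain ⟨g, hg, hgQ⟩ := h.Qinv k θ hθ
  obtain ⟨v', hv', hvθ', hne, -⟩ := fl_other h hθ hv hvθ
  have hseg := (h.Qseg k θ hθ v hv v' hv' hne.symm hvθ hvθ').1
  have heq : c.half k θ v = g '' (segment ℝ (c.Q k v) (c.Q k v') ∩ closedBall (c.Q k v) (c.s / 2)) := by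
    rw [← hseg]
    ext x
    constructor
    · rintro ⟨hx1, hx2⟩
      exact ⟨c.Q k x, ⟨⟨x, hx1, rfl⟩, by rw [mem_closedBall, dist_eq_norm]; exact hx2⟩, hgQ x (h.Dsub k θ hθ hx1)⟩
    · rintro ⟨z, ⟨⟨y, hy, rfl⟩, hz⟩, rfl⟩
      rw [hgQ y (h.Dsub k θ hθ hy)]
      rw [mem_closedBall, dist_eq_norm] at hz
      exact ⟨hy, hz⟩
  refine ⟨?_, ⟨hvθ, ?_⟩, ?_, ?_⟩
  · rw [heq]
    apply ((convex_segment _ _).inter (convex_closedBall _ _)).isPreconnected.image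
    apply hg.mono
    rw [← hseg]
    exact inter_subset_left.trans (fla_sub h hθ)
  · rw [sub_self, norm_zero]
    linarith
  · rintro y ⟨hy, hy2⟩
    exact ⟨hy, (hy2 v hv hvθ).le⟩
  · rintro y ⟨hy, -⟩
    exact ⟨h.Dsub k θ hθ hy, (infDist_zero_of_mem (mem_image_of_mem (c.Q k) hy)).le⟩

theorem fla_ball {y : X} (hy : y ∈ θ) {r : ℝ} (h0 : 0 ≤ r) (hr : r < 20 * c.ε) :
    IsPreconnected {x | x ∈ c.D k θ ∧ ‖c.Q k x - c.Q k y‖ ≤ r} ∧ y ∈ {x | x ∈ c.D k θ ∧ ‖c.Q k x - c.Q k y‖ ≤ r} ∧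
      {x | x ∈ c.D k θ ∧ ‖c.Q k x - c.Q k y‖ ≤ r} ⊆ c.nh k θ r := by
  obtain ⟨g, hg, hgQ⟩ := h.Qinv k θ hθ
  have hsub : closedBall (c.Q k y) r ⊆ thickening (20 * c.ε) (c.Q k '' θ) := by
    intro z hz
    rw [mem_thickening_iff]
    exact ⟨c.Q k y, ⟨y, hy, rfl⟩, (mem_closedBall.mp hz).trans_lt hr⟩
  have heq : {x | x ∈ c.D k θ ∧ ‖c.Q k x - c.Q k y‖ ≤ r} = g '' closedBall (c.Q k y) r := by
    ext x
    constructor
    · rintro ⟨hx1, hx2⟩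
      exact ⟨c.Q k x, by rw [mem_closedBall, dist_eq_norm]; exact hx2, hgQ x hx1⟩
    · rintro ⟨z, hz, rfl⟩
      have hz2 := hsub hz
      rw [← h.Qimg k θ hθ] at hz2
      obtain ⟨x, hx, rfl⟩ := hz2
      rw [hgQ x hx]
      rw [mem_closedBall, dist_eq_norm] at hz
      exact ⟨hx, hz⟩
  refine ⟨?_, ⟨h.Dsub k θ hθ hy, ?_⟩, ?_⟩
  · rw [heq]
    exact (convex_closedBall _ _).isPreconnected.image g (hg.mono hsub)
  · rw [sub_self, norm_zero]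
    exact h0
  · rintro x ⟨hx1, hx2⟩
    refine ⟨hx1, ?_⟩
    rw [← dist_eq_norm] at hx2
    exact (infDist_le_dist_of_mem (mem_image_of_mem (c.Q k) hy)).trans hx2

theorem fl_Bm {r : ℝ} (h0 : 0 ≤ r) (hr : r < 20 * c.ε) : IsPreconnected (c.Bm k θ r) ∧ c.mid k θ ⊆ c.Bm k θ r ∧
    c.Bm k θ r ⊆ c.nh k θ r := by
  obtain ⟨y, hy, hmid, -⟩ := fl_mid h hθ
  have heq : c.Bm k θ r = {x | x ∈ c.D k θ ∧ ‖c.Q k x - c.Q k y‖ ≤ r} := by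
    ext x
    constructor
    · rintro ⟨hx1, y', hy', hx2⟩
      rw [hmid, mem_singleton_iff] at hy'
      subst hy'
      exact ⟨hx1, hx2⟩
    · rintro ⟨hx1, hx2⟩
      exact ⟨hx1, y, by rw [hmid]; exact mem_singleton y, hx2⟩
  obtain ⟨h1, h2, h3⟩ := fla_ball h hθ hy h0 hr
  rw [heq]
  refine ⟨h1, ?_, h3⟩
  rw [hmid, singleton_subset_iff]
  exact h2

theorem fl_Bc_iff {v : X} (hv : v ∈ c.V k) (hvθ : v ∈ θ) {r : ℝ} (hr : r < 20 * c.ε) {x : X} :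
    x ∈ c.Bc k v r ↔ x ∈ c.D k θ ∧ ‖c.Q k x - c.Q k v‖ ≤ r := by
  constructor
  · rintro ⟨θ', hθ', hvθ', hx1, hx2⟩
    have h1 : x ∈ c.B k v (20 * c.ε) := ⟨θ', hθ', hvθ', hx1, hx2.trans_lt hr⟩
    rw [h.ball k θ hθ v hv hvθ] at h1
    exact ⟨h1.1, hx2⟩
  · rintro ⟨hx1, hx2⟩
    exact ⟨θ, hθ, hvθ, hx1, hx2⟩

theorem fl_Bc {v : X} (hv : v ∈ c.V k) (hvθ : v ∈ θ) {r : ℝ} (h0 : 0 ≤ r) (hr : r < 20 * c.ε) :
    IsPreconnected (c.Bc k v r) ∧ v ∈ c.Bc k v r ∧ c.Bc k v r ⊆ c.nh k θ r := by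
  have heq : c.Bc k v r = {x | x ∈ c.D k θ ∧ ‖c.Q k x - c.Q k v‖ ≤ r} := by
    ext x
    exact fl_Bc_iff h hθ hv hvθ hr
  rw [heq]
  exact fla_ball h hθ hvθ h0 hr

end Pool.ETM
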