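import Pool.Agent.ETM.FlA

/-!
ETM, MODULE FlB (difficulty 3): the subgraphs `MS E' S` near an interior edge `θ` of the colour `i` (`k = lev i`).

RECIPE.  `fl_R3`: `θ` is contained in the frontier of a face (`PG.faces` for the good graph `(V k, E k)`; `NoCut` from `noCut_of_discs`, `Good.disc`), so in a closed face `F`, `F ⊆ A i` (`hθ.2`); `F` meets `A i`, so `F ⊆ St (A i)`, and so on: `F ⊆ R3 i`.
`fl_small`: `lv_small` with `fl_R3`.  `fl_ms`: `x ∈ MS E' S`: `x ∈ frontier U`, `U ∈ Fc E'`, `y ∈ closure U ∩ S`; `fl_small` (`frontier U ⊆ closure U`).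
`fl_edge_small`: the edge `e` is contained in the frontier of a face of `(V', E')` (`PG.faces`), `fl_small`.
`fl_ms_half`: `S = half k θ v ⊆ nh k θ 0 ⊆ nh k θ (10 ε)` (`fl_half`); `y ∈ half`: `y ∈ θ`, `‖Q y - Q v‖ ≤ s / 2`, `‖Q y - Q v'‖ = s - ‖Q y - Q v‖ ≥ s / 2` (`fl_dist`); `infDist (Q x) (Q '' θ) ≤ ‖Q x - Q y‖ < ε`.
`fl_ms_Y`: `y ∈ Bm k θ (3 ε)`: `‖Q y - Q y₀‖ ≤ 3 ε`, `mid = {y₀}`, so `‖Q x - Q y₀‖ < 4 ε`, `‖Q y₀ - Q v‖ = s / 2` (`fl_mid`).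
`fl_ms_Yv`: `fl_Bc_iff`.  `fl_two_half`: `y ∈ half v`, `y' ∈ half v'` with `‖Q x - Q y‖ < ε`, `‖Q x - Q y'‖ < ε`, so `‖Q y - Q y'‖ < 2 ε`; `‖Q y - Q v‖ ≤ s / 2 ≤ ‖Q y' - Q v‖` and `fl_dist`: `‖Q y - Q y₀‖ = s / 2 - ‖Q y - Q v‖ < 2 ε` for the midpoint `y₀`; so
`‖Q x - Q y₀‖ < 3 ε`, `x ∈ Bm k θ (3 ε)`, and `x ∈ ⋃₀ E'`: `PG.sub_MS`.
`fl_ms_conn`: `PG.MS_connected` with `fl_half`, `fl_Bm`, `fl_Bc`; `PG.MS_edges`.
`fl_ms_vert`: for `p ∈ S ∩ S'`: a face `U` with `p ∈ closure U` (`PG.cover`); `frontier U` is in both; it is a nonempty union of edges (`PG.frontier_edges`, `JDom.jordan`), an edge contains a vertex.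
`fl_K`: `x ∈ K E' = MS E' So`: `x ∈ frontier U`, `(closure U ∩ So).Nonempty`, so `U ∈ Us E'`: `om_near`.
`fl_Y_K`: `x ∈ Y ∩ K`: `fl_K` gives `‖Q x - Q v‖ ≤ 6 ε`, `fl_ms_Y`: `> s / 2 - 4 ε ≥ 196 ε`.
-/

set_option autoImplicit false

open Set Metric Topology Filter
open Pool.JS

namespace Pool.ETM

variable {X : Type*} [MetricSpace X] [CompactSpace X] [Sph X] {c : Ctx X} (h : c.Ok) {i : ℕ} (hi : i < c.nc)
  {θ : Set X} (hθ : θ ∈ c.Eint i)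

omit [CompactSpace X] [Sph X] in
private theorem flb_nh_mono {k : ℕ} {θ : Set X} {r r' : ℝ} (hr : r ≤ r') : c.nh k θ r ⊆ c.nh k θ r' :=
  fun _ hx => ⟨hx.1, hx.2.trans hr⟩

omit [CompactSpace X] [Sph X] in
private theorem flb_inf {k : ℕ} {θ : Set X} {x y : X} (hy : y ∈ θ) {r : ℝ} (hr : ‖c.Q k x - c.Q k y‖ ≤ r) :
    infDist (c.Q k x) (c.Q k '' θ) ≤ r := by
  refine (infDist_le_dist_of_mem (mem_image_of_mem _ hy)).trans ?_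
  rwa [dist_eq_norm]

private theorem flb_face {V : Set X} {E : Set (Set X)} (hg : Good V E) {e : Set X} (he : e ∈ E) :
    ∃ U ∈ Fc E, e ⊆ frontier U := by
  obtain ⟨_, _, h3⟩ := hg.pg.faces hg.ne (noCut_of_discs hg.pg hg.disc)
  obtain ⟨U, hU, _, _, _, hs, _⟩ := h3 e he
  exact ⟨U, hU, hs⟩

private theorem flb_vert {V' : Set X} {E' : Set (Set X)} (hg : Good V' E') {S S' : Set X} {p : X} (hp : p ∈ S)
    (hp' : p ∈ S') : (MS E' S ∩ V' ∩ MS E' S').Nonempty := by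
  obtain ⟨U, hU, hpU⟩ := hg.pg.cover hg.disc p
  obtain ⟨D, hD, hDe⟩ := hg.pg.frontier_edges hU (hg.disc U hU)
  obtain ⟨z, hz⟩ := (hg.disc U hU).jordan.isConnected.nonempty
  rw [hDe] at hz
  obtain ⟨e, he, _⟩ := hz
  obtain ⟨a, ha, b, _, harc, _⟩ := hg.pg.arc e (hD he)
  have ha2 : a ∈ frontier U := by
    rw [hDe]
    exact ⟨e, he, harc.left_mem⟩
  exact ⟨a, ⟨⟨_, ⟨U, hU, ⟨p, hpU, hp⟩, rfl⟩, ha2⟩, ha⟩, ⟨_, ⟨U, hU, ⟨p, hpU, hp'⟩, rfl⟩, ha2⟩⟩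

include h hi hθ in
theorem fl_R3 : θ ⊆ c.R3 i := by
  obtain ⟨U, hU, hs⟩ := flb_face (h.net.good (c.lev i)) hθ.1
  have hF : closure U ∈ c.Face (c.lev i) := ⟨U, hU, rfl⟩
  have hsF : θ ⊆ closure U := hs.trans frontier_subset_closure
  have hFA : closure U ⊆ c.A i := hθ.2 _ hF hsF
  have hne : (closure U).Nonempty := (((h.net.good (c.lev i)).disc U hU).isConnected.nonempty).closure
  have hst : ∀ S : Set X, closure U ⊆ S → closure U ⊆ c.St (c.lev i) S := by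
    intro S hS
    refine subset_sUnion_of_mem ⟨hF, ?_⟩
    obtain ⟨x, hx⟩ := hne
    exact ⟨x, hx, hS hx⟩
  exact hsF.trans (hst _ (hst _ (hst _ hFA)))

variable {V' : Set X} {E' : Set (Set X)} (hA : c.Adm c.L1 V' E')

include h hi hθ hA

theorem fl_small {U : Set X} (hU : U ∈ Fc E') {x : X} (hx : x ∈ closure U) (hx' : x ∈ c.nh (c.lev i) θ (10 * c.ε)) :
    closure U ⊆ c.D (c.lev i) θ ∧ ∀ y ∈ closure U, ∀ z ∈ closure U, ‖c.Q (c.lev i) y - c.Q (c.lev i) z‖ < c.ε :=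
  lv_small h hi hθ.1 (fl_R3 h hi hθ) hA hU ⟨x, hx, hx'⟩

theorem fl_edge_small {e : Set X} (he : e ∈ E') {x : X} (hx : x ∈ e) (hx' : x ∈ c.nh (c.lev i) θ (10 * c.ε)) :
    ∀ y ∈ e, ∀ z ∈ e, ‖c.Q (c.lev i) y - c.Q (c.lev i) z‖ < c.ε := by
  obtain ⟨U, hU, hs⟩ := flb_face hA.good he
  have hs' := hs.trans frontier_subset_closure
  intro y hy z hz
  exact (fl_small h hi hθ hA hU (hs' hx) hx').2 y (hs' hy) z (hs' hz)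

theorem fl_ms {S : Set X} (hS : S ⊆ c.nh (c.lev i) θ (10 * c.ε)) {x : X} (hx : x ∈ MS E' S) :
    x ∈ c.D (c.lev i) θ ∧ ∃ y ∈ S, ‖c.Q (c.lev i) x - c.Q (c.lev i) y‖ < c.ε := by
  obtain ⟨J, ⟨U, hU, ⟨y, hyU, hyS⟩, rfl⟩, hxU⟩ := hx
  obtain ⟨h1, h2⟩ := fl_small h hi hθ hA hU hyU (hS hyS)
  have hx2 := frontier_subset_closure hxU
  exact ⟨h1 hx2, y, hyS, h2 x hx2 y hyU⟩

theorem fl_ms_half {v v' : X} (hv : v ∈ c.V (c.lev i)) (hvθ : v ∈ θ) (hv' : v' ∈ c.V (c.lev i)) (hvθ' : v' ∈ θ)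
    (hne : v ≠ v') {x : X} (hx : x ∈ MS E' (c.half (c.lev i) θ v)) : x ∈ c.nh (c.lev i) θ c.ε ∧
      ‖c.Q (c.lev i) x - c.Q (c.lev i) v‖ < c.s / 2 + c.ε ∧ c.s / 2 - c.ε < ‖c.Q (c.lev i) x - c.Q (c.lev i) v'‖ := by
  have hε := h.net.εpos
  have hsub : c.half (c.lev i) θ v ⊆ c.nh (c.lev i) θ (10 * c.ε) :=
    (fl_half h.net hθ.1 hv hvθ).2.2.2.trans (flb_nh_mono (by linarith))
  obtain ⟨hxD, y, hy, hxy⟩ := fl_ms h hi hθ hA hsub hx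
  have hd := (fl_dist h.net hθ.1 hv hvθ hv' hvθ' hne hy.1 hy.1).2
  have hy2 := hy.2
  refine ⟨⟨hxD, flb_inf hy.1 hxy.le⟩, ?_, ?_⟩
  · have := norm_sub_le_norm_sub_add_norm_sub (c.Q (c.lev i) x) (c.Q (c.lev i) y) (c.Q (c.lev i) v)
    linarith
  · have := norm_sub_le_norm_sub_add_norm_sub (c.Q (c.lev i) y) (c.Q (c.lev i) x) (c.Q (c.lev i) v')
    rw [norm_sub_rev (c.Q (c.lev i) y) (c.Q (c.lev i) x)] at this
    linarith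

theorem fl_ms_Y {x : X} (hx : x ∈ c.Y (c.lev i) θ E') : x ∈ c.nh (c.lev i) θ (4 * c.ε) ∧
    ∀ v ∈ c.V (c.lev i), v ∈ θ → c.s / 2 - 4 * c.ε < ‖c.Q (c.lev i) x - c.Q (c.lev i) v‖ := by
  have hε := h.net.εpos
  obtain ⟨_, _, hB⟩ := fl_Bm h.net hθ.1 (r := 3 * c.ε) (by linarith) (by linarith)
  obtain ⟨hxD, y, ⟨_, y₀, hy₀, hyy₀⟩, hxy⟩ := fl_ms h hi hθ hA (hB.trans (flb_nh_mono (by linarith))) hx
  have h1 : ‖c.Q (c.lev i) x - c.Q (c.lev i) y₀‖ < 4 * c.ε := by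
    have := norm_sub_le_norm_sub_add_norm_sub (c.Q (c.lev i) x) (c.Q (c.lev i) y) (c.Q (c.lev i) y₀)
    linarith
  refine ⟨⟨hxD, flb_inf hy₀.1 h1.le⟩, fun v hv hvθ => ?_⟩
  have h2 := hy₀.2 v hv hvθ
  have h3 := norm_sub_le_norm_sub_add_norm_sub (c.Q (c.lev i) y₀) (c.Q (c.lev i) x) (c.Q (c.lev i) v)
  rw [norm_sub_rev (c.Q (c.lev i) y₀) (c.Q (c.lev i) x)] at h3
  linarith

theorem fl_ms_Yv {v : X} (hv : v ∈ c.V (c.lev i)) (hvθ : v ∈ θ) {x : X} (hx : x ∈ c.Yv (c.lev i) v E') :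
    x ∈ c.nh (c.lev i) θ (4 * c.ε) ∧ ‖c.Q (c.lev i) x - c.Q (c.lev i) v‖ < 4 * c.ε := by
  have hε := h.net.εpos
  obtain ⟨_, _, hB⟩ := fl_Bc h.net hθ.1 hv hvθ (r := 3 * c.ε) (by linarith) (by linarith)
  obtain ⟨hxD, y, hy, hxy⟩ := fl_ms h hi hθ hA (hB.trans (flb_nh_mono (by linarith))) hx
  have h2 := ((fl_Bc_iff h.net hθ.1 hv hvθ (by linarith)).1 hy).2
  have h1 : ‖c.Q (c.lev i) x - c.Q (c.lev i) v‖ < 4 * c.ε := by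
    have := norm_sub_le_norm_sub_add_norm_sub (c.Q (c.lev i) x) (c.Q (c.lev i) y) (c.Q (c.lev i) v)
    linarith
  exact ⟨⟨hxD, flb_inf hvθ h1.le⟩, h1⟩

theorem fl_two_half {v v' : X} (hv : v ∈ c.V (c.lev i)) (hvθ : v ∈ θ) (hv' : v' ∈ c.V (c.lev i)) (hvθ' : v' ∈ θ)
    (hne : v ≠ v') {x : X} (hx : x ∈ MS E' (c.half (c.lev i) θ v)) (hx' : x ∈ MS E' (c.half (c.lev i) θ v')) :
    x ∈ c.Y (c.lev i) θ E' := by
  have hε := h.net.εpos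
  have hsub : c.half (c.lev i) θ v ⊆ c.nh (c.lev i) θ (10 * c.ε) :=
    (fl_half h.net hθ.1 hv hvθ).2.2.2.trans (flb_nh_mono (by linarith))
  have hsub' : c.half (c.lev i) θ v' ⊆ c.nh (c.lev i) θ (10 * c.ε) :=
    (fl_half h.net hθ.1 hv' hvθ').2.2.2.trans (flb_nh_mono (by linarith))
  obtain ⟨hxD, y, hy, hxy⟩ := fl_ms h hi hθ hA hsub hx
  obtain ⟨_, y', hy', hxy'⟩ := fl_ms h hi hθ hA hsub' hx'
  obtain ⟨y₀, hy₀θ, hmid, hy₀v⟩ := fl_mid h.net hθ.1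
  have hy2 := hy.2
  have hy2' := hy'.2
  have d1 := (fl_dist h.net hθ.1 hv hvθ hv' hvθ' hne hy.1 hy₀θ).1
  have d2 := (fl_dist h.net hθ.1 hv' hvθ' hv hvθ hne.symm hy'.1 hy'.1).2
  have d3 := (fl_dist h.net hθ.1 hv hvθ hv' hvθ' hne hy'.1 hy.1).1
  have d0 := hy₀v v hv hvθ
  have hyy' : ‖c.Q (c.lev i) y' - c.Q (c.lev i) y‖ < 2 * c.ε := by
    have := norm_sub_le_norm_sub_add_norm_sub (c.Q (c.lev i) y') (c.Q (c.lev i) x) (c.Q (c.lev i) y)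
    rw [norm_sub_rev (c.Q (c.lev i) y') (c.Q (c.lev i) x)] at this
    linarith
  have d4 : ‖c.Q (c.lev i) y - c.Q (c.lev i) y₀‖ < 2 * c.ε := by
    rw [d1, d0, abs_lt]
    have h3 := le_abs_self (‖c.Q (c.lev i) y' - c.Q (c.lev i) v‖ - ‖c.Q (c.lev i) y - c.Q (c.lev i) v‖)
    constructor <;> linarith
  have h1 : ‖c.Q (c.lev i) x - c.Q (c.lev i) y₀‖ ≤ 3 * c.ε := by
    have := norm_sub_le_norm_sub_add_norm_sub (c.Q (c.lev i) x) (c.Q (c.lev i) y) (c.Q (c.lev i) y₀)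
    linarith
  apply hA.good.pg.sub_MS hA.good.disc
  refine ⟨⟨hxD, y₀, ?_, h1⟩, ?_⟩
  · rw [hmid]
    exact mem_singleton _
  · obtain ⟨D, hD, hDe⟩ := hA.good.pg.MS_edges hA.good.disc (S := c.half (c.lev i) θ v)
    rw [hDe] at hx
    exact sUnion_subset_sUnion hD hx

theorem fl_ms_conn : IsPreconnected (c.Y (c.lev i) θ E') ∧ (∃ D ⊆ E', c.Y (c.lev i) θ E' = ⋃₀ D) ∧
    ∀ v ∈ c.V (c.lev i), v ∈ θ → IsPreconnected (c.Yv (c.lev i) v E') ∧ (∃ D ⊆ E', c.Yv (c.lev i) v E' = ⋃₀ D) ∧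
      IsPreconnected (MS E' (c.half (c.lev i) θ v)) ∧ ∃ D ⊆ E', MS E' (c.half (c.lev i) θ v) = ⋃₀ D := by
  have hε := h.net.εpos
  have hg := hA.good
  refine ⟨hg.pg.MS_connected hg.disc (fl_Bm h.net hθ.1 (r := 3 * c.ε) (by linarith) (by linarith)).1,
    hg.pg.MS_edges hg.disc, fun v hv hvθ => ⟨hg.pg.MS_connected hg.disc
      (fl_Bc h.net hθ.1 hv hvθ (r := 3 * c.ε) (by linarith) (by linarith)).1, hg.pg.MS_edges hg.disc,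
      hg.pg.MS_connected hg.disc (fl_half h.net hθ.1 hv hvθ).1, hg.pg.MS_edges hg.disc⟩⟩

theorem fl_ms_vert : ∀ v ∈ c.V (c.lev i), v ∈ θ →
    (c.Yv (c.lev i) v E' ∩ V' ∩ MS E' (c.half (c.lev i) θ v)).Nonempty ∧
      (c.Y (c.lev i) θ E' ∩ V' ∩ MS E' (c.half (c.lev i) θ v)).Nonempty := by
  intro v hv hvθ
  have hε := h.net.εpos
  obtain ⟨_, hvh, hmh, _⟩ := fl_half h.net hθ.1 hv hvθ
  obtain ⟨_, hvB, _⟩ := fl_Bc h.net hθ.1 hv hvθ (r := 3 * c.ε) (by linarith) (by linarith)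
  obtain ⟨_, hmB, _⟩ := fl_Bm h.net hθ.1 (r := 3 * c.ε) (by linarith) (by linarith)
  obtain ⟨y₀, _, hmid, _⟩ := fl_mid h.net hθ.1
  have hy₀ : y₀ ∈ c.mid (c.lev i) θ := by
    rw [hmid]
    exact mem_singleton _
  exact ⟨flb_vert hA.good hvB hvh, flb_vert hA.good (hmB hy₀) (hmh hy₀)⟩

theorem fl_K {x : X} (hx : x ∈ c.K E') (hx' : x ∈ c.nh (c.lev i) θ (4 * c.ε)) :
    ∃ v ∈ c.Vbd i, v ∈ θ ∧ ‖c.Q (c.lev i) x - c.Q (c.lev i) v‖ ≤ 6 * c.ε := by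
  obtain ⟨J, ⟨U, hU, ⟨y, hyU, hyS⟩, rfl⟩, hxU⟩ := hx
  have hUs : U ∈ c.Us E' := ⟨hU, y, hyU, hyS⟩
  obtain ⟨v, hv, hvθ, h1, _⟩ := om_near h hA hi hθ hUs (frontier_subset_closure hxU) hx' hyU hyS
  exact ⟨v, hv, hvθ, h1⟩

theorem fl_Y_K : Disjoint (c.Y (c.lev i) θ E') (c.K E') := by
  rw [Set.disjoint_left]
  intro x hx hxK
  have hε := h.net.εpos
  have hs := h.net.sε
  obtain ⟨h1, h2⟩ := fl_ms_Y h hi hθ hA hx
  obtain ⟨v, hv, hvθ, h3⟩ := fl_K h hi hθ hA hxK h1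
  have h4 := h2 v hv.1.1 hvθ
  linarith

end Pool.ETM
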