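import Pool.Agent.ETM.FlB

/-!
ETM, MODULE FlC (difficulty 3): facts about interior vertices, different edges and different colours.

RECIPE.  `k = lev i`.  `fl_vint_edge`: let `F = closure U`, `U ∈ Fc (E k)`, `θ ⊆ F`; `v ∈ closure U` and `v ∈ interior (A i)`, so there is `x ∈ U ∩ A i`; `x` is in a closed face `F' = closure U'` which is one of the faces in the definition of `A i`; `U` is open and meets `closure U'`, so it meets `U'`: `U = U'` (`Fc.disj`), `F = F' ⊆ A i`.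
`fl_vint_ex`: `(h.net.good k).pg.vert`.  `fl_vert`: `θ` is in a closed face `F` (`PG.faces`), `F ⊆ A i`, so `v ∈ A i`.
`fl_disj`: `lv_R3` for `θ`, `x ∈ D (lev i) θ` (with `fl_R3`): `0 < w / 5 < a i x`, and `0 < a j x`; if `i ≠ j`: `h.mark.m1` with `t = 0` for `(i, j)` and `(j, i)`: `2 m i + m ≤ 2 m j` and `2 m j + m ≤ 2 m i`, contradiction to `mpos`.
`fl_vint_disj`: by `fl_disj`, as `v ∈ θ ⊆ D` for `θ ∈ Eint i`, `v ∈ θ' ⊆ D` for `θ' ∈ Eint j`.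
`fl_common`: `h.net.two` for `θ ≠ θ'`: `v ∈ V k`, `v ∈ θ`, `v ∈ θ'`, `‖Q x - Q v‖ ≤ 3 / 2 * r`; `v ∈ Vint i` or `Vbd i` (`fl_vert`); `Vbd i` is impossible by `lv_bd`.
`fl_vsep`: take `θ ∋ v`, `θ' ∋ w` in `Eint i`.  `fl_ms_Yv`: `x ∈ nh θ (4 ε)`, `‖Q x - Q v‖ < 4 ε`, same for `w`, `θ'`.  If `θ = θ'` and `v ≠ w`: `s = ‖Q v - Q w‖ < 8 ε` (`Qseg`), contradiction.  If `θ ≠ θ'`: `fl_common` gives `u` in both with `‖Q x - Q u‖ ≤ 6 ε`; `u ≠ v` would give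
`s = ‖Q u - Q v‖ < 10 ε`, so `u = v`, and `u = w`.
`fl_vint_K`: take `θ ∋ v`; `v ∈ nh θ (4 ε)`; if `v ∈ K` then `fl_K` gives `w ∈ Vbd i`, `w ∈ θ`, `‖Q v - Q w‖ ≤ 6 ε < s`, so `w = v` (`Qseg`), but `v ∈ interior (A i)`.
-/

set_option autoImplicit false

open Set Metric Topology Filter
open Pool.JS

namespace Pool.ETM

variable {X : Type*} [MetricSpace X] [CompactSpace X] [Sph X] {c : Ctx X} (h : c.Ok) {i : ℕ} (hi : i < c.nc)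

include h hi

theorem fl_vint_edge {v : X} (hv : v ∈ c.Vint i) {θ : Set X} (hθ : θ ∈ c.E (c.lev i)) (hvθ : v ∈ θ) : θ ∈ c.Eint i := by
  refine ⟨hθ, ?_⟩
  rintro F ⟨U, hU, rfl⟩ hθF
  have hg := h.net.good (c.lev i)
  have h1 : v ∈ closure U := hθF hvθ
  obtain ⟨x, hx1, hx2⟩ := mem_closure_iff.1 h1 _ isOpen_interior hv.2
  have hxA : x ∈ c.A i := interior_subset hx1
  obtain ⟨F', ⟨⟨U', hU', rfl⟩, hF'⟩, hxF'⟩ := hxA
  obtain ⟨y, hy1, hy2⟩ := mem_closure_iff.1 hxF' _ (Fc.isOpen hg.pg hU) hx2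
  have hUU : U = U' := by
    by_contra hne
    exact Set.disjoint_left.1 (Fc.disj hU hU' hne) hy1 hy2
  subst hUU
  exact fun z hz => ⟨closure U, ⟨⟨U, hU, rfl⟩, hF'⟩, hz⟩

theorem fl_vint_ex {v : X} (hv : v ∈ c.Vint i) : ∃ θ ∈ c.Eint i, v ∈ θ := by
  obtain ⟨θ, hθ, hvθ⟩ := (h.net.good (c.lev i)).pg.vert v hv.1
  exact ⟨θ, fl_vint_edge h hi hv hθ hvθ, hvθ⟩

theorem fl_vert {θ : Set X} (hθ : θ ∈ c.Eint i) {v : X} (hv : v ∈ c.V (c.lev i)) (hvθ : v ∈ θ) :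
    v ∈ c.Vint i ∨ v ∈ c.Vbd i := by
  have hg := h.net.good (c.lev i)
  obtain ⟨-, -, h3⟩ := hg.pg.faces hg.ne (noCut_of_discs hg.pg hg.disc)
  obtain ⟨U₁, hU₁, -, -, -, hs, -⟩ := h3 θ hθ.1
  have h4 : θ ⊆ closure U₁ := hs.trans frontier_subset_closure
  have hA : v ∈ c.A i := hθ.2 (closure U₁) ⟨U₁, hU₁, rfl⟩ h4 (h4 hvθ)
  by_cases hv' : v ∈ interior (c.A i)
  · exact Or.inl ⟨hv, hv'⟩
  · exact Or.inr ⟨⟨hv, hA⟩, hv'⟩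

theorem fl_disj {θ : Set X} (hθ : θ ∈ c.Eint i) {j : ℕ} (hj : j < c.nc) {θ' : Set X} (hθ' : θ' ∈ c.Eint j) {x : X}
    (hx : x ∈ c.D (c.lev i) θ) (hx' : x ∈ c.D (c.lev j) θ') : i = j := by
  have h1 := (lv_R3 h hi (Or.inr ⟨θ, hθ.1, fl_R3 h hi hθ, hx⟩)).1
  have h2 := (lv_R3 h hj (Or.inr ⟨θ', hθ'.1, fl_R3 h hj hθ', hx'⟩)).1
  have hw := h.mark.wpos
  have p1 : 0 < c.a i x := by linarith
  have p2 : 0 < c.a j x := by linarith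
  by_contra hne
  have e1 := h.mark.m1 i hi j hj x 0 p1 p2 (Or.inr hne)
  have e2 := h.mark.m1 j hj i hi x 0 p2 p1 (Or.inr (Ne.symm hne))
  have e3 := h.net.mpos
  omega

theorem fl_vint_disj {j : ℕ} (hj : j < c.nc) {v : X} (hv : v ∈ c.Vint i) (hv' : v ∈ c.Vint j) : i = j := by
  obtain ⟨θ, hθ, hvθ⟩ := fl_vint_ex h hi hv
  obtain ⟨θ', hθ', hvθ'⟩ := fl_vint_ex h hj hv'
  exact fl_disj h hi hθ hj hθ' (h.net.Dsub _ θ hθ.1 hvθ) (h.net.Dsub _ θ' hθ'.1 hvθ')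

theorem fl_common {θ θ' : Set X} (hθ : θ ∈ c.Eint i) (hθ' : θ' ∈ c.Eint i) (hne : θ ≠ θ') {r : ℝ} (hr : r ≤ 10 * c.ε)
    {x : X} (hx : x ∈ c.nh (c.lev i) θ r) (hx' : x ∈ c.nh (c.lev i) θ' r) :
    ∃ v ∈ c.Vint i, v ∈ θ ∧ v ∈ θ' ∧ ‖c.Q (c.lev i) x - c.Q (c.lev i) v‖ ≤ 3 / 2 * r := by
  obtain ⟨v, hv, h1, h2, h3⟩ := h.net.two (c.lev i) θ hθ.1 θ' hθ'.1 hne r hr x ⟨hx, hx'⟩
  rcases fl_vert h hi hθ hv h1 with hv' | hv'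
  · exact ⟨v, hv', h1, h2, h3⟩
  · exact absurd (lv_bd h hi hv' ⟨hθ, h1⟩ ⟨hθ', h2⟩) hne

omit hi in
/-- two different ends of an edge are far from each other -/
theorem flc_far {θ : Set X} (hθ : θ ∈ c.E (c.lev i)) {v w : X} (hv : v ∈ c.V (c.lev i)) (hw : w ∈ c.V (c.lev i))
    (hvθ : v ∈ θ) (hwθ : w ∈ θ) (hd : ‖c.Q (c.lev i) v - c.Q (c.lev i) w‖ < 399 * c.ε) : v = w := by
  by_contra hne
  have h1 := (h.net.Qseg (c.lev i) θ hθ v hv w hw hne hvθ hwθ).2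
  have h2 := h.net.sε
  have h3 := h.net.εpos
  linarith

variable {V' : Set X} {E' : Set (Set X)} (hA : c.Adm c.L1 V' E')

include hA

theorem fl_vsep {v w : X} (hv : v ∈ c.Vint i) (hw : w ∈ c.Vint i) {x : X} (hx : x ∈ c.Yv (c.lev i) v E')
    (hx' : x ∈ c.Yv (c.lev i) w E') : v = w := by
  obtain ⟨θ, hθ, hvθ⟩ := fl_vint_ex h hi hv
  obtain ⟨θ', hθ', hwθ'⟩ := fl_vint_ex h hi hw
  obtain ⟨a1, a2⟩ := fl_ms_Yv h hi hθ hA hv.1 hvθ hx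
  obtain ⟨b1, b2⟩ := fl_ms_Yv h hi hθ' hA hw.1 hwθ' hx'
  have hε := h.net.εpos
  have key : ∀ (p q : X) (r t : ℝ), ‖c.Q (c.lev i) x - c.Q (c.lev i) p‖ ≤ r → ‖c.Q (c.lev i) x - c.Q (c.lev i) q‖ ≤ t →
      ‖c.Q (c.lev i) p - c.Q (c.lev i) q‖ ≤ r + t := by
    intro p q r t hr ht
    have e : c.Q (c.lev i) p - c.Q (c.lev i) q =
        (c.Q (c.lev i) x - c.Q (c.lev i) q) - (c.Q (c.lev i) x - c.Q (c.lev i) p) := by ring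
    rw [e]
    linarith [norm_sub_le (c.Q (c.lev i) x - c.Q (c.lev i) q) (c.Q (c.lev i) x - c.Q (c.lev i) p)]
  by_cases hθθ : θ = θ'
  · subst hθθ
    refine flc_far h hθ.1 hv.1 hw.1 hvθ hwθ' ?_
    have := key v w _ _ a2.le b2.le
    linarith
  · obtain ⟨u, hu, hu1, hu2, hu3⟩ := fl_common h hi hθ hθ' hθθ (by linarith) a1 b1
    have e1 : u = v := by
      refine flc_far h hθ.1 hu.1 hv.1 hu1 hvθ ?_
      have := key u v _ _ hu3 a2.le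
      linarith
    have e2 : u = w := by
      refine flc_far h hθ'.1 hu.1 hw.1 hu2 hwθ' ?_
      have := key u w _ _ hu3 b2.le
      linarith
    rw [← e1, e2]

theorem fl_vint_K {v : X} (hv : v ∈ c.Vint i) : v ∉ c.K E' := by
  intro hK
  obtain ⟨θ, hθ, hvθ⟩ := fl_vint_ex h hi hv
  have hε := h.net.εpos
  have hn : v ∈ c.nh (c.lev i) θ (4 * c.ε) := by
    refine ⟨h.net.Dsub _ θ hθ.1 hvθ, ?_⟩
    rw [infDist_zero_of_mem (mem_image_of_mem _ hvθ)]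
    linarith
  obtain ⟨w, hw, hwθ, hd⟩ := fl_K h hi hθ hA hK hn
  have hvw : v = w := flc_far h hθ.1 hv.1 hw.1.1 hvθ hwθ (by linarith)
  exact hw.2 (hvw ▸ hv.2)

end Pool.ETM
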