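import Pool.Agent.ETM.FlC

/-!
ETM, MODULE FlD (difficulty 3): the path `Q` along a half edge from `Yv` to `Y`; the tripod at an interior vertex.

RECIPE.  `k = lev i`.  `fl_q`: `PG.path_between` for the good graph `(V', E')` with `A ⊆ E'`, `⋃₀ A = MS E' (half k θ v)`, `S = Yv k v E'`, `T = Y k θ E'` (`fl_ms_conn`: connectedness, all three are unions of edges `⋃₀ D`); an edge `e` with `e ∉ D` has `e ∩ ⋃₀ D ⊆ V'` (`PG.inter`);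
`fl_ms_vert` for the two nonempty sets; `Disjoint Yv Y`: `fl_ms_Yv`: `‖Q x - Q v‖ < 4 ε`, `fl_ms_Y`: `> s / 2 - 4 ε ≥ 196 ε`.  The points `q, t` are in `V'` by `PG.end_mem` (`PathG.mono'`).
`fl_tripod`: `A = D` with `Yv k v E' = ⋃₀ D`, `D ⊆ E'`.  There is a vertex `u₀ ∈ V' ∩ Yv` (`fl_ms_vert` for some `θ ∋ v`, `fl_vint_ex`).  `Θ = {θ | θ ∈ Eint i ∧ v ∈ θ}` has at most `3` elements (subset of `{θ | θ ∈ E k ∧ v ∈ θ}`, `(h.net.good k).val`), so there is `σ : Set X → Fin 3`, injective on `Θ`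
(finite set with `ncard ≤ 3`; it is finite: `PG.finE`).  `q' j = q θ` if `j = σ θ` for some `θ ∈ Θ` (choice), `q' j = u₀` otherwise.  `PG.tripod` for `q'`: `cv` and `p : Fin 3 → Set X`; `α θ = p (σ θ)`.  `α θ ⊆ Yv`: `PathG0 D` is `{cv}` or a union of edges in `D`; `PathG0 D → PathG0 E'` by `PathG.mono'`.
-/

set_option autoImplicit false

open Set Metric Topology Filter
open Pool.JS

namespace Pool.ETM

variable {X : Type*} [MetricSpace X] [CompactSpace X] [Sph X] {c : Ctx X} (h : c.Ok) {i : ℕ} (hi : i < c.nc)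
  {V' : Set X} {E' : Set (Set X)} (hA : c.Adm c.L1 V' E')

include h hi hA

theorem fl_q {θ : Set X} (hθ : θ ∈ c.Eint i) {v : X} (hv : v ∈ c.V (c.lev i)) (hvθ : v ∈ θ) :
    ∃ (q t : X) (p : Set X), PathG E' p q t ∧ p ⊆ MS E' (c.half (c.lev i) θ v) ∧ p ∩ c.Yv (c.lev i) v E' = {q} ∧
      p ∩ c.Y (c.lev i) θ E' = {t} ∧ q ∈ V' ∧ t ∈ V' := by
  obtain ⟨-, ⟨DY, hDY, eY⟩, h1⟩ := fl_ms_conn h hi hθ hA
  obtain ⟨-, ⟨Dv, hDv, ev⟩, hc, ⟨A, hAE, eA⟩⟩ := h1 v hv hvθ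
  obtain ⟨n1, n2⟩ := fl_ms_vert h hi hθ hA v hv hvθ
  have hg := hA.good
  have hε := h.net.εpos
  have hs := h.net.sε
  have hd : Disjoint (c.Yv (c.lev i) v E') (c.Y (c.lev i) θ E') := by
    rw [Set.disjoint_left]
    intro x hx hx'
    have a1 := (fl_ms_Yv h hi hθ hA hv hvθ hx).2
    have a2 := (fl_ms_Y h hi hθ hA hx').2 v hv hvθ
    linarith
  have key : ∀ D ⊆ E', ∀ e ∈ A, e ⊆ ⋃₀ D ∨ e ∩ ⋃₀ D ⊆ V' := by
    intro D hD e he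
    by_cases heD : e ∈ D
    · exact Or.inl (subset_sUnion_of_mem heD)
    · right
      rintro x ⟨hx, e', he', hx'⟩
      refine hg.pg.inter e (hAE he) e' (hD he') ?_ ⟨hx, hx'⟩
      rintro rfl
      exact heD he'
  rw [eA] at hc n1 n2 ⊢
  obtain ⟨q, t, p, hp, hq, ht⟩ := hg.pg.path_between hAE hc (S := c.Yv (c.lev i) v E') (T := c.Y (c.lev i) θ E')
    (by rw [ev]; exact key Dv hDv) (by rw [eY]; exact key DY hDY) n1 n2 hd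
  have hp' : PathG E' p q t := hp.mono' hAE
  obtain ⟨e1, e2⟩ := hg.pg.end_mem hp'
  refine ⟨q, t, p, hp', ?_, hq, ht, e1, e2⟩
  obtain ⟨-, D, hD, rfl⟩ := hp
  exact sUnion_subset_sUnion hD

omit h hi hA in
theorem fld_inj {S : Type*} {Θ : Set S} (hf : Θ.Finite) (hc : Θ.ncard ≤ 3) : ∃ σ : S → Fin 3, InjOn σ Θ := by
  classical
  have h1 : hf.toFinset.card ≤ 3 := by
    rw [← Set.ncard_eq_toFinset_card Θ hf]
    exact hc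
  refine ⟨fun x => if hx : x ∈ hf.toFinset then Fin.castLE h1 (hf.toFinset.equivFin ⟨x, hx⟩) else 0, ?_⟩
  intro x hx y hy hxy
  have hx' : x ∈ hf.toFinset := hf.mem_toFinset.2 hx
  have hy' : y ∈ hf.toFinset := hf.mem_toFinset.2 hy
  simp only [dif_pos hx', dif_pos hy'] at hxy
  have h2 := hf.toFinset.equivFin.injective (Fin.castLE_injective h1 hxy)
  exact congrArg Subtype.val h2

theorem fl_tripod {v : X} (hv : v ∈ c.Vint i) {q : Set X → X}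
    (hq : ∀ θ ∈ c.Eint i, v ∈ θ → q θ ∈ V' ∧ q θ ∈ c.Yv (c.lev i) v E') :
    ∃ cv ∈ V', cv ∈ c.Yv (c.lev i) v E' ∧ ∃ α : Set X → Set X,
      (∀ θ ∈ c.Eint i, v ∈ θ → PathG0 E' (α θ) cv (q θ) ∧ α θ ⊆ c.Yv (c.lev i) v E') ∧
      ∀ θ ∈ c.Eint i, ∀ θ' ∈ c.Eint i, v ∈ θ → v ∈ θ' → θ ≠ θ' → α θ ∩ α θ' = {cv} := by
  classical
  obtain ⟨θ₀, hθ₀, hvθ₀⟩ := fl_vint_ex h hi hv
  obtain ⟨-, -, h1⟩ := fl_ms_conn h hi hθ₀ hA
  obtain ⟨hc, ⟨A, hAE, eA⟩, -⟩ := h1 v hv.1 hvθ₀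
  obtain ⟨⟨u₀, ⟨hu1, hu2⟩, -⟩, -⟩ := fl_ms_vert h hi hθ₀ hA v hv.1 hvθ₀
  have hg := hA.good
  have hk := h.net.good (c.lev i)
  have hsub : {θ | θ ∈ c.Eint i ∧ v ∈ θ} ⊆ {θ | θ ∈ c.E (c.lev i) ∧ v ∈ θ} := fun θ hθ => ⟨hθ.1.1, hθ.2⟩
  have hfE : {θ | θ ∈ c.E (c.lev i) ∧ v ∈ θ}.Finite := hk.pg.finE.subset fun θ hθ => hθ.1
  have hf : {θ | θ ∈ c.Eint i ∧ v ∈ θ}.Finite := hfE.subset hsub
  obtain ⟨σ, hσ⟩ := fld_inj hf ((Set.ncard_le_ncard hsub hfE).trans (hk.val v hv.1))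
  obtain ⟨q', hq'⟩ : ∃ q' : Fin 3 → X, (∀ j, q' j ∈ V' ∧ q' j ∈ ⋃₀ A) ∧ ∀ θ ∈ c.Eint i, v ∈ θ → q' (σ θ) = q θ := by
    refine ⟨fun j => if hj : ∃ θ, (θ ∈ c.Eint i ∧ v ∈ θ) ∧ σ θ = j then q hj.choose else u₀, ?_, ?_⟩
    · intro j
      by_cases hj : ∃ θ, (θ ∈ c.Eint i ∧ v ∈ θ) ∧ σ θ = j
      · simp only [dif_pos hj]
        obtain ⟨e1, e2⟩ := hq _ hj.choose_spec.1.1 hj.choose_spec.1.2
        rw [← eA]
        exact ⟨e1, e2⟩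
      · simp only [dif_neg hj]
        rw [← eA]
        exact ⟨hu2, hu1⟩
    · intro θ hθ hvθ
      have hj : ∃ θ', (θ' ∈ c.Eint i ∧ v ∈ θ') ∧ σ θ' = σ θ := ⟨θ, ⟨hθ, hvθ⟩, rfl⟩
      simp only [dif_pos hj]
      congr 1
      exact hσ hj.choose_spec.1 ⟨hθ, hvθ⟩ hj.choose_spec.2
  rw [eA] at hc
  obtain ⟨cv, hcv, hcvA, p, hp, hpp⟩ := hg.pg.tripod hAE hc q' hq'.1
  refine ⟨cv, hcv, by rw [eA]; exact hcvA, fun θ => p (σ θ), ?_, ?_⟩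
  · intro θ hθ hvθ
    have e := hp (σ θ)
    rw [hq'.2 θ hθ hvθ] at e
    rcases e with ⟨e1, e2⟩ | e
    · refine ⟨Or.inl ⟨e1, e2⟩, ?_⟩
      change p (σ θ) ⊆ _
      rw [e2, eA]
      exact singleton_subset_iff.2 hcvA
    · refine ⟨Or.inr (e.mono' hAE), ?_⟩
      obtain ⟨-, D, hD, e2⟩ := e
      change p (σ θ) ⊆ _
      rw [e2, eA]
      exact sUnion_subset_sUnion hD
  · intro θ hθ θ' hθ' hvθ hvθ' hne
    exact hpp _ _ fun e => hne (hσ ⟨hθ, hvθ⟩ ⟨hθ', hvθ'⟩ e)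

end Pool.ETM
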