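import Pool.Agent.ETM.SpDefs

/-!
ETM, block FL (section 9 of the paper proof: the push): definitions.

`(V', E')` is the pull back graph `(f ⁻¹ V, f ⁻¹ E)` of the fixed graph `(V, E)`; all that matters in FlA .. FlJ is that it is admissible for `L1`.
-/

set_option autoImplicit false

open Set Metric Topology Filter
open Pool.JS

namespace Pool.ETM

variable {X : Type*}

/-- a coordinate of the arc `e` -/
structure Coo [TopologicalSpace X] (π : X → ℝ) (e : Set X) : Prop where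
  cont : ContinuousOn π e
  inj : InjOn π e
  img : π '' e = Icc 0 1

namespace Ctx

variable [MetricSpace X]

open Classical in
/-- the end of the path of `θ` at `v` -/
noncomputable def cw (c : Ctx X) (us : ℕ → Set X → X → X) (cv : ℕ → X → X) (i : ℕ) (θ : Set X) (v : X) : X :=
  if v ∈ c.Vint i then cv i v else us i θ v

/-- the half paths `H i θ v`, from `cw i θ v` (near the end `v` of `θ`) to the point `t i θ v` in the graph `Y` around the midpoint of `θ` -/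
structure HalfOk (c : Ctx X) (V' : Set X) (E' : Set (Set X)) (us : ℕ → Set X → X → X) (cv : ℕ → X → X)
    (H : ℕ → Set X → X → Set X) (t : ℕ → Set X → X → X) : Prop where
  path : ∀ i < c.nc, ∀ θ ∈ c.Eint i, ∀ v ∈ c.V (c.lev i), v ∈ θ → PathG E' (H i θ v) (c.cw us cv i θ v) (t i θ v)
  sub : ∀ i < c.nc, ∀ θ ∈ c.Eint i, ∀ v ∈ c.V (c.lev i), v ∈ θ →
    H i θ v ⊆ c.Yv (c.lev i) v E' ∪ MS E' (c.half (c.lev i) θ v)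
  endY : ∀ i < c.nc, ∀ θ ∈ c.Eint i, ∀ v ∈ c.V (c.lev i), v ∈ θ → H i θ v ∩ c.Y (c.lev i) θ E' = {t i θ v}
  Kint : ∀ i < c.nc, ∀ θ ∈ c.Eint i, ∀ v ∈ c.Vint i, v ∈ θ → Disjoint (H i θ v) (c.K E')
  Kbd : ∀ i < c.nc, ∀ θ ∈ c.Eint i, ∀ v ∈ c.Vbd i, v ∈ θ → H i θ v ∩ c.K E' = {us i θ v}
  sep : ∀ i < c.nc, ∀ θ ∈ c.Eint i, ∀ θ' ∈ c.Eint i, θ ≠ θ' → ∀ v ∈ c.Vint i, v ∈ θ → v ∈ θ' →
    ∀ x ∈ H i θ v, x ∈ H i θ' v → x = cv i v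
  cvV : ∀ i < c.nc, ∀ v ∈ c.Vint i, cv i v ∈ V' ∧ cv i v ∈ c.Yv (c.lev i) v E'

/-- the paths `Φ i θ`, the images of the flexible edges under the push -/
structure PathOk (c : Ctx X) (V' : Set X) (E' : Set (Set X)) (us : ℕ → Set X → X → X) (cv : ℕ → X → X)
    (Φ : ℕ → Set X → Set X) : Prop where
  path : ∀ i < c.nc, ∀ θ ∈ c.Eint i, ∀ v ∈ c.V (c.lev i), ∀ v' ∈ c.V (c.lev i), v ∈ θ → v' ∈ θ → v ≠ v' →
    PathG E' (Φ i θ) (c.cw us cv i θ v) (c.cw us cv i θ v')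
  near : ∀ i < c.nc, ∀ θ ∈ c.Eint i, Φ i θ ⊆ c.nh (c.lev i) θ (4 * c.ε)
  two : ∀ i < c.nc, ∀ θ ∈ c.Eint i, 2 ≤ {e | e ∈ E' ∧ e ⊆ Φ i θ}.ncard
  om : ∀ i < c.nc, ∀ θ ∈ c.Eint i, ∀ x ∈ Φ i θ, x ∈ c.K E' → ∃ v ∈ c.Vbd i, v ∈ θ ∧ x = us i θ v
  inter : ∀ i < c.nc, ∀ j < c.nc, ∀ θ ∈ c.Eint i, ∀ θ' ∈ c.Eint j, (i ≠ j ∨ θ ≠ θ') → ∀ x ∈ Φ i θ, x ∈ Φ j θ' →
    i = j ∧ ∃ v ∈ c.Vint i, v ∈ θ ∧ v ∈ θ' ∧ x = cv i v
  inj : ∀ i < c.nc, ∀ j < c.nc, ∀ v ∈ c.Vint i, ∀ w ∈ c.Vint j, cv i v = cv j w → i = j ∧ v = w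
  cvV : ∀ i < c.nc, ∀ v ∈ c.Vint i, cv i v ∈ V' ∧ cv i v ∉ c.K E'

end Ctx

end Pool.ETM
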