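import Pool.Agent.ETM.FlD

/-!
ETM, MODULE FlE (difficulty 3): all half paths at one interior vertex `v`.

RECIPE.  `k = lev i`.  `fl_q` for every `θ ∈ Eint i` with `v ∈ θ` (choice): `q θ`, `t θ`, `p θ`; `fl_tripod`: `cv`, `α θ`.  `H θ = α θ ∪ p θ`.
Path: if `α θ = {cv}` and `cv = q θ` then `H θ = p θ` (`q θ ∈ p θ`); otherwise `PathG.trans'`: `α θ ∩ p θ ⊆ Yv ∩ p θ = {q θ}`, and `q θ` is in both (end points; `JS.ArcX.left_mem`, `right_mem`).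
`H θ ∩ Y = {t θ}`: `α θ ⊆ Yv` is disjoint from `Y` (`fl_ms_Yv`, `fl_ms_Y`: distances `< 4 ε` and `> s / 2 - 4 ε` from `v`).
`H θ ∩ K = ∅`: let `x ∈ H θ ∩ K`; `x ∈ nh θ (4 ε)` (`fl_ms_Yv`, `fl_ms_half`; `nh` is monotone in the radius), `fl_K`: `w ∈ Vbd i`, `w ∈ θ`, `‖Q x - Q w‖ ≤ 6 ε`; `w ≠ v` (`v ∈ interior (A i)`), so `w` is the other end (`fl_other`), and `‖Q x - Q w‖ > s / 2 - ε`
(`fl_ms_half`), or `x ∈ Yv`: `‖Q x - Q w‖ ≥ s - 4 ε` (`‖Q v - Q w‖ = s`, `Qseg`); contradiction.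
`sep`: let `x ∈ H θ ∩ H θ'`, `θ ≠ θ'`.  Both in `α`: `x = cv`.  `x ∈ α θ ∩ p θ'`: `x ∈ Yv ∩ p θ' = {q θ'}`, `q θ' ∈ α θ'`, so `x = cv`; symmetric.  `x ∈ p θ ∩ p θ'`: `fl_ms_half`: `x ∈ nh θ ε ∩ nh θ' ε`, `fl_common` (`r = ε`): `u ∈ Vint i`, `u ∈ θ ∩ θ'`, `‖Q x - Q u‖ ≤ 3 / 2 * ε`;
`u = v` (otherwise `u` is the other end of `θ` and `‖Q x - Q u‖ > s / 2 - ε`); so `x ∈ Bc k v (3 ε)` (`fl_Bc_iff`), `x ∈ ⋃₀ E'` so `x ∈ Yv` (`PG.sub_MS`), `x = q θ = q θ'`, which is in `α θ ∩ α θ' = {cv}`.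
-/

set_option autoImplicit false

open Set Metric Topology Filter
open Pool.JS

namespace Pool.ETM

theorem fle_nh_mono {X : Type*} [MetricSpace X] (c : Ctx X) (k : ℕ) (θ : Set X) {r r' : ℝ} (hr : r ≤ r') {x : X}
    (hx : x ∈ c.nh k θ r) : x ∈ c.nh k θ r' := ⟨hx.1, hx.2.trans hr⟩

theorem fle_far {X : Type*} [MetricSpace X] {c : Ctx X} (h : c.NetOk) {k : ℕ} {θ : Set X} (hθ : θ ∈ c.E k) {v w x : X}
    (hv : v ∈ c.V k) (hvθ : v ∈ θ) (hw : w ∈ c.V k) (hwθ : w ∈ θ) (hne : w ≠ v) (h1 : ‖c.Q k x - c.Q k v‖ < 4 * c.ε)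
    (h2 : ‖c.Q k x - c.Q k w‖ ≤ 6 * c.ε) : False := by
  have h3 := (h.Qseg k θ hθ v hv w hw hne.symm hvθ hwθ).2
  have h4 : c.Q k v - c.Q k w = (c.Q k x - c.Q k w) - (c.Q k x - c.Q k v) := by ring
  have h5 := norm_sub_le (c.Q k x - c.Q k w) (c.Q k x - c.Q k v)
  rw [← h4, h3] at h5
  have h6 := h.sε
  have h7 := h.εpos
  linarith

theorem fle_path0_right {X : Type*} [TopologicalSpace X] [T2Space X] {E : Set (Set X)} {p : Set X} {a b : X} (hp : PathG0 E p a b) :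
    b ∈ p := by
  rcases hp with ⟨h1, h2⟩ | hp
  · rw [h2, h1]
    exact Set.mem_singleton _
  · exact hp.1.right_mem

theorem fle_path0_left {X : Type*} [TopologicalSpace X] [T2Space X] {E : Set (Set X)} {p : Set X} {a b : X} (hp : PathG0 E p a b) :
    a ∈ p := by
  rcases hp with ⟨h1, h2⟩ | hp
  · rw [h2]
    exact Set.mem_singleton _
  · exact hp.1.left_mem

theorem fle_path0_trans {X : Type*} [TopologicalSpace X] [T2Space X] {E : Set (Set X)} {p q : Set X} {a b d : X}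
    (hp : PathG0 E p a b) (hq : PathG E q b d) (hpq : ∀ x ∈ p, x ∈ q → x = b) : PathG E (p ∪ q) a d := by
  rcases hp with ⟨h1, h2⟩ | hp
  · subst h1
    have h3 : p ∪ q = q := by
      rw [h2]
      exact Set.union_eq_right.mpr (Set.singleton_subset_iff.mpr hq.1.left_mem)
    rw [h3]
    exact hq
  · refine PathG.trans' hp hq (Set.Subset.antisymm (fun x hx => hpq x hx.1 hx.2) ?_)
    rintro x rfl
    exact ⟨hp.1.right_mem, hq.1.left_mem⟩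

variable {X : Type*} [MetricSpace X] [CompactSpace X] [Sph X] {c : Ctx X} (h : c.Ok) {i : ℕ} (hi : i < c.nc)
  {V' : Set X} {E' : Set (Set X)} (hA : c.Adm c.L1 V' E')

include h hi hA

theorem fl_int_vertex {v : X} (hv : v ∈ c.Vint i) : ∃ (cv : X) (H : Set X → Set X) (t : Set X → X),
    cv ∈ V' ∧ cv ∈ c.Yv (c.lev i) v E' ∧
    (∀ θ ∈ c.Eint i, v ∈ θ → PathG E' (H θ) cv (t θ) ∧
      H θ ⊆ c.Yv (c.lev i) v E' ∪ MS E' (c.half (c.lev i) θ v) ∧ H θ ∩ c.Y (c.lev i) θ E' = {t θ} ∧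
      Disjoint (H θ) (c.K E')) ∧
    ∀ θ ∈ c.Eint i, ∀ θ' ∈ c.Eint i, θ ≠ θ' → v ∈ θ → v ∈ θ' → ∀ x ∈ H θ, x ∈ H θ' → x = cv := by
  have hvV : v ∈ c.V (c.lev i) := hv.1
  have hε := h.net.εpos
  have hs := h.net.sε
  have hq : ∀ θ : Set X, ∃ (q t : X) (p : Set X), θ ∈ c.Eint i → v ∈ θ → (PathG E' p q t ∧
      p ⊆ MS E' (c.half (c.lev i) θ v) ∧ p ∩ c.Yv (c.lev i) v E' = {q} ∧
      p ∩ c.Y (c.lev i) θ E' = {t} ∧ q ∈ V' ∧ t ∈ V') := by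
    intro θ
    by_cases hθ : θ ∈ c.Eint i ∧ v ∈ θ
    · obtain ⟨q, t, p, h1⟩ := fl_q h hi hA hθ.1 hvV hθ.2
      exact ⟨q, t, p, fun _ _ => h1⟩
    · exact ⟨v, v, ∅, fun h1 h2 => absurd ⟨h1, h2⟩ hθ⟩
  choose q t p hq using hq
  have hqV : ∀ θ ∈ c.Eint i, v ∈ θ → q θ ∈ V' ∧ q θ ∈ c.Yv (c.lev i) v E' := by
    intro θ hθ hvθ
    obtain ⟨_, _, h3, _, h5, _⟩ := hq θ hθ hvθ
    have h6 : q θ ∈ p θ ∩ c.Yv (c.lev i) v E' := by
      rw [h3]
      exact Set.mem_singleton _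
    exact ⟨h5, h6.2⟩
  obtain ⟨cv, hcvV, hcvY, α, hα, hαα⟩ := fl_tripod h hi hA hv hqV
  refine ⟨cv, fun θ => α θ ∪ p θ, t, hcvV, hcvY, ?_, ?_⟩
  · intro θ hθ hvθ
    obtain ⟨h1, h2, h3, h4, _, _⟩ := hq θ hθ hvθ
    obtain ⟨h5, h6⟩ := hα θ hθ hvθ
    obtain ⟨v', hv', hvθ', hne, hoth⟩ := fl_other h.net hθ.1 hvV hvθ
    refine ⟨?_, ?_, ?_, ?_⟩
    · refine fle_path0_trans h5 h1 ?_
      intro x hx hxp
      have h7 : x ∈ p θ ∩ c.Yv (c.lev i) v E' := ⟨hxp, h6 hx⟩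
      rw [h3] at h7
      exact h7
    · exact Set.union_subset (h6.trans Set.subset_union_left) (h2.trans Set.subset_union_right)
    · rw [Set.union_inter_distrib_right, h4]
      have h7 : α θ ∩ c.Y (c.lev i) θ E' = ∅ := by
        rw [Set.eq_empty_iff_forall_notMem]
        rintro x ⟨hx, hxY⟩
        have h8 := (fl_ms_Yv h hi hθ hA hvV hvθ (h6 hx)).2
        have h9 := (fl_ms_Y h hi hθ hA hxY).2 v hvV hvθ
        linarith
      rw [h7, Set.empty_union]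
    · rw [Set.disjoint_left]
      rintro x (hx | hx) hxK
      · have h8 := fl_ms_Yv h hi hθ hA hvV hvθ (h6 hx)
        obtain ⟨w, hw, hwθ, h9⟩ := fl_K h hi hθ hA hxK h8.1
        have hwv : w ≠ v := by
          rintro rfl
          exact hw.2 hv.2
        exact fle_far h.net hθ.1 hvV hvθ hw.1.1 hwθ hwv h8.2 h9
      · have h8 := fl_ms_half h hi hθ hA hvV hvθ hv' hvθ' hne.symm (h2 hx)
        obtain ⟨w, hw, hwθ, h9⟩ := fl_K h hi hθ hA hxK (fle_nh_mono c _ _ (by linarith) h8.1)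
        have hwv : w ≠ v := by
          rintro rfl
          exact hw.2 hv.2
        rcases hoth w hw.1.1 hwθ with h10 | h10
        · exact hwv h10
        · subst h10
          have h11 := h8.2.2
          linarith
  · intro θ hθ θ' hθ' hne hvθ hvθ' x hx hx'
    obtain ⟨h1, h2, h3, h4, _, _⟩ := hq θ hθ hvθ
    obtain ⟨h5, h6⟩ := hα θ hθ hvθ
    obtain ⟨h1', h2', h3', h4', _, _⟩ := hq θ' hθ' hvθ'
    obtain ⟨h5', h6'⟩ := hα θ' hθ' hvθ'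
    have hαx := hαα θ hθ θ' hθ' hvθ hvθ' hne
    have fin : x ∈ α θ → x ∈ α θ' → x = cv := by
      intro ha hb
      have h7 : x ∈ α θ ∩ α θ' := ⟨ha, hb⟩
      rw [hαx] at h7
      exact h7
    have inq : x ∈ p θ → x ∈ c.Yv (c.lev i) v E' → x ∈ α θ := by
      intro ha hb
      have h7 : x ∈ p θ ∩ c.Yv (c.lev i) v E' := ⟨ha, hb⟩
      rw [h3] at h7
      have h8 : x = q θ := h7
      rw [h8]
      exact fle_path0_right h5
    have inq' : x ∈ p θ' → x ∈ c.Yv (c.lev i) v E' → x ∈ α θ' := by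
      intro ha hb
      have h7 : x ∈ p θ' ∩ c.Yv (c.lev i) v E' := ⟨ha, hb⟩
      rw [h3'] at h7
      have h8 : x = q θ' := h7
      rw [h8]
      exact fle_path0_right h5'
    rcases hx with hx | hx <;> rcases hx' with hx' | hx'
    · exact fin hx hx'
    · exact fin hx (inq' hx' (h6 hx))
    · exact fin (inq hx (h6' hx')) hx'
    · obtain ⟨w, hw, hwθ, hwne, _⟩ := fl_other h.net hθ.1 hvV hvθ
      obtain ⟨w', hw', hwθ', hwne', _⟩ := fl_other h.net hθ'.1 hvV hvθ'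
      have h8 := fl_ms_half h hi hθ hA hvV hvθ hw hwθ hwne.symm (h2 hx)
      have h8' := fl_ms_half h hi hθ' hA hvV hvθ' hw' hwθ' hwne'.symm (h2' hx')
      obtain ⟨u, hu, huθ, huθ', h9⟩ := fl_common h hi hθ hθ' hne (r := c.ε) (by linarith) h8.1 h8'.1
      have huv : u = v := by
        by_contra hcon
        have h10 := (fl_ms_half h hi hθ hA hvV hvθ hu.1 huθ (fun e => hcon e.symm) (h2 hx)).2.2
        linarith
      subst huv
      have h10 : x ∈ c.Bc (c.lev i) u (3 * c.ε) := by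
        rw [fl_Bc_iff h.net hθ.1 hvV hvθ (by linarith)]
        exact ⟨h8.1.1, by linarith⟩
      have h11 : x ∈ ⋃₀ E' := by
        obtain ⟨_, E₁, hE₁, hpE₁⟩ := h1
        rw [hpE₁] at hx
        exact Set.sUnion_mono hE₁ hx
      have h12 : x ∈ c.Yv (c.lev i) u E' := PG.sub_MS hA.good.pg hA.good.disc ⟨h10, h11⟩
      exact fin (inq hx h12) (inq' hx' h12)

end Pool.ETM
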