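import Pool.Agent.ETM.FlE

/-!
ETM, MODULE FlF (difficulty 2): existence of all the half paths.

RECIPE.  For `i < nc` and `v ∈ Vint i` choose `cv i v`, `H₀ i v`, `t₀ i v` by `fl_int_vertex` (`choose` with hypotheses, or define by `if h : i < c.nc ∧ v ∈ c.Vint i then .. else ..`).  For `v ∈ Vbd i`, `v ∈ θ ∈ Eint i`: `(hl i hi θ hθ).path v` gives `p`; choose `t₁ i θ v = p`.
`H i θ v = if v ∈ Vint i then H₀ i v θ else Pt i θ v`, `t i θ v = if v ∈ Vint i then t₀ i v θ else t₁ i θ v`.  Every vertex `v ∈ θ` is in `Vint i` or in `Vbd i` (`fl_vert`), not in both (definitions).  `cw = cv` resp. `us` accordingly.  For `v ∈ Vbd i`: `PathG` from `us` to `p` by `PathG.symm'`.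
-/

set_option autoImplicit false

open Set Metric Topology Filter
open Pool.JS

namespace Pool.ETM

variable {X : Type*} [MetricSpace X] [CompactSpace X] [Sph X] {c : Ctx X}

theorem fl_exists_half (h : c.Ok) {V' : Set X} {E' : Set (Set X)} (hA : c.Adm c.L1 V' E') {Pt : ℕ → Set X → X → Set X}
    {us : ℕ → Set X → X → X} {el : ℕ → Set X → Set X}
    (hl : ∀ i < c.nc, ∀ θ ∈ c.Eint i, c.Loc i θ V' E' (Pt i θ) (us i θ) (el i θ)) :
    ∃ (cv : ℕ → X → X) (H : ℕ → Set X → X → Set X) (t : ℕ → Set X → X → X), c.HalfOk V' E' us cv H t := by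
  classical
  have h1 : ∀ (i : ℕ) (v : X), ∃ (cv : X) (H : Set X → Set X) (t : Set X → X), i < c.nc → v ∈ c.Vint i →
      (cv ∈ V' ∧ cv ∈ c.Yv (c.lev i) v E' ∧
      (∀ θ ∈ c.Eint i, v ∈ θ → PathG E' (H θ) cv (t θ) ∧
        H θ ⊆ c.Yv (c.lev i) v E' ∪ MS E' (c.half (c.lev i) θ v) ∧ H θ ∩ c.Y (c.lev i) θ E' = {t θ} ∧
        Disjoint (H θ) (c.K E')) ∧
      ∀ θ ∈ c.Eint i, ∀ θ' ∈ c.Eint i, θ ≠ θ' → v ∈ θ → v ∈ θ' → ∀ x ∈ H θ, x ∈ H θ' → x = cv) := by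
    intro i v
    by_cases hiv : i < c.nc ∧ v ∈ c.Vint i
    · obtain ⟨cv, H, t, h2⟩ := fl_int_vertex h hiv.1 hA hiv.2
      exact ⟨cv, H, t, fun _ _ => h2⟩
    · exact ⟨v, fun _ => ∅, fun _ => v, fun h2 h3 => absurd ⟨h2, h3⟩ hiv⟩
  choose cv H₀ t₀ h1 using h1
  have h2 : ∀ (i : ℕ) (θ : Set X) (v : X), ∃ p : X, i < c.nc → θ ∈ c.Eint i → v ∈ c.Vbd i → v ∈ θ →
      (p ∈ V' ∧ p ∈ c.Y (c.lev i) θ E' ∧ PathG E' (Pt i θ v) p (us i θ v) ∧ us i θ v ∈ V' ∧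
        Pt i θ v ⊆ MS E' (c.half (c.lev i) θ v) ∧ Pt i θ v ∩ c.Y (c.lev i) θ E' = {p} ∧
        Pt i θ v ∩ c.K E' = {us i θ v}) := by
    intro i θ v
    by_cases hiv : (i < c.nc ∧ θ ∈ c.Eint i) ∧ (v ∈ c.Vbd i ∧ v ∈ θ)
    · obtain ⟨p, hp, h3⟩ := (hl i hiv.1.1 θ hiv.1.2).path v hiv.2.1 hiv.2.2
      exact ⟨p, fun _ _ _ _ => ⟨hp, h3⟩⟩
    · exact ⟨v, fun h3 h4 h5 h6 => absurd ⟨⟨h3, h4⟩, h5, h6⟩ hiv⟩
  choose t₁ h2 using h2
  have hbd : ∀ (i : ℕ) (v : X), v ∈ c.Vbd i → v ∉ c.Vint i := fun i v hv hv' => hv.2 hv'.2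
  refine ⟨cv, fun i θ v => if v ∈ c.Vint i then H₀ i v θ else Pt i θ v,
    fun i θ v => if v ∈ c.Vint i then t₀ i v θ else t₁ i θ v, ?_⟩
  have eH1 : ∀ (i : ℕ) (θ : Set X) (v : X), v ∈ c.Vint i →
      (if v ∈ c.Vint i then H₀ i v θ else Pt i θ v) = H₀ i v θ := fun i θ v hv => if_pos hv
  have eH2 : ∀ (i : ℕ) (θ : Set X) (v : X), v ∈ c.Vbd i →
      (if v ∈ c.Vint i then H₀ i v θ else Pt i θ v) = Pt i θ v := fun i θ v hv => if_neg (hbd i v hv)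
  have et1 : ∀ (i : ℕ) (θ : Set X) (v : X), v ∈ c.Vint i →
      (if v ∈ c.Vint i then t₀ i v θ else t₁ i θ v) = t₀ i v θ := fun i θ v hv => if_pos hv
  have et2 : ∀ (i : ℕ) (θ : Set X) (v : X), v ∈ c.Vbd i →
      (if v ∈ c.Vint i then t₀ i v θ else t₁ i θ v) = t₁ i θ v := fun i θ v hv => if_neg (hbd i v hv)
  have ec1 : ∀ (i : ℕ) (θ : Set X) (v : X), v ∈ c.Vint i → c.cw us cv i θ v = cv i v := by
    intro i θ v hv
    unfold Ctx.cw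
    exact if_pos hv
  have ec2 : ∀ (i : ℕ) (θ : Set X) (v : X), v ∈ c.Vbd i → c.cw us cv i θ v = us i θ v := by
    intro i θ v hv
    unfold Ctx.cw
    exact if_neg (hbd i v hv)
  constructor
  · intro i hi θ hθ v hv hvθ
    rcases fl_vert h hi hθ hv hvθ with hv' | hv'
    · show PathG E' (if v ∈ c.Vint i then H₀ i v θ else Pt i θ v) _ (if v ∈ c.Vint i then t₀ i v θ else t₁ i θ v)
      rw [eH1 i θ v hv', et1 i θ v hv', ec1 i θ v hv']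
      exact ((h1 i v hi hv').2.2.1 θ hθ hvθ).1
    · show PathG E' (if v ∈ c.Vint i then H₀ i v θ else Pt i θ v) _ (if v ∈ c.Vint i then t₀ i v θ else t₁ i θ v)
      rw [eH2 i θ v hv', et2 i θ v hv', ec2 i θ v hv']
      exact (h2 i θ v hi hθ hv' hvθ).2.2.1.symm'
  · intro i hi θ hθ v hv hvθ
    rcases fl_vert h hi hθ hv hvθ with hv' | hv'
    · show (if v ∈ c.Vint i then H₀ i v θ else Pt i θ v) ⊆ _
      rw [eH1 i θ v hv']
      exact ((h1 i v hi hv').2.2.1 θ hθ hvθ).2.1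
    · show (if v ∈ c.Vint i then H₀ i v θ else Pt i θ v) ⊆ _
      rw [eH2 i θ v hv']
      exact (h2 i θ v hi hθ hv' hvθ).2.2.2.2.1.trans Set.subset_union_right
  · intro i hi θ hθ v hv hvθ
    rcases fl_vert h hi hθ hv hvθ with hv' | hv'
    · show (if v ∈ c.Vint i then H₀ i v θ else Pt i θ v) ∩ _ = {(if v ∈ c.Vint i then t₀ i v θ else t₁ i θ v)}
      rw [eH1 i θ v hv', et1 i θ v hv']
      exact ((h1 i v hi hv').2.2.1 θ hθ hvθ).2.2.1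
    · show (if v ∈ c.Vint i then H₀ i v θ else Pt i θ v) ∩ _ = {(if v ∈ c.Vint i then t₀ i v θ else t₁ i θ v)}
      rw [eH2 i θ v hv', et2 i θ v hv']
      exact (h2 i θ v hi hθ hv' hvθ).2.2.2.2.2.1
  · intro i hi θ hθ v hv' hvθ
    show Disjoint (if v ∈ c.Vint i then H₀ i v θ else Pt i θ v) _
    rw [eH1 i θ v hv']
    exact ((h1 i v hi hv').2.2.1 θ hθ hvθ).2.2.2
  · intro i hi θ hθ v hv' hvθ
    show (if v ∈ c.Vint i then H₀ i v θ else Pt i θ v) ∩ _ = _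
    rw [eH2 i θ v hv']
    exact (h2 i θ v hi hθ hv' hvθ).2.2.2.2.2.2
  · intro i hi θ hθ θ' hθ' hne v hv' hvθ hvθ' x hx hx'
    have hx1 : x ∈ (if v ∈ c.Vint i then H₀ i v θ else Pt i θ v) := hx
    have hx1' : x ∈ (if v ∈ c.Vint i then H₀ i v θ' else Pt i θ' v) := hx'
    rw [eH1 i θ v hv'] at hx1
    rw [eH1 i θ' v hv'] at hx1'
    exact (h1 i v hi hv').2.2.2 θ hθ θ' hθ' hne hvθ hvθ' x hx1 hx1'
  · intro i hi v hv'
    exact ⟨(h1 i v hi hv').1, (h1 i v hi hv').2.1⟩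

end Pool.ETM
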