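import Pool.Agent.ETM.FlC

/-!
ETM, MODULE FlG (difficulty 3): the full path of one edge `θ`; it has at least two edges.

RECIPE.  `k = lev i`.  `fl_full`: `H = H i θ v`, `H' = H i θ v'`, `t`, `t'` their ends in `Y = Y k θ E'`.  `t, t' ∈ V'` (`PG.end_mem`).  `M = {t}` if `t = t'`, otherwise a path `PathG E' M t t'` with `M ⊆ Y` (`PG.path` with `A ⊆ E'`, `⋃₀ A = Y`, `fl_ms_conn`; `PathG.mono'`).
`H ∩ M = {t}` (`H ∩ Y = {t}`), `M ∩ H' = {t'}`, `H ∩ H' ⊆ Y`: let `x` be in both; `H ⊆ Yv v ∪ MS (half v)`, `H' ⊆ Yv v' ∪ MS (half v')`.  `x ∈ MS (half v) ∩ MS (half v')`: `fl_two_half`.  `x ∈ Yv v`: `‖Q x - Q v‖ < 4 ε` (`fl_ms_Yv`), but `x ∈ H'` gives `‖Q x - Q v‖ > s / 2 - ε` (`fl_ms_half`) or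
`‖Q x - Q v'‖ < 4 ε`, `‖Q v - Q v'‖ = s`; contradiction; symmetric for `Yv v'`.  So `H ∩ H' ⊆ {t} ∩ {t'}`.  `Φ = H ∪ M ∪ H'` by `PathG.trans'` (twice, or once if `M = {t}`), `PathG.symm'` for `H'`.
`fl_two_edges`: `Φ = ⋃₀ D`, `D ⊆ E'`, and `D ⊆ {e | e ∈ E' ∧ e ⊆ Φ}` (finite: `PG.finE`).  If `ncard ≤ 1`, then `D` has at most one element; `a ∈ Φ`, so `D = {e}`, `Φ = e`, `a, b ∈ e`, `a ∈ nh θ (4 ε) ⊆ nh θ (10 ε)`, `fl_edge_small`: `‖Q a - Q b‖ < ε`.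
-/

set_option autoImplicit false

open Set Metric Topology Filter
open Pool.JS

namespace Pool.ETM

variable {X : Type*} [MetricSpace X] [CompactSpace X] [Sph X] {c : Ctx X} (h : c.Ok) {i : ℕ} (hi : i < c.nc)
  {θ : Set X} (hθ : θ ∈ c.Eint i) {V' : Set X} {E' : Set (Set X)} (hA : c.Adm c.L1 V' E')

include h hi hθ hA

theorem fl_full {us : ℕ → Set X → X → X} {cv : ℕ → X → X} {H : ℕ → Set X → X → Set X} {t : ℕ → Set X → X → X}
    (hH : c.HalfOk V' E' us cv H t) {v v' : X} (hv : v ∈ c.V (c.lev i)) (hvθ : v ∈ θ) (hv' : v' ∈ c.V (c.lev i))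
    (hvθ' : v' ∈ θ) (hne : v ≠ v') :
    ∃ Φ : Set X, PathG E' Φ (c.cw us cv i θ v) (c.cw us cv i θ v') ∧
      Φ ⊆ H i θ v ∪ c.Y (c.lev i) θ E' ∪ H i θ v' := by
  have hpg := hA.good.pg
  have hε := h.net.εpos
  have hsε := h.net.sε
  have hH1 := hH.path i hi θ hθ v hv hvθ
  have hH2 := hH.path i hi θ hθ v' hv' hvθ'
  have he1 := hH.endY i hi θ hθ v hv hvθ
  have he2 := hH.endY i hi θ hθ v' hv' hvθ'
  have ht1 : t i θ v ∈ V' := (hpg.end_mem hH1).2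
  have ht2 : t i θ v' ∈ V' := (hpg.end_mem hH2).2
  have htY1 : t i θ v ∈ H i θ v ∩ c.Y (c.lev i) θ E' := by
    rw [he1]
    exact mem_singleton _
  have htY2 : t i θ v' ∈ H i θ v' ∩ c.Y (c.lev i) θ E' := by
    rw [he2]
    exact mem_singleton _
  have hs : ‖c.Q (c.lev i) v - c.Q (c.lev i) v'‖ = c.s :=
    (h.net.Qseg (c.lev i) θ hθ.1 v hv v' hv' hne hvθ hvθ').2
  have hHH : ∀ x ∈ H i θ v, x ∈ H i θ v' → x ∈ c.Y (c.lev i) θ E' := by
    intro x hx1 hx2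
    rcases hH.sub i hi θ hθ v hv hvθ hx1 with h1 | h1
    · exfalso
      have h3 := (fl_ms_Yv h hi hθ hA hv hvθ h1).2
      rcases hH.sub i hi θ hθ v' hv' hvθ' hx2 with h2 | h2
      · have h4 := (fl_ms_Yv h hi hθ hA hv' hvθ' h2).2
        have h5 : ‖c.Q (c.lev i) v - c.Q (c.lev i) v'‖ ≤
            ‖c.Q (c.lev i) x - c.Q (c.lev i) v'‖ + ‖c.Q (c.lev i) x - c.Q (c.lev i) v‖ := by
          refine le_trans (le_of_eq ?_) (norm_sub_le _ _)
          congr 1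
          ring
        rw [hs] at h5
        linarith
      · have h4 := (fl_ms_half h hi hθ hA hv' hvθ' hv hvθ hne.symm h2).2.2
        linarith
    · rcases hH.sub i hi θ hθ v' hv' hvθ' hx2 with h2 | h2
      · exfalso
        have h3 := (fl_ms_Yv h hi hθ hA hv' hvθ' h2).2
        have h4 := (fl_ms_half h hi hθ hA hv hvθ hv' hvθ' hne h1).2.2
        linarith
      · exact fl_two_half h hi hθ hA hv hvθ hv' hvθ' hne h1 h2
  by_cases htt : t i θ v = t i θ v'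
  · have h1 : H i θ v ∩ H i θ v' = {t i θ v} := by
      apply Subset.antisymm
      · rintro x ⟨hx1, hx2⟩
        rw [← he1]
        exact ⟨hx1, hHH x hx1 hx2⟩
      · rintro x hx
        rw [mem_singleton_iff] at hx
        subst hx
        refine ⟨htY1.1, ?_⟩
        rw [htt]
        exact htY2.1
    have h2 : PathG E' (H i θ v') (t i θ v) (c.cw us cv i θ v') := by
      rw [htt]
      exact hH2.symm'
    refine ⟨_, hH1.trans' h2 h1, ?_⟩
    intro x hx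
    rcases hx with hx | hx
    · exact Or.inl (Or.inl hx)
    · exact Or.inr hx
  · obtain ⟨hc, ⟨D, hD, hYD⟩, _⟩ := fl_ms_conn h hi hθ hA
    obtain ⟨M, hM⟩ := hpg.path hD (hYD ▸ hc) ht1 ht2 (hYD ▸ htY1.2) (hYD ▸ htY2.2) htt
    have hMY : M ⊆ c.Y (c.lev i) θ E' := by
      obtain ⟨D', hD', rfl⟩ := hM.2
      rw [hYD]
      exact sUnion_subset_sUnion hD'
    have hM' := hM.mono' hD
    have htM1 : t i θ v ∈ M := ArcX.left_mem hM'.1
    have htM2 : t i θ v' ∈ M := ArcX.right_mem hM'.1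
    have h1 : H i θ v ∩ M = {t i θ v} := by
      apply Subset.antisymm
      · rintro x ⟨hx1, hx2⟩
        rw [← he1]
        exact ⟨hx1, hMY hx2⟩
      · rintro x hx
        rw [mem_singleton_iff] at hx
        subst hx
        exact ⟨htY1.1, htM1⟩
    have h2 : (H i θ v ∪ M) ∩ H i θ v' = {t i θ v'} := by
      apply Subset.antisymm
      · rintro x ⟨hx1, hx2⟩
        rw [← he2]
        refine ⟨hx2, ?_⟩
        rcases hx1 with hx1 | hx1
        · exact hHH x hx1 hx2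
        · exact hMY hx1
      · rintro x hx
        rw [mem_singleton_iff] at hx
        subst hx
        exact ⟨Or.inr htM2, htY2.1⟩
    refine ⟨_, (hH1.trans' hM' h1).trans' hH2.symm' h2, ?_⟩
    intro x hx
    rcases hx with (hx | hx) | hx
    · exact Or.inl (Or.inl hx)
    · exact Or.inl (Or.inr (hMY hx))
    · exact Or.inr hx

theorem fl_two_edges {Φ : Set X} {a b : X} (hp : PathG E' Φ a b) (hn : Φ ⊆ c.nh (c.lev i) θ (4 * c.ε))
    (hd : c.ε ≤ ‖c.Q (c.lev i) a - c.Q (c.lev i) b‖) : 2 ≤ {e | e ∈ E' ∧ e ⊆ Φ}.ncard := by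
  have hpg := hA.good.pg
  have hε := h.net.εpos
  have ha : a ∈ Φ := ArcX.left_mem hp.1
  have hb : b ∈ Φ := ArcX.right_mem hp.1
  obtain ⟨D, hD, hΦ⟩ := hp.2
  by_contra hcon
  have hle : {e | e ∈ E' ∧ e ⊆ Φ}.ncard ≤ 1 := by omega
  have hfin : {e | e ∈ E' ∧ e ⊆ Φ}.Finite := hpg.finE.subset (fun e he => he.1)
  rw [ncard_le_one_iff hfin] at hle
  have ha' := ha
  have hb' := hb
  rw [hΦ] at ha' hb'
  obtain ⟨e₁, he₁, hae⟩ := ha'
  obtain ⟨e₂, he₂, hbe⟩ := hb'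
  have h1 : e₁ ∈ {e | e ∈ E' ∧ e ⊆ Φ} := ⟨hD he₁, by rw [hΦ]; exact subset_sUnion_of_mem he₁⟩
  have h2 : e₂ ∈ {e | e ∈ E' ∧ e ⊆ Φ} := ⟨hD he₂, by rw [hΦ]; exact subset_sUnion_of_mem he₂⟩
  have h3 := hle h1 h2
  subst h3
  have h4 : a ∈ c.nh (c.lev i) θ (10 * c.ε) := ⟨(hn ha).1, (hn ha).2.trans (by linarith)⟩
  have h5 := fl_edge_small h hi hθ hA (hD he₁) hae h4 a hae b hbe
  linarith

end Pool.ETM
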