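import Pool.Agent.ETM.FlC

/-!
ETM, MODULE FlH (difficulty 3): properties of sets `Φ i θ` covered by the half paths and the graphs `Y`.

RECIPE.  `k = lev i`.  `fl_half_near`: `H ⊆ Yv ∪ MS (half)`, `fl_ms_Yv`, `fl_ms_half` (`nh` is monotone in the radius), for `w ≠ v` in `θ`: `‖Q x - Q w‖ > s / 2 - ε`: `fl_ms_half`, or `‖Q x - Q v‖ < 4 ε` and `‖Q v - Q w‖ = s` (`Qseg`), `s ≥ 400 ε`.
`fl_phi_near`: `fl_half_near`, `fl_ms_Y`.  `fl_phi_om`: `x ∈ Y`: `fl_Y_K`; `x ∈ H i θ v`: `fl_vert`, `Kint`, `Kbd`.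
`fl_phi_inter`: `x ∈ nh (lev i) θ (4 ε) ∩ nh (lev j) θ' (4 ε)` (`fl_phi_near`), so `i = j` (`fl_disj`; `nh ⊆ D` by definition), `θ ≠ θ'`; `fl_common` with `r = 4 ε`: `v ∈ Vint i`, `v ∈ θ`, `v ∈ θ'`, `‖Q x - Q v‖ ≤ 6 ε`.  `x ∈ H i θ v`: it is not in `Y` (`fl_ms_Y`: `> s / 2 - 4 ε ≥ 196 ε`), and not in
`H i θ w`, `w ≠ v` (`fl_half_near`); same for `θ'`: `x ∈ H i θ' v`.  `HalfOk.sep`.
`fl_cv_inj`: `cv i v ∈ Yv (lev i) v E'` (`cvV`), `⊆ nh (lev i) θ (4 ε) ⊆ D (lev i) θ` for some `θ ∋ v` (`fl_vint_ex`, `fl_ms_Yv`), same for `w`: `fl_disj` gives `i = j`, `fl_vsep`: `v = w`.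
`fl_cv_K`: `θ ∋ v` (`fl_vint_ex`), `cw = cv` at `v` (definition), it is the end point of the path `H i θ v` (`ArcX.left_mem`), disjoint from `K` (`Kint`).
`fl_end_near`: `v ∈ Vint i`: `cw = cv ∈ Yv`, `fl_ms_Yv`.  `v ∈ Vbd i`: `cw = us`, `us_near`.
-/

set_option autoImplicit false

open Set Metric Topology Filter
open Pool.JS

namespace Pool.ETM

variable {X : Type*} [MetricSpace X] [CompactSpace X] [Sph X] {c : Ctx X} (h : c.Ok) {V' : Set X} {E' : Set (Set X)}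
  (hA : c.Adm c.L1 V' E') {us : ℕ → Set X → X → X} {cv : ℕ → X → X} {H : ℕ → Set X → X → Set X}
  {t : ℕ → Set X → X → X} (hH : c.HalfOk V' E' us cv H t)

omit [MetricSpace X] [CompactSpace X] [Sph X] in
private theorem flh_mono {k : ℕ} {θ : Set X} {r r' : ℝ} (hr : r ≤ r') {x : X} (hx : x ∈ c.nh k θ r) : x ∈ c.nh k θ r' :=
  ⟨hx.1, hx.2.trans hr⟩

include h hA hH

theorem fl_half_near {i : ℕ} (hi : i < c.nc) {θ : Set X} (hθ : θ ∈ c.Eint i) {v : X} (hv : v ∈ c.V (c.lev i))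
    (hvθ : v ∈ θ) {x : X} (hx : x ∈ H i θ v) : x ∈ c.nh (c.lev i) θ (4 * c.ε) ∧
      ∀ w ∈ c.V (c.lev i), w ∈ θ → w ≠ v → c.s / 2 - c.ε < ‖c.Q (c.lev i) x - c.Q (c.lev i) w‖ := by
  have hε := h.net.εpos
  have hs := h.net.sε
  rcases hH.sub i hi θ hθ v hv hvθ hx with h1 | h1
  · obtain ⟨h2, h3⟩ := fl_ms_Yv h hi hθ hA hv hvθ h1
    refine ⟨h2, fun w hw hwθ hne => ?_⟩
    have h4 := (h.net.Qseg (c.lev i) θ hθ.1 v hv w hw hne.symm hvθ hwθ).2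
    have h5 : ‖c.Q (c.lev i) v - c.Q (c.lev i) w‖ ≤
        ‖c.Q (c.lev i) x - c.Q (c.lev i) v‖ + ‖c.Q (c.lev i) x - c.Q (c.lev i) w‖ := by
      rw [norm_sub_rev (c.Q (c.lev i) x) (c.Q (c.lev i) v)]
      exact norm_sub_le_norm_sub_add_norm_sub _ _ _
    linarith
  · obtain ⟨v', hv', hvθ', hne', -⟩ := fl_other h.net hθ.1 hv hvθ
    have h2 := fl_ms_half h hi hθ hA hv hvθ hv' hvθ' hne'.symm h1
    refine ⟨flh_mono (by linarith) h2.1, fun w hw hwθ hne => ?_⟩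
    exact (fl_ms_half h hi hθ hA hv hvθ hw hwθ hne.symm h1).2.2

theorem fl_cv_inj {i j : ℕ} (hi : i < c.nc) (hj : j < c.nc) {v w : X} (hv : v ∈ c.Vint i) (hw : w ∈ c.Vint j)
    (he : cv i v = cv j w) : i = j ∧ v = w := by
  obtain ⟨θ, hθ, hvθ⟩ := fl_vint_ex h hi hv
  obtain ⟨θ', hθ', hwθ'⟩ := fl_vint_ex h hj hw
  have h1 := (hH.cvV i hi v hv).2
  have h2 := (hH.cvV j hj w hw).2
  have h3 := (fl_ms_Yv h hi hθ hA hv.1 hvθ h1).1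
  have h4 := (fl_ms_Yv h hj hθ' hA hw.1 hwθ' h2).1
  rw [← he] at h4 h2
  have hij : i = j := fl_disj h hi hθ hj hθ' h3.1 h4.1
  subst hij
  exact ⟨rfl, fl_vsep h hi hA hv hw h1 h2⟩

theorem fl_cv_K {i : ℕ} (hi : i < c.nc) {v : X} (hv : v ∈ c.Vint i) : cv i v ∉ c.K E' := by
  obtain ⟨θ, hθ, hvθ⟩ := fl_vint_ex h hi hv
  have h1 : c.cw us cv i θ v = cv i v := by
    unfold Ctx.cw
    exact if_pos hv
  have h2 := (hH.path i hi θ hθ v hv.1 hvθ).1.left_mem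
  rw [h1] at h2
  exact Set.disjoint_left.1 (hH.Kint i hi θ hθ v hv hvθ) h2

theorem fl_end_near {i : ℕ} (hi : i < c.nc) {θ : Set X} (hθ : θ ∈ c.Eint i) {Pt : ℕ → Set X → X → Set X}
    {el : ℕ → Set X → Set X} (hl : c.Loc i θ V' E' (Pt i θ) (us i θ) (el i θ)) {v : X} (hv : v ∈ c.V (c.lev i))
    (hvθ : v ∈ θ) : ‖c.Q (c.lev i) (c.cw us cv i θ v) - c.Q (c.lev i) v‖ ≤ 6 * c.ε := by
  have hε := h.net.εpos
  rcases fl_vert h hi hθ hv hvθ with h1 | h1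
  · have h2 : c.cw us cv i θ v = cv i v := by
      unfold Ctx.cw
      exact if_pos h1
    rw [h2]
    have h3 := (fl_ms_Yv h hi hθ hA hv hvθ (hH.cvV i hi v h1).2).2
    linarith
  · have h2 : c.cw us cv i θ v = us i θ v := by
      unfold Ctx.cw
      exact if_neg fun h3 => h1.2 h3.2
    rw [h2]
    exact (us_near h hA hi hθ hl h1 hvθ).2.1

variable {Φ : ℕ → Set X → Set X} (hΦ : ∀ i < c.nc, ∀ θ ∈ c.Eint i, ∀ x ∈ Φ i θ,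
  x ∈ c.Y (c.lev i) θ E' ∨ ∃ v ∈ c.V (c.lev i), v ∈ θ ∧ x ∈ H i θ v)

include hΦ

theorem fl_phi_near {i : ℕ} (hi : i < c.nc) {θ : Set X} (hθ : θ ∈ c.Eint i) : Φ i θ ⊆ c.nh (c.lev i) θ (4 * c.ε) := by
  intro x hx
  rcases hΦ i hi θ hθ x hx with h1 | ⟨v, hv, hvθ, h1⟩
  · exact (fl_ms_Y h hi hθ hA h1).1
  · exact (fl_half_near h hA hH hi hθ hv hvθ h1).1

theorem fl_phi_om {i : ℕ} (hi : i < c.nc) {θ : Set X} (hθ : θ ∈ c.Eint i) {x : X} (hx : x ∈ Φ i θ) (hK : x ∈ c.K E') :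
    ∃ v ∈ c.Vbd i, v ∈ θ ∧ x = us i θ v := by
  rcases hΦ i hi θ hθ x hx with h1 | ⟨v, hv, hvθ, h1⟩
  · exact absurd hK (Set.disjoint_left.1 (fl_Y_K h hi hθ hA) h1)
  · rcases fl_vert h hi hθ hv hvθ with h2 | h2
    · exact absurd hK (Set.disjoint_left.1 (hH.Kint i hi θ hθ v h2 hvθ) h1)
    · have h3 : x ∈ H i θ v ∩ c.K E' := ⟨h1, hK⟩
      rw [hH.Kbd i hi θ hθ v h2 hvθ] at h3
      exact ⟨v, h2, hvθ, h3⟩

private theorem flh_at {i : ℕ} (hi : i < c.nc) {θ : Set X} (hθ : θ ∈ c.Eint i) {x : X} (hx : x ∈ Φ i θ) {v : X}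
    (hv : v ∈ c.V (c.lev i)) (hvθ : v ∈ θ) (hn : ‖c.Q (c.lev i) x - c.Q (c.lev i) v‖ ≤ 6 * c.ε) : x ∈ H i θ v := by
  have hε := h.net.εpos
  have hs := h.net.sε
  rcases hΦ i hi θ hθ x hx with h1 | ⟨w, hw, hwθ, h1⟩
  · have h2 := (fl_ms_Y h hi hθ hA h1).2 v hv hvθ
    linarith
  · by_cases hwv : v = w
    · rw [hwv]
      exact h1
    · have h2 := (fl_half_near h hA hH hi hθ hw hwθ h1).2 v hv hvθ hwv
      linarith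

theorem fl_phi_inter {i j : ℕ} (hi : i < c.nc) (hj : j < c.nc) {θ θ' : Set X} (hθ : θ ∈ c.Eint i) (hθ' : θ' ∈ c.Eint j)
    (hne : i ≠ j ∨ θ ≠ θ') {x : X} (hx : x ∈ Φ i θ) (hx' : x ∈ Φ j θ') :
    i = j ∧ ∃ v ∈ c.Vint i, v ∈ θ ∧ v ∈ θ' ∧ x = cv i v := by
  have hε := h.net.εpos
  have h1 := fl_phi_near h hA hH hΦ hi hθ hx
  have h2 := fl_phi_near h hA hH hΦ hj hθ' hx'
  have hij : i = j := fl_disj h hi hθ hj hθ' h1.1 h2.1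
  subst hij
  have hne' : θ ≠ θ' := hne.resolve_left fun h => h rfl
  obtain ⟨v, hv, hvθ, hvθ', hn⟩ := fl_common h hi hθ hθ' hne' (r := 4 * c.ε) (by linarith) h1 h2
  have hn' : ‖c.Q (c.lev i) x - c.Q (c.lev i) v‖ ≤ 6 * c.ε := by linarith
  have h3 := flh_at h hA hH hΦ hi hθ hx hv.1 hvθ hn'
  have h4 := flh_at h hA hH hΦ hi hθ' hx' hv.1 hvθ' hn'
  exact ⟨rfl, v, hv, hvθ, hvθ', hH.sep i hi θ hθ θ' hθ' hne' v hv hvθ hvθ' x h3 h4⟩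

end Pool.ETM
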