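import Pool.Agent.ETM.FlF
import Pool.Agent.ETM.FlG
import Pool.Agent.ETM.FlH

/-!
ETM, MODULE FlI (difficulty 2): existence of the paths `Φ i θ` (`PathOk`).

RECIPE.  `fl_exists_half`: `cv`, `H`, `t`.  For `i < nc`, `θ ∈ Eint i` let `v, v'` be the two ends of `θ` (`PG.arc` of `(V k, E k)`: `ArcX θ p q`, `θ ∩ V k = {p, q}`); `Φ i θ` := the set of `fl_full` (choice; anything if `i, θ` are not as required).  `path` for the other order of the two ends: `PathG.symm'`.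
The hypothesis `hΦ` of `FlH` holds.  `near`, `om`, `inter`, `inj`, `cvV`: `fl_phi_near`, `fl_phi_om`, `fl_phi_inter`, `fl_cv_inj`, `HalfOk.cvV` and `fl_cv_K`.
`two`: `fl_two_edges` with `a = cw v`, `b = cw v'`: `‖Q a - Q b‖ ≥ s - 12 ε ≥ ε` by `fl_end_near` and `‖Q v - Q v'‖ = s` (`Qseg`).
-/

set_option autoImplicit false

open Set Metric Topology Filter
open Pool.JS

namespace Pool.ETM

variable {X : Type*} [MetricSpace X] [CompactSpace X] [Sph X] {c : Ctx X}

theorem fl_exists_path (h : c.Ok) {V' : Set X} {E' : Set (Set X)} (hA : c.Adm c.L1 V' E') {Pt : ℕ → Set X → X → Set X}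
    {us : ℕ → Set X → X → X} {el : ℕ → Set X → Set X}
    (hl : ∀ i < c.nc, ∀ θ ∈ c.Eint i, c.Loc i θ V' E' (Pt i θ) (us i θ) (el i θ)) :
    ∃ (cv : ℕ → X → X) (Φ : ℕ → Set X → Set X), c.PathOk V' E' us cv Φ := by
  classical
  obtain ⟨cv, H, t, hH⟩ := fl_exists_half h hA hl
  have key : ∀ (i : ℕ) (θ : Set X), i < c.nc → θ ∈ c.Eint i → ∃ (Φ : Set X) (p q : X), p ∈ c.V (c.lev i) ∧
      q ∈ c.V (c.lev i) ∧ p ∈ θ ∧ q ∈ θ ∧ p ≠ q ∧ θ ∩ c.V (c.lev i) = {p, q} ∧
      PathG E' Φ (c.cw us cv i θ p) (c.cw us cv i θ q) ∧ Φ ⊆ H i θ p ∪ c.Y (c.lev i) θ E' ∪ H i θ q := by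
    intro i θ hi hθ
    obtain ⟨p, hp, q, hq, harc, hV⟩ := (h.net.good (c.lev i)).pg.arc θ hθ.1
    obtain ⟨Φ, h1, h2⟩ := fl_full h hi hθ hA hH hp harc.left_mem hq harc.right_mem harc.ne
    exact ⟨Φ, p, q, hp, hq, harc.left_mem, harc.right_mem, harc.ne, hV, h1, h2⟩
  let Φ : ℕ → Set X → Set X := fun i θ => if hh : i < c.nc ∧ θ ∈ c.Eint i then (key i θ hh.1 hh.2).choose else ∅
  have key2 : ∀ (i : ℕ) (θ : Set X), i < c.nc → θ ∈ c.Eint i → ∃ (p q : X), p ∈ c.V (c.lev i) ∧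
      q ∈ c.V (c.lev i) ∧ p ∈ θ ∧ q ∈ θ ∧ p ≠ q ∧ θ ∩ c.V (c.lev i) = {p, q} ∧
      PathG E' (Φ i θ) (c.cw us cv i θ p) (c.cw us cv i θ q) ∧ Φ i θ ⊆ H i θ p ∪ c.Y (c.lev i) θ E' ∪ H i θ q := by
    intro i θ hi hθ
    have h1 : Φ i θ = (key i θ hi hθ).choose := dif_pos ⟨hi, hθ⟩
    rw [h1]
    exact (key i θ hi hθ).choose_spec
  have hΦ : ∀ i < c.nc, ∀ θ ∈ c.Eint i, ∀ x ∈ Φ i θ,
      x ∈ c.Y (c.lev i) θ E' ∨ ∃ v ∈ c.V (c.lev i), v ∈ θ ∧ x ∈ H i θ v := by
    intro i hi θ hθ x hx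
    obtain ⟨p, q, hp, hq, hpθ, hqθ, -, -, -, h2⟩ := key2 i θ hi hθ
    rcases h2 hx with (h3 | h3) | h3
    · exact Or.inr ⟨p, hp, hpθ, h3⟩
    · exact Or.inl h3
    · exact Or.inr ⟨q, hq, hqθ, h3⟩
  refine ⟨cv, Φ, ?_⟩
  exact
    { path := by
        intro i hi θ hθ v hv v' hv' hvθ hvθ' hne
        obtain ⟨p, q, hp, hq, hpθ, hqθ, hpq, hV, h1, -⟩ := key2 i θ hi hθ
        have hv1 : v ∈ ({p, q} : Set X) := by
          rw [← hV]
          exact ⟨hvθ, hv⟩
        have hv2 : v' ∈ ({p, q} : Set X) := by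
          rw [← hV]
          exact ⟨hvθ', hv'⟩
        rcases hv1 with h3 | h3
        · rcases hv2 with h4 | h4
          · exact absurd (h3.trans h4.symm) hne
          · have h4' : v' = q := h4
            rw [h3, h4']
            exact h1
        · have h3' : v = q := h3
          rcases hv2 with h4 | h4
          · rw [h3', h4]
            exact h1.symm'
          · have h4' : v' = q := h4
            exact absurd (h3'.trans h4'.symm) hne
      near := by
        intro i hi θ hθ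
        exact fl_phi_near h hA hH hΦ hi hθ
      two := by
        intro i hi θ hθ
        obtain ⟨p, q, hp, hq, hpθ, hqθ, hpq, hV, h1, -⟩ := key2 i θ hi hθ
        refine fl_two_edges h hi hθ hA h1 (fl_phi_near h hA hH hΦ hi hθ) ?_
        have h2 := fl_end_near h hA hH hi hθ (hl i hi θ hθ) hp hpθ
        have h3 := fl_end_near h hA hH hi hθ (hl i hi θ hθ) hq hqθ
        have h4 := (h.net.Qseg (c.lev i) θ hθ.1 p hp q hq hpq hpθ hqθ).2
        have h5 := h.net.εpos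
        have h6 := h.net.sε
        have h7 : ‖c.Q (c.lev i) p - c.Q (c.lev i) q‖ ≤
            ‖c.Q (c.lev i) (c.cw us cv i θ p) - c.Q (c.lev i) p‖ +
            ‖c.Q (c.lev i) (c.cw us cv i θ p) - c.Q (c.lev i) (c.cw us cv i θ q)‖ +
            ‖c.Q (c.lev i) (c.cw us cv i θ q) - c.Q (c.lev i) q‖ := by
          have e : c.Q (c.lev i) p - c.Q (c.lev i) q =
              -(c.Q (c.lev i) (c.cw us cv i θ p) - c.Q (c.lev i) p) +
              (c.Q (c.lev i) (c.cw us cv i θ p) - c.Q (c.lev i) (c.cw us cv i θ q)) +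
              (c.Q (c.lev i) (c.cw us cv i θ q) - c.Q (c.lev i) q) := by ring
          rw [e]
          refine (norm_add₃_le).trans ?_
          rw [norm_neg]
        linarith
      om := by
        intro i hi θ hθ x hx hK
        exact fl_phi_om h hA hH hΦ hi hθ hx hK
      inter := by
        intro i hi j hj θ hθ θ' hθ' hne x hx hx'
        exact fl_phi_inter h hA hH hΦ hi hj hθ hθ' hne hx hx'
      inj := by
        intro i hi j hj v hv w hw he
        exact fl_cv_inj h hA hH hi hj hv hw he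
      cvV := by
        intro i hi v hv
        exact ⟨(hH.cvV i hi v hv).1, fl_cv_K h hA hH hi hv⟩ }

end Pool.ETM
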