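import Pool.Agent.ETM.FlDefs
import Pool.Agent.ETM.Bridge
import Pool.Agent.JS.SpD
import Pool.Agent.JS.Inv

/-!
ETM, MODULE FlJ (difficulty 3): gluing of maps on the edges of a graph; coordinates of arcs.

RECIPE.  `fl_glue`: `φ x = if h : ∃ e ∈ E, x ∈ e then g (choose h) x else x`.  If `x ∈ e ∩ e'`, `e ≠ e'`, then `x ∈ V` (`hG.inter`) and `g e x = cc x = g e' x`; so `φ = g e` on every `e ∈ E`.  Continuity: `⋃₀ E` is a finite union of closed sets (arcs: `ArcX.isCompact`), e.g. induction on the finite set `E`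
with `ContinuousOn.union_of_isClosed` (or `ContinuousOn.union_continuousOn..`), or `LocallyFinite.continuousOn_iUnion`.  Injectivity: `φ x = φ y`, `x ∈ e`, `y ∈ e'`: if `e = e'` it is `hi`; otherwise `hx` gives `v`, `g e x = cc v = g e v`, so `x = v`, and `g e' y = cc v = g e' v`, so `y = v`.
`exists_coo`: a continuous inverse of the parametrisation `γ : [0, 1] → e` (compactness; `exists_inverse` of JS/Inv).
`coo_ends`: with the parametrisation `γ` of `ArcX e a b`: `π ∘ γ : [0, 1] → [0, 1]` is continuous, injective and onto, so it is strictly monotone or antitone (`ContinuousOn.strictMonoOn_of_injOn_Icc'`), so the value at `0` is `0` or `1` and the value at `1` is the other one.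
`coo_comp`: composition with `f : c → f '' c`.
`coo_pull`: the map `g = ψ⁻¹ ∘ π` (`ψ : p → [0, 1]` has a continuous inverse on `[0, 1]` since `p` is compact), for `π a = 0`; for `π a = 1` use `1 - π`.
-/

set_option autoImplicit false

open Set Metric Topology Filter
open Pool.JS

namespace Pool.ETM

variable {X : Type*} [TopologicalSpace X] [T2Space X] {V : Set X} {E : Set (Set X)} {e p : Set X} {a b a' b' : X}

theorem fl_glue (hG : PG V E) {g : Set X → X → X} {cc : X → X} (hc : ∀ e ∈ E, ContinuousOn (g e) e)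
    (hi : ∀ e ∈ E, InjOn (g e) e) (hv : ∀ e ∈ E, ∀ v ∈ V, v ∈ e → g e v = cc v)
    (hx : ∀ e ∈ E, ∀ e' ∈ E, e ≠ e' → ∀ x ∈ e, ∀ y ∈ e', g e x = g e' y → ∃ v ∈ V, v ∈ e ∧ v ∈ e' ∧ g e x = cc v) :
    ∃ φ : X → X, ContinuousOn φ (⋃₀ E) ∧ InjOn φ (⋃₀ E) ∧ ∀ e ∈ E, ∀ x ∈ e, φ x = g e x := by
  classical
  let φ : X → X := fun x => if h : ∃ e ∈ E, x ∈ e then g h.choose x else x
  have key : ∀ e ∈ E, ∀ x ∈ e, φ x = g e x := by
    intro e he x hxe
    have h : ∃ e ∈ E, x ∈ e := ⟨e, he, hxe⟩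
    have h1 : φ x = g h.choose x := dif_pos h
    obtain ⟨h2, h3⟩ := h.choose_spec
    rw [h1]
    by_cases h4 : h.choose = e
    · rw [h4]
    · have h5 : x ∈ V := hG.inter _ h2 _ he h4 ⟨h3, hxe⟩
      rw [hv _ h2 x h5 h3, hv e he x h5 hxe]
  refine ⟨φ, ?_, ?_, key⟩
  · have hE : Finite E := hG.finE.to_subtype
    rw [sUnion_eq_iUnion]
    refine (locallyFinite_of_finite (fun e : E => (e : Set X))).continuousOn_iUnion ?_ ?_
    · rintro ⟨e, he⟩
      obtain ⟨p, -, q, -, harc, -⟩ := hG.arc e he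
      exact harc.isCompact.isClosed
    · rintro ⟨e, he⟩
      exact (hc e he).congr (key e he)
  · rintro x ⟨e, he, hxe⟩ y ⟨e', he', hye⟩ h
    rw [key e he x hxe, key e' he' y hye] at h
    by_cases hee : e = e'
    · subst hee
      exact hi e he hxe hye h
    · obtain ⟨v, hvV, hve, hve', h1⟩ := hx e he e' he' hee x hxe y hye h
      have h2 : x = v := hi e he hxe hve (by rw [h1, hv e he v hvV hve])
      have h3 : y = v := hi e' he' hye hve' (by rw [← h, h1, hv e' he' v hvV hve'])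
      rw [h2, h3]

theorem exists_coo (he : ArcX e a b) : ∃ π : X → ℝ, Coo π e := by
  obtain ⟨γ, h1, h2, h3, -, -⟩ := he
  obtain ⟨τ, h4, h5⟩ := exists_inverse isCompact_Icc h1 h2
  rw [h3] at h4
  refine ⟨τ, h4, ?_, ?_⟩
  · rw [← h3]
    rintro _ ⟨t, ht, rfl⟩ _ ⟨t', ht', rfl⟩ h
    rw [h5 t ht, h5 t' ht'] at h
    rw [h]
  · rw [← h3]
    ext t
    constructor
    · rintro ⟨_, ⟨t', ht', rfl⟩, rfl⟩
      rw [h5 t' ht']
      exact ht'
    · intro ht
      exact ⟨γ t, ⟨t, ht, rfl⟩, h5 t ht⟩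

theorem coo_ends (he : ArcX e a b) {π : X → ℝ} (hπ : Coo π e) : (π a = 0 ∧ π b = 1) ∨ (π a = 1 ∧ π b = 0) := by
  obtain ⟨γ, h1, h2, h3, h4, h5⟩ := he
  have hm : MapsTo γ (Icc 0 1) e := by
    rw [← h3]
    exact mapsTo_image _ _
  have hc : ContinuousOn (fun t => π (γ t)) (Icc (0 : ℝ) 1) := hπ.cont.comp h1 hm
  have hi : InjOn (fun t => π (γ t)) (Icc (0 : ℝ) 1) := hπ.inj.comp h2 hm
  have hI : ∀ t ∈ Icc (0 : ℝ) 1, π (γ t) ∈ Icc (0 : ℝ) 1 := by
    intro t ht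
    rw [← hπ.img]
    exact ⟨γ t, hm ht, rfl⟩
  have hs : ∀ y ∈ Icc (0 : ℝ) 1, ∃ t ∈ Icc (0 : ℝ) 1, π (γ t) = y := by
    intro y hy
    rw [← hπ.img, ← h3] at hy
    obtain ⟨_, ⟨t, ht, rfl⟩, h⟩ := hy
    exact ⟨t, ht, h⟩
  have h0 : (0 : ℝ) ∈ Icc (0 : ℝ) 1 := ⟨le_rfl, zero_le_one⟩
  have h1' : (1 : ℝ) ∈ Icc (0 : ℝ) 1 := ⟨zero_le_one, le_rfl⟩
  obtain ⟨t, ht, ht0⟩ := hs 0 h0
  obtain ⟨u, hu, hu1⟩ := hs 1 h1'
  have ha := hI 0 h0
  have hb := hI 1 h1'
  rw [h4] at ha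
  rw [h5] at hb
  rcases hc.strictMonoOn_of_injOn_Icc' zero_le_one hi with hmono | hanti
  · left
    have h6 : π (γ 0) ≤ π (γ t) := hmono.monotoneOn h0 ht ht.1
    have h7 : π (γ u) ≤ π (γ 1) := hmono.monotoneOn hu h1' hu.2
    rw [h4, ht0] at h6
    rw [h5, hu1] at h7
    exact ⟨le_antisymm h6 ha.1, le_antisymm hb.2 h7⟩
  · right
    have h6 : π (γ u) ≤ π (γ 0) := hanti.antitoneOn h0 hu hu.1
    have h7 : π (γ 1) ≤ π (γ t) := hanti.antitoneOn ht h1' ht.2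
    rw [h4, hu1] at h6
    rw [h5, ht0] at h7
    exact ⟨le_antisymm ha.2 h6, le_antisymm h7 hb.1⟩

theorem coo_comp {f : X → X} {C : Set X} (hf : ContinuousOn f C) (hi : InjOn f C) {π : X → ℝ} (hπ : Coo π (f '' C)) :
    Coo (fun x => π (f x)) C := by
  refine ⟨hπ.cont.comp hf (mapsTo_image _ _), ?_, ?_⟩
  · intro x hx y hy h
    exact hi hx hy (hπ.inj ⟨x, hx, rfl⟩ ⟨y, hy, rfl⟩ h)
  · rw [← hπ.img, image_image]

/-- transport of an arc to an arc with given coordinates -/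
theorem coo_pull (he : ArcX e a b) {π : X → ℝ} (hπ : Coo π e) (hp : ArcX p a' b') {ψ : X → ℝ} (hψ : Coo ψ p)
    (h0 : ψ a' = 0) (h1 : ψ b' = 1) : ∃ g : X → X, ContinuousOn g e ∧ InjOn g e ∧ g '' e = p ∧ g a = a' ∧ g b = b' ∧
      ∀ x ∈ e, ∀ y ∈ e, |ψ (g x) - ψ (g y)| = |π x - π y| := by
  -- the orientation
  obtain ⟨ρ, hρ, hρa, hρb, hρd⟩ : ∃ ρ : X → ℝ, Coo ρ e ∧ ρ a = 0 ∧ ρ b = 1 ∧ ∀ x y, |ρ x - ρ y| = |π x - π y| := by
    rcases coo_ends he hπ with ⟨h2, h3⟩ | ⟨h2, h3⟩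
    · exact ⟨π, hπ, h2, h3, fun x y => rfl⟩
    · refine ⟨fun x => 1 - π x, ⟨continuousOn_const.sub hπ.cont, ?_, ?_⟩, ?_, ?_, ?_⟩
      · intro x hx y hy h
        have h4 : 1 - π x = 1 - π y := h
        exact hπ.inj hx hy (by linarith)
      · ext t
        constructor
        · rintro ⟨x, hx, rfl⟩
          have h4 : π x ∈ Icc (0 : ℝ) 1 := by
            rw [← hπ.img]
            exact ⟨x, hx, rfl⟩
          exact ⟨by linarith [h4.2], by linarith [h4.1]⟩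
        · intro ht
          have h4 : 1 - t ∈ π '' e := by
            rw [hπ.img]
            exact ⟨by linarith [ht.2], by linarith [ht.1]⟩
          obtain ⟨x, hx, h5⟩ := h4
          exact ⟨x, hx, by change 1 - π x = t; linarith⟩
      · change 1 - π a = 0
        linarith
      · change 1 - π b = 1
        linarith
      · intro x y
        change |1 - π x - (1 - π y)| = |π x - π y|
        rw [abs_sub_comm (π x)]
        congr 1
        ring
  have : Nonempty X := ⟨a⟩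
  obtain ⟨σ, hσ1, hσ2⟩ := exists_inverse hp.isCompact hψ.cont hψ.inj
  rw [hψ.img] at hσ1
  have hσ3 : ∀ t ∈ Icc (0 : ℝ) 1, σ t ∈ p ∧ ψ (σ t) = t := by
    intro t ht
    rw [← hψ.img] at ht
    obtain ⟨x, hx, rfl⟩ := ht
    rw [hσ2 x hx]
    exact ⟨hx, rfl⟩
  have hm : MapsTo ρ e (Icc 0 1) := by
    rw [← hρ.img]
    exact mapsTo_image _ _
  refine ⟨fun x => σ (ρ x), hσ1.comp hρ.cont hm, ?_, ?_, ?_, ?_, ?_⟩
  · intro x hx y hy h
    have h2 : σ (ρ x) = σ (ρ y) := h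
    apply hρ.inj hx hy
    rw [← (hσ3 _ (hm hx)).2, ← (hσ3 _ (hm hy)).2, h2]
  · ext z
    constructor
    · rintro ⟨x, hx, rfl⟩
      exact (hσ3 _ (hm hx)).1
    · intro hz
      have h2 : ψ z ∈ ρ '' e := by
        rw [hρ.img, ← hψ.img]
        exact ⟨z, hz, rfl⟩
      obtain ⟨x, hx, h3⟩ := h2
      refine ⟨x, hx, ?_⟩
      change σ (ρ x) = z
      rw [h3, hσ2 z hz]
  · change σ (ρ a) = a'
    rw [hρa, ← h0, hσ2 a' hp.left_mem]
  · change σ (ρ b) = b'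
    rw [hρb, ← h1, hσ2 b' hp.right_mem]
  · intro x hx y hy
    change |ψ (σ (ρ x)) - ψ (σ (ρ y))| = |π x - π y|
    rw [(hσ3 _ (hm hx)).2, (hσ3 _ (hm hy)).2, hρd]

end Pool.ETM
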