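import Pool.Agent.ETM.FlJ

/-!
ETM, MODULE FlK (difficulty 4): a coordinate of a path of the graph which is linear in the coordinates of its edges.

RECIPE.  Strong induction on `n = {e | e ∈ E ∧ e ⊆ p}.ncard` (for all `p a b`).  Let `D = {e | e ∈ E ∧ e ⊆ p}` (finite); `p = ⋃₀ D` (`PathG`: `p = ⋃₀ E'`, `E' ⊆ E`, so `E' ⊆ D`), and `D` is nonempty (`a ∈ p`).
Case 1: `V ∩ p ⊆ {a, b}`.  Let `e ∈ D` with `a ∈ e` (`a ∈ p = ⋃₀ D`).  The ends of `e` are in `V ∩ p`, so they are `a` and `b`; `e ⊆ p` is a closed connected subset of the arc `p` containing both ends, so `e = p` (the preimage in `[0, 1]` is preconnected and contains `0` and `1`; use a continuous inverse of the parametrisation, e.g.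
`exists_coo`, `coo_ends` for `p`: the image of `e` under the coordinate of `p` is connected and contains `0` and `1`, so it is `[0, 1]`).  So `D = {e}` (`PG.mem_of_sub`), `n = 1`; `ψ = ρ e` or `1 - ρ e` (`coo_ends`).
Case 2: `c ∈ V ∩ p`, `c ≠ a`, `c ≠ b`.  `PG.cut`: `p₁`, `p₂`, `p₁ ∪ p₂ = p`, `p₁ ∩ p₂ = {c}`.  Every `e ∈ D` is contained in `p₁` or in `p₂` (take a point `x ∈ e \ V`; `PG.mem_of_point` with the edge sets of `p₁`, `p₂`), not in both (`e` has at least two points), and both have an edge: `n = n₁ + n₂`, `n₁, n₂ ≥ 1`.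
Induction: `ψ₁` on `p₁` (`ψ₁ a = 0`, `ψ₁ c = 1`), `ψ₂` on `p₂` (`ψ₂ c = 0`, `ψ₂ b = 1`).  `ψ x = if x ∈ p₁ then n₁ / n * ψ₁ x else (n₁ + n₂ * ψ₂ x) / n`; on `p₂` it is `(n₁ + n₂ * ψ₂ x) / n` (at `c` both are `n₁ / n`).  Continuous on the union of two closed sets; values `≤ n₁ / n` on `p₁` and `≥ n₁ / n` on `p₂`, with equality only at `c`
(injectivity of `ψ₁`, `ψ₂`): injective; image `[0, n₁ / n] ∪ [n₁ / n, 1]`.  For `e ⊆ p₁`: `|ρ e x - ρ e y| = n₁ * |ψ₁ x - ψ₁ y| = n * |ψ x - ψ y|`; same for `p₂`.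
`fl_edge`: `fl_coord` and `coo_pull`.
-/

set_option autoImplicit false

open Set Metric Topology Filter
open Pool.JS

namespace Pool.ETM

variable {X : Type*} [TopologicalSpace X] [T2Space X] {V : Set X} {E : Set (Set X)} {e p : Set X} {a b a' b' : X}

theorem flk_mid (hG : PG V E) (he : e ∈ E) : ∃ x ∈ e, x ∉ V := by
  obtain ⟨u, hu, v, hv, harc, hV⟩ := hG.arc e he
  obtain ⟨m, hm, h1, h2⟩ := harc.exists_mid
  refine ⟨m, hm, fun h3 => ?_⟩
  have h4 : m ∈ e ∩ V := ⟨hm, h3⟩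
  rw [hV] at h4
  rcases h4 with h4 | h4
  · exact h1 h4
  · exact h2 h4

omit [T2Space X] in
theorem flk_sub {E' : Set (Set X)} (hE' : E' ⊆ E) (hp : p = ⋃₀ E') : p = ⋃₀ {e | e ∈ E ∧ e ⊆ p} := by
  apply Subset.antisymm
  · intro x hx
    have hx' := hx
    rw [hp] at hx'
    obtain ⟨e, he, hxe⟩ := hx'
    exact ⟨e, ⟨hE' he, by rw [hp]; exact subset_sUnion_of_mem he⟩, hxe⟩
  · rintro x ⟨e, ⟨-, he⟩, hxe⟩
    exact he hxe

theorem flk_full (hp : ArcX p a b) (hc : IsPreconnected e) (hs : e ⊆ p) (ha : a ∈ e) (hb : b ∈ e) : e = p := by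
  obtain ⟨ψ, hψ⟩ := exists_coo hp
  refine Subset.antisymm hs fun x hx => ?_
  have h1 : IsPreconnected (ψ '' e) := hc.image ψ (hψ.cont.mono hs)
  have h2 : (0 : ℝ) ∈ ψ '' e ∧ (1 : ℝ) ∈ ψ '' e := by
    rcases coo_ends hp hψ with ⟨h3, h4⟩ | ⟨h3, h4⟩
    · exact ⟨⟨a, ha, h3⟩, ⟨b, hb, h4⟩⟩
    · exact ⟨⟨b, hb, h4⟩, ⟨a, ha, h3⟩⟩
  have h3 : Icc (0 : ℝ) 1 ⊆ ψ '' e := h1.Icc_subset h2.1 h2.2
  have h4 : ψ x ∈ Icc (0 : ℝ) 1 := by rw [← hψ.img]; exact mem_image_of_mem ψ hx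
  obtain ⟨y, hy, hyx⟩ := h3 h4
  rw [← hψ.inj (hs hy) hx hyx]
  exact hy

theorem flk_main (hG : PG V E) {ρ : Set X → X → ℝ} (hρ : ∀ e ∈ E, Coo (ρ e) e) (n : ℕ) :
    ∀ (p : Set X) (a b : X), PathG E p a b → {e | e ∈ E ∧ e ⊆ p}.ncard = n →
      ∃ ψ : X → ℝ, Coo ψ p ∧ ψ a = 0 ∧ ψ b = 1 ∧ ∀ e ∈ E, e ⊆ p → ∀ x ∈ e, ∀ y ∈ e,
        |ρ e x - ρ e y| = n * |ψ x - ψ y| := by
  induction n using Nat.strong_induction_on with
  | _ n ih =>
  intro p a b hp hn
  obtain ⟨harc, E₀, hE₀, hpE₀⟩ := hp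
  have hfin : ∀ q : Set X, {e | e ∈ E ∧ e ⊆ q}.Finite := fun q => hG.finE.subset fun e he => he.1
  by_cases hcase : ∀ c ∈ V, c ∈ p → c = a ∨ c = b
  · have hap : a ∈ p := harc.left_mem
    rw [hpE₀] at hap
    obtain ⟨e, he0, hae⟩ := hap
    have he : e ∈ E := hE₀ he0
    have hep : e ⊆ p := by rw [hpE₀]; exact subset_sUnion_of_mem he0
    obtain ⟨u, hu, v, hv, harce, heV⟩ := hG.arc e he
    have huv : u ≠ v := harce.ne
    have hends : (u = a ∧ v = b) ∨ (u = b ∧ v = a) := by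
      rcases hcase u hu (hep harce.left_mem) with h1 | h1 <;> rcases hcase v hv (hep harce.right_mem) with h2 | h2
      · exact absurd (h1.trans h2.symm) huv
      · exact Or.inl ⟨h1, h2⟩
      · exact Or.inr ⟨h1, h2⟩
      · exact absurd (h1.trans h2.symm) huv
    have hbe : b ∈ e := by
      rcases hends with ⟨-, h2⟩ | ⟨h1, -⟩
      · rw [← h2]; exact harce.right_mem
      · rw [← h1]; exact harce.left_mem
    have hepe : e = p := flk_full harc harce.isConnected.isPreconnected hep hae hbe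
    have hD : {e' | e' ∈ E ∧ e' ⊆ p} = {e} := by
      apply Subset.antisymm
      · rintro e' ⟨he', hs⟩
        rw [← hepe] at hs
        exact hG.mem_of_sub he' (singleton_subset_iff.2 he) (by rw [sUnion_singleton]; exact hs)
      · rintro e' rfl
        exact ⟨he, hep⟩
    have hn1 : n = 1 := by rw [← hn, hD, ncard_singleton]
    have huniq : ∀ e' ∈ E, e' ⊆ p → e' = e := fun e' he' hs => by
      have : e' ∈ {e' | e' ∈ E ∧ e' ⊆ p} := ⟨he', hs⟩
      rw [hD] at this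
      exact this
    rw [hn1, Nat.cast_one]
    have hc := hρ e he
    have harc' : ArcX e a b := by rw [hepe]; exact harc
    rcases coo_ends harc' hc with ⟨h1, h2⟩ | ⟨h1, h2⟩
    · refine ⟨ρ e, by rw [← hepe]; exact hc, h1, h2, ?_⟩
      intro e' he' hs x hx y hy
      rw [huniq e' he' hs, one_mul]
    · refine ⟨fun x => 1 - ρ e x, ⟨?_, ?_, ?_⟩, by simp [h1], by simp [h2], ?_⟩
      · rw [← hepe]
        exact continuousOn_const.sub hc.cont
      · rw [← hepe]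
        intro x hx y hy hxy
        exact hc.inj hx hy (sub_right_injective hxy)
      · rw [← hepe]
        ext t
        constructor
        · rintro ⟨x, hx, rfl⟩
          have h3 : ρ e x ∈ Icc (0 : ℝ) 1 := by rw [← hc.img]; exact mem_image_of_mem _ hx
          exact ⟨by linarith [h3.2], by linarith [h3.1]⟩
        · intro ht
          have h3 : 1 - t ∈ Icc (0 : ℝ) 1 := ⟨by linarith [ht.2], by linarith [ht.1]⟩
          rw [← hc.img] at h3
          obtain ⟨x, hx, hxt⟩ := h3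
          exact ⟨x, hx, by simp only; rw [hxt]; ring⟩
      · intro e' he' hs x hx y hy
        rw [huniq e' he' hs, one_mul]
        rw [show (1 - ρ e x) - (1 - ρ e y) = -(ρ e x - ρ e y) by ring, abs_neg]
  · push Not at hcase
    obtain ⟨c, hcV, hcp, hca, hcb⟩ := hcase
    obtain ⟨p₁, p₂, hp₁, hp₂, hun, hin⟩ := hG.cut ⟨harc, E₀, hE₀, hpE₀⟩ hcV hcp hca hcb
    have hp₁' := hp₁
    have hp₂' := hp₂
    obtain ⟨harc₁, E₁, hE₁, hpE₁⟩ := hp₁
    obtain ⟨harc₂, E₂, hE₂, hpE₂⟩ := hp₂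
    have hs1 : p₁ ⊆ p := by rw [← hun]; exact subset_union_left
    have hs2 : p₂ ⊆ p := by rw [← hun]; exact subset_union_right
    have hcc : c ∈ p₁ ∧ c ∈ p₂ := by
      have : c ∈ p₁ ∩ p₂ := by rw [hin]; exact mem_singleton c
      exact this
    have hdich : ∀ e ∈ E, e ⊆ p → e ⊆ p₁ ∨ e ⊆ p₂ := by
      intro e he hs
      obtain ⟨x, hx, hxV⟩ := flk_mid hG he
      have h1 := hs hx
      rw [← hun] at h1
      rcases h1 with h1 | h1
      · rw [hpE₁] at h1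
        have h2 := hG.mem_of_point he hE₁ hx hxV h1
        left
        rw [hpE₁]
        exact subset_sUnion_of_mem h2
      · rw [hpE₂] at h1
        have h2 := hG.mem_of_point he hE₂ hx hxV h1
        right
        rw [hpE₂]
        exact subset_sUnion_of_mem h2
    have hDun : {e | e ∈ E ∧ e ⊆ p} = {e | e ∈ E ∧ e ⊆ p₁} ∪ {e | e ∈ E ∧ e ⊆ p₂} := by
      ext e
      constructor
      · rintro ⟨he, hs⟩
        rcases hdich e he hs with h1 | h1
        · exact Or.inl ⟨he, h1⟩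
        · exact Or.inr ⟨he, h1⟩
      · rintro (⟨he, h1⟩ | ⟨he, h1⟩)
        · exact ⟨he, h1.trans hs1⟩
        · exact ⟨he, h1.trans hs2⟩
    have hDdis : Disjoint {e | e ∈ E ∧ e ⊆ p₁} {e | e ∈ E ∧ e ⊆ p₂} := by
      rw [Set.disjoint_left]
      rintro e ⟨he, h1⟩ ⟨-, h2⟩
      obtain ⟨x, hx, hxV⟩ := flk_mid hG he
      have h3 : x ∈ p₁ ∩ p₂ := ⟨h1 hx, h2 hx⟩
      rw [hin] at h3
      exact hxV (h3 ▸ hcV)
    set n₁ := {e | e ∈ E ∧ e ⊆ p₁}.ncard with hn₁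
    set n₂ := {e | e ∈ E ∧ e ⊆ p₂}.ncard with hn₂
    have hnn : n = n₁ + n₂ := by
      rw [← hn, hDun, ncard_union_eq hDdis (hfin p₁) (hfin p₂)]
    have h1pos : 0 < n₁ := by
      rw [hn₁, ncard_pos (hfin p₁)]
      have h1 := harc₁.left_mem
      rw [hpE₁] at h1
      obtain ⟨e, he, -⟩ := h1
      exact ⟨e, hE₁ he, by rw [hpE₁]; exact subset_sUnion_of_mem he⟩
    have h2pos : 0 < n₂ := by
      rw [hn₂, ncard_pos (hfin p₂)]
      have h1 := harc₂.left_mem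
      rw [hpE₂] at h1
      obtain ⟨e, he, -⟩ := h1
      exact ⟨e, hE₂ he, by rw [hpE₂]; exact subset_sUnion_of_mem he⟩
    obtain ⟨ψ₁, hψ₁, h1a, h1c, h1e⟩ := ih n₁ (by omega) p₁ a c hp₁' rfl
    obtain ⟨ψ₂, hψ₂, h2c, h2b, h2e⟩ := ih n₂ (by omega) p₂ c b hp₂' rfl
    have hN1 : (0 : ℝ) < n₁ := by exact_mod_cast h1pos
    have hN2 : (0 : ℝ) < n₂ := by exact_mod_cast h2pos
    have hN : (n : ℝ) = n₁ + n₂ := by rw [hnn]; push_cast; ring
    have hNp : (0 : ℝ) < n := by rw [hN]; linarith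
    classical
    set ψ : X → ℝ := fun x => if x ∈ p₁ then n₁ / n * ψ₁ x else (n₁ + n₂ * ψ₂ x) / n with hψ
    have e1 : ∀ x ∈ p₁, ψ x = n₁ / n * ψ₁ x := fun x hx => if_pos hx
    have e2 : ∀ x ∈ p₂, ψ x = (n₁ + n₂ * ψ₂ x) / n := by
      intro x hx
      by_cases h1 : x ∈ p₁
      · have h3 : x ∈ p₁ ∩ p₂ := ⟨h1, hx⟩
        rw [hin] at h3
        rw [e1 x h1, mem_singleton_iff.1 h3, h1c, h2c]
        ring
      · exact if_neg h1
    have b1 : ∀ x ∈ p₁, 0 ≤ ψ₁ x ∧ ψ₁ x ≤ 1 := fun x hx => by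
      have : ψ₁ x ∈ Icc (0 : ℝ) 1 := by rw [← hψ₁.img]; exact mem_image_of_mem _ hx
      exact this
    have b2 : ∀ x ∈ p₂, 0 ≤ ψ₂ x ∧ ψ₂ x ≤ 1 := fun x hx => by
      have : ψ₂ x ∈ Icc (0 : ℝ) 1 := by rw [← hψ₂.img]; exact mem_image_of_mem _ hx
      exact this
    have hmix : ∀ x ∈ p₁, ∀ y ∈ p₂, ψ x = ψ y → x = y := by
      intro x hx y hy h
      rw [e1 x hx, e2 y hy, div_mul_eq_mul_div, div_left_inj' hNp.ne'] at h
      have h1 := b1 x hx
      have h2 := b2 y hy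
      have h3 : ψ₁ x = 1 := by nlinarith
      have h4 : ψ₂ y = 0 := by nlinarith
      have h5 : x = c := hψ₁.inj hx hcc.1 (by rw [h3, h1c])
      have h6 : y = c := hψ₂.inj hy hcc.2 (by rw [h4, h2c])
      rw [h5, h6]
    refine ⟨ψ, ⟨?_, ?_, ?_⟩, ?_, ?_, ?_⟩
    · rw [← hun]
      have c1 : ContinuousOn ψ p₁ := ContinuousOn.congr (continuousOn_const.mul hψ₁.cont) e1
      have c2 : ContinuousOn ψ p₂ :=
        ContinuousOn.congr ((continuousOn_const.add (continuousOn_const.mul hψ₂.cont)).div_const _) e2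
      exact c1.union_of_isClosed c2 harc₁.isCompact.isClosed harc₂.isCompact.isClosed
    · intro x hx y hy h
      rw [← hun] at hx hy
      rcases hx with hx | hx <;> rcases hy with hy | hy
      · rw [e1 x hx, e1 y hy] at h
        exact hψ₁.inj hx hy (mul_left_cancel₀ (div_pos hN1 hNp).ne' h)
      · exact hmix x hx y hy h
      · exact (hmix y hy x hx h.symm).symm
      · rw [e2 x hx, e2 y hy, div_left_inj' hNp.ne'] at h
        exact hψ₂.inj hx hy (mul_left_cancel₀ hN2.ne' (add_left_cancel h))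
    · apply Subset.antisymm
      · rintro t ⟨x, hx, rfl⟩
        rw [← hun] at hx
        rcases hx with hx | hx
        · rw [e1 x hx]
          have h1 := b1 x hx
          refine ⟨mul_nonneg (div_pos hN1 hNp).le h1.1, ?_⟩
          rw [div_mul_eq_mul_div, div_le_one hNp]
          nlinarith
        · rw [e2 x hx]
          have h1 := b2 x hx
          refine ⟨div_nonneg (by nlinarith) hNp.le, ?_⟩
          rw [div_le_one hNp]
          nlinarith
      · rintro t ⟨ht0, ht1⟩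
        rcases le_total (n * t) n₁ with h1 | h1
        · have h2 : n * t / n₁ ∈ Icc (0 : ℝ) 1 :=
            ⟨div_nonneg (mul_nonneg hNp.le ht0) hN1.le, (div_le_one hN1).2 h1⟩
          rw [← hψ₁.img] at h2
          obtain ⟨x, hx, hxt⟩ := h2
          refine ⟨x, hs1 hx, ?_⟩
          rw [e1 x hx, hxt]
          field_simp
        · have h2 : (n * t - n₁) / n₂ ∈ Icc (0 : ℝ) 1 := by
            refine ⟨div_nonneg (by linarith) hN2.le, (div_le_one hN2).2 ?_⟩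
            nlinarith
          rw [← hψ₂.img] at h2
          obtain ⟨x, hx, hxt⟩ := h2
          refine ⟨x, hs2 hx, ?_⟩
          rw [e2 x hx, hxt]
          field_simp
          ring
    · rw [e1 a harc₁.left_mem, h1a, mul_zero]
    · rw [e2 b harc₂.right_mem, h2b, mul_one, ← hN, div_self hNp.ne']
    · intro e he hs x hx y hy
      rcases hdich e he hs with h1 | h1
      · rw [h1e e he h1 x hx y hy, e1 x (h1 hx), e1 y (h1 hy), ← mul_sub, abs_mul, abs_of_pos (div_pos hN1 hNp)]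
        field_simp
      · rw [h2e e he h1 x hx y hy, e2 x (h1 hx), e2 y (h1 hy), ← sub_div,
          show (n₁ : ℝ) + n₂ * ψ₂ x - (n₁ + n₂ * ψ₂ y) = n₂ * (ψ₂ x - ψ₂ y) by ring, abs_div, abs_mul, abs_of_pos hN2,
          abs_of_pos hNp]
        field_simp

theorem fl_coord (hG : PG V E) {ρ : Set X → X → ℝ} (hρ : ∀ e ∈ E, Coo (ρ e) e) (hp : PathG E p a b) :
    ∃ ψ : X → ℝ, Coo ψ p ∧ ψ a = 0 ∧ ψ b = 1 ∧ ∀ e ∈ E, e ⊆ p → ∀ x ∈ e, ∀ y ∈ e,
      |ρ e x - ρ e y| = {e | e ∈ E ∧ e ⊆ p}.ncard * |ψ x - ψ y| :=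
  flk_main hG hρ _ p a b hp rfl

theorem fl_edge (hG : PG V E) {ρ : Set X → X → ℝ} (hρ : ∀ e ∈ E, Coo (ρ e) e) (hp : PathG E p a' b')
    (he : ArcX e a b) {π : X → ℝ} (hπ : Coo π e) :
    ∃ g : X → X, ContinuousOn g e ∧ InjOn g e ∧ g '' e = p ∧ g a = a' ∧ g b = b' ∧ ∀ e₁ ∈ E, e₁ ⊆ p →
      ∀ x ∈ e, ∀ y ∈ e, g x ∈ e₁ → g y ∈ e₁ →
        |ρ e₁ (g x) - ρ e₁ (g y)| = {e | e ∈ E ∧ e ⊆ p}.ncard * |π x - π y| := by
  obtain ⟨ψ, hψ, h0, h1, h2⟩ := fl_coord hG hρ hp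
  obtain ⟨g, g1, g2, g3, g4, g5, g6⟩ := coo_pull he hπ hp.1 hψ h0 h1
  refine ⟨g, g1, g2, g3, g4, g5, ?_⟩
  intro e₁ he₁ hs x hx y hy hgx hgy
  rw [h2 e₁ he₁ hs _ hgx _ hgy, g6 x hx y hy]

end Pool.ETM
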