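import Pool.Agent.ETM.FlC
import Pool.Agent.ETM.FlJ

/-!
ETM, MODULE FlL (difficulty 3): rigid and flexible edges of the fixed graph; their coordinates.

RECIPE.  `E' = pullE c.f E`, `V' = c.f ⁻¹' V`, `hF.adm1 : c.Adm c.L1 V' E'`, `hF.spl.loc`: `c.Loc i θ V' E' (Pt i θ) (us i θ) (el i θ)`, `hF.spl.hE : E = c.spE E' el`.
`fl_el_mem`: `hE`.  `fl_el_arc`: `Loc.arc` with the two ends of `θ` (`PG.arc` of the network graph).  `fl_el_inj`: otherwise by `el_inter` every point of `el i θ` would be in the finite set `V (lev i)`; an arc is infinite (`[0, 1]` is infinite, `γ` injective).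
`fl_el_rig`: `K E' ⊆ Om E'` (`K = MS E' So`: `frontier U ⊆ closure U`, `U ∈ Us E'`), so `el i θ ⊆ K` would give `el i θ = el i θ ∩ Om ⊆ {us i θ v | v ∈ θ ∩ V k}` (`Loc.om`), a finite set: contradiction.
`fl_rig_img`: `Dyn.edge_image h.dyn hF.adm.good.pg hF.adm.avoid` for `e ∈ pullE c.f E`.
`fl_pi`: choose `π₀ e` with `Coo (π₀ e) e` for every `e ∈ E` (`exists_coo`).  For `e ∈ E` there is `t` with `c.f^[t] '' e ∉ Rig E` (`fix_edges` and `fl_el_rig`); `τ e` = the least one (`Nat.find`; `0` if there is none).  By induction on `j ≤ τ e`: `c.f^[j] '' e ∈ E` and `InjOn c.f^[j] e` (`fl_rig_img`).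
`π e x = π₀ (c.f^[τ e] '' e) (c.f^[τ e] x)`.  `Coo` by `coo_comp`.  For `e ∈ Rig E`: `τ e = τ (c.f '' e) + 1`, so `π e x = π (c.f '' e) (c.f x)` (`Function.iterate_succ`, `image_comp`).
-/

set_option autoImplicit false

open Set Metric Topology Filter
open Pool.JS

namespace Pool.ETM

variable {X : Type*} [MetricSpace X] [CompactSpace X] [Sph X] {c : Ctx X} (h : c.Ok) {Pt : ℕ → Set X → X → Set X}
  {us : ℕ → Set X → X → X} {el : ℕ → Set X → Set X} {V : Set X} {E : Set (Set X)} (hF : c.Fix Pt us el V E)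

/-- an arc is infinite -/
theorem fll_infinite {e : Set X} {a b : X} (he : ArcX e a b) : e.Infinite := by
  obtain ⟨γ, -, hinj, him, -, -⟩ := he
  rw [← him]
  exact (Icc_infinite (zero_lt_one' ℝ)).image hinj

theorem fll_ne {e : Set X} {a b : X} (he : ArcX e a b) : a ≠ b := by
  obtain ⟨γ, -, hinj, -, rfl, rfl⟩ := he
  intro h
  have := hinj (left_mem_Icc.2 zero_le_one) (right_mem_Icc.2 zero_le_one) h
  exact zero_ne_one this

include h hF

theorem fl_el_mem {i : ℕ} (hi : i < c.nc) {θ : Set X} (hθ : θ ∈ c.Eint i) : el i θ ∈ E := by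
  have hE := hF.spl.hE
  rw [hE]
  exact Or.inr ⟨i, hi, θ, hθ, rfl⟩

theorem fll_el_infinite {i : ℕ} (hi : i < c.nc) {θ : Set X} (hθ : θ ∈ c.Eint i) : (el i θ).Infinite := by
  obtain ⟨p, hp, q, hq, harc, hpq⟩ := (h.net.good (c.lev i)).pg.arc θ hθ.1
  have h1 : p ∈ θ := by
    have : p ∈ θ ∩ c.V (c.lev i) := by rw [hpq]; exact mem_insert _ _
    exact this.1
  have h2 : q ∈ θ := by
    have : q ∈ θ ∩ c.V (c.lev i) := by rw [hpq]; exact mem_insert_of_mem _ rfl
    exact this.1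
  exact fll_infinite ((hF.spl.loc i hi θ hθ).arc p hp q hq h1 h2 (fll_ne harc))

theorem fl_el_inj {i j : ℕ} (hi : i < c.nc) (hj : j < c.nc) {θ θ' : Set X} (hθ : θ ∈ c.Eint i) (hθ' : θ' ∈ c.Eint j)
    (he : el i θ = el j θ') : i = j ∧ θ = θ' := by
  by_contra hne
  have hne' : i ≠ j ∨ θ ≠ θ' := by
    by_contra hc
    push Not at hc
    exact hne hc
  apply fll_el_infinite h hF hi hθ
  apply (h.net.good (c.lev i)).pg.finV.subset
  intro x hx
  have hx' : x ∈ el j θ' := he ▸ hx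
  exact (el_inter h hF.adm1 hF.spl.loc hi hj hθ hθ' hne' hx hx').2.1.1

theorem fl_el_rig {i : ℕ} (hi : i < c.nc) {θ : Set X} (hθ : θ ∈ c.Eint i) : el i θ ∉ c.Rig E := by
  intro hr
  have hK : el i θ ⊆ c.K (pullE c.f E) := hr.2.2
  have hKO : c.K (pullE c.f E) ⊆ c.Om (pullE c.f E) := by
    rintro x ⟨J, ⟨U, hU, hne, rfl⟩, hx⟩
    exact ⟨closure U, ⟨U, ⟨hU, hne⟩, rfl⟩, frontier_subset_closure hx⟩
  have hom := (hF.spl.loc i hi θ hθ).om
  apply fll_el_infinite h hF hi hθ
  have hfin : ((us i θ) '' (c.V (c.lev i))).Finite := (h.net.good (c.lev i)).pg.finV.image _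
  apply hfin.subset
  intro x hx
  have hx2 : x ∈ el i θ ∩ c.Om (pullE c.f E) := ⟨hx, hKO (hK hx)⟩
  rw [hom] at hx2
  obtain ⟨v, hv, -, rfl⟩ := hx2
  exact ⟨v, hv.1.1, rfl⟩

theorem fl_rig_img {e : Set X} (he : e ∈ pullE c.f E) : c.f '' e ∈ E ∧ InjOn c.f e := by
  obtain ⟨h1, h2, -⟩ := Dyn.edge_image h.dyn hF.adm.good.pg hF.adm.avoid he
  exact ⟨h1, h2⟩

theorem fl_pi : ∃ π : Set X → X → ℝ, (∀ e ∈ E, Coo (π e) e) ∧ ∀ e ∈ c.Rig E, ∀ x ∈ e, π e x = π (c.f '' e) (c.f x) := by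
  classical
  have hcoo : ∀ e : Set X, ∃ π₀ : X → ℝ, e ∈ E → Coo π₀ e := by
    intro e
    by_cases he : e ∈ E
    · obtain ⟨p, -, q, -, harc, -⟩ := hF.adm.good.pg.arc e he
      obtain ⟨π, hπ⟩ := exists_coo harc
      exact ⟨π, fun _ => hπ⟩
    · exact ⟨fun _ => 0, fun h => absurd h he⟩
  choose π₀ hπ₀ using hcoo
  set S : Set X → Set ℕ := fun e => {t | c.f^[t] '' e ∉ c.Rig E} with hS
  have hSne : ∀ e ∈ E, (S e).Nonempty := by
    intro e he
    obtain ⟨-, t, -, i, hi, θ, hθ, ht⟩ := fix_edges h hF he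
    refine ⟨t, ?_⟩
    change c.f^[t] '' e ∉ c.Rig E
    rw [ht]
    exact fl_el_rig h hF hi hθ
  have hind : ∀ e ∈ E, ∀ j, j ≤ sInf (S e) → c.f^[j] '' e ∈ E ∧ InjOn c.f^[j] e := by
    intro e he j
    induction j with
    | zero =>
      intro _
      rw [Function.iterate_zero, image_id]
      exact ⟨he, injOn_id _⟩
    | succ j ih =>
      intro hj
      obtain ⟨h1, h2⟩ := ih (by omega)
      have h3 : c.f^[j] '' e ∈ c.Rig E := by
        by_contra hc
        have := Nat.sInf_le (show j ∈ S e from hc)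
        omega
      obtain ⟨h4, h5⟩ := fl_rig_img h hF h3.2.1
      rw [Function.iterate_succ', image_comp]
      exact ⟨h4, h5.comp h2 (mapsTo_image _ _)⟩
  have hcont : ∀ j : ℕ, Continuous c.f^[j] := fun j => h.dyn.cont.iterate j
  refine ⟨fun e x => π₀ (c.f^[sInf (S e)] '' e) (c.f^[sInf (S e)] x), ?_, ?_⟩
  · intro e he
    obtain ⟨h1, h2⟩ := hind e he _ le_rfl
    exact coo_comp (hcont _).continuousOn h2 (hπ₀ _ h1)
  · intro e he x hx
    have himg : c.f '' e ∈ E := (fl_rig_img h hF he.2.1).1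
    have key : ∀ t : ℕ, c.f^[t + 1] '' e = c.f^[t] '' (c.f '' e) := by
      intro t
      rw [Function.iterate_succ, image_comp]
    have hτ : sInf (S e) = sInf (S (c.f '' e)) + 1 := by
      apply le_antisymm
      · apply Nat.sInf_le
        change c.f^[sInf (S (c.f '' e)) + 1] '' e ∉ c.Rig E
        rw [key]
        exact Nat.sInf_mem (hSne _ himg)
      · apply le_csInf (hSne e he.1)
        intro t ht
        cases t with
        | zero =>
          exfalso
          apply ht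
          rw [Function.iterate_zero, image_id]
          exact he
        | succ t =>
          have ht' : t ∈ S (c.f '' e) := by
            change c.f^[t] '' (c.f '' e) ∉ c.Rig E
            rw [← key]
            exact ht
          have := Nat.sInf_le ht'
          omega
    change π₀ (c.f^[sInf (S e)] '' e) (c.f^[sInf (S e)] x) =
      π₀ (c.f^[sInf (S (c.f '' e))] '' (c.f '' e)) (c.f^[sInf (S (c.f '' e))] (c.f x))
    rw [hτ, key, Function.iterate_succ_apply]

end Pool.ETM
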