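import Pool.Agent.ETM.FlI
import Pool.Agent.ETM.FlK
import Pool.Agent.ETM.FlL

/-!
ETM, MODULE FlM (difficulty 4): the push, output of block FL.

RECIPE.  `E' = pullE c.f E`, `V' = c.f ⁻¹' V`.  `fl_exists_path` for `hF.adm1`, `hF.spl.loc`: `cv`, `Φ`, `hΦ : c.PathOk V' E' us cv Φ`.  `fl_pi`: `π`.  `ρ ε x = π (c.f '' ε) (c.f x)`: `Coo (ρ ε) ε` for `ε ∈ E'` (`fl_rig_img`, `coo_comp`).
By `fix_edges` every `e ∈ E` is in `Rig E` or is `el i θ`, `i < nc`, `θ ∈ Eint i`, and by `fl_el_rig`, `fl_el_inj` exactly one of these holds and `(i, θ)` is unique.  `p e = e` for `e ∈ Rig E`, `p (el i θ) = Φ i θ` (choice).  `g e = id` for `e ∈ Rig E`; `g (el i θ)` = the map of `fl_edge` for `Φ i θ`, `el i θ`, with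
`a = wend i (us i θ) v`, `b = wend i (us i θ) v'` (`Loc.arc`; `v, v'` the ends of `θ`) and `a' = cw i θ v`, `b' = cw i θ v'` (`PathOk.path`).
`cc u = if ∃ i < nc, u ∈ Vint i then cv i u (choice) else u`.  `hv` of `fl_glue`: `e ∈ Rig E`, `u ∈ V`, `u ∈ e ⊆ K E'`: `u` is in no `Vint i` (`fl_vint_K`), `cc u = u`.  `e = el i θ`: `u ∈ V ∩ e` is an end of the arc `e` (`PG.arc` for `(V, E)`; the ends of an arc are unique, e.g. by `coo_ends`: the points where a coordinate is `0` or `1`), so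
`u = wend i (us i θ) w`, `w ∈ {v, v'}`: `w ∈ Vint i`: `u = w`, `cc u = cv i w = cw` (the colour is unique: `fl_vint_disj`); `w ∈ Vbd i`: `u = us i θ w ∈ K E'` (`us_near`), `cc u = u = cw`.
`hx` of `fl_glue`: `e ≠ e'`, `g e x = g e' y =: z ∈ p e ∩ p e'`.  Both rigid: `z = x = y ∈ e ∩ e' ⊆ V` (`PG.inter`), `cc z = z`.  `e` rigid, `e' = el i θ`: `z ∈ K E' ∩ Φ i θ`, `PathOk.om`: `z = us i θ v`, `v ∈ Vbd i`, which is an end of `el i θ`, so `z ∈ e ∩ e'`, in `V`, `cc z = z`.  Symmetric.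
`e = el i θ`, `e' = el j θ'`: `PathOk.inter`: `i = j`, `z = cv i v`, `v ∈ Vint i`, `v ∈ θ ∩ θ'`; `v = wend` is an end of both arcs, so `v ∈ V` and `cc v = cv i v`.
`fl_glue` gives `φ`.  `path e = {ε | ε ∈ E' ∧ ε ⊆ p e}`, `r e = (path e).ncard`.  `mapV`: `v ∈ V` is on some edge, `φ v = cc v`; if `v` is in `Vint i`: `cv i v ∈ V'` (`PathOk.cvV`); otherwise `v ∈ V' ∩ K E'` (`hF.spl.hV`).  `rigid`: `{ε | ε ∈ E' ∧ ε ⊆ e} = {e}` (`PG.mem_of_sub`).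
`path_img`: `p e = ⋃₀ (path e)` (`PathG`).  `flex`: `PathOk.near`, `PathOk.two`.  `rpos`: `1` for rigid edges, `≥ 2` for the others.  `lin`: rigid: `fl_pi`; flexible: `fl_edge`.
-/

set_option autoImplicit false

open Set Metric Topology Filter
open Pool.JS

namespace Pool.ETM

variable {X : Type*} [MetricSpace X] [CompactSpace X] [Sph X]

theorem flm_ends {e : Set X} {a b a' b' x : X} (he : ArcX e a b) (he' : ArcX e a' b') (hx : x = a' ∨ x = b') :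
    x = a ∨ x = b := by
  obtain ⟨π, hπ⟩ := exists_coo he
  have h1 := coo_ends he hπ
  have h2 := coo_ends he' hπ
  have ha := he.left_mem
  have hb := he.right_mem
  have ha' := he'.left_mem
  have hb' := he'.right_mem
  have hxe : x ∈ e := by
    rcases hx with rfl | rfl
    · exact ha'
    · exact hb'
  have h3 : π x = 0 ∨ π x = 1 := by
    rcases hx with rfl | rfl
    · rcases h2 with h2 | h2
      · exact Or.inl h2.1
      · exact Or.inr h2.1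
    · rcases h2 with h2 | h2
      · exact Or.inr h2.2
      · exact Or.inl h2.2
  rcases h1 with ⟨h4, h5⟩ | ⟨h4, h5⟩
  · rcases h3 with h3 | h3
    · exact Or.inl (hπ.inj hxe ha (h3.trans h4.symm))
    · exact Or.inr (hπ.inj hxe hb (h3.trans h5.symm))
  · rcases h3 with h3 | h3
    · exact Or.inr (hπ.inj hxe hb (h3.trans h5.symm))
    · exact Or.inl (hπ.inj hxe ha (h3.trans h4.symm))

section flm

variable {c : Ctx X} (h : c.Ok) {Pt : ℕ → Set X → X → Set X} {us : ℕ → Set X → X → X} {el : ℕ → Set X → Set X}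
    {V : Set X} {E : Set (Set X)} (hF : c.Fix Pt us el V E)

theorem flm_wend_bd {i : ℕ} {θ : Set X} {v : X} (hv : v ∈ c.Vbd i) : c.wend i (us i θ) v = us i θ v := by
  unfold Ctx.wend
  exact if_neg fun h4 => hv.2 h4.2

theorem flm_wend_int {i : ℕ} {θ : Set X} {v : X} (hv : v ∈ c.Vint i) : c.wend i (us i θ) v = v := by
  unfold Ctx.wend
  exact if_pos hv

theorem flm_cw_bd {cv : ℕ → X → X} {i : ℕ} {θ : Set X} {v : X} (hv : v ∈ c.Vbd i) : c.cw us cv i θ v = us i θ v := by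
  unfold Ctx.cw
  exact if_neg fun h4 => hv.2 h4.2

theorem flm_cw_int {cv : ℕ → X → X} {i : ℕ} {θ : Set X} {v : X} (hv : v ∈ c.Vint i) : c.cw us cv i θ v = cv i v := by
  unfold Ctx.cw
  exact if_pos hv

include h hF

theorem flm_wend_mem {i : ℕ} (hi : i < c.nc) {θ : Set X} (hθ : θ ∈ c.Eint i) {v : X} (hv : v ∈ c.V (c.lev i))
    (hvθ : v ∈ θ) : c.wend i (us i θ) v ∈ el i θ := by
  obtain ⟨v', hv', hvθ', hne, _⟩ := fl_other h.net hθ.1 hv hvθ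
  exact ((hF.spl.loc i hi θ hθ).arc v hv v' hv' hvθ hvθ' hne.symm).left_mem

/-- the correction at the vertices -/
theorem flm_cc (cv : ℕ → X → X) : ∃ cc : X → X, (∀ u, ∀ i < c.nc, u ∈ c.Vint i → cc u = cv i u) ∧
    ∀ u, (∀ i < c.nc, u ∉ c.Vint i) → cc u = u := by
  have h1 : ∀ u : X, ∃ w : X, (∀ i < c.nc, u ∈ c.Vint i → w = cv i u) ∧ ((∀ i < c.nc, u ∉ c.Vint i) → w = u) := by
    intro u
    by_cases hu : ∃ i < c.nc, u ∈ c.Vint i
    · obtain ⟨i, hi, hui⟩ := hu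
      refine ⟨cv i u, ?_, fun h2 => absurd hui (h2 i hi)⟩
      intro j hj huj
      rw [fl_vint_disj h hi hj hui huj]
    · push Not at hu
      exact ⟨u, fun i hi hui => absurd hui (hu i hi), fun _ => rfl⟩
  choose cc h1 using h1
  exact ⟨cc, fun u => (h1 u).1, fun u => (h1 u).2⟩

theorem flm_K {cc : X → X} (h2 : ∀ u, (∀ i < c.nc, u ∉ c.Vint i) → cc u = u) {u : X} (hu : u ∈ c.K (pullE c.f E)) :
    cc u = u :=
  h2 u fun _ hi hui => fl_vint_K h hi hF.adm1 hui hu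

theorem flm_cc_end {cv : ℕ → X → X} {cc : X → X} (h1 : ∀ u, ∀ i < c.nc, u ∈ c.Vint i → cc u = cv i u)
    (h2 : ∀ u, (∀ i < c.nc, u ∉ c.Vint i) → cc u = u) {i : ℕ} (hi : i < c.nc) {θ : Set X} (hθ : θ ∈ c.Eint i) {v : X}
    (hv : v ∈ c.V (c.lev i)) (hvθ : v ∈ θ) : cc (c.wend i (us i θ) v) = c.cw us cv i θ v := by
  rcases fl_vert h hi hθ hv hvθ with hv' | hv'
  · rw [flm_wend_int hv', flm_cw_int hv']
    exact h1 v i hi hv'
  · rw [flm_wend_bd hv', flm_cw_bd hv']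
    exact flm_K h hF h2 (us_near h hF.adm1 hi hθ (hF.spl.loc i hi θ hθ) hv' hvθ).2.2.1

/-- the maps on the flexible edges -/
theorem flm_flex {π : Set X → X → ℝ} (hπ : ∀ e ∈ E, Coo (π e) e) {cv : ℕ → X → X} {Φ : ℕ → Set X → Set X}
    (hΦ : c.PathOk (c.f ⁻¹' V) (pullE c.f E) us cv Φ) {cc : X → X}
    (h1 : ∀ u, ∀ i < c.nc, u ∈ c.Vint i → cc u = cv i u) (h2 : ∀ u, (∀ i < c.nc, u ∉ c.Vint i) → cc u = u)
    {i : ℕ} (hi : i < c.nc) {θ : Set X} (hθ : θ ∈ c.Eint i) :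
    ∃ g : X → X, ContinuousOn g (el i θ) ∧ InjOn g (el i θ) ∧ g '' (el i θ) = Φ i θ ∧
      (∀ v ∈ V, v ∈ el i θ → g v = cc v) ∧ ∀ e₁ ∈ pullE c.f E, e₁ ⊆ Φ i θ →
      ∀ x ∈ el i θ, ∀ y ∈ el i θ, g x ∈ e₁ → g y ∈ e₁ →
        |π (c.f '' e₁) (c.f (g x)) - π (c.f '' e₁) (c.f (g y))| =
          {e | e ∈ pullE c.f E ∧ e ⊆ Φ i θ}.ncard * |π (el i θ) x - π (el i θ) y| := by
  obtain ⟨p, hp, q, hq, hpq, hpqV⟩ := (h.net.good (c.lev i)).pg.arc θ hθ.1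
  have hne : p ≠ q := hpq.ne
  have hL := hF.spl.loc i hi θ hθ
  have harc := hL.arc p hp q hq hpq.left_mem hpq.right_mem hne
  have hρ : ∀ e ∈ pullE c.f E, Coo (fun x => π (c.f '' e) (c.f x)) e := by
    intro e he
    obtain ⟨h3, h4⟩ := fl_rig_img h hF he
    exact coo_comp h.dyn.cont.continuousOn h4 (hπ _ h3)
  have hel : el i θ ∈ E := fl_el_mem h hF hi hθ
  obtain ⟨g, g1, g2, g3, g4, g5, g6⟩ := fl_edge (ρ := fun e x => π (c.f '' e) (c.f x)) hF.adm1.good.pg hρ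
    (hΦ.path i hi θ hθ p hp q hq hpq.left_mem hpq.right_mem hne) harc (hπ _ hel)
  refine ⟨g, g1, g2, g3, ?_, g6⟩
  intro v hv hve
  obtain ⟨a, _, b, _, hab, habV⟩ := hF.adm.good.pg.arc (el i θ) hel
  have h5 : v ∈ el i θ ∩ V := ⟨hve, hv⟩
  rw [habV] at h5
  rcases flm_ends harc hab h5 with h6 | h6
  · rw [h6, g4]
    exact (flm_cc_end h hF h1 h2 hi hθ hp hpq.left_mem).symm
  · rw [h6, g5]
    exact (flm_cc_end h hF h1 h2 hi hθ hq hpq.right_mem).symm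

/-- the maps on all the edges -/
theorem flm_all {π : Set X → X → ℝ} (hπ : ∀ e ∈ E, Coo (π e) e)
    (hπR : ∀ e ∈ c.Rig E, ∀ x ∈ e, π e x = π (c.f '' e) (c.f x)) {cv : ℕ → X → X} {Φ : ℕ → Set X → Set X}
    (hΦ : c.PathOk (c.f ⁻¹' V) (pullE c.f E) us cv Φ) {cc : X → X}
    (h1 : ∀ u, ∀ i < c.nc, u ∈ c.Vint i → cc u = cv i u) (h2 : ∀ u, (∀ i < c.nc, u ∉ c.Vint i) → cc u = u) :
    ∃ (p : Set X → Set X) (g : Set X → X → X), (∀ e ∈ c.Rig E, p e = e ∧ ∀ x, g e x = x) ∧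
      (∀ i < c.nc, ∀ θ ∈ c.Eint i, p (el i θ) = Φ i θ) ∧
      ∀ e ∈ E, ContinuousOn (g e) e ∧ InjOn (g e) e ∧ g e '' e = p e ∧ (∀ v ∈ V, v ∈ e → g e v = cc v) ∧
        (∃ D ⊆ pullE c.f E, p e = ⋃₀ D) ∧ ∀ e₁ ∈ pullE c.f E, e₁ ⊆ p e → ∀ x ∈ e, ∀ y ∈ e, g e x ∈ e₁ → g e y ∈ e₁ →
          |π (c.f '' e₁) (c.f (g e x)) - π (c.f '' e₁) (c.f (g e y))| =
            {ε | ε ∈ pullE c.f E ∧ ε ⊆ p e}.ncard * |π e x - π e y| := by
  have h3 : ∀ (i : ℕ) (θ : Set X), ∃ g : X → X, i < c.nc → θ ∈ c.Eint i → (ContinuousOn g (el i θ) ∧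
      InjOn g (el i θ) ∧ g '' (el i θ) = Φ i θ ∧
      (∀ v ∈ V, v ∈ el i θ → g v = cc v) ∧ ∀ e₁ ∈ pullE c.f E, e₁ ⊆ Φ i θ →
      ∀ x ∈ el i θ, ∀ y ∈ el i θ, g x ∈ e₁ → g y ∈ e₁ →
        |π (c.f '' e₁) (c.f (g x)) - π (c.f '' e₁) (c.f (g y))| =
          {e | e ∈ pullE c.f E ∧ e ⊆ Φ i θ}.ncard * |π (el i θ) x - π (el i θ) y|) := by
    intro i θ
    by_cases hiθ : i < c.nc ∧ θ ∈ c.Eint i
    · obtain ⟨g, hg⟩ := flm_flex h hF hπ hΦ h1 h2 hiθ.1 hiθ.2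
      exact ⟨g, fun _ _ => hg⟩
    · exact ⟨id, fun h4 h5 => absurd ⟨h4, h5⟩ hiθ⟩
  choose G hG using h3
  have h4 : ∀ e : Set X, ∃ (p : Set X) (g : X → X), (e ∈ c.Rig E → p = e ∧ ∀ x, g x = x) ∧
      ∀ i < c.nc, ∀ θ ∈ c.Eint i, e = el i θ → p = Φ i θ ∧ g = G i θ := by
    intro e
    by_cases heR : e ∈ c.Rig E
    · exact ⟨e, id, fun _ => ⟨rfl, fun _ => rfl⟩, fun i hi θ hθ he => absurd (he ▸ heR) (fl_el_rig h hF hi hθ)⟩
    · by_cases heF : ∃ i < c.nc, ∃ θ ∈ c.Eint i, e = el i θ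
      · obtain ⟨i, hi, θ, hθ, rfl⟩ := heF
        refine ⟨Φ i θ, G i θ, fun h5 => absurd h5 heR, ?_⟩
        intro j hj θ' hθ' he
        obtain ⟨rfl, rfl⟩ := fl_el_inj h hF hi hj hθ hθ' he
        exact ⟨rfl, rfl⟩
      · exact ⟨∅, id, fun h5 => absurd h5 heR, fun i hi θ hθ he => absurd ⟨i, hi, θ, hθ, he⟩ heF⟩
  choose p g hR hFl using h4
  refine ⟨p, g, fun e he => hR e he, fun i hi θ hθ => (hFl _ i hi θ hθ rfl).1, ?_⟩
  intro e he
  rcases (fix_edges h hF he).1 with heR | ⟨i, hi, θ, hθ, rfl⟩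
  · obtain ⟨hp, hg⟩ := hR e heR
    have hgid : g e = id := funext hg
    rw [hp, hgid]
    have hone : {ε | ε ∈ pullE c.f E ∧ ε ⊆ e} = {e} := by
      apply Set.Subset.antisymm
      · rintro ε ⟨hε, hεe⟩
        refine PG.mem_of_sub hF.adm1.good.pg hε (Set.singleton_subset_iff.mpr heR.2.1) ?_
        rw [Set.sUnion_singleton]
        exact hεe
      · rintro ε rfl
        exact ⟨heR.2.1, subset_rfl⟩
    refine ⟨continuousOn_id, Set.injOn_id _, Set.image_id _, ?_, ⟨{e}, Set.singleton_subset_iff.mpr heR.2.1,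
      (Set.sUnion_singleton e).symm⟩, ?_⟩
    · intro v _ hve
      exact (flm_K h hF h2 (heR.2.2 hve)).symm
    · intro e₁ he₁ he₁e x hx y hy _ _
      have h5 : e₁ ∈ {ε | ε ∈ pullE c.f E ∧ ε ⊆ e} := ⟨he₁, he₁e⟩
      rw [hone] at h5
      have h6 : e₁ = e := h5
      subst h6
      rw [hone, Set.ncard_singleton, Nat.cast_one, one_mul]
      show |π (c.f '' e₁) (c.f x) - π (c.f '' e₁) (c.f y)| = |π e₁ x - π e₁ y|
      rw [hπR e₁ heR x hx, hπR e₁ heR y hy]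
  · obtain ⟨hp, hg⟩ := hFl (el i θ) i hi θ hθ rfl
    rw [hp, hg]
    obtain ⟨g1, g2, g3, g4, g5⟩ := hG i θ hi hθ
    obtain ⟨v, hv, v', hv', hvv, hvV⟩ := (h.net.good (c.lev i)).pg.arc θ hθ.1
    exact ⟨g1, g2, g3, g4, (hΦ.path i hi θ hθ v hv v' hv' hvv.left_mem hvv.right_mem hvv.ne).2, g5⟩

end flm

theorem fl_exists_push {c : Ctx X} (h : c.Ok) {Pt : ℕ → Set X → X → Set X} {us : ℕ → Set X → X → X} {el : ℕ → Set X → Set X}
    {V : Set X} {E : Set (Set X)} (hF : c.Fix Pt us el V E) :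
    ∃ (φ : X → X) (path : Set X → Set (Set X)) (r : Set X → ℕ) (π : Set X → X → ℝ), c.Push el V E φ path r π := by
  obtain ⟨cv, Φ, hΦ⟩ := fl_exists_path h hF.adm1 hF.spl.loc
  obtain ⟨π, hπ, hπR⟩ := fl_pi h hF
  obtain ⟨cc, hc1, hc2⟩ := flm_cc h hF cv
  obtain ⟨p, g, hR, hFl, hall⟩ := flm_all h hF hπ hπR hΦ hc1 hc2
  have hG := hF.adm.good
  have hG' := hF.adm1.good
  have hx : ∀ e ∈ E, ∀ e' ∈ E, e ≠ e' → ∀ x ∈ e, ∀ y ∈ e', g e x = g e' y →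
      ∃ v ∈ V, v ∈ e ∧ v ∈ e' ∧ g e x = cc v := by
    intro e he e' he' hne x hx y hy hxy
    rcases (fix_edges h hF he).1 with heR | ⟨i, hi, θ, hθ, rfl⟩
    · rcases (fix_edges h hF he').1 with heR' | ⟨j, hj, θ', hθ', rfl⟩
      · rw [(hR e heR).2, (hR e' heR').2] at hxy
        subst hxy
        refine ⟨x, hG.pg.inter e he e' he' hne ⟨hx, hy⟩, hx, hy, ?_⟩
        rw [(hR e heR).2, flm_K h hF hc2 (heR.2.2 hx)]
      · have h1 : g (el j θ') y ∈ Φ j θ' := by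
          rw [← hFl j hj θ' hθ', ← (hall _ he').2.2.1]
          exact ⟨y, hy, rfl⟩
        rw [(hR e heR).2] at hxy
        rw [← hxy] at h1
        obtain ⟨v, hv, hvθ, h2⟩ := hΦ.om j hj θ' hθ' x h1 (heR.2.2 hx)
        have h3 : x ∈ el j θ' := by
          rw [h2, ← flm_wend_bd (us := us) (θ := θ') hv]
          exact flm_wend_mem h hF hj hθ' hv.1.1 hvθ
        refine ⟨x, hG.pg.inter e he _ he' hne ⟨hx, h3⟩, hx, h3, ?_⟩
        rw [(hR e heR).2, flm_K h hF hc2 (heR.2.2 hx)]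
    · have h1 : g (el i θ) x ∈ Φ i θ := by
        rw [← hFl i hi θ hθ, ← (hall _ he).2.2.1]
        exact ⟨x, hx, rfl⟩
      rcases (fix_edges h hF he').1 with heR' | ⟨j, hj, θ', hθ', rfl⟩
      · have h1' := h1
        rw [hxy, (hR e' heR').2] at h1'
        obtain ⟨v, hv, hvθ, h2⟩ := hΦ.om i hi θ hθ y h1' (heR'.2.2 hy)
        have h3 : y ∈ el i θ := by
          rw [h2, ← flm_wend_bd (us := us) (θ := θ) hv]
          exact flm_wend_mem h hF hi hθ hv.1.1 hvθ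
        refine ⟨y, hG.pg.inter _ he e' he' hne ⟨h3, hy⟩, h3, hy, ?_⟩
        rw [hxy, (hR e' heR').2, flm_K h hF hc2 (heR'.2.2 hy)]
      · have h1' : g (el j θ') y ∈ Φ j θ' := by
          rw [← hFl j hj θ' hθ', ← (hall _ he').2.2.1]
          exact ⟨y, hy, rfl⟩
        rw [← hxy] at h1'
        have hne' : i ≠ j ∨ θ ≠ θ' := by
          by_contra hcon
          push Not at hcon
          obtain ⟨rfl, rfl⟩ := hcon
          exact hne rfl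
        obtain ⟨hij, v, hv, hvθ, hvθ', h2⟩ := hΦ.inter i hi j hj θ hθ θ' hθ' hne' _ h1 h1'
        subst hij
        have h3 : v ∈ el i θ := by
          have h4 := flm_wend_mem h hF hi hθ hv.1 hvθ
          rwa [flm_wend_int hv] at h4
        have h3' : v ∈ el i θ' := by
          have h4 := flm_wend_mem h hF hi hθ' hv.1 hvθ'
          rwa [flm_wend_int hv] at h4
        refine ⟨v, hG.pg.inter _ he _ he' hne ⟨h3, h3'⟩, h3, h3', ?_⟩
        rw [h2, hc1 v i hi hv]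
  obtain ⟨φ, φ1, φ2, φ3⟩ := fl_glue hG.pg (fun e he => (hall e he).1) (fun e he => (hall e he).2.1)
    (fun e he => (hall e he).2.2.2.1) hx
  have himg : ∀ e ∈ E, φ '' e = p e := by
    intro e he
    rw [← (hall e he).2.2.1]
    exact Set.image_congr (φ3 e he)
  have hone : ∀ e ∈ c.Rig E, {ε | ε ∈ pullE c.f E ∧ ε ⊆ p e} = {e} := by
    intro e heR
    rw [(hR e heR).1]
    apply Set.Subset.antisymm
    · rintro ε ⟨hε, hεe⟩
      refine PG.mem_of_sub hG'.pg hε (Set.singleton_subset_iff.mpr heR.2.1) ?_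
      rw [Set.sUnion_singleton]
      exact hεe
    · rintro ε rfl
      exact ⟨heR.2.1, subset_rfl⟩
  refine ⟨φ, fun e => {ε | ε ∈ pullE c.f E ∧ ε ⊆ p e}, fun e => {ε | ε ∈ pullE c.f E ∧ ε ⊆ p e}.ncard, π, ?_⟩
  have hflex : ∀ i < c.nc, ∀ θ ∈ c.Eint i, φ '' el i θ ⊆ c.nh (c.lev i) θ (4 * c.ε) ∧
      2 ≤ {ε | ε ∈ pullE c.f E ∧ ε ⊆ p (el i θ)}.ncard := by
    intro i hi θ hθ
    rw [himg _ (fl_el_mem h hF hi hθ), hFl i hi θ hθ]
    exact ⟨hΦ.near i hi θ hθ, hΦ.two i hi θ hθ⟩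
  refine ⟨φ1, φ2, ?_, ?_, ?_, ?_, hflex, ?_, fun e he => (hπ e he).cont, fun e he => (hπ e he).inj,
    fun e he => (hπ e he).img, ?_⟩
  · intro v hv
    obtain ⟨e, he, hve⟩ := hG.pg.vert v hv
    rw [φ3 e he v hve, (hall e he).2.2.2.1 v hv hve]
    by_cases hvi : ∃ i < c.nc, v ∈ c.Vint i
    · obtain ⟨i, hi, hvi⟩ := hvi
      rw [hc1 v i hi hvi]
      exact (hΦ.cvV i hi v hvi).1
    · push Not at hvi
      rw [hc2 v hvi]
      have h1 := hv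
      rw [hF.spl.hV] at h1
      rcases h1 with h1 | h1
      · exact h1.1
      · simp only [Set.mem_iUnion] at h1
        obtain ⟨i, hi, h2⟩ := h1
        exact absurd h2 (hvi i hi)
  · intro e heR
    refine ⟨hone e heR, ?_, ?_⟩
    · show {ε | ε ∈ pullE c.f E ∧ ε ⊆ p e}.ncard = 1
      rw [hone e heR, Set.ncard_singleton]
    · intro x hx
      rw [φ3 e heR.1 x hx, (hR e heR).2]
  · intro e _ ε hε
    exact hε.1
  · intro e he
    rw [himg e he]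
    obtain ⟨D, hD, hpD⟩ := (hall e he).2.2.2.2.1
    apply Set.Subset.antisymm
    · intro x hx
      have hx2 := hx
      rw [hpD] at hx2
      obtain ⟨ε, hε, hxε⟩ := hx2
      refine ⟨ε, ⟨hD hε, ?_⟩, hxε⟩
      rw [hpD]
      exact Set.subset_sUnion_of_mem hε
    · rintro x ⟨ε, hε, hxε⟩
      exact hε.2 hxε
  · intro e he
    rcases (fix_edges h hF he).1 with heR | ⟨i, hi, θ, hθ, rfl⟩
    · show 1 ≤ {ε | ε ∈ pullE c.f E ∧ ε ⊆ p e}.ncard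
      rw [hone e heR, Set.ncard_singleton]
    · exact le_trans one_le_two (hflex i hi θ hθ).2
  · intro e he e₁ he₁ x hx y hy hx1 hy1
    rw [φ3 e he x hx] at hx1 ⊢
    rw [φ3 e he y hy] at hy1 ⊢
    exact (hall e he).2.2.2.2.2 e₁ he₁.1 he₁.2 x hx y hy hx1 hy1

end Pool.ETM
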