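/-
Project ETM (MP_c7bb65_an), block FL: the interface name `exists_push`.
-/
import Mathlib
import Pool.Agent.ETM.FlM

set_option autoImplicit false

open Set Metric Topology Filter
open Pool.JS

namespace Pool.ETM

variable {X : Type*} [MetricSpace X] [CompactSpace X] [Sph X]

theorem exists_push {c : Ctx X} (h : c.Ok) {Pt : ℕ → Set X → X → Set X} {us : ℕ → Set X → X → X} {el : ℕ → Set X → Set X}
    {V : Set X} {E : Set (Set X)} (hF : c.Fix Pt us el V E) :
    ∃ (φ : X → X) (path : Set X → Set (Set X)) (r : Set X → ℕ) (π : Set X → X → ℝ), c.Push el V E φ path r π :=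
  fl_exists_push h hF

end Pool.ETM
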