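/-
Project ETM (MP_c7bb65_an). Definitions for the blocks RAY and FIN (sections 12, 13 of the paper proof /team-store/c7bb65_proof.md).
-/
import Mathlib
import Pool.Agent.ETM.SpDefs
import Pool.Agent.ETM.Bridge

set_option autoImplicit false

open Set Metric Topology Filter
open Pool.JS

namespace Pool.ETM

variable {X : Type*}

/-- the periodic points of `P` -/
def Pc (f : X → X) (P : Set X) : Set X := {z | z ∈ P ∧ ∃ j, 1 ≤ j ∧ f^[j] z = z}

/-- the component of `f⁻ⁿ(face of fⁿ z)` containing `z` -/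
def Wn [TopologicalSpace X] (f : X → X) (E : Set (Set X)) (n : ℕ) (z : X) : Set X :=
  connectedComponentIn (f^[n] ⁻¹' fce E (f^[n] z)) z

/-- the data of 12.1, 12.2: for every periodic point `z` of `P` and every label `i` an arc `ξ z i` of `f⁻¹(G)` from a vertex
`a z i` on the boundary of the face of `z` to a point `b z i` on the boundary of `Wn 1 z`, with `f (b z i) = a (f z) (π z i)` -/
structure RayDat [TopologicalSpace X] (f : X → X) (P : Set X) (V : Set X) (E : Set (Set X)) (a b : X → Bool → X)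
    (ξ : X → Bool → Set X) (π : X → Bool → Bool) : Prop where
  arc : ∀ z ∈ Pc f P, ∀ i, ArcX (ξ z i) (a z i) (b z i)
  av : ∀ z ∈ Pc f P, ∀ i, f (a z i) ∈ V
  sub : ∀ z ∈ Pc f P, ∀ i, f '' ξ z i ⊆ ⋃₀ E
  cl : ∀ z ∈ Pc f P, ∀ i, ξ z i ⊆ closure (fce E z)
  out : ∀ z ∈ Pc f P, ∀ i, Disjoint (ξ z i) (Wn f E 1 z)
  fr : ∀ z ∈ Pc f P, ∀ i, ξ z i ∩ frontier (fce E z) = {a z i}
  bfr : ∀ z ∈ Pc f P, ∀ i, b z i ∈ frontier (Wn f E 1 z)
  bim : ∀ z ∈ Pc f P, ∀ i, f (b z i) = a (f z) (π z i)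
  bij : ∀ z ∈ Pc f P, Function.Injective (π z)
  disj : ∀ z ∈ Pc f P, ∀ i j, i ≠ j → Disjoint (ξ z i) (ξ z j)

/-- the label after `n` steps -/
def lab (f : X → X) (π : X → Bool → Bool) : ℕ → X → Bool → Bool
  | 0, _, i => i
  | n + 1, z, i => π (f^[n] z) (lab f π n z i)

/-- the ray with the label `i` at `z`: the arcs `A n` from `e n` to `e (n + 1)` -/
structure IsRay [TopologicalSpace X] (f : X → X) (a b : X → Bool → X) (ξ : X → Bool → Set X) (π : X → Bool → Bool) (z : X)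
    (i : Bool) (e : ℕ → X) (A : ℕ → Set X) : Prop where
  arc : ∀ n, ArcX (A n) (e n) (e (n + 1))
  inj : ∀ n, InjOn f^[n] (A n)
  img : ∀ n, f^[n] '' A n = ξ (f^[n] z) (lab f π n z i)
  st : ∀ n, f^[n] (e n) = a (f^[n] z) (lab f π n z i)
  en : ∀ n, f^[n] (e (n + 1)) = b (f^[n] z) (lab f π n z i)

/-- the states of the pull back of section 13: `W` the vertices, `E` the edges -/
structure Sta [TopologicalSpace X] (f : X → X) (P : Set X) (W : Set X) (E : Set (Set X)) : Prop where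
  pg : PG W E
  ne : E.Nonempty
  disc : ∀ U ∈ Fc E, JDom U
  mapG : MapsTo f (⋃₀ E) (⋃₀ E)
  mapW : MapsTo f W W
  car : ⋃₀ E ∩ P ⊆ W
  one : ∀ U ∈ Fc E, (closure U ∩ P).Subsingleton

end Pool.ETM
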