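/-
Project ETM (MP_c7bb65_an), block RAY.
MODULE RyL.  The facts on lifting (section 2 of the paper proof, block LE) in the form used in the blocks RAY and FIN.
-/
import Mathlib
import Pool.Agent.ETM.LeZ
import Pool.Agent.ETM.Bridge

set_option autoImplicit false

open Set Metric Topology Filter
open Pool.JS

namespace Pool.ETM

variable {X : Type*} [TopologicalSpace X] [CompactSpace X] [T2Space X] [Sph X] {f : X → X} {P U V e c : Set X} {a b : X}

omit [Sph X] in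
theorem ryl_iter (h : Dyn f P) (n : ℕ) : Dyn f^[n] P := h.iterate n

/-- 2.1 -/
theorem ryl_comp (h : Dyn f P) (hU : IsOpen U) (hUc : IsPreconnected U) (hV : IsComp V (f ⁻¹' U)) :
    IsOpen V ∧ f '' V = U ∧ f '' closure V = closure U ∧ f '' frontier V = frontier U :=
  haveI : LocallyConnectedSpace X := locConn
  ⟨h.comp_isOpen hU hV, h.comp_image hU hUc hV, h.comp_closure hU hUc hV, h.comp_frontier hU hUc hV⟩

theorem ryl_finite (h : Dyn f P) (hU : IsOpen U) (hUc : IsPreconnected U) : {V | IsComp V (f ⁻¹' U)}.Finite :=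
  haveI : LocallyConnectedSpace X := locConn
  h.comp_finite hU hUc

theorem ryl_cover (h : Dyn f P) (hU : IsOpen U) (hUc : IsPreconnected U) {x : X} (hx : f x ∈ closure U) :
    ∃ V, IsComp V (f ⁻¹' U) ∧ x ∈ closure V := by
  haveI : LocallyConnectedSpace X := locConn
  have h1 : x ∈ closure (f ⁻¹' U) := by
    rw [← h.preimage_closure]
    exact hx
  rw [← sUnion_comp (S := f ⁻¹' U), (h.comp_finite hU hUc).closure_sUnion] at h1
  simp only [mem_iUnion, mem_setOf_eq, exists_prop] at h1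
  exact h1

/-- 2.4 -/
theorem ryl_disc (h : Dyn f P) (hU : JDom U) (h1 : (U ∩ P).Subsingleton) (h2 : Disjoint (frontier U) P)
    (hV : IsComp V (f ⁻¹' U)) : JDom V ∧ IsComp (closure V) (f ⁻¹' closure U) ∧
      ∀ y ∈ U ∩ P, ∀ x ∈ V, ∀ x' ∈ V, f x = y → f x' = y → x = x' := by
  by_cases hne : (U ∩ P).Nonempty
  · obtain ⟨p, hp⟩ := hne
    have hs : U ∩ P ⊆ {p} := fun y hy => h1 hy hp
    obtain ⟨hj, q, hq⟩ := h.ld_comp hU hp.1 hs h2 hV
    refine ⟨hj, h.ld_isComp_closure hU hp.1 hs h2 hV, ?_⟩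
    intro y hy x hx x' hx' hxy hxy'
    obtain rfl : y = p := hs hy
    have e1 : x ∈ V ∩ f ⁻¹' {y} := ⟨hx, hxy⟩
    have e2 : x' ∈ V ∩ f ⁻¹' {y} := ⟨hx', hxy'⟩
    rw [hq] at e1 e2
    rw [mem_singleton_iff.mp e1, mem_singleton_iff.mp e2]
  · obtain ⟨p, hp⟩ := hU.isConnected.nonempty
    have hs : U ∩ P ⊆ {p} := fun y hy => absurd ⟨y, hy⟩ hne
    obtain ⟨hj, q, hq⟩ := h.ld_comp hU hp hs h2 hV
    exact ⟨hj, h.ld_isComp_closure hU hp hs h2 hV, fun y hy => absurd ⟨y, hy⟩ hne⟩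

/-- 2.5 -/
theorem ryl_disc' (h : Dyn f P) (hU : JDom U) (h1 : Disjoint U P) (hV : IsComp V (f ⁻¹' U)) :
    JDom V ∧ InjOn f (closure V) ∧ f '' closure V = closure U := by
  obtain ⟨h2, h3, -, h4, -⟩ := h.jdom_comp hU h1 hV
  exact ⟨h2, h3, h4⟩

/-- 2.2 for an arc disjoint from `P` -/
theorem ryl_arc (h : Dyn f P) (he : ArcX e a b) (hP : Disjoint e P) (hc : IsComp c (f ⁻¹' e)) :
    InjOn f c ∧ f '' c = e ∧ ∃ a' b', ArcX c a' b' ∧ f a' = a ∧ f b' = b := by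
  obtain ⟨p, q, h1, h2, h3, h4, h5⟩ := h.arc_comp he hP hc
  exact ⟨h4, h5, p, q, h3, h1, h2⟩

/-- 2.2 for an arc whose interior is disjoint from `P` -/
theorem ryl_arc' (h : Dyn f P) (he : ArcX e a b) (hP : Disjoint (e \ {a, b}) P) (hc : IsComp c (f ⁻¹' (e \ {a, b}))) :
    InjOn f (closure c) ∧ f '' closure c = e ∧
      ∃ a' b', ArcX (closure c) a' b' ∧ f a' = a ∧ f b' = b ∧ closure c \ {a', b'} = c := by
  obtain ⟨p, q, h1, h2, h3, h4, h5, h6⟩ := h.arc_comp_open he hP hc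
  exact ⟨h5, h6, p, q, h3, h1, h2, h4.symm⟩

end Pool.ETM
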