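/-
Project ETM (MP_c7bb65_an), block FIN.
MODULE FnA.  Pull back of a graph whose edges may end in `P` (13.1): vertices and edges (from block LE).
-/
import Mathlib
import Pool.Agent.ETM.RyDefs
import Pool.Agent.ETM.RyL

set_option autoImplicit false

open Set Metric Topology Filter
open Pool.JS

namespace Pool.ETM

variable {X : Type*} [TopologicalSpace X] [CompactSpace X] [T2Space X] [Sph X] {f : X → X} {P W : Set X} {E : Set (Set X)}

/-- the edges of the pull back: the closures of the components of the preimages of the open edges -/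
abbrev pb (f : X → X) (W : Set X) (E : Set (Set X)) : Set (Set X) := pullO f W E

theorem fna_pg (hD : Dyn f P) (h : PG W E) (hc : ⋃₀ E ∩ P ⊆ W) : PG (f ⁻¹' W) (pb f W E) ∧
    ⋃₀ pb f W E = f ⁻¹' ⋃₀ E ∧ ∀ c ∈ pb f W E, InjOn f c ∧ f '' c ∈ E := by
  have hP : ∀ e ∈ E, Disjoint (e \ W) P := by
    intro e he
    rw [Set.disjoint_left]
    intro x hx hxP
    exact hx.2 (hc ⟨⟨e, he, hx.1⟩, hxP⟩)
  refine ⟨hD.pg_pullO h hP, hD.sUnion_pullO h hP, ?_⟩
  rintro c ⟨e, he, W', hW', rfl⟩
  obtain ⟨a, ha, b, hb, harc, hab⟩ := h.arc e he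
  have h1 : e \ W = e \ {a, b} := by
    rw [← hab]
    ext x
    simp
  rw [h1] at hW'
  have h2 := hP e he
  rw [h1] at h2
  obtain ⟨h3, h4, -⟩ := ryl_arc' hD harc h2 hW'
  exact ⟨h3, by rw [h4]; exact he⟩

end Pool.ETM
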