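/-
Project ETM (MP_c7bb65_an), block FIN.
MODULE FnB (difficulty 3).  Pull back of a graph: faces (13.1), and the pull back of a state.

RECIPE.  `fnb_faces`: `V ∈ Fc E'` means that `V` is a component of `(⋃₀ E')ᶜ = f ⁻¹' (⋃₀ E)ᶜ` (`FaceX`).  From left to right: `f '' V` is preconnected and disjoint from `⋃₀ E`, it meets the face `U` containing `f v` (`v ∈ V`, `Fc.exists_mem`), so `f '' V ⊆ U` (`FaceX.max`) and `V` is a component of `f ⁻¹' U` (a preconnected `C ⊆ f ⁻¹' U` is contained in `f ⁻¹' (⋃₀ E)ᶜ`).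
From right to left: a preconnected `C ⊆ f ⁻¹' (⋃₀ E)ᶜ` which meets `V`: `f '' C` is preconnected, disjoint from `⋃₀ E` and meets `U`, so `f '' C ⊆ U`, `C ⊆ f ⁻¹' U`, `C ⊆ V`.
`fnb_disc`: `V` is a component of `f ⁻¹' U`, `U ∈ Fc E` a Jordan domain.  If `U` is disjoint from `P`: `ryl_disc'`.  Otherwise there is `p ∈ U ∩ P`; `closure U ∩ P` is subsingleton, so `frontier U ∩ P = ∅` (`U` is open, so disjoint from its frontier): `ryl_disc`.
`Sta.pull`: `pg` by `fna_pg`.  `ne`: `f` is surjective and `⋃₀ E` is nonempty.  `mapG`, `mapW`: clear from `Sta.mapG`, `Sta.mapW`.  `car`: `x ∈ P`, `f x ∈ ⋃₀ E`, `f x ∈ P`, so `f x ∈ W`.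
`one`: a face `V` of the new graph is preconnected and disjoint from `f ⁻¹' ⋃₀ E ⊇ ⋃₀ E` (`Sta.mapG`), so it is contained in a face `U'` of `E`, `closure V ⊆ closure U'`.
-/
import Mathlib
import Pool.Agent.ETM.FnA

set_option autoImplicit false

open Set Metric Topology Filter
open Pool.JS

namespace Pool.ETM

variable {X : Type*} [MetricSpace X] [CompactSpace X] [Sph X] {f : X → X} {P W : Set X} {E E' : Set (Set X)}

omit [CompactSpace X] [Sph X] in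
theorem fnb_comp (V : Set X) (E : Set (Set X)) : V ∈ Fc E ↔ IsComp V (⋃₀ E)ᶜ := by
  show FaceX (⋃₀ E) V ↔ FaceX ((⋃₀ E)ᶜ)ᶜ V
  rw [compl_compl]

theorem fnb_faces (hD : Dyn f P) (hE' : ⋃₀ E' = f ⁻¹' ⋃₀ E) (V : Set X) :
    V ∈ Fc E' ↔ ∃ U ∈ Fc E, IsComp V (f ⁻¹' U) := by
  rw [fnb_comp, hE', ← preimage_compl, isComp_preimage_iff hD.cont]
  constructor
  · rintro ⟨U, hU, hV⟩
    exact ⟨U, (fnb_comp U E).2 hU, hV⟩
  · rintro ⟨U, hU, hV⟩
    exact ⟨U, (fnb_comp U E).1 hU, hV⟩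

theorem fnb_disc (hD : Dyn f P) (h : Sta f P W E) (hE' : ⋃₀ E' = f ⁻¹' ⋃₀ E) {V : Set X} (hV : V ∈ Fc E') : JDom V := by
  obtain ⟨U, hU, hVU⟩ := (fnb_faces hD hE' V).1 hV
  have hj := h.disc U hU
  by_cases hd : Disjoint U P
  · exact (ryl_disc' hD hj hd hVU).1
  · rw [Set.not_disjoint_iff] at hd
    obtain ⟨p, hpU, hpP⟩ := hd
    have h1 := h.one U hU
    refine (ryl_disc hD hj (h1.anti (inter_subset_inter_left P subset_closure)) ?_ hVU).1
    rw [Set.disjoint_left]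
    intro y hy hyP
    have h2 : y = p := h1 ⟨frontier_subset_closure hy, hyP⟩ ⟨subset_closure hpU, hpP⟩
    rw [h2] at hy
    rw [hj.isOpen.frontier_eq] at hy
    exact hy.2 hpU

theorem Sta.pull (hD : Dyn f P) (h : Sta f P W E) : Sta f P (f ⁻¹' W) (pb f W E) := by
  obtain ⟨hpg, hE', -⟩ := fna_pg hD h.pg h.car
  refine ⟨hpg, ?_, fun U hU => fnb_disc hD h hE' hU, ?_, ?_, ?_, ?_⟩
  · obtain ⟨e, he⟩ := h.ne
    obtain ⟨p, -, q, -, -, hpq⟩ := h.pg.arc e he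
    have hp : p ∈ e ∩ W := by
      rw [hpq]
      exact Or.inl rfl
    obtain ⟨x, hx⟩ := hD.surj p
    have h1 : x ∈ ⋃₀ pb f W E := by
      rw [hE', mem_preimage, hx]
      exact ⟨e, he, hp.1⟩
    obtain ⟨c, hc, -⟩ := h1
    exact ⟨c, hc⟩
  · intro x hx
    rw [hE'] at hx ⊢
    exact h.mapG hx
  · intro x hx
    exact h.mapW hx
  · rintro x ⟨hx, hxP⟩
    rw [hE'] at hx
    exact h.car ⟨hx, hD.mapsP hxP⟩
  · intro V hV
    obtain ⟨x, hx⟩ := hV.ne
    have hsub : V ⊆ (⋃₀ E)ᶜ := by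
      intro y hy hyE
      have h1 : y ∈ (⋃₀ pb f W E)ᶜ := hV.sub hy
      rw [hE'] at h1
      exact h1 (h.mapG hyE)
    obtain ⟨U, hU, hxU⟩ := Fc.exists_mem (E := E) (hsub hx)
    have hVU : V ⊆ U := hU.max V hV.conn hsub ⟨x, hx, hxU⟩
    exact (h.one U hU).anti (inter_subset_inter_left P (closure_mono hVU))

end Pool.ETM
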