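/-
Project ETM (MP_c7bb65_an), block FIN.
MODULE FnC (difficulty 2).  After finitely many pull backs the vertices contain `P`.

RECIPE.  `fnc_time`: for `x ∈ P` the points `f^[n] x`, `n : ℕ`, are in the finite set `P` (`Dyn.mapsP`), so there are `i < j` with `f^[i] x = f^[j] x` (`Finite.exists_ne_map_eq_of_infinite` or pigeonhole); `y = f^[i] x` satisfies `f^[j - i] y = y`, so `y ∈ Pc f P`, and then `f^[n] x ∈ Pc f P` for all `n ≥ i` (`f` maps `Pc f P` to itself).  Take `N` as the maximum over the finite set `P`.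
`fnc_stage`: induction: for every `n` there is `E'` with `Sta f P (f^[n] ⁻¹' W) E'` (`Sta.pull`, `f ⁻¹' (f^[n] ⁻¹' W) = f^[n + 1] ⁻¹' W`).  For `n = N`: `P ⊆ f^[N] ⁻¹' W` because `f^[N] x ∈ Pc f P ⊆ W`.
-/
import Mathlib
import Pool.Agent.ETM.FnB

set_option autoImplicit false

open Set Metric Topology Filter
open Pool.JS

namespace Pool.ETM

variable {X : Type*} [MetricSpace X] [CompactSpace X] [Sph X] {f : X → X} {P W : Set X} {E : Set (Set X)}

theorem fnc_inv {z : X} (hD : Dyn f P) (hz : z ∈ Pc f P) (m : ℕ) : f^[m] z ∈ Pc f P := by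
  obtain ⟨hzP, j, hj, hjz⟩ := hz
  refine ⟨hD.mapsP.iterate m hzP, j, hj, ?_⟩
  rw [← Function.iterate_add_apply, add_comm, Function.iterate_add_apply, hjz]

theorem fnc_pt (hD : Dyn f P) {x : X} (hx : x ∈ P) : ∃ N : ℕ, ∀ n ≥ N, f^[n] x ∈ Pc f P := by
  have hmem : ∀ n, f^[n] x ∈ P := fun n => hD.mapsP.iterate n hx
  have : Finite P := hD.finP.to_subtype
  obtain ⟨i, j, hij, he⟩ := Finite.exists_ne_map_eq_of_infinite (fun n : ℕ => (⟨f^[n] x, hmem n⟩ : P))
  have he' : f^[i] x = f^[j] x := congrArg Subtype.val he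
  have key : ∀ i j : ℕ, i < j → f^[i] x = f^[j] x → ∃ N : ℕ, ∀ n ≥ N, f^[n] x ∈ Pc f P := by
    intro i j hij he
    refine ⟨i, fun n hn => ?_⟩
    have h1 : f^[i] x ∈ Pc f P := by
      refine ⟨hmem i, j - i, by omega, ?_⟩
      rw [← Function.iterate_add_apply]
      have : j - i + i = j := by omega
      rw [this, he]
    have h2 := fnc_inv hD h1 (n - i)
    rw [← Function.iterate_add_apply] at h2
    have h3 : n - i + i = n := by omega
    rw [h3] at h2
    exact h2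
  rcases lt_or_gt_of_ne hij with h | h
  · exact key i j h he'
  · exact key j i h he'.symm

theorem fnc_time (hD : Dyn f P) : ∃ N : ℕ, ∀ x ∈ P, f^[N] x ∈ Pc f P := by
  choose! N hN using fun (x : X) (hx : x ∈ P) => fnc_pt hD hx
  obtain ⟨M, hM⟩ := (hD.finP.image N).bddAbove
  exact ⟨M, fun x hx => hN x hx M (hM ⟨x, hx, rfl⟩)⟩

theorem fnc_stage (hD : Dyn f P) (h : Sta f P W E) (hW : Pc f P ⊆ W) :
    ∃ (W' : Set X) (E' : Set (Set X)), Sta f P W' E' ∧ P ⊆ W' := by
  have key : ∀ n : ℕ, ∃ E', Sta f P (f^[n] ⁻¹' W) E' := by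
    intro n
    induction n with
    | zero => exact ⟨E, h⟩
    | succ n ih =>
      obtain ⟨E', hE'⟩ := ih
      refine ⟨pb f (f^[n] ⁻¹' W) E', ?_⟩
      have h1 : f^[n + 1] ⁻¹' W = f ⁻¹' (f^[n] ⁻¹' W) := by
        rw [Function.iterate_succ]
        rfl
      rw [h1]
      exact Sta.pull hD hE'
  obtain ⟨N, hN⟩ := fnc_time hD
  obtain ⟨E', hE'⟩ := key N
  exact ⟨f^[N] ⁻¹' W, E', hE', fun x hx => hW (hN x hx)⟩

end Pool.ETM
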