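/-
Project ETM (MP_c7bb65_an), block FIN.
MODULE FnD (difficulty 3).  A larger graph refines the edges (13.2).

RECIPE.  `fnd_eq`: let `γ` parametrise the arc `e`, `γ 0 = p`, `γ 1 = q`; if `γ r ∉ C`, then the connected set `C` (which contains `p` and `q`) would be covered by the closed sets `γ '' Icc 0 r` and `γ '' Icc r 1`, whose intersection is `{γ r}`: contradiction (`isPreconnected_closed_iff`).
`fnd_sub`: let `G = ⋃₀ E`.  `PG.subdiv` with the finite set `W' ∩ G` gives `E₁`, `PG (W ∪ (W' ∩ G)) E₁`, `⋃₀ E₁ = G`, every `e₁ ∈ E₁` is contained in some `e ∈ E`.  Claim `E₁ ⊆ E'`: let `e₁ ∈ E₁`, `ArcX e₁ p q`; as `e₁ ⊆ G` and `W ⊆ W'` one has `e₁ ∩ W' = {p, q}`.  `C = e₁ \ {p, q}` is connected, nonempty, `C ⊆ ⋃₀ E' \ W'`, and dense in `e₁`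
(`ArcX.interior` of JS).  It meets some `e' ∈ E'`, so `C ⊆ e'` (`PG.inner_sub`) and `e₁ ⊆ e'` (closed).  `p ≠ q` are in `e' ∩ W' = {p', q'}`, so they are the end points of `e'` (up to order) and `e₁ = e'` by `fnd_eq`.
`fnd_edge`: if there is `x ∈ e' ∩ G`, `x ∉ W'`, then `x ∈ e₁ ∈ E₁ ⊆ E'` and `e' = e₁` (`PG.inter` of `h'`), contained in an edge of `E`.
`fnd_union`: `S = {e₁ ∈ E₁ | e₁ ⊆ e}`.  `x ∈ e \ W` is in some `e₁ ∈ E₁`, `e₁ ⊆ e₂ ∈ E`, so `e₂ = e` (`PG.inter` of `h`), `e₁ ∈ S`.  So `e \ W ⊆ ⋃₀ S`, which is closed (`PG.isClosed_sUnion`), and `e \ W` is dense in `e`.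
-/
import Mathlib
import Pool.Agent.ETM.RyDefs
import Pool.Agent.JS.ThD

set_option autoImplicit false

open Set Metric Topology Filter
open Pool.JS

namespace Pool.ETM

variable {X : Type*} [TopologicalSpace X] [CompactSpace X] [T2Space X] [Sph X] {W W' C e : Set X} {E E' : Set (Set X)}
  {p q : X}

theorem fnd_eq (h : ArcX e p q) (hC : IsPreconnected C) (hCe : C ⊆ e) (hp : p ∈ C) (hq : q ∈ C) : C = e := by
  obtain ⟨γ, hγc, hγi, hγe, hγ0, hγ1⟩ := h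
  apply Subset.antisymm hCe
  intro x hx
  rw [← hγe] at hx
  obtain ⟨r, hr, rfl⟩ := hx
  by_contra hxC
  have h0 : (0 : ℝ) ∈ Icc (0 : ℝ) 1 := ⟨le_rfl, zero_le_one⟩
  have hs1 : Icc (0 : ℝ) r ⊆ Icc 0 1 := Icc_subset_Icc le_rfl hr.2
  have hs2 : Icc r (1 : ℝ) ⊆ Icc 0 1 := Icc_subset_Icc hr.1 le_rfl
  have hA : IsClosed (γ '' Icc 0 r) := (isCompact_Icc.image_of_continuousOn (hγc.mono hs1)).isClosed
  have hB : IsClosed (γ '' Icc r 1) := (isCompact_Icc.image_of_continuousOn (hγc.mono hs2)).isClosed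
  have hcov : C ⊆ γ '' Icc 0 r ∪ γ '' Icc r 1 := by
    intro y hy
    have hy' := hCe hy
    rw [← hγe] at hy'
    obtain ⟨t, ht, rfl⟩ := hy'
    rcases le_total t r with htr | htr
    · exact Or.inl ⟨t, ⟨ht.1, htr⟩, rfl⟩
    · exact Or.inr ⟨t, ⟨htr, ht.2⟩, rfl⟩
  obtain ⟨y, hyC, ⟨s, hs, hsy⟩, ⟨t, ht, hty⟩⟩ := isPreconnected_closed_iff.1 hC _ _ hA hB hcov
    ⟨p, hp, 0, ⟨le_rfl, hr.1⟩, hγ0⟩ ⟨q, hq, 1, ⟨hr.2, le_rfl⟩, hγ1⟩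
  have hst : s = t := hγi (hs1 hs) (hs2 ht) (hsy.trans hty.symm)
  have hsr : s = r := le_antisymm hs.2 (hst ▸ ht.1)
  apply hxC
  rw [← hsr, hsy]
  exact hyC

theorem fnd_closed (h : PG W E) (he : e ∈ E) : IsClosed e := by
  obtain ⟨p, -, q, -, hA, -⟩ := h.arc e he
  exact hA.isCompact.isClosed

theorem fnd_sub (h : PG W E) (h' : PG W' E') (hW : W ⊆ W') (hG : ⋃₀ E ⊆ ⋃₀ E') :
    ∃ E₁ ⊆ E', PG (W ∪ (W' ∩ ⋃₀ E)) E₁ ∧ ⋃₀ E₁ = ⋃₀ E ∧ ∀ e₁ ∈ E₁, ∃ e ∈ E, e₁ ⊆ e := by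
  obtain ⟨E₁, hE₁, hU, hsub⟩ := h.subdiv (W := W' ∩ ⋃₀ E) (h'.finV.subset inter_subset_left) inter_subset_right
  refine ⟨E₁, ?_, hE₁, hU, hsub⟩
  intro e₁ he₁
  obtain ⟨p, hp, q, hq, hA, hV⟩ := hE₁.arc e₁ he₁
  have he₁G : e₁ ⊆ ⋃₀ E := by
    rw [← hU]
    exact subset_sUnion_of_mem he₁
  have hsubW : W ∪ (W' ∩ ⋃₀ E) ⊆ W' := union_subset hW inter_subset_left
  have hV' : e₁ ∩ W' = {p, q} := by
    rw [← hV]
    apply Subset.antisymm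
    · rintro x ⟨hx1, hx2⟩
      exact ⟨hx1, Or.inr ⟨hx2, he₁G hx1⟩⟩
    · exact inter_subset_inter_right _ hsubW
  obtain ⟨hconn, hdense⟩ := hA.interior
  have hCs : e₁ \ {p, q} ⊆ ⋃₀ E' \ W' := by
    rintro x ⟨hx1, hx2⟩
    refine ⟨hG (he₁G hx1), fun hx3 => hx2 ?_⟩
    rw [← hV']
    exact ⟨hx1, hx3⟩
  obtain ⟨x₀, hx₀⟩ := hconn.nonempty
  obtain ⟨e', he', hx₀e⟩ := (hCs hx₀).1
  have h1 : e₁ \ {p, q} ⊆ e' := h'.inner_sub hconn.isPreconnected hCs he' hx₀ hx₀e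
  have h2 : e₁ ⊆ e' := hdense.trans (closure_minimal h1 (fnd_closed h' he'))
  obtain ⟨p', -, q', -, hA', hV''⟩ := h'.arc e' he'
  have hpW : p ∈ e₁ ∩ W' := by rw [hV']; exact Or.inl rfl
  have hqW : q ∈ e₁ ∩ W' := by rw [hV']; exact Or.inr rfl
  have hp1 : p ∈ ({p', q'} : Set X) := by
    rw [← hV'']
    exact ⟨h2 hpW.1, hpW.2⟩
  have hq1 : q ∈ ({p', q'} : Set X) := by
    rw [← hV'']
    exact ⟨h2 hqW.1, hqW.2⟩
  have hne := hA.ne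
  have h3 : e₁ = e' := by
    rcases hp1 with hp1 | hp1 <;> rcases hq1 with hq1 | hq1
    · exact absurd (hp1.trans hq1.symm) hne
    · have hq2 : q = q' := hq1
      subst hp1 hq2
      exact fnd_eq hA' hA.isConnected.isPreconnected h2 hpW.1 hqW.1
    · have hp2 : p = q' := hp1
      subst hq1 hp2
      exact fnd_eq hA' hA.isConnected.isPreconnected h2 hqW.1 hpW.1
    · exact absurd (hp1.trans hq1.symm) hne
  rw [h3]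
  exact he'

theorem fnd_edge (h : PG W E) (h' : PG W' E') (hW : W ⊆ W') (hG : ⋃₀ E ⊆ ⋃₀ E') {e' : Set X} (he' : e' ∈ E') :
    (∃ e ∈ E, e' ⊆ e) ∨ e' ∩ ⋃₀ E ⊆ W' := by
  by_cases hx : e' ∩ ⋃₀ E ⊆ W'
  · exact Or.inr hx
  · left
    rw [not_subset] at hx
    obtain ⟨x, ⟨hxe, hxE⟩, hxW⟩ := hx
    obtain ⟨E₁, hE₁sub, hE₁, hU, hsub⟩ := fnd_sub h h' hW hG
    rw [← hU] at hxE
    obtain ⟨e₁, he₁, hxe₁⟩ := hxE
    have h1 : e' = e₁ := by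
      by_contra hne
      exact hxW (h'.inter e' he' e₁ (hE₁sub he₁) hne ⟨hxe, hxe₁⟩)
    rw [h1]
    exact hsub e₁ he₁

theorem fnd_union (h : PG W E) (h' : PG W' E') (hW : W ⊆ W') (hG : ⋃₀ E ⊆ ⋃₀ E') (he : e ∈ E) :
    ∃ S ⊆ E', e = ⋃₀ S := by
  obtain ⟨E₁, hE₁sub, hE₁, hU, hsub⟩ := fnd_sub h h' hW hG
  have hS : {e₁ | e₁ ∈ E₁ ∧ e₁ ⊆ e} ⊆ E₁ := fun e₁ h => h.1
  refine ⟨{e₁ | e₁ ∈ E₁ ∧ e₁ ⊆ e}, hS.trans hE₁sub, ?_⟩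
  apply Subset.antisymm
  · obtain ⟨p, hp, q, hq, hA, hV⟩ := h.arc e he
    have hd : e \ {p, q} = e \ W := by
      rw [← hV]
      ext x
      constructor
      · rintro ⟨hx1, hx2⟩
        exact ⟨hx1, fun hx3 => hx2 ⟨hx1, hx3⟩⟩
      · rintro ⟨hx1, hx2⟩
        exact ⟨hx1, fun hx3 => hx2 hx3.2⟩
    have h1 : e \ W ⊆ ⋃₀ {e₁ | e₁ ∈ E₁ ∧ e₁ ⊆ e} := by
      rintro x ⟨hx1, hx2⟩
      have hxG : x ∈ ⋃₀ E₁ := by
        rw [hU]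
        exact ⟨e, he, hx1⟩
      obtain ⟨e₁, he₁, hxe₁⟩ := hxG
      obtain ⟨e₂, he₂, he₁₂⟩ := hsub e₁ he₁
      have h2 : e = e₂ := by
        by_contra hne
        exact hx2 (h.inter e he e₂ he₂ hne ⟨hx1, he₁₂ hxe₁⟩)
      exact ⟨e₁, ⟨he₁, h2 ▸ he₁₂⟩, hxe₁⟩
    have h3 := hA.interior.2
    rw [hd] at h3
    exact h3.trans (closure_minimal h1 (hE₁.isClosed_sUnion hS))
  · exact sUnion_subset (fun e₁ he₁ => he₁.2)

end Pool.ETM
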