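/-
Project ETM (MP_c7bb65_an). The definitions of the final statement: branched coverings, critical points, the postcritical set,
expansion, cells, cell decompositions, refinement and cellular maps.
-/
import Mathlib

set_option autoImplicit false

open Set Metric Topology Filter

namespace Pool.CellMarkov

variable {X : Type*}

/-- `f` is locally of the form `z ↦ z ^ d` in suitable charts around `p` and `f p` -/
def LocPow [TopologicalSpace X] (f : X → X) (p : X) (d : ℕ) : Prop :=
  ∃ φ ψ : OpenPartialHomeomorph X ℂ, p ∈ φ.source ∧ φ p = 0 ∧ f p ∈ ψ.source ∧ ψ (f p) = 0 ∧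
    ∀ x ∈ φ.source, f x ∈ ψ.source ∧ ψ (f x) = φ x ^ d

/-- `f` is a branched covering of the compact surface `X` -/
def IsBranchedCover [TopologicalSpace X] (f : X → X) : Prop :=
  Continuous f ∧ ∀ p, ∃ d : ℕ, 1 ≤ d ∧ LocPow f p d

/-- the critical points: the points at which `f` is not locally injective -/
def crit [TopologicalSpace X] (f : X → X) : Set X := {p | ∀ O ∈ 𝓝 p, ¬ InjOn f O}

/-- the postcritical set -/
def post [TopologicalSpace X] (f : X → X) : Set X := ⋃ n : ℕ, f^[n + 1] '' crit f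

/-- `f` is a Thurston map: a branched covering which is not injective (so of degree at least two) with a finite postcritical
set -/
structure IsThurston [TopologicalSpace X] (f : X → X) : Prop where
  branched : IsBranchedCover f
  deg : ¬ Function.Injective f
  post_fin : (post f).Finite

/-- `U` is a component of `S` -/
def IsCompOf [TopologicalSpace X] (U S : Set X) : Prop := ∃ x ∈ S, U = connectedComponentIn S x

/-- `f` is expanding: there is a Jordan curve `C` containing the postcritical set such that the diameters of the closures of the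
components of the complement of `f⁻ⁿ(C)` tend to zero -/
def IsExpanding [MetricSpace X] (f : X → X) : Prop :=
  ∃ C : Set X, Nonempty (Circle ≃ₜ C) ∧ post f ⊆ C ∧
    ∀ ε : ℝ, 0 < ε → ∃ N : ℕ, ∀ n ≥ N, ∀ U : Set X, IsCompOf U (f^[n] ⁻¹' C)ᶜ → diam (closure U) < ε

/-- `c` is a cell of dimension `k` with boundary `b`: there is a homeomorphism from the cube `[0,1]^k` onto `c` which maps the
boundary of the cube onto `b` -/
def IsCell [TopologicalSpace X] (k : ℕ) (c b : Set X) : Prop :=
  ∃ Φ : (Icc (0 : Fin k → ℝ) 1 : Set (Fin k → ℝ)) ≃ₜ c,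
    b = {x | ∃ y : (Icc (0 : Fin k → ℝ) 1 : Set (Fin k → ℝ)), (∃ i, (y : Fin k → ℝ) i = 0 ∨ (y : Fin k → ℝ) i = 1) ∧
      (Φ y : X) = x}

/-- cell decompositions -/
def CellDecomp [TopologicalSpace X] (D : Set (Set X)) : Prop :=
  D.Finite ∧ ⋃₀ D = univ ∧ ∃ (dim : Set X → ℕ) (bd : Set X → Set X),
    (∀ c ∈ D, dim c ≤ 2 ∧ IsCell (dim c) c (bd c) ∧ ∃ S ⊆ D, (∀ c' ∈ S, dim c' < dim c) ∧ bd c = ⋃₀ S) ∧
    ∀ c ∈ D, ∀ c' ∈ D, c ≠ c' → Disjoint (c \ bd c) (c' \ bd c')

/-- `D'` refines `D` -/
def Refines (D' D : Set (Set X)) : Prop :=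
  (∀ c' ∈ D', ∃ c ∈ D, c' ⊆ c) ∧ ∀ c ∈ D, ∃ S ⊆ D', c = ⋃₀ S

/-- `f` maps every cell of `D'` homeomorphically onto a cell of `D` -/
def Cellular [TopologicalSpace X] (f : X → X) (D' D : Set (Set X)) : Prop :=
  ∀ c' ∈ D', ∃ c ∈ D, ∃ h : c' ≃ₜ c, ∀ x : c', (h x : X) = f x

/-- `f` has a cellular Markov partition -/
def HasCellularMarkovPartition [TopologicalSpace X] (f : X → X) : Prop :=
  ∃ D' D : Set (Set X), CellDecomp D' ∧ CellDecomp D ∧ Cellular f D' D ∧ Refines D' D

end Pool.CellMarkov
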