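/-
Project ETM (MP_c7bb65_an), block FIN.
MODULE FnE (difficulty 3).  Points, arcs and closed discs are cells.

RECIPE.  `IsCell k c b` is defined in ETM/FnDefs: a homeomorphism from the cube `Icc 0 1` of `Fin k → ℝ` onto `c`.
`isCell_point`: `Icc (0 : Fin 0 → ℝ) 1` and `{x}` are one point spaces; `∃ i : Fin 0, ..` is false.  `ArcX.isCell`: let `γ` parametrise `e`; the map `y ↦ γ (y 0)` from the compact `Icc (0 : Fin 1 → ℝ) 1` is a continuous bijection onto `e`: `Continuous.homeoOfEquivCompactToT2` (`Equiv.ofBijective`); the boundary points `y 0 = 0`, `y 0 = 1` go to `γ 0 = p`, `γ 1 = q`.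
`DiscX.isCell`: it suffices to find a homeomorphism `θ` from `Fin 2 → ℝ` to `ℂ` with `θ '' Icc 0 1 = closedBall 0 1` and `θ '' {y ∈ Icc 0 1 | ∃ i, y i = 0 ∨ y i = 1} = sphere 0 1`; then `Φ ∘ θ` restricted to the cube is a continuous bijection onto `D`.  For `θ`: a linear homeomorphism `Fin 2 → ℝ ≃L[ℝ] ℂ` maps the convex compact set `Icc 0 1`, which has nonempty interior, onto such a set `s`, and
`exists_homeomorph_image_interior_closure_frontier_eq_unitBall` (Mathlib.Analysis.Convex.GaugeRescale) gives a homeomorphism of `ℂ` which maps `interior s`, `closure s`, `frontier s` onto the open ball, the closed ball, the sphere.  The interior of `Icc (0 : Fin 2 → ℝ) 1` is `Set.pi univ (fun _ => Ioo 0 1)` (`interior_pi_set`, `Icc` as a `Set.pi`: `Set.pi_univ_Icc`), so the frontier is the stated set.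
-/
import Mathlib
import Pool.Agent.ETM.FnDefs
import Pool.Agent.JS.SpDefs

set_option autoImplicit false

open Set Metric Topology Filter
open Pool.JS

namespace Pool.ETM

open Pool.CellMarkov

variable {X : Type*} [TopologicalSpace X] [T2Space X] {D J U e : Set X} {p q : X}

private theorem fne_cell {k : ℕ} {g : (Fin k → ℝ) → X} {c b : Set X} (hc : ContinuousOn g (Icc 0 1))
    (hi : InjOn g (Icc 0 1)) (him : g '' Icc 0 1 = c)
    (hb : b = g '' {y | y ∈ Icc (0 : Fin k → ℝ) 1 ∧ ∃ i, y i = 0 ∨ y i = 1}) : IsCell k c b := by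
  subst him hb
  have hK : IsCompact (Icc (0 : Fin k → ℝ) 1) := isCompact_Icc
  haveI : CompactSpace (Icc (0 : Fin k → ℝ) 1 : Set (Fin k → ℝ)) := isCompact_iff_compactSpace.mp hK
  let F : (Icc (0 : Fin k → ℝ) 1 : Set (Fin k → ℝ)) → (g '' Icc 0 1 : Set X) := fun y => ⟨g y, mem_image_of_mem g y.2⟩
  have hF : Function.Bijective F := by
    constructor
    · intro y y' h
      exact Subtype.ext (hi y.2 y'.2 (congrArg Subtype.val h))
    · rintro ⟨_, y, hy, rfl⟩
      exact ⟨⟨y, hy⟩, rfl⟩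
  have hFc : Continuous F := (continuousOn_iff_continuous_restrict.mp hc).subtype_mk _
  refine ⟨Continuous.homeoOfEquivCompactToT2 (f := Equiv.ofBijective F hF) hFc, ?_⟩
  ext x
  constructor
  · rintro ⟨y, ⟨hy, h⟩, rfl⟩
    exact ⟨⟨y, hy⟩, h, rfl⟩
  · rintro ⟨y, h, rfl⟩
    exact ⟨y, ⟨y.2, h⟩, rfl⟩

theorem isCell_point (x : X) : IsCell 0 ({x} : Set X) ∅ := by
  refine fne_cell (g := fun _ => x) continuousOn_const (fun y _ y' _ _ => Subsingleton.elim _ _) ?_ ?_
  · ext z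
    constructor
    · rintro ⟨_, _, rfl⟩
      exact rfl
    · rintro rfl
      exact ⟨0, ⟨le_refl _, fun i => i.elim0⟩, rfl⟩
  · symm
    rw [image_eq_empty]
    ext y
    simp

theorem isCell_arc (h : ArcX e p q) : IsCell 1 e {p, q} := by
  obtain ⟨γ, h1, h2, h3, h4, h5⟩ := h
  have hm : MapsTo (fun y : Fin 1 → ℝ => y 0) (Icc 0 1) (Icc 0 1) := fun y hy => ⟨hy.1 0, hy.2 0⟩
  have hc : ∀ t : ℝ, t ∈ Icc (0 : ℝ) 1 → (fun _ : Fin 1 => t) ∈ Icc (0 : Fin 1 → ℝ) 1 := fun t ht =>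
    ⟨fun _ => ht.1, fun _ => ht.2⟩
  refine fne_cell (g := fun y => γ (y 0)) (h1.comp (continuous_apply 0).continuousOn hm) ?_ ?_ ?_
  · intro y hy y' hy' heq
    have h6 := h2 (hm hy) (hm hy') heq
    funext i
    rw [Subsingleton.elim i 0]
    exact h6
  · rw [← h3]
    ext x
    constructor
    · rintro ⟨y, hy, rfl⟩
      exact ⟨y 0, hm hy, rfl⟩
    · rintro ⟨t, ht, rfl⟩
      exact ⟨fun _ => t, hc t ht, rfl⟩
  · ext x
    constructor
    · rintro (rfl | hx)
      · exact ⟨fun _ => 0, ⟨hc 0 ⟨le_refl _, zero_le_one⟩, 0, Or.inl rfl⟩, h4⟩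
      · rw [mem_singleton_iff] at hx
        subst hx
        exact ⟨fun _ => 1, ⟨hc 1 ⟨zero_le_one, le_refl _⟩, 0, Or.inr rfl⟩, h5⟩
    · rintro ⟨y, ⟨hy, i, h6⟩, rfl⟩
      rw [Subsingleton.elim i 0] at h6
      rcases h6 with h6 | h6
      · left
        show γ (y 0) = p
        rw [h6, h4]
      · right
        show γ (y 0) = q
        rw [h6, h5]

private theorem fne_frontier : frontier (Icc (0 : Fin 2 → ℝ) 1) =
    {y | y ∈ Icc (0 : Fin 2 → ℝ) 1 ∧ ∃ i, y i = 0 ∨ y i = 1} := by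
  have h1 : interior (Icc (0 : Fin 2 → ℝ) 1) = Set.pi univ fun _ => Ioo (0 : ℝ) 1 := by
    rw [← Set.pi_univ_Icc, interior_pi_set finite_univ]
    simp only [Pi.zero_apply, Pi.one_apply, interior_Icc]
  rw [isClosed_Icc.frontier_eq, h1]
  ext y
  simp only [mem_diff, mem_setOf_eq, Set.mem_pi, mem_univ, true_implies, not_forall]
  constructor
  · rintro ⟨hy, i, hi⟩
    refine ⟨hy, i, ?_⟩
    by_contra hn
    push Not at hn
    exact hi ⟨lt_of_le_of_ne (hy.1 i) (Ne.symm hn.1), lt_of_le_of_ne (hy.2 i) hn.2⟩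
  · rintro ⟨hy, i, hi⟩
    refine ⟨hy, i, fun h => ?_⟩
    rcases hi with hi | hi
    · exact absurd h.1 (by rw [hi]; exact lt_irrefl _)
    · exact absurd h.2 (by rw [hi]; exact lt_irrefl _)

private theorem fne_theta : ∃ θ : (Fin 2 → ℝ) ≃ₜ ℂ, θ '' Icc 0 1 = closedBall 0 1 ∧
    θ '' {y | y ∈ Icc (0 : Fin 2 → ℝ) 1 ∧ ∃ i, y i = 0 ∨ y i = 1} = sphere 0 1 := by
  have hfr : Module.finrank ℝ (Fin 2 → ℝ) = Module.finrank ℝ ℂ := by
    rw [Complex.finrank_real_complex, Module.finrank_fin_fun]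
  let L : (Fin 2 → ℝ) ≃L[ℝ] ℂ := ContinuousLinearEquiv.ofFinrankEq hfr
  have hc : Convex ℝ (L.toHomeomorph '' Icc (0 : Fin 2 → ℝ) 1) :=
    (convex_Icc (0 : Fin 2 → ℝ) 1).linear_image L.toLinearEquiv.toLinearMap
  have hne : (interior (L.toHomeomorph '' Icc (0 : Fin 2 → ℝ) 1)).Nonempty := by
    rw [← L.toHomeomorph.image_interior]
    refine Nonempty.image _ ⟨fun _ => 1 / 2, ?_⟩
    rw [← Set.pi_univ_Icc, interior_pi_set finite_univ]
    simp only [Pi.zero_apply, Pi.one_apply, interior_Icc]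
    intro i _
    norm_num
  have hK : IsCompact (L.toHomeomorph '' Icc (0 : Fin 2 → ℝ) 1) := isCompact_Icc.image L.toHomeomorph.continuous
  obtain ⟨h, h1, h2, h3⟩ := exists_homeomorph_image_interior_closure_frontier_eq_unitBall hc hne hK.isBounded
  refine ⟨L.toHomeomorph.trans h, ?_, ?_⟩
  · rw [← h2, hK.isClosed.closure_eq]
    exact image_comp h L.toHomeomorph _
  · rw [← h3, ← fne_frontier, ← L.toHomeomorph.image_frontier]
    exact image_comp h L.toHomeomorph _

theorem isCell_disc (h : DiscX D J U) : IsCell 2 D J := by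
  obtain ⟨Φ, h1, h2, h3, h4, h5⟩ := h
  obtain ⟨θ, h6, h7⟩ := fne_theta
  have hm : MapsTo θ (Icc 0 1) (closedBall 0 1) := by
    rw [← h6]
    exact mapsTo_image _ _
  refine fne_cell (g := fun y => Φ (θ y)) (h1.comp θ.continuous.continuousOn hm) ?_ ?_ ?_
  · intro y hy y' hy' heq
    exact θ.injective (h2 (hm hy) (hm hy') heq)
  · rw [← h3, ← h6]
    exact image_comp Φ θ _
  · rw [← h4, ← h7]
    exact (image_comp Φ θ _).symm

end Pool.ETM
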