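/-
Project ETM (MP_c7bb65_an), block FIN.
MODULE FnF (difficulty 3).  The cell decomposition given by a graph.

RECIPE.  For `c ∈ cells W E` there are `k`, `b` with: (0) `k = 0`, `c = {w}`, `w ∈ W`, `b = ∅`; or (1) `k = 1`, `c ∈ E`, `b = c ∩ W`; or (2) `k = 2`, `c = closure U`, `U ∈ Fc E`, `b = frontier U`.  `choose! dim bd hdb using this` (a statement for all `c ∈ cells W E`).  In each case `IsCell k c b` (module FnE; `c ∩ W = {p, q}` for the end points of the arc; `JDom U` is `DiscX (closure U) (frontier U) U`).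
The cases exclude each other: an arc has more than one point and empty interior (`PG.interior_eq`: `interior (⋃₀ E) = ∅`), `closure U` contains the nonempty open set `U` disjoint from `⋃₀ E`; `{w}`, `w ∈ W ⊆ ⋃₀ E`, is not of the form `closure U` for the same reason.  So `dim {w} = 0` for `w ∈ W`, `dim e = 1` for `e ∈ E`.
Boundary as a union of cells of lower dimension: `∅ = ⋃₀ ∅`; `c ∩ W = ⋃₀ {{w} | w ∈ c ∩ W}`; `frontier U = ⋃₀ D`, `D ⊆ E` (`PG.frontier_edges`).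
Interiors: (0) `{w}`; (1) `c \ W`; (2) `closure U \ frontier U = U` (`U` open).  Disjoint for different cells: points of `W` are not in `c \ W`; `U` is disjoint from `⋃₀ E ⊇ W`; two edges meet in `W`; two different faces are disjoint (`Fc.disj`), and `closure U ≠ closure U'` implies `U ≠ U'`.
Finite: `W`, `E` finite, `PG.finite_discs`.  Cover: `PG.cover`.
-/
import Mathlib
import Pool.Agent.ETM.FnE
import Pool.Agent.ETM.RyDefs

set_option autoImplicit false

open Set Metric Topology Filter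
open Pool.JS

namespace Pool.ETM

open Pool.CellMarkov

variable {X : Type*} [TopologicalSpace X] [CompactSpace X] [T2Space X] [Sph X] {W : Set X} {E : Set (Set X)}

/-- the cells of a graph: the vertices, the edges, the closed faces -/
def cells (W : Set X) (E : Set (Set X)) : Set (Set X) :=
  {c | ∃ w ∈ W, c = {w}} ∪ E ∪ {c | ∃ U ∈ Fc E, c = closure U}

omit [CompactSpace X] [Sph X] in
private theorem fnf_a (h : PG W E) {w : X} (hE : ({w} : Set X) ∈ E) : False := by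
  obtain ⟨p, _, q, _, ha, _⟩ := h.arc _ hE
  exact ha.ne (ha.left_mem.trans ha.right_mem.symm)

omit [CompactSpace X] [T2Space X] [Sph X] in
private theorem fnf_b (h : PG W E) {w : X} (hw : w ∈ W) {U : Set X} (hU : U ∈ Fc E) (he : ({w} : Set X) = closure U) :
    False := by
  obtain ⟨u, hu⟩ := hU.ne
  have h1 : u ∈ ({w} : Set X) := by
    rw [he]
    exact subset_closure hu
  obtain rfl : u = w := h1
  exact hU.sub hu (h.subV hw)

omit [CompactSpace X] [T2Space X] [Sph X] in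
private theorem fnf_c {e : Set X} (he : e ∈ E) {U : Set X} (hU : U ∈ Fc E) (hc : e = closure U) : False := by
  obtain ⟨u, hu⟩ := hU.ne
  have h1 : u ∈ e := by
    rw [hc]
    exact subset_closure hu
  exact hU.sub hu ⟨e, he, h1⟩

theorem fnf_cells (h : PG W E) (hd : ∀ U ∈ Fc E, JDom U) : CellDecomp (cells W E) := by
  classical
  have hex : ∀ c ∈ cells W E, ∃ (k : ℕ) (b : Set X), (k = 0 ∧ (∃ w ∈ W, c = {w}) ∧ b = ∅) ∨
      (k = 1 ∧ c ∈ E ∧ b = c ∩ W) ∨ (k = 2 ∧ ∃ U ∈ Fc E, c = closure U ∧ b = frontier U) := by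
    rintro c ((⟨w, hw, rfl⟩ | hc) | ⟨U, hU, rfl⟩)
    · exact ⟨0, ∅, Or.inl ⟨rfl, ⟨w, hw, rfl⟩, rfl⟩⟩
    · exact ⟨1, c ∩ W, Or.inr (Or.inl ⟨rfl, hc, rfl⟩)⟩
    · exact ⟨2, frontier U, Or.inr (Or.inr ⟨rfl, U, hU, rfl, rfl⟩)⟩
  choose! dim bd hdb using hex
  have hWc : ∀ w ∈ W, ({w} : Set X) ∈ cells W E := fun w hw => Or.inl (Or.inl ⟨w, hw, rfl⟩)
  have hEc : ∀ e ∈ E, e ∈ cells W E := fun e he => Or.inl (Or.inr he)
  have hd0 : ∀ w ∈ W, dim {w} = 0 := by
    intro w hw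
    rcases hdb _ (hWc w hw) with ⟨h0, _⟩ | ⟨_, h1, _⟩ | ⟨_, U, hU, h2, _⟩
    · exact h0
    · exact (fnf_a h h1).elim
    · exact (fnf_b h hw hU h2).elim
  have hd1 : ∀ e ∈ E, dim e = 1 := by
    intro e he
    rcases hdb _ (hEc e he) with ⟨_, ⟨w, _, rfl⟩, _⟩ | ⟨h1, _⟩ | ⟨_, U, hU, h2, _⟩
    · exact (fnf_a h he).elim
    · exact h1
    · exact (fnf_c he hU h2).elim
  refine ⟨?_, ?_, dim, bd, ?_, ?_⟩
  · have hf : (Fc E).Finite := h.finite_discs hd
    have e1 : {c | ∃ w ∈ W, c = ({w} : Set X)} = (fun w : X => ({w} : Set X)) '' W := by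
      ext c
      constructor
      · rintro ⟨w, hw, rfl⟩
        exact ⟨w, hw, rfl⟩
      · rintro ⟨w, hw, rfl⟩
        exact ⟨w, hw, rfl⟩
    have e2 : {c | ∃ U ∈ Fc E, c = closure U} = closure '' Fc E := by
      ext c
      constructor
      · rintro ⟨U, hU, rfl⟩
        exact ⟨U, hU, rfl⟩
      · rintro ⟨U, hU, rfl⟩
        exact ⟨U, hU, rfl⟩
    unfold cells
    rw [e1, e2]
    exact ((h.finV.image _).union h.finE).union (hf.image _)
  · rw [Set.eq_univ_iff_forall]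
    intro x
    obtain ⟨U, hU, hx⟩ := h.cover hd x
    exact ⟨closure U, Or.inr ⟨U, hU, rfl⟩, hx⟩
  · intro c hc
    rcases hdb c hc with ⟨h0, ⟨w, hw, rfl⟩, hb⟩ | ⟨h1, hcE, hb⟩ | ⟨h2, U, hU, rfl, hb⟩
    · rw [h0, hb]
      exact ⟨by omega, isCell_point w, ∅, Set.empty_subset _, by simp, by simp⟩
    · rw [h1, hb]
      refine ⟨by omega, ?_, {c' | ∃ w ∈ c ∩ W, c' = {w}}, ?_, ?_, ?_⟩
      · obtain ⟨p, _, q, _, ha, he⟩ := h.arc c hcE
        rw [he]
        exact isCell_arc ha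
      · rintro c' ⟨w, hw, rfl⟩
        exact hWc w hw.2
      · rintro c' ⟨w, hw, rfl⟩
        rw [hd0 w hw.2]
        exact one_pos
      · ext x
        constructor
        · intro hx
          exact ⟨{x}, ⟨x, hx, rfl⟩, rfl⟩
        · rintro ⟨c', ⟨w, hw, rfl⟩, hx⟩
          obtain rfl : x = w := hx
          exact hw
    · rw [h2, hb]
      obtain ⟨D, hD, hDe⟩ := h.frontier_edges hU (hd U hU)
      refine ⟨le_rfl, isCell_disc (hd U hU).2, D, fun e he => hEc e (hD he), ?_, hDe⟩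
      intro e he
      rw [hd1 e (hD he)]
      exact one_lt_two
  · have key : ∀ c ∈ cells W E, ∀ x ∈ c \ bd c, (x ∈ W ∧ c = {x}) ∨ (x ∉ W ∧ c ∈ E ∧ x ∈ c) ∨
        ∃ U ∈ Fc E, c = closure U ∧ x ∈ U := by
      rintro c hc x ⟨hx, hxb⟩
      rcases hdb c hc with ⟨_, ⟨w, hw, rfl⟩, hb⟩ | ⟨_, hcE, hb⟩ | ⟨_, U, hU, rfl, hb⟩
      · obtain rfl : x = w := hx
        exact Or.inl ⟨hw, rfl⟩
      · rw [hb] at hxb
        exact Or.inr (Or.inl ⟨fun hxW => hxb ⟨hx, hxW⟩, hcE, hx⟩)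
      · rw [hb] at hxb
        refine Or.inr (Or.inr ⟨U, hU, rfl, ?_⟩)
        by_contra hxU
        apply hxb
        refine ⟨hx, ?_⟩
        rwa [(hd U hU).isOpen.interior_eq]
    intro c hc c' hc' hne
    rw [Set.disjoint_left]
    intro x hx hx'
    rcases key c hc x hx with ⟨hxW, hcx⟩ | ⟨hxW, hcE, hxc⟩ | ⟨U, hU, hcU, hxU⟩ <;>
      rcases key c' hc' x hx' with ⟨hxW', hcx'⟩ | ⟨hxW', hcE', hxc'⟩ | ⟨U', hU', hcU', hxU'⟩
    · exact hne (hcx.trans hcx'.symm)
    · exact hxW' hxW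
    · exact hU'.sub hxU' (h.subV hxW)
    · exact hxW hxW'
    · exact hxW (h.inter c hcE c' hcE' hne ⟨hxc, hxc'⟩)
    · exact hU'.sub hxU' ⟨c, hcE, hxc⟩
    · exact hU.sub hxU (h.subV hxW')
    · exact hU.sub hxU ⟨c', hcE', hxc'⟩
    · have hUU : U ≠ U' := by
        rintro rfl
        exact hne (hcU.trans hcU'.symm)
      exact Set.disjoint_left.1 (Fc.disj hU hU' hUU) hxU hxU'

end Pool.ETM
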