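/-
Project ETM (MP_c7bb65_an), block FIN.
MODULE FnG (difficulty 3).  Refinement and cellularity of the cell decompositions.

RECIPE.  `fng_refines`, first part: `{w'}`: `PG.cover`.  `e' ∈ E'`: `fnd_edge`; if `e' ∩ ⋃₀ E ⊆ W'` then `e' \ W'` is connected (`GrX.edge_inner` of JS/ThD or `ArcX.interior`) and disjoint from `⋃₀ E`, so it is contained in a face `U` of `E` (`Fc.exists_mem`, `FaceX.max`), and `e' ⊆ closure (e' \ W') ⊆ closure U`.  `closure V`, `V ∈ Fc E'`: `V` is preconnected, disjoint from `⋃₀ E' ⊇ ⋃₀ E`, so contained in a face of `E`.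
Second part: `{w}`: `w ∈ W ⊆ W'`, `S = {{w}}`.  `e ∈ E`: `fnd_union`.  `closure U`, `U ∈ Fc E`: `S = {closure V | V ∈ Fc E', V ⊆ U}`, `PG.disc_cover` for `h'` and `U` (`frontier U ⊆ ⋃₀ E ⊆ ⋃₀ E'`, `Fc.frontier_sub`).
`fng_homeo`: `f` restricted to the compact set `c` is a continuous bijection onto `f '' c`: `Equiv.ofBijective`, `Continuous.homeoOfEquivCompactToT2` (`c` compact: `isCompact_iff_compactSpace`).
`fng_cellular`: `{w'}`, `f w' ∈ W`: `f '' {w'} = {f w'}`.  `e' ∈ pb f W E`: `fna_pg` (last part), `e'` is an arc, so compact.  `closure V`, `V` a component of `f ⁻¹' U`, `U ∈ Fc E` (`fnb_faces` with `fna_pg`): `U` is disjoint from `P ⊆ W ⊆ ⋃₀ E` (`PG.subV`), so `ryl_disc'`.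
-/
import Mathlib
import Pool.Agent.ETM.FnD
import Pool.Agent.ETM.FnF
import Pool.Agent.ETM.FnB

set_option autoImplicit false

open Set Metric Topology Filter
open Pool.JS

namespace Pool.ETM

open Pool.CellMarkov

section top

variable {X : Type*} [TopologicalSpace X] [CompactSpace X] [T2Space X] [Sph X] {W W' : Set X} {E E' : Set (Set X)}

theorem fng_refines (h : PG W E) (hd : ∀ U ∈ Fc E, JDom U) (h' : PG W' E') (hd' : ∀ U ∈ Fc E', JDom U) (hW : W ⊆ W')
    (hG : ⋃₀ E ⊆ ⋃₀ E') : Refines (cells W' E') (cells W E) := by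
  constructor
  · rintro c' ((⟨w', hw', rfl⟩ | he') | ⟨V, hV, rfl⟩)
    · obtain ⟨U, hU, hx⟩ := h.cover hd w'
      exact ⟨closure U, Or.inr ⟨U, hU, rfl⟩, singleton_subset_iff.mpr hx⟩
    · rcases fnd_edge h h' hW hG he' with ⟨e, he, hee⟩ | hint
      · exact ⟨e, Or.inl (Or.inr he), hee⟩
      · obtain ⟨a, _, b, _, harc, hab⟩ := h'.arc c' he'
        obtain ⟨hcon, hcl⟩ := harc.interior
        have hdis : c' \ {a, b} ⊆ (⋃₀ E)ᶜ := by
          rintro x ⟨hx, hxn⟩ hxE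
          apply hxn
          rw [← hab]
          exact ⟨hx, hint ⟨hx, hxE⟩⟩
        obtain ⟨x, hx⟩ := hcon.nonempty
        obtain ⟨U, hU, hxU⟩ := Fc.exists_mem (hdis hx)
        have hsub : c' \ {a, b} ⊆ U := FaceX.max hU _ hcon.isPreconnected hdis ⟨x, hx, hxU⟩
        exact ⟨closure U, Or.inr ⟨U, hU, rfl⟩, hcl.trans (closure_mono hsub)⟩
    · have hdis : V ⊆ (⋃₀ E)ᶜ := fun x hx hxE => FaceX.sub hV hx (hG hxE)
      obtain ⟨x, hx⟩ := FaceX.ne hV
      obtain ⟨U, hU, hxU⟩ := Fc.exists_mem (hdis hx)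
      have hsub : V ⊆ U := FaceX.max hU _ (FaceX.conn hV) hdis ⟨x, hx, hxU⟩
      exact ⟨closure U, Or.inr ⟨U, hU, rfl⟩, closure_mono hsub⟩
  · rintro c ((⟨w, hw, rfl⟩ | he) | ⟨U, hU, rfl⟩)
    · refine ⟨{{w}}, ?_, (sUnion_singleton _).symm⟩
      rintro c rfl
      exact Or.inl (Or.inl ⟨w, hW hw, rfl⟩)
    · obtain ⟨S, hS, hcS⟩ := fnd_union h h' hW hG he
      exact ⟨S, fun x hx => Or.inl (Or.inr (hS hx)), hcS⟩
    · refine ⟨{F | ∃ V ∈ Fc E', V ⊆ U ∧ F = closure V}, ?_, Subset.antisymm ?_ ?_⟩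
      · rintro _ ⟨V, hV, _, rfl⟩
        exact Or.inr ⟨V, hV, rfl⟩
      · intro x hx
        obtain ⟨V, hV, hVU, hxV⟩ := h'.disc_cover hd' (hd U hU) ((Fc.frontier_sub h hU).trans hG) hx
        exact ⟨closure V, ⟨V, hV, hVU, rfl⟩, hxV⟩
      · rintro x ⟨_, ⟨V, hV, hVU, rfl⟩, hxV⟩
        exact closure_mono hVU hxV

end top

variable {X : Type*} [MetricSpace X] [CompactSpace X] [Sph X] {f : X → X} {P W c : Set X} {E : Set (Set X)}

theorem fng_homeo (hf : Continuous f) (hc : IsCompact c) (hi : InjOn f c) : ∃ h : c ≃ₜ (f '' c : Set X), ∀ x : c,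
    (h x : X) = f x := by
  have : CompactSpace c := isCompact_iff_compactSpace.mp hc
  let F : c → (f '' c : Set X) := fun y => ⟨f y, mem_image_of_mem f y.2⟩
  have hF : Function.Bijective F := by
    constructor
    · intro y y' h
      exact Subtype.ext (hi y.2 y'.2 (congrArg Subtype.val h))
    · rintro ⟨_, y, hy, rfl⟩
      exact ⟨⟨y, hy⟩, rfl⟩
  have hFc : Continuous F := (hf.comp continuous_subtype_val).subtype_mk _
  exact ⟨Continuous.homeoOfEquivCompactToT2 (f := Equiv.ofBijective F hF) hFc, fun _ => rfl⟩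

private theorem fng_cell {D : Set (Set X)} (hf : Continuous f) (hc : IsCompact c) (hi : InjOn f c) (hD : f '' c ∈ D) :
    ∃ d ∈ D, ∃ h : c ≃ₜ d, ∀ x : c, (h x : X) = f x :=
  ⟨f '' c, hD, fng_homeo hf hc hi⟩

theorem fng_cellular (hD : Dyn f P) (h : Sta f P W E) (hP : P ⊆ W) :
    Cellular f (cells (f ⁻¹' W) (pb f W E)) (cells W E) := by
  obtain ⟨h1, h2, h3⟩ := fna_pg hD h.pg h.car
  rintro c' ((⟨w', hw', rfl⟩ | he') | ⟨V, hV, rfl⟩)
  · refine fng_cell hD.cont isCompact_singleton (injOn_singleton _ _) ?_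
    rw [image_singleton]
    exact Or.inl (Or.inl ⟨f w', hw', rfl⟩)
  · obtain ⟨a, _, b, _, harc, _⟩ := h1.arc c' he'
    exact fng_cell hD.cont harc.isCompact (h3 c' he').1 (Or.inl (Or.inr (h3 c' he').2))
  · obtain ⟨U, hU, hVU⟩ := (fnb_faces hD h2 V).mp hV
    have hUP : Disjoint U P := by
      rw [Set.disjoint_left]
      exact fun x hx hxP => FaceX.sub hU hx (h.pg.subV (hP hxP))
    obtain ⟨_, h5, h6⟩ := ryl_disc' hD (h.disc U hU) hUP hVU
    refine fng_cell hD.cont isClosed_closure.isCompact h5 ?_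
    rw [h6]
    exact Or.inr ⟨U, hU, rfl⟩

end Pool.ETM
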