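/-
Project ETM (MP_c7bb65_an), block RAY.
MODULE RyB (difficulty 2).  The part of a graph in the closure of a Jordan domain bounded by edges.

RECIPE.  `frontier U` is a simple closed curve (`JDom.jordan`), so `frontier U = ⋃₀ D` with `D ⊆ E` (`PG.jordan_edges`).
`ryb_edge`: let `x ∈ e ∩ U`.  `U` is open, so `x ∉ frontier U` and `e ∉ D`.  So `e \ V` is disjoint from `frontier U = ⋃₀ D` (`PG.mem_of_point`).  `e \ V` is connected and dense in `e` (`GrX.edge_inner` of JS/ThD, or `ArcX.interior` of JS), so it meets the open set `U`; being preconnected and disjoint from `frontier U` it is contained in `U`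
(e.g. `IsPreconnected.subset_of_disjoint_frontier`-type argument: `U` and `(closure U)ᶜ` are open and cover it: `IsPreconnected.subset_left_of_subset_union`), and `e ⊆ closure (e \ V) ⊆ closure U`.
`ryb_sUnion`: `⊆` clear; a point of `⋃₀ E ∩ U` is in an edge which is not disjoint from `U`, so contained in `closure U`; a point of `frontier U = ⋃₀ D` is in an edge of `D`, contained in `frontier U ⊆ closure U`.
-/
import Mathlib
import Pool.Agent.ETM.RyDefs
import Pool.Agent.JS.ThD

set_option autoImplicit false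

open Set Metric Topology Filter
open Pool.JS

namespace Pool.ETM

variable {X : Type*} [TopologicalSpace X] [CompactSpace X] [T2Space X] [Sph X] {V U e : Set X} {E : Set (Set X)}

theorem ryb_edge (h : PG V E) (hU : JDom U) (hs : frontier U ⊆ ⋃₀ E) (he : e ∈ E) : e ⊆ closure U ∨ Disjoint e U := by
  obtain ⟨D, hD, hfD⟩ := h.jordan_edges hU.jordan hs
  obtain ⟨-, hconn, hdense⟩ := h.toGrX.edge_inner he
  by_cases hd : Disjoint e U
  · exact Or.inr hd
  left
  obtain ⟨x, hxe, hxU⟩ := not_disjoint_iff.1 hd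
  have hUo : IsOpen U := hU.isOpen
  have heD : e ∉ D := by
    intro heD
    have h1 : x ∈ frontier U := by
      rw [hfD]
      exact ⟨e, heD, hxe⟩
    rw [hUo.frontier_eq] at h1
    exact h1.2 hxU
  have hdis : Disjoint (e \ V) (frontier U) := by
    rw [disjoint_left]
    rintro y ⟨hye, hyV⟩ hyf
    rw [hfD] at hyf
    exact heD (h.mem_of_point he hD hye hyV hyf)
  have hmeet : ((e \ V) ∩ U).Nonempty := by
    obtain ⟨y, hy1, hy2⟩ := mem_closure_iff.1 (hdense hxe) U hUo hxU
    exact ⟨y, hy2, hy1⟩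
  have hsub : e \ V ⊆ U := by
    apply IsPreconnected.subset_left_of_subset_union hUo (isClosed_closure (s := U)).isOpen_compl
      (disjoint_left.2 fun y hy hy' => hy' (subset_closure hy)) ?_ hmeet hconn.isPreconnected
    intro y hy
    by_cases hyU : y ∈ U
    · exact Or.inl hyU
    · right
      intro hyc
      exact disjoint_left.1 hdis hy (by rw [hUo.frontier_eq]; exact ⟨hyc, hyU⟩)
  exact hdense.trans (closure_mono hsub)

theorem ryb_sUnion (h : PG V E) (hU : JDom U) (hs : frontier U ⊆ ⋃₀ E) :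
    ⋃₀ {e | e ∈ E ∧ e ⊆ closure U} = ⋃₀ E ∩ closure U := by
  apply Subset.antisymm
  · rintro x ⟨e, ⟨he, heU⟩, hx⟩
    exact ⟨⟨e, he, hx⟩, heU hx⟩
  · rintro x ⟨⟨e, he, hx⟩, hxU⟩
    by_cases hU' : x ∈ U
    · rcases ryb_edge h hU hs he with h1 | h1
      · exact ⟨e, ⟨he, h1⟩, hx⟩
      · exact absurd hU' (disjoint_left.1 h1 hx)
    · have h1 : x ∈ frontier U := by
        rw [hU.isOpen.frontier_eq]
        exact ⟨hxU, hU'⟩
      obtain ⟨D, hD, hfD⟩ := h.jordan_edges hU.jordan hs
      rw [hfD] at h1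
      obtain ⟨e', he', hx'⟩ := h1
      refine ⟨e', ⟨hD he', ?_⟩, hx'⟩
      intro y hy
      have h2 : y ∈ frontier U := by
        rw [hfD]
        exact ⟨e', he', hy⟩
      exact frontier_subset_closure h2

end Pool.ETM
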