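/-
Project ETM (MP_c7bb65_an), block RAY.
MODULE RyC (difficulty 3).  Two disjoint paths of the graph across an annulus (12.1).

RECIPE.  Let `D = {e | e ∈ E ∧ e ⊆ closure U₀}`.  `PG (V ∩ ⋃₀ D) D` (`PG.sub`), `⋃₀ D = ⋃₀ E ∩ closure U₀` (`ryb_sUnion`), so `NoCut (⋃₀ D)` (`noCut_inter`).  `frontier U₀ = ⋃₀ S`, `frontier U₁ = ⋃₀ T` with `S, T ⊆ E` (`PG.jordan_edges`; `frontier U₁ ⊆ ⋃₀ E` by `Fc.frontier_sub`), `S, T ⊆ D` (their edges are contained in `closure U₀`), both nonempty,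
`⋃₀ S` and `⋃₀ T` are disjoint because `frontier U₁ ⊆ closure U₁ ⊆ U₀` and `U₀` is open.  `PG.menger` for `D`, `S`, `T` gives `s, s', t, t', p, p'`: put `a false = s`, `c false = t`, `p false = p`, `a true = s'`, ....  `a i ∈ V` by `PG.end_mem`.  `p i ⊆ ⋃₀ D ⊆ closure U₀`; `p i ⊆ ⋃₀ E` is disjoint from the face `U₁`.
-/
import Mathlib
import Pool.Agent.ETM.RyB

set_option autoImplicit false

open Set Metric Topology Filter
open Pool.JS

namespace Pool.ETM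

variable {X : Type*} [TopologicalSpace X] [CompactSpace X] [T2Space X] [Sph X] {V U₀ U₁ : Set X} {E : Set (Set X)}

theorem ryc_paths (h : PG V E) (hd : ∀ U ∈ Fc E, JDom U) (hU₀ : JDom U₀) (hs : frontier U₀ ⊆ ⋃₀ E) (hU₁ : U₁ ∈ Fc E)
    (h1 : closure U₁ ⊆ U₀) :
    ∃ (a c : Bool → X) (p : Bool → Set X), (∀ i, a i ∈ V ∧ ArcX (p i) (a i) (c i) ∧ p i ⊆ ⋃₀ E ∧ p i ⊆ closure U₀ ∧
      Disjoint (p i) U₁ ∧ p i ∩ frontier U₀ = {a i} ∧ p i ∩ frontier U₁ = {c i}) ∧ Disjoint (p false) (p true) := by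
  set D : Set (Set X) := {e | e ∈ E ∧ e ⊆ closure U₀} with hD
  have hDE : D ⊆ E := fun e he => he.1
  have hDu : ⋃₀ D = ⋃₀ E ∩ closure U₀ := ryb_sUnion h hU₀ hs
  have hn : NoCut (⋃₀ D) := by
    rw [hDu]
    exact noCut_inter h hd hU₀ hs
  have hJ1 : JDom U₁ := hd U₁ hU₁
  have hfs : frontier U₁ ⊆ ⋃₀ E := Fc.frontier_sub h hU₁
  obtain ⟨S, hSE, hfS⟩ := h.jordan_edges hU₀.jordan hs
  obtain ⟨T, hTE, hfT⟩ := h.jordan_edges hJ1.jordan hfs
  have hfU1 : frontier U₁ ⊆ U₀ := frontier_subset_closure.trans h1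
  have hSD : S ⊆ D := by
    intro e he
    refine ⟨hSE he, fun x hx => ?_⟩
    have h2 : x ∈ frontier U₀ := by
      rw [hfS]
      exact ⟨e, he, hx⟩
    exact frontier_subset_closure h2
  have hTD : T ⊆ D := by
    intro e he
    refine ⟨hTE he, fun x hx => ?_⟩
    have h2 : x ∈ frontier U₁ := by
      rw [hfT]
      exact ⟨e, he, hx⟩
    exact subset_closure (hfU1 h2)
  have hne : ∀ {U : Set X}, JDom U → (frontier U).Nonempty := by
    intro U hU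
    obtain ⟨γ, -, -, h3⟩ := hU.jordan
    rw [← h3]
    exact ⟨γ 1, 1, by simp, rfl⟩
  have hSn : S.Nonempty := by
    obtain ⟨x, hx⟩ := hne hU₀
    rw [hfS] at hx
    obtain ⟨e, he, -⟩ := hx
    exact ⟨e, he⟩
  have hTn : T.Nonempty := by
    obtain ⟨x, hx⟩ := hne hJ1
    rw [hfT] at hx
    obtain ⟨e, he, -⟩ := hx
    exact ⟨e, he⟩
  have hST : Disjoint (⋃₀ S) (⋃₀ T) := by
    rw [← hfS, ← hfT, disjoint_left]
    intro x hx hx'
    rw [hU₀.isOpen.frontier_eq] at hx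
    exact hx.2 (hfU1 hx')
  have hpgD : PG (V ∩ ⋃₀ D) D := h.sub hDE
  obtain ⟨s, s', t, t', p, p', hp, hp', hpp, e1, e2, e3, e4⟩ := hpgD.menger hn hSD hSn hTD hTn hST
  have hsub : ∀ {q : Set X} {x y : X}, PathG D q x y → q ⊆ ⋃₀ D := by
    intro q x y hq
    obtain ⟨-, E', hE', rfl⟩ := hq
    exact sUnion_subset_sUnion hE'
  have key : ∀ {q : Set X} {x y : X}, PathG D q x y → q ∩ ⋃₀ S = {x} → q ∩ ⋃₀ T = {y} →
      x ∈ V ∧ ArcX q x y ∧ q ⊆ ⋃₀ E ∧ q ⊆ closure U₀ ∧ Disjoint q U₁ ∧ q ∩ frontier U₀ = {x} ∧ q ∩ frontier U₁ = {y} := by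
    intro q x y hq h2 h3
    have h4 : q ⊆ ⋃₀ E ∩ closure U₀ := by
      rw [← hDu]
      exact hsub hq
    refine ⟨(hpgD.end_mem hq).1.1, hq.1, fun z hz => (h4 hz).1, fun z hz => (h4 hz).2, ?_, ?_, ?_⟩
    · rw [disjoint_left]
      intro z hz hz'
      exact hU₁.sub hz' (h4 hz).1
    · rw [hfS]
      exact h2
    · rw [hfT]
      exact h3
  refine ⟨fun i => bif i then s' else s, fun i => bif i then t' else t, fun i => bif i then p' else p, ?_, hpp⟩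
  intro i
  cases i
  · exact key hp e1 e2
  · exact key hp' e3 e4

end Pool.ETM
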