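/-
Project ETM (MP_c7bb65_an), block RAY.
MODULE RyD (difficulty 2).  Matching on the inner curve (12.2).

RECIPE.  `JorX.matching` (JS/PgG) for `c false ≠ c true` (the arcs `p i` are disjoint) and `b false ≠ b true` gives disjoint `q, q' ⊆ J` with `Arc0 q (c false) (b j)`, `Arc0 q' (c true) (b (!j))` (`j = false` or `j = true`).  Put `π false = j`, `π true = !j`, `ξ false = p false ∪ q`, `ξ true = p true ∪ q'`.
If `q` is an arc: `ArcX.trans` (`p false ∩ q = {c false}` because `p false ∩ J = {c false}` and `c false ∈ q`); if `q = {c false}`, `c false = b j`: `ξ false = p false`.  Disjointness: `p false ∩ q' ⊆ p false ∩ J = {c false} ⊆ q`, disjoint from `q'`; etc.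
-/
import Mathlib
import Pool.Agent.ETM.RyDefs

set_option autoImplicit false

open Set Metric Topology Filter
open Pool.JS

namespace Pool.ETM

variable {X : Type*} [TopologicalSpace X] [T2Space X] {J : Set X} {a b c : Bool → X} {p : Bool → Set X}

private theorem ryd_join {p q : Set X} {a b c : X} (hp : ArcX p a c) (hq : Arc0 q c b) (hpq : p ∩ q ⊆ {c}) :
    ArcX (p ∪ q) a b := by
  rcases hq with ⟨rfl, rfl⟩ | hq
  · rwa [union_eq_self_of_subset_right (singleton_subset_iff.mpr hp.right_mem)]
  · exact hp.trans hq (Subset.antisymm hpq (singleton_subset_iff.mpr ⟨hp.right_mem, hq.left_mem⟩))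

private theorem ryd_left {q : Set X} {b c : X} (hq : Arc0 q c b) : c ∈ q := by
  rcases hq with ⟨rfl, rfl⟩ | hq
  · exact rfl
  · exact hq.left_mem

theorem ryd_xi (hJ : JorX J) (hp : ∀ i, ArcX (p i) (a i) (c i)) (hd : Disjoint (p false) (p true))
    (hc : ∀ i, p i ∩ J = {c i}) (hb : ∀ i, b i ∈ J) (hbb : b false ≠ b true) :
    ∃ (ξ : Bool → Set X) (π : Bool → Bool), Function.Injective π ∧
      (∀ i, ArcX (ξ i) (a i) (b (π i)) ∧ ξ i ⊆ p i ∪ J) ∧ Disjoint (ξ false) (ξ true) := by
  have hcJ : ∀ i, c i ∈ p i ∩ J := fun i => by rw [hc i]; exact rfl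
  have hcc : c false ≠ c true := fun h =>
    Set.disjoint_left.mp hd (hcJ false).1 (by rw [h]; exact (hcJ true).1)
  have key : ∃ (Q : Bool → Set X) (π : Bool → Bool), Function.Injective π ∧ (∀ i, Q i ⊆ J) ∧
      Disjoint (Q false) (Q true) ∧ ∀ i, Arc0 (Q i) (c i) (b (π i)) := by
    obtain ⟨q, hq, q', hq', hqq, h⟩ := hJ.matching (hcJ false).2 (hcJ true).2 (hb false) (hb true) hcc hbb
    rcases h with ⟨h1, h2⟩ | ⟨h1, h2⟩
    · refine ⟨fun i => bif i then q' else q, id, Function.injective_id, ?_, hqq, ?_⟩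
      · rintro (_ | _)
        · exact hq
        · exact hq'
      · rintro (_ | _)
        · exact h1
        · exact h2
    · refine ⟨fun i => bif i then q' else q, not, Bool.not_injective, ?_, hqq, ?_⟩
      · rintro (_ | _)
        · exact hq
        · exact hq'
      · rintro (_ | _)
        · exact h1
        · exact h2
  obtain ⟨Q, π, hπ, hQ, hQQ, hA⟩ := key
  have hpQ : ∀ i j, p i ∩ Q j ⊆ {c i} := fun i j => by
    rw [← hc i]
    exact inter_subset_inter_right _ (hQ j)
  refine ⟨fun i => p i ∪ Q i, π, hπ, fun i => ⟨ryd_join (hp i) (hA i) (hpQ i i), union_subset_union_right _ (hQ i)⟩, ?_⟩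
  rw [Set.disjoint_left]
  rintro x (hx | hx) (hx' | hx')
  · exact Set.disjoint_left.mp hd hx hx'
  · have := hpQ false true ⟨hx, hx'⟩
    rw [mem_singleton_iff.mp this] at hx'
    exact Set.disjoint_left.mp hQQ (ryd_left (hA false)) hx'
  · have := hpQ true false ⟨hx', hx⟩
    rw [mem_singleton_iff.mp this] at hx
    exact Set.disjoint_left.mp hQQ hx (ryd_left (hA true))
  · exact Set.disjoint_left.mp hQQ hx hx'

end Pool.ETM
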