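/-
Project ETM (MP_c7bb65_an), block RAY.
MODULE RyF (difficulty 3).  The nested neighbourhoods `Wn n z` of the periodic points of `P`, first part.

RECIPE.  Write `W n = Wn f E n z`, `U w = fce E w` (the face of `w`), `Fn = f^[n]`; `Dyn Fn P` by `ryl_iter`.
`ryf_pc`: `f z ∈ P`, `f^[j] (f z) = f (f^[j] z) = f z`.  `ryf_pcn` by induction.  `ryf_notin`: `Disjoint (⋃₀ E) P`.
`ryf_face`: `U z ∈ Fc E` (`fce_mem`), `JDom` (`Good.disc`), `frontier (U z) ⊆ ⋃₀ E` (`Fc.frontier_sub`) so disjoint from `P`; `U z ∩ P = {z}` by `Inv.one`.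
`ryf_zero`: `f^[0]` is the identity, `U z` is preconnected and contains `z`: `IsPreconnected.connectedComponentIn`.
`ryf_comp`: `z` is in the preimage; the component `connectedComponentIn S z` is a `FaceX Sᶜ` (`IsComp`).  `ryf_props`: `ryl_comp` for `Fn`, `U (Fn z)`; `ryl_disc` for `Fn` (the face of `Fn z` contains only the point `Fn z` of `P`, its frontier is disjoint from `P`).
`ryf_uniq`: `Fn x = Fn z ∈ U (Fn z)`, an open set; if `x ∉ W n` then `x ∈ frontier (W n)` (`W n` is open), so `Fn x ∈ frontier (U (Fn z))`: contradiction; so `x ∈ W n` and the last part of `ryl_disc` (with `y = Fn z ∈ U (Fn z) ∩ P`) gives `x = z`.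
`ryf_step`: `Fn '' W (n + 1)` is preconnected, contains `Fn z` and is contained in `f ⁻¹' U (f (Fn z))` (`f^[n+1] = f ∘ f^[n]`: `Function.iterate_succ_apply'`), so it is contained in `Wn f E 1 (Fn z)`.
`ryf_nest`: by `Inv.nest` for `Fn z`: `closure (Wn f E 1 (Fn z)) ⊆ U (Fn z)` (for `n = 1` the set `Wn f E 1 w` is `comp (f ⁻¹' comp (⋃₀ E)ᶜ (f w)) w` by definition, up to `Function.iterate_one`).  `closure (W (n + 1))` is preconnected, contains `z`, and `Fn '' closure (W (n + 1)) ⊆ closure (Fn '' W (n + 1)) ⊆ closure (Wn f E 1 (Fn z)) ⊆ U (Fn z)`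
(`image_closure_subset_closure_image`), so it is contained in `W n`.
-/
import Mathlib
import Pool.Agent.ETM.RyDefs
import Pool.Agent.ETM.RyL

set_option autoImplicit false

open Set Metric Topology Filter
open Pool.JS

namespace Pool.ETM

variable {X : Type*} [MetricSpace X] [CompactSpace X] [Sph X] {f : X → X} {P V : Set X} {E : Set (Set X)} {η : ℝ} {z : X}

theorem ryf_pc (hD : Dyn f P) (hz : z ∈ Pc f P) : f z ∈ Pc f P := by
  obtain ⟨h1, j, hj, hjz⟩ := hz
  refine ⟨hD.mapsP h1, j, hj, ?_⟩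
  rw [← Function.iterate_succ_apply, Function.iterate_succ_apply', hjz]

theorem ryf_pcn (hD : Dyn f P) (hz : z ∈ Pc f P) (n : ℕ) : f^[n] z ∈ Pc f P := by
  induction n with
  | zero => exact hz
  | succ n ih =>
    rw [Function.iterate_succ_apply']
    exact ryf_pc hD ih

theorem ryf_notin (h : Inv f P η V E) (hz : z ∈ Pc f P) : z ∉ ⋃₀ E :=
  fun hh => Set.disjoint_left.1 h.avoid hh hz.1

theorem ryf_face (h : Inv f P η V E) (hz : z ∈ Pc f P) : fce E z ∈ Fc E ∧ z ∈ fce E z ∧ JDom (fce E z) ∧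
    frontier (fce E z) ⊆ ⋃₀ E ∧ Disjoint (frontier (fce E z)) P ∧ fce E z ∩ P = {z} := by
  have h1 := ryf_notin h hz
  have h2 : fce E z ∈ Fc E := fce_mem h1
  have h3 : z ∈ fce E z := mem_fce h1
  have h4 : frontier (fce E z) ⊆ ⋃₀ E := Fc.frontier_sub h.good.pg h2
  refine ⟨h2, h3, h.good.disc _ h2, h4, h.avoid.mono_left h4, ?_⟩
  apply Subset.antisymm
  · intro y hy
    exact h.one _ h2 hy ⟨h3, hz.1⟩
  · rintro y rfl
    exact ⟨h3, hz.1⟩

theorem ryf_zero (h : Inv f P η V E) (hz : z ∈ Pc f P) : Wn f E 0 z = fce E z := by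
  have h3 : z ∈ fce E z := mem_fce (ryf_notin h hz)
  have h4 : IsPreconnected (fce E z) := isPreconnected_connectedComponentIn
  exact h4.connectedComponentIn h3

theorem ryf_mem (hD : Dyn f P) (h : Inv f P η V E) (hz : z ∈ Pc f P) (n : ℕ) : z ∈ Wn f E n z := by
  have h1 : f^[n] z ∈ fce E (f^[n] z) := mem_fce (ryf_notin h (ryf_pcn hD hz n))
  exact mem_connectedComponentIn h1

theorem ryf_comp (hD : Dyn f P) (h : Inv f P η V E) (hz : z ∈ Pc f P) (n : ℕ) :
    IsComp (Wn f E n z) (f^[n] ⁻¹' fce E (f^[n] z)) := by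
  have h1 : f^[n] z ∈ fce E (f^[n] z) := mem_fce (ryf_notin h (ryf_pcn hD hz n))
  exact isComp_cc h1

private theorem ryf_sub (h : Inv f P η V E) (hz : z ∈ Pc f P) : (fce E z ∩ P).Subsingleton := by
  rw [(ryf_face h hz).2.2.2.2.2]
  exact subsingleton_singleton

theorem ryf_props (hD : Dyn f P) (h : Inv f P η V E) (hz : z ∈ Pc f P) (n : ℕ) :
    IsOpen (Wn f E n z) ∧ f^[n] '' Wn f E n z = fce E (f^[n] z) ∧
      f^[n] '' frontier (Wn f E n z) = frontier (fce E (f^[n] z)) ∧ JDom (Wn f E n z) ∧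
      IsComp (closure (Wn f E n z)) (f^[n] ⁻¹' closure (fce E (f^[n] z))) := by
  have hzn := ryf_pcn hD hz n
  obtain ⟨-, -, hJ, -, hF, -⟩ := ryf_face h hzn
  obtain ⟨h1, h2, -, h4⟩ := ryl_comp (ryl_iter hD n) hJ.isOpen hJ.isConnected.isPreconnected (ryf_comp hD h hz n)
  obtain ⟨h5, h6, -⟩ := ryl_disc (ryl_iter hD n) hJ (ryf_sub h hzn) hF (ryf_comp hD h hz n)
  exact ⟨h1, h2, h4, h5, h6⟩

theorem ryf_uniq (hD : Dyn f P) (h : Inv f P η V E) (hz : z ∈ Pc f P) (n : ℕ) {x : X} (hx : x ∈ closure (Wn f E n z))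
    (hfx : f^[n] x = f^[n] z) : x = z := by
  have hzn := ryf_pcn hD hz n
  obtain ⟨-, hm, hJ, -, hF, -⟩ := ryf_face h hzn
  obtain ⟨h1, -, h3, -, -⟩ := ryf_props hD h hz n
  have hxW : x ∈ Wn f E n z := by
    by_contra hn
    have hfr : x ∈ frontier (Wn f E n z) := by
      rw [frontier, h1.interior_eq]
      exact ⟨hx, hn⟩
    have : f^[n] x ∈ frontier (fce E (f^[n] z)) := by
      rw [← h3]
      exact ⟨x, hfr, rfl⟩
    rw [hfx, frontier, hJ.isOpen.interior_eq] at this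
    exact this.2 hm
  obtain ⟨-, -, h7⟩ := ryl_disc (ryl_iter hD n) hJ (ryf_sub h hzn) hF (ryf_comp hD h hz n)
  exact h7 (f^[n] z) ⟨hm, hzn.1⟩ x hxW z (ryf_mem hD h hz n) hfx rfl

theorem ryf_step (hD : Dyn f P) (h : Inv f P η V E) (hz : z ∈ Pc f P) (n : ℕ) :
    f^[n] '' Wn f E (n + 1) z ⊆ Wn f E 1 (f^[n] z) := by
  have hc : IsPreconnected (f^[n] '' Wn f E (n + 1) z) :=
    isPreconnected_connectedComponentIn.image _ (ryl_iter hD n).cont.continuousOn
  refine hc.subset_connectedComponentIn ⟨z, ryf_mem hD h hz (n + 1), rfl⟩ ?_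
  rintro y ⟨x, hx, rfl⟩
  have h1 : x ∈ f^[n + 1] ⁻¹' fce E (f^[n + 1] z) := connectedComponentIn_subset _ _ hx
  have h2 : f^[n + 1] x ∈ fce E (f^[n + 1] z) := h1
  rw [Function.iterate_succ_apply', Function.iterate_succ_apply'] at h2
  exact h2

theorem ryf_nest (hD : Dyn f P) (h : Inv f P η V E) (hz : z ∈ Pc f P) (n : ℕ) :
    closure (Wn f E (n + 1) z) ⊆ Wn f E n z := by
  have hzn := ryf_pcn hD hz n
  have hc : IsPreconnected (closure (Wn f E (n + 1) z)) := isPreconnected_connectedComponentIn.closure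
  refine hc.subset_connectedComponentIn (subset_closure (ryf_mem hD h hz (n + 1))) ?_
  intro x hx
  have h1 : f^[n] x ∈ closure (f^[n] '' Wn f E (n + 1) z) :=
    image_closure_subset_closure_image (ryl_iter hD n).cont ⟨x, hx, rfl⟩
  have h2 : f^[n] x ∈ closure (Wn f E 1 (f^[n] z)) := closure_mono (ryf_step hD h hz n) h1
  exact h.nest (f^[n] z) hzn.1 hzn.2 h2

end Pool.ETM
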