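/-
Project ETM (MP_c7bb65_an), block RAY.
MODULE RyG (difficulty 3).  The nested neighbourhoods `Wn n z`, second part.

RECIPE.  `ryg_fr`: let `w = f^[n] z`, `U₁ = Wn f E 1 w` (open, connected: `ryf_props`).  `x ∈ f^[n] ⁻¹' closure U₁`, so by `ryl_cover` (for `f^[n]`) there is a component `V'` of `f^[n] ⁻¹' U₁` with `x ∈ closure V'`.  `closure V'` is preconnected, `f^[n] '' closure V' ⊆ closure U₁ ⊆ fce E w` (`ryf_nest` for `w`, `n = 0`, with `ryf_zero`), and it contains `x ∈ Wn f E n z`: so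
`closure V' ⊆ Wn f E n z` (component).  `f^[n] '' V' = U₁ ∋ w` (`ryl_comp`), so `V'` contains a point over `w = f^[n] z`, which is `z` by `ryf_uniq`.  `V'` is preconnected, contains `z`, and `f^[n+1] '' V' = f '' U₁ ⊆ fce E (f w)` (`ryf_props` for `w`, `n = 1`), so `V' ⊆ Wn f E (n + 1) z` and `x ∈ closure (Wn f E (n + 1) z)`.
`x ∉ Wn f E (n + 1) z` because `f^[n] x ∈ frontier U₁` is not in the open set `U₁`, but `f^[n] '' Wn f E (n + 1) z ⊆ U₁` (`ryf_step`).
`ryg_small`: let `k` be as in `Inv.small`, `m₀` as in `Expd.contr` for `r / 2` or `r`; for `n ≥ m₀`: `f^[k + n] '' Wn f E n z = f^[k] '' fce E (f^[n] z)` has diameter less than `η` (`ryf_pcn`; `f^[k + n] = f^[k] ∘ f^[n]`), `k + n ≥ m₀`, so `diam (Wn f E n z) < r`; `Metric.diam_closure`.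
`ryg_disj`: `z' ∉ fce E z` by `fce E z ∩ P = {z}` (`ryf_face`), so the two faces are different (`mem_fce`), hence disjoint (`Fc.disj`).  `ryg_surj`: `z = f (f^[j - 1] z)`.
-/
import Mathlib
import Pool.Agent.ETM.RyF

set_option autoImplicit false

open Set Metric Topology Filter
open Pool.JS

namespace Pool.ETM

variable {X : Type*} [MetricSpace X] [CompactSpace X] [Sph X] {f : X → X} {P V : Set X} {E : Set (Set X)} {η : ℝ} {z z' : X}

theorem ryg_fr (hD : Dyn f P) (h : Inv f P η V E) (hz : z ∈ Pc f P) {n : ℕ} {x : X} (hx : x ∈ Wn f E n z)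
    (hfx : f^[n] x ∈ frontier (Wn f E 1 (f^[n] z))) : x ∈ frontier (Wn f E (n + 1) z) := by
  have hw : f^[n] z ∈ Pc f P := ryf_pcn hD hz n
  obtain ⟨o1, o2, -, -, -⟩ := ryf_props hD h hw 1
  have hpre : IsPreconnected (Wn f E 1 (f^[n] z)) := isPreconnected_connectedComponentIn
  have hDn := ryl_iter hD n
  obtain ⟨V', hV', hxV'⟩ := ryl_cover hDn o1 hpre (x := x) hfx.1
  obtain ⟨v1, v2, v3, v4⟩ := ryl_comp hDn o1 hpre hV'
  have hcl : closure (Wn f E 1 (f^[n] z)) ⊆ fce E (f^[n] z) := by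
    have h1 := ryf_nest hD h hw 0
    rw [ryf_zero h hw] at h1
    exact h1
  have hsub : closure V' ⊆ Wn f E n z := by
    show closure V' ⊆ connectedComponentIn (f^[n] ⁻¹' fce E (f^[n] z)) z
    rw [connectedComponentIn_eq hx]
    refine (hV'.conn.closure).subset_connectedComponentIn hxV' ?_
    intro y hy
    apply hcl
    rw [← v3]
    exact mem_image_of_mem _ hy
  have hzV : z ∈ V' := by
    have h1 : f^[n] z ∈ f^[n] '' V' := by
      rw [v2]
      exact ryf_mem hD h hw 1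
    obtain ⟨y, hy, hyz⟩ := h1
    have h2 := ryf_uniq hD h hz n (subset_closure (hsub (subset_closure hy))) hyz
    rw [← h2]
    exact hy
  have hV1 : V' ⊆ Wn f E (n + 1) z := by
    refine hV'.conn.subset_connectedComponentIn hzV ?_
    intro y hy
    show f^[n + 1] y ∈ fce E (f^[n + 1] z)
    rw [Function.iterate_succ_apply', Function.iterate_succ_apply']
    have h1 : f^[n] y ∈ Wn f E 1 (f^[n] z) := by
      rw [← v2]
      exact mem_image_of_mem _ hy
    have h2 : f^[1] (f^[n] y) ∈ fce E (f^[1] (f^[n] z)) := by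
      rw [← o2]
      exact mem_image_of_mem _ h1
    exact h2
  refine ⟨closure_mono hV1 hxV', ?_⟩
  rw [(ryf_props hD h hz (n + 1)).1.interior_eq]
  intro hxn
  have h1 : f^[n] x ∈ Wn f E 1 (f^[n] z) := ryf_step hD h hz n (mem_image_of_mem _ hxn)
  have h2 := hfx.2
  rw [o1.interior_eq] at h2
  exact h2 h1

theorem ryg_small (hD : Dyn f P) (he : Expd f P η) (h : Inv f P η V E) {r : ℝ} (hr : 0 < r) :
    ∃ N : ℕ, ∀ n ≥ N, ∀ z ∈ Pc f P, diam (closure (Wn f E n z)) < r := by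
  obtain ⟨k, hk⟩ := h.small
  obtain ⟨m₀, hm⟩ := he.contr r hr
  refine ⟨m₀, fun n hn z hz => ?_⟩
  rw [Metric.diam_closure]
  refine hm (k + n) (by omega) _ isPreconnected_connectedComponentIn ?_
  have h1 : f^[k + n] '' Wn f E n z = f^[k] '' fce E (f^[n] z) := by
    rw [Function.iterate_add, image_comp, (ryf_props hD h hz n).2.1]
  rw [h1]
  have hw := ryf_pcn hD hz n
  exact hk _ hw.1 hw.2

theorem ryg_disj (h : Inv f P η V E) (hz : z ∈ Pc f P) (hz' : z' ∈ Pc f P) (hne : z ≠ z') :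
    Disjoint (fce E z) (fce E z') := by
  obtain ⟨f1, f2, -, -, -, f3⟩ := ryf_face h hz
  obtain ⟨g1, g2, -, -, -, g3⟩ := ryf_face h hz'
  refine Fc.disj f1 g1 ?_
  intro heq
  have h1 : z' ∈ fce E z ∩ P := ⟨by
    rw [heq]
    exact g2, hz'.1⟩
  rw [f3] at h1
  exact hne (mem_singleton_iff.1 h1).symm

end Pool.ETM
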