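/-
Project ETM (MP_c7bb65_an), block RAY.
MODULE RyE (difficulty 3).  Existence of the ray data (12.1, 12.2).

RECIPE.  Let `H = pullE f E`, `VH = f ⁻¹' V`: good, `⋃₀ H = f ⁻¹' ⋃₀ E`, faces = components of preimages of faces (`pull_good` of ETM/If).  For `z ∈ Pc f P`: `U₀ z = fce E z` is a Jordan domain with frontier in `⋃₀ E ⊆ f ⁻¹' ⋃₀ E = ⋃₀ H` (`ryf_face`, `Inv.mapG`); `U₁ z = Wn f E 1 z` is a component of `f ⁻¹' fce E (f z)` (`ryf_comp`), so a face of `H`, and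
`closure (U₁ z) ⊆ U₀ z` (`ryf_nest`, `ryf_zero`).  `ryc_paths` gives `a z`, `c z`, `p z` (use `choose` over `z` and `hz`, or `choose!`).  `f '' frontier (U₁ z) = frontier (fce E (f z))` (`ryf_props`, `n = 1`) contains `a (f z) j` (`p (f z) j ∩ frontier (U₀ (f z)) = {a (f z) j}`, and `f z ∈ Pc f P`): choose `b₀ z j ∈ frontier (U₁ z)` with `f (b₀ z j) = a (f z) j`;
`b₀ z false ≠ b₀ z true` because `a (f z) false ≠ a (f z) true` (they lie in the disjoint arcs).  `ryd_xi` with `J = frontier (U₁ z)` (`JDom.jordan`) gives `ξ z`, `π z`.  Put `b z i = b₀ z (π z i)`.  Fields: `av`: `a z i ∈ f ⁻¹' V`.  `sub`: `ξ z i ⊆ p z i ∪ frontier (U₁ z) ⊆ ⋃₀ H`.  `cl`: clear.  `out`: `p z i` and `frontier (U₁ z)` are disjoint from the open set `U₁ z`.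
`fr`: `frontier (U₁ z) ⊆ closure (U₁ z) ⊆ U₀ z` is disjoint from `frontier (U₀ z)`; `a z i ∈ ξ z i` as an end point of the arc.  `disj` for `i ≠ j`: two cases.
-/
import Mathlib
import Pool.Agent.ETM.RyC
import Pool.Agent.ETM.RyD
import Pool.Agent.ETM.RyG

set_option autoImplicit false

open Set Metric Topology Filter
open Pool.JS

namespace Pool.ETM

variable {X : Type*} [MetricSpace X] [CompactSpace X] [Sph X] {f : X → X} {P V : Set X} {E : Set (Set X)} {η : ℝ}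

private theorem rye_one (hD : Dyn f P) (h : Inv f P η V E) {z : X} (hz : z ∈ Pc f P) :
    Wn f E 1 z ∈ Fc (pullE f E) ∧ closure (Wn f E 1 z) ⊆ fce E z := by
  obtain ⟨h1, h2, h3⟩ := pull_good hD h.good h.avoid h.one
  refine ⟨(h3 _).mpr ⟨fce E (f z), (ryf_face h (ryf_pc hD hz)).1, ?_⟩, ?_⟩
  · have := ryf_comp hD h hz 1
    simpa using this
  · have := ryf_nest hD h hz 0
    rwa [ryf_zero h hz] at this

private theorem rye_paths (hD : Dyn f P) (h : Inv f P η V E) {z : X} (hz : z ∈ Pc f P) :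
    ∃ (a c : Bool → X) (p : Bool → Set X), (∀ i, f (a i) ∈ V ∧ ArcX (p i) (a i) (c i) ∧ f '' p i ⊆ ⋃₀ E ∧
      p i ⊆ closure (fce E z) ∧ Disjoint (p i) (Wn f E 1 z) ∧ p i ∩ frontier (fce E z) = {a i} ∧
      p i ∩ frontier (Wn f E 1 z) = {c i}) ∧ Disjoint (p false) (p true) := by
  obtain ⟨h1, h2, h3⟩ := pull_good hD h.good h.avoid h.one
  obtain ⟨h4, h5, h6, h7, h8, h9⟩ := ryf_face h hz
  have hs : frontier (fce E z) ⊆ ⋃₀ pullE f E := by
    rw [h2]
    exact fun x hx => h.mapG (h7 hx)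
  obtain ⟨a, c, p, hp, hd⟩ := ryc_paths h1.pg h1.disc h6 hs (rye_one hD h hz).1 (rye_one hD h hz).2
  refine ⟨a, c, p, fun i => ?_, hd⟩
  obtain ⟨k1, k2, k3, k4, k5, k6, k7⟩ := hp i
  refine ⟨k1, k2, ?_, k4, k5, k6, k7⟩
  rw [h2] at k3
  exact image_subset_iff.mpr k3

theorem rye_dat (hD : Dyn f P) (h : Inv f P η V E) :
    ∃ (a b : X → Bool → X) (ξ : X → Bool → Set X) (π : X → Bool → Bool), RayDat f P V E a b ξ π := by
  have H : ∀ z, ∃ (a c : Bool → X) (p : Bool → Set X), z ∈ Pc f P → (∀ i, f (a i) ∈ V ∧ ArcX (p i) (a i) (c i) ∧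
      f '' p i ⊆ ⋃₀ E ∧ p i ⊆ closure (fce E z) ∧ Disjoint (p i) (Wn f E 1 z) ∧ p i ∩ frontier (fce E z) = {a i} ∧
      p i ∩ frontier (Wn f E 1 z) = {c i}) ∧ Disjoint (p false) (p true) := by
    intro z
    by_cases hz : z ∈ Pc f P
    · obtain ⟨a, c, p, h1⟩ := rye_paths hD h hz
      exact ⟨a, c, p, fun _ => h1⟩
    · exact ⟨fun _ => z, fun _ => z, fun _ => ∅, fun h1 => absurd h1 hz⟩
  choose a c p hp using H
  have H2 : ∀ z, ∃ (b : Bool → X) (ξ : Bool → Set X) (π : Bool → Bool), z ∈ Pc f P → Function.Injective π ∧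
      (∀ i, ArcX (ξ i) (a z i) (b i) ∧ ξ i ⊆ p z i ∪ frontier (Wn f E 1 z) ∧ b i ∈ frontier (Wn f E 1 z) ∧
        f (b i) = a (f z) (π i)) ∧ Disjoint (ξ false) (ξ true) := by
    intro z
    by_cases hz : z ∈ Pc f P
    · have hfz := ryf_pc hD hz
      obtain ⟨hp1, hp2⟩ := hp z hz
      obtain ⟨hq1, hq2⟩ := hp (f z) hfz
      have himg : f '' frontier (Wn f E 1 z) = frontier (fce E (f z)) := by
        have := (ryf_props hD h hz 1).2.2.1
        simpa using this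
      have ha : ∀ j, a (f z) j ∈ p (f z) j ∩ frontier (fce E (f z)) := fun j => by
        rw [(hq1 j).2.2.2.2.2.1]
        exact rfl
      have hex : ∀ j, ∃ y ∈ frontier (Wn f E 1 z), f y = a (f z) j := fun j => by
        have : a (f z) j ∈ f '' frontier (Wn f E 1 z) := by
          rw [himg]
          exact (ha j).2
        exact this
      choose b₀ hb₀ hfb₀ using hex
      have hbb : b₀ false ≠ b₀ true := fun heq => by
        have h1 : a (f z) false = a (f z) true := by rw [← hfb₀ false, ← hfb₀ true, heq]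
        exact Set.disjoint_left.mp hq2 (ha false).1 (by rw [h1]; exact (ha true).1)
      obtain ⟨ξ, π, h1, h2, h3⟩ := ryd_xi (ryf_props hD h hz 1).2.2.2.1.jordan (fun i => (hp1 i).2.1) hp2
        (fun i => (hp1 i).2.2.2.2.2.2) hb₀ hbb
      exact ⟨fun i => b₀ (π i), ξ, π, fun _ => ⟨h1, fun i => ⟨(h2 i).1, (h2 i).2, hb₀ _, hfb₀ _⟩, h3⟩⟩
    · exact ⟨fun _ => z, fun _ => ∅, id, fun h1 => absurd h1 hz⟩
  choose b ξ π hξ using H2
  have hfrG : ∀ z ∈ Pc f P, f '' frontier (Wn f E 1 z) ⊆ ⋃₀ E := fun z hz => by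
    have h1 : f '' frontier (Wn f E 1 z) = frontier (fce E (f z)) := by
      have := (ryf_props hD h hz 1).2.2.1
      simpa using this
    rw [h1]
    exact (ryf_face h (ryf_pc hD hz)).2.2.2.1
  have hfrU : ∀ z ∈ Pc f P, frontier (Wn f E 1 z) ⊆ fce E z := fun z hz =>
    frontier_subset_closure.trans (rye_one hD h hz).2
  refine ⟨a, b, ξ, π, ⟨fun z hz i => ((hξ z hz).2.1 i).1, fun z hz i => ((hp z hz).1 i).1, fun z hz i => ?_,
    fun z hz i => ?_, fun z hz i => ?_, fun z hz i => ?_, fun z hz i => ((hξ z hz).2.1 i).2.2.1,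
    fun z hz i => ((hξ z hz).2.1 i).2.2.2, fun z hz => (hξ z hz).1, fun z hz i j hij => ?_⟩⟩
  · refine (image_mono ((hξ z hz).2.1 i).2.1).trans ?_
    rw [image_union]
    exact union_subset ((hp z hz).1 i).2.2.1 (hfrG z hz)
  · exact ((hξ z hz).2.1 i).2.1.trans
      (union_subset ((hp z hz).1 i).2.2.2.1 ((hfrU z hz).trans subset_closure))
  · refine Disjoint.mono_left ((hξ z hz).2.1 i).2.1 ?_
    refine Set.disjoint_union_left.mpr ⟨((hp z hz).1 i).2.2.2.2.1, ?_⟩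
    have ho : IsOpen (Wn f E 1 z) := (ryf_props hD h hz 1).1
    rw [ho.frontier_eq]
    exact disjoint_sdiff_left
  · have ho : IsOpen (fce E z) := (ryf_face h hz).2.2.1.isOpen
    refine Subset.antisymm ?_ ?_
    · rintro x ⟨hx, hxf⟩
      rcases ((hξ z hz).2.1 i).2.1 hx with hx1 | hx1
      · rw [← ((hp z hz).1 i).2.2.2.2.2.1]
        exact ⟨hx1, hxf⟩
      · rw [ho.frontier_eq] at hxf
        exact absurd (hfrU z hz hx1) hxf.2
    · rintro x rfl
      have h1 : a z i ∈ p z i ∩ frontier (fce E z) := by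
        rw [((hp z hz).1 i).2.2.2.2.2.1]
        exact rfl
      exact ⟨((hξ z hz).2.1 i).1.left_mem, h1.2⟩
  · cases i <;> cases j
    · exact absurd rfl hij
    · exact (hξ z hz).2.2
    · exact (hξ z hz).2.2.symm
    · exact absurd rfl hij

end Pool.ETM
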