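/-
Project ETM (MP_c7bb65_an), block RAY.
MODULE RyA (difficulty 3).  An infinite chain of arcs converging to a point is an arc.

RECIPE.  Let `g n : ℝ → X` parametrise `A n` (`ArcX`): `ContinuousOn (g n) (Icc 0 1)`, injective, `g n 0 = e n`, `g n 1 = e (n + 1)`.  Put `Φ u = g ⌊u⌋₊ (u - ⌊u⌋₊)` for `u ≥ 0`.
On `Icc n (n + 1)` the function `Φ` is equal to `u ↦ g n (u - n)` (also at `u = n + 1`, because `g n 1 = e (n + 1) = g (n + 1) 0`), so `Φ` is continuous on `Icc 0 N` for every `N : ℕ` (induction, `ContinuousOn.union_of_isClosed`-type lemma for `Icc 0 N ∪ Icc N (N + 1)`), hence on `Ici 0` (a point of `Ici 0` has the neighbourhood `Iio N`).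
`Φ` is injective on `Ici 0`: let `Φ u = Φ v`, `n = ⌊u⌋₊ ≤ m = ⌊v⌋₊`.  `n = m`: injectivity of `g n`.  `m = n + 1`: the common point is in `A n ∩ A (n + 1) = {e (n + 1)}`, so `g n (u - n) = g n 1`, `u - n = 1`: contradiction.  `m ≥ n + 2`: `A n`, `A m` are disjoint.
The parametrisation: `γ t = Φ (t / (1 - t))` for `t < 1`, `γ t = z` for `t ≥ 1` (`t ↦ t / (1 - t)` is a continuous bijection from `[0, 1)` onto `[0, ∞)`).  Continuity at `1`: for an open `O ∋ z` let `N` be as in `hlim`; for `t` close to `1` one has `t / (1 - t) ≥ N`, so `γ t ∈ A n` for some `n ≥ N`.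
Injective: `z` is in no `A n`.  Image: `insert z (⋃ n, A n)`.
-/
import Mathlib
import Pool.Agent.JS.SpDefs

set_option autoImplicit false

open Set Metric Topology Filter
open Pool.JS

namespace Pool.ETM

variable {X : Type*} [TopologicalSpace X] [T2Space X] {A : ℕ → Set X} {e : ℕ → X} {z : X}

/-- the infinite concatenation -/
private noncomputable def rya_Phi (g : ℕ → ℝ → X) (u : ℝ) : X := g ⌊u⌋₊ (u - ⌊u⌋₊)

omit [TopologicalSpace X] [T2Space X] in
private theorem rya_eq {g : ℕ → ℝ → X} (hg : ∀ n, g n 1 = g (n + 1) 0) {n : ℕ} {u : ℝ} (h1 : (n : ℝ) ≤ u) (h2 : u ≤ n + 1) :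
    rya_Phi g u = g n (u - n) := by
  have h0 : 0 ≤ u := le_trans (Nat.cast_nonneg n) h1
  rcases h2.lt_or_eq with h | h
  · have : ⌊u⌋₊ = n := (Nat.floor_eq_iff h0).2 ⟨h1, h⟩
    rw [rya_Phi, this]
  · have : ⌊u⌋₊ = n + 1 := by
      rw [Nat.floor_eq_iff h0]
      subst h
      push_cast
      constructor <;> linarith
    rw [rya_Phi, this, h]
    push_cast
    rw [sub_self, add_sub_cancel_left, hg]

omit [T2Space X] in
private theorem rya_cont {g : ℕ → ℝ → X} (hc : ∀ n, ContinuousOn (g n) (Icc 0 1)) (hg : ∀ n, g n 1 = g (n + 1) 0) :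
    ContinuousOn (rya_Phi g) (Ici 0) := by
  have h1 : ∀ n : ℕ, ContinuousOn (rya_Phi g) (Icc (n : ℝ) (n + 1)) := by
    intro n
    have h2 : ContinuousOn (fun u : ℝ => g n (u - n)) (Icc (n : ℝ) (n + 1)) := by
      apply (hc n).comp (by fun_prop)
      intro u hu
      simp only [mem_Icc] at hu ⊢
      constructor <;> linarith [hu.1, hu.2]
    exact h2.congr fun u hu => rya_eq hg hu.1 hu.2
  have h2 : ∀ n : ℕ, ContinuousOn (rya_Phi g) (Icc (0 : ℝ) n) := by
    intro n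
    induction n with
    | zero =>
      rw [Nat.cast_zero, Icc_self]
      exact continuousOn_singleton _ _
    | succ n ih =>
      have h3 : Icc (0 : ℝ) ((n + 1 : ℕ) : ℝ) = Icc 0 (n : ℝ) ∪ Icc (n : ℝ) (n + 1) := by
        rw [Icc_union_Icc_eq_Icc (Nat.cast_nonneg n) (by linarith)]
        push_cast
        rfl
      rw [h3]
      exact ih.union_of_isClosed (h1 n) isClosed_Icc isClosed_Icc
  intro u hu
  obtain ⟨n, hn⟩ := exists_nat_gt u
  apply ((h2 n) u ⟨hu, hn.le⟩).mono_of_mem_nhdsWithin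
  rw [mem_nhdsWithin]
  exact ⟨Iio (n : ℝ), isOpen_Iio, hn, fun y hy => ⟨hy.2, le_of_lt hy.1⟩⟩

private theorem rya_floor {u : ℝ} (hu : 0 ≤ u) : (⌊u⌋₊ : ℝ) ≤ u ∧ u < ⌊u⌋₊ + 1 :=
  ⟨Nat.floor_le hu, Nat.lt_floor_add_one u⟩

theorem rya_chain (hA : ∀ n, ArcX (A n) (e n) (e (n + 1))) (h1 : ∀ n, A n ∩ A (n + 1) = {e (n + 1)})
    (h2 : ∀ n m, n + 2 ≤ m → Disjoint (A n) (A m)) (hz : ∀ n, z ∉ A n)
    (hlim : ∀ O : Set X, IsOpen O → z ∈ O → ∃ N, ∀ n ≥ N, A n ⊆ O) :
    ArcX (insert z (⋃ n, A n)) (e 0) z := by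
  choose g hc hi him h0 hone using hA
  have hg : ∀ n, g n 1 = g (n + 1) 0 := fun n => by rw [hone, h0]
  have hmem : ∀ n (t : ℝ), t ∈ Icc (0 : ℝ) 1 → g n t ∈ A n := fun n t ht => by
    rw [← him n]
    exact mem_image_of_mem _ ht
  have hΦmem : ∀ u : ℝ, 0 ≤ u → rya_Phi g u ∈ A ⌊u⌋₊ := by
    intro u hu
    obtain ⟨h3, h4⟩ := rya_floor hu
    exact hmem _ _ ⟨by linarith, by linarith⟩
  have hcont := rya_cont hc hg
  have hinj' : ∀ u v : ℝ, 0 ≤ u → 0 ≤ v → ⌊u⌋₊ ≤ ⌊v⌋₊ → rya_Phi g u = rya_Phi g v → u = v := by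
    intro u v hu hv hle huv
    obtain ⟨h3, h4⟩ := rya_floor hu
    obtain ⟨h5, h6⟩ := rya_floor hv
    rcases hle.eq_or_lt with heq | hlt
    · rw [rya_Phi, rya_Phi, ← heq] at huv
      have h7 := hi _ (⟨by linarith, by linarith⟩ : u - ⌊u⌋₊ ∈ Icc (0 : ℝ) 1)
        (⟨by rw [heq]; linarith, by rw [heq]; linarith⟩ : v - ⌊u⌋₊ ∈ Icc (0 : ℝ) 1) huv
      linarith
    · exfalso
      have hu' := hΦmem u hu
      have hv' := hΦmem v hv
      rw [huv] at hu'
      rcases (Nat.succ_le_of_lt hlt).eq_or_lt with heq | hlt'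
      · have h7 : rya_Phi g v ∈ A ⌊u⌋₊ ∩ A (⌊u⌋₊ + 1) := ⟨hu', (Nat.succ_eq_add_one _ ▸ heq : ⌊u⌋₊ + 1 = ⌊v⌋₊).symm ▸ hv'⟩
        rw [h1] at h7
        have h8 : g ⌊u⌋₊ (u - ⌊u⌋₊) = g ⌊u⌋₊ 1 := by
          rw [hone]
          have : rya_Phi g u = e (⌊u⌋₊ + 1) := by rw [huv]; exact h7
          exact this
        have h9 := hi _ (⟨by linarith, by linarith⟩ : u - ⌊u⌋₊ ∈ Icc (0 : ℝ) 1)
          (⟨zero_le_one, le_rfl⟩ : (1 : ℝ) ∈ Icc (0 : ℝ) 1) h8
        linarith
      · exact disjoint_left.1 (h2 ⌊u⌋₊ ⌊v⌋₊ hlt') hu' hv'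
  have hinj : ∀ u v : ℝ, 0 ≤ u → 0 ≤ v → rya_Phi g u = rya_Phi g v → u = v := by
    intro u v hu hv huv
    rcases le_total ⌊u⌋₊ ⌊v⌋₊ with h | h
    · exact hinj' u v hu hv h huv
    · exact (hinj' v u hv hu h huv.symm).symm
  have hsur : ∀ n, ∀ x ∈ A n, ∃ u : ℝ, 0 ≤ u ∧ rya_Phi g u = x := by
    intro n x hx
    rw [← him n] at hx
    obtain ⟨t, ht, rfl⟩ := hx
    refine ⟨n + t, by have := ht.1; positivity, ?_⟩
    rw [rya_eq hg (n := n) (by linarith [ht.1]) (by linarith [ht.2]), add_sub_cancel_left]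
  have hs : ∀ t : ℝ, 0 ≤ t → t < 1 → 0 ≤ t / (1 - t) := fun t h3 h4 => div_nonneg h3 (by linarith)
  refine ⟨fun t => open Classical in if t < 1 then rya_Phi g (t / (1 - t)) else z, ?_, ?_, ?_, ?_, ?_⟩
  · intro t ht
    rcases lt_or_ge t 1 with hlt | hge
    · have h3 : ContinuousOn (fun t : ℝ => rya_Phi g (t / (1 - t))) (Ico 0 1) := by
        apply hcont.comp
        · apply ContinuousOn.div continuousOn_id (by fun_prop)
          intro x hx
          have := hx.2
          linarith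
        · intro x hx
          exact hs x hx.1 hx.2
      have h4 : ContinuousWithinAt (fun t : ℝ => rya_Phi g (t / (1 - t))) (Icc 0 1) t := by
        apply (h3 t ⟨ht.1, hlt⟩).mono_of_mem_nhdsWithin
        rw [mem_nhdsWithin]
        exact ⟨Iio 1, isOpen_Iio, hlt, fun y hy => ⟨hy.2.1, hy.1⟩⟩
      apply h4.congr_of_eventuallyEq
      · rw [eventuallyEq_iff_exists_mem]
        refine ⟨Iio 1, mem_nhdsWithin_of_mem_nhds (isOpen_Iio.mem_nhds hlt), fun y hy => ?_⟩
        exact if_pos hy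
      · exact if_pos hlt
    · have ht1 : t = 1 := le_antisymm ht.2 hge
      subst ht1
      rw [ContinuousWithinAt, if_neg (lt_irrefl _)]
      rw [_root_.tendsto_nhds]
      intro O hO hzO
      obtain ⟨N, hN⟩ := hlim O hO hzO
      rw [mem_nhdsWithin]
      refine ⟨Ioi ((N : ℝ) / (N + 1)), isOpen_Ioi, ?_, ?_⟩
      · show (N : ℝ) / (N + 1) < 1
        rw [div_lt_one (by positivity)]
        linarith
      · rintro y ⟨hy, hy0, hy1⟩
        simp only [mem_preimage]
        rcases hy1.lt_or_eq with h3 | h3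
        · rw [if_pos h3]
          have h4 : (N : ℝ) ≤ y / (1 - y) := by
            rw [le_div_iff₀ (by linarith)]
            have h5 : (N : ℝ) / (N + 1) < y := hy
            rw [div_lt_iff₀ (by positivity)] at h5
            nlinarith
          have h5 : N ≤ ⌊y / (1 - y)⌋₊ := Nat.le_floor h4
          exact hN _ h5 (hΦmem _ (hs y hy0 h3))
        · rw [if_neg (by linarith)]
          exact hzO
  · intro t ht s hs' hts
    simp only at hts
    by_cases h3 : t < 1 <;> by_cases h4 : s < 1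
    · rw [if_pos h3, if_pos h4] at hts
      have h5 := hinj _ _ (hs t ht.1 h3) (hs s hs'.1 h4) hts
      rw [div_eq_div_iff (by linarith) (by linarith)] at h5
      linarith
    · rw [if_pos h3, if_neg h4] at hts
      exact absurd (hts ▸ hΦmem _ (hs t ht.1 h3)) (hz _)
    · rw [if_neg h3, if_pos h4] at hts
      exact absurd (hts ▸ hΦmem _ (hs s hs'.1 h4)) (hz _)
    · have := ht.2
      have := hs'.2
      linarith
  · ext x
    simp only [mem_image, mem_insert_iff, mem_iUnion]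
    constructor
    · rintro ⟨t, ht, rfl⟩
      by_cases h3 : t < 1
      · rw [if_pos h3]
        exact Or.inr ⟨_, hΦmem _ (hs t ht.1 h3)⟩
      · rw [if_neg h3]
        exact Or.inl rfl
    · rintro (rfl | ⟨n, hn⟩)
      · exact ⟨1, ⟨zero_le_one, le_rfl⟩, if_neg (lt_irrefl _)⟩
      · obtain ⟨u, hu, rfl⟩ := hsur n x hn
        have hpos : 0 < 1 + u := by linarith
        refine ⟨u / (1 + u), ⟨by positivity, ?_⟩, ?_⟩
        · rw [div_le_one hpos]
          linarith
        · have h3 : u / (1 + u) < 1 := by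
            rw [div_lt_one hpos]
            linarith
          rw [if_pos h3]
          congr 1
          field_simp
          ring
  · show (if (0 : ℝ) < 1 then rya_Phi g (0 / (1 - 0)) else z) = e 0
    rw [if_pos zero_lt_one, zero_div, rya_eq hg (n := 0) (by simp) (by simp)]
    simp [h0]
  · exact if_neg (lt_irrefl _)

end Pool.ETM
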