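/-
Project ETM (MP_c7bb65_an), block RAY.
MODULE RyH (difficulty 3).  Existence, uniqueness and shift of the rays (12.3).

RECIPE.  `lab_shift`: induction on `n` (`f^[n] (f z) = f^[n+1] z`).  `lab_inj`: induction, `RayDat.bij` at `f^[n] z ∈ Pc f P` (`ryf_pcn`).
`ryh_avoid`: `x ∈ ξ z i ∩ P` would give `f x ∈ ⋃₀ E ∩ P` (`RayDat.sub`, `Dyn.mapsP`), contradiction to `Inv.avoid`.
`ryh_exists`: construct `e` by recursion.  Step lemma: if `f^[n] x = a (f^[n] z) l`, `l = lab f π n z i`, put `A = connectedComponentIn (f^[n] ⁻¹' ξ (f^[n] z) l) x`; it is a component (`IsComp`), so by `ryl_arc` for `f^[n]` (`ryl_iter`; `ξ` is disjoint from `P`) it is an arc mapped homeomorphically onto `ξ (f^[n] z) l`, with end points over `a (f^[n] z) l` and `b (f^[n] z) l`;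
the first one is `x` (injectivity on `A`), call the second one `y`: `f^[n] y = b (f^[n] z) l`, so `f^[n+1] y = f (b ..) = a (f^[n+1] z) (π (f^[n] z) l) = a (f^[n+1] z) (lab f π (n + 1) z i)` (`RayDat.bim`).  Use `Nat.rec` into the subtype `{x // f^[n] x = a (f^[n] z) (lab f π n z i)}` (a sigma type over `n`), or `exists_seq`-type dependent choice.
`ryh_unique`: for an `IsRay` the arc `A n` is the component `c` of `f^[n] ⁻¹' ξ (..)` which contains `e n`: `A n` is connected and contained in it, `f^[n]` is injective on `c` (`ryl_arc`) and `f^[n] '' A n = f^[n] '' c`.  Induction: `e n = e' n` implies `A n = A' n`, and `e (n + 1) = e' (n + 1)`: both in `A n`, same image under the injective `f^[n]`.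
Start: `e 0 = a z i` by `IsRay.st` with `n = 0`.
`ryh_shift`: `f^[n + 1] = f^[n] ∘ f` is injective on `A (n + 1)`, so `f` is injective there and `f^[n]` is injective on `f '' A (n + 1)`; the image of an arc under a continuous injective map is an arc (compose the parametrisation); `lab_shift`.
-/
import Mathlib
import Pool.Agent.ETM.RyG

set_option autoImplicit false

open Set Metric Topology Filter
open Pool.JS

namespace Pool.ETM

variable {X : Type*} [MetricSpace X] [CompactSpace X] [Sph X] {f : X → X} {P V : Set X} {E : Set (Set X)} {η : ℝ} {z : X}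
  {a b : X → Bool → X} {ξ : X → Bool → Set X} {π : X → Bool → Bool} {i : Bool} {e e' : ℕ → X} {A A' : ℕ → Set X}

theorem lab_shift (f : X → X) (π : X → Bool → Bool) (n : ℕ) (z : X) (i : Bool) :
    lab f π (n + 1) z i = lab f π n (f z) (π z i) := by
  induction n with
  | zero => rfl
  | succ n ih =>
    show π (f^[n + 1] z) (lab f π (n + 1) z i) = π (f^[n] (f z)) (lab f π n (f z) (π z i))
    rw [ih, Function.iterate_succ_apply]

theorem lab_inj (hD : Dyn f P) (hR : RayDat f P V E a b ξ π) (hz : z ∈ Pc f P) (n : ℕ) :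
    Function.Injective (lab f π n z) := by
  induction n with
  | zero =>
    intro i j hij
    exact hij
  | succ n ih =>
    intro i j hij
    exact ih (hR.bij _ (ryf_pcn hD hz n) hij)

theorem ryh_avoid (hD : Dyn f P) (h : Inv f P η V E) (hR : RayDat f P V E a b ξ π) (hz : z ∈ Pc f P) (i : Bool) :
    Disjoint (ξ z i) P := by
  rw [Set.disjoint_left]
  intro x hx hxP
  exact Set.disjoint_left.1 h.avoid (hR.sub z hz i (mem_image_of_mem f hx)) (hD.mapsP hxP)

private theorem ryh_cc {S : Set X} {x : X} (hx : x ∈ S) : IsComp (connectedComponentIn S x) S := by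
  refine ⟨⟨x, mem_connectedComponentIn hx⟩, isPreconnected_connectedComponentIn, ?_, ?_⟩
  · rw [compl_compl]
    exact connectedComponentIn_subset S x
  · rintro C hC hCs ⟨y, hyC, hy⟩
    rw [compl_compl] at hCs
    rw [connectedComponentIn_eq hy]
    exact hC.subset_connectedComponentIn hyC hCs

private theorem ryh_step (hD : Dyn f P) (h : Inv f P η V E) (hR : RayDat f P V E a b ξ π) (hz : z ∈ Pc f P) (i : Bool)
    (n : ℕ) (x : X) (hx : f^[n] x = a (f^[n] z) (lab f π n z i)) :
    ArcX (connectedComponentIn (f^[n] ⁻¹' ξ (f^[n] z) (lab f π n z i)) x) x x ∨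
    ∃ y, ArcX (connectedComponentIn (f^[n] ⁻¹' ξ (f^[n] z) (lab f π n z i)) x) x y ∧
      InjOn f^[n] (connectedComponentIn (f^[n] ⁻¹' ξ (f^[n] z) (lab f π n z i)) x) ∧
      f^[n] '' (connectedComponentIn (f^[n] ⁻¹' ξ (f^[n] z) (lab f π n z i)) x) = ξ (f^[n] z) (lab f π n z i) ∧
      f^[n] y = b (f^[n] z) (lab f π n z i) ∧ f^[n + 1] y = a (f^[n + 1] z) (lab f π (n + 1) z i) := by
  right
  have hw := ryf_pcn hD hz n
  have harc := hR.arc _ hw (lab f π n z i)
  have hxs : x ∈ f^[n] ⁻¹' ξ (f^[n] z) (lab f π n z i) := by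
    show f^[n] x ∈ ξ (f^[n] z) (lab f π n z i)
    rw [hx]
    exact harc.left_mem
  obtain ⟨h1, h2, a', b', h3, h4, h5⟩ := ryl_arc (ryl_iter hD n) harc (ryh_avoid hD h hR hw _) (ryh_cc hxs)
  have h6 : a' = x := h1 h3.left_mem (mem_connectedComponentIn hxs) (h4.trans hx.symm)
  subst h6
  refine ⟨b', h3, h1, h2, h5, ?_⟩
  rw [Function.iterate_succ_apply', Function.iterate_succ_apply', h5]
  exact hR.bim _ hw _

theorem ryh_exists (hD : Dyn f P) (h : Inv f P η V E) (hR : RayDat f P V E a b ξ π) (hz : z ∈ Pc f P) (i : Bool) :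
    ∃ (e : ℕ → X) (A : ℕ → Set X), IsRay f a b ξ π z i e A := by
  have hne : Nonempty X := ⟨z⟩
  have key : ∀ (n : ℕ) (x : X), f^[n] x = a (f^[n] z) (lab f π n z i) →
      ∃ y, ArcX (connectedComponentIn (f^[n] ⁻¹' ξ (f^[n] z) (lab f π n z i)) x) x y ∧
      InjOn f^[n] (connectedComponentIn (f^[n] ⁻¹' ξ (f^[n] z) (lab f π n z i)) x) ∧
      f^[n] '' (connectedComponentIn (f^[n] ⁻¹' ξ (f^[n] z) (lab f π n z i)) x) = ξ (f^[n] z) (lab f π n z i) ∧
      f^[n] y = b (f^[n] z) (lab f π n z i) ∧ f^[n + 1] y = a (f^[n + 1] z) (lab f π (n + 1) z i) := by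
    intro n x hx
    rcases ryh_step hD h hR hz i n x hx with h1 | h1
    · exact absurd rfl h1.ne
    · exact h1
  choose! Y h1 h2 h3 h4 h5 using key
  let e : ℕ → X := fun n => Nat.rec (a z i) (fun n x => Y n x) n
  have he : ∀ n, f^[n] (e n) = a (f^[n] z) (lab f π n z i) := by
    intro n
    induction n with
    | zero => rfl
    | succ n ih => exact h5 n (e n) ih
  refine ⟨e, fun n => connectedComponentIn (f^[n] ⁻¹' ξ (f^[n] z) (lab f π n z i)) (e n), ?_, ?_, ?_, he, ?_⟩
  · intro n
    exact h1 n (e n) (he n)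
  · intro n
    exact h2 n (e n) (he n)
  · intro n
    exact h3 n (e n) (he n)
  · intro n
    exact h4 n (e n) (he n)

private theorem ryh_eqcc (hD : Dyn f P) (h : Inv f P η V E) (hR : RayDat f P V E a b ξ π) (hz : z ∈ Pc f P)
    (hA : IsRay f a b ξ π z i e A) (n : ℕ) :
    A n = connectedComponentIn (f^[n] ⁻¹' ξ (f^[n] z) (lab f π n z i)) (e n) := by
  have hw := ryf_pcn hD hz n
  have harc := hR.arc _ hw (lab f π n z i)
  have hen : e n ∈ A n := (hA.arc n).left_mem
  have hsub : A n ⊆ f^[n] ⁻¹' ξ (f^[n] z) (lab f π n z i) := by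
    intro y hy
    show f^[n] y ∈ ξ (f^[n] z) (lab f π n z i)
    rw [← hA.img n]
    exact mem_image_of_mem _ hy
  have hc := ryh_cc (hsub hen)
  obtain ⟨h1, h2, -⟩ := ryl_arc (ryl_iter hD n) harc (ryh_avoid hD h hR hw _) hc
  have h3 : A n ⊆ connectedComponentIn (f^[n] ⁻¹' ξ (f^[n] z) (lab f π n z i)) (e n) :=
    (hA.arc n).isConnected.isPreconnected.subset_connectedComponentIn hen hsub
  refine Subset.antisymm h3 ?_
  intro y hy
  have h4 : f^[n] y ∈ f^[n] '' A n := by
    rw [hA.img n, ← h2]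
    exact mem_image_of_mem _ hy
  obtain ⟨y', hy', hyy⟩ := h4
  have h5 : y' = y := h1 (h3 hy') hy hyy
  rw [← h5]
  exact hy'

theorem ryh_unique (hD : Dyn f P) (h : Inv f P η V E) (hR : RayDat f P V E a b ξ π) (hz : z ∈ Pc f P)
    (hA : IsRay f a b ξ π z i e A) (hA' : IsRay f a b ξ π z i e' A') : e = e' ∧ A = A' := by
  have key : ∀ n, e n = e' n := by
    intro n
    induction n with
    | zero => exact (hA.st 0).trans (hA'.st 0).symm
    | succ n ih =>
      have h1 : A n = A' n := by
        rw [ryh_eqcc hD h hR hz hA n, ryh_eqcc hD h hR hz hA' n, ih]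
      have h2 : e (n + 1) ∈ A n := (hA.arc n).right_mem
      have h3 : e' (n + 1) ∈ A n := by
        rw [h1]
        exact (hA'.arc n).right_mem
      exact hA.inj n h2 h3 ((hA.en n).trans (hA'.en n).symm)
  refine ⟨funext key, funext fun n => ?_⟩
  rw [ryh_eqcc hD h hR hz hA n, ryh_eqcc hD h hR hz hA' n, key n]

theorem ryh_shift (hD : Dyn f P) (hR : RayDat f P V E a b ξ π) (hz : z ∈ Pc f P) (hA : IsRay f a b ξ π z i e A) :
    IsRay f a b ξ π (f z) (π z i) (fun n => f (e (n + 1))) (fun n => f '' A (n + 1)) := by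
  refine ⟨?_, ?_, ?_, ?_, ?_⟩
  · intro n
    refine (hA.arc (n + 1)).image hD.cont.continuousOn ?_
    intro x hx y hy hxy
    apply hA.inj (n + 1) hx hy
    rw [Function.iterate_succ_apply, Function.iterate_succ_apply, hxy]
  · rintro n _ ⟨x, hx, rfl⟩ _ ⟨y, hy, rfl⟩ hxy
    rw [← Function.iterate_succ_apply, ← Function.iterate_succ_apply] at hxy
    rw [hA.inj (n + 1) hx hy hxy]
  · intro n
    have h1 := hA.img (n + 1)
    rw [lab_shift, Function.iterate_succ_apply] at h1
    rw [← h1, ← image_comp]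
    rfl
  · intro n
    have h1 := hA.st (n + 1)
    rw [lab_shift, Function.iterate_succ_apply, Function.iterate_succ_apply] at h1
    exact h1
  · intro n
    have h1 := hA.en (n + 1)
    rw [lab_shift, Function.iterate_succ_apply, Function.iterate_succ_apply] at h1
    exact h1

end Pool.ETM
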