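/-
Project ETM (MP_c7bb65_an), block RAY.
MODULE RyI (difficulty 3).  Position of the arcs of the rays.

RECIPE.  Write `W n = Wn f E n z`, `w n = f^[n] z ∈ Pc f P`, `l n = lab f π n z i`.
`ryi_mem` by induction on `n`: (`e n ∈ frontier (W n)`) implies (`A n ⊆ closure (W n)` and `e (n + 1) ∈ frontier (W (n + 1))`).  Start: `e 0 = a z i ∈ frontier (fce E z)` (`IsRay.st`, `RayDat.fr`, `ryf_zero`).  `A n` is connected, contains `e n ∈ closure (W n)` and `f^[n] '' A n = ξ (w n) (l n) ⊆ closure (fce E (w n))` (`RayDat.cl`), and `closure (W n)` is a component of `f^[n] ⁻¹' closure (fce E (w n))` (`ryf_props`), so `A n ⊆ closure (W n)`.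
`y = e (n + 1) ∈ A n`, `f^[n] y = b (w n) (l n) ∈ frontier (Wn f E 1 (w n))` (`RayDat.bfr`) `⊆ closure (Wn f E 1 (w n)) ⊆ fce E (w n)` (`ryf_nest`, `ryf_zero`); so `y ∉ frontier (W n)` (its image would be in `frontier (fce E (w n))`, disjoint from the open `fce E (w n)`), `y ∈ W n` and `ryg_fr`.
`ryi_fr`: `x ∈ A n ∩ frontier (W n)`: `f^[n] x ∈ ξ (w n) (l n) ∩ frontier (fce E (w n)) = {a (w n) (l n)}`, so `f^[n] x = f^[n] (e n)`, `x = e n`.  `ryi_out`: `f^[n] '' W (n + 1) ⊆ Wn f E 1 (w n)` (`ryf_step`) is disjoint from `ξ (w n) (l n)` (`RayDat.out`).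
`ryi_next`: a common point of `A n` and `A (n + 1) ⊆ closure (W (n + 1))` is not in `W (n + 1)` (`ryi_out`), so in its frontier: `ryi_fr`.  `ryi_far`: `A m ⊆ closure (W m) ⊆ W (m - 1) ⊆ W (n + 1)` (`ryf_nest`), `ryi_out`.
`ryi_disj`: `n = m`: `f^[n]` of a common point is in `ξ (w n) (lab f π n z i) ∩ ξ (w n) (lab f π n z j)`, the labels are different (`lab_inj`), `RayDat.disj`.  `m ≥ n + 2` (or `n ≥ m + 2`): as in `ryi_far`.  `m = n + 1`: the common point is in the frontier of `W (n + 1)`, so it is `e' (n + 1) ∈ A' n`: case `n = m`.  Symmetric for `n = m + 1`.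
`ryi_in`: `A (n + 1) ⊆ closure (W (n + 1)) ⊆ W n ⊆ W 0 = fce E z`; `A 0 = ξ z i ⊆ closure (fce E z)`, and its points in the frontier are `a z i`.
`ryi_arc`: `rya_chain`: `z ∉ A n` because `z ∈ W (n + 1)`; limit: for an open `O ∋ z` take `r` with `ball z r ⊆ O` and `ryg_small`: `A n ⊆ closure (W n)`, `z ∈ W n`, diameter less than `r` (`Metric.dist_le_diam_of_mem`, compact space so bounded).
-/
import Mathlib
import Pool.Agent.ETM.RyA
import Pool.Agent.ETM.RyH

set_option autoImplicit false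

open Set Metric Topology Filter
open Pool.JS

namespace Pool.ETM

variable {X : Type*} [MetricSpace X] [CompactSpace X] [Sph X] {f : X → X} {P V : Set X} {E : Set (Set X)} {η : ℝ} {z : X}
  {a b : X → Bool → X} {ξ : X → Bool → Set X} {π : X → Bool → Bool} {i j : Bool} {e e' : ℕ → X} {A A' : ℕ → Set X}

private theorem ryi_fr_of {U : Set X} (hU : IsOpen U) {x : X} (h1 : x ∈ closure U) (h2 : x ∉ U) : x ∈ frontier U := by
  refine ⟨h1, ?_⟩
  rwa [hU.interior_eq]

private theorem ryi_notin {U : Set X} (hU : IsOpen U) {x : X} (h1 : x ∈ frontier U) : x ∉ U := by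
  have h2 := h1.2
  rwa [hU.interior_eq] at h2

private theorem ryi_imA (hA : IsRay f a b ξ π z i e A) {n : ℕ} {x : X} (hx : x ∈ A n) :
    f^[n] x ∈ ξ (f^[n] z) (lab f π n z i) := by
  rw [← hA.img n]
  exact mem_image_of_mem _ hx

private theorem ryi_zero (hA : IsRay f a b ξ π z i e A) : e 0 = a z i := hA.st 0

private theorem ryi_aux1 (hD : Dyn f P) (h : Inv f P η V E) (hR : RayDat f P V E a b ξ π) (hz : z ∈ Pc f P)
    (hA : IsRay f a b ξ π z i e A) (n : ℕ) (he : e n ∈ frontier (Wn f E n z)) : A n ⊆ closure (Wn f E n z) := by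
  obtain ⟨_, _, _, _, hcl⟩ := ryf_props hD h hz n
  apply hcl.max _ (hA.arc n).isConnected.isPreconnected
  · rw [compl_compl]
    intro x hx
    exact hR.cl _ (ryf_pcn hD hz n) _ (ryi_imA hA hx)
  · exact ⟨e n, (hA.arc n).left_mem, frontier_subset_closure he⟩

private theorem ryi_aux2 (hD : Dyn f P) (h : Inv f P η V E) (hR : RayDat f P V E a b ξ π) (hz : z ∈ Pc f P)
    (hA : IsRay f a b ξ π z i e A) (n : ℕ) (hs : A n ⊆ closure (Wn f E n z)) :
    e (n + 1) ∈ frontier (Wn f E (n + 1) z) := by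
  obtain ⟨ho, _, hfr, _, _⟩ := ryf_props hD h hz n
  have hw := ryf_pcn hD hz n
  have hy : e (n + 1) ∈ closure (Wn f E n z) := hs (hA.arc n).right_mem
  have hb : f^[n] (e (n + 1)) ∈ frontier (Wn f E 1 (f^[n] z)) := by
    rw [hA.en n]
    exact hR.bfr _ hw _
  have hb2 : f^[n] (e (n + 1)) ∈ fce E (f^[n] z) := by
    rw [← ryf_zero h hw]
    exact ryf_nest hD h hw 0 (frontier_subset_closure hb)
  have hyW : e (n + 1) ∈ Wn f E n z := by
    by_contra hno
    have h1 : f^[n] (e (n + 1)) ∈ frontier (fce E (f^[n] z)) := by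
      rw [← hfr]
      exact mem_image_of_mem _ (ryi_fr_of ho hy hno)
    exact ryi_notin (ryf_face h hw).2.2.1.isOpen h1 hb2
  exact ryg_fr hD h hz hyW hb

theorem ryi_mem (hD : Dyn f P) (h : Inv f P η V E) (hR : RayDat f P V E a b ξ π) (hz : z ∈ Pc f P)
    (hA : IsRay f a b ξ π z i e A) (n : ℕ) : A n ⊆ closure (Wn f E n z) ∧ e n ∈ frontier (Wn f E n z) := by
  induction n with
  | zero =>
    have h0 : e 0 ∈ frontier (Wn f E 0 z) := by
      rw [ryf_zero h hz, ryi_zero hA]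
      have : a z i ∈ ξ z i ∩ frontier (fce E z) := by
        rw [hR.fr z hz i]
        exact mem_singleton _
      exact this.2
    exact ⟨ryi_aux1 hD h hR hz hA 0 h0, h0⟩
  | succ n ih =>
    have h0 := ryi_aux2 hD h hR hz hA n ih.1
    exact ⟨ryi_aux1 hD h hR hz hA (n + 1) h0, h0⟩

theorem ryi_fr (hD : Dyn f P) (h : Inv f P η V E) (hR : RayDat f P V E a b ξ π) (hz : z ∈ Pc f P)
    (hA : IsRay f a b ξ π z i e A) (n : ℕ) : A n ∩ frontier (Wn f E n z) = {e n} := by
  apply Subset.antisymm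
  · rintro x ⟨hx, hxf⟩
    obtain ⟨_, _, hfr, _, _⟩ := ryf_props hD h hz n
    have h1 : f^[n] x ∈ ξ (f^[n] z) (lab f π n z i) ∩ frontier (fce E (f^[n] z)) := by
      refine ⟨ryi_imA hA hx, ?_⟩
      rw [← hfr]
      exact mem_image_of_mem _ hxf
    rw [hR.fr _ (ryf_pcn hD hz n)] at h1
    have h2 : f^[n] x = f^[n] (e n) := by
      rw [hA.st n]
      exact h1
    exact hA.inj n hx (hA.arc n).left_mem h2
  · rintro x rfl
    exact ⟨(hA.arc n).left_mem, (ryi_mem hD h hR hz hA n).2⟩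

theorem ryi_out (hD : Dyn f P) (h : Inv f P η V E) (hR : RayDat f P V E a b ξ π) (hz : z ∈ Pc f P)
    (hA : IsRay f a b ξ π z i e A) (n : ℕ) : Disjoint (A n) (Wn f E (n + 1) z) := by
  rw [Set.disjoint_left]
  intro x hx hxW
  have h1 : f^[n] x ∈ Wn f E 1 (f^[n] z) := ryf_step hD h hz n (mem_image_of_mem _ hxW)
  exact Set.disjoint_left.1 (hR.out _ (ryf_pcn hD hz n) _) (ryi_imA hA hx) h1

theorem ryi_next (hD : Dyn f P) (h : Inv f P η V E) (hR : RayDat f P V E a b ξ π) (hz : z ∈ Pc f P)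
    (hA : IsRay f a b ξ π z i e A) (n : ℕ) : A n ∩ A (n + 1) = {e (n + 1)} := by
  apply Subset.antisymm
  · rintro x ⟨hx, hx'⟩
    rw [← ryi_fr hD h hR hz hA (n + 1)]
    refine ⟨hx', ryi_fr_of (ryf_props hD h hz (n + 1)).1 ((ryi_mem hD h hR hz hA (n + 1)).1 hx') ?_⟩
    exact Set.disjoint_left.1 (ryi_out hD h hR hz hA n) hx
  · rintro x rfl
    exact ⟨(hA.arc n).right_mem, (hA.arc (n + 1)).left_mem⟩

private theorem ryi_anti (hD : Dyn f P) (h : Inv f P η V E) (hz : z ∈ Pc f P) {n m : ℕ} (hnm : n ≤ m) :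
    Wn f E m z ⊆ Wn f E n z := by
  induction m, hnm using Nat.le_induction with
  | base => exact subset_rfl
  | succ m _ ih => exact (subset_closure.trans (ryf_nest hD h hz m)).trans ih

private theorem ryi_cl (hD : Dyn f P) (h : Inv f P η V E) (hR : RayDat f P V E a b ξ π) (hz : z ∈ Pc f P)
    (hA : IsRay f a b ξ π z i e A) {n m : ℕ} (hnm : n + 1 ≤ m) : A m ⊆ Wn f E n z := by
  obtain ⟨k, rfl⟩ : ∃ k, m = k + 1 := ⟨m - 1, by omega⟩
  exact ((ryi_mem hD h hR hz hA (k + 1)).1.trans (ryf_nest hD h hz k)).trans (ryi_anti hD h hz (by omega))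

theorem ryi_far (hD : Dyn f P) (h : Inv f P η V E) (hR : RayDat f P V E a b ξ π) (hz : z ∈ Pc f P)
    (hA : IsRay f a b ξ π z i e A) {n m : ℕ} (hnm : n + 2 ≤ m) : Disjoint (A n) (A m) :=
  (ryi_out hD h hR hz hA n).mono_right (ryi_cl hD h hR hz hA (by omega))

theorem ryi_disj (hD : Dyn f P) (h : Inv f P η V E) (hR : RayDat f P V E a b ξ π) (hz : z ∈ Pc f P)
    (hA : IsRay f a b ξ π z i e A) (hA' : IsRay f a b ξ π z j e' A') (hij : i ≠ j) (n m : ℕ) :
    Disjoint (A n) (A' m) := by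
  have same : ∀ n, Disjoint (A n) (A' n) := by
    intro n
    rw [Set.disjoint_left]
    intro x hx hx'
    have hne : lab f π n z i ≠ lab f π n z j := fun he => hij (lab_inj hD hR hz n he)
    exact Set.disjoint_left.1 (hR.disj _ (ryf_pcn hD hz n) _ _ hne) (ryi_imA hA hx) (ryi_imA hA' hx')
  rcases Nat.lt_trichotomy n m with hlt | heq | hgt
  · rcases Nat.lt_or_ge (n + 1) m with h2 | h2
    · exact (ryi_out hD h hR hz hA n).mono_right (ryi_cl hD h hR hz hA' (by omega))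
    · obtain rfl : m = n + 1 := by omega
      rw [Set.disjoint_left]
      intro x hx hx'
      have h3 : x ∈ A' (n + 1) ∩ frontier (Wn f E (n + 1) z) :=
        ⟨hx', ryi_fr_of (ryf_props hD h hz (n + 1)).1 ((ryi_mem hD h hR hz hA' (n + 1)).1 hx')
          (Set.disjoint_left.1 (ryi_out hD h hR hz hA n) hx)⟩
      rw [ryi_fr hD h hR hz hA' (n + 1)] at h3
      obtain rfl : x = e' (n + 1) := h3
      exact Set.disjoint_left.1 (same n) hx (hA'.arc n).right_mem
  · subst heq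
    exact same n
  · rcases Nat.lt_or_ge (m + 1) n with h2 | h2
    · exact ((ryi_out hD h hR hz hA' m).mono_right (ryi_cl hD h hR hz hA (by omega))).symm
    · obtain rfl : n = m + 1 := by omega
      rw [Set.disjoint_left]
      intro x hx hx'
      have h3 : x ∈ A (m + 1) ∩ frontier (Wn f E (m + 1) z) :=
        ⟨hx, ryi_fr_of (ryf_props hD h hz (m + 1)).1 ((ryi_mem hD h hR hz hA (m + 1)).1 hx)
          (Set.disjoint_left.1 (ryi_out hD h hR hz hA' m) hx')⟩
      rw [ryi_fr hD h hR hz hA (m + 1)] at h3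
      obtain rfl : x = e (m + 1) := h3
      exact Set.disjoint_left.1 (same m) (hA.arc m).right_mem hx'

theorem ryi_in (hD : Dyn f P) (h : Inv f P η V E) (hR : RayDat f P V E a b ξ π) (hz : z ∈ Pc f P)
    (hA : IsRay f a b ξ π z i e A) (n : ℕ) : A n ⊆ insert (a z i) (fce E z) := by
  intro x hx
  rcases Nat.eq_zero_or_pos n with rfl | hn
  · by_cases hxf : x ∈ Wn f E 0 z
    · right
      rwa [ryf_zero h hz] at hxf
    · left
      have h1 : x ∈ A 0 ∩ frontier (Wn f E 0 z) :=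
        ⟨hx, ryi_fr_of (ryf_props hD h hz 0).1 ((ryi_mem hD h hR hz hA 0).1 hx) hxf⟩
      rw [ryi_fr hD h hR hz hA 0] at h1
      rw [← ryi_zero hA]
      exact h1
  · right
    have h1 := ryi_cl hD h hR hz hA (n := 0) (m := n) (by omega) hx
    rwa [ryf_zero h hz] at h1

theorem ryi_arc (hD : Dyn f P) (he : Expd f P η) (h : Inv f P η V E) (hR : RayDat f P V E a b ξ π) (hz : z ∈ Pc f P)
    (hA : IsRay f a b ξ π z i e A) : ArcX (insert z (⋃ n, A n)) (a z i) z := by
  rw [← ryi_zero hA]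
  apply rya_chain hA.arc (ryi_next hD h hR hz hA) (fun n m hnm => ryi_far hD h hR hz hA hnm)
  · intro n hzn
    exact Set.disjoint_left.1 (ryi_out hD h hR hz hA n) hzn (ryf_mem hD h hz (n + 1))
  · intro O hO hzO
    obtain ⟨r, hr, hrO⟩ := Metric.isOpen_iff.1 hO z hzO
    obtain ⟨N, hN⟩ := ryg_small hD he h hr
    refine ⟨N, fun n hn x hx => hrO ?_⟩
    have h1 := (ryi_mem hD h hR hz hA n).1 hx
    have h2 := subset_closure (ryf_mem hD h hz n)
    have h3 := Metric.dist_le_diam_of_mem (isClosed_closure.isCompact.isBounded) h1 h2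
    exact mem_ball.2 (h3.trans_lt (hN n hn z hz))

end Pool.ETM
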