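/-
Project ETM (MP_c7bb65_an), block RAY.
MODULE RyJ (difficulty 3).  The arcs `χ z` (12.3).

RECIPE.  For `z ∈ Pc f P` and `i` choose the ray `(e z i, A z i)` (`ryh_exists`), `R z i = insert z (⋃ n, A z i n)`, `χ z = R z false ∪ R z true`.  `R z i` is an arc from `a z i` to `z` (`ryi_arc`), `R z false ∩ R z true = {z}` (`ryi_disj`; `z ∉ A z i n` because `z ∈ Wn f E (n + 1) z`, `ryi_out`, `ryf_mem`), so `ArcX.trans` and `ArcX.symm` give an arc from `a z false` to `a z true`.
`z ∈ fce E z` and `A z i n ⊆ insert (a z i) (fce E z)` (`ryi_in`) give `χ z \ {a z false, a z true} ⊆ fce E z`, and as `fce E z` is disjoint from `⋃₀ E` and `a z i ∈ frontier (fce E z) ⊆ ⋃₀ E` (`RayDat.fr`, `ryf_face`): `χ z ∩ ⋃₀ E = {a z false, a z true}`.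
`f '' χ z ⊆ ⋃₀ E ∪ χ (f z)`: `f z ∈ χ (f z)`; `A z i 0 = ξ z i` (`IsRay.img`, `n = 0`), `RayDat.sub`; `f '' A z i (n + 1) = A (f z) (π z i) n` by `ryh_shift` and `ryh_unique` (`f z ∈ Pc f P`).
-/
import Mathlib
import Pool.Agent.ETM.RyI

set_option autoImplicit false

open Set Metric Topology Filter
open Pool.JS

namespace Pool.ETM

variable {X : Type*} [MetricSpace X] [CompactSpace X] [Sph X] {f : X → X} {P V : Set X} {E : Set (Set X)} {η : ℝ}
  {a b : X → Bool → X} {ξ : X → Bool → Set X} {π : X → Bool → Bool}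

theorem ryj_chi (hD : Dyn f P) (he : Expd f P η) (h : Inv f P η V E) (hR : RayDat f P V E a b ξ π) :
    ∃ χ : X → Set X, ∀ z ∈ Pc f P, ArcX (χ z) (a z false) (a z true) ∧ z ∈ χ z ∧
      χ z ∩ ⋃₀ E = {a z false, a z true} ∧ χ z \ {a z false, a z true} ⊆ fce E z ∧ f '' χ z ⊆ ⋃₀ E ∪ χ (f z) := by
  have key : ∀ (z : X) (i : Bool), ∃ (e : ℕ → X) (A : ℕ → Set X), z ∈ Pc f P → IsRay f a b ξ π z i e A := by
    intro z i
    by_cases hz : z ∈ Pc f P
    · obtain ⟨e, A, hA⟩ := ryh_exists hD h hR hz i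
      exact ⟨e, A, fun _ => hA⟩
    · exact ⟨fun _ => z, fun _ => ∅, fun hz' => absurd hz' hz⟩
  choose e A hA using key
  set R : X → Bool → Set X := fun z i => insert z (⋃ n, A z i n) with hRd
  have hRm : ∀ z i x, x ∈ R z i ↔ x = z ∨ ∃ n, x ∈ A z i n := by
    intro z i x
    rw [hRd]
    simp only [mem_insert_iff, mem_iUnion]
  have harc : ∀ z ∈ Pc f P, ∀ i, ArcX (R z i) (a z i) z := fun z hz i => ryi_arc hD he h hR hz (hA z i hz)
  refine ⟨fun z => R z false ∪ R z true, fun z hz => ?_⟩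
  obtain ⟨hfm, hzf, hfj, hff, hfP, -⟩ := ryf_face h hz
  have hzχ : ∀ w, w ∈ R w false ∪ R w true := fun w => Or.inl ((hRm w false w).2 (Or.inl rfl))
  have hint : R z false ∩ R z true = {z} := by
    apply Subset.antisymm
    · rintro x ⟨h1, h2⟩
      rcases (hRm _ _ _).1 h1 with h3 | ⟨n, h3⟩
      · exact h3
      rcases (hRm _ _ _).1 h2 with h4 | ⟨m, h4⟩
      · exact h4
      exact absurd h4 (Set.disjoint_left.mp
        (ryi_disj hD h hR hz (hA z false hz) (hA z true hz) (by decide) n m) h3)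
    · rintro x rfl
      exact ⟨(hRm _ _ _).2 (Or.inl rfl), (hRm _ _ _).2 (Or.inl rfl)⟩
  have hin : ∀ i, ∀ x ∈ R z i, x = a z i ∨ x ∈ fce E z := by
    intro i x hx
    rcases (hRm _ _ _).1 hx with h3 | ⟨n, h3⟩
    · rw [h3]
      exact Or.inr hzf
    · exact ryi_in hD h hR hz (hA z i hz) n h3
  have hsubf : (R z false ∪ R z true) \ {a z false, a z true} ⊆ fce E z := by
    rintro x ⟨hx, hne⟩
    rcases hx with hx | hx
    · rcases hin false x hx with h1 | h1
      · exact absurd (Or.inl h1) hne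
      · exact h1
    · rcases hin true x hx with h1 | h1
      · exact absurd (Or.inr h1) hne
      · exact h1
  have hfc : fce E z ⊆ (⋃₀ E)ᶜ := connectedComponentIn_subset _ _
  have haE : ∀ i, a z i ∈ ⋃₀ E := by
    intro i
    have h1 : a z i ∈ ξ z i ∩ frontier (fce E z) := by
      rw [hR.fr z hz i]
      exact mem_singleton _
    exact hff h1.2
  refine ⟨(harc z hz false).trans (harc z hz true).symm hint, hzχ z, ?_, hsubf, ?_⟩
  · apply Subset.antisymm
    · rintro x ⟨h1, h2⟩
      by_contra h3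
      exact hfc (hsubf ⟨h1, h3⟩) h2
    · rintro x (h1 | h1)
      · rw [h1]
        exact ⟨Or.inl (harc z hz false).left_mem, haE false⟩
      · rw [mem_singleton_iff.1 h1]
        exact ⟨Or.inr (harc z hz true).left_mem, haE true⟩
  · have hfz := ryf_pc hD hz
    have hstep : ∀ i, ∀ x ∈ R z i, f x ∈ ⋃₀ E ∪ (R (f z) false ∪ R (f z) true) := by
      intro i x hx
      rcases (hRm _ _ _).1 hx with h3 | ⟨n, h3⟩
      · rw [h3]
        exact Or.inr (hzχ (f z))
      · cases n with
        | zero =>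
          have h4 : f^[0] '' A z i 0 = ξ (f^[0] z) (lab f π 0 z i) := (hA z i hz).img 0
          simp only [Function.iterate_zero, image_id', image_id, id_eq, lab] at h4
          exact Or.inl (hR.sub z hz i (mem_image_of_mem f (by rw [← h4]; exact h3)))
        | succ n =>
          have h4 := ryh_shift hD hR hz (hA z i hz)
          have h5 := (ryh_unique hD h hR hfz h4 (hA (f z) (π z i) hfz)).2
          have h6 : f '' A z i (n + 1) = A (f z) (π z i) n := congrFun h5 n
          have h7 : f x ∈ A (f z) (π z i) n := by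
            rw [← h6]
            exact mem_image_of_mem f h3
          have h8 : f x ∈ R (f z) (π z i) := (hRm _ _ _).2 (Or.inr ⟨n, h7⟩)
          right
          cases hπ : π z i with
          | false => rw [hπ] at h8; exact Or.inl h8
          | true => rw [hπ] at h8; exact Or.inr h8
    rintro y ⟨x, hx, rfl⟩
    rcases hx with hx | hx
    · exact hstep false x hx
    · exact hstep true x hx

end Pool.ETM
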