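/-
Project ETM (MP_c7bb65_an), block RAY.
MODULE RyK (difficulty 3).  Adding finitely many arcs in different faces (12.4).

RECIPE.  Induction on the finite set `S` (`Set.Finite.induction_on`, the statement with all the hypotheses restricted to `S`; or `Finset` induction).  `S = ∅`: `χ '' ∅ = ∅`.  Step `insert z S`, `z ∉ S`: the new arc `χ z` meets the old carrier `⋃₀ (E ∪ χ '' S)` exactly in `{a z false, a z true}`: for `z' ∈ S`: `χ z ⊆ F z ∪ {a z false, a z true}`, `χ z' ⊆ F z' ∪ {a z' false, a z' true}`,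
`F z` and `F z'` are disjoint and both are disjoint from `⋃₀ E ∋ a z i, a z' i` so a common point of `χ z` and `χ z'` is one of the points `a z i`.  `PG.add_ear`.  `F z` is still a face of `E ∪ χ '' S` by the third part of the induction hypothesis, so `PG.faces_ear` gives the faces of `insert (χ z) (E ∪ χ '' S)`: the old ones except `F z`, and `U₁`, `U₂ ⊆ F z`, which are Jordan domains.
(`insert (χ z) (E ∪ χ '' S) = E ∪ χ '' insert z S`.)  For `z' ∉ insert z S` the face `F z'` is different from `F z` (disjoint and nonempty: it contains the nonempty set `χ z' \ {a z' false, a z' true}`; or it is a face, so nonempty), so it is still a face.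
Here `Q` is the whole index set (`F z'` is a face of `E ∪ χ '' S` for every `z' ∈ Q`, `z' ∉ S`).
-/
import Mathlib
import Pool.Agent.ETM.RyDefs

set_option autoImplicit false

open Set Metric Topology Filter
open Pool.JS

namespace Pool.ETM

variable {X : Type*} [TopologicalSpace X] [CompactSpace X] [T2Space X] [Sph X] {V Q S : Set X} {E : Set (Set X)}
  {a : X → Bool → X} {χ F : X → Set X}

theorem ryk_ears (h : PG V E) (hd : ∀ U ∈ Fc E, JDom U) (hQ : Q.Finite) (hF : ∀ z ∈ Q, F z ∈ Fc E)
    (hdis : ∀ z ∈ Q, ∀ z' ∈ Q, z ≠ z' → Disjoint (F z) (F z')) (haV : ∀ z ∈ Q, ∀ i, a z i ∈ V)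
    (hχ : ∀ z ∈ Q, ArcX (χ z) (a z false) (a z true)) (hi : ∀ z ∈ Q, χ z ∩ ⋃₀ E = {a z false, a z true})
    (hχF : ∀ z ∈ Q, χ z \ {a z false, a z true} ⊆ F z) (hS : S ⊆ Q) :
    PG V (E ∪ χ '' S) ∧ (∀ U ∈ Fc (E ∪ χ '' S), JDom U ∧ ∃ U₀ ∈ Fc E, U ⊆ U₀) ∧
      ∀ z ∈ Q, z ∉ S → F z ∈ Fc (E ∪ χ '' S) := by
  have hSf : S.Finite := hQ.subset hS
  revert hS
  refine Set.Finite.induction_on S hSf ?_ ?_
  · intro _
    rw [image_empty, union_empty]
    exact ⟨h, fun U hU => ⟨hd U hU, U, hU, subset_rfl⟩, fun z hz _ => hF z hz⟩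
  · intro z S hz _ ih hS
    have hzQ : z ∈ Q := hS (mem_insert _ _)
    have hSQ : S ⊆ Q := (subset_insert _ _).trans hS
    obtain ⟨h1, h2, h3⟩ := ih hSQ
    have hFz : F z ∈ Fc (E ∪ χ '' S) := h3 z hzQ hz
    have hi' : χ z ∩ ⋃₀ (E ∪ χ '' S) = {a z false, a z true} := by
      apply Subset.antisymm
      · rintro x ⟨hx1, e, he, hxe⟩
        rcases he with he | ⟨z', hz', rfl⟩
        · rw [← hi z hzQ]
          exact ⟨hx1, e, he, hxe⟩
        · have hne : z ≠ z' := by
            rintro rfl
            exact hz hz'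
          by_contra hcon
          have hx2 : x ∈ F z := hχF z hzQ ⟨hx1, hcon⟩
          by_cases hx3 : x ∈ ({a z' false, a z' true} : Set X)
          · rw [← hi z' (hSQ hz')] at hx3
            exact hcon ((hi z hzQ).subset ⟨hx1, hx3.2⟩)
          · have hx4 : x ∈ F z' := hχF z' (hSQ hz') ⟨hxe, hx3⟩
            exact disjoint_left.1 (hdis z hzQ z' (hSQ hz') hne) hx2 hx4
      · rw [← hi z hzQ]
        exact inter_subset_inter_right _ (sUnion_subset_sUnion subset_union_left)
    have heq : E ∪ χ '' insert z S = insert (χ z) (E ∪ χ '' S) := by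
      rw [image_insert_eq, union_insert]
    rw [heq]
    obtain ⟨U₁, U₂, g1, g2, _, g4, _, _, _, _, g9⟩ := h1.faces_ear hFz (h2 _ hFz).1 (hχ z hzQ) hi' (hχF z hzQ)
    refine ⟨h1.add_ear (haV z hzQ false) (haV z hzQ true) (hχ z hzQ) hi', ?_, ?_⟩
    · intro U hU
      rw [g9] at hU
      obtain ⟨U₀, hU₀, hsub⟩ := (h2 _ hFz).2
      rcases hU with hU | hU
      · exact h2 U hU.1
      · rcases hU with hU | hU
        · rw [hU]
          exact ⟨g1, U₀, hU₀, (subset_union_left.trans (g4.subset.trans diff_subset)).trans hsub⟩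
        · rw [mem_singleton_iff] at hU
          rw [hU]
          exact ⟨g2, U₀, hU₀, (subset_union_right.trans (g4.subset.trans diff_subset)).trans hsub⟩
    · intro z' hz'Q hz'
      rw [g9]
      refine Or.inl ⟨h3 z' hz'Q fun h' => hz' (mem_insert_of_mem _ h'), ?_⟩
      intro heq2
      rw [mem_singleton_iff] at heq2
      have hne : z ≠ z' := by
        rintro rfl
        exact hz' (mem_insert _ _)
      have hdz := hdis z hzQ z' hz'Q hne
      rw [heq2] at hdz
      obtain ⟨x, hx⟩ := ((h2 _ hFz).1.isConnected).nonempty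
      exact disjoint_left.1 hdz hx hx

end Pool.ETM
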