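/-
Project ETM (MP_c7bb65_an), block RAY.
MODULE RyM (difficulty 3).  The invariant graph with the rays: output of section 12.

RECIPE.  Take `RayDat` from `rye_dat` and `χ` from `ryj_chi`; `Pc f P` is finite (`Dyn.finP`).  Let `A₀ = {x | ∃ z ∈ Pc f P, ∃ i, x = a z i}`, finite, `A₀ ⊆ ⋃₀ E`.  `PG.subdiv` gives `E₁` with `PG (V ∪ A₀) E₁`, `⋃₀ E₁ = ⋃₀ E`, so `Fc E₁ = Fc E` (the definition of `Fc` depends on `⋃₀ E` only) and `fce E₁ = fce E`.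
`ryk_ears` for `E₁`, `V ∪ A₀`, `Q = S = Pc f P`, `F = fce E` (`ryf_face`, `ryg_disj`): `E₂ = E₁ ∪ χ '' Pc f P`.  `PG.subdiv` again with `Pc f P ⊆ ⋃₀ E₂` (`z ∈ χ z`): `E₃`, `⋃₀ E₃ = ⋃₀ E₂ = ⋃₀ E ∪ ⋃ z ∈ Pc f P, χ z`, `PG (V ∪ A₀ ∪ Pc f P) E₃`, `Fc E₃ = Fc E₂`.  `W = V ∪ A₀ ∪ Pc f P`.
`Sta`: `ne`: `⋃₀ E₃ ⊇ ⋃₀ E` is nonempty (`Good.ne`, an arc is nonempty).  `disc`: `ryk_ears`.  `mapG`: `x ∈ ⋃₀ E`: `Inv.mapG`; `x ∈ χ z`: `f x ∈ ⋃₀ E ∪ χ (f z)`, `f z ∈ Pc f P` (`ryf_pc`).  `mapW`: `f (a z i) ∈ V` (`RayDat.av`), `Inv.mapV`, `ryf_pc`.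
`car`: `x ∈ P` is not in `⋃₀ E`; if `x ∈ χ z` then `x` is not one of the `a z i ∈ ⋃₀ E`, so `x ∈ fce E z ∩ P = {z}` (`ryf_face`) and `x = z ∈ W`.  `one`: `U ⊆ U₀ ∈ Fc E`, `closure U ⊆ closure U₀`, `frontier U₀ ⊆ ⋃₀ E` is disjoint from `P`, so `closure U₀ ∩ P ⊆ U₀ ∩ P` is subsingleton (`Inv.one`).
-/
import Mathlib
import Pool.Agent.ETM.RyE
import Pool.Agent.ETM.RyJ
import Pool.Agent.ETM.RyK

set_option autoImplicit false

open Set Metric Topology Filter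
open Pool.JS

namespace Pool.ETM

variable {X : Type*} [MetricSpace X] [CompactSpace X] [Sph X] {f : X → X} {P V : Set X} {E : Set (Set X)} {η : ℝ}

theorem rym_fc {E E' : Set (Set X)} (hE : ⋃₀ E = ⋃₀ E') : Fc E = Fc E' := by
  unfold Fc
  rw [hE]

theorem rym_fce {E E' : Set (Set X)} (hE : ⋃₀ E = ⋃₀ E') : fce E = fce E' := by
  funext x
  unfold fce
  rw [hE]

theorem rym_finA (a : X → Bool → X) {Q : Set X} (hQ : Q.Finite) : {x | ∃ z ∈ Q, ∃ i, x = a z i}.Finite := by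
  have h : {x | ∃ z ∈ Q, ∃ i, x = a z i} = (fun p : X × Bool => a p.1 p.2) '' (Q ×ˢ univ) := by
    ext x
    constructor
    · rintro ⟨z, hz, i, rfl⟩
      exact ⟨(z, i), ⟨hz, mem_univ i⟩, rfl⟩
    · rintro ⟨⟨z, i⟩, ⟨hz, _⟩, rfl⟩
      exact ⟨z, hz, i, rfl⟩
  rw [h]
  exact (hQ.prod finite_univ).image _

theorem exists_sta (hD : Dyn f P) (he : Expd f P η) (h : Inv f P η V E) :
    ∃ (W : Set X) (E' : Set (Set X)), Sta f P W E' ∧ Pc f P ⊆ W := by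
  obtain ⟨a, b, ξ, π, hR⟩ := rye_dat hD h
  obtain ⟨χ, hχ⟩ := ryj_chi hD he h hR
  have hPc : (Pc f P).Finite := hD.finP.subset (fun z hz => hz.1)
  have hA0 : {x | ∃ z ∈ Pc f P, ∃ i, x = a z i}.Finite := rym_finA a hPc
  have haE : ∀ z ∈ Pc f P, ∀ i, a z i ∈ ⋃₀ E := by
    intro z hz i
    have h1 : a z i ∈ ξ z i ∩ frontier (fce E z) := by
      rw [hR.fr z hz i]
      exact mem_singleton _
    exact (ryf_face h hz).2.2.2.1 h1.2
  have hA0E : {x | ∃ z ∈ Pc f P, ∃ i, x = a z i} ⊆ ⋃₀ E := by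
    rintro x ⟨z, hz, i, rfl⟩
    exact haE z hz i
  obtain ⟨E₁, hE1, hU1, -⟩ := h.good.pg.subdiv hA0 hA0E
  have hF1 : Fc E₁ = Fc E := rym_fc hU1
  have hears := ryk_ears (V := V ∪ {x | ∃ z ∈ Pc f P, ∃ i, x = a z i}) (Q := Pc f P) (S := Pc f P) (E := E₁)
    (a := a) (χ := χ) (F := fce E) hE1 (by
      rw [hF1]
      exact h.good.disc) hPc (by
      intro z hz
      rw [hF1]
      exact (ryf_face h hz).1) (fun z hz z' hz' hne => ryg_disj h hz hz' hne)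
    (fun z hz i => Or.inr ⟨z, hz, i, rfl⟩) (fun z hz => (hχ z hz).1) (by
      intro z hz
      rw [hU1]
      exact (hχ z hz).2.2.1) (fun z hz => (hχ z hz).2.2.2.1) subset_rfl
  obtain ⟨hE2, hJ2, -⟩ := hears
  have hU2 : ⋃₀ (E₁ ∪ χ '' Pc f P) = ⋃₀ E ∪ ⋃ z ∈ Pc f P, χ z := by
    rw [sUnion_union, hU1, sUnion_image]
  have hPcU : Pc f P ⊆ ⋃₀ (E₁ ∪ χ '' Pc f P) := by
    intro z hz
    rw [hU2]
    right
    exact mem_biUnion hz (hχ z hz).2.1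
  obtain ⟨E₃, hE3, hU3, -⟩ := hE2.subdiv hPc hPcU
  have hF3 : Fc E₃ = Fc (E₁ ∪ χ '' Pc f P) := rym_fc hU3
  have hU3' : ⋃₀ E₃ = ⋃₀ E ∪ ⋃ z ∈ Pc f P, χ z := hU3.trans hU2
  refine ⟨V ∪ {x | ∃ z ∈ Pc f P, ∃ i, x = a z i} ∪ Pc f P, E₃, ?_, subset_union_right⟩
  refine
    { pg := hE3
      ne := ?_
      disc := ?_
      mapG := ?_
      mapW := ?_
      car := ?_
      one := ?_ }
  · by_contra hne
    rw [not_nonempty_iff_eq_empty] at hne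
    obtain ⟨e, heE⟩ := h.good.ne
    obtain ⟨p, hp, q, hq, -, hpq⟩ := h.good.pg.arc e heE
    have hpe : p ∈ e ∩ V := by
      rw [hpq]
      exact mem_insert p {q}
    have h1 : p ∈ ⋃₀ E₃ := by
      rw [hU3']
      exact Or.inl ⟨e, heE, hpe.1⟩
    rw [hne, sUnion_empty] at h1
    exact h1
  · intro U hU
    rw [hF3] at hU
    exact (hJ2 U hU).1
  · intro x hx
    rw [hU3'] at hx ⊢
    rcases hx with hx | hx
    · exact Or.inl (h.mapG hx)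
    · simp only [mem_iUnion, exists_prop] at hx
      obtain ⟨z, hz, hxz⟩ := hx
      rcases (hχ z hz).2.2.2.2 (mem_image_of_mem f hxz) with h1 | h1
      · exact Or.inl h1
      · exact Or.inr (mem_biUnion (ryf_pc hD hz) h1)
  · intro x hx
    rcases hx with (hx | hx) | hx
    · exact Or.inl (Or.inl (h.mapV hx))
    · obtain ⟨z, hz, i, rfl⟩ := hx
      exact Or.inl (Or.inl (hR.av z hz i))
    · exact Or.inr (ryf_pc hD hx)
  · rintro x ⟨hx, hxP⟩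
    have hxE : x ∉ ⋃₀ E := fun hxE => Set.disjoint_left.mp h.avoid hxE hxP
    rw [hU3'] at hx
    rcases hx with hx | hx
    · exact absurd hx hxE
    · simp only [mem_iUnion, exists_prop] at hx
      obtain ⟨z, hz, hxz⟩ := hx
      have hxa : x ∉ ({a z false, a z true} : Set X) := by
        intro hxa
        rcases hxa with rfl | hxa
        · exact hxE (haE z hz false)
        · rw [mem_singleton_iff] at hxa
          rw [hxa] at hxE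
          exact hxE (haE z hz true)
      have h1 : x ∈ fce E z ∩ P := ⟨(hχ z hz).2.2.2.1 ⟨hxz, hxa⟩, hxP⟩
      rw [(ryf_face h hz).2.2.2.2.2, mem_singleton_iff] at h1
      rw [h1]
      exact Or.inr hz
  · intro U hU
    rw [hF3] at hU
    obtain ⟨-, U₀, hU0, hUU⟩ := hJ2 U hU
    rw [hF1] at hU0
    have hfr : frontier U₀ ⊆ ⋃₀ E := Fc.frontier_sub h.good.pg hU0
    have key : closure U ∩ P ⊆ U₀ ∩ P := by
      rintro x ⟨hx, hxP⟩
      refine ⟨?_, hxP⟩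
      have h1 : x ∈ closure U₀ := closure_mono hUU hx
      by_contra hxU
      have h2 : x ∈ frontier U₀ := by
        rw [(Fc.isOpen h.good.pg hU0).frontier_eq]
        exact ⟨h1, hxU⟩
      exact Set.disjoint_left.mp h.avoid (hfr h2) hxP
    exact (h.one U₀ hU0).anti key

end Pool.ETM
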