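/-
Project ETM (MP_c7bb65_an), block FIN.
MODULE FnH (difficulty 1).  Invariant graphs give cellular Markov partitions.

RECIPE.  `exists_sta`, `fnc_stage` give `Sta f P W E`, `P ⊆ W`; `D = cells W E`, `D' = cells (f ⁻¹' W) (pb f W E)` (`Sta.pull`, `fnf_cells`, `fng_refines` with `Sta.mapW`, `Sta.mapG` and `fna_pg`, `fng_cellular`).
-/
import Mathlib
import Pool.Agent.ETM.FnC
import Pool.Agent.ETM.FnG
import Pool.Agent.ETM.RyM

set_option autoImplicit false

open Set Metric Topology Filter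
open Pool.JS

namespace Pool.ETM

open Pool.CellMarkov

variable {X : Type*} [MetricSpace X] [CompactSpace X] [Sph X] {f : X → X} {P V : Set X} {E : Set (Set X)} {η : ℝ}

theorem exists_markov (hD : Dyn f P) (he : Expd f P η) (h : Inv f P η V E) : HasCellularMarkovPartition f := by
  obtain ⟨W, E', hs, hPc⟩ := exists_sta hD he h
  obtain ⟨W', E'', hs', hPW⟩ := fnc_stage hD hs hPc
  have hp := Sta.pull hD hs'
  have hsub : ⋃₀ E'' ⊆ ⋃₀ pb f W' E'' := by
    rw [(fna_pg hD hs'.pg hs'.car).2.1]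
    exact hs'.mapG
  exact ⟨cells (f ⁻¹' W') (pb f W' E''), cells W' E'', fnf_cells hp.pg hp.disc, fnf_cells hs'.pg hs'.disc,
    fng_cellular hD hs' hPW, fng_refines hs'.pg hs'.disc hp.pg hp.disc hs'.mapW hsub⟩

end Pool.ETM
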