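/-
Project ETM (MP_c7bb65_an), block FIN.
MODULE FnS (difficulty 2).  The sphere is a topological sphere in the sense of `Sph`.

RECIPE.  For `x : X` and `h : X ≃ₜ sphere` the complement `{x}ᶜ` is homeomorphic to `{h x}ᶜ`, the source of the stereographic projection `stereographic' 2 (h x)` (`stereographic'_source`, `stereographic'_target`: the target is `univ`; `Fact (finrank ℝ (EuclideanSpace ℝ (Fin 3)) = 2 + 1)`), an open partial homeomorphism onto `EuclideanSpace ℝ (Fin 2)` (`OpenPartialHomeomorph.toHomeomorphSourceTarget`), and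
`EuclideanSpace ℝ (Fin 2) ≃L[ℝ] ℂ` (equal finite dimension: `ContinuousLinearEquiv.ofFinrankEq`, or `Complex.orthonormalBasisOneI.repr.symm`).
-/
import Mathlib
import Pool.Agent.JS.SpDefs

set_option autoImplicit false

open Set Metric Topology Filter
open Pool.JS

namespace Pool.ETM

theorem sph_of_homeo (X : Type*) [TopologicalSpace X]
    (h : X ≃ₜ sphere (0 : EuclideanSpace ℝ (Fin 3)) 1) : Sph X := by
  refine ⟨fun x => ?_⟩
  have hfact : Fact (Module.finrank ℝ (EuclideanSpace ℝ (Fin 3)) = 2 + 1) := ⟨finrank_euclideanSpace_fin⟩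
  have e1 : (({x} : Set X)ᶜ : Set X) ≃ₜ (({h x} : Set (sphere (0 : EuclideanSpace ℝ (Fin 3)) 1))ᶜ :
      Set (sphere (0 : EuclideanSpace ℝ (Fin 3)) 1)) :=
    h.subtype (fun y => by
      simp only [mem_compl_iff, mem_singleton_iff, h.injective.eq_iff])
  have e2 := (stereographic' 2 (h x)).toHomeomorphSourceTarget
  have e3 : (({h x} : Set (sphere (0 : EuclideanSpace ℝ (Fin 3)) 1))ᶜ :
      Set (sphere (0 : EuclideanSpace ℝ (Fin 3)) 1)) ≃ₜ (stereographic' 2 (h x)).source :=
    Homeomorph.setCongr (stereographic'_source (h x)).symm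
  have e4 : (stereographic' 2 (h x)).target ≃ₜ (univ : Set (EuclideanSpace ℝ (Fin 2))) :=
    Homeomorph.setCongr (stereographic'_target (h x))
  have e5 : EuclideanSpace ℝ (Fin 2) ≃L[ℝ] ℂ := by
    apply ContinuousLinearEquiv.ofFinrankEq
    rw [Complex.finrank_real_complex, finrank_euclideanSpace_fin]
  exact ⟨(((e1.trans e3).trans e2).trans e4).trans ((Homeomorph.Set.univ _).trans e5.toHomeomorph)⟩

theorem compact_of_homeo (X : Type*) [TopologicalSpace X]
    (h : X ≃ₜ sphere (0 : EuclideanSpace ℝ (Fin 3)) 1) : CompactSpace X :=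
  h.symm.compactSpace

end Pool.ETM
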