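/-
Project ETM (MP_c7bb65_an), block FIN.
MODULE FnT (difficulty 2).  Expanding Thurston maps satisfy `Dyn` and `Expd` (from block LE).

RECIPE.  Here `CellMarkov.crit` etc. are the literal definitions of ETM/FnDefs, `crit`, `post`, `Branched` those of ETM/LeDefs.  `fnt_branched`: reorder the existential quantifiers.  `fnt_post`: unfold both.
`dyn_of_thurston`: `f` is not injective, so there are two points `x ≠ y`; `PreconnectedSpace X`: `univ = {x}ᶜ ∪ {y}ᶜ`, both connected (`sph_compl` of JS/PgA), with a common point (`{x}ᶜ` is homeomorphic to `ℂ` by `Sph.plane`, so it has a point different from `y`).  `Branched.dyn` (LeB) gives `Dyn`.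
Let `C`, `h : Circle ≃ₜ C` be as in `IsExpanding`: `JorX C` (extend `h` by a constant outside of the sphere: `γ z = if hz : z ∈ sphere 0 1 then h ⟨z, _⟩ else x`; continuous on the sphere, `continuousOn_iff_continuous_restrict`).  `JorX.jct` (JS, Jordan curve theorem) gives `SepX C U₁ U₂`, `SepX.disc` (JS/PgI) and `SepX.symm`: `JDom U₁`, `JDom U₂` (`frontier U₁ = C` by `SepX.frU`).
`Dyn.expd` (LeT); the hypothesis: `IsComp W S` is the same as `∃ x ∈ S, W = connectedComponentIn S x` (`isComp_iff` of LeD), and `diam W ≤ diam (closure W)` (`Metric.diam_closure`).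
-/
import Mathlib
import Pool.Agent.ETM.FnDefs
import Pool.Agent.ETM.RyL

set_option autoImplicit false

open Set Metric Topology Filter
open Pool.JS

namespace Pool.ETM

open Pool.CellMarkov

variable {X : Type*} [MetricSpace X] [CompactSpace X] [Sph X] {f : X → X}

theorem fnt_branched (h : IsBranchedCover f) : Branched f := by
  refine ⟨h.1, fun x => ?_⟩
  obtain ⟨d, hd, φ, ψ, h1, h2, h3, h4, h5⟩ := h.2 x
  exact ⟨d, φ, ψ, hd, h1, h2, h3, h4, h5⟩

theorem fnt_post (f : X → X) : CellMarkov.post f = post f := by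
  ext y
  constructor
  · intro hy
    obtain ⟨n, x, hx, hxy⟩ := mem_iUnion.mp hy
    exact ⟨n + 1, by omega, x, hx, hxy⟩
  · rintro ⟨n, hn, x, hx, hxy⟩
    refine mem_iUnion.mpr ⟨n - 1, x, hx, ?_⟩
    have : n - 1 + 1 = n := by omega
    rw [this]
    exact hxy

theorem fnt_pre (hx : ∃ x y : X, x ≠ y) : PreconnectedSpace X := by
  obtain ⟨x, y, hxy⟩ := hx
  refine ⟨?_⟩
  have h1 : (univ : Set X) = ({x}ᶜ : Set X) ∪ {y}ᶜ := by
    ext z
    constructor
    · intro _
      by_cases hz : z = x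
      · right
        rw [hz]
        exact hxy
      · exact Or.inl hz
    · intro _
      trivial
  obtain ⟨e⟩ := Sph.plane x
  have h2 : ∃ z : X, z ≠ x ∧ z ≠ y := by
    have hne : e.symm 0 ≠ e.symm 1 := fun h => zero_ne_one (e.symm.injective h)
    by_cases h0 : (e.symm 0 : X) = y
    · refine ⟨e.symm 1, (e.symm 1).2, fun h => hne (Subtype.ext (h0.trans h.symm))⟩
    · exact ⟨e.symm 0, (e.symm 0).2, h0⟩
  obtain ⟨z, hzx, hzy⟩ := h2
  rw [h1]
  exact IsPreconnected.union z hzx hzy (sph_compl x).isPreconnected (sph_compl y).isPreconnected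

theorem fnt_jor {C : Set X} (h : Circle ≃ₜ C) : JorX C := by
  classical
  obtain ⟨γ, hγ⟩ : ∃ γ : ℂ → X, ∀ z (hz : z ∈ sphere (0 : ℂ) 1), γ z = (h ⟨z, hz⟩ : X) := by
    refine ⟨fun z => if hz : z ∈ sphere (0 : ℂ) 1 then (h ⟨z, hz⟩ : X) else (h 1 : X), fun z hz => ?_⟩
    exact dif_pos hz
  refine ⟨γ, ?_, ?_, ?_⟩
  · rw [continuousOn_iff_continuous_domRestrict]
    have h1 : Continuous (fun z : sphere (0 : ℂ) 1 => (⟨z.1, z.2⟩ : Circle)) :=
      Continuous.subtype_mk continuous_subtype_val _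
    have h2 : (sphere (0 : ℂ) 1).domRestrict γ = fun z : sphere (0 : ℂ) 1 => (h ⟨z.1, z.2⟩ : X) := by
      funext z
      exact hγ z.1 z.2
    rw [h2]
    exact continuous_subtype_val.comp (h.continuous.comp h1)
  · intro z hz w hw he
    rw [hγ z hz, hγ w hw] at he
    have h3 := h.injective (Subtype.ext he)
    exact congrArg (fun c : Circle => (c : ℂ)) h3
  · ext x
    constructor
    · rintro ⟨z, hz, rfl⟩
      rw [hγ z hz]
      exact (h ⟨z, hz⟩).2
    · intro hx
      refine ⟨(h.symm ⟨x, hx⟩ : ℂ), (h.symm ⟨x, hx⟩).2, ?_⟩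
      rw [hγ _ (h.symm ⟨x, hx⟩).2]
      have h4 : h (⟨(h.symm ⟨x, hx⟩ : ℂ), (h.symm ⟨x, hx⟩).2⟩ : Circle) = ⟨x, hx⟩ := h.apply_symm_apply _
      rw [h4]

/-- output of the block LE -/
theorem dyn_of_thurston (hf : IsThurston f) (he : IsExpanding f) : Dyn f (post f) ∧ ∃ η : ℝ, Expd f (post f) η := by
  have hne : ∃ x y : X, x ≠ y := by
    by_contra hno
    push Not at hno
    exact hf.deg fun x y _ => hno x y
  have : PreconnectedSpace X := fnt_pre hne
  have hfin : (post f).Finite := by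
    rw [← fnt_post]
    exact hf.post_fin
  have hD : Dyn f (post f) := (fnt_branched hf.branched).dyn hfin
  refine ⟨hD, ?_⟩
  obtain ⟨C, ⟨h⟩, hPC, hexp⟩ := he
  rw [fnt_post] at hPC
  have hC : JorX C := fnt_jor h
  obtain ⟨U₁, U₂, hs⟩ := hC.jct
  have h₁ : JDom U₁ := by
    refine ⟨hs.openU, ?_⟩
    rw [hs.frU]
    exact SepX.disc hC hs
  have h₂ : JDom U₂ := by
    refine ⟨hs.openV, ?_⟩
    rw [hs.frV]
    exact SepX.disc hC hs.symm
  apply hD.expd hf.deg hC hs h₁ h₂ hPC
  intro ε hε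
  obtain ⟨N, hN⟩ := hexp ε hε
  refine ⟨N, fun n hn W hW => ?_⟩
  have h1 := hN n hn W (isComp_iff.mp hW)
  rwa [Metric.diam_closure] at h1

end Pool.ETM
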