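/-
Project ETM (MP_c7bb65_an), block SPa1, module SaE (difficulty 3): 7.3, the path `P_{θ,v}` at a boundary end `v`.

PROOF. `k = lev i`, `Q = c.Q k`. `R3_of_Eint`, `Vbd_So` (`v ∈ So`, `v ∈ V k`). Let `y` be the midpoint (`net_mid`), `M = MS E (half k θ v)`
(`half_facts`: connected, `M = ⋃₀ A` with `A ⊆ E`), `Y = c.Y k θ E = ⋃₀ D_Y` (`Y_facts`), `K = c.K E = ⋃₀ D_K` (`K_edges`).
* `Disjoint Y K`: `K ⊆ Om E` (`K_sub_Om`), `Y_facts`.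
* A union `⋃₀ D'` of edges, `D' ⊆ E`: for `e ∈ E` either `e ∈ D'`, so `e ⊆ ⋃₀ D'`, or `e ∩ ⋃₀ D' ⊆ V` (`PG.inter`).
* `Y ∩ V ∩ M ≠ ∅`: take a face `U₀` with `y ∈ closure U₀` (`PG.cover`). `frontier U₀ ⊆ Y` (`Y_facts`) and `⊆ M` (`half_facts`,
  `y ∈ half`). `frontier U₀` is a union of edges (`PG.frontier_edges`), nonempty (`JDom.jordan`), so it contains an edge and its end
  points, which are in `V`.
* `K ∩ V ∩ M ≠ ∅`: the same with a face `U₁`, `v ∈ closure U₁`: `frontier U₁ ⊆ M ∩ K` (`half_facts`).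
`PG.path_between` (with `S := Y`, `T := K`) gives `s t p`, `PathG A p s t`, `p ∩ Y = {s}`, `p ∩ K = {t}`. `p ⊆ ⋃₀ A = M`, `s, t ∈ V`
(`PG.end_mem`, `PathG.mono`), `s ∈ Y` (from `p ∩ Y = {s}`). The distance of `t` to `v`: `t ∈ M`, `t ∈ K ⊆ Om E`: `near_end`.
-/
import Mathlib
import Pool.Agent.ETM.SaD

set_option autoImplicit false

open Set Metric Topology Filter
open Pool.JS

namespace Pool.ETM

variable {X : Type*} [MetricSpace X] [CompactSpace X] [Sph X] {c : Ctx X} (h : c.Ok)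

omit [CompactSpace X] [Sph X] in
/-- a union of edges and an edge -/
theorem sae_dich {V : Set X} {E : Set (Set X)} (hG : PG V E) {D : Set (Set X)} (hD : D ⊆ E) {e : Set X} (he : e ∈ E) :
    e ⊆ ⋃₀ D ∨ e ∩ ⋃₀ D ⊆ V := by
  by_cases h1 : e ∈ D
  · exact Or.inl (subset_sUnion_of_mem h1)
  · right
    rintro x ⟨hx, e', he', hx'⟩
    exact hG.inter e he e' (hD he') (fun h2 => h1 (h2 ▸ he')) ⟨hx, hx'⟩

/-- the boundary of a face contains a vertex -/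
theorem sae_vert {V : Set X} {E : Set (Set X)} (hG : Good V E) {U : Set X} (hU : U ∈ Fc E) :
    ∃ x ∈ V, x ∈ frontier U := by
  obtain ⟨D, hD, hDe⟩ := hG.pg.frontier_edges hU (hG.disc U hU)
  obtain ⟨q, hq⟩ := (hG.disc U hU).jordan.isConnected.nonempty
  rw [hDe] at hq ⊢
  obtain ⟨e, he, hqe⟩ := hq
  obtain ⟨a, ha, b, hb, harc, heV⟩ := hG.pg.arc e (hD he)
  exact ⟨a, ha, e, he, harc.left_mem⟩

include h

theorem exists_path {V : Set X} {E : Set (Set X)} (hA : c.Adm c.L1 V E) {i : ℕ} (hi : i < c.nc) {θ : Set X}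
    (hθ : θ ∈ c.Eint i) {v : X} (hv : v ∈ c.Vbd i) (hvθ : v ∈ θ) : ∃ (Pt : Set X) (p u : X), p ∈ V ∧
      p ∈ c.Y (c.lev i) θ E ∧ PathG E Pt p u ∧ u ∈ V ∧ Pt ⊆ MS E (c.half (c.lev i) θ v) ∧
      Pt ∩ c.Y (c.lev i) θ E = {p} ∧ Pt ∩ c.K E = {u} ∧ ‖c.Q (c.lev i) u - c.Q (c.lev i) v‖ ≤ 6 * c.ε := by
  have hG := hA.good
  obtain ⟨hθE, -, hθR⟩ := R3_of_Eint h.net hθ
  obtain ⟨hvS, hvV⟩ := Vbd_So h hi hv
  obtain ⟨y, hym, hyθ, -⟩ := net_mid h.net hθE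
  have hy : y ∈ c.mid (c.lev i) θ := by rw [hym]; exact mem_singleton y
  obtain ⟨hMc, ⟨A, hAE, hMA⟩, hMn, hMf, hMv⟩ := half_facts h hA hi hθE hθR hvV hvθ
  obtain ⟨-, ⟨DY, hDY, hYe⟩, -, hYO, hYf⟩ := Y_facts h hA hi hθ hy
  obtain ⟨DK, hDK, hKe⟩ := K_edges (c := c) hG
  obtain ⟨hh1, hh2, hyh, hvh⟩ := net_half h.net hθE hvV hvθ hy
  have hYK : Disjoint (⋃₀ DY) (⋃₀ DK) := by
    rw [← hYe, ← hKe]
    exact hYO.mono_right (K_sub_Om E)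
  have hAc : IsPreconnected (⋃₀ A) := by
    rw [← hMA]
    exact hMc.isPreconnected
  have hSn : ((⋃₀ DY) ∩ V ∩ ⋃₀ A).Nonempty := by
    obtain ⟨U₀, hU₀, hyU⟩ := hG.pg.cover hG.disc y
    obtain ⟨x, hxV, hxU⟩ := sae_vert hG hU₀
    refine ⟨x, ⟨?_, hxV⟩, ?_⟩
    · rw [← hYe]
      exact hYf U₀ hU₀ hyU hxU
    · rw [← hMA]
      exact hMf U₀ hU₀ ⟨y, hyU, hyh⟩ hxU
  have hTn : ((⋃₀ DK) ∩ V ∩ ⋃₀ A).Nonempty := by
    obtain ⟨U₁, hU₁, hvU⟩ := hG.pg.cover hG.disc v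
    obtain ⟨x, hxV, hxU⟩ := sae_vert hG hU₁
    have h1 := hMv hvS U₁ hU₁ hvU hxU
    refine ⟨x, ⟨?_, hxV⟩, ?_⟩
    · rw [← hKe]
      exact h1.2
    · rw [← hMA]
      exact h1.1
  obtain ⟨s, t, p, hp, hps, hpt⟩ := hG.pg.path_between hAE hAc (fun e he => sae_dich hG.pg hDY (hAE he))
    (fun e he => sae_dich hG.pg hDK (hAE he)) hSn hTn hYK
  rw [← hYe] at hps
  rw [← hKe] at hpt
  have hpE : PathG E p s t := hp.mono' hAE
  have hst := hG.pg.end_mem hpE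
  have hpM : p ⊆ MS E (c.half (c.lev i) θ v) := by
    obtain ⟨-, E', hE', hpe⟩ := hp
    rw [hMA, hpe]
    exact sUnion_subset_sUnion hE'
  have hsp : s ∈ p ∩ c.Y (c.lev i) θ E := by rw [hps]; exact mem_singleton s
  have htp : t ∈ p ∩ c.K E := by rw [hpt]; exact mem_singleton t
  exact ⟨p, s, t, hst.1, hsp.2, hpE, hst.2, hpM, hps, hpt,
    (near_end h hA hi hθ hvV hvθ (hpM htp.1) (K_sub_Om E htp.2)).2⟩

end Pool.ETM
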