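/-
Project ETM (MP_c7bb65_an), block SPa1, module SaF (difficulty 2): joining arcs and discs (pure topology).
`Arc0 p a b` (JS/PgDefs): `(a = b ∧ p = {a}) ∨ ArcX p a b`.

* `arc0_union`: cases. If `a = c`: `γ = {a}`, `a ∈ α` (an end of `α`, or `α = {a}`). Otherwise if one of the two is a point take the
  other one; if both are arcs: `ArcX.union_arc` (JS/PgG).
* `arc0_disc`: `DiscX D J U`: `Φ` continuous and injective on the closed unit ball with image `D`; `a = Φ p`, `b = Φ q`; if `a = b` take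
  `{a}`; otherwise `t ↦ Φ (lineMap p q t)` on `[0,1]` (the ball is convex).
* `hat_arc`: `(V, E)` good, `U₀ ∈ Fc E`, `y ∈ closure U₀`, `D ⊆ E`, `⋃₀ D` connected, `frontier U₀ ⊆ ⋃₀ D`, `p ∈ V ∩ ⋃₀ D`. `frontier U₀`
  is a nonempty union of edges (`PG.frontier_edges`, `JDom.jordan`), so it contains a vertex `p₀ ∈ V` (end of an edge). If `p = p₀` take
  `{p}`, otherwise `PG.path` (with `A := D`) gives a path in `⋃₀ D` from `p` to `p₀`. Then `arc0_disc` in `closure U₀` (`JDom`: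
  `DiscX (closure U₀) (frontier U₀) U₀`) from `p₀` to `y`. `arc0_union`.
-/
import Mathlib
import Pool.Agent.ETM.Bridge

set_option autoImplicit false

open Set Metric Topology Filter
open Pool.JS

namespace Pool.ETM

theorem arc0_symm {X : Type*} [TopologicalSpace X] {α : Set X} {a b : X} (hα : Arc0 α a b) : Arc0 α b a := by
  rcases hα with ⟨h, h'⟩ | ⟨γ, h1, h2, h3, h4, h5⟩
  · subst h
    exact Or.inl ⟨rfl, h'⟩
  · refine Or.inr ⟨fun t => γ (1 - t), ?_, ?_, ?_, ?_, ?_⟩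
    · refine h1.comp (by fun_prop) ?_
      intro t ht
      exact ⟨by linarith [ht.2], by linarith [ht.1]⟩
    · intro t ht t' ht' h
      have h6 := h2 (show 1 - t ∈ Icc (0 : ℝ) 1 from ⟨by linarith [ht.2], by linarith [ht.1]⟩)
        (show 1 - t' ∈ Icc (0 : ℝ) 1 from ⟨by linarith [ht'.2], by linarith [ht'.1]⟩) h
      linarith
    · rw [← h3]
      ext x
      constructor
      · rintro ⟨t, ht, rfl⟩
        exact ⟨1 - t, ⟨by linarith [ht.2], by linarith [ht.1]⟩, rfl⟩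
      · rintro ⟨t, ht, rfl⟩
        refine ⟨1 - t, ⟨by linarith [ht.2], by linarith [ht.1]⟩, ?_⟩
        change γ (1 - (1 - t)) = γ t
        rw [sub_sub_cancel]
    · change γ (1 - 0) = b
      rw [sub_zero, h5]
    · change γ (1 - 1) = a
      rw [sub_self, h4]

private theorem saF_left {X : Type*} [TopologicalSpace X] {α : Set X} {a b : X} (hα : Arc0 α a b) : a ∈ α := by
  rcases hα with ⟨h, h'⟩ | ⟨γ, h1, h2, h3, h4, h5⟩
  · rw [h']
    exact mem_singleton a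
  · rw [← h3, ← h4]
    exact ⟨0, ⟨le_rfl, zero_le_one⟩, rfl⟩

theorem arc0_union {X : Type*} [TopologicalSpace X] [T2Space X] {α β : Set X} {a b d : X} (hα : Arc0 α a b)
    (hβ : Arc0 β b d) : ∃ γ ⊆ α ∪ β, Arc0 γ a d := by
  by_cases h : a = d
  · subst h
    refine ⟨{a}, ?_, Or.inl ⟨rfl, rfl⟩⟩
    rw [singleton_subset_iff]
    exact Or.inl (saF_left hα)
  · rcases hα with ⟨h1, h2⟩ | h1
    · subst h1
      exact ⟨β, subset_union_right, hβ⟩
    · rcases hβ with ⟨h3, h4⟩ | h3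
      · subst h3
        exact ⟨α, subset_union_left, Or.inr h1⟩
      · obtain ⟨γ, h5, h6⟩ := ArcX.union_arc h1 h3 h
        exact ⟨γ, h5, Or.inr h6⟩

theorem arc0_disc {X : Type*} [TopologicalSpace X] [T2Space X] {D J U : Set X} (hD : DiscX D J U) {a b : X} (ha : a ∈ D)
    (hb : b ∈ D) : ∃ γ ⊆ D, Arc0 γ a b := by
  by_cases hab : a = b
  · subst hab
    exact ⟨{a}, singleton_subset_iff.2 ha, Or.inl ⟨rfl, rfl⟩⟩
  · obtain ⟨Φ, h1, h2, h3, -, -⟩ := hD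
    rw [← h3] at ha hb
    obtain ⟨p, hp, rfl⟩ := ha
    obtain ⟨q, hq, rfl⟩ := hb
    have hpq : p ≠ q := fun h => hab (by rw [h])
    have hm : ∀ t ∈ Icc (0 : ℝ) 1, AffineMap.lineMap p q t ∈ closedBall (0 : ℂ) 1 := by
      intro t ht
      exact (convex_closedBall (0 : ℂ) 1).lineMap_mem hp hq ht
    refine ⟨(fun t : ℝ => Φ (AffineMap.lineMap p q t)) '' Icc 0 1, ?_, Or.inr ⟨fun t : ℝ => Φ (AffineMap.lineMap p q t),
      ?_, ?_, rfl, ?_, ?_⟩⟩
    · rintro _ ⟨t, ht, rfl⟩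
      rw [← h3]
      exact ⟨_, hm t ht, rfl⟩
    · exact h1.comp (AffineMap.lineMap_continuous).continuousOn hm
    · intro t ht t' ht' h
      have h4 := h2 (hm t ht) (hm t' ht') h
      exact AffineMap.lineMap_injective ℝ hpq h4
    · change Φ (AffineMap.lineMap p q (0 : ℝ)) = Φ p
      rw [AffineMap.lineMap_apply_zero]
    · change Φ (AffineMap.lineMap p q (1 : ℝ)) = Φ q
      rw [AffineMap.lineMap_apply_one]

theorem hat_arc {X : Type*} [TopologicalSpace X] [CompactSpace X] [T2Space X] [Sph X] {V : Set X} {E : Set (Set X)}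
    (hG : Good V E) {U₀ : Set X} (hU : U₀ ∈ Fc E) {y : X} (hy : y ∈ closure U₀) {D : Set (Set X)} (hD : D ⊆ E)
    (hc : IsPreconnected (⋃₀ D)) (hfr : frontier U₀ ⊆ ⋃₀ D) {p : X} (hp : p ∈ V) (hpD : p ∈ ⋃₀ D) :
    ∃ γ ⊆ closure U₀ ∪ ⋃₀ D, Arc0 γ p y := by
  have hd := hG.disc U₀ hU
  obtain ⟨D', hD'E, hfrD⟩ := hG.pg.frontier_edges hU hd
  obtain ⟨z, hz⟩ := hd.jordan.isConnected.nonempty
  have hz' := hz
  rw [hfrD] at hz'
  obtain ⟨e, he, hze⟩ := hz'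
  obtain ⟨p₀, hp₀, q₀, hq₀, harc, hev⟩ := hG.pg.arc e (hD'E he)
  have hp₀e : p₀ ∈ e := harc.left_mem
  have hp₀f : p₀ ∈ frontier U₀ := by
    rw [hfrD]
    exact ⟨e, he, hp₀e⟩
  have h1 : ∃ γ ⊆ ⋃₀ D, Arc0 γ p p₀ := by
    by_cases hpp : p = p₀
    · refine ⟨{p}, singleton_subset_iff.2 hpD, Or.inl ⟨hpp, rfl⟩⟩
    · obtain ⟨γ, hγ1, D₁, hD₁, hγ2⟩ := hG.pg.path hD hc hp hp₀ hpD (hfr hp₀f) hpp
      refine ⟨γ, ?_, Or.inr hγ1⟩
      rw [hγ2]
      exact sUnion_subset_sUnion hD₁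
  obtain ⟨γ, hγ1, hγ2⟩ := h1
  obtain ⟨δ, hδ1, hδ2⟩ := arc0_disc hd.2 (frontier_subset_closure hp₀f) hy
  obtain ⟨ε, hε1, hε2⟩ := arc0_union hγ2 hδ2
  refine ⟨ε, ?_, hε2⟩
  intro x hx
  rcases hε1 hx with h | h
  · exact Or.inr (hγ1 h)
  · exact Or.inl (hδ1 h)

end Pool.ETM
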