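/-
Project ETM (MP_c7bb65_an), block SPa1, module SaG (difficulty 3): 7.4, existence of the arc `e_θ`.

PROOF. `k = lev i`, `Q = c.Q k`. By `Vint_or_Vbd` every end `v` of `θ` is in exactly one of `Vint i`, `Vbd i`. Recall
`wend i us v = if v ∈ Vint i then v else us v`.

CASE A: all ends are in `Vint i`. Take `e = θ` (`Pt`, `us` arbitrary, e.g. `fun _ => ∅`, `id`). `path`, the right hand side of `om`: no
`v ∈ Vbd i`, `v ∈ θ`. `arc`: `net_other` (unique other end). `near`: `net_nh` (`θ ⊆ nh`). `om`: `x ∈ θ ∩ Om E`: `x ∈ closure U`,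
`U ∈ Us E`, there is `x' ∈ closure U ∩ So`; `x ∈ nh k θ (4 ε)`; `om_near` gives `v ∈ Vbd i`, `v ∈ θ`: contradiction. `atv`, `same` clear.

CASE B: otherwise. For every `v ∈ Vbd i`, `v ∈ θ` choose `Pt v`, `us v` by `exists_path` (`classical`, `choose` or a definition by `if`).
`y` = the midpoint (`net_mid`), `U₀ ∈ Fc E` with `y ∈ closure U₀` (`PG.cover`), `Y = c.Y k θ E = ⋃₀ D_Y` (`Y_facts`),
`Yh = closure U₀ ∪ Y`. For an end `v` let `R v = half k θ v` if `v ∈ Vint i` and `R v = Pt v` if `v ∈ Vbd i`; `w v = wend i us v`.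
* Points of `Yh` are in `D` and within `< 4 ε` of `y`: `Y_facts`, and `lv_small` for `U₀` (`y ∈ θ ⊆ nh k θ (10 ε)`).
  So they are in `nh k θ (4 ε)` (as `Q y ∈ Q '' θ`), and at distance `> 6 ε` from the ends (`‖Q y - Q v‖ = s/2 ≥ 200 ε`).
* Points of `R v` satisfy `‖Q x - Q v‖ < s/2 + ε` (`half_facts`; for `half`: `≤ s/2`), are in `nh k θ ε`; so if `v'` is the other end
  `‖Q x - Q v'‖ ≥ s - (s/2 + ε) > 6 ε`.
* For every end there is `γ ⊆ R v ∪ Yh`, `Arc0 γ (w v) y`: if `v ∈ Vint i` take `half` (`net_half`). If `v ∈ Vbd i`: the arc `Pt v`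
  from `us v` to `p ∈ V ∩ Y`, then `hat_arc` from `p` to `y`; `arc0_union`, `arc0_symm`.
* Let `a ≠ b` be the ends (`net_ends`). `arc0_union` gives `e ⊆ R a ∪ R b ∪ Yh` with `Arc0 e (w a) (w b)`; `w a ≠ w b` because
  `‖Q (w v) - Q v‖ ≤ 6 ε` and `‖Q a - Q b‖ = s ≥ 400 ε > 12 ε`. So `ArcX e (w a) (w b)`.
Clauses: `path`: `exists_path`. `arc`: `{v, v'} = {a, b}` (`net_ends`), `ArcX.symm`. `near`: the bounds above. `atv`: `v ∈ Vint i` an end,
`x ∈ e`, `x ∈ Bc k v (6 ε)` so `‖Q x - Q v‖ ≤ 6 ε`: `x` is not in `Yh` and not in `R v'`, so `x ∈ R v = half k θ v ⊆ θ`. `same`: the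
hypothesis is false in case B. `om`: (⊇) `v ∈ Vbd i`: `us v = w v ∈ e` (end of the arc) and `us v ∈ K E ⊆ Om E`. (⊆) `x ∈ e ∩ closure U`,
`U ∈ Us E`: `om_near` (`x ∈ nh k θ (4 ε)`) gives `v ∈ Vbd i`, `v ∈ θ`, `‖Q x - Q v‖ ≤ 6 ε`; so `x ∉ Yh`, `x ∉ R v'`, so `x ∈ R v = Pt v`;
`Pt v ⊆ ⋃₀ E` (a path), so `x ∈ K E` (`mem_K_of_Om`), `x ∈ Pt v ∩ K E = {us v}`.
-/
import Mathlib
import Pool.Agent.ETM.SaE
import Pool.Agent.ETM.SaF

set_option autoImplicit false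

open Set Metric Topology Filter
open Pool.JS

namespace Pool.ETM

variable {X : Type*} [MetricSpace X] [CompactSpace X] [Sph X] {c : Ctx X} (h : c.Ok)

include h

/-- 7.3, 7.4: existence of the paths and of the arc -/
theorem exists_loc {V : Set X} {E : Set (Set X)} (hA : c.Adm c.L1 V E) {i : ℕ} (hi : i < c.nc) {θ : Set X}
    (hθ : θ ∈ c.Eint i) : ∃ (Pt : X → Set X) (us : X → X) (e : Set X), c.Loc i θ V E Pt us e := by
  classical
  have hG := hA.good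
  have hN := h.net
  obtain ⟨hθE, hθA, hθR⟩ := R3_of_Eint hN hθ
  obtain ⟨hε, hs, hsε⟩ := net_pos hN
  obtain ⟨a, haV, b, hbV, hab, haθ, hbθ, harc, hends, hseg, hdab⟩ := net_ends hN hθE
  have hnhs : ∀ {r : ℝ}, 0 ≤ r → r < 20 * c.ε → θ ⊆ c.nh (c.lev i) θ r := fun h0 h1 => (net_nh hN hθE h0 h1).2.2.2
  -- points of Om near the edge
  have hom : ∀ x ∈ c.nh (c.lev i) θ (4 * c.ε), x ∈ c.Om E →
      ∃ v ∈ c.Vbd i, v ∈ θ ∧ ‖c.Q (c.lev i) x - c.Q (c.lev i) v‖ ≤ 6 * c.ε := by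
    rintro x hx ⟨F, ⟨U, hU, rfl⟩, hxU⟩
    obtain ⟨x', hx'1, hx'2⟩ := hU.2
    obtain ⟨v, hv, hvθ, h1, -⟩ := om_near h hA hi hθ hU hxU hx hx'1 hx'2
    exact ⟨v, hv, hvθ, h1⟩
  by_cases hcase : ∀ v ∈ c.V (c.lev i), v ∈ θ → v ∈ c.Vint i
  · have hno : ∀ v ∈ c.Vbd i, v ∈ θ → False := fun v hv hvθ => hv.2 (hcase v hv.1.1 hvθ).2
    refine ⟨fun _ => ∅, id, θ, ⟨fun v hv hvθ => (hno v hv hvθ).elim, ?_, hnhs (by linarith) (by linarith), ?_,
      fun v _ _ => inter_subset_left, fun _ => rfl⟩⟩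
    · intro v hv v' hv' hvθ hvθ' hne
      have e1 : c.wend i id v = v := if_pos (hcase v hv hvθ)
      have e2 : c.wend i id v' = v' := if_pos (hcase v' hv' hvθ')
      rw [e1, e2]
      rcases hends v hv hvθ with h1 | h1 <;> rcases hends v' hv' hvθ' with h2 | h2
      · exact absurd (h1.trans h2.symm) hne
      · rw [h1, h2]; exact harc
      · rw [h1, h2]; exact harc.symm
      · exact absurd (h1.trans h2.symm) hne
    · apply Subset.antisymm
      · rintro x ⟨hxθ, hxO⟩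
        obtain ⟨v, hv, hvθ, -⟩ := hom x (hnhs (by linarith) (by linarith) hxθ) hxO
        exact (hno v hv hvθ).elim
      · rintro x ⟨v, hv, hvθ, -⟩
        exact (hno v hv hvθ).elim
  · obtain ⟨y, hym, hyθ, hyd⟩ := net_mid hN hθE
    have hy : y ∈ c.mid (c.lev i) θ := by rw [hym]; exact mem_singleton y
    obtain ⟨hYc, ⟨DY, hDY, hYe⟩, hYn, hYO, hYf⟩ := Y_facts h hA hi hθ hy
    -- the paths
    have hex : ∀ v : X, ∃ (Pt : Set X) (u : X), v ∈ c.Vbd i → v ∈ θ → ∃ p : X, p ∈ V ∧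
        p ∈ c.Y (c.lev i) θ E ∧ PathG E Pt p u ∧ u ∈ V ∧ Pt ⊆ MS E (c.half (c.lev i) θ v) ∧
        Pt ∩ c.Y (c.lev i) θ E = {p} ∧ Pt ∩ c.K E = {u} ∧ ‖c.Q (c.lev i) u - c.Q (c.lev i) v‖ ≤ 6 * c.ε := by
      intro v
      by_cases hv : v ∈ c.Vbd i ∧ v ∈ θ
      · obtain ⟨Pt, p, u, h1⟩ := exists_path h hA hi hθ hv.1 hv.2
        exact ⟨Pt, u, fun _ _ => ⟨p, h1⟩⟩
      · exact ⟨∅, v, fun h1 h2 => absurd ⟨h1, h2⟩ hv⟩
    choose Pt us hPt using hex
    obtain ⟨U₀, hU₀, hyU⟩ := hG.pg.cover hG.disc y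
    have hUs := lv_small h hi hθE hθR hA hU₀ ⟨y, hyU, hnhs (by linarith) (by linarith) hyθ⟩
    have hmono : ∀ {r r' : ℝ}, r ≤ r' → c.nh (c.lev i) θ r ⊆ c.nh (c.lev i) θ r' :=
      fun hr x hx => ⟨hx.1, hx.2.trans hr⟩
    set Yh := closure U₀ ∪ c.Y (c.lev i) θ E with hYh
    have hYh1 : ∀ x ∈ Yh, x ∈ c.nh (c.lev i) θ (4 * c.ε) ∧ ‖c.Q (c.lev i) x - c.Q (c.lev i) y‖ < 4 * c.ε := by
      rintro x (hx | hx)
      · have h1 := hUs.2 x hx y hyU
        refine ⟨⟨hUs.1 hx, ?_⟩, by linarith⟩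
        have h2 := infDist_le_dist_of_mem (x := c.Q (c.lev i) x) (mem_image_of_mem (c.Q (c.lev i)) hyθ)
        rw [dist_eq_norm] at h2
        linarith
      · have h1 := hYn x hx
        exact ⟨h1.2.1, h1.2.2⟩
    set R : X → Set X := fun v => if v ∈ c.Vint i then c.half (c.lev i) θ v else Pt v with hR
    have hRint : ∀ v, v ∈ c.Vint i → R v = c.half (c.lev i) θ v := fun v hv => if_pos hv
    have hRbd : ∀ v, v ∉ c.Vint i → R v = Pt v := fun v hv => if_neg hv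
    have hwint : ∀ v, v ∈ c.Vint i → c.wend i us v = v := fun v hv => if_pos hv
    have hwbd : ∀ v, v ∉ c.Vint i → c.wend i us v = us v := fun v hv => if_neg hv
    have hdich := fun v hv hvθ => Vint_or_Vbd (c := c) hN hθ (v := v) hv hvθ
    have hRn : ∀ v ∈ c.V (c.lev i), v ∈ θ → ∀ x ∈ R v, x ∈ c.nh (c.lev i) θ (4 * c.ε) ∧
        ‖c.Q (c.lev i) x - c.Q (c.lev i) v‖ < c.s / 2 + c.ε := by
      intro v hv hvθ x hx
      rcases hdich v hv hvθ with ⟨h1, -⟩ | ⟨h1, h2⟩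
      · rw [hRint v h1] at hx
        exact ⟨hnhs (by linarith) (by linarith) hx.1, by linarith [hx.2]⟩
      · rw [hRbd v h2] at hx
        obtain ⟨p, -, -, -, -, h3, -⟩ := hPt v h1 hvθ
        obtain ⟨-, -, h4, -⟩ := half_facts h hA hi hθE hθR hv hvθ
        obtain ⟨-, h5, z, -, -, h6⟩ := h4 x (h3 hx)
        exact ⟨hmono (by linarith) h5, h6⟩
    have hwn : ∀ v ∈ c.V (c.lev i), v ∈ θ → ‖c.Q (c.lev i) (c.wend i us v) - c.Q (c.lev i) v‖ ≤ 6 * c.ε := by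
      intro v hv hvθ
      rcases hdich v hv hvθ with ⟨h1, -⟩ | ⟨h1, h2⟩
      · rw [hwint v h1, sub_self, norm_zero]
        linarith
      · rw [hwbd v h2]
        obtain ⟨p, -, -, -, -, -, -, -, h3⟩ := hPt v h1 hvθ
        exact h3
    have hγ : ∀ v ∈ c.V (c.lev i), v ∈ θ → ∃ γ ⊆ R v ∪ Yh, Arc0 γ (c.wend i us v) y := by
      intro v hv hvθ
      rcases hdich v hv hvθ with ⟨h1, -⟩ | ⟨h1, h2⟩
      · rw [hwint v h1, hRint v h1]
        exact ⟨_, subset_union_left, Or.inr (net_half hN hθE hv hvθ hy).1⟩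
      · rw [hwbd v h2, hRbd v h2]
        obtain ⟨p, hpV, hpY, hpP, -⟩ := hPt v h1 hvθ
        have hc : IsPreconnected (⋃₀ DY) := by rw [← hYe]; exact hYc.isPreconnected
        have hfr : frontier U₀ ⊆ ⋃₀ DY := by rw [← hYe]; exact hYf U₀ hU₀ hyU
        obtain ⟨γ', hγ', h3⟩ := hat_arc hG hU₀ hyU hDY hc hfr hpV (by rw [← hYe]; exact hpY)
        rw [← hYe] at hγ'
        obtain ⟨γ, hγs, h4⟩ := arc0_union (arc0_symm (Or.inr hpP.1)) h3
        exact ⟨γ, hγs.trans (union_subset_union_right _ hγ'), h4⟩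
    obtain ⟨γa, hγa, ha0⟩ := hγ a haV haθ
    obtain ⟨γb, hγb, hb0⟩ := hγ b hbV hbθ
    obtain ⟨e, hes, he0⟩ := arc0_union ha0 (arc0_symm hb0)
    have hwab : c.wend i us a ≠ c.wend i us b := by
      intro heq
      have h1 := hwn a haV haθ
      have h2 := hwn b hbV hbθ
      rw [heq] at h1
      have h3 : c.Q (c.lev i) a - c.Q (c.lev i) b = (c.Q (c.lev i) (c.wend i us b) - c.Q (c.lev i) b) -
          (c.Q (c.lev i) (c.wend i us b) - c.Q (c.lev i) a) := by ring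
      have h4 := norm_sub_le (c.Q (c.lev i) (c.wend i us b) - c.Q (c.lev i) b)
        (c.Q (c.lev i) (c.wend i us b) - c.Q (c.lev i) a)
      rw [← h3, hdab] at h4
      linarith
    have he : ArcX e (c.wend i us a) (c.wend i us b) := by
      rcases he0 with ⟨h1, -⟩ | h1
      · exact absurd h1 hwab
      · exact h1
    have hesub : ∀ x ∈ e, x ∈ R a ∨ x ∈ R b ∨ x ∈ Yh := by
      intro x hx
      rcases hes hx with h1 | h1
      · rcases hγa h1 with h2 | h2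
        · exact Or.inl h2
        · exact Or.inr (Or.inr h2)
      · rcases hγb h1 with h2 | h2
        · exact Or.inr (Or.inl h2)
        · exact Or.inr (Or.inr h2)
    have henear : e ⊆ c.nh (c.lev i) θ (4 * c.ε) := by
      intro x hx
      rcases hesub x hx with h1 | h1 | h1
      · exact (hRn a haV haθ x h1).1
      · exact (hRn b hbV hbθ x h1).1
      · exact (hYh1 x h1).1
    -- far from the other end
    have hfar : ∀ v ∈ c.V (c.lev i), v ∈ θ → ∀ v' ∈ c.V (c.lev i), v' ∈ θ → ‖c.Q (c.lev i) v - c.Q (c.lev i) v'‖ = c.s →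
        ∀ x ∈ R v', ¬ ‖c.Q (c.lev i) x - c.Q (c.lev i) v‖ ≤ 6 * c.ε := by
      intro v hv hvθ v' hv' hvθ' hd x hx h6
      have h1 := (hRn v' hv' hvθ' x hx).2
      have h3 : c.Q (c.lev i) v - c.Q (c.lev i) v' = (c.Q (c.lev i) x - c.Q (c.lev i) v') -
          (c.Q (c.lev i) x - c.Q (c.lev i) v) := by ring
      have h4 := norm_sub_le (c.Q (c.lev i) x - c.Q (c.lev i) v') (c.Q (c.lev i) x - c.Q (c.lev i) v)
      rw [← h3, hd] at h4
      linarith
    have hfarY : ∀ v ∈ c.V (c.lev i), v ∈ θ → ∀ x ∈ Yh, ¬ ‖c.Q (c.lev i) x - c.Q (c.lev i) v‖ ≤ 6 * c.ε := by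
      intro v hv hvθ x hx h6
      have h1 := (hYh1 x hx).2
      have h2 := hyd v hv hvθ
      have h3 : c.Q (c.lev i) y - c.Q (c.lev i) v = (c.Q (c.lev i) x - c.Q (c.lev i) v) -
          (c.Q (c.lev i) x - c.Q (c.lev i) y) := by ring
      have h4 := norm_sub_le (c.Q (c.lev i) x - c.Q (c.lev i) v) (c.Q (c.lev i) x - c.Q (c.lev i) y)
      rw [← h3, h2] at h4
      linarith
    have hdba : ‖c.Q (c.lev i) b - c.Q (c.lev i) a‖ = c.s := by rw [norm_sub_rev]; exact hdab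
    have hloc : ∀ v ∈ c.V (c.lev i), v ∈ θ → ∀ x ∈ e, ‖c.Q (c.lev i) x - c.Q (c.lev i) v‖ ≤ 6 * c.ε → x ∈ R v := by
      intro v hv hvθ x hx h6
      rcases hends v hv hvθ with h1 | h1
      · rw [h1] at h6 ⊢
        rcases hesub x hx with h2 | h2 | h2
        · exact h2
        · exact absurd h6 (hfar a haV haθ b hbV hbθ hdab x h2)
        · exact absurd h6 (hfarY a haV haθ x h2)
      · rw [h1] at h6 ⊢
        rcases hesub x hx with h2 | h2 | h2
        · exact absurd h6 (hfar b hbV hbθ a haV haθ hdba x h2)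
        · exact h2
        · exact absurd h6 (hfarY b hbV hbθ x h2)
    have hVi : ∀ v ∈ c.Vbd i, v ∉ c.Vint i := fun v hv hv' => hv.2 hv'.2
    refine ⟨Pt, us, e, ⟨?_, ?_, henear, ?_, ?_, fun h1 => absurd h1 hcase⟩⟩
    · intro v hv hvθ
      obtain ⟨p, h1, h2, h3, h4, h5, h6, h7, -⟩ := hPt v hv hvθ
      exact ⟨p, h1, h2, h3, h4, h5, h6, h7⟩
    · intro v hv v' hv' hvθ hvθ' hne
      rcases hends v hv hvθ with h1 | h1 <;> rcases hends v' hv' hvθ' with h2 | h2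
      · exact absurd (h1.trans h2.symm) hne
      · rw [h1, h2]; exact he
      · rw [h1, h2]; exact he.symm
      · exact absurd (h1.trans h2.symm) hne
    · apply Subset.antisymm
      · rintro x ⟨hxe, hxO⟩
        obtain ⟨v, hv, hvθ, h6⟩ := hom x (henear hxe) hxO
        have h1 := hloc v hv.1.1 hvθ x hxe h6
        rw [hRbd v (hVi v hv)] at h1
        obtain ⟨p, -, -, ⟨-, E', hE', hpe⟩, -, -, -, h7, -⟩ := hPt v hv hvθ
        have hxE : x ∈ ⋃₀ E := by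
          have h2 := h1
          rw [hpe] at h2
          exact sUnion_subset_sUnion hE' h2
        have h8 : x ∈ Pt v ∩ c.K E := ⟨h1, mem_K_of_Om hG hxE hxO⟩
        rw [h7] at h8
        exact ⟨v, hv, hvθ, h8⟩
      · rintro x ⟨v, hv, hvθ, rfl⟩
        obtain ⟨p, -, -, -, -, -, -, h7, -⟩ := hPt v hv hvθ
        have h8 : us v ∈ Pt v ∩ c.K E := by rw [h7]; exact mem_singleton _
        refine ⟨?_, K_sub_Om E h8.2⟩
        rcases hends v hv.1.1 hvθ with h1 | h1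
        · have h2 := he.left_mem
          rw [← h1, hwbd v (hVi v hv)] at h2
          exact h2
        · have h2 := he.right_mem
          rw [← h1, hwbd v (hVi v hv)] at h2
          exact h2
    · rintro v hv hvθ x ⟨hxe, hxB⟩
      have h1 := (net_bc hN hθE hv.1 hvθ (r := 6 * c.ε) (by linarith) (by linarith)).2.2.2.2
      rw [h1] at hxB
      have h2 := hloc v hv.1 hvθ x hxe hxB.2
      rw [hRint v hv] at h2
      exact h2.1

end Pool.ETM
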