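/-
Project ETM (MP_c7bb65_an), block SPa2 (section 7.4 of /team-store/c7bb65_proof.md): the choice rule.
MODULE SrA.  The structure `Loc` at an interior edge `θ` only depends on the local datum, so the paths and arcs can be chosen as a
function of the local datum.  `exists_rule` of If.lean is `sr_rule` with `exists_loc` (SPa1).
-/
import Mathlib
import Pool.Agent.ETM.Bridge
import Pool.Agent.ETM.IfLv

set_option autoImplicit false

open Set Metric Topology Filter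
open Pool.JS

namespace Pool.ETM

section top

variable {X : Type*} [TopologicalSpace X] [T2Space X]

/-- an arc contained in an arc with the same end points -/
theorem sr_arc_eq {A B : Set X} {p q : X} (hA : ArcX A p q) (hB : ArcX B p q) (hs : A ⊆ B) : A = B := by
  refine Subset.antisymm hs fun y hy => ?_
  by_contra hyA
  have hyp : y ≠ p := fun h => hyA (h ▸ hA.left_mem)
  have hyq : y ≠ q := fun h => hyA (h ▸ hA.right_mem)
  obtain ⟨B₁, B₂, h1, h2, h3, h4⟩ := hB.split hy hyp hyq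
  have hc := hA.isConnected.isPreconnected
  rw [isPreconnected_closed_iff] at hc
  obtain ⟨z, hzA, hz1, hz2⟩ := hc B₁ B₂ h1.isCompact.isClosed h2.isCompact.isClosed (by rw [h3]; exact hs)
    ⟨p, hA.left_mem, h1.left_mem⟩ ⟨q, hA.right_mem, h2.right_mem⟩
  have : z ∈ B₁ ∩ B₂ := ⟨hz1, hz2⟩
  rw [h4] at this
  rw [mem_singleton_iff.mp this] at hzA
  exact hyA hzA

/-- an edge contained in a set where the two graphs agree is an edge of both -/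
theorem sr_edge {V V₀ D : Set X} {E E₀ : Set (Set X)} (hG : PG V E) (hG₀ : PG V₀ E₀) (h1 : ⋃₀ E ∩ D = ⋃₀ E₀ ∩ D)
    (h2 : V ∩ D = V₀ ∩ D) {e : Set X} (he : e ∈ E₀) (heD : e ⊆ D) : e ∈ E := by
  obtain ⟨p, hp, q, hq, hpq, hV⟩ := hG₀.arc e he
  obtain ⟨hcon, hcl⟩ := hpq.interior
  have hpD : p ∈ V ∩ D := by rw [h2]; exact ⟨hp, heD hpq.left_mem⟩
  have hqD : q ∈ V ∩ D := by rw [h2]; exact ⟨hq, heD hpq.right_mem⟩
  have hsub : e \ {p, q} ⊆ ⋃₀ E \ V := by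
    rintro x ⟨hx, hxn⟩
    have hxE : x ∈ ⋃₀ E ∩ D := by rw [h1]; exact ⟨⟨e, he, hx⟩, heD hx⟩
    refine ⟨hxE.1, fun hxV => hxn ?_⟩
    have : x ∈ V₀ ∩ D := by rw [← h2]; exact ⟨hxV, heD hx⟩
    rw [← hV]
    exact ⟨hx, this.1⟩
  obtain ⟨x, hx⟩ := hcon.nonempty
  obtain ⟨e', he', hxe'⟩ := (hsub hx).1
  have hin := hG.inner_sub hcon.isPreconnected hsub he' hx hxe'
  obtain ⟨p', hp', q', hq', hpq', hV'⟩ := hG.arc e' he'
  have hee : e ⊆ e' := hcl.trans (closure_minimal hin hpq'.isCompact.isClosed)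
  have hpm : p ∈ ({p', q'} : Set X) := by rw [← hV']; exact ⟨hee hpq.left_mem, hpD.1⟩
  have hqm : q ∈ ({p', q'} : Set X) := by rw [← hV']; exact ⟨hee hpq.right_mem, hqD.1⟩
  have hne := hpq.ne
  have hfin : e = e' := by
    rcases hpm with rfl | hpm
    · rcases hqm with rfl | hqm
      · exact absurd rfl hne
      · rw [mem_singleton_iff] at hqm
        subst hqm
        exact sr_arc_eq hpq hpq' hee
    · rw [mem_singleton_iff] at hpm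
      subst hpm
      rcases hqm with rfl | hqm
      · exact sr_arc_eq hpq hpq'.symm hee
      · exact absurd (mem_singleton_iff.mp hqm).symm hne
  rw [hfin]
  exact he'

end top

section sph

variable {X : Type*} [MetricSpace X] [CompactSpace X] [Sph X]

/-- a face whose closure is contained in a set where the two graphs agree is a face of both -/
theorem sr_face {V D : Set X} {E E₀ : Set (Set X)} (hG : PG V E) (h1 : ⋃₀ E ∩ D = ⋃₀ E₀ ∩ D) {U : Set X} (hU : U ∈ Fc E)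
    (hUD : closure U ⊆ D) : U ∈ Fc E₀ := by
  have hUo : IsOpen U := Fc.isOpen hG hU
  refine ⟨hU.ne, hU.conn, fun x hx hx0 => ?_, fun C hC hCs hCU => ?_⟩
  · have : x ∈ ⋃₀ E ∩ D := by rw [h1]; exact ⟨hx0, hUD (subset_closure hx)⟩
    exact hU.sub hx this.1
  · refine hC.subset_of_closure_inter_subset hUo hCU ?_
    rintro x ⟨hx, hxC⟩
    by_contra hxU
    have hxf : x ∈ frontier U := by rw [hUo.frontier_eq]; exact ⟨hx, hxU⟩
    have : x ∈ ⋃₀ E₀ ∩ D := by rw [← h1]; exact ⟨Fc.frontier_sub hG hU hxf, hUD hx⟩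
    exact hCs hxC this.1

/-- `E` has small faces near the edge `θ` of level `k` -/
def SrSm (c : Ctx X) (k : ℕ) (θ : Set X) (E : Set (Set X)) : Prop :=
  ∀ U ∈ Fc E, (closure U ∩ c.nh k θ (10 * c.ε)).Nonempty →
    closure U ⊆ c.D k θ ∧ ∀ x ∈ closure U, ∀ y ∈ closure U, ‖c.Q k x - c.Q k y‖ < c.ε

theorem sr_ms {c : Ctx X} {k : ℕ} {θ V : Set X} {E E₀ : Set (Set X)} (hG : PG V E) (hs : SrSm c k θ E)
    (h1 : ⋃₀ E ∩ c.D k θ = ⋃₀ E₀ ∩ c.D k θ) {S : Set X} (hS : S ⊆ c.nh k θ (10 * c.ε)) : MS E S ⊆ MS E₀ S := by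
  rintro x ⟨J, ⟨U, hU, hne, rfl⟩, hx⟩
  have h3 := (hs U hU (hne.mono (inter_subset_inter_right _ hS))).1
  exact ⟨frontier U, ⟨U, sr_face hG h1 hU h3, hne, rfl⟩, hx⟩

theorem sr_ms_at {c : Ctx X} {k : ℕ} {θ V : Set X} {E E₀ : Set (Set X)} (hG : PG V E) (hs : SrSm c k θ E)
    (h1 : ⋃₀ E ∩ c.D k θ = ⋃₀ E₀ ∩ c.D k θ) {S : Set X} {x : X} (hx : x ∈ c.nh k θ (10 * c.ε)) (hxS : x ∈ MS E S) :
    x ∈ MS E₀ S := by
  obtain ⟨J, ⟨U, hU, hne, rfl⟩, hxJ⟩ := hxS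
  have h3 := (hs U hU ⟨x, frontier_subset_closure hxJ, hx⟩).1
  exact ⟨frontier U, ⟨U, sr_face hG h1 hU h3, hne, rfl⟩, hxJ⟩

theorem sr_om_at {c : Ctx X} {k : ℕ} {θ V : Set X} {E E₀ : Set (Set X)} (hG : PG V E) (hs : SrSm c k θ E)
    (h1 : ⋃₀ E ∩ c.D k θ = ⋃₀ E₀ ∩ c.D k θ) {x : X} (hx : x ∈ c.nh k θ (10 * c.ε)) (hxO : x ∈ c.Om E) : x ∈ c.Om E₀ := by
  obtain ⟨J, ⟨U, ⟨hU, hne⟩, rfl⟩, hxJ⟩ := hxO
  have h3 := (hs U hU ⟨x, hxJ, hx⟩).1
  exact ⟨closure U, ⟨U, ⟨sr_face hG h1 hU h3, hne⟩, rfl⟩, hxJ⟩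

/-- `Bm` is contained in the neighbourhood of `θ` -/
theorem sr_Bm {c : Ctx X} {k : ℕ} {θ : Set X} {r R : ℝ} (hr : r ≤ R) : c.Bm k θ r ⊆ c.nh k θ R := by
  rintro x ⟨hx, y, ⟨hy, _⟩, hxy⟩
  refine ⟨hx, (infDist_le_dist_of_mem (mem_image_of_mem _ hy)).trans ?_⟩
  rw [dist_eq_norm]
  exact hxy.trans hr

theorem sr_half {c : Ctx X} {k : ℕ} {θ : Set X} {v : X} {R : ℝ} (hR : 0 ≤ R) (hθ : θ ⊆ c.D k θ) :
    c.half k θ v ⊆ c.nh k θ R := by
  rintro x ⟨hx, _⟩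
  refine ⟨hθ hx, ?_⟩
  rw [infDist_zero_of_mem (mem_image_of_mem _ hx)]
  exact hR

theorem sr_near {c : Ctx X} {k : ℕ} {θ S : Set X} {E : Set (Set X)} (hs : SrSm c k θ E) (hε : 0 < c.ε) (hθ : θ ⊆ c.D k θ)
    (hS : S ⊆ θ) {x : X} (hx : x ∈ MS E S) : x ∈ c.nh k θ (10 * c.ε) := by
  obtain ⟨J, ⟨U, hU, ⟨y, hyU, hyS⟩, rfl⟩, hxJ⟩ := hx
  have hy : y ∈ c.nh k θ (10 * c.ε) := by
    refine ⟨hθ (hS hyS), ?_⟩
    rw [infDist_zero_of_mem (mem_image_of_mem _ (hS hyS))]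
    positivity
  obtain ⟨h3, h4⟩ := hs U hU ⟨y, hyU, hy⟩
  have hxU := frontier_subset_closure hxJ
  refine ⟨h3 hxU, (infDist_le_dist_of_mem (mem_image_of_mem _ (hS hyS))).trans ?_⟩
  rw [dist_eq_norm]
  have := h4 x hxU y hyU
  linarith

/-- 7.4: `Loc` only depends on the local datum -/
theorem sr_loc {c : Ctx X} {i : ℕ} {θ V V₀ : Set X} {E E₀ : Set (Set X)} (hG : PG V E) (hG₀ : PG V₀ E₀) (hε : 0 < c.ε)
    (hθ : θ ⊆ c.D (c.lev i) θ) (hs : SrSm c (c.lev i) θ E) (hs₀ : SrSm c (c.lev i) θ E₀)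
    (hd : c.dat i θ V E = c.dat i θ V₀ E₀) {Pt : X → Set X} {us : X → X} {e : Set X} (hl : c.Loc i θ V₀ E₀ Pt us e) :
    c.Loc i θ V E Pt us e := by
  have h1 : ⋃₀ E ∩ c.D (c.lev i) θ = ⋃₀ E₀ ∩ c.D (c.lev i) θ := congrArg Prod.fst hd
  have h2 : V ∩ c.D (c.lev i) θ = V₀ ∩ c.D (c.lev i) θ := congrArg Prod.snd hd
  have hY : c.Y (c.lev i) θ E = c.Y (c.lev i) θ E₀ := by
    have hB : c.Bm (c.lev i) θ (3 * c.ε) ⊆ c.nh (c.lev i) θ (10 * c.ε) := sr_Bm (by linarith)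
    exact Subset.antisymm (sr_ms hG hs h1 hB) (sr_ms hG₀ hs₀ h1.symm hB)
  have hH : ∀ v, MS E (c.half (c.lev i) θ v) = MS E₀ (c.half (c.lev i) θ v) := fun v =>
    Subset.antisymm (sr_ms hG hs h1 (sr_half (by positivity) hθ)) (sr_ms hG₀ hs₀ h1.symm (sr_half (by positivity) hθ))
  refine ⟨fun v hv hvθ => ?_, hl.arc, hl.near, ?_, hl.atv, hl.same⟩
  · obtain ⟨p, hpV, hpY, ⟨harc, E', hE', hPE⟩, husV, hsub, hint, hK⟩ := hl.path v hv hvθ
    have hnear : ∀ x ∈ Pt v, x ∈ c.nh (c.lev i) θ (10 * c.ε) := fun x hx =>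
      sr_near hs₀ hε hθ (fun y hy => hy.1) (hsub hx)
    have hV : ∀ x ∈ Pt v, x ∈ V₀ → x ∈ V := fun x hx hxV => by
      have : x ∈ V ∩ c.D (c.lev i) θ := by rw [h2]; exact ⟨hxV, (hnear x hx).1⟩
      exact this.1
    refine ⟨p, hV p harc.left_mem hpV, hY ▸ hpY, ⟨harc, E', fun e' he' => ?_, hPE⟩, hV _ harc.right_mem husV,
      (hH v).symm ▸ hsub, by rw [hY]; exact hint, ?_⟩
    · refine sr_edge hG hG₀ h1 h2 (hE' he') fun x hx => ?_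
      exact (hnear x (by rw [hPE]; exact ⟨e', he', hx⟩)).1
    · rw [← hK]
      ext x
      constructor
      · rintro ⟨hx, hxK⟩
        exact ⟨hx, sr_ms_at hG hs h1 (hnear x hx) hxK⟩
      · rintro ⟨hx, hxK⟩
        exact ⟨hx, sr_ms_at hG₀ hs₀ h1.symm (hnear x hx) hxK⟩
  · rw [← hl.om]
    have hnear : ∀ x ∈ e, x ∈ c.nh (c.lev i) θ (10 * c.ε) := fun x hx => by
      obtain ⟨h3, h4⟩ := hl.near hx
      exact ⟨h3, h4.trans (by linarith)⟩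
    ext x
    constructor
    · rintro ⟨hx, hxO⟩
      exact ⟨hx, sr_om_at hG hs h1 (hnear x hx) hxO⟩
    · rintro ⟨hx, hxO⟩
      exact ⟨hx, sr_om_at hG₀ hs₀ h1.symm (hnear x hx) hxO⟩

variable {c : Ctx X} (h : c.Ok)

include h

omit h [CompactSpace X] [Sph X] in
private theorem sra_St {k : ℕ} {F : Set X} (hF : F ∈ c.Face k) {S : Set X} (hFS : (F ∩ S).Nonempty) : F ⊆ c.St k S :=
  subset_sUnion_of_mem (show F ∈ {F | F ∈ c.Face k ∧ (F ∩ S).Nonempty} from ⟨hF, hFS⟩)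

/-- interior edges are contained in the third star -/
theorem sr_R3 {i : ℕ} {θ : Set X} (hθ : θ ∈ c.Eint i) : θ ⊆ c.R3 i := by
  have hsub : θ ⊆ c.A i := by
    have hG := h.net.good (c.lev i)
    obtain ⟨U, _, hU, _, _, h3, _⟩ := (hG.pg.faces hG.ne (noCut_of_discs hG.pg hG.disc)).2.2 θ hθ.1
    have hF : closure U ∈ c.Face (c.lev i) := ⟨U, (by assumption), rfl⟩
    have h4 : θ ⊆ closure U := h3.trans frontier_subset_closure
    exact h4.trans (hθ.2 _ hF h4)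
  refine hsub.trans ?_
  rintro x ⟨F, ⟨hF, y, hy, hya⟩, hx⟩
  have hFne : (F ∩ c.A i).Nonempty := ⟨y, hy, F, ⟨hF, y, hy, hya⟩, hy⟩
  have h1 : F ⊆ c.St (c.lev i) (c.A i) := sra_St hF hFne
  have h2 : F ⊆ c.St (c.lev i) (c.St (c.lev i) (c.A i)) := sra_St hF ⟨y, hy, h1 hy⟩
  exact sra_St hF ⟨y, hy, h2 hy⟩ hx

theorem sr_sm {i : ℕ} (hi : i < c.nc) {θ : Set X} (hθ : θ ∈ c.Eint i) {V : Set X} {E : Set (Set X)}
    (hA : c.Adm c.L1 V E) : SrSm c (c.lev i) θ E := fun _ hU hx =>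
  lv_small h hi hθ.1 (sr_R3 h hθ) hA hU hx

/-- 7.4, the choice rule (`exists_rule` is this theorem with `exists_loc`) -/
theorem sr_rule (hloc : ∀ V E, c.Adm c.L1 V E → ∀ i < c.nc, ∀ θ ∈ c.Eint i,
    ∃ (Pt : X → Set X) (us : X → X) (e : Set X), c.Loc i θ V E Pt us e) :
    ∃ (Pt : ℕ → Set X → Set X × Set X → X → Set X) (us : ℕ → Set X → Set X × Set X → X → X)
      (el : ℕ → Set X → Set X × Set X → Set X), c.Rule Pt us el := by
  have key : ∀ (i : ℕ) (θ : Set X) (d : Set X × Set X), ∃ r : (X → Set X) × (X → X) × Set X, ∀ V E, c.Adm c.L1 V E →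
      i < c.nc → θ ∈ c.Eint i → c.dat i θ V E = d → c.Loc i θ V E r.1 r.2.1 r.2.2 := by
    intro i θ d
    by_cases hex : ∃ V₀ E₀, c.Adm c.L1 V₀ E₀ ∧ i < c.nc ∧ θ ∈ c.Eint i ∧ c.dat i θ V₀ E₀ = d
    · obtain ⟨V₀, E₀, hA₀, hi, hθ, hd⟩ := hex
      obtain ⟨Pt, us, e, hl⟩ := hloc V₀ E₀ hA₀ i hi θ hθ
      refine ⟨(Pt, us, e), fun V E hA _ _ hd' => ?_⟩
      exact sr_loc hA.good.pg hA₀.good.pg h.net.εpos (h.net.Dsub _ _ hθ.1) (sr_sm h hi hθ hA) (sr_sm h hi hθ hA₀)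
        (hd'.trans hd.symm) hl
    · refine ⟨(fun _ => ∅, id, ∅), fun V E hA hi hθ hd => ?_⟩
      exact absurd ⟨V, E, hA, hi, hθ, hd⟩ hex
  choose r hr using key
  refine ⟨fun i θ d => (r i θ d).1, fun i θ d => (r i θ d).2.1, fun i θ d => (r i θ d).2.2, ⟨?_⟩⟩
  intro V E hA i hi θ hθ
  exact hr i θ (c.dat i θ V E) V E hA hi hθ rfl

end sph

end Pool.ETM
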