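/-
Project ETM (MP_c7bb65_an), block SPa2: `exists_rule`, from `sr_rule` and `exists_loc`.
-/
import Mathlib
import Pool.Agent.ETM.SrA
import Pool.Agent.ETM.SaG

set_option autoImplicit false

open Set Metric Topology Filter
open Pool.JS

namespace Pool.ETM

variable {X : Type*} [MetricSpace X] [CompactSpace X] [Sph X] {c : Ctx X} (h : c.Ok)

include h

theorem exists_rule : ∃ (Pt : ℕ → Set X → Set X × Set X → X → Set X)
    (us : ℕ → Set X → Set X × Set X → X → X) (el : ℕ → Set X → Set X × Set X → Set X),
    c.Rule Pt us el :=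
  sr_rule h (fun _ _ hA _ hi _ hθ => exists_loc h hA hi hθ)

end Pool.ETM
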