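/-
Project ETM (MP_c7bb65_an). Blocks SPa1 and SPa2: om_near, us_near, exists_loc, exists_rule.
-/
import Pool.Agent.ETM.SaC
import Pool.Agent.ETM.SaD
import Pool.Agent.ETM.SaG
import Pool.Agent.ETM.SrR
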