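/-
Project ETM (MP_c7bb65_an), block SPb (7.6: the spliced graph has no cut point). Definitions.

THE PROOF (colouring argument). Let `G' = ⋃₀ spE`, fix `x` and open sets `O₁`, `O₂` with `G' \ {x} ⊆ O₁ ∪ O₂`,
`(G' \ {x}) ∩ (O₁ ∩ O₂) = ∅` (`Spt`). Every preconnected subset of `G' \ {x}` is in `O₁` or in `O₂` (its colour). `Kc a`, the part of
`K` in the component of `Om` containing `a`, has no cut point (PL13), so `Kc a \ {x}` has a colour. Let `F` be a closed face of level
`lev i` contained in `A i`. Attach to every edge `θ` of `F` the set `Nn i θ`: `el i θ` if `θ` is an interior edge, `Kc a`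
(any `a ∈ θ`; `θ ⊆ So ⊆ Om`) otherwise. Using that `frontier F` minus a point is connected: all `Nn i θ \ {x}`, `θ ⊆ F`, have the same
colour (module SbE). Then cover `X* = (c.OT)ᶜ` (connected) by the closed sets of the points of colour 1, 2 (points of `Om`: colour of `Kc`;
points of the faces `F ⊆ A i`: colour of `F`); they are disjoint (SbF), so there is only one colour (SbG).
-/
import Mathlib
import Pool.Agent.ETM.SpDefs

set_option autoImplicit false

open Set Metric Topology Filter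
open Pool.JS

namespace Pool.ETM

variable {X : Type*}

namespace Ctx

section

variable [TopologicalSpace X]

/-- the component of `Om E` containing `a` -/
def Oc (c : Ctx X) (E : Set (Set X)) (a : X) : Set X := connectedComponentIn (c.Om E) a

/-- the part of `K E` in the component of `Om E` containing `a` -/
def Kc (c : Ctx X) (E : Set (Set X)) (a : X) : Set X :=
  ⋃₀ {F | ∃ U ∈ c.Us E, closure U ⊆ c.Oc E a ∧ F = frontier U}

open Classical in
/-- the set attached to the edge `θ` of level `lev i` -/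
noncomputable def Nn (c : Ctx X) (E : Set (Set X)) (el : ℕ → Set X → Set X) (i : ℕ) (θ : Set X) : Set X :=
  if θ ∈ c.Eint i then el i θ else {g | ∃ a ∈ θ, g ∈ c.Kc E a}

end

end Ctx

/-- `O₁`, `O₂` separate `G` minus the point `x` (one of them may be empty) -/
structure Spt [TopologicalSpace X] (G : Set X) (x : X) (O₁ O₂ : Set X) : Prop where
  o₁ : IsOpen O₁
  o₂ : IsOpen O₂
  cov : G \ {x} ⊆ O₁ ∪ O₂
  disj : (G \ {x}) ∩ (O₁ ∩ O₂) = ∅

theorem Spt.symm [TopologicalSpace X] {G : Set X} {x : X} {O₁ O₂ : Set X} (hs : Spt G x O₁ O₂) : Spt G x O₂ O₁ :=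
  ⟨hs.o₂, hs.o₁, by rw [union_comm]; exact hs.cov, by rw [inter_comm O₂]; exact hs.disj⟩

/-- a preconnected subset of `G \ {x}` has a colour -/
theorem Spt.col [TopologicalSpace X] {G : Set X} {x : X} {O₁ O₂ : Set X} (hs : Spt G x O₁ O₂) {S : Set X}
    (hS : IsPreconnected S) (hSG : S ⊆ G \ {x}) : S ⊆ O₁ ∨ S ⊆ O₂ := by
  refine isPreconnected_iff_subset_of_disjoint.mp hS O₁ O₂ hs.o₁ hs.o₂ (hSG.trans hs.cov) ?_
  have h0 := hs.disj
  apply Set.eq_empty_of_forall_notMem
  intro y hy
  have : y ∈ (G \ {x}) ∩ (O₁ ∩ O₂) := ⟨hSG hy.1, hy.2⟩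
  rw [h0] at this
  exact this

theorem Spt.ncol [TopologicalSpace X] {G : Set X} {x : X} {O₁ O₂ : Set X} (hs : Spt G x O₁ O₂) {y : X} (hy : y ∈ G)
    (hyx : y ≠ x) (h1 : y ∈ O₁) (h2 : y ∈ O₂) : False := by
  have : y ∈ (G \ {x}) ∩ (O₁ ∩ O₂) := ⟨⟨hy, hyx⟩, h1, h2⟩
  rw [hs.disj] at this
  exact this

end Pool.ETM
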