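/-
Project ETM (MP_c7bb65_an), block SPb, module SbB (difficulty 3): faces of level `lev i` inside and outside `A i`.

`k = lev i`. `Face k` = closures of the faces of `E k`. `A i = ⋃₀ {F ∈ Face k | ∃ x ∈ F, w/4 ≤ a i x}`.
* `face_out`: `U ∈ Fc (E k)` and not `closure U ⊆ A i`. Then `Disjoint U (A i)`: if `y ∈ U ∩ F'`, `F' = closure U'` one of the faces in
  the union defining `A i`, then `U` is open and meets `closure U'`, so `U` meets `U'`, so `U = U'` (`Fc.disj`), so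
  `closure U = F' ⊆ A i`: contradiction. The open set `interior (A i)` is disjoint from `U`, hence from `closure U`.
* `F_So`: `U ∈ Fc (E k)`, `Disjoint (closure U) (interior (A i))`, `closure U` meets `A i`: then `closure U ⊆ St k (A i) ⊆ R3 i`
  (`sub_St`, `St_mono`), so `closure U ⊆ So` by `mem_So_near`.
* `edge_out`: `θ ∈ E k`, `θ ⊆ A i`, `θ ∉ Eint i`: by the definition of `Eint` there is `F ∈ Face k`, `θ ⊆ F`, not `F ⊆ A i`; `F = closure U`;
  `face_out`, `F_So` (`θ ⊆ F ∩ A i`, `θ ≠ ∅`: it is an arc). `θ ⊆ frontier U` because `U` is open and disjoint from `⋃₀ E k`.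
* `col_So`: `F = closure U_F ∈ Face k`, `F ⊆ A i`, `y ∈ F ∩ So`. `y ∉ interior (A i)` (`mem_So_iff`), so `not_int_A` gives `U ∈ Fc (E k)`,
  `y ∈ closure U`, `Disjoint U (A i)`, `Disjoint (closure U) (interior (A i))`; `closure U ⊆ So` (`F_So`, `y ∈ closure U ∩ A i`).
  `U ≠ U_F` (`U_F ⊆ A i`, nonempty). `Good.common_edge` (`y` is in both closures) gives `e ∈ E k` in both frontiers. `e ∉ Eint i`: otherwise
  `closure U ⊆ A i` but `U ≠ ∅` is disjoint from `A i`.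
* `A_disj`: `A i ⊆ R3 i` (`A_sub_R3`), `lv_R3`. `A_OT`: `lv_R3`: `x ∉ T nhole`, `OT = interior (T nhole)`.
* `face_mem_A`: `y ∈ A i` lies in a face `F ⊆ A i` (definition of `A i`).
* `face_edges`: `F = closure U ∈ Face k`: the edges contained in `F` are the edges of `frontier U`: `PG.frontier_edges` gives
  `frontier U = ⋃₀ D`, `D ⊆ E k`; an edge `θ ⊆ closure U` is contained in `frontier U` (disjoint from `U`), so `θ ∈ D` (`PG.mem_of_sub`).
  `frontier U` is a Jordan curve (`JDom.jordan`), so `D ≠ ∅`.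
-/
import Mathlib
import Pool.Agent.ETM.SbDefs
import Pool.Agent.ETM.SaB

set_option autoImplicit false

open Set Metric Topology Filter
open Pool.JS

namespace Pool.ETM

variable {X : Type*} [MetricSpace X] [CompactSpace X] [Sph X] {c : Ctx X}

private theorem sbB_fr (hN : c.NetOk) {k : ℕ} {U θ : Set X} (hU : U ∈ Fc (c.E k)) (hθ : θ ∈ c.E k) (hs : θ ⊆ closure U) :
    θ ⊆ frontier U := by
  intro x hx
  have hUo : IsOpen U := Fc.isOpen (hN.good k).pg hU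
  rw [frontier, hUo.interior_eq]
  refine ⟨hs hx, fun hxU => ?_⟩
  have h1 : U ⊆ (⋃₀ c.E k)ᶜ := FaceX.sub hU
  exact h1 hxU ⟨θ, hθ, hx⟩

theorem face_out (hN : c.NetOk) {i : ℕ} {U : Set X} (hU : U ∈ Fc (c.E (c.lev i))) (hne : ¬ closure U ⊆ c.A i) :
    Disjoint U (c.A i) ∧ Disjoint (closure U) (interior (c.A i)) := by
  have hUo : IsOpen U := Fc.isOpen (hN.good (c.lev i)).pg hU
  have h1 : Disjoint U (c.A i) := by
    rw [Set.disjoint_left]
    rintro y hyU ⟨F', hF', hyF'⟩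
    obtain ⟨⟨U', hU', rfl⟩, hx⟩ := hF'
    obtain ⟨z, hzU, hzU'⟩ := mem_closure_iff.1 hyF' U hUo hyU
    by_cases he : U = U'
    · apply hne
      rw [he]
      exact subset_sUnion_of_mem (show closure U' ∈ {F | F ∈ c.Face (c.lev i) ∧ ∃ x ∈ F, c.w / 4 ≤ c.a i x} from
        ⟨⟨U', hU', rfl⟩, hx⟩)
    · exact Set.disjoint_left.1 (Fc.disj hU hU' he) hzU hzU'
  exact ⟨h1, (h1.mono_right interior_subset).closure_left isOpen_interior⟩

theorem F_So (h : c.Ok) {i : ℕ} (hi : i < c.nc) {U : Set X} (hU : U ∈ Fc (c.E (c.lev i)))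
    (hd : Disjoint (closure U) (interior (c.A i))) (hA : (closure U ∩ c.A i).Nonempty) : closure U ⊆ c.So := by
  have h1 : closure U ⊆ c.St (c.lev i) (c.A i) :=
    subset_sUnion_of_mem (show closure U ∈ {F | F ∈ c.Face (c.lev i) ∧ (F ∩ c.A i).Nonempty} from ⟨⟨U, hU, rfl⟩, hA⟩)
  have h2 : closure U ⊆ c.R3 i := (h1.trans (sub_St h.net _ _)).trans (sub_St h.net _ _)
  intro x hx
  exact mem_So_near h hi (fun hxi => Set.disjoint_left.1 hd hx hxi) (Or.inl (h2 hx))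

theorem edge_out (h : c.Ok) {i : ℕ} (hi : i < c.nc) {θ : Set X} (hθ : θ ∈ c.E (c.lev i)) (hθA : θ ⊆ c.A i)
    (hθi : θ ∉ c.Eint i) : ∃ U ∈ Fc (c.E (c.lev i)), θ ⊆ frontier U ∧ Disjoint U (c.A i) ∧ closure U ⊆ c.So := by
  have h1 : ∃ F ∈ c.Face (c.lev i), θ ⊆ F ∧ ¬ F ⊆ c.A i := by
    by_contra hc
    push Not at hc
    exact hθi ⟨hθ, hc⟩
  obtain ⟨F, ⟨U, hU, rfl⟩, hθF, hFA⟩ := h1
  obtain ⟨h2, h3⟩ := face_out h.net hU hFA
  obtain ⟨p, -, q, -, harc, -⟩ := (h.net.good (c.lev i)).pg.arc θ hθ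
  have hp := harc.left_mem
  exact ⟨U, hU, sbB_fr h.net hU hθ hθF, h2, F_So h hi hU h3 ⟨p, hθF hp, hθA hp⟩⟩

theorem col_So (h : c.Ok) {i : ℕ} (hi : i < c.nc) {F : Set X} (hF : F ∈ c.Face (c.lev i)) (hFA : F ⊆ c.A i) {y : X}
    (hy : y ∈ F) (hyS : y ∈ c.So) : ∃ U ∈ Fc (c.E (c.lev i)), y ∈ closure U ∧ closure U ⊆ c.So ∧
      ∃ e ∈ c.E (c.lev i), e ∉ c.Eint i ∧ e ⊆ F ∧ e ⊆ closure U := by
  have h1 := (mem_So_iff.1 hyS).1 i hi
  obtain ⟨U, hU, hyU, hd1, hd2⟩ := not_int_A h.net h1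
  obtain ⟨U', hU', rfl⟩ := hF
  have hUne : U.Nonempty := FaceX.ne hU
  have hns : ¬ U ⊆ c.A i := fun hs => by
    obtain ⟨z, hz⟩ := hUne
    exact Set.disjoint_left.1 hd1 hz (hs hz)
  have hne : U ≠ U' := by
    intro he
    apply hns
    rw [he]
    exact subset_closure.trans hFA
  have hG := h.net.good (c.lev i)
  obtain ⟨e, he, he1, he2⟩ := PG.common_edge hG.pg hG.disc hG.val hU hU' hne ⟨y, hyU, hy⟩
  refine ⟨U, hU, hyU, F_So h hi hU hd2 ⟨y, hyU, hFA hy⟩, e, he, ?_, he2.trans frontier_subset_closure,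
    he1.trans frontier_subset_closure⟩
  intro hei
  exact hns (subset_closure.trans (hei.2 (closure U) ⟨U, hU, rfl⟩ (he1.trans frontier_subset_closure)))

theorem A_disj (h : c.Ok) {i j : ℕ} (hi : i < c.nc) (hj : j < c.nc) (hij : i ≠ j) : Disjoint (c.A i) (c.A j) := by
  rw [Set.disjoint_left]
  intro x hx
  exact (lv_R3 h hi (Or.inl (A_sub_R3 h.net i hx))).2.1 j hj hij.symm

theorem A_OT (h : c.Ok) {i : ℕ} (hi : i < c.nc) : Disjoint (c.A i) c.OT := by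
  rw [Set.disjoint_left]
  intro x hx hxT
  exact (lv_R3 h hi (Or.inl (A_sub_R3 h.net i hx))).2.2 (interior_subset hxT)

theorem face_mem_A {i : ℕ} {y : X} (hy : y ∈ c.A i) : ∃ F ∈ c.Face (c.lev i), F ⊆ c.A i ∧ y ∈ F := by
  obtain ⟨F, hF, hyF⟩ := hy
  exact ⟨F, hF.1, subset_sUnion_of_mem hF, hyF⟩

theorem face_edges (hN : c.NetOk) {k : ℕ} {F : Set X} (hF : F ∈ c.Face k) : ∃ U ∈ Fc (c.E k), F = closure U ∧
    ∃ D ⊆ c.E k, D.Nonempty ∧ frontier U = ⋃₀ D ∧ JorX (frontier U) ∧ ∀ θ ∈ c.E k, θ ∈ D ↔ θ ⊆ F := by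
  obtain ⟨U, hU, rfl⟩ := hF
  have hG := hN.good k
  obtain ⟨D, hD, hfD⟩ := PG.frontier_edges hG.pg hU (hG.disc U hU)
  have hJ : JorX (frontier U) := (hG.disc U hU).jordan
  refine ⟨U, hU, rfl, D, hD, ?_, hfD, hJ, ?_⟩
  · obtain ⟨γ, -, -, hγ⟩ := hJ
    have h1 : γ 1 ∈ frontier U := by
      rw [← hγ]
      exact mem_image_of_mem γ (by rw [mem_sphere_zero_iff_norm, norm_one])
    rw [hfD] at h1
    obtain ⟨e, he, -⟩ := h1
    exact ⟨e, he⟩
  · intro θ hθ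
    constructor
    · intro hθD
      have h1 : θ ⊆ frontier U := by
        rw [hfD]
        exact subset_sUnion_of_mem hθD
      exact h1.trans frontier_subset_closure
    · intro hs
      have h1 := sbB_fr hN hU hθ hs
      rw [hfD] at h1
      exact PG.mem_of_sub hG.pg hθ hD h1

end Pool.ETM
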