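/-
Project ETM (MP_c7bb65_an), block SPb, module SbA (difficulty 3): the components `Oc`, `Kc` of `Om`, `K`. `(V, E)` is a good graph.

`Om E = ⋃₀ {F | ∃ U ∈ Us E, F = closure U}`, `Us E ⊆ Fc E` is finite (`Good.finF`). `U ∈ Us E` is a Jordan domain, so `closure U` is
connected (`JDom.isConnected`, `IsConnected.closure`).
* `om_closed`: finite union of closed sets.
* `oc_eq`: `S` preconnected, `S ⊆ Om`, `a, b ∈ S`: `S ⊆ connectedComponentIn Om a` (`IsPreconnected.subset_connectedComponentIn`), so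
  `b ∈ Oc a`, `connectedComponentIn_eq`. `kc_eq`: `Kc` only depends on `Oc`.
* `kc_noCut`: `Good.noCut_comp` with `𝒰 = Us E`; `⋃ U ∈ Us E, closure U = Om E`.
* `kc_mem`: `a ∈ closure U`, `U ∈ Us E`: `closure U ⊆ Oc a` (connected, contains `a`), so `frontier U ⊆ Kc a`. `kc_sub`: clear from
  `K E = MS E So = ⋃ frontier U` over `U ∈ Us E`.
* `kc_two`: `a ∈ Om` lies in `closure U`, `U ∈ Us E`, `frontier U ⊆ Kc a` is a Jordan curve (`JDom.jordan`), so it has (at least) two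
  points (images of `1` and `-1` under the injective parametrisation of the circle).
* `kc_closed`: `{a | a ∈ Om ∧ p (Kc a)} = ⋃ {closure U | U ∈ Us E, ∃ b ∈ closure U, p (Kc b)}`: for `a, b ∈ closure U` `Kc a = Kc b`
  (`kc_eq` with `S = closure U`). Finite union of closed sets.
-/
import Mathlib
import Pool.Agent.ETM.SbDefs
import Pool.Agent.ETM.Bridge

set_option autoImplicit false

open Set Metric Topology Filter
open Pool.JS

namespace Pool.ETM

variable {X : Type*} [MetricSpace X] [CompactSpace X] [Sph X] {c : Ctx X} {V : Set X} {E : Set (Set X)}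

theorem sbA_om (E : Set (Set X)) : c.Om E = ⋃ U ∈ c.Us E, closure U := by
  ext x
  constructor
  · rintro ⟨F, ⟨U, hU, rfl⟩, hx⟩
    exact mem_biUnion hU hx
  · intro hx
    obtain ⟨U, hU, hx⟩ := mem_iUnion₂.1 hx
    exact ⟨closure U, ⟨U, hU, rfl⟩, hx⟩

theorem sbA_fin (hG : Good V E) : (c.Us E).Finite := hG.finF.subset (fun _ hU => hU.1)

theorem om_closed (hG : Good V E) : IsClosed (c.Om E) := by
  rw [sbA_om]
  exact (sbA_fin hG).isClosed_biUnion (fun _ _ => isClosed_closure)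

theorem us_conn (hG : Good V E) {U : Set X} (hU : U ∈ c.Us E) : IsConnected (closure U) ∧ closure U ⊆ c.Om E :=
  ⟨(hG.disc U hU.1).isConnected.closure, fun _ hx => ⟨closure U, ⟨U, hU, rfl⟩, hx⟩⟩

theorem kc_eq {S : Set X} (hS : IsPreconnected S) (hSO : S ⊆ c.Om E) {a b : X} (ha : a ∈ S) (hb : b ∈ S) :
    c.Kc E a = c.Kc E b := by
  have h1 : c.Oc E a = c.Oc E b := connectedComponentIn_eq (hS.subset_connectedComponentIn ha hSO hb)
  unfold Ctx.Kc
  rw [h1]

theorem kc_noCut (hG : Good V E) {a : X} (ha : a ∈ c.Om E) : NoCut (c.Kc E a) := by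
  have h1 := hG.pg.noCut_comp hG.disc hG.val (𝒰 := c.Us E) (a := a) (fun _ hU => hU.1) (by rw [← sbA_om]; exact ha)
  rw [← sbA_om] at h1
  exact h1

theorem kc_mem (hG : Good V E) {U : Set X} (hU : U ∈ c.Us E) {a : X} (ha : a ∈ closure U) : frontier U ⊆ c.Kc E a := by
  intro x hx
  exact ⟨frontier U, ⟨U, hU, (us_conn hG hU).1.isPreconnected.subset_connectedComponentIn ha (us_conn hG hU).2, rfl⟩, hx⟩

theorem kc_sub (a : X) : c.Kc E a ⊆ c.K E := by
  rintro x ⟨F, ⟨U, hU, -, rfl⟩, hx⟩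
  exact ⟨frontier U, ⟨U, hU.1, hU.2, rfl⟩, hx⟩

theorem kc_two (hG : Good V E) {a : X} (ha : a ∈ c.Om E) (x : X) : (c.Kc E a \ {x}).Nonempty := by
  obtain ⟨F, ⟨U, hU, rfl⟩, haU⟩ := ha
  obtain ⟨q, hq, hqx⟩ := (hG.disc U hU.1).jordan.exists_ne x
  exact ⟨q, kc_mem hG hU haU hq, hqx⟩

theorem kc_closed (hG : Good V E) (p : Set X → Prop) : IsClosed {a | a ∈ c.Om E ∧ p (c.Kc E a)} := by
  have h1 : {a | a ∈ c.Om E ∧ p (c.Kc E a)} =
      ⋃ U ∈ {U | U ∈ c.Us E ∧ ∃ b ∈ closure U, p (c.Kc E b)}, closure U := by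
    ext a
    constructor
    · rintro ⟨⟨F, ⟨U, hU, rfl⟩, haU⟩, hp⟩
      exact mem_biUnion (x := U) ⟨hU, a, haU, hp⟩ haU
    · intro ha
      obtain ⟨U, ⟨hU, b, hbU, hp⟩, haU⟩ := mem_iUnion₂.1 ha
      obtain ⟨h2, h3⟩ := us_conn hG hU
      refine ⟨h3 haU, ?_⟩
      rw [kc_eq h2.isPreconnected h3 haU hbU]
      exact hp
  rw [h1]
  exact ((sbA_fin hG).subset (fun _ hU => hU.1)).isClosed_biUnion (fun _ _ => isClosed_closure)

end Pool.ETM
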