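/-
Project ETM (MP_c7bb65_an), block SPb, module SbC (difficulty 3): the point `us v` is in `Kc v` (7.6a), and the ends of the arcs
`el i θ` at different vertices are different.

`k = lev i`, `Q = c.Q k`; `hl i hi θ hθ : Loc ...`.
* `us_kc`: `z = us i θ v`. `Loc.om` (right to left) gives `z ∈ el i θ`, so `z ∈ nh k θ (4 ε)` (`Loc.near`). `us_near`: `z ∈ K E`,
  `‖Q z - Q v‖ ≤ 6 ε`. So `z ∈ frontier U`, `U ∈ Us E` (`K E = MS E So`), there is `x' ∈ closure U ∩ So`. `om_near` (for `U`, `z`, `x'`) gives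
  `v' ∈ Vbd i`, `v' ∈ θ`, `‖Q z - Q v'‖ ≤ 6 ε`, `JoinedIn (So ∩ ..) x' v'`. `v' = v`: otherwise `‖Q v - Q v'‖ = s ≥ 400 ε` (`net_other`)
  but it is `≤ 12 ε`. The path is a connected subset of `So ⊆ Om` (`So_sub_Om`) containing `x'` and `v`, `closure U` is a connected
  subset of `Om` containing `z`, `x'`: `kc_eq` twice: `Kc z = Kc x' = Kc v`; `z ∈ frontier U ⊆ Kc z` (`kc_mem`).
* `vint_om`: `v ∈ Vint i`, `v ∈ θ ∈ Eint i`, `v ∈ Om E`: `v ∈ closure U`, `U ∈ Us E`, `x' ∈ closure U ∩ So`, `v ∈ nh k θ (4 ε)` (distance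
  `0`); `om_near`: `v' ∈ Vbd i`, `v' ∈ θ`, `‖Q v - Q v'‖ ≤ 6 ε`, so `v' = v` (`net_other`), but `Vint i ∩ Vbd i = ∅`: `False`.
* `wend_mem`: `Loc.arc` (with the other end `net_other`): `wend i us v ∈ el i θ` (an end of the arc). `wend_ne` the ends are different.
* `ends_inj`: `θ, θ' ∈ Eint i`, `v ∈ θ`, `v' ∈ θ'` vertices, `wend i (us i θ) v = wend i (us i θ') v'`. By `Vint_or_Vbd`: both in `Vint`:
  `wend` is the identity. `v ∈ Vint`, `v' ∈ Vbd`: `v = us i θ' v' ∈ K E ⊆ Om E` (`us_near`, `K_sub_Om`): `vint_om`. Both in `Vbd`: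
  `z = us i θ v = us i θ' v'` is in `el i θ ∩ el i θ'`; if `θ ≠ θ'` then `el_inter` gives `z ∈ Vint i`, `z ∈ θ`, but `z ∈ K E ⊆ Om E`:
  `vint_om`. So `θ = θ'`, `‖Q z - Q v‖ ≤ 6 ε`, `‖Q z - Q v'‖ ≤ 6 ε` (`us_near`) and `v = v'` by the distance `s`.
* `not_end`: `x ∈ el i θ₀` not of the form `wend i (us i θ₀) v` with an end `v` of `θ₀`. Then (a) `x ∉ Om E`: by `Loc.om` a point of
  `el i θ₀ ∩ Om E` is `us v`, `v ∈ Vbd i`, so `wend v = us v` (`v ∉ Vint i`). (b) `x ∉ el i θ` for `θ ∈ Eint i`, `θ ≠ θ₀`: `el_inter` gives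
  `x ∈ Vint i`, `x ∈ θ₀`, so `x = wend i (us i θ₀) x`, `x` an end of `θ₀`: contradiction.
-/
import Mathlib
import Pool.Agent.ETM.SbA
import Pool.Agent.ETM.SaD
import Pool.Agent.ETM.IfSd

set_option autoImplicit false

open Set Metric Topology Filter
open Pool.JS

namespace Pool.ETM

variable {X : Type*} [MetricSpace X] [CompactSpace X] [Sph X] {c : Ctx X} (h : c.Ok) {V : Set X} {E : Set (Set X)}
  (hA : c.Adm c.L1 V E) {Pt : ℕ → Set X → X → Set X} {us : ℕ → Set X → X → X} {el : ℕ → Set X → Set X}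
  (hl : ∀ i < c.nc, ∀ θ ∈ c.Eint i, c.Loc i θ V E (Pt i θ) (us i θ) (el i θ))

omit [CompactSpace X] [Sph X] hA in
include h in
private theorem sbc_close {k : ℕ} {θ : Set X} (hθ : θ ∈ c.E k) {v v' : X} (hv : v ∈ c.V k) (hvθ : v ∈ θ)
    (hv' : v' ∈ c.V k) (hvθ' : v' ∈ θ) (hd : ‖c.Q k v - c.Q k v'‖ ≤ 12 * c.ε) : v = v' := by
  obtain ⟨w, _, _, _, _, hall, _, hs⟩ := net_other h.net hθ hv hvθ
  have hε := h.net.εpos
  have hsε := h.net.sε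
  rcases hall v' hv' hvθ' with hh | hh
  · exact hh.symm
  · rw [← hh] at hs
    linarith

include h hA

theorem vint_om {i : ℕ} (hi : i < c.nc) {θ : Set X} (hθ : θ ∈ c.Eint i) {v : X} (hv : v ∈ c.Vint i) (hvθ : v ∈ θ) :
    v ∉ c.Om E := by
  rintro ⟨F, ⟨U, hU, rfl⟩, hvU⟩
  obtain ⟨x', hx'U, hx'S⟩ := hU.2
  have hε := h.net.εpos
  have hnh : v ∈ c.nh (c.lev i) θ (4 * c.ε) := by
    refine ⟨h.net.Dsub _ θ hθ.1 hvθ, ?_⟩
    rw [infDist_zero_of_mem (mem_image_of_mem _ hvθ)]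
    linarith
  obtain ⟨v', hv', hvθ', hd, _⟩ := om_near h hA hi hθ hU hvU hnh hx'U hx'S
  have hvv : v = v' := sbc_close h hθ.1 hv.1 hvθ hv'.1.1 hvθ' (by linarith)
  subst hvv
  exact hv'.2 hv.2

include hl

theorem us_kc {i : ℕ} (hi : i < c.nc) {θ : Set X} (hθ : θ ∈ c.Eint i) {v : X} (hv : v ∈ c.Vbd i) (hvθ : v ∈ θ) :
    us i θ v ∈ c.Kc E v ∧ us i θ v ∈ el i θ := by
  have hL := hl i hi θ hθ
  have hz : us i θ v ∈ el i θ ∩ c.Om E := by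
    rw [hL.om]
    exact ⟨v, hv, hvθ, rfl⟩
  have hnh := hL.near hz.1
  obtain ⟨_, hzv, hzK, _⟩ := us_near h hA hi hθ hL hv hvθ
  obtain ⟨J, ⟨U, hU, ⟨x', hx'U, hx'S⟩, rfl⟩, hzU⟩ := hzK
  have hUs : U ∈ c.Us E := ⟨hU, x', hx'U, hx'S⟩
  have hzc := frontier_subset_closure hzU
  obtain ⟨v', hv', hvθ', hzv', _, _, hJ⟩ := om_near h hA hi hθ hUs hzc hnh hx'U hx'S
  have hvv : v = v' := by
    apply sbc_close h hθ.1 hv.1.1 hvθ hv'.1.1 hvθ'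
    have := norm_sub_le_norm_sub_add_norm_sub (c.Q (c.lev i) v) (c.Q (c.lev i) (us i θ v)) (c.Q (c.lev i) v')
    rw [norm_sub_rev (c.Q (c.lev i) v) (c.Q (c.lev i) (us i θ v))] at this
    linarith
  subst hvv
  obtain ⟨γ, hγ⟩ := hJ
  have hrange : IsPreconnected (range γ) := isPreconnected_range γ.continuous
  have hsub : range γ ⊆ c.Om E := by
    rintro _ ⟨t, rfl⟩
    exact So_sub_Om hA.good (hγ t).1
  have e1 : c.Kc E x' = c.Kc E v := kc_eq hrange hsub ⟨0, γ.source⟩ ⟨1, γ.target⟩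
  obtain ⟨hc1, hc2⟩ := us_conn hA.good hUs
  have e2 : c.Kc E (us i θ v) = c.Kc E x' := kc_eq hc1.isPreconnected hc2 hzc hx'U
  refine ⟨?_, hz.1⟩
  rw [← e1, ← e2]
  exact kc_mem hA.good hUs hzc hzU

theorem wend_mem {i : ℕ} (hi : i < c.nc) {θ : Set X} (hθ : θ ∈ c.Eint i) {v : X} (hv : v ∈ c.V (c.lev i)) (hvθ : v ∈ θ) :
    c.wend i (us i θ) v ∈ el i θ := by
  obtain ⟨w, hw, hwθ, hne, _⟩ := net_other h.net hθ.1 hv hvθ
  exact ((hl i hi θ hθ).arc v hv w hw hvθ hwθ hne.symm).left_mem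

theorem ends_inj {i : ℕ} (hi : i < c.nc) {θ θ' : Set X} (hθ : θ ∈ c.Eint i) (hθ' : θ' ∈ c.Eint i) {v v' : X}
    (hv : v ∈ c.V (c.lev i)) (hvθ : v ∈ θ) (hv' : v' ∈ c.V (c.lev i)) (hvθ' : v' ∈ θ')
    (he : c.wend i (us i θ) v = c.wend i (us i θ') v') : v = v' := by
  have hK : ∀ {θ : Set X} (hθ : θ ∈ c.Eint i) {v : X}, v ∈ c.Vbd i → v ∈ θ → us i θ v ∈ c.Om E := by
    intro θ hθ v hv hvθ
    exact K_sub_Om E (us_near h hA hi hθ (hl i hi θ hθ) hv hvθ).2.2.1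
  unfold Ctx.wend at he
  rcases Vint_or_Vbd h.net hθ hv hvθ with ⟨h1, h2⟩ | ⟨h1, h2⟩ <;>
    rcases Vint_or_Vbd h.net hθ' hv' hvθ' with ⟨h1', h2'⟩ | ⟨h1', h2'⟩
  · rwa [if_pos h1, if_pos h1'] at he
  · rw [if_pos h1, if_neg h2'] at he
    refine (vint_om h hA hi hθ h1 hvθ ?_).elim
    rw [he]
    exact hK hθ' h1' hvθ'
  · rw [if_neg h2, if_pos h1'] at he
    refine (vint_om h hA hi hθ' h1' hvθ' ?_).elim
    rw [← he]
    exact hK hθ h1 hvθ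
  · rw [if_neg h2, if_neg h2'] at he
    by_cases hθθ : θ = θ'
    · subst hθθ
      apply sbc_close h hθ.1 hv hvθ hv' hvθ'
      have d1 := (us_near h hA hi hθ (hl i hi θ hθ) h1 hvθ).2.1
      have d2 := (us_near h hA hi hθ (hl i hi θ hθ) h1' hvθ').2.1
      rw [← he] at d2
      have := norm_sub_le_norm_sub_add_norm_sub (c.Q (c.lev i) v) (c.Q (c.lev i) (us i θ v)) (c.Q (c.lev i) v')
      rw [norm_sub_rev (c.Q (c.lev i) v) (c.Q (c.lev i) (us i θ v))] at this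
      linarith
    · have hz := (us_kc h hA hl hi hθ h1 hvθ).2
      have hz' := (us_kc h hA hl hi hθ' h1' hvθ').2
      rw [← he] at hz'
      obtain ⟨_, h3, h4, _⟩ := el_inter h hA hl hi hi hθ hθ' (Or.inr hθθ) hz hz'
      exact (vint_om h hA hi hθ h3 h4 (hK hθ h1 hvθ)).elim

theorem not_end {i : ℕ} (hi : i < c.nc) {θ₀ : Set X} (hθ : θ₀ ∈ c.Eint i) {x : X} (hx : x ∈ el i θ₀)
    (hne : ∀ v ∈ c.V (c.lev i), v ∈ θ₀ → x ≠ c.wend i (us i θ₀) v) :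
    x ∉ c.Om E ∧ ∀ θ ∈ c.Eint i, θ ≠ θ₀ → x ∉ el i θ := by
  constructor
  · intro hxO
    have hz : x ∈ el i θ₀ ∩ c.Om E := ⟨hx, hxO⟩
    rw [(hl i hi θ₀ hθ).om] at hz
    obtain ⟨v, hv, hvθ, rfl⟩ := hz
    apply hne v hv.1.1 hvθ
    unfold Ctx.wend
    rw [if_neg (fun hvi => hv.2 hvi.2)]
  · intro θ hθ' hθθ hx'
    obtain ⟨_, h3, h4, _⟩ := el_inter h hA hl hi hi hθ hθ' (Or.inr hθθ.symm) hx hx'
    apply hne x h3.1 h4
    unfold Ctx.wend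
    rw [if_pos h3]

end Pool.ETM
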