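/-
Project ETM (MP_c7bb65_an), block SPb, module SbD (difficulty 2): colourings of a Jordan curve (pure topology).

* `cyc_color`: `J` a Jordan curve, covered by finitely many closed sets `A j` with colours `col j`. `J \ {v}` is preconnected
  (`JorX.noCut`). Suppose `col j = true`, `col j' = false`. Put `C₁ = ⋃ {A j | col j}`, `C₂ = ⋃ {A j | ¬ col j}`, closed (finite unions);
  `J \ {v} ⊆ C₁ ∪ C₂`, both meet `J \ {v}` (`hne`), so by `isPreconnected_closed_iff` there is a point `u ∈ J \ {v}` in `C₁ ∩ C₂`, i.e. in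
  `A j ∩ A j'` with different colours: contradiction to `hadj`.
* `cyc_color_arc`: one of the closed sets is an arc `θ` with end points `a`, `b` and an interior point `p`; it is cut at `p` into two
  arcs `θ₁` (from `a` to `p`), `θ₂` (from `p` to `b`), `θ₁ ∩ θ₂ = {p}` (restrict the parametrisation), with the colours `κ₁`, `κ₂`. Apply
  `cyc_color` with index type `ι ⊕ Bool` (or `Option (Option ι)`), `v = p`.
* `arc_diff_end`, `arc_diff_mid`: with the parametrisation `γ : [0,1] → A`: `A \ {p} = γ '' (0,1]`, `A \ {q} = γ '' [0,1)`, and for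
  `x = γ t`, `0 < t < 1`: `A \ {x} = γ '' [0,t) ∪ γ '' (t,1]`.
-/
import Mathlib
import Pool.Agent.ETM.Bridge

set_option autoImplicit false

open Set Metric Topology Filter
open Pool.JS

namespace Pool.ETM

variable {X : Type*} [TopologicalSpace X] [T2Space X]

theorem cyc_color {J : Set X} (hJ : JorX J) {ι : Type*} [Finite ι] (A : ι → Set X) (v : X) (hcl : ∀ j, IsClosed (A j))
    (hne : ∀ j, (A j \ {v}).Nonempty) (hcov : J = ⋃ j, A j) (col : ι → Prop)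
    (hadj : ∀ j j', ∀ u ∈ A j ∩ A j', u ≠ v → (col j ↔ col j')) : ∀ j j', col j ↔ col j' := by
  have key : ∀ j j', col j → ¬ col j' → False := by
    intro j j' hj hj'
    have hpre : IsPreconnected (J \ {v}) := hJ.noCut' v
    have h1 : IsClosed (⋃ k ∈ {k | col k}, A k) := (Set.toFinite _).isClosed_biUnion fun k _ => hcl k
    have h2 : IsClosed (⋃ k ∈ {k | ¬ col k}, A k) := (Set.toFinite _).isClosed_biUnion fun k _ => hcl k
    obtain ⟨x, hx⟩ := hne j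
    obtain ⟨y, hy⟩ := hne j'
    obtain ⟨u, hu, hu1, hu2⟩ := isPreconnected_closed_iff.mp hpre _ _ h1 h2
      (by
        rintro z ⟨hz, _⟩
        rw [hcov] at hz
        obtain ⟨k, hk⟩ := mem_iUnion.1 hz
        by_cases hc : col k
        · exact Or.inl (mem_iUnion₂.2 ⟨k, hc, hk⟩)
        · exact Or.inr (mem_iUnion₂.2 ⟨k, hc, hk⟩))
      ⟨x, ⟨by rw [hcov]; exact mem_iUnion.2 ⟨j, hx.1⟩, hx.2⟩, mem_iUnion₂.2 ⟨j, hj, hx.1⟩⟩
      ⟨y, ⟨by rw [hcov]; exact mem_iUnion.2 ⟨j', hy.1⟩, hy.2⟩, mem_iUnion₂.2 ⟨j', hj', hy.1⟩⟩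
    obtain ⟨k, hk, hku⟩ := mem_iUnion₂.1 hu1
    obtain ⟨l, hl, hlu⟩ := mem_iUnion₂.1 hu2
    exact hl ((hadj k l u ⟨hku, hlu⟩ (fun h => hu.2 h)).1 hk)
  intro j j'
  constructor
  · intro hj
    by_contra hj'
    exact key j j' hj hj'
  · intro hj'
    by_contra hj
    exact key j' j hj' hj

theorem cyc_color_arc {J : Set X} (hJ : JorX J) {ι : Type*} [Finite ι] (A : ι → Set X) (hcl : ∀ j, IsClosed (A j))
    (hne : ∀ j, (A j).Nontrivial) {θ : Set X} {a b : X} (hθ : ArcX θ a b) (hcov : J = θ ∪ ⋃ j, A j) (col : ι → Prop)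
    (hadj : ∀ j j', (A j ∩ A j').Nonempty → (col j ↔ col j')) (hθA : ∀ j, A j ∩ θ ⊆ {a, b}) (κ₁ κ₂ : Prop)
    (ha : ∀ j, a ∈ A j → (col j ↔ κ₁)) (hb : ∀ j, b ∈ A j → (col j ↔ κ₂)) : (κ₁ ↔ κ₂) ∧ ∀ j, col j ↔ κ₁ := by
  obtain ⟨γ, hc, hi, rfl, rfl, rfl⟩ := hθ
  have hm0 : (0 : ℝ) ∈ Icc (0 : ℝ) 1 := ⟨le_refl _, zero_le_one⟩
  have hm1 : (1 : ℝ) ∈ Icc (0 : ℝ) 1 := ⟨zero_le_one, le_refl _⟩
  have hmh : (1 / 2 : ℝ) ∈ Icc (0 : ℝ) 1 := ⟨by norm_num, by norm_num⟩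
  have hs1 : Icc (0 : ℝ) (1 / 2) ⊆ Icc 0 1 := Icc_subset_Icc le_rfl (by norm_num)
  have hs2 : Icc (1 / 2 : ℝ) 1 ⊆ Icc 0 1 := Icc_subset_Icc (by norm_num) le_rfl
  have hcl1 : IsClosed (γ '' Icc 0 (1 / 2)) := (isCompact_Icc.image_of_continuousOn (hc.mono hs1)).isClosed
  have hcl2 : IsClosed (γ '' Icc (1 / 2) 1) := (isCompact_Icc.image_of_continuousOn (hc.mono hs2)).isClosed
  have hu12 : γ '' Icc 0 1 = γ '' Icc 0 (1 / 2) ∪ γ '' Icc (1 / 2) 1 := by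
    rw [← image_union, Icc_union_Icc_eq_Icc (by norm_num) (by norm_num)]
  have hb1 : γ 1 ∉ γ '' Icc 0 (1 / 2) := by
    rintro ⟨s, hs, h⟩
    have := hi (hs1 hs) hm1 h
    subst this
    have h2 := hs.2
    norm_num at h2
  have ha2 : γ 0 ∉ γ '' Icc (1 / 2) 1 := by
    rintro ⟨s, hs, h⟩
    have := hi (hs2 hs) hm0 h
    subst this
    have h2 := hs.1
    norm_num at h2
  have h12 : ∀ u, u ∈ γ '' Icc 0 (1 / 2) → u ∈ γ '' Icc (1 / 2) 1 → u = γ (1 / 2) := by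
    rintro u ⟨s, hs, rfl⟩ ⟨t, ht, h⟩
    have := hi (hs2 ht) (hs1 hs) h
    subst this
    rw [le_antisymm hs.2 ht.1]
  have hj1 : ∀ j u, u ∈ A j → u ∈ γ '' Icc 0 (1 / 2) → (col j ↔ κ₁) := by
    intro j u hu hu1
    have h1 : u ∈ ({γ 0, γ 1} : Set X) := hθA j ⟨hu, by rw [hu12]; exact Or.inl hu1⟩
    rcases h1 with h1 | h1
    · exact ha j (h1 ▸ hu)
    · rw [mem_singleton_iff] at h1
      exact absurd (h1 ▸ hu1) hb1
  have hj2 : ∀ j u, u ∈ A j → u ∈ γ '' Icc (1 / 2) 1 → (col j ↔ κ₂) := by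
    intro j u hu hu1
    have h1 : u ∈ ({γ 0, γ 1} : Set X) := hθA j ⟨hu, by rw [hu12]; exact Or.inr hu1⟩
    rcases h1 with h1 | h1
    · exact absurd (h1 ▸ hu1) ha2
    · rw [mem_singleton_iff] at h1
      exact hb j (h1 ▸ hu)
  have key := cyc_color hJ (ι := ι ⊕ Bool)
    (fun i => Sum.elim A (fun t : Bool => cond t (γ '' Icc (1 / 2) 1) (γ '' Icc 0 (1 / 2))) i) (γ (1 / 2))
    (by
      rintro (j | _ | _)
      · exact hcl j
      · exact hcl1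
      · exact hcl2)
    (by
      rintro (j | _ | _)
      · obtain ⟨y, hy, hyp⟩ := (hne j).exists_ne (γ (1 / 2))
        exact ⟨y, hy, hyp⟩
      · refine ⟨γ 0, ⟨0, ⟨le_rfl, by norm_num⟩, rfl⟩, fun h => ?_⟩
        have := hi hm0 hmh h
        norm_num at this
      · refine ⟨γ 1, ⟨1, ⟨by norm_num, le_rfl⟩, rfl⟩, fun h => ?_⟩
        have := hi hm1 hmh h
        norm_num at this)
    (by
      rw [hcov, hu12]
      ext u
      simp only [mem_union, mem_iUnion, Sum.exists, Sum.elim_inl, Sum.elim_inr, Bool.exists_bool, cond_true,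
        cond_false]
      tauto)
    (fun i => Sum.elim col (fun t : Bool => t = true ∧ κ₂ ∨ t = false ∧ κ₁) i)
    (by
      rintro (j | _ | _) (j' | _ | _) u ⟨hu, hu'⟩ hne'
      · exact hadj j j' ⟨u, hu, hu'⟩
      · have := hj1 j u hu hu'
        simp only [Sum.elim_inl, Sum.elim_inr]
        simpa using this
      · have := hj2 j u hu hu'
        simp only [Sum.elim_inl, Sum.elim_inr]
        simpa using this
      · have := hj1 j' u hu' hu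
        simp only [Sum.elim_inl, Sum.elim_inr]
        simpa using this.symm
      · exact Iff.rfl
      · exact absurd (h12 u hu hu') hne'
      · have := hj2 j' u hu' hu
        simp only [Sum.elim_inl, Sum.elim_inr]
        simpa using this.symm
      · exact absurd (h12 u hu' hu) hne'
      · exact Iff.rfl)
  constructor
  · have := key (Sum.inr false) (Sum.inr true)
    simpa using this
  · intro j
    have := key (Sum.inl j) (Sum.inr false)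
    simpa using this

theorem arc_diff_end {A : Set X} {p q : X} (hA : ArcX A p q) : IsPreconnected (A \ {p}) ∧ IsPreconnected (A \ {q}) ∧
    IsPreconnected A := by
  obtain ⟨γ, hc, hi, rfl, rfl, rfl⟩ := hA
  have hm0 : (0 : ℝ) ∈ Icc (0 : ℝ) 1 := ⟨le_refl _, zero_le_one⟩
  have hm1 : (1 : ℝ) ∈ Icc (0 : ℝ) 1 := ⟨zero_le_one, le_refl _⟩
  refine ⟨?_, ?_, isPreconnected_Icc.image _ hc⟩
  · have h : γ '' Icc 0 1 \ {γ 0} = γ '' Ioc 0 1 := by
      ext u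
      constructor
      · rintro ⟨⟨t, ht, rfl⟩, h⟩
        refine ⟨t, ⟨lt_of_le_of_ne ht.1 ?_, ht.2⟩, rfl⟩
        rintro rfl
        exact h rfl
      · rintro ⟨t, ht, rfl⟩
        exact ⟨⟨t, Ioc_subset_Icc_self ht, rfl⟩, fun h => ht.1.ne' (hi (Ioc_subset_Icc_self ht) hm0 h)⟩
    rw [h]
    exact isPreconnected_Ioc.image _ (hc.mono Ioc_subset_Icc_self)
  · have h : γ '' Icc 0 1 \ {γ 1} = γ '' Ico 0 1 := by
      ext u
      constructor
      · rintro ⟨⟨t, ht, rfl⟩, h⟩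
        refine ⟨t, ⟨ht.1, lt_of_le_of_ne ht.2 ?_⟩, rfl⟩
        rintro rfl
        exact h rfl
      · rintro ⟨t, ht, rfl⟩
        exact ⟨⟨t, Ico_subset_Icc_self ht, rfl⟩, fun h => ht.2.ne (hi (Ico_subset_Icc_self ht) hm1 h)⟩
    rw [h]
    exact isPreconnected_Ico.image _ (hc.mono Ico_subset_Icc_self)

theorem arc_diff_mid {A : Set X} {p q x : X} (hA : ArcX A p q) (hx : x ∈ A) (hxp : x ≠ p) (hxq : x ≠ q) :
    ∃ R S : Set X, IsPreconnected R ∧ IsPreconnected S ∧ p ∈ R ∧ q ∈ S ∧ A \ {x} = R ∪ S := by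
  obtain ⟨γ, hc, hi, rfl, rfl, rfl⟩ := hA
  obtain ⟨t, ht, rfl⟩ := hx
  have h0 : 0 < t := lt_of_le_of_ne ht.1 (fun h => hxp (by rw [← h]))
  have h1 : t < 1 := lt_of_le_of_ne ht.2 (fun h => hxq (by rw [h]))
  have hs1 : Ico (0 : ℝ) t ⊆ Icc 0 1 := fun s hs => ⟨hs.1, hs.2.le.trans h1.le⟩
  have hs2 : Ioc t (1 : ℝ) ⊆ Icc 0 1 := fun s hs => ⟨h0.le.trans hs.1.le, hs.2⟩
  refine ⟨γ '' Ico 0 t, γ '' Ioc t 1, isPreconnected_Ico.image _ (hc.mono hs1), isPreconnected_Ioc.image _ (hc.mono hs2),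
    ⟨0, ⟨le_rfl, h0⟩, rfl⟩, ⟨1, ⟨h1, le_rfl⟩, rfl⟩, ?_⟩
  ext u
  constructor
  · rintro ⟨⟨s, hs, rfl⟩, h⟩
    rcases lt_trichotomy s t with h2 | h2 | h2
    · exact Or.inl ⟨s, ⟨hs.1, h2⟩, rfl⟩
    · exact absurd (by rw [h2]; rfl) h
    · exact Or.inr ⟨s, ⟨h2, hs.2⟩, rfl⟩
  · rintro (⟨s, hs, rfl⟩ | ⟨s, hs, rfl⟩)
    · exact ⟨⟨s, hs1 hs, rfl⟩, fun h => hs.2.ne (hi (hs1 hs) ht h)⟩
    · exact ⟨⟨s, hs2 hs, rfl⟩, fun h => hs.1.ne' (hi (hs2 hs) ht h)⟩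

end Pool.ETM
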