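/-
Project ETM (MP_c7bb65_an), block SPb, module SbE (difficulty 3): the sets `Nn i θ` and their connecting points.

`k = lev i`; `θ ∈ E k`, `θ ⊆ A i`. `G' = ⋃₀ spE E el = K E ∪ ⋃ el i θ` (`sp_union`).
* `nn_int`: by definition. `nn_kc`: `θ ∉ Eint i`: `edge_out` gives `U` with `θ ⊆ frontier U ⊆ closure U ⊆ So ⊆ Om E` (`So_sub_Om`), so `Kc b =
  Kc a` for all `a, b ∈ θ` (`kc_eq` with `S = θ`, an arc).
* `nn_sub`: `kc_sub`, `sp_union`. `nn_two`: `kc_two`, or: the arc `el i θ` (`Loc.arc`, `net_ends`) has two different points.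
* `nn_adj`: `θ ∈ Eint i`, `θ' ∈ E k`, `θ' ⊆ A i`, `θ' ≠ θ`, `v ∈ θ ∩ θ'`. `v ∈ V k` (`PG.inter`). `Vint_or_Vbd`.
  If `v ∈ Vint i`: `θ' ∈ Eint i`: a face `F' = closure U' ⊇ θ'` contains `v ∈ interior (A i)`, so `F' ⊆ A i` by `face_out`. Then
  `wend i (us i θ) v = v = wend i (us i θ') v ∈ el i θ'` (`wend_mem`). If `v ∈ Vbd i`: `θ' ∉ Eint i` (`lv_bd`), `wend i (us i θ) v =
  us i θ v ∈ Kc v = Nn i θ'` (`us_kc`, `nn_kc`). Membership in `Nn i θ = el i θ`: `wend_mem`.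
* `nn_adj2`: `θ, θ' ∉ Eint i`, `v ∈ θ ∩ θ'`: both are `Kc v` (`nn_kc`).
* `nn_col`: if `x` is not an interior point of `el i θ` (when `θ ∈ Eint i`) then `Nn i θ \ {x}` is preconnected: `kc_noCut`
  (`a ∈ θ ⊆ So ⊆ Om`), `arc_diff_end`.
-/
import Mathlib
import Pool.Agent.ETM.SbB
import Pool.Agent.ETM.SbC
import Pool.Agent.ETM.SbD

set_option autoImplicit false

open Set Metric Topology Filter
open Pool.JS

namespace Pool.ETM

variable {X : Type*} [MetricSpace X] [CompactSpace X] [Sph X] {c : Ctx X} (h : c.Ok) {V : Set X} {E : Set (Set X)}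
  (hA : c.Adm c.L1 V E) {Pt : ℕ → Set X → X → Set X} {us : ℕ → Set X → X → X} {el : ℕ → Set X → Set X}
  (hl : ∀ i < c.nc, ∀ θ ∈ c.Eint i, c.Loc i θ V E (Pt i θ) (us i θ) (el i θ))

theorem nn_int {i : ℕ} {θ : Set X} (hθ : θ ∈ c.Eint i) : c.Nn E el i θ = el i θ := by
  unfold Ctx.Nn
  exact if_pos hθ

include h hA

theorem nn_kc {i : ℕ} (hi : i < c.nc) {θ : Set X} (hθ : θ ∈ c.E (c.lev i)) (hθA : θ ⊆ c.A i) (hθi : θ ∉ c.Eint i) {a : X}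
    (ha : a ∈ θ) : c.Nn E el i θ = c.Kc E a ∧ a ∈ c.So ∧ a ∈ c.Om E := by
  have hG := hA.good
  obtain ⟨U, hU, hθU, -, hUS⟩ := edge_out h hi hθ hθA hθi
  have hθS : θ ⊆ c.So := (hθU.trans frontier_subset_closure).trans hUS
  have hθO : θ ⊆ c.Om E := hθS.trans (So_sub_Om hG)
  obtain ⟨u, -, v, -, -, -, -, harc, -⟩ := net_ends h.net hθ
  have hc : IsPreconnected θ := harc.isConnected.isPreconnected
  refine ⟨?_, hθS ha, hθO ha⟩
  have h1 : c.Nn E el i θ = {g | ∃ a ∈ θ, g ∈ c.Kc E a} := if_neg hθi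
  rw [h1]
  ext g
  constructor
  · rintro ⟨b, hb, hg⟩
    rw [kc_eq hc hθO ha hb]
    exact hg
  · intro hg
    exact ⟨a, ha, hg⟩

include hl

theorem nn_sub {i : ℕ} (hi : i < c.nc) {θ : Set X} (hθ : θ ∈ c.E (c.lev i)) (hθA : θ ⊆ c.A i) :
    c.Nn E el i θ ⊆ ⋃₀ c.spE E el := by
  rw [sp_union h hA hl]
  by_cases hθi : θ ∈ c.Eint i
  · rw [nn_int hθi]
    intro x hx
    right
    simp only [mem_iUnion]
    exact ⟨i, hi, θ, hθi, hx⟩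
  · obtain ⟨a, -, b, -, -, ha, -⟩ := net_ends h.net hθ
    rw [(nn_kc h hA hi hθ hθA hθi ha).1]
    exact (kc_sub a).trans subset_union_left

theorem nn_two {i : ℕ} (hi : i < c.nc) {θ : Set X} (hθ : θ ∈ c.E (c.lev i)) (hθA : θ ⊆ c.A i) (x : X) :
    (c.Nn E el i θ \ {x}).Nonempty := by
  obtain ⟨a, haV, b, hbV, hab, ha, hb, -⟩ := net_ends h.net hθ
  by_cases hθi : θ ∈ c.Eint i
  · rw [nn_int hθi]
    have harc := (hl i hi θ hθi).arc a haV b hbV ha hb hab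
    by_cases hx : c.wend i (us i θ) a = x
    · exact ⟨_, harc.right_mem, fun h1 => harc.ne (hx.trans (mem_singleton_iff.1 h1).symm)⟩
    · exact ⟨_, harc.left_mem, hx⟩
  · obtain ⟨h1, -, h2⟩ := nn_kc h hA hi hθ hθA hθi ha
    rw [h1]
    exact kc_two hA.good h2 x

theorem nn_adj {i : ℕ} (hi : i < c.nc) {θ θ' : Set X} (hθ : θ ∈ c.Eint i) (hθ' : θ' ∈ c.E (c.lev i)) (hθA' : θ' ⊆ c.A i)
    (hne : θ' ≠ θ) {v : X} (hv : v ∈ θ) (hv' : v ∈ θ') :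
    v ∈ c.V (c.lev i) ∧ c.wend i (us i θ) v ∈ c.Nn E el i θ ∧ c.wend i (us i θ) v ∈ c.Nn E el i θ' := by
  have hθE : θ ∈ c.E (c.lev i) := hθ.1
  have hvV : v ∈ c.V (c.lev i) := (h.net.good (c.lev i)).pg.inter θ hθE θ' hθ' (Ne.symm hne) ⟨hv, hv'⟩
  have hw := wend_mem h hA hl hi hθ hvV hv
  refine ⟨hvV, by rw [nn_int hθ]; exact hw, ?_⟩
  rcases Vint_or_Vbd h.net hθ hvV hv with ⟨h1, -⟩ | ⟨h1, h2⟩
  · have hθi' : θ' ∈ c.Eint i := by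
      refine ⟨hθ', ?_⟩
      rintro F ⟨U', hU', rfl⟩ hs
      by_contra hcon
      exact Set.disjoint_left.mp (face_out h.net hU' hcon).2 (hs hv') h1.2
    have e1 : c.wend i (us i θ) v = v := if_pos h1
    have e2 : c.wend i (us i θ') v = v := if_pos h1
    rw [nn_int hθi', e1, ← e2]
    exact wend_mem h hA hl hi hθi' hvV hv'
  · have hθi' : θ' ∉ c.Eint i := fun hθi' => hne (lv_bd h hi h1 ⟨hθi', hv'⟩ ⟨hθ, hv⟩)
    have e1 : c.wend i (us i θ) v = us i θ v := if_neg h2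
    rw [e1, (nn_kc h hA hi hθ' hθA' hθi' hv').1]
    exact (us_kc h hA hl hi hθ h1 hv).1

theorem nn_adj2 {i : ℕ} (hi : i < c.nc) {θ θ' : Set X} (hθ : θ ∈ c.E (c.lev i)) (hθA : θ ⊆ c.A i) (hθi : θ ∉ c.Eint i)
    (hθ' : θ' ∈ c.E (c.lev i)) (hθA' : θ' ⊆ c.A i) (hθi' : θ' ∉ c.Eint i) {v : X} (hv : v ∈ θ) (hv' : v ∈ θ') :
    c.Nn E el i θ = c.Nn E el i θ' := by
  rw [(nn_kc h hA hi hθ hθA hθi hv).1, (nn_kc h hA hi hθ' hθA' hθi' hv').1]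

theorem nn_col {i : ℕ} (hi : i < c.nc) {θ : Set X} (hθ : θ ∈ c.E (c.lev i)) (hθA : θ ⊆ c.A i) {x : X}
    (hx : θ ∈ c.Eint i → x ∈ el i θ → ∃ v ∈ c.V (c.lev i), v ∈ θ ∧ x = c.wend i (us i θ) v) :
    IsPreconnected (c.Nn E el i θ \ {x}) := by
  by_cases hθi : θ ∈ c.Eint i
  · rw [nn_int hθi]
    obtain ⟨a, haV, b, hbV, hab, ha, hb, -⟩ := net_ends h.net hθ
    by_cases hxe : x ∈ el i θ
    · obtain ⟨v, hv, hvθ, rfl⟩ := hx hθi hxe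
      obtain ⟨v', hv', hvθ', hne, -⟩ := net_other h.net hθ hv hvθ
      exact (arc_diff_end ((hl i hi θ hθi).arc v hv v' hv' hvθ hvθ' (Ne.symm hne))).1
    · rw [diff_singleton_eq_self hxe]
      exact (arc_diff_end ((hl i hi θ hθi).arc a haV b hbV ha hb hab)).2.2
  · obtain ⟨a, -, b, -, -, ha, -⟩ := net_ends h.net hθ
    obtain ⟨h1, -, h2⟩ := nn_kc h hA hi hθ hθA hθi ha
    rw [h1]
    exact kc_noCut hA.good h2 x

end Pool.ETM
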