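/-
Project ETM (MP_c7bb65_an), block SPb, module SbF (difficulty 4): 7.6b, all the sets attached to the edges of a face `F ⊆ A i` have the
same colour.

PROOF. `face_edges`: `F = closure U`, `frontier U = ⋃₀ D`, a Jordan curve, `D = {θ ∈ E k | θ ⊆ F}`, `k = lev i`; `D` is finite. Every `θ ∈ D` is
an arc (compact, so closed, with at least two points), `θ ⊆ A i`, `Nn i θ ⊆ G' = ⋃₀ spE` (`nn_sub`), `Nn i θ \ {x} ≠ ∅` (`nn_two`).
CASE 1: for every `θ ∈ D ∩ Eint i` with `x ∈ el i θ` there is an end `v` of `θ` with `x = wend i (us i θ) v`. Then `nn_col`: all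
`Nn i θ \ {x}` are preconnected, so they have a colour (`Spt.col`). Let `v₀` be a point such that: `v₀ = v` whenever there is
`θ ∈ D ∩ Eint i`, `v ∈ V k`, `v ∈ θ`, `x = wend i (us i θ) v` (such a `v` is unique by `ends_inj`; if there is none take `v₀ = x`). Apply
`cyc_color` to the index type `D`, `A θ = θ`, `v = v₀`, `col θ := (Nn i θ \ {x} ⊆ O₁)`. `hadj`: `u ∈ θ ∩ θ'`, `u ≠ v₀`, `θ ≠ θ'`. If one of them,
say `θ`, is in `Eint i`: the point `q = wend i (us i θ) u` is in `Nn i θ ∩ Nn i θ'` (`nn_adj`), and `q ≠ x` (else `u = v₀`); so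
`q ∈ O₁` if `col θ`, `q ∈ O₂` if not (`Spt.ncol` excludes both): `col θ ↔ col θ'`. If none is in `Eint i`: `nn_adj2`.
Conclusion: all `col θ` are equivalent; if true the first alternative holds, if false all `Nn i θ \ {x} ⊆ O₂`.
CASE 2: there is `θ₀ ∈ D ∩ Eint i` with `x ∈ el i θ₀` which is not of this form. `not_end`: `x ∉ Om E`, `x ∉ el i θ` for `θ ∈ Eint i`, `θ ≠ θ₀`.
So `x ∉ Nn i θ` for all `θ ∈ D`, `θ ≠ θ₀` (`Kc ⊆ K ⊆ Om`), these sets are preconnected (`nn_col`) and have a colour. Let `a`, `b` be the ends of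
`θ₀` (`net_ends`), `w_a = wend i (us i θ₀) a`, `w_b` similarly: `el i θ₀` is an arc from `w_a` to `w_b` (`Loc.arc`), `x ≠ w_a, w_b`.
`arc_diff_mid`: `el i θ₀ \ {x} = R ∪ S`, `w_a ∈ R`, `w_b ∈ S`, both have a colour. Apply `cyc_color_arc` with the index type
`{θ ∈ D | θ ≠ θ₀}`, `θ := θ₀`, `col θ := Nn i θ ⊆ O₁`, `κ₁ := R ⊆ O₁`, `κ₂ := S ⊆ O₁`. (`hθA`: `θ ∩ θ₀ ⊆ V k ∩ θ₀ ⊆ {a, b}` by `PG.inter`, `net_ends`. `ha`:
`a ∈ θ`: `nn_adj` (`θ₀ ∈ Eint i`): `w_a ∈ Nn i θ`, `w_a ∈ R`: so the colours are the same. `hadj` as in case 1, here `q ≠ x` because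
`x ∉ Nn i θ`.) Conclusion as before, `Nn i θ₀ \ {x} = R ∪ S`.
-/
import Mathlib
import Pool.Agent.ETM.SbE

set_option autoImplicit false

open Set Metric Topology Filter
open Pool.JS

namespace Pool.ETM

/-- two coloured sets with a common point different from `x` have the same colour -/
theorem sbf_iff {Y : Type*} [TopologicalSpace Y] {G : Set Y} {x : Y} {O₁ O₂ : Set Y} (hs : Spt G x O₁ O₂) {S T : Set Y}
    (hS : S ⊆ O₁ ∨ S ⊆ O₂) (hT : T ⊆ O₁ ∨ T ⊆ O₂) {q : Y} (hq : q ∈ G) (hqx : q ≠ x) (hqS : q ∈ S) (hqT : q ∈ T) :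
    S ⊆ O₁ ↔ T ⊆ O₁ := by
  constructor
  · intro h1
    rcases hT with h2 | h2
    · exact h2
    · exact (hs.ncol hq hqx (h1 hqS) (h2 hqT)).elim
  · intro h1
    rcases hS with h2 | h2
    · exact h2
    · exact (hs.ncol hq hqx (h1 hqT) (h2 hqS)).elim

theorem sbf_closed {Y : Type*} [TopologicalSpace Y] [T2Space Y] {A : Set Y} {p q : Y} (hA : ArcX A p q) : IsClosed A := by
  obtain ⟨γ, hc, _, him, _, _⟩ := hA
  rw [← him]
  exact (isCompact_Icc.image_of_continuousOn hc).isClosed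

variable {X : Type*} [MetricSpace X] [CompactSpace X] [Sph X] {c : Ctx X} (h : c.Ok) {V : Set X} {E : Set (Set X)}
  (hA : c.Adm c.L1 V E) {Pt : ℕ → Set X → X → Set X} {us : ℕ → Set X → X → X} {el : ℕ → Set X → Set X}
  (hl : ∀ i < c.nc, ∀ θ ∈ c.Eint i, c.Loc i θ V E (Pt i θ) (us i θ) (el i θ))

include h hA hl

/-- the colours of two edges of the same face with a common point -/
theorem sbf_step {i : ℕ} (hi : i < c.nc) {x : X} {O₁ O₂ : Set X} (hs : Spt (⋃₀ c.spE E el) x O₁ O₂) {θ θ' : Set X}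
    (hθ : θ ∈ c.E (c.lev i)) (hθA : θ ⊆ c.A i) (hθ' : θ' ∈ c.E (c.lev i)) (hθA' : θ' ⊆ c.A i)
    (hc : c.Nn E el i θ \ {x} ⊆ O₁ ∨ c.Nn E el i θ \ {x} ⊆ O₂) (hc' : c.Nn E el i θ' \ {x} ⊆ O₁ ∨ c.Nn E el i θ' \ {x} ⊆ O₂)
    {u : X} (hu : u ∈ θ) (hu' : u ∈ θ') (hx : θ ∈ c.Eint i → u ∈ c.V (c.lev i) → c.wend i (us i θ) u ≠ x)
    (hx' : θ' ∈ c.Eint i → u ∈ c.V (c.lev i) → c.wend i (us i θ') u ≠ x) :
    c.Nn E el i θ \ {x} ⊆ O₁ ↔ c.Nn E el i θ' \ {x} ⊆ O₁ := by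
  by_cases hee : θ' = θ
  · rw [hee]
  by_cases h1 : θ ∈ c.Eint i
  · obtain ⟨hV, h2, h3⟩ := nn_adj h hA hl hi h1 hθ' hθA' hee hu hu'
    have hq := hx h1 hV
    exact sbf_iff hs hc hc' (nn_sub h hA hl hi hθ hθA h2) hq ⟨h2, hq⟩ ⟨h3, hq⟩
  by_cases h1' : θ' ∈ c.Eint i
  · obtain ⟨hV, h2, h3⟩ := nn_adj h hA hl hi h1' hθ hθA (fun e => hee e.symm) hu' hu
    have hq := hx' h1' hV
    exact sbf_iff hs hc hc' (nn_sub h hA hl hi hθ hθA h3) hq ⟨h3, hq⟩ ⟨h2, hq⟩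
  rw [nn_adj2 h hA hl hi hθ hθA h1 hθ' hθA' h1' hu hu']

theorem face_col {i : ℕ} (hi : i < c.nc) {F : Set X} (hF : F ∈ c.Face (c.lev i)) (hFA : F ⊆ c.A i) {x : X} {O₁ O₂ : Set X}
    (hs : Spt (⋃₀ c.spE E el) x O₁ O₂) :
    (∀ θ ∈ c.E (c.lev i), θ ⊆ F → c.Nn E el i θ \ {x} ⊆ O₁) ∨ (∀ θ ∈ c.E (c.lev i), θ ⊆ F → c.Nn E el i θ \ {x} ⊆ O₂) := by
  obtain ⟨U, hU, hFU, D, hDE, hDn, hfr, hJ, hD⟩ := face_edges h.net hF
  have hfin : D.Finite := (h.net.good _).pg.finE.subset hDE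
  have hDA : ∀ θ ∈ D, θ ⊆ c.A i := fun θ hθ => ((hD θ (hDE hθ)).mp hθ).trans hFA
  have hcl : ∀ θ ∈ D, IsClosed θ := by
    intro θ hθ
    obtain ⟨a, _, b, _, _, _, _, h1, _⟩ := net_ends h.net (hDE hθ)
    exact sbf_closed h1
  have hnt : ∀ θ ∈ D, θ.Nontrivial := by
    intro θ hθ
    obtain ⟨a, _, b, _, h1, h2, h3, _⟩ := net_ends h.net (hDE hθ)
    exact ⟨a, h2, b, h3, h1⟩
  have hcol : ∀ θ ∈ D, IsPreconnected (c.Nn E el i θ \ {x}) → c.Nn E el i θ \ {x} ⊆ O₁ ∨ c.Nn E el i θ \ {x} ⊆ O₂ := by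
    intro θ hθ hc
    exact hs.col hc (sdiff_subset_sdiff_left (nn_sub h hA hl hi (hDE hθ) (hDA θ hθ)))
  obtain ⟨θ₁, hθ₁⟩ := hDn
  by_cases H : ∀ θ ∈ D, θ ∈ c.Eint i → x ∈ el i θ → ∃ v ∈ c.V (c.lev i), v ∈ θ ∧ x = c.wend i (us i θ) v
  · have hc : ∀ θ ∈ D, c.Nn E el i θ \ {x} ⊆ O₁ ∨ c.Nn E el i θ \ {x} ⊆ O₂ := fun θ hθ =>
      hcol θ hθ (nn_col h hA hl hi (hDE hθ) (hDA θ hθ) (H θ hθ))
    have hv0 : ∃ v₀ : X, ∀ θ ∈ D, θ ∈ c.Eint i → ∀ v ∈ c.V (c.lev i), v ∈ θ → x = c.wend i (us i θ) v → v = v₀ := by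
      by_cases hex : ∃ θ ∈ D, θ ∈ c.Eint i ∧ ∃ v ∈ c.V (c.lev i), v ∈ θ ∧ x = c.wend i (us i θ) v
      · obtain ⟨θ, hθ, hθi, v, hv, hvθ, hxv⟩ := hex
        refine ⟨v, fun θ' hθ' hθi' v' hv' hvθ' hxv' => ?_⟩
        exact ends_inj h hA hl hi hθi' hθi hv' hvθ' hv hvθ (hxv'.symm.trans hxv)
      · refine ⟨x, fun θ hθ hθi v hv hvθ hxv => ?_⟩
        exact (hex ⟨θ, hθ, hθi, v, hv, hvθ, hxv⟩).elim
    obtain ⟨v₀, hv₀⟩ := hv0
    have : Finite D := hfin.to_subtype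
    have hmain := cyc_color (ι := D) hJ (fun j => j.1) v₀ (fun j => hcl j.1 j.2)
      (fun j => by
        obtain ⟨a, ha, b, hb, hab⟩ := hnt j.1 j.2
        by_cases hav : a = v₀
        · exact ⟨b, hb, fun e => hab (hav.trans e.symm)⟩
        · exact ⟨a, ha, hav⟩)
      (by rw [hfr, sUnion_eq_iUnion]) (fun j => c.Nn E el i j.1 \ {x} ⊆ O₁)
      (fun j j' u hu huv => by
        refine sbf_step h hA hl hi hs (hDE j.2) (hDA _ j.2) (hDE j'.2) (hDA _ j'.2) (hc _ j.2) (hc _ j'.2) hu.1 hu.2 ?_ ?_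
        · intro h1 h2 h3
          exact huv (hv₀ j.1 j.2 h1 u h2 hu.1 h3.symm)
        · intro h1 h2 h3
          exact huv (hv₀ j'.1 j'.2 h1 u h2 hu.2 h3.symm))
    by_cases hc1 : c.Nn E el i θ₁ \ {x} ⊆ O₁
    · left
      intro θ hθ hθF
      have hθD := (hD θ hθ).mpr hθF
      exact (hmain ⟨θ₁, hθ₁⟩ ⟨θ, hθD⟩).mp hc1
    · right
      intro θ hθ hθF
      have hθD := (hD θ hθ).mpr hθF
      rcases hc θ hθD with h1 | h1
      · exact (hc1 ((hmain ⟨θ, hθD⟩ ⟨θ₁, hθ₁⟩).mp h1)).elim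
      · exact h1
  · push Not at H
    obtain ⟨θ₀, hθ₀, hθi, hxe, hxne⟩ := H
    obtain ⟨hxO, hxel⟩ := not_end h hA hl hi hθi hxe hxne
    have hxN : ∀ θ ∈ D, θ ≠ θ₀ → x ∉ c.Nn E el i θ := by
      intro θ hθ hne hx
      by_cases h1 : θ ∈ c.Eint i
      · rw [nn_int h1] at hx
        exact hxel θ h1 hne hx
      · obtain ⟨a, ha, _⟩ := hnt θ hθ
        rw [(nn_kc h hA hi (hDE hθ) (hDA θ hθ) h1 ha).1] at hx
        exact hxO (K_sub_Om E (kc_sub a hx))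
    have hc : ∀ θ ∈ D, θ ≠ θ₀ → c.Nn E el i θ \ {x} ⊆ O₁ ∨ c.Nn E el i θ \ {x} ⊆ O₂ := by
      intro θ hθ hne
      refine hcol θ hθ (nn_col h hA hl hi (hDE hθ) (hDA θ hθ) ?_)
      intro h1 h2
      exact (hxel θ h1 hne h2).elim
    obtain ⟨a, haV, b, hbV, hab, haθ, hbθ, harc, hends, _⟩ := net_ends h.net (hDE hθ₀)
    have harc' := (hl i hi θ₀ hθi).arc a haV b hbV haθ hbθ hab
    have hxa : c.wend i (us i θ₀) a ≠ x := fun e => hxne a haV haθ e.symm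
    have hxb : c.wend i (us i θ₀) b ≠ x := fun e => hxne b hbV hbθ e.symm
    obtain ⟨R, S, hRp, hSp, haR, hbS, hRS⟩ := arc_diff_mid harc' hxe hxa.symm hxb.symm
    have hsub0 : c.Nn E el i θ₀ ⊆ ⋃₀ c.spE E el := nn_sub h hA hl hi (hDE hθ₀) (hDA θ₀ hθ₀)
    have hN0 : c.Nn E el i θ₀ \ {x} = R ∪ S := by rw [nn_int hθi, hRS]
    have hRG : R ⊆ ⋃₀ c.spE E el \ {x} := by
      intro y hy
      have h1 : y ∈ c.Nn E el i θ₀ \ {x} := by rw [hN0]; exact Or.inl hy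
      exact ⟨hsub0 h1.1, h1.2⟩
    have hSG : S ⊆ ⋃₀ c.spE E el \ {x} := by
      intro y hy
      have h1 : y ∈ c.Nn E el i θ₀ \ {x} := by rw [hN0]; exact Or.inr hy
      exact ⟨hsub0 h1.1, h1.2⟩
    have hRc := hs.col hRp hRG
    have hSc := hs.col hSp hSG
    have hfin' : {θ | θ ∈ D ∧ θ ≠ θ₀}.Finite := hfin.subset fun θ hθ => hθ.1
    have : Finite {θ | θ ∈ D ∧ θ ≠ θ₀} := hfin'.to_subtype
    have hmain := cyc_color_arc (ι := {θ | θ ∈ D ∧ θ ≠ θ₀}) hJ (fun j => j.1) (fun j => hcl j.1 j.2.1)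
      (fun j => hnt j.1 j.2.1) harc
      (by
        rw [hfr]
        ext y
        constructor
        · rintro ⟨θ, hθ, hy⟩
          by_cases hne : θ = θ₀
          · rw [hne] at hy
            exact Or.inl hy
          · exact Or.inr (mem_iUnion.mpr ⟨⟨θ, hθ, hne⟩, hy⟩)
        · rintro (hy | hy)
          · exact ⟨θ₀, hθ₀, hy⟩
          · obtain ⟨j, hj⟩ := mem_iUnion.mp hy
            exact ⟨j.1, j.2.1, hj⟩)
      (fun j => c.Nn E el i j.1 \ {x} ⊆ O₁)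
      (fun j j' hjj => by
        obtain ⟨u, hu⟩ := hjj
        refine sbf_step h hA hl hi hs (hDE j.2.1) (hDA _ j.2.1) (hDE j'.2.1) (hDA _ j'.2.1) (hc _ j.2.1 j.2.2)
          (hc _ j'.2.1 j'.2.2) hu.1 hu.2 ?_ ?_
        · intro h1 h2 h3
          have h4 := wend_mem h hA hl hi h1 h2 hu.1
          rw [h3] at h4
          exact hxel _ h1 j.2.2 h4
        · intro h1 h2 h3
          have h4 := wend_mem h hA hl hi h1 h2 hu.2
          rw [h3] at h4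
          exact hxel _ h1 j'.2.2 h4)
      (fun j y hy => by
        have h1 : y ∈ c.V (c.lev i) := (h.net.good _).pg.inter j.1 (hDE j.2.1) θ₀ (hDE hθ₀) j.2.2 hy
        exact hends y h1 hy.2)
      (R ⊆ O₁) (S ⊆ O₁)
      (fun j hj => by
        obtain ⟨_, h2, h3⟩ := nn_adj h hA hl hi hθi (hDE j.2.1) (hDA _ j.2.1) j.2.2 haθ hj
        exact sbf_iff hs (hc _ j.2.1 j.2.2) hRc (hsub0 h2) hxa ⟨h3, hxa⟩ haR)
      (fun j hj => by
        obtain ⟨_, h2, h3⟩ := nn_adj h hA hl hi hθi (hDE j.2.1) (hDA _ j.2.1) j.2.2 hbθ hj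
        exact sbf_iff hs (hc _ j.2.1 j.2.2) hSc (hsub0 h2) hxb ⟨h3, hxb⟩ hbS)
    obtain ⟨hm1, hm2⟩ := hmain
    by_cases hR1 : R ⊆ O₁
    · left
      intro θ hθ hθF
      have hθD := (hD θ hθ).mpr hθF
      by_cases hne : θ = θ₀
      · rw [hne, hN0]
        exact union_subset hR1 (hm1.mp hR1)
      · exact (hm2 ⟨θ, hθD, hne⟩).mpr hR1
    · right
      intro θ hθ hθF
      have hθD := (hD θ hθ).mpr hθF
      by_cases hne : θ = θ₀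
      · rw [hne, hN0]
        refine union_subset (hRc.resolve_left hR1) (hSc.resolve_left fun hS1 => hR1 (hm1.mpr hS1))
      · exact (hc θ hθD hne).resolve_left fun h1 => hR1 ((hm2 ⟨θ, hθD, hne⟩).mp h1)

end Pool.ETM
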