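/-
Project ETM (MP_c7bb65_an), block SPb, module SbG (difficulty 3): a face `F ⊆ A i` and a point of `F ∩ Om` have a common colour; the covering.

`k = lev i`.
* `col_so`: `F ∈ Face k`, `F ⊆ A i`, `y ∈ F ∩ So`. `col_So` gives `U`, `y ∈ closure U ⊆ So ⊆ Om E`, `e ∈ E k`, `e ∉ Eint i`, `e ⊆ F`,
  `e ⊆ closure U`. For `a ∈ e`: `Nn i e = Kc a` (`nn_kc`) `= Kc y` (`kc_eq` with `S = closure U`, connected because `closure U` is the closure
  of a face).
* `col_om`: `y ∈ F ∩ Om E`: `y ∈ closure U`, `U ∈ Us E`, there is `x' ∈ closure U ∩ So`. If `y ∈ So` use `col_so`. In general: there is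
  `y' ∈ closure U`, `y' ∈ A i`, `y' ∉ interior (A i)`: otherwise the connected set `closure U` is contained in the union of the
  disjoint open sets `interior (A i)` and `(A i)ᶜ` (`A i` is closed: `lv_A`), contains `y ∈ A i` and `x' ∉ interior (A i)`
  (`mem_So_iff`): contradiction. `y' ∈ So` (`mem_So_near`, `A_sub_R3`). `not_int_A` for `y'`: `U'' ∈ Fc (E k)`, `y' ∈ closure U''`, disjoint from
  `A i`, `closure U''` disjoint from `interior (A i)`; `F'' := closure U'' ⊆ So` (`F_So`). `y' ∈ frontier U''` because `y' ∉ U''` (`U''` is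
  disjoint from `A i ∋ y'`). `frontier U''` is a union of edges (`face_edges`), so there is `θ' ∈ E k`, `y' ∈ θ' ⊆ F'' ⊆ So`. `θ' ⊆ R3 i`
  (`R3_of_A`, `y' ∈ A i`). `lv_small` (`y' ∈ closure U ∩ nh k θ' (10 ε)`): `closure U ⊆ D k θ'`. So `y ∈ F ∩ D k θ'` and `third` gives
  `θ' ⊆ F` or a vertex `v ∈ θ'`, `v ∈ F`. In the first case `y' ∈ F ∩ So`: `col_so` gives `e` with `Nn i e = Kc y'`, and
  `Kc y' = Kc y` (`kc_eq`, `S = closure U`). In the second case `v ∈ θ' ⊆ So`, `v ∈ F`: `col_so` gives `e` with `Nn i e = Kc v`,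
  `Kc v = Kc y'` (`S = θ'`, an arc in `So ⊆ Om`), `Kc y' = Kc y` (`S = closure U`).
* `face_face`: `F ≠ F'` in `Face k` with a common point: `Good.common_edge`.
* `cover_x`: `y ∉ OT`. If `y ∈ interior (A i)` for some `i < nc`: `face_mem_A`. Otherwise `y ∈ So ⊆ Om E` (`mem_So_iff`, `So_sub_Om`).
* `xstar`: `lv_T`: `(T nhole)ᶜ` is connected; its closure is `(interior (T nhole))ᶜ = OTᶜ` (`closure_compl`).
-/
import Mathlib
import Pool.Agent.ETM.SbE

set_option autoImplicit false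

open Set Metric Topology Filter
open Pool.JS

namespace Pool.ETM

variable {X : Type*} [MetricSpace X] [CompactSpace X] [Sph X] {c : Ctx X} (h : c.Ok) {V : Set X} {E : Set (Set X)}
  (hA : c.Adm c.L1 V E) {el : ℕ → Set X → Set X}

include h

theorem face_face {k : ℕ} {F F' : Set X} (hF : F ∈ c.Face k) (hF' : F' ∈ c.Face k) (hne : F ≠ F') (hI : (F ∩ F').Nonempty) :
    ∃ e ∈ c.E k, e ⊆ F ∧ e ⊆ F' := by
  obtain ⟨U, hU, rfl⟩ := hF
  obtain ⟨U', hU', rfl⟩ := hF'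
  have hG := h.net.good k
  have hne' : U ≠ U' := fun h1 => hne (by rw [h1])
  obtain ⟨e, he, h1, h2⟩ := hG.pg.common_edge hG.disc hG.val hU hU' hne' hI
  exact ⟨e, he, h1.trans frontier_subset_closure, h2.trans frontier_subset_closure⟩

theorem xstar : IsPreconnected (c.OTᶜ) := by
  obtain ⟨-, h1, -⟩ := lv_T h
  have h2 : c.OTᶜ = closure (c.T c.nhole)ᶜ := by
    rw [closure_compl]
    rfl
  rw [h2]
  exact h1.isPreconnected.closure

include hA

theorem cover_x {y : X} (hy : y ∉ c.OT) : y ∈ c.Om E ∨ ∃ i < c.nc, ∃ F ∈ c.Face (c.lev i), F ⊆ c.A i ∧ y ∈ F := by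
  by_cases hex : ∃ i < c.nc, y ∈ interior (c.A i)
  · obtain ⟨i, hi, hyi⟩ := hex
    obtain ⟨F, hF, hFA, hyF⟩ := face_mem_A (interior_subset hyi)
    exact Or.inr ⟨i, hi, F, hF, hFA, hyF⟩
  · left
    apply So_sub_Om hA.good
    rw [mem_So_iff]
    exact ⟨fun j hj hyj => hex ⟨j, hj, hyj⟩, hy⟩

theorem col_so {i : ℕ} (hi : i < c.nc) {F : Set X} (hF : F ∈ c.Face (c.lev i)) (hFA : F ⊆ c.A i) {y : X} (hy : y ∈ F)
    (hyS : y ∈ c.So) : ∃ e ∈ c.E (c.lev i), e ⊆ F ∧ c.Nn E el i e = c.Kc E y := by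
  obtain ⟨U, hU, hyU, hUS, e, he, hei, heF, heU⟩ := col_So h hi hF hFA hy hyS
  obtain ⟨a, -, b, -, -, ha, -⟩ := net_ends h.net he
  refine ⟨e, he, heF, ?_⟩
  rw [(nn_kc h hA hi he (heF.trans hFA) hei ha).1]
  have hc : IsPreconnected (closure U) := ((h.net.good _).disc U hU).isConnected.isPreconnected.closure
  exact kc_eq hc (hUS.trans (So_sub_Om hA.good)) (heU ha) hyU

theorem col_om {i : ℕ} (hi : i < c.nc) {F : Set X} (hF : F ∈ c.Face (c.lev i)) (hFA : F ⊆ c.A i) {y : X} (hy : y ∈ F)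
    (hyO : y ∈ c.Om E) : ∃ e ∈ c.E (c.lev i), e ⊆ F ∧ c.Nn E el i e = c.Kc E y := by
  have hG := hA.good
  by_cases hyS : y ∈ c.So
  · exact col_so h hA hi hF hFA hy hyS
  obtain ⟨_, ⟨U, hU, rfl⟩, hyU⟩ := hyO
  obtain ⟨hUc, hUO⟩ := us_conn hG hU
  obtain ⟨x', hx'U, hx'S⟩ := hU.2
  have hcl : IsClosed (c.A i) := (lv_A h hi).1
  have hex : ∃ y' ∈ closure U, y' ∈ c.A i ∧ y' ∉ interior (c.A i) := by
    by_contra hcon
    push Not at hcon
    have h1 : closure U ⊆ interior (c.A i) ∪ (c.A i)ᶜ := by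
      intro z hz
      by_cases hzA : z ∈ c.A i
      · exact Or.inl (hcon z hz hzA)
      · exact Or.inr hzA
    have h2 : (closure U ∩ interior (c.A i)).Nonempty := ⟨y, hyU, hcon y hyU (hFA hy)⟩
    have h3 : (closure U ∩ (c.A i)ᶜ).Nonempty :=
      ⟨x', hx'U, fun h4 => (mem_So_iff.1 hx'S).1 i hi (hcon x' hx'U h4)⟩
    obtain ⟨z, -, hz1, hz2⟩ := hUc.isPreconnected _ _ isOpen_interior hcl.isOpen_compl h1 h2 h3
    exact hz2 (interior_subset hz1)
  obtain ⟨y', hy'U, hy'A, hy'i⟩ := hex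
  have hy'S : y' ∈ c.So := mem_So_near h hi hy'i (Or.inl (A_sub_R3 h.net i hy'A))
  obtain ⟨U'', hU'', hy'U'', hd1, hd2⟩ := not_int_A h.net hy'i
  have hGk := h.net.good (c.lev i)
  have hF''S : closure U'' ⊆ c.So := F_So h hi hU'' hd2 ⟨y', hy'U'', hy'A⟩
  have hopen : IsOpen U'' := Fc.isOpen hGk.pg hU''
  have hfr : y' ∈ frontier U'' := by
    rw [hopen.frontier_eq]
    exact ⟨hy'U'', fun h1 => Set.disjoint_left.mp hd1 h1 hy'A⟩
  obtain ⟨D, hD, hDe⟩ := hGk.pg.frontier_edges hU'' (hGk.disc U'' hU'')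
  have hfr' := hfr
  rw [hDe] at hfr'
  obtain ⟨θ', hθ'D, hy'θ'⟩ := hfr'
  have hθ' : θ' ∈ c.E (c.lev i) := hD hθ'D
  have hθ'S : θ' ⊆ c.So := by
    have h1 : θ' ⊆ frontier U'' := by rw [hDe]; exact subset_sUnion_of_mem hθ'D
    exact (h1.trans frontier_subset_closure).trans hF''S
  have hθ'R := R3_of_A h.net hθ' hy'A hy'θ'
  obtain ⟨hε, -, -⟩ := net_pos h.net
  have hsm := lv_small h hi hθ' hθ'R hA hU.1 ⟨y', hy'U,
    (net_nh h.net hθ' (r := 10 * c.ε) (by linarith) (by linarith)).2.2.2 hy'θ'⟩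
  have hyy' : c.Kc E y' = c.Kc E y := kc_eq hUc.isPreconnected hUO hy'U hyU
  rcases h.net.third _ θ' hθ' F hF y ⟨hy, hsm.1 hyU⟩ with h1 | ⟨v, -, hvθ', hvF, -⟩
  · obtain ⟨e, he, heF, h2⟩ := col_so h hA (el := el) hi hF hFA (h1 hy'θ') hy'S
    exact ⟨e, he, heF, h2.trans hyy'⟩
  · obtain ⟨e, he, heF, h2⟩ := col_so h hA (el := el) hi hF hFA hvF (hθ'S hvθ')
    obtain ⟨u, -, w, -, -, -, -, harc, -⟩ := net_ends h.net hθ'
    have h3 : c.Kc E v = c.Kc E y' :=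
      kc_eq harc.isConnected.isPreconnected (hθ'S.trans (So_sub_Om hG)) hvθ' hy'θ'
    exact ⟨e, he, heF, h2.trans (h3.trans hyy')⟩

end Pool.ETM
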