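/-
Project ETM (MP_c7bb65_an), block SPb, module SbH (difficulty 3): 7.6, the spliced graph has no cut point (assembly).

PROOF. Fix `x`; `isPreconnected_iff_subset_of_disjoint`: let `O₁`, `O₂` be open with `G' \ {x} ⊆ O₁ ∪ O₂`, `(G' \ {x}) ∩ (O₁ ∩ O₂) = ∅`, i.e. `Spt G' x O₁ O₂`,
`G' = ⋃₀ spE E el`. For an open set `O` let
`Zc O = {a | a ∈ Om E ∧ Kc a \ {x} ⊆ O} ∪ ⋃ {F | ∃ i < nc, F ∈ Face (lev i), F ⊆ A i, ∀ θ ∈ E (lev i), θ ⊆ F → Nn i θ \ {x} ⊆ O}`.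
`Zc O` is closed: `kc_closed` with `p K = (K \ {x} ⊆ O)`, and a finite union of closed sets (`Good.finF`).
(1) `OTᶜ ⊆ Zc O₁ ∪ Zc O₂`: `cover_x`; for `y ∈ Om E`: `Kc y ⊆ K E ⊆ G'` (`kc_sub`, `sp_union`), `Kc y \ {x}` is preconnected (`kc_noCut`), `Spt.col`. For
`y ∈ F ⊆ A i`: `face_col`.
(2) `OTᶜ ∩ (Zc O₁ ∩ Zc O₂) = ∅`: `y ∈ Om` twice: `kc_two` gives a point of `Kc y \ {x}` in `O₁ ∩ O₂`: `Spt.ncol`. `y ∈ Om` (colour 1) and
`y ∈ F` (colour 2) or vice versa: `col_om` gives `e ⊆ F` with `Nn i e = Kc y`: the same contradiction. `y ∈ F` (`i`, colour 1) and `y ∈ F'`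
(`j`, colour 2): `i = j` by `A_disj`; if `F = F'`: `face_edges` gives an edge `e ⊆ F`; if `F ≠ F'`: `face_face` gives `e ⊆ F ∩ F'`. `nn_two`, `nn_sub`,
`Spt.ncol`: contradiction.
(3) `xstar` and `isPreconnected_iff_subset_of_disjoint_closed` (or `isPreconnected_closed_iff`): `OTᶜ ⊆ Zc O₁` or `OTᶜ ⊆ Zc O₂`. Say the first (the other
case is the same with `Spt.symm`; better: prove one lemma for `O₁`). Then `G' \ {x} ⊆ O₁`: let `g ∈ G'`, `g ≠ x` (`sp_union`).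
 - `g ∈ K E`: `g ∈ frontier U`, `U ∈ Us E`, there is `x' ∈ closure U ∩ So`; `x' ∉ OT` (`mem_So_iff`), `x' ∈ Om E`. `Kc x' \ {x}` is contained in `O₁` or `O₂`; in
   the second case `x' ∈ Zc O₂ ∩ Zc O₁ ∩ OTᶜ`: contradiction to (2). `g ∈ Kc x'` (`kc_mem`).
 - `g ∈ el i θ`, `θ ∈ Eint i`: there is a face `F ⊇ θ` (`net_faces`), `F ⊆ A i`. `F` is coloured (`face_col`). Let `y ∈ θ` (nonempty): `y ∉ OT` (`A_OT`), so
   `y ∈ Zc O₁`; if the colour of `F` is 2 then `y ∈ Zc O₂`: contradiction to (2). So `el i θ \ {x} = Nn i θ \ {x} ⊆ O₁` (`nn_int`).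
-/
import Mathlib
import Pool.Agent.ETM.SbF
import Pool.Agent.ETM.SbG

set_option autoImplicit false

open Set Metric Topology Filter
open Pool.JS

namespace Pool.ETM

variable {X : Type*} [MetricSpace X] [CompactSpace X] [Sph X] {c : Ctx X} (h : c.Ok)

/-- the closed set of the points of colour `O` -/
private def sbh_Z (c : Ctx X) (E : Set (Set X)) (el : ℕ → Set X → Set X) (x : X) (O : Set X) : Set X :=
  {a | a ∈ c.Om E ∧ c.Kc E a \ {x} ⊆ O} ∪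
    ⋃ i ∈ {i | i < c.nc}, ⋃ F ∈ {F | F ∈ c.Face (c.lev i) ∧ F ⊆ c.A i ∧
      ∀ θ ∈ c.E (c.lev i), θ ⊆ F → c.Nn E el i θ \ {x} ⊆ O}, F

private theorem sbh_mem_Z {E : Set (Set X)} {el : ℕ → Set X → Set X} {x : X} {O : Set X} {y : X} :
    y ∈ sbh_Z c E el x O ↔ (y ∈ c.Om E ∧ c.Kc E y \ {x} ⊆ O) ∨ ∃ i < c.nc, ∃ F ∈ c.Face (c.lev i), F ⊆ c.A i ∧
      (∀ θ ∈ c.E (c.lev i), θ ⊆ F → c.Nn E el i θ \ {x} ⊆ O) ∧ y ∈ F := by
  unfold sbh_Z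
  constructor
  · rintro (h1 | h1)
    · exact Or.inl h1
    · right
      simp only [mem_iUnion, mem_setOf_eq, exists_prop] at h1
      obtain ⟨i, hi, F, ⟨hF, hFA, hc⟩, hy⟩ := h1
      exact ⟨i, hi, F, hF, hFA, hc, hy⟩
  · rintro (h1 | ⟨i, hi, F, hF, hFA, hc, hy⟩)
    · exact Or.inl h1
    · right
      simp only [mem_iUnion, mem_setOf_eq, exists_prop]
      exact ⟨i, hi, F, ⟨hF, hFA, hc⟩, hy⟩

private theorem sbh_face_finite (hN : c.NetOk) (k : ℕ) : (c.Face k).Finite := by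
  have h1 : c.Face k = closure '' Fc (c.E k) := by
    ext F
    constructor
    · rintro ⟨U, hU, rfl⟩
      exact ⟨U, hU, rfl⟩
    · rintro ⟨U, hU, rfl⟩
      exact ⟨U, hU, rfl⟩
  rw [h1]
  exact (hN.good k).finF.image _

private theorem sbh_closed (hN : c.NetOk) {V : Set X} {E : Set (Set X)} (hG : Good V E) (el : ℕ → Set X → Set X) (x : X)
    (O : Set X) : IsClosed (sbh_Z c E el x O) := by
  unfold sbh_Z
  apply IsClosed.union
  · exact kc_closed hG fun K => K \ {x} ⊆ O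
  · apply Set.Finite.isClosed_biUnion (Set.finite_lt_nat c.nc)
    intro i _
    apply Set.Finite.isClosed_biUnion
    · exact (sbh_face_finite hN (c.lev i)).subset fun F hF => hF.1
    · intro F hF
      obtain ⟨U, _, rfl⟩ := hF.1
      exact isClosed_closure

include h

variable {V : Set X} {E : Set (Set X)} (hA : c.Adm c.L1 V E) {Pt : ℕ → Set X → X → Set X}
    {us : ℕ → Set X → X → X} {el : ℕ → Set X → Set X}
    (hl : ∀ i < c.nc, ∀ θ ∈ c.Eint i, c.Loc i θ V E (Pt i θ) (us i θ) (el i θ))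

include hA hl

private theorem sbh_kc_sub (a : X) : c.Kc E a ⊆ ⋃₀ c.spE E el := by
  rw [sp_union h hA hl]
  exact (kc_sub a).trans subset_union_left

private theorem sbh_kc_false {x : X} {O₁ O₂ : Set X} (hs : Spt (⋃₀ c.spE E el) x O₁ O₂) {y : X} (hy : y ∈ c.Om E)
    (h1 : c.Kc E y \ {x} ⊆ O₁) (h2 : c.Kc E y \ {x} ⊆ O₂) : False := by
  obtain ⟨g, hg⟩ := kc_two hA.good hy x
  exact hs.ncol (sbh_kc_sub h hA hl y hg.1) hg.2 (h1 hg) (h2 hg)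

private theorem sbh_cover {x : X} {O₁ O₂ : Set X} (hs : Spt (⋃₀ c.spE E el) x O₁ O₂) {y : X} (hy : y ∉ c.OT) :
    y ∈ sbh_Z c E el x O₁ ∨ y ∈ sbh_Z c E el x O₂ := by
  rcases cover_x h hA hy with hO | ⟨i, hi, F, hF, hFA, hyF⟩
  · have hcol : c.Kc E y \ {x} ⊆ O₁ ∨ c.Kc E y \ {x} ⊆ O₂ := by
      apply hs.col (kc_noCut hA.good hO x)
      exact diff_subset_diff_left (sbh_kc_sub h hA hl y)
    rcases hcol with h1 | h1
    · exact Or.inl (sbh_mem_Z.mpr (Or.inl ⟨hO, h1⟩))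
    · exact Or.inr (sbh_mem_Z.mpr (Or.inl ⟨hO, h1⟩))
  · rcases face_col h hA hl hi hF hFA hs with h1 | h1
    · exact Or.inl (sbh_mem_Z.mpr (Or.inr ⟨i, hi, F, hF, hFA, h1, hyF⟩))
    · exact Or.inr (sbh_mem_Z.mpr (Or.inr ⟨i, hi, F, hF, hFA, h1, hyF⟩))

private theorem sbh_om_face {x : X} {O₁ O₂ : Set X} (hs : Spt (⋃₀ c.spE E el) x O₁ O₂) {y : X} (hy : y ∈ c.Om E)
    (h1 : c.Kc E y \ {x} ⊆ O₁) {i : ℕ} (hi : i < c.nc) {F : Set X} (hF : F ∈ c.Face (c.lev i)) (hFA : F ⊆ c.A i)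
    (h2 : ∀ θ ∈ c.E (c.lev i), θ ⊆ F → c.Nn E el i θ \ {x} ⊆ O₂) (hyF : y ∈ F) : False := by
  obtain ⟨e, he, heF, hN⟩ := col_om (el := el) h hA hi hF hFA hyF hy
  have h3 := h2 e he heF
  rw [hN] at h3
  exact sbh_kc_false h hA hl hs hy h1 h3

private theorem sbh_face_face {x : X} {O₁ O₂ : Set X} (hs : Spt (⋃₀ c.spE E el) x O₁ O₂) {y : X}
    {i : ℕ} (hi : i < c.nc) {F : Set X} (hF : F ∈ c.Face (c.lev i)) (hFA : F ⊆ c.A i)
    (h1 : ∀ θ ∈ c.E (c.lev i), θ ⊆ F → c.Nn E el i θ \ {x} ⊆ O₁) (hyF : y ∈ F)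
    {j : ℕ} (hj : j < c.nc) {F' : Set X} (hF' : F' ∈ c.Face (c.lev j)) (hFA' : F' ⊆ c.A j)
    (h2 : ∀ θ ∈ c.E (c.lev j), θ ⊆ F' → c.Nn E el j θ \ {x} ⊆ O₂) (hyF' : y ∈ F') : False := by
  have hij : i = j := by
    by_contra hne
    exact Set.disjoint_left.mp (A_disj h hi hj hne) (hFA hyF) (hFA' hyF')
  subst hij
  have hex : ∃ e ∈ c.E (c.lev i), e ⊆ F ∧ e ⊆ F' := by
    by_cases hFF : F = F'
    · subst hFF
      obtain ⟨U, hU, hFU, D, hD, hDne, hfr, hJ, hiff⟩ := face_edges h.net hF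
      obtain ⟨e, he⟩ := hDne
      have := (hiff e (hD he)).mp he
      exact ⟨e, hD he, this, this⟩
    · exact face_face h hF hF' hFF ⟨y, hyF, hyF'⟩
  obtain ⟨e, he, heF, heF'⟩ := hex
  obtain ⟨g, hg⟩ := nn_two h hA hl hi he (heF.trans hFA) x
  exact hs.ncol (nn_sub h hA hl hi he (heF.trans hFA) hg.1) hg.2 (h1 e he heF hg) (h2 e he heF' hg)

private theorem sbh_disj {x : X} {O₁ O₂ : Set X} (hs : Spt (⋃₀ c.spE E el) x O₁ O₂) {y : X}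
    (h1 : y ∈ sbh_Z c E el x O₁) (h2 : y ∈ sbh_Z c E el x O₂) : False := by
  rcases sbh_mem_Z.mp h1 with ⟨hO, hK⟩ | ⟨i, hi, F, hF, hFA, hc, hyF⟩
  · rcases sbh_mem_Z.mp h2 with ⟨_, hK'⟩ | ⟨j, hj, F', hF', hFA', hc', hyF'⟩
    · exact sbh_kc_false h hA hl hs hO hK hK'
    · exact sbh_om_face h hA hl hs hO hK hj hF' hFA' hc' hyF'
  · rcases sbh_mem_Z.mp h2 with ⟨hO, hK'⟩ | ⟨j, hj, F', hF', hFA', hc', hyF'⟩
    · exact sbh_om_face h hA hl hs.symm hO hK' hi hF hFA hc hyF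
    · exact sbh_face_face h hA hl hs hi hF hFA hc hyF hj hF' hFA' hc' hyF'

private theorem sbh_concl {x : X} {O₁ O₂ : Set X} (hs : Spt (⋃₀ c.spE E el) x O₁ O₂)
    (hZ : c.OTᶜ ⊆ sbh_Z c E el x O₁) : (⋃₀ c.spE E el) \ {x} ⊆ O₁ := by
  rintro g ⟨hg, hgx⟩
  have hg' := hg
  rw [sp_union h hA hl] at hg'
  rcases hg' with hK | hel
  · obtain ⟨J, ⟨U, hU, hUS, rfl⟩, hgU⟩ := hK
    have hUs : U ∈ c.Us E := ⟨hU, hUS⟩
    obtain ⟨x', hx'U, hx'S⟩ := hUS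
    have hx'T : x' ∉ c.OT := (mem_So_iff.mp hx'S).2
    have hx'O : x' ∈ c.Om E := (us_conn hA.good hUs).2 hx'U
    have hgK : g ∈ c.Kc E x' := kc_mem hA.good hUs hx'U hgU
    have hcol : c.Kc E x' \ {x} ⊆ O₁ ∨ c.Kc E x' \ {x} ⊆ O₂ := by
      apply hs.col (kc_noCut hA.good hx'O x)
      exact diff_subset_diff_left (sbh_kc_sub h hA hl x')
    rcases hcol with h1 | h1
    · exact h1 ⟨hgK, hgx⟩
    · exact (sbh_disj h hA hl hs (hZ hx'T) (sbh_mem_Z.mpr (Or.inl ⟨hx'O, h1⟩))).elim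
  · simp only [mem_iUnion, exists_prop] at hel
    obtain ⟨i, hi, θ, hθ, hgθ⟩ := hel
    obtain ⟨U₁, hU₁, U₂, hU₂, -, hθU, -, -⟩ := net_faces h.net hθ.1
    have hF : closure U₁ ∈ c.Face (c.lev i) := ⟨U₁, hU₁, rfl⟩
    have hθF : θ ⊆ closure U₁ := hθU.trans frontier_subset_closure
    have hFA : closure U₁ ⊆ c.A i := hθ.2 _ hF hθF
    obtain ⟨a, ha, b, hb, hab, haθ, hbθ, harc, -, -, -⟩ := net_ends h.net hθ.1
    have haT : a ∉ c.OT := fun hT => Set.disjoint_left.mp (A_OT h hi) (hFA (hθF haθ)) hT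
    have h1 : g ∈ c.Nn E el i θ \ {x} := by
      rw [nn_int hθ]
      exact ⟨hgθ, hgx⟩
    rcases face_col h hA hl hi hF hFA hs with h2 | h2
    · exact h2 θ hθ.1 hθF h1
    · exact (sbh_disj h hA hl hs (hZ haT)
        (sbh_mem_Z.mpr (Or.inr ⟨i, hi, closure U₁, hF, hFA, h2, hθF haθ⟩))).elim

/-- 7.6 -/
theorem splice_nocut : NoCut (⋃₀ c.spE E el) := by
  intro x
  rw [isPreconnected_iff_subset_of_disjoint]
  intro O₁ O₂ h1 h2 h3 h4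
  have hs : Spt (⋃₀ c.spE E el) x O₁ O₂ := ⟨h1, h2, h3, h4⟩
  have hX := isPreconnected_iff_subset_of_disjoint_closed.mp (xstar h) (sbh_Z c E el x O₁) (sbh_Z c E el x O₂)
    (sbh_closed h.net hA.good el x O₁) (sbh_closed h.net hA.good el x O₂)
    (fun y hy => sbh_cover h hA hl hs hy)
    (Set.eq_empty_of_forall_notMem fun y hy => sbh_disj h hA hl hs hy.2.1 hy.2.2)
  rcases hX with hZ | hZ
  · exact Or.inl (sbh_concl h hA hl hs hZ)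
  · exact Or.inr (sbh_concl h hA hl hs.symm hZ)

end Pool.ETM
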