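/-
Project ETM (MP_c7bb65_an), block SPc (helper31). MODULE ScA: transfer of separation (used in 7.8b and 11.1).
-/
import Mathlib
import Pool.Agent.ETM.Defs
import Pool.Agent.JS.SpA
import Pool.Agent.JS.SpC
import Pool.Agent.JS.LgA
import Pool.Agent.JS.LgD
import Pool.Agent.JS.Eil

set_option autoImplicit false

open Set Metric Topology Filter
open Pool.JS

namespace Pool.ETM

variable {X : Type*} [TopologicalSpace X] [CompactSpace X] [T2Space X] [Sph X]

theorem sep_transfer {B K : Set X} {x y : X} (hK : IsClosed K) (hxK : x ∉ K) (hyK : y ∉ K) (hxB : x ∉ B) (hyB : y ∉ B)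
    {I : Set (Set X)} (hI : I.Finite) (hB : B = ⋃₀ I) (D : Set X → Set X) (τ : Set X → X → X)
    (hcl : ∀ e ∈ I, IsClosed e)
    (hD : ∀ e ∈ I, IsOpen (D e) ∧ IsSimplyConnected (D e) ∧ e ⊆ D e ∧ x ∉ D e ∧ y ∉ D e)
    (hτ : ∀ e ∈ I, ContinuousOn (τ e) e ∧ MapsTo (τ e) e (K ∩ D e))
    (hc : ∀ e ∈ I, ∀ e' ∈ I, e ≠ e' → ∀ b ∈ e ∩ e', τ e b = τ e' b ∧
      ∃ C, IsPreconnected C ∧ C ⊆ D e ∩ D e' ∧ b ∈ C ∧ τ e b ∈ C)
    (h : ConX K x y) : ConX B x y := by
  classical
  rcases eq_or_ne x y with rfl | hxy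
  · exact ⟨{x}, isPreconnected_singleton, by simpa using hxB, rfl, rfl⟩
  obtain ⟨σ, hσ⟩ := exists_chart y
  obtain ⟨a, rfl⟩ := hσ.exists_eq hxy
  have hBc : IsClosed B := by rw [hB, sUnion_eq_biUnion]; exact hI.isClosed_biUnion hcl
  -- inverse of the chart
  have hinj := hσ.inj
  have hopen : IsOpenEmbedding σ := hσ.emb
  obtain ⟨ρ, hρ⟩ : ∃ ρ : X → ℂ, ∀ z, ρ (σ z) = z := ⟨Function.invFun σ, Function.leftInverse_invFun hinj⟩
  have hρσ : ∀ p : X, p ≠ y → σ (ρ p) = p := by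
    intro p hp
    obtain ⟨z, rfl⟩ := hσ.exists_eq hp
    rw [hρ]
  have hρc : ContinuousOn ρ ({y}ᶜ : Set X) := by
    intro p hp
    obtain ⟨z, rfl⟩ := hσ.exists_eq (show p ≠ y from hp)
    apply ContinuousAt.continuousWithinAt
    have := hopen.continuousAt_iff (g := ρ) (x := z)
    have h1 : (ρ ∘ σ) = id := by funext z; simp [hρ]
    rw [← this, h1]
    exact continuousAt_id
  -- logarithm on `K`
  have hKc : IsCompact (σ ⁻¹' K) := hσ.isCompact_preimage hK hyK
  have hBcc : IsCompact (σ ⁻¹' B) := hσ.isCompact_preimage hBc hyB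
  obtain ⟨l, hlc, hl⟩ : HasLog (σ ⁻¹' K) (fun z => z - a) := hasLog_of_esc hKc ((hσ.esc_iff hK hyK hxK).mp h)
  -- logarithms on the `D e`
  have hlam : ∀ e ∈ I, ∃ lam : ℂ → ℂ, ContinuousOn lam (σ ⁻¹' D e) ∧ ∀ z ∈ σ ⁻¹' D e, Complex.exp (lam z) = z - a := by
    intro e he
    obtain ⟨h1, h2, h3, h4, h5⟩ := hD e he
    have hsc : IsSimplyConnected (σ ⁻¹' D e) := by
      rw [← hopen.isEmbedding.isSimplyConnected_image, hσ.image_preimage h5]
      exact h2
    have hop : IsOpen (σ ⁻¹' D e) := h1.preimage hσ.cont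
    obtain ⟨f, hf, hf'⟩ := Complex.exists_continuousOn_eqOn_exp_comp hsc hop (g := fun z => z - a) (by fun_prop)
      (by
        rintro ⟨z, hz, hza⟩
        have hza' : z = a := sub_eq_zero.mp hza
        rw [hza'] at hz
        exact h4 hz)
    exact ⟨f, hf, fun z hz => hf' hz⟩
  choose! lam hlamc hlam' using hlam
  -- the transported points
  let t : Set X → ℂ → ℂ := fun e z => ρ (τ e (σ z))
  have hσt : ∀ e ∈ I, ∀ z, σ z ∈ e → σ (t e z) = τ e (σ z) := by
    intro e he z hz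
    apply hρσ
    intro h0
    have := ((hτ e he).2 hz).1
    rw [h0] at this
    exact hyK this
  have htK : ∀ e ∈ I, ∀ z, σ z ∈ e → t e z ∈ σ ⁻¹' K := by
    intro e he z hz
    show σ (t e z) ∈ K
    rw [hσt e he z hz]
    exact ((hτ e he).2 hz).1
  have htD : ∀ e ∈ I, ∀ z, σ z ∈ e → t e z ∈ σ ⁻¹' D e := by
    intro e he z hz
    show σ (t e z) ∈ D e
    rw [hσt e he z hz]
    exact ((hτ e he).2 hz).2
  have htc : ∀ e ∈ I, ContinuousOn (t e) (σ ⁻¹' e) := by
    intro e he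
    apply hρc.comp ((hτ e he).1.comp hσ.cont.continuousOn (fun z hz => hz))
    intro z hz h0
    have := ((hτ e he).2 (show σ z ∈ e from hz)).1
    have h0' : τ e (σ z) = y := h0
    rw [h0'] at this
    exact hyK this
  let F : Set X → ℂ → ℂ := fun e z => l (t e z) + lam e z - lam e (t e z)
  have hFc : ∀ e ∈ I, ContinuousOn (F e) (σ ⁻¹' e) := by
    intro e he
    have hed : σ ⁻¹' e ⊆ σ ⁻¹' D e := preimage_mono (hD e he).2.2.1
    refine ((hlc.comp (htc e he) (fun z hz => htK e he z hz)).add ((hlamc e he).mono hed)).sub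
      ((hlamc e he).comp (htc e he) (fun z hz => htD e he z hz))
  have hFexp : ∀ e ∈ I, ∀ z, σ z ∈ e → Complex.exp (F e z) = z - a := by
    intro e he z hz
    have hne : t e z - a ≠ 0 := by
      intro h0
      have h1 : t e z = a := sub_eq_zero.mp h0
      have h2 := htK e he z hz
      rw [h1] at h2
      exact hxK h2
    show Complex.exp (l (t e z) + lam e z - lam e (t e z)) = z - a
    rw [Complex.exp_sub, Complex.exp_add, hl _ (htK e he z hz), hlam' e he _ (htD e he z hz),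
      hlam' e he z ((hD e he).2.2.1 hz)]
    field_simp
  have hagree : ∀ e ∈ I, ∀ e' ∈ I, ∀ z, σ z ∈ e → σ z ∈ e' → F e z = F e' z := by
    intro e he e' he' z hz hz'
    rcases eq_or_ne e e' with rfl | hne
    · rfl
    obtain ⟨h1, C, hC, hCD, hbC, hτC⟩ := hc e he e' he' hne (σ z) ⟨hz, hz'⟩
    have htt : t e z = t e' z := by show ρ (τ e (σ z)) = ρ (τ e' (σ z)); rw [h1]
    have hCy : y ∉ C := fun hy => (hD e he).2.2.2.2 (hCD hy).1
    have hC' : IsPreconnected (σ ⁻¹' C) := by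
      have : IsPreconnected (σ '' (σ ⁻¹' C)) := by rw [hσ.image_preimage hCy]; exact hC
      exact hopen.isInducing.isPreconnected_image.mp this
    obtain ⟨n, hn⟩ := log_unique hC' (g₁ := lam e) (g₂ := lam e')
      ((hlamc e he).mono (fun w hw => (hCD hw).1)) ((hlamc e' he').mono (fun w hw => (hCD hw).2))
      (fun w hw => by rw [hlam' e he w (hCD hw).1, hlam' e' he' w (hCD hw).2])
    have h2 := hn z hbC
    have h3 := hn (t e z) (by show σ (t e z) ∈ C; rw [hσt e he z hz]; exact hτC)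
    show l (t e z) + lam e z - lam e (t e z) = l (t e' z) + lam e' z - lam e' (t e' z)
    rw [← htt, h2, h3]
    ring
  -- the logarithm on `B`
  have hmem : ∀ z ∈ σ ⁻¹' B, ∃ e ∈ I, σ z ∈ e := by
    intro z hz
    have : σ z ∈ B := hz
    rw [hB] at this
    exact this
  choose! ec hec hecm using hmem
  let g : ℂ → ℂ := fun z => F (ec z) z
  have hg : ∀ e ∈ I, ∀ z, σ z ∈ e → g z = F e z := by
    intro e he z hz
    have hzB : z ∈ σ ⁻¹' B := by show σ z ∈ B; rw [hB]; exact ⟨e, he, hz⟩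
    exact hagree _ (hec z hzB) e he z (hecm z hzB) hz
  have hgc : ContinuousOn g (σ ⁻¹' B) := by
    have hBU : σ ⁻¹' B = ⋃ e : I, σ ⁻¹' (e : Set X) := by
      rw [hB, sUnion_eq_iUnion, preimage_iUnion]
    rw [hBU]
    have : Finite I := hI
    apply LocallyFinite.continuousOn_iUnion (locallyFinite_of_finite _)
    · intro e
      exact (hcl e e.2).preimage hσ.cont
    · intro e
      exact (hFc e e.2).congr (fun z hz => hg e e.2 z hz)
  have hlog : HasLog (σ ⁻¹' B) (fun z => z - a) :=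
    ⟨g, hgc, fun z hz => by rw [hg _ (hec z hz) z (hecm z hz)]; exact hFexp _ (hec z hz) z (hecm z hz)⟩
  exact (hσ.esc_iff hBc hyB hxB).mpr (esc_of_hasLog hBcc hxB hlog)

end Pool.ETM
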