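/-
Project ETM (MP_c7bb65_an), block SPc (helper31). MODULE ScC (difficulty 2): 7.7, the faces of the spliced graph.

PROOF. `G' := ⋃₀ spE = K E ∪ ⋃ el` (`sp_union`); `sp_pg` is a `PG`, so faces are open (`Fc.isOpen`). Let `U ∈ Fc (spE)`.
(1) `U₀ ∈ Us E` => `U₀ ∈ Fc (spE)` : `U₀` is open, nonempty, connected (it is in `Fc E`); `U₀ ∩ K E = ∅` (`K E ⊆ ⋃₀ E` by `PG.MS_edges`, `U₀` is disjoint from
`⋃₀ E`); `U₀ ∩ el i θ ⊆ Om E ∩ el i θ`, by `Loc.om` such a point is `us i θ v` with `v ∈ Vbd i`, which is in `K E` (`Loc.path`: `Pt v ∩ K E = {us v}`): so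
`U₀ ∩ G' = ∅`. `frontier U₀ ⊆ K E ⊆ G'` (`MS`). So `U₀` is a face of `G'`: maximality: a connected `C ⊆ G'ᶜ` meeting `U₀` does not meet `frontier U₀`, so it is in `U₀`.
(2) If `U` meets `Om E`, it meets some `closure U₀`, `U₀ ∈ Us E`, hence `U₀` (as `U` is open), so `U = U₀ ∈ Us E` (`FaceX.eq` of JS/ThA.. or `Fc.disj`).
(3) Otherwise `U` is disjoint from `Om E`, so `closure U` is disjoint from `interior (Om E) ⊇ So` (`sc_so`), `closure U ⊆ OO`; `lv_pieces`.
-/
import Mathlib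
import Pool.Agent.ETM.ScB

set_option autoImplicit false

open Set Metric Topology Filter
open Pool.JS

namespace Pool.ETM

variable {X : Type*} [MetricSpace X] [CompactSpace X] [Sph X] {c : Ctx X} (h : c.Ok) {V : Set X} {E : Set (Set X)}

include h

theorem sc_face (hA : c.Adm c.L1 V E) {Pt : ℕ → Set X → X → Set X} {us : ℕ → Set X → X → X} {el : ℕ → Set X → Set X}
    (hl : ∀ i < c.nc, ∀ θ ∈ c.Eint i, c.Loc i θ V E (Pt i θ) (us i θ) (el i θ)) {U : Set X} (hU : U ∈ c.Us E) :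
    U ∈ Fc (c.spE E el) := by
  have hUE := hU.1
  have hK : c.K E ⊆ ⋃₀ E := by
    obtain ⟨D, hD, hDe⟩ := hA.good.pg.MS_edges (S := c.So) hA.good.disc
    intro y hy
    have hy' : y ∈ ⋃₀ D := by
      rw [← hDe]
      exact hy
    obtain ⟨e, he, hye⟩ := hy'
    exact ⟨e, hD he, hye⟩
  have hfr : frontier U ⊆ c.K E := by
    intro y hy
    exact ⟨frontier U, ⟨U, hUE, hU.2, rfl⟩, hy⟩
  have hOm : U ⊆ c.Om E := by
    intro y hy
    exact ⟨closure U, ⟨U, hU, rfl⟩, subset_closure hy⟩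
  have hun := sp_union h hA hl
  refine ⟨hUE.ne, hUE.conn, ?_, ?_⟩
  · intro x hx hxs
    rw [hun] at hxs
    rcases hxs with h1 | h1
    · exact hUE.sub hx (hK h1)
    · simp only [mem_iUnion] at h1
      obtain ⟨i, hi, θ, hθ, hxe⟩ := h1
      have h2 : x ∈ el i θ ∩ c.Om E := ⟨hxe, hOm hx⟩
      rw [(hl i hi θ hθ).om] at h2
      obtain ⟨v, hv, hvθ, hxv⟩ := h2
      obtain ⟨p, _, _, _, _, _, _, h3⟩ := (hl i hi θ hθ).path v hv hvθ
      have h4 : us i θ v ∈ Pt i θ v ∩ c.K E := by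
        rw [h3]
        exact rfl
      rw [← hxv] at h4
      exact hUE.sub hx (hK h4.2)
  · intro C hC hCs hCU
    by_contra hnot
    rw [not_subset] at hnot
    obtain ⟨z, hz, hzU⟩ := hnot
    have hUo : IsOpen U := (hA.good.disc U hUE).1
    have hnf : ∀ y ∈ C, y ∉ frontier U := by
      intro y hyC hyf
      apply hCs hyC
      rw [hun]
      exact Or.inl (hfr hyf)
    have hzc : z ∉ closure U := by
      intro hzc
      apply hnf z hz
      rw [hUo.frontier_eq]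
      exact ⟨hzc, hzU⟩
    obtain ⟨y, _, hy1, hy2⟩ := hC U (closure U)ᶜ hUo isClosed_closure.isOpen_compl (by
      intro y hy
      by_cases h1 : y ∈ closure U
      · left
        by_contra h2
        apply hnf y hy
        rw [hUo.frontier_eq]
        exact ⟨h1, h2⟩
      · exact Or.inr h1) hCU ⟨z, hz, hzc⟩
    exact hy2 (subset_closure hy1)

/-- 7.7 -/
theorem sc_faces (hA : c.Adm c.L1 V E) {Pt : ℕ → Set X → X → Set X}
    {us : ℕ → Set X → X → X} {el : ℕ → Set X → Set X}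
    (hl : ∀ i < c.nc, ∀ θ ∈ c.Eint i, c.Loc i θ V E (Pt i θ) (us i θ) (el i θ)) {U : Set X}
    (hU : U ∈ Fc (c.spE E el)) : U ∈ c.Us E ∨ (Disjoint U (c.Om E) ∧
      ((∃ i < c.nc, closure U ⊆ interior (c.A i)) ∨ ∃ z ∈ c.Z, closure U ⊆ c.Tz c.nhole z ∧ closure U ⊆ c.OT)) := by
  have hopen : IsOpen U := Fc.isOpen (sp_pg h hA hl) hU
  by_cases hm : (U ∩ c.Om E).Nonempty
  · left
    obtain ⟨x, hxU, F, ⟨U₀, hU₀, rfl⟩, hxF⟩ := hm
    have h1 : (U ∩ U₀).Nonempty := mem_closure_iff.mp hxF U hopen hxU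
    have h2 : U = U₀ := FaceX.eq hU (sc_face h hA hl hU₀) h1
    rw [h2]
    exact hU₀
  · right
    have hd : Disjoint U (c.Om E) := by
      rw [Set.disjoint_iff_inter_eq_empty]
      exact not_nonempty_iff_eq_empty.mp hm
    refine ⟨hd, ?_⟩
    have h1 : Disjoint (closure U) (interior (c.Om E)) :=
      (hd.mono_right interior_subset).closure_left isOpen_interior
    have h2 : closure U ⊆ c.OO := by
      intro y hy
      by_contra hyO
      exact Set.disjoint_left.mp h1 hy ((sc_so h hA).1 hyO)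
    exact lv_pieces h hU.conn.closure h2 (hU.ne.mono subset_closure)

end Pool.ETM
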