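/-
Project ETM (MP_c7bb65_an), block SPc (helper31). MODULE ScD (difficulty 3): the star of a face.

PROOFS. `hG : Good V E`; `D U` = the set of edges with `frontier U = ⋃₀ (D U)` (`PG.frontier_edges`).
`sc_common`: `p ∈ closure U ∩ closure U'`, `U ≠ U'`. `p ∉ U` (else `U` open meets `U'`), so `p ∈ frontier U`, same for `U'`; `p ∈ ⋃₀ E`. If `p ∉ V`: `p` is in an edge
`e ∈ D U` and in an edge `e' ∈ D U'`; `e = e'` (`GrX.inter`). If `p ∈ V`: `frontier U` is a Jordan curve (`JDom.jordan`), `PG.jordan_two`: exactly two edges of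
`D U` at `p`, two of `D U'` at `p`, at most three edges at `p` (`Good.val`, finite set): a common one (`Set.ncard_union_add_ncard_inter` or similar).
`sc_star`: `S := St k F` is a finite union of closed faces. `IsClosed S`. `F ⊆ interior S`: the union `W` of the closed faces not meeting `F` is closed, disjoint from
`F`, and `Wᶜ ⊆ S` (`PG.cover`). `B := {e ∈ E k | ∃ U₁ U₂ ∈ Fc (E k), closure U₁ meets F, closure U₂ does not meet F, e ⊆ frontier U₁, e ⊆ frontier U₂}`.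
`frontier S = ⋃₀ B`: `⊇`: `e ⊆ closure U₁ ⊆ S`, and `U₂` is disjoint from `S` (open, disjoint from the other faces hence from their closures), `e ⊆ closure U₂ ⊆
closure Sᶜ`; `frontier S = S ∩ closure Sᶜ` (closed). `⊆`: `p ∈ frontier S`: `p ∈ closure U₁` for a face with `closure U₁ ∩ F ≠ ∅`; `p ∈ closure Sᶜ` and `Sᶜ ⊆ ⋃` of the closed
faces not meeting `F` (closed): `p ∈ closure U₂`; `sc_common`. For `θ ∈ B`: `θ ⊆ frontier S` is disjoint from `F ⊆ interior S`; if `x ∈ F ∩ D k θ`, `NetOk.third` gives `θ ⊆ F` or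
`v ∈ θ ∩ F`: contradiction (θ is nonempty: arc).
`sc_star_small`: `St k F ⊆ St k (St k F)` (a face meeting `F` meets `St k F`, it is contained in it), so `DSt k (St k F) ⊆ DSt k (St k (St k F))`; `NetOk.star`, `diam_mono` (bounded: compact).
`sc_star_R3`: `F ⊆ A i` => `St k F ⊆ St k (A i)`; and `S' ⊆ St k S'` for a union `S'` of closed faces; so `St k F ⊆ R3 i`.
-/
import Mathlib
import Pool.Agent.ETM.IfLv
import Pool.Agent.ETM.Bridge

set_option autoImplicit false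

open Set Metric Topology Filter
open Pool.JS

namespace Pool.ETM

variable {X : Type*} [MetricSpace X] [CompactSpace X] [Sph X]

theorem sc_common {V : Set X} {E : Set (Set X)} (hG : Good V E) {U U' : Set X} (hU : U ∈ Fc E) (hU' : U' ∈ Fc E)
    (hne : U ≠ U') {p : X} (hp : p ∈ closure U) (hp' : p ∈ closure U') :
    ∃ e ∈ E, p ∈ e ∧ e ⊆ frontier U ∧ e ⊆ frontier U' := by
  have hd : Disjoint U U' := Fc.disj hU hU' hne
  have hoU : IsOpen U := Fc.isOpen hG.pg hU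
  have hoU' : IsOpen U' := Fc.isOpen hG.pg hU'
  have hpU : p ∉ U := by
    intro hx
    obtain ⟨y, hy, hy'⟩ := mem_closure_iff.mp hp' U hoU hx
    exact Set.disjoint_left.mp hd hy hy'
  have hpU' : p ∉ U' := by
    intro hx
    obtain ⟨y, hy, hy'⟩ := mem_closure_iff.mp hp U' hoU' hx
    exact Set.disjoint_left.mp hd hy' hy
  have hfp : p ∈ frontier U := by
    rw [hoU.frontier_eq]
    exact ⟨hp, hpU⟩
  have hfp' : p ∈ frontier U' := by
    rw [hoU'.frontier_eq]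
    exact ⟨hp', hpU'⟩
  obtain ⟨D, hD, hfD⟩ := PG.frontier_edges hG.pg hU (hG.disc U hU)
  obtain ⟨D', hD', hfD'⟩ := PG.frontier_edges hG.pg hU' (hG.disc U' hU')
  have hpD : p ∈ ⋃₀ D := hfD ▸ hfp
  have hpD' : p ∈ ⋃₀ D' := hfD' ▸ hfp'
  have key : ∃ e ∈ D, e ∈ D' ∧ p ∈ e := by
    by_cases hpV : p ∈ V
    · have h1 := PG.jordan_two hG.pg hD (hfD ▸ (hG.disc U hU).jordan) hpV hpD
      have h2 := PG.jordan_two hG.pg hD' (hfD' ▸ (hG.disc U' hU').jordan) hpV hpD'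
      have h3 := hG.val p hpV
      have hfin : {e | e ∈ E ∧ p ∈ e}.Finite := hG.pg.finE.subset fun e he => he.1
      have hs1 : {e | e ∈ D ∧ p ∈ e} ⊆ {e | e ∈ E ∧ p ∈ e} := fun e he => ⟨hD he.1, he.2⟩
      have hs2 : {e | e ∈ D' ∧ p ∈ e} ⊆ {e | e ∈ E ∧ p ∈ e} := fun e he => ⟨hD' he.1, he.2⟩
      have h4 := Set.ncard_union_add_ncard_inter {e | e ∈ D ∧ p ∈ e} {e | e ∈ D' ∧ p ∈ e}
        (hfin.subset hs1) (hfin.subset hs2)
      have h5 := Set.ncard_le_ncard (Set.union_subset hs1 hs2) hfin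
      have h6 : 0 < ({e | e ∈ D ∧ p ∈ e} ∩ {e | e ∈ D' ∧ p ∈ e}).ncard := by
        have h1' : {e | e ∈ D ∧ p ∈ e}.ncard = 2 := h1
        have h2' : {e | e ∈ D' ∧ p ∈ e}.ncard = 2 := h2
        omega
      obtain ⟨e, he, he'⟩ := (Set.ncard_pos ((hfin.subset hs1).inter_of_left _)).mp h6
      exact ⟨e, he.1, he'.1, he.2⟩
    · obtain ⟨e, he, hpe⟩ := hpD
      exact ⟨e, he, PG.mem_of_point hG.pg (hD he) hD' hpe hpV hpD', hpe⟩
  obtain ⟨e, he, he', hpe⟩ := key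
  refine ⟨e, hD he, hpe, ?_, ?_⟩
  · rw [hfD]
    exact Set.subset_sUnion_of_mem he
  · rw [hfD']
    exact Set.subset_sUnion_of_mem he'

/-- an open face meets a closed face only if they are equal -/
theorem scd_open {V : Set X} {E : Set (Set X)} (hG : Good V E) {U U' : Set X} (hU : U ∈ Fc E) (hU' : U' ∈ Fc E) {x : X}
    (hx : x ∈ U) (hx' : x ∈ closure U') : U = U' := by
  by_contra hne
  obtain ⟨y, hy, hy'⟩ := mem_closure_iff.mp hx' U (Fc.isOpen hG.pg hU) hx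
  exact Set.disjoint_left.mp (Fc.disj hU hU' hne) hy hy'

theorem scd_fin (c : Ctx X) {k : ℕ} (hG : Good (c.V k) (c.E k)) : (c.Face k).Finite := by
  have h1 : c.Face k = (fun U => closure U) '' Fc (c.E k) := by
    ext F
    constructor
    · rintro ⟨U, hU, rfl⟩
      exact ⟨U, hU, rfl⟩
    · rintro ⟨U, hU, rfl⟩
      exact ⟨U, hU, rfl⟩
  rw [h1]
  exact hG.finF.image _

theorem scd_closed (c : Ctx X) {k : ℕ} (hG : Good (c.V k) (c.E k)) (P : Set X → Prop) :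
    IsClosed (⋃₀ {F | F ∈ c.Face k ∧ P F}) := by
  rw [Set.sUnion_eq_biUnion]
  refine Set.Finite.isClosed_biUnion ((scd_fin c hG).subset fun F hF => hF.1) ?_
  rintro F ⟨⟨U, _, rfl⟩, _⟩
  exact isClosed_closure

theorem scd_ne (c : Ctx X) {k : ℕ} {F : Set X} (hF : F ∈ c.Face k) : F.Nonempty := by
  obtain ⟨U, hU, rfl⟩ := hF
  obtain ⟨x, hx, rfl⟩ := mem_Fc_iff.mp hU
  exact ⟨x, subset_closure (mem_connectedComponentIn hx)⟩

theorem scd_St_mono (c : Ctx X) (k : ℕ) {S T : Set X} (hST : S ⊆ T) : c.St k S ⊆ c.St k T := by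
  rintro x ⟨F, ⟨hF, hFS⟩, hx⟩
  exact ⟨F, ⟨hF, hFS.mono (Set.inter_subset_inter_right _ hST)⟩, hx⟩

theorem scd_St_St (c : Ctx X) (k : ℕ) (S : Set X) : c.St k S ⊆ c.St k (c.St k S) := by
  rintro x ⟨F, ⟨hF, hFS⟩, hx⟩
  obtain ⟨y, hy⟩ := scd_ne c hF
  exact ⟨F, ⟨hF, y, hy, F, ⟨hF, hFS⟩, hy⟩, hx⟩

theorem scd_DSt_mono (c : Ctx X) (k : ℕ) {S T : Set X} (hST : S ⊆ T) : c.DSt k S ⊆ c.DSt k T := by
  rintro x (hx | ⟨D, ⟨θ, hθ, hθS, rfl⟩, hx⟩)
  · exact Or.inl (hST hx)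
  · exact Or.inr ⟨_, ⟨θ, hθ, hθS.trans hST, rfl⟩, hx⟩

/-- an edge is in the closure of a face -/
theorem scd_face_of_edge {V : Set X} {E : Set (Set X)} (hG : Good V E) {e : Set X} (he : e ∈ E) :
    ∃ U ∈ Fc E, e ⊆ closure U := by
  obtain ⟨_, _, h3⟩ := PG.faces hG.pg hG.ne (noCut_of_discs hG.pg hG.disc)
  obtain ⟨U₁, hU₁, _, _, _, h4, _⟩ := h3 e he
  exact ⟨U₁, hU₁, h4.trans frontier_subset_closure⟩

variable {c : Ctx X} (h : c.Ok)

include h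

theorem sc_star (k : ℕ) {F : Set X} (hF : F ∈ c.Face k) : IsClosed (c.St k F) ∧ F ⊆ interior (c.St k F) ∧
    ∃ B ⊆ c.E k, frontier (c.St k F) = ⋃₀ B ∧ ∀ θ ∈ B, θ ⊆ c.St k F ∧ Disjoint F (c.D k θ) := by
  have hG := h.net.good k
  have hcl : IsClosed (c.St k F) := scd_closed c hG fun F' => (F' ∩ F).Nonempty
  have hclW := scd_closed c hG fun F' => ¬ (F' ∩ F).Nonempty
  obtain ⟨W, hW⟩ : ∃ W, W = ⋃₀ {F' | F' ∈ c.Face k ∧ ¬ (F' ∩ F).Nonempty} := ⟨_, rfl⟩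
  rw [← hW] at hclW
  have hWc : Wᶜ ⊆ c.St k F := by
    intro x hx
    obtain ⟨U, hU, hxU⟩ := PG.cover hG.pg hG.disc x
    refine ⟨closure U, ⟨⟨U, hU, rfl⟩, ?_⟩, hxU⟩
    by_contra hcon
    apply hx
    rw [hW]
    exact ⟨closure U, ⟨⟨U, hU, rfl⟩, hcon⟩, hxU⟩
  have hFW : F ⊆ Wᶜ := by
    intro x hx hxW
    rw [hW] at hxW
    obtain ⟨F', ⟨_, hF'⟩, hxF'⟩ := hxW
    exact hF' ⟨x, hxF', hx⟩
  have hint : F ⊆ interior (c.St k F) := hFW.trans (interior_maximal hWc hclW.isOpen_compl)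
  refine ⟨hcl, hint, {e | e ∈ c.E k ∧ ∃ U₁ ∈ Fc (c.E k), ∃ U₂ ∈ Fc (c.E k), (closure U₁ ∩ F).Nonempty ∧
    ¬ (closure U₂ ∩ F).Nonempty ∧ e ⊆ frontier U₁ ∧ e ⊆ frontier U₂}, fun e he => he.1, ?_, ?_⟩
  · apply Set.Subset.antisymm
    · intro p hp
      have hpS : p ∈ c.St k F := hcl.frontier_subset hp
      obtain ⟨F₁, ⟨⟨U₁, hU₁, rfl⟩, hF₁⟩, hpF₁⟩ := hpS
      have hpW : p ∈ W := by
        have h1 : p ∈ closure (c.St k F)ᶜ := by
          rw [frontier_eq_closure_inter_closure] at hp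
          exact hp.2
        have h2 : (c.St k F)ᶜ ⊆ W := Set.compl_subset_comm.mp hWc
        exact hclW.closure_subset_iff.mpr h2 h1
      rw [hW] at hpW
      obtain ⟨F₂, ⟨⟨U₂, hU₂, rfl⟩, hF₂⟩, hpF₂⟩ := hpW
      have hne : U₁ ≠ U₂ := by
        rintro rfl
        exact hF₂ hF₁
      obtain ⟨e, he, hpe, he1, he2⟩ := sc_common hG hU₁ hU₂ hne hpF₁ hpF₂
      exact ⟨e, ⟨he, U₁, hU₁, U₂, hU₂, hF₁, hF₂, he1, he2⟩, hpe⟩
    · rintro p ⟨e, ⟨he, U₁, hU₁, U₂, hU₂, hF₁, hF₂, he1, he2⟩, hpe⟩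
      rw [frontier_eq_closure_inter_closure]
      have h1 : p ∈ c.St k F := ⟨closure U₁, ⟨⟨U₁, hU₁, rfl⟩, hF₁⟩, frontier_subset_closure (he1 hpe)⟩
      refine ⟨subset_closure h1, ?_⟩
      have h2 : U₂ ⊆ (c.St k F)ᶜ := by
        rintro x hx ⟨F', ⟨⟨U', hU', rfl⟩, hF'⟩, hxF'⟩
        have h3 := scd_open hG hU₂ hU' hx hxF'
        exact hF₂ (h3 ▸ hF')
      exact closure_mono h2 (frontier_subset_closure (he2 hpe))
  · rintro θ ⟨he, U₁, hU₁, U₂, hU₂, hF₁, hF₂, he1, he2⟩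
    refine ⟨fun x hx => ⟨closure U₁, ⟨⟨U₁, hU₁, rfl⟩, hF₁⟩, frontier_subset_closure (he1 hx)⟩, ?_⟩
    rw [Set.disjoint_left]
    intro x hxF hxD
    rcases h.net.third k θ he F hF x ⟨hxF, hxD⟩ with h3 | ⟨v, _, hvθ, hvF, _⟩
    · obtain ⟨p, _, q, _, hpq, _⟩ := hG.pg.arc θ he
      exact hF₂ ⟨p, frontier_subset_closure (he2 hpq.left_mem), h3 hpq.left_mem⟩
    · exact hF₂ ⟨v, frontier_subset_closure (he2 hvθ), hvF⟩

theorem sc_star_small (k : ℕ) {F : Set X} (hF : F ∈ c.Face k) : diam (c.f^[k] '' c.DSt k (c.St k F)) < c.η := by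
  refine lt_of_le_of_lt (Metric.diam_mono (Set.image_mono (scd_DSt_mono c k (scd_St_St c k F))) ?_) (h.net.star k F hF)
  exact isCompact_univ.isBounded.subset (Set.subset_univ _)

theorem sc_star_R3 {i : ℕ} {F : Set X} (hF : F ∈ c.Face (c.lev i)) (hFA : F ⊆ c.A i) :
    c.St (c.lev i) F ⊆ c.R3 i := by
  refine (scd_St_mono c _ hFA).trans ((scd_St_St c _ (c.A i)).trans ?_)
  exact scd_St_St c _ (c.St (c.lev i) (c.A i))

/-- an edge of the third star which is not interior is in `So` -/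
theorem sc_edge_so {i : ℕ} (hi : i < c.nc) {θ : Set X} (hθ : θ ∈ c.E (c.lev i)) (hR : θ ⊆ c.R3 i) (hn : θ ∉ c.Eint i) :
    θ ⊆ c.So := by
  have hG := h.net.good (c.lev i)
  intro x hx hxO
  obtain ⟨_, h2, h3⟩ := lv_R3 h hi (Or.inl (hR hx))
  rcases hxO with hxO | hxO
  · simp only [Set.mem_iUnion] at hxO
    obtain ⟨j, hj, hxj⟩ := hxO
    by_cases hji : j = i
    · subst hji
      have hn2 : ∃ F ∈ c.Face (c.lev j), θ ⊆ F ∧ ¬ F ⊆ c.A j := by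
        by_contra hcon
        push Not at hcon
        exact hn ⟨hθ, hcon⟩
      obtain ⟨F, ⟨U, hU, rfl⟩, hθF, hnF⟩ := hn2
      obtain ⟨y, hy, hyU⟩ := mem_closure_iff.mp (hθF hx) _ isOpen_interior hxj
      obtain ⟨F', ⟨⟨U', hU', rfl⟩, hF'⟩, hyF'⟩ := interior_subset hy
      have h4 := scd_open hG hU hU' hyU hyF'
      apply hnF
      intro z hz
      exact ⟨closure U', ⟨⟨U', hU', rfl⟩, hF'⟩, h4 ▸ hz⟩
    · exact h2 j hj hji (interior_subset hxj)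
  · exact h3 (interior_subset hxO)

/-- the vertices of an interior edge are interior or boundary vertices -/
theorem sc_vert {i : ℕ} (hi : i < c.nc) {θ : Set X} (hθ : θ ∈ c.Eint i) {v : X} (hv : v ∈ c.V (c.lev i)) (hvθ : v ∈ θ) :
    v ∈ c.Vint i ∨ v ∈ c.Vbd i := by
  have hG := h.net.good (c.lev i)
  obtain ⟨U, hU, hθU⟩ := scd_face_of_edge hG hθ.1
  have hvA : v ∈ c.A i := hθ.2 (closure U) ⟨U, hU, rfl⟩ hθU (hθU hvθ)
  by_cases hvi : v ∈ interior (c.A i)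
  · exact Or.inl ⟨hv, hvi⟩
  · exact Or.inr ⟨⟨hv, hvA⟩, hvi⟩

end Pool.ETM
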