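/-
Project ETM (MP_c7bb65_an), block SPc (helper31). MODULE ScE (difficulty 3): the maps `τ_θ` of 7.8 (b).

PROOFS. `k := lev i`, `S := (⋃₀ spE ∪ Om E) ∩ D k θ`.
`sc_bd` (7.6a): `θ ∈ Eint i`, `v ∈ Vbd i`, `v ∈ θ`. `us v ∈ K E` (`us_near`): there is `U₁ ∈ Us E` with `us v ∈ frontier U₁ ⊆ closure U₁`, `x' ∈ closure U₁ ∩ So`.
`e ⊆ nh (4ε)` and `us v ∈ e` (`Loc.om`), so `us v ∈ nh (lev i) θ (4ε)`; `om_near` with `z = us v`, `x = x'`: `v'' ∈ Vbd i`, `v'' ∈ θ`, `‖Q (us v) - Q v''‖ ≤ 6 ε`, and a path from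
`x'` to `v''` in `So ∩ B v'' (20 ε)`. `us_near`: `‖Q (us v) - Q v‖ ≤ 6 ε`, so `‖Q v - Q v''‖ ≤ 12 ε < s` and `v'' = v` by `NetOk.Qseg` (`400 ε ≤ s`). `closure U₁ ⊆ D k θ`
(`lv_small`; `θ ⊆ R3 i` for interior edges: `θ ⊆ A i ⊆ R3 i`; `nh (4ε) ⊆ nh (10ε)`), it is path connected (`sc_path`) and contained in `Om E`; `So ⊆ Om E` (`sc_so`),
`B k v (20 ε) ⊆ D k θ` (`NetOk.ball`). So `us v` and `v` are joined in `Om E ∩ D k θ` (`JoinedIn.trans`).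
`sc_join`: the two end points of `θ`. If `θ ∉ Eint i`: `θ ⊆ So ⊆ Om E` (`sc_edge_so`), `θ ⊆ D k θ` (`NetOk.Dsub`), `θ` is an arc: joined. If `θ ∈ Eint i`: `Loc.arc`: `el i θ` is an arc from `wend v` to `wend v'`,
contained in `⋃₀ spE` and in `nh (4ε) ⊆ D k θ`; `wend v = v` for `v ∈ Vint i`, `= us v` for `v ∈ Vbd i` (`sc_vert`; `Vint` and `Vbd` are disjoint) and then `sc_bd`.
`sc_tau`: `γ` a parametrisation of the arc `θ` (`GrX.arc`: `θ ∩ V = {p, q}`), `τ₀` its continuous inverse (`Pool.JS.exists_inverse`, module Inv), `P` the path of `sc_join` from `p` to `q`: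
`τ x = P (τ₀ x)` (`JoinedIn.somePath`, `Set.projIcc` or extend the path).
-/
import Mathlib
import Pool.Agent.ETM.ScB
import Pool.Agent.ETM.ScD
import Pool.Agent.JS.Inv

set_option autoImplicit false

open Set Metric Topology Filter
open Pool.JS

namespace Pool.ETM

theorem sce_arc_path {Y : Type*} [TopologicalSpace Y] {A : Set Y} {p q : Y} (h : ArcX A p q) : IsPathConnected A := by
  obtain ⟨γ, hc, _, him, _, _⟩ := h
  rw [← him]
  exact ((convex_Icc (0 : ℝ) 1).isPathConnected ⟨0, by norm_num⟩).image' hc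

theorem sce_int_R3 {X : Type*} [MetricSpace X] [CompactSpace X] [Sph X] {c : Ctx X} (h : c.Ok) {i : ℕ} {θ : Set X}
    (hθ : θ ∈ c.Eint i) : θ ⊆ c.R3 i := by
  have hG := h.net.good (c.lev i)
  obtain ⟨U, hU, hθU⟩ := scd_face_of_edge hG hθ.1
  have h1 : θ ⊆ c.A i := hθU.trans (hθ.2 (closure U) ⟨U, hU, rfl⟩ hθU)
  have h2 : c.A i ⊆ c.St (c.lev i) (c.A i) := by
    intro x hx
    obtain ⟨F, hF, hxF⟩ := hx
    exact ⟨F, ⟨hF.1, x, hxF, F, hF, hxF⟩, hxF⟩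
  exact h1.trans (h2.trans ((scd_St_St c _ _).trans (scd_St_St c _ _)))

theorem sce_nh_D {X : Type*} [MetricSpace X] (c : Ctx X) (k : ℕ) (θ : Set X) (r : ℝ) : c.nh k θ r ⊆ c.D k θ :=
  fun _ hx => hx.1

theorem sce_nh_mono {X : Type*} [MetricSpace X] (c : Ctx X) (k : ℕ) (θ : Set X) {r r' : ℝ} (hr : r ≤ r') :
    c.nh k θ r ⊆ c.nh k θ r' := fun _ hx => ⟨hx.1, hx.2.trans hr⟩

theorem sce_far {X : Type*} [MetricSpace X] {c : Ctx X} (h : c.Ok) {k : ℕ} {θ : Set X} (hθ : θ ∈ c.E k)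
    {v v' x : X} (hv : v ∈ c.V k) (hv' : v' ∈ c.V k) (hvθ : v ∈ θ) (hvθ' : v' ∈ θ)
    (h1 : ‖c.Q k x - c.Q k v‖ ≤ 6 * c.ε) (h2 : ‖c.Q k x - c.Q k v'‖ ≤ 6 * c.ε) : v' = v := by
  by_contra hne
  have h3 := (h.net.Qseg k θ hθ v hv v' hv' (fun e => hne e.symm) hvθ hvθ').2
  have h4 : c.Q k v - c.Q k v' = (c.Q k x - c.Q k v') - (c.Q k x - c.Q k v) := by ring
  have h5 := norm_sub_le (c.Q k x - c.Q k v') (c.Q k x - c.Q k v)
  rw [← h4, h3] at h5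
  have h6 := h.net.sε
  have h7 := h.net.εpos
  linarith

variable {X : Type*} [MetricSpace X] [CompactSpace X] [Sph X] {c : Ctx X} (h : c.Ok) {V : Set X} {E : Set (Set X)}
  (hA : c.Adm c.L1 V E) {Pt : ℕ → Set X → X → Set X} {us : ℕ → Set X → X → X} {el : ℕ → Set X → Set X}
  (hl : ∀ i < c.nc, ∀ θ ∈ c.Eint i, c.Loc i θ V E (Pt i θ) (us i θ) (el i θ))

include h hA hl

/-- 7.6a -/
theorem sc_bd {i : ℕ} (hi : i < c.nc) {θ : Set X} (hθ : θ ∈ c.Eint i) {v : X} (hv : v ∈ c.Vbd i) (hvθ : v ∈ θ) :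
    JoinedIn (c.Om E ∩ c.D (c.lev i) θ) (us i θ v) v := by
  have hL := hl i hi θ hθ
  obtain ⟨h1, h2, h3, _⟩ := us_near h hA hi hθ hL hv hvθ
  obtain ⟨_, ⟨U₁, hU₁, ⟨x', hx'U, hx'S⟩, rfl⟩, h4⟩ := h3
  have hU₁s : U₁ ∈ c.Us E := ⟨hU₁, x', hx'U, hx'S⟩
  have h5 : us i θ v ∈ el i θ := by
    have h6 : us i θ v ∈ el i θ ∩ c.Om E := by
      rw [hL.om]
      exact ⟨v, hv, hvθ, rfl⟩
    exact h6.1
  have h6 := hL.near h5
  have h7 : us i θ v ∈ closure U₁ := frontier_subset_closure h4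
  obtain ⟨v'', hv'', hvθ'', h8, _, _, h9⟩ := om_near h hA hi hθ hU₁s h7 h6 hx'U hx'S
  have h10 : v'' = v := sce_far h hθ.1 hv.1.1 hv''.1.1 hvθ hvθ'' h2 h8
  subst h10
  have hε := h.net.εpos
  have h11 := (lv_small h hi hθ.1 (sce_int_R3 h hθ) hA hU₁
    ⟨us i θ v'', h7, sce_nh_mono c _ _ (by linarith) h6⟩).1
  have h12 : closure U₁ ⊆ c.Om E := fun x hx => ⟨closure U₁, ⟨U₁, hU₁s, rfl⟩, hx⟩
  have h13 : JoinedIn (closure U₁) (us i θ v'') x' := (sc_path h hA hU₁).joinedIn _ h7 _ hx'U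
  refine (h13.mono (Set.subset_inter h12 h11)).trans (h9.mono ?_)
  rw [h.net.ball _ θ hθ.1 v'' hv.1.1 hvθ]
  rintro x ⟨hxS, hxD, _⟩
  exact ⟨interior_subset ((sc_so h hA).1 hxS), hxD⟩

theorem sc_join {i : ℕ} (hi : i < c.nc) {θ : Set X} (hθ : θ ∈ c.E (c.lev i)) (hR : θ ⊆ c.R3 i) {v v' : X}
    (hv : v ∈ c.V (c.lev i)) (hv' : v' ∈ c.V (c.lev i)) (hvθ : v ∈ θ) (hvθ' : v' ∈ θ) (hne : v ≠ v') :
    JoinedIn ((⋃₀ c.spE E el ∪ c.Om E) ∩ c.D (c.lev i) θ) v v' := by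
  by_cases hθi : θ ∈ c.Eint i
  · have hL := hl i hi θ hθi
    have h1 := hL.arc v hv v' hv' hvθ hvθ' hne
    have hsub : el i θ ⊆ (⋃₀ c.spE E el ∪ c.Om E) ∩ c.D (c.lev i) θ := by
      intro x hx
      exact ⟨Or.inl ⟨el i θ, Or.inr ⟨i, hi, θ, hθi, rfl⟩, hx⟩, (hL.near hx).1⟩
    have hj : ∀ u ∈ c.V (c.lev i), u ∈ θ → c.wend i (us i θ) u ∈ el i θ →
        JoinedIn ((⋃₀ c.spE E el ∪ c.Om E) ∩ c.D (c.lev i) θ) (c.wend i (us i θ) u) u := by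
      intro u hu huθ hue
      rcases sc_vert h hi hθi hu huθ with h2 | h2
      · have h3 : c.wend i (us i θ) u = u := by
          unfold Ctx.wend
          rw [if_pos h2]
        rw [h3] at hue ⊢
        exact JoinedIn.refl (hsub hue)
      · have h3 : c.wend i (us i θ) u = us i θ u := by
          unfold Ctx.wend
          rw [if_neg fun h4 => h2.2 h4.2]
        rw [h3]
        exact (sc_bd h hA hl hi hθi h2 huθ).mono (Set.inter_subset_inter_left _ Set.subset_union_right)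
    have h4 := ((sce_arc_path h1).joinedIn _ h1.left_mem _ h1.right_mem).mono hsub
    exact ((hj v hv hvθ h1.left_mem).symm.trans h4).trans (hj v' hv' hvθ' h1.right_mem)
  · obtain ⟨p, _, q, _, hpq, _⟩ := (h.net.good (c.lev i)).pg.arc θ hθ
    have h1 := (sce_arc_path hpq).joinedIn _ hvθ _ hvθ'
    refine h1.mono (Set.subset_inter ?_ (h.net.Dsub _ θ hθ))
    intro x hx
    exact Or.inr (interior_subset ((sc_so h hA).1 (sc_edge_so h hi hθ hR hθi hx)))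

theorem sc_tau {i : ℕ} (hi : i < c.nc) {θ : Set X} (hθ : θ ∈ c.E (c.lev i)) (hR : θ ⊆ c.R3 i) :
    ∃ τ : X → X, ContinuousOn τ θ ∧ MapsTo τ θ ((⋃₀ c.spE E el ∪ c.Om E) ∩ c.D (c.lev i) θ) ∧
      ∀ v ∈ c.V (c.lev i), v ∈ θ → τ v = v := by
  obtain ⟨p, hp, q, hq, hpq, hV⟩ := (h.net.good (c.lev i)).pg.arc θ hθ
  have hJ := sc_join h hA hl hi hθ hR hp hq hpq.left_mem hpq.right_mem hpq.ne
  obtain ⟨γ, hc, hinj, him, h0, h1⟩ := hpq
  obtain ⟨τ₀, hτc, hτ⟩ := exists_inverse isCompact_Icc hc hinj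
  rw [him] at hτc
  have hext : ∀ t : ℝ, hJ.somePath.extend t ∈ (⋃₀ c.spE E el ∪ c.Om E) ∩ c.D (c.lev i) θ := by
    intro t
    exact hJ.somePath_mem (Set.projIcc 0 1 zero_le_one t)
  refine ⟨fun x => hJ.somePath.extend (τ₀ x), ?_, fun x _ => hext _, ?_⟩
  · exact hJ.somePath.continuous_extend.comp_continuousOn hτc
  · intro v hv hvθ
    have h2 : v ∈ θ ∩ c.V (c.lev i) := ⟨hvθ, hv⟩
    rw [hV] at h2
    rcases h2 with h2 | h2
    · have h3 : τ₀ v = 0 := by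
        rw [h2, ← h0]
        exact hτ 0 ⟨le_refl _, zero_le_one⟩
      show hJ.somePath.extend (τ₀ v) = v
      rw [h3, Path.extend_zero, h2]
    · have h2' : v = q := h2
      have h3 : τ₀ v = 1 := by
        rw [h2', ← h1]
        exact hτ 1 ⟨zero_le_one, le_refl _⟩
      show hJ.somePath.extend (τ₀ v) = v
      rw [h3, Path.extend_one, h2']

end Pool.ETM
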