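/-
Project ETM (MP_c7bb65_an), block SPc (helper31). MODULE ScF: the claim of 7.8 (b).
-/
import Mathlib
import Pool.Agent.ETM.ScA
import Pool.Agent.ETM.ScC
import Pool.Agent.ETM.ScE

set_option autoImplicit false

open Set Metric Topology Filter
open Pool.JS

namespace Pool.ETM

/-- a connected set meeting a set and its complement meets the frontier -/
theorem sc_pf {X : Type*} [TopologicalSpace X] {C t : Set X} (hC : IsPreconnected C) (h1 : (C ∩ t).Nonempty)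
    (h2 : (C ∩ tᶜ).Nonempty) : (C ∩ frontier t).Nonempty := by
  by_contra hcon
  have hsub : C ⊆ interior t ∪ (closure t)ᶜ := by
    intro z hz
    by_cases hzc : z ∈ closure t
    · left
      by_contra hzi
      exact hcon ⟨z, hz, hzc, hzi⟩
    · exact Or.inr hzc
  obtain ⟨p, hpC, hpt⟩ := h1
  obtain ⟨q, hqC, hqt⟩ := h2
  have hp : p ∈ interior t := (hsub hpC).resolve_right (fun h0 => h0 (subset_closure hpt))
  have hq : q ∈ (closure t)ᶜ := (hsub hqC).resolve_left (fun h0 => hqt (interior_subset h0))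
  obtain ⟨z, -, hz1, hz2⟩ := hC _ _ isOpen_interior isClosed_closure.isOpen_compl hsub ⟨p, hpC, hp⟩ ⟨q, hqC, hq⟩
  exact hz2 (subset_closure (interior_subset hz1))

variable {X : Type*} [MetricSpace X] [CompactSpace X] [Sph X] {c : Ctx X} (h : c.Ok) {V : Set X} {E : Set (Set X)}
  (hA : c.Adm c.L1 V E) {Pt : ℕ → Set X → X → Set X} {us : ℕ → Set X → X → X} {el : ℕ → Set X → Set X}
  (hl : ∀ i < c.nc, ∀ θ ∈ c.Eint i, c.Loc i θ V E (Pt i θ) (us i θ) (el i θ))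

include h hA hl

theorem sc_claim {i : ℕ} (hi : i < c.nc) {U : Set X} (hU : U ∈ Fc (c.spE E el)) (hO : Disjoint U (c.Om E)) {x : X}
    (hx : x ∈ U) {F : Set X} (hF : F ∈ c.Face (c.lev i)) (hxF : x ∈ F) (hFA : F ⊆ c.A i) :
    U ⊆ c.DSt (c.lev i) (c.St (c.lev i) F) := by
  classical
  intro y hy
  by_contra hyD
  set k := c.lev i with hk
  set S := c.St k F with hS
  obtain ⟨hScl, hFS, B, hBE, hfr, hB⟩ := sc_star h k hF
  have hSR : S ⊆ c.R3 i := sc_star_R3 h hF hFA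
  have hGk := h.net.good k
  have hyS : y ∉ S := fun hyS => hyD (Or.inl hyS)
  have hyθ : ∀ θ ∈ c.E k, θ ⊆ S → y ∉ c.D k θ := fun θ hθ hθS hyθ =>
    hyD (Or.inr ⟨c.D k θ, ⟨θ, hθ, hθS, rfl⟩, hyθ⟩)
  -- the set `K`
  have hpg := sp_pg h hA hl
  have hKc : IsClosed (⋃₀ c.spE E el ∪ c.Om E) := hpg.isClosed.union (sc_so h hA).2
  have hUK : U ⊆ (⋃₀ c.spE E el ∪ c.Om E)ᶜ := by
    intro z hz hz'
    rcases hz' with hz' | hz'
    · exact hU.sub hz hz'
    · exact Set.disjoint_left.mp hO hz hz'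
  have hcon : ConX (⋃₀ c.spE E el ∪ c.Om E) x y := ⟨U, hU.conn, hUK, hx, hy⟩
  -- the maps
  have hτ : ∀ θ ∈ B, ∃ τ : X → X, ContinuousOn τ θ ∧
      MapsTo τ θ ((⋃₀ c.spE E el ∪ c.Om E) ∩ c.D k θ) ∧ ∀ v ∈ c.V k, v ∈ θ → τ v = v := fun θ hθ =>
    sc_tau h hA hl hi (hBE hθ) ((hB θ hθ).1.trans hSR)
  choose τ₀ hτc₀ hτm₀ hτv₀ using hτ
  let τ : Set X → X → X := fun e => if he : e ∈ B then τ₀ e he else id
  have hτe : ∀ e (he : e ∈ B), τ e = τ₀ e he := fun e he => dif_pos he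
  have hτc : ∀ e ∈ B, ContinuousOn (τ e) e := fun e he => by rw [hτe e he]; exact hτc₀ e he
  have hτm : ∀ e ∈ B, MapsTo (τ e) e ((⋃₀ c.spE E el ∪ c.Om E) ∩ c.D k e) := fun e he => by
    rw [hτe e he]; exact hτm₀ e he
  have hτv : ∀ e ∈ B, ∀ v ∈ c.V k, v ∈ e → τ e v = v := fun e he => by rw [hτe e he]; exact hτv₀ e he
  have hxB : x ∉ ⋃₀ B := by
    rw [← hfr]
    intro hx'
    exact hx'.2 (hFS hxF)
  have hyB : y ∉ ⋃₀ B := by
    rintro ⟨θ, hθ, hyθ'⟩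
    exact hyS ((hB θ hθ).1 hyθ')
  have hres : ConX (⋃₀ B) x y := by
    apply sep_transfer hKc (hUK hx) (hUK hy) hxB hyB (hGk.pg.finE.subset hBE) rfl (c.D k) τ
    · intro e he
      obtain ⟨p, hp, q, hq, harc, -⟩ := hGk.pg.arc e (hBE he)
      exact harc.isCompact.isClosed
    · intro e he
      refine ⟨h.net.Dopen k e (hBE he), h.net.Dsc k e (hBE he), h.net.Dsub k e (hBE he), ?_,
        hyθ e (hBE he) (hB e he).1⟩
      exact fun hx' => Set.disjoint_left.mp (hB e he).2 hxF hx'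
    · intro e he
      exact ⟨hτc e he, hτm e he⟩
    · intro e he e' he' hne b hb
      have hbV : b ∈ c.V k := hGk.pg.inter e (hBE he) e' (hBE he') hne hb
      have h1 := hτv e he b hbV hb.1
      have h2 := hτv e' he' b hbV hb.2
      refine ⟨h1.trans h2.symm, {b}, isPreconnected_singleton, ?_, rfl, h1⟩
      rintro z rfl
      exact ⟨h.net.Dsub k e (hBE he) hb.1, h.net.Dsub k e' (hBE he') hb.2⟩
    · exact hcon
  obtain ⟨C, hC, hCB, hxC, hyC⟩ := hres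
  obtain ⟨z, hzC, hz⟩ := sc_pf hC (t := S) ⟨x, hxC, interior_subset (hFS hxF)⟩ ⟨y, hyC, hyS⟩
  rw [hfr] at hz
  exact hCB hzC hz

end Pool.ETM
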