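/-
Project ETM (MP_c7bb65_an), block SPc (helper31). MODULE ScG: the spliced graph is admissible.
-/
import Mathlib
import Pool.Agent.ETM.ScF
import Pool.Agent.ETM.IfSb

set_option autoImplicit false

open Set Metric Topology Filter
open Pool.JS

namespace Pool.ETM

variable {X : Type*} [MetricSpace X] [CompactSpace X] [Sph X] {c : Ctx X} (h : c.Ok) {V : Set X} {E : Set (Set X)}

include h

omit [CompactSpace X] [Sph X] in
/-- a set which is small at level `n ≥ k + m` is small at level `k` -/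
theorem sc_contr {k n : ℕ} (hn : k + c.m ≤ n) {U : Set X} (hU : IsPreconnected U) (hd : diam (c.f^[n] '' U) < c.η) :
    diam (c.f^[k] '' U) < c.η := by
  have hη := h.expd.pos
  have h1 : c.f^[n - k] '' (c.f^[k] '' U) = c.f^[n] '' U := by
    rw [← image_comp, ← Function.iterate_add, Nat.sub_add_cancel (by omega)]
  have h2 := h.net.contr (n - k) (by omega) (c.f^[k] '' U)
    (hU.image _ (h.dyn.cont.iterate k).continuousOn) (by rw [h1]; exact hd)
  linarith

theorem sc_adm (hA : c.Adm c.L1 V E) {Pt : ℕ → Set X → X → Set X}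
    {us : ℕ → Set X → X → X} {el : ℕ → Set X → Set X}
    (hl : ∀ i < c.nc, ∀ θ ∈ c.Eint i, c.Loc i θ V E (Pt i θ) (us i θ) (el i θ)) :
    c.Adm c.L (c.spV V E) (c.spE E el) := by
  have hpg := sp_pg h hA hl
  have hne := sp_ne h hA hl
  have hnc := splice_nocut h hA hl
  obtain ⟨hfin, hdisc, -⟩ := hpg.faces hne hnc
  refine ⟨⟨hpg, hne, sp_val h hA hl, sp_simple h hA hl, hfin, fun U hU => (hdisc U hU).1⟩, sp_avoid h hA hl, ?_⟩
  intro U hU x hx
  rcases sc_faces h hA hl hU with hUs | ⟨hO, hpc⟩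
  · -- faces of the fine graph
    have hUF : U ∈ Fc E := hUs.1
    by_cases hxO : x ∈ c.OO
    · rcases hxO with hxA | hxT
      · simp only [mem_iUnion] at hxA
        obtain ⟨i, hi, hxi⟩ := hxA
        rw [lv_in h hi hxi]
        have hpos : 0 < c.a i x := by
          have h1 := (lv_A h hi).2.2.1 x (interior_subset hxi)
          have h2 := h.mark.wpos
          linarith
        exact sc_contr h (lv_pos h hi hpos) hUF.conn (hA.fi U hUF x hx)
      · rw [lv_hole h hxT]
        obtain ⟨y, hy, hyS⟩ := hUs.2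
        have hyT : y ∉ c.OT := fun h0 => hyS (Or.inr h0)
        obtain ⟨z, hzU, hz⟩ := sc_pf hUF.conn.closure (t := c.OT) ⟨x, hx, hxT⟩ ⟨y, hy, hyT⟩
        have hz' : z ∈ frontier (c.T c.nhole) := frontier_interior_subset hz
        obtain ⟨hzZ, hzδ⟩ := (lv_T h).2.2.1 hz'
        have h1 := lv_rim h hzZ (by rw [hzδ]; linarith) (by rw [hzδ]; linarith)
        exact sc_contr h h1 hUF.conn (hA.fi U hUF z hzU)
    · rw [lv_out h hxO]
      exact hA.fi U hUF x hx
  · rcases hpc with ⟨i, hi, hUA⟩ | ⟨z, hz, hUz, hUT⟩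
    · rw [lv_in h hi (hUA hx)]
      obtain ⟨u, hu⟩ := hU.ne
      have huA : u ∈ c.A i := interior_subset (hUA (subset_closure hu))
      obtain ⟨F, ⟨hF, hFw⟩, huF⟩ := huA
      have hFA : F ⊆ c.A i := fun p hp => ⟨F, ⟨hF, hFw⟩, hp⟩
      have h1 := sc_claim h hA hl hi hU hO hu hF huF hFA
      have h2 := sc_star_small h (c.lev i) hF
      refine lt_of_le_of_lt (diam_mono (image_mono h1) ?_) h2
      exact isCompact_univ.isBounded.subset (subset_univ _)
    · rw [lv_hole h (hUT hx)]
      have h1 := (lv_T h).2.2.2.2 z hz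
      refine lt_of_le_of_lt (diam_mono (image_mono (subset_closure.trans hUz)) ?_) h1
      exact isCompact_univ.isBounded.subset (subset_univ _)

end Pool.ETM
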