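/-
Project ETM (MP_c7bb65_an), block SPc: the interface name `splice_adm`.
-/
import Mathlib
import Pool.Agent.ETM.ScG

set_option autoImplicit false

open Set Metric Topology Filter
open Pool.JS

namespace Pool.ETM

variable {X : Type*} [MetricSpace X] [CompactSpace X] [Sph X]

section

variable {c : Ctx X} (h : c.Ok)

include h

theorem splice_adm {V : Set X} {E : Set (Set X)} (hA : c.Adm c.L1 V E) {Pt : ℕ → Set X → X → Set X}
    {us : ℕ → Set X → X → X} {el : ℕ → Set X → Set X}
    (hl : ∀ i < c.nc, ∀ θ ∈ c.Eint i, c.Loc i θ V E (Pt i θ) (us i θ) (el i θ)) :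
    c.Adm c.L (c.spV V E) (c.spE E el) :=
  sc_adm h hA hl

end

end Pool.ETM
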