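/-
Project ETM (MP_c7bb65_an), block SPc: the interface name `splice_faces`.
-/
import Mathlib
import Pool.Agent.ETM.ScC

set_option autoImplicit false

open Set Metric Topology Filter
open Pool.JS

namespace Pool.ETM

variable {X : Type*} [MetricSpace X] [CompactSpace X] [Sph X]

section

variable {c : Ctx X} (h : c.Ok)

include h

/-- 7.7: the faces of the spliced graph -/
theorem splice_faces {V : Set X} {E : Set (Set X)} (hA : c.Adm c.L1 V E) {Pt : ℕ → Set X → X → Set X}
    {us : ℕ → Set X → X → X} {el : ℕ → Set X → Set X}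
    (hl : ∀ i < c.nc, ∀ θ ∈ c.Eint i, c.Loc i θ V E (Pt i θ) (us i θ) (el i θ)) {U : Set X}
    (hU : U ∈ Fc (c.spE E el)) : U ∈ c.Us E ∨ (Disjoint U (c.Om E) ∧
      ((∃ i < c.nc, closure U ⊆ interior (c.A i)) ∨ ∃ z ∈ c.Z, closure U ⊆ c.Tz c.nhole z ∧ closure U ⊆ c.OT)) :=
  sc_faces h hA hl hU

end

end Pool.ETM
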