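/-
Project ETM (MP_c7bb65_an). Block SPc: K_shallow, K_deep, splice_faces, splice_adm.
-/
import Pool.Agent.ETM.ScH1
import Pool.Agent.ETM.ScH2
import Pool.Agent.ETM.ScH
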