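/-
Project ETM (MP_c7bb65_an), block SEP (section 11 of /team-store/c7bb65_proof.md).
MODULE SeA.  The image of the fixed graph under the shadowing map is a good graph, invariant under `f`, disjoint from `P`.
-/
import Mathlib
import Pool.Agent.ETM.SpDefs
import Pool.Agent.ETM.Bridge

set_option autoImplicit false

open Set Metric Topology Filter
open Pool.JS

namespace Pool.ETM

section top

variable {X : Type*} [TopologicalSpace X] [CompactSpace X] [T2Space X] [Sph X] {V : Set X} {E : Set (Set X)} {g : X → X}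

omit [TopologicalSpace X] [CompactSpace X] [T2Space X] [Sph X] in
theorem se_union (E : Set (Set X)) (g : X → X) : ⋃₀ ((fun e => g '' e) '' E) = g '' ⋃₀ E := by
  rw [image_sUnion]

theorem se_noCut (hG : PG V E) (hne : E.Nonempty) (hn : NoCut (⋃₀ E)) (hc : ContinuousOn g (⋃₀ E))
    (hi : InjOn g (⋃₀ E)) : NoCut (g '' ⋃₀ E) := by
  intro x
  by_cases hx : x ∈ g '' ⋃₀ E
  · obtain ⟨x₀, hx₀, rfl⟩ := hx
    have h1 : g '' ⋃₀ E \ {g x₀} = g '' (⋃₀ E \ {x₀}) := by
      ext y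
      constructor
      · rintro ⟨⟨z, hz, rfl⟩, hne'⟩
        exact ⟨z, ⟨hz, fun h => hne' (by rw [mem_singleton_iff.mp h]; exact rfl)⟩, rfl⟩
      · rintro ⟨z, ⟨hz, hne'⟩, rfl⟩
        exact ⟨⟨z, hz, rfl⟩, fun h => hne' (hi hz hx₀ h)⟩
    rw [h1]
    exact (hn x₀).image _ (hc.mono sdiff_subset)
  · have hex : ∃ x₀, x₀ ∉ ⋃₀ E := by
      by_contra hall
      push Not at hall
      obtain ⟨e, he⟩ := hne
      obtain ⟨p, hp, q, hq, harc, _⟩ := hG.arc e he
      have h2 : interior (⋃₀ E) = univ := by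
        rw [eq_univ_of_forall hall, interior_univ]
      rw [hG.interior_eq] at h2
      exact (h2 ▸ mem_univ p : p ∈ (∅ : Set X))
    obtain ⟨x₀, hx₀⟩ := hex
    rw [sdiff_singleton_eq_self hx]
    have h3 := hn x₀
    rw [sdiff_singleton_eq_self hx₀] at h3
    exact h3.image _ hc

/-- an injective continuous image of a good graph is a good graph -/
theorem se_good (hG : Good V E) (hc : ContinuousOn g (⋃₀ E)) (hi : InjOn g (⋃₀ E)) :
    Good (g '' V) ((fun e => g '' e) '' E) := by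
  have hsub : ∀ e ∈ E, e ⊆ ⋃₀ E := fun e he => subset_sUnion_of_mem he
  have hVs : V ⊆ ⋃₀ E := hG.pg.subV
  have hpg : PG (g '' V) ((fun e => g '' e) '' E) := by
    refine ⟨⟨hG.pg.finV.image _, hG.pg.finE.image _, ?_, ?_⟩, ?_⟩
    · rintro _ ⟨e, he, rfl⟩
      obtain ⟨p, hp, q, hq, harc, hV⟩ := hG.pg.arc e he
      refine ⟨g p, mem_image_of_mem _ hp, g q, mem_image_of_mem _ hq, harc.image (hc.mono (hsub e he)) (hi.mono (hsub e he)), ?_⟩
      show g '' e ∩ g '' V = {g p, g q}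
      rw [← hi.image_inter (hsub e he) hVs, hV, image_pair]
    · rintro _ ⟨e, he, rfl⟩ _ ⟨e', he', rfl⟩ hne
      show g '' e ∩ g '' e' ⊆ g '' V
      rw [← hi.image_inter (hsub e he) (hsub e' he')]
      exact image_mono (hG.pg.inter e he e' he' fun h => hne (by rw [h]))
    · rintro _ ⟨v, hv, rfl⟩
      obtain ⟨e, he, hve⟩ := hG.pg.vert v hv
      exact ⟨g '' e, ⟨e, he, rfl⟩, mem_image_of_mem _ hve⟩
  have hne : ((fun e => g '' e) '' E).Nonempty := hG.ne.image _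
  have hn : NoCut (⋃₀ ((fun e => g '' e) '' E)) := by
    rw [se_union]
    exact se_noCut hG.pg hG.ne (noCut_of_discs hG.pg hG.disc) hc hi
  obtain ⟨h1, h2, -⟩ := hpg.faces hne hn
  refine ⟨hpg, hne, ?_, ?_, h1, fun U hU => (h2 U hU).1⟩
  · rintro _ ⟨v, hv, rfl⟩
    have h3 : {e | e ∈ (fun e => g '' e) '' E ∧ g v ∈ e} ⊆ (fun e => g '' e) '' {e | e ∈ E ∧ v ∈ e} := by
      rintro _ ⟨⟨e, he, rfl⟩, y, hy, hyv⟩
      refine ⟨e, ⟨he, ?_⟩, rfl⟩
      rw [← hi (hsub e he hy) (hVs hv) hyv]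
      exact hy
    have hfin : {e | e ∈ E ∧ v ∈ e}.Finite := hG.pg.finE.subset fun e he => he.1
    exact (ncard_le_ncard h3 (hfin.image _)).trans ((ncard_image_le hfin).trans (hG.val v hv))
  · rintro _ ⟨e, he, rfl⟩ _ ⟨e', he', rfl⟩ heq
    have h4 : g '' (e ∩ V) = g '' (e' ∩ V) := by
      rw [hi.image_inter (hsub e he) hVs, hi.image_inter (hsub e' he') hVs]
      exact heq
    have h5 : e ∩ V = e' ∩ V :=
      (hi.image_eq_image_iff (inter_subset_left.trans (hsub e he)) (inter_subset_left.trans (hsub e' he'))).mp h4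
    rw [hG.simple e he e' he' h5]

end top

variable {X : Type*} [MetricSpace X] [CompactSpace X] [Sph X] {c : Ctx X} {Pt : ℕ → Set X → X → Set X}
    {us : ℕ → Set X → X → X} {el : ℕ → Set X → Set X} {V : Set X} {E : Set (Set X)} {φ : X → X}
    {path : Set X → Set (Set X)} {r : Set X → ℕ} {π : Set X → X → ℝ} {D Db : Set X → Set X} {lv : Set X → ℕ} {g : X → X}

theorem se_fphi (hP : c.Push el V E φ path r π) {x : X} (hx : x ∈ ⋃₀ E) : c.f (φ x) ∈ ⋃₀ E := by
  obtain ⟨e, he, hxe⟩ := hx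
  have h1 : φ x ∈ ⋃₀ path e := by
    rw [← hP.path_img e he]
    exact mem_image_of_mem _ hxe
  obtain ⟨e', he', hxe'⟩ := h1
  obtain ⟨e₁, he₁, hc⟩ := hP.path_sub e he he'
  have h2 : φ x ∈ (c.f ⁻¹' e₁)ᶜᶜ := FaceX.sub hc hxe'
  rw [compl_compl] at h2
  exact ⟨e₁, he₁, h2⟩

theorem se_mapG (hP : c.Push el V E φ path r π) (hS : c.Shad E φ D Db lv g) :
    MapsTo c.f (⋃₀ ((fun e => g '' e) '' E)) (⋃₀ ((fun e => g '' e) '' E)) := by
  rw [se_union]
  rintro _ ⟨x, hx, rfl⟩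
  rw [hS.conj x hx]
  exact mem_image_of_mem _ (se_fphi hP hx)

theorem se_mapV (hG : Good V E) (hP : c.Push el V E φ path r π) (hS : c.Shad E φ D Db lv g) :
    MapsTo c.f (g '' V) (g '' V) := by
  rintro _ ⟨v, hv, rfl⟩
  rw [hS.conj v (hG.pg.subV hv)]
  exact mem_image_of_mem _ (hP.mapV v hv)

theorem se_memD (hS : c.Shad E φ D Db lv g) {e : Set X} (he : e ∈ E) {x : X} (hx : x ∈ e) : g x ∈ D e :=
  (hS.sub e he).2 (hS.hmem e he x hx)

theorem se_avoid (hS : c.Shad E φ D Db lv g) : Disjoint (⋃₀ ((fun e => g '' e) '' E)) c.P := by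
  rw [se_union, Set.disjoint_left]
  rintro _ ⟨x, ⟨e, he, hx⟩, rfl⟩
  exact Set.disjoint_left.mp (hS.Davoid e he) (se_memD hS he hx)

end Pool.ETM
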