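/-
Project ETM (MP_c7bb65_an), block SPa2 (7.0 of /team-store/c7bb65_proof.md).
MODULE SrB.  `adm_one`: faces of admissible graphs contain at most one point of `P`; `adm_pull`: the pull back of an admissible graph is
admissible_1; `adm_start`: a network of high level is admissible.
-/
import Mathlib
import Pool.Agent.ETM.Bridge
import Pool.Agent.ETM.IfLe
import Pool.Agent.ETM.IfLv

set_option autoImplicit false

open Set Metric Topology Filter
open Pool.JS

namespace Pool.ETM

variable {X : Type*} [MetricSpace X] [CompactSpace X] [Sph X] {c : Ctx X} (h : c.Ok)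

include h

theorem sr_iter_P (n : ℕ) {x : X} (hx : x ∈ c.P) : c.f^[n] x ∈ c.P := h.dyn.mapsP.iterate n hx

private theorem srb_diam {k : ℕ} {F : Set X} (hF : F ∈ c.Face k) : diam (c.f^[k] '' F) < c.η := by
  obtain ⟨U, hU, rfl⟩ := hF
  obtain ⟨y, hy⟩ := FaceX.ne hU
  have hF : closure U ∈ c.Face k := ⟨U, hU, rfl⟩
  have h0 := subset_closure hy
  have h1 : closure U ⊆ c.St k (closure U) :=
    subset_sUnion_of_mem (show closure U ∈ {F | F ∈ c.Face k ∧ (F ∩ closure U).Nonempty} from ⟨hF, ⟨y, h0, h0⟩⟩)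
  have h2 : closure U ⊆ c.St k (c.St k (closure U)) :=
    subset_sUnion_of_mem (show closure U ∈ {F | F ∈ c.Face k ∧ (F ∩ c.St k (closure U)).Nonempty} from
      ⟨hF, ⟨y, h0, h1 h0⟩⟩)
  refine lt_of_le_of_lt (diam_mono (image_mono ?_) isBounded_of_compactSpace) (h.net.star k _ hF)
  exact h2.trans subset_union_left

/-- 7.0 -/
theorem adm_one {ℓ : X → ℕ} {V : Set X} {E : Set (Set X)} (hA : c.Adm ℓ V E) : ∀ U ∈ Fc E, (U ∩ c.P).Subsingleton := by
  intro U hU
  obtain ⟨x, hx⟩ := hU.ne
  refine (h.expd.uv (ℓ x) U hU.conn (hA.fi U hU x (subset_closure hx))).anti ?_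
  exact inter_subset_inter_right _ fun y hy => sr_iter_P h _ hy

/-- 7.0: the pull back of an admissible graph -/
theorem adm_pull {V : Set X} {E : Set (Set X)} (hA : c.Adm c.L V E) : c.Adm c.L1 (c.f ⁻¹' V) (pullE c.f E) := by
  obtain ⟨h1, h2, h3⟩ := pull_good h.dyn hA.good hA.avoid (adm_one h hA)
  refine ⟨h1, ?_, fun U hU x hx => ?_⟩
  · rw [h2, Set.disjoint_left]
    exact fun x hx hxP => Set.disjoint_left.mp hA.avoid hx (h.dyn.mapsP hxP)
  · obtain ⟨W, hW, hUW⟩ := (h3 U).mp hU
    have hsub : U ⊆ c.f ⁻¹' W := by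
      have := hUW.sub
      rwa [compl_compl] at this
    have hxW : c.f x ∈ closure W := by
      have h4 := image_closure_subset_closure_image h.dyn.cont (s := U) (mem_image_of_mem _ hx)
      exact closure_mono (image_subset_iff.mpr hsub) h4
    have h5 := hA.fi W hW (c.f x) hxW
    refine lt_of_le_of_lt (diam_mono ?_ isBounded_of_compactSpace) h5
    rintro _ ⟨y, hy, rfl⟩
    refine ⟨c.f y, hsub hy, ?_⟩
    show c.f^[c.L (c.f x)] (c.f y) = c.f^[c.L1 x] y
    rw [Ctx.L1, Nat.add_comm, Function.iterate_succ_apply]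

/-- 7.0: networks of high level are admissible -/
theorem adm_level {κ : ℕ} (hκ : ∀ x, c.L x + c.m ≤ κ) : c.Adm c.L (c.V κ) (c.E κ) := by
  refine ⟨h.net.good κ, ?_, fun U hU x _ => ?_⟩
  · exact (h.net.avoid κ).mono_right fun y hy => sr_iter_P h _ hy
  · have hF : closure U ∈ c.Face κ := ⟨U, hU, rfl⟩
    have h1 : diam (c.f^[κ] '' U) < c.η :=
      lt_of_le_of_lt (diam_mono (image_mono subset_closure) isBounded_of_compactSpace) (srb_diam h hF)
    have h2 : c.f^[κ - c.L x] '' (c.f^[c.L x] '' U) = c.f^[κ] '' U := by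
      rw [← image_comp, ← Function.iterate_add, Nat.sub_add_cancel ((Nat.le_add_right _ _).trans (hκ x))]
    have hC : IsPreconnected (c.f^[c.L x] '' U) := hU.conn.image _ (h.dyn.cont.iterate _).continuousOn
    have h3 := h.net.contr (κ - c.L x) (by have := hκ x; omega) _ hC (by rw [h2]; exact h1)
    have hη := h.expd.pos
    linarith

/-- 7.0: the start graph -/
theorem adm_start : ∃ κ : ℕ, c.Adm c.L (c.V κ) (c.E κ) := by
  obtain ⟨B, hB⟩ := lv_bound h
  exact ⟨B + c.m, adm_level h fun x => Nat.add_le_add_right (hB x) _⟩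

end Pool.ETM
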