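/-
Project ETM (MP_c7bb65_an), block SEP (section 11 of /team-store/c7bb65_proof.md).
MODULE SeB.  11.1 (separation is transferred from `J` to `g '' J`) and 11.2 (faces contain at most one point of `P`).
-/
import Mathlib
import Pool.Agent.ETM.SeA
import Pool.Agent.ETM.ScA
import Pool.Agent.ETM.SrB

set_option autoImplicit false

open Set Metric Topology Filter
open Pool.JS

namespace Pool.ETM

variable {X : Type*} [MetricSpace X] [CompactSpace X] [Sph X] {c : Ctx X} {V : Set X} {E : Set (Set X)} {φ : X → X}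
    {D Db : Set X → Set X} {lv : Set X → ℕ} {g : X → X}

/-- 11.1 -/
theorem se_transfer (hG : PG V E) (hS : c.Shad E φ D Db lv g) {I : Set (Set X)} (hI : I ⊆ E) {x y : X}
    (hx : ∀ e ∈ I, x ∉ D e) (hy : ∀ e ∈ I, y ∉ D e) (h : ConX (g '' ⋃₀ I) x y) : ConX (⋃₀ I) x y := by
  have hsub : ∀ e ∈ I, e ⊆ D e := fun e he => (hS.sub e (hI he)).1.trans (hS.sub e (hI he)).2
  have hout : ∀ z, (∀ e ∈ I, z ∉ D e) → z ∉ ⋃₀ I ∧ z ∉ g '' ⋃₀ I := by
    intro z hz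
    constructor
    · rintro ⟨e, he, hze⟩
      exact hz e he (hsub e he hze)
    · rintro ⟨w, ⟨e, he, hwe⟩, rfl⟩
      exact hz e he (se_memD hS (hI he) hwe)
  have hIc : IsClosed (⋃₀ I) := hG.isClosed_sUnion hI
  have hgI : ContinuousOn g (⋃₀ I) := hS.hcont.mono (sUnion_subset_sUnion hI)
  have hKc : IsClosed (g '' ⋃₀ I) := (hIc.isCompact.image_of_continuousOn hgI).isClosed
  refine sep_transfer (K := g '' ⋃₀ I) hKc (hout x hx).2 (hout y hy).2 (hout x hx).1 (hout y hy).1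
    (hG.finE.subset hI) rfl D (fun _ => g) ?_ ?_ ?_ ?_ h
  · intro e he
    obtain ⟨p, _, q, _, harc, _⟩ := hG.arc e (hI he)
    exact harc.isCompact.isClosed
  · exact fun e he => ⟨hS.Dopen e (hI he), hS.Dsc e (hI he), hsub e he, hx e he, hy e he⟩
  · exact fun e he => ⟨hS.hcont.mono (subset_sUnion_of_mem (hI he)), fun z hz =>
      ⟨mem_image_of_mem _ ⟨e, he, hz⟩, se_memD hS (hI he) hz⟩⟩
  · rintro e he e' he' hne b ⟨hb, hb'⟩
    refine ⟨rfl, ?_⟩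
    obtain ⟨C, h1, h2, h3, h4⟩ := hS.cp e (hI he) e' (hI he') hne b ⟨hb, hb'⟩ (g b)
      ⟨hS.hmem e (hI he) b hb, hS.hmem e' (hI he') b hb'⟩
    exact ⟨C, h1, h2, h4, h3⟩

/-- 11.2 -/
theorem se_one (h : c.Ok) {ℓ : X → ℕ} (hA : c.Adm ℓ V E) (hS : c.Shad E φ D Db lv g) :
    ∀ U ∈ Fc ((fun e => g '' e) '' E), (U ∩ c.P).Subsingleton := by
  rintro U hU x ⟨hxU, hxP⟩ y ⟨hyU, hyP⟩
  have hD : ∀ z ∈ c.P, ∀ e ∈ E, z ∉ D e := fun z hz e he hzD => Set.disjoint_left.mp (hS.Davoid e he) hzD hz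
  have h1 : ConX (g '' ⋃₀ E) x y := by
    refine ⟨U, FaceX.conn hU, ?_, hxU, hyU⟩
    rw [← se_union]
    exact FaceX.sub hU
  obtain ⟨C, hC, hCE, hxC, hyC⟩ := se_transfer hA.good.pg hS subset_rfl (hD x hxP) (hD y hyP) h1
  have hx : x ∉ ⋃₀ E := hCE hxC
  have hsub : C ⊆ fce E x := hC.subset_connectedComponentIn hxC hCE
  exact adm_one h hA (fce E x) (fce_mem hx) ⟨hsub hxC, hxP⟩ ⟨hsub hyC, hyP⟩

end Pool.ETM
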