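/-
Project ETM (MP_c7bb65_an), block SEP (section 11 of /team-store/c7bb65_proof.md).
MODULE SeC.  11.3: the face of the fixed graph which contains a periodic point `z` of `P` is compactly inside the hole around `z`.
-/
import Mathlib
import Pool.Agent.ETM.Bridge
import Pool.Agent.ETM.IfLe
import Pool.Agent.ETM.IfLv
import Pool.Agent.ETM.ScH1
import Pool.Agent.ETM.ScH2
import Pool.Agent.ETM.LeC
import Pool.Agent.ETM.SrB

set_option autoImplicit false

open Set Metric Topology Filter
open Pool.JS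

namespace Pool.ETM

variable {X : Type*} [MetricSpace X] [CompactSpace X] [Sph X] {c : Ctx X} (h : c.Ok)

/-- the periodic points of `P` -/
def SePc (c : Ctx X) (z : X) : Prop := z ∈ c.P ∧ ∃ j, 1 ≤ j ∧ c.f^[j] z = z

include h

omit [CompactSpace X] [Sph X] in
theorem se_pc_Z {z : X} (hz : SePc c z) : z ∈ c.Z := h.dep.dep.perP z hz.1 hz.2

omit [CompactSpace X] [Sph X] in
theorem se_pc_next {z : X} (hz : SePc c z) : SePc c (c.f z) := by
  refine ⟨h.dyn.mapsP hz.1, ?_⟩
  obtain ⟨j, hj, hjz⟩ := hz.2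
  refine ⟨j, hj, ?_⟩
  rw [← Function.iterate_succ_apply, Function.iterate_succ_apply', hjz]

omit [CompactSpace X] [Sph X] in
theorem se_pc_iter {z : X} (hz : SePc c z) (n : ℕ) : SePc c (c.f^[n] z) := by
  induction n with
  | zero => exact hz
  | succ n ih =>
    rw [Function.iterate_succ_apply']
    exact se_pc_next h ih

omit [CompactSpace X] [Sph X] in
/-- 4.3a at a point of `Z`: if `f '' C` has depth at least `t > 0` then `C` has depth at least `t + 1` -/
theorem se_step {t : ℝ} (ht : 0 < t) {C : Set X} (hC : IsPreconnected C) {z : X} (hz : z ∈ c.Z) (hzC : z ∈ C)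
    (hf : ∀ y ∈ C, c.f y ∈ c.Z ∨ t ≤ c.δ (c.f y)) : ∀ y ∈ C, y ∈ c.Z ∨ t + 1 ≤ c.δ y := by
  have h1 : C ⊆ TT c.Z c.δ 1 := h.dep.dep.clop C hC ⟨z, hzC, Or.inl hz⟩ fun y hy => (hf y hy).imp id fun h2 => by linarith
  intro y hy
  by_cases hyZ : y ∈ c.Z
  · exact Or.inl hyZ
  · right
    have h2 : 1 ≤ c.δ y := by
      rcases h1 hy with h3 | h3
      · exact absurd h3 hyZ
      · exact h3
    obtain ⟨h3, h4⟩ := h.dep.dep.step y hyZ h2
    rcases hf y hy with h5 | h5
    · exact absurd h5 h3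
    · linarith

variable {Pt : ℕ → Set X → X → Set X} {us : ℕ → Set X → X → X} {el : ℕ → Set X → Set X} {V : Set X} {E : Set (Set X)}

omit [CompactSpace X] [Sph X] h in
theorem se_notin {ℓ : X → ℕ} (hA : c.Adm ℓ V E) {z : X} (hz : SePc c z) : z ∉ ⋃₀ E := fun h1 =>
  Set.disjoint_left.mp hA.avoid h1 hz.1

theorem se_nhole_pos : 1 ≤ c.nhole := by
  have h1 := h.mark.k0big
  unfold Ctx.nhole Ctx.kT
  omega

/-- the alternative for the face of `z` -/
theorem se_alt (hF : c.Fix Pt us el V E) {z : X} (hz : SePc c z) :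
    (closure (fce E z) ⊆ c.Tz c.nhole z ∧ closure (fce E z) ⊆ c.OT) ∨ fce E z ∈ c.Us (pullE c.f E) := by
  have hzE := se_notin hF.adm hz
  have hU : fce E z ∈ Fc (c.spE (pullE c.f E) el) := by
    rw [← hF.spl.hE]
    exact fce_mem hzE
  have hzU : z ∈ closure (fce E z) := subset_closure (mem_fce hzE)
  have hzZ := se_pc_Z h hz
  rcases splice_faces h hF.adm1 hF.spl.loc hU with h1 | ⟨_, ⟨i, hi, h2⟩ | ⟨z', hz', h2, h3⟩⟩
  · exact Or.inr h1
  · exfalso
    have h4 := (lv_A h hi).2.2.1 z (interior_subset (h2 hzU))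
    have hw := h.mark.wpos
    exact (h.mark.depth i hi z (by linarith)).1 hzZ
  · left
    have h4 : z = z' := by
      by_contra hne
      have h5 := h.dep.dep.disj c.nhole (se_nhole_pos h) z hzZ z' hz' hne
      exact Set.disjoint_left.mp h5 (mem_connectedComponentIn (Or.inl hzZ)) (h2 hzU)
    rw [h4]
    rw [h4] at h2 h3
    exact ⟨h2, h3⟩

/-- if the face of `z` touches the outer region, it is mapped into the face of `f z` and this face is not in the hole -/
theorem se_us (hF : c.Fix Pt us el V E) {z : X} (hz : SePc c z) (hU : fce E z ∈ c.Us (pullE c.f E)) :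
    c.f '' fce E z ⊆ fce E (c.f z) ∧ ¬ closure (fce E (c.f z)) ⊆ c.Tz c.nhole (c.f z) := by
  have hzE := se_notin hF.adm hz
  obtain ⟨_, _, h3⟩ := pull_good h.dyn hF.adm.good hF.adm.avoid (adm_one h hF.adm)
  obtain ⟨W, hW, hUW⟩ := (h3 _).mp hU.1
  have hsub : fce E z ⊆ c.f ⁻¹' W := by
    have := FaceX.sub hUW
    rwa [compl_compl] at this
  have hWe : W = fce E (c.f z) := Fc.eq_fce hW (hsub (mem_fce hzE))
  rw [hWe] at hsub
  refine ⟨image_subset_iff.mpr hsub, fun hT => ?_⟩
  have hC : IsPreconnected (closure (fce E z)) := (FaceX.conn (fce_mem hzE)).closure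
  have himg : ∀ y ∈ closure (fce E z), c.f y ∈ c.Z ∨ (c.nhole : ℝ) ≤ c.δ (c.f y) := by
    intro y hy
    have h4 : c.f y ∈ closure (fce E (c.f z)) :=
      closure_mono (image_subset_iff.mpr hsub) (image_closure_subset_closure_image h.dyn.cont (mem_image_of_mem _ hy))
    have h7 : c.f y ∈ c.T c.nhole := connectedComponentIn_subset _ _ (hT h4)
    exact h7
  have hpos : (0 : ℝ) < c.nhole := by
    have := se_nhole_pos h
    exact_mod_cast this
  have h5 := se_step h hpos hC (se_pc_Z h hz) (subset_closure (mem_fce hzE)) himg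
  obtain ⟨x, hx, hxo⟩ := hU.2
  apply hxo
  right
  apply (lv_T h).2.2.2.1
  rcases h5 x hx with h6 | h6
  · exact Or.inr h6
  · left
    show (c.nhole : ℝ) < c.δ x
    linarith

theorem se_iter (hF : c.Fix Pt us el V E) {z : X} (hz : SePc c z) (hU : fce E z ∈ c.Us (pullE c.f E)) (n : ℕ) :
    fce E (c.f^[n] z) ∈ c.Us (pullE c.f E) ∧ c.f^[n] '' fce E z ⊆ fce E (c.f^[n] z) := by
  induction n with
  | zero => exact ⟨hU, by simp⟩
  | succ n ih =>
    have hzn := se_pc_iter h hz n
    obtain ⟨h1, h2⟩ := se_us h hF hzn ih.1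
    rw [Function.iterate_succ_apply']
    refine ⟨?_, ?_⟩
    · rcases se_alt h hF (se_pc_next h hzn) with h3 | h3
      · exact absurd h3.1 h2
      · exact h3
    · rw [Function.iterate_succ', image_comp]
      exact (image_mono ih.2).trans h1

/-- 11.3 -/
theorem se_hole (hF : c.Fix Pt us el V E) {z : X} (hz : SePc c z) :
    closure (fce E z) ⊆ c.Tz c.nhole z ∧ closure (fce E z) ⊆ c.OT := by
  rcases se_alt h hF hz with h1 | hU
  · exact h1
  · exfalso
    have hzE := se_notin hF.adm hz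
    have hface := fce_mem hzE
    have hd : ∀ ρ : ℝ, 0 < ρ → diam (fce E z) < ρ := by
      intro ρ hρ
      obtain ⟨m₀, hm₀⟩ := h.expd.contr ρ hρ
      have hzn := se_pc_iter h hz m₀
      have hmem := mem_fce (se_notin hF.adm hzn)
      have h2 := hF.adm.fi _ (fce_mem (se_notin hF.adm hzn)) _ (subset_closure hmem)
      refine hm₀ (c.L (c.f^[m₀] z) + m₀) (Nat.le_add_left _ _) _ (FaceX.conn hface) ?_
      refine lt_of_le_of_lt (diam_mono ?_ isBounded_of_compactSpace) h2
      rw [Function.iterate_add, image_comp]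
      exact image_mono (se_iter h hF hz hU m₀).2
    have hsub : (fce E z).Subsingleton := by
      intro x hx y hy
      by_contra hne
      have h3 := hd (dist x y) (dist_pos.mpr hne)
      exact absurd (dist_le_diam_of_mem isBounded_of_compactSpace hx hy) (not_le.mpr h3)
    exact sph_infinite (Fc.isOpen hF.adm.good.pg hface) (FaceX.ne hface) hsub.finite

end Pool.ETM
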