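/-
Project ETM (MP_c7bb65_an), block SEP (section 11 of /team-store/c7bb65_proof.md).
MODULE SeD.  11.4: the face of the invariant graph which contains a periodic point of `P` is deep, the graph is not.
-/
import Mathlib
import Pool.Agent.ETM.SeA
import Pool.Agent.ETM.SeB
import Pool.Agent.ETM.SeC

set_option autoImplicit false

open Set Metric Topology Filter
open Pool.JS

namespace Pool.ETM

variable {X : Type*} [MetricSpace X] [CompactSpace X] [Sph X] {c : Ctx X} (h : c.Ok)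

include h

variable {Pt : ℕ → Set X → X → Set X} {us : ℕ → Set X → X → X} {el : ℕ → Set X → Set X} {V : Set X} {E : Set (Set X)}
  {φ : X → X} {D Db : Set X → Set X} {lv : Set X → ℕ} {g : X → X}

/-- closed superlevel sets -/
theorem se_closed (t : ℝ) : IsClosed {x | x ∈ c.Z ∨ t ≤ c.δ x} := by
  have h1 : IsOpen ((c.Z)ᶜ ∩ c.δ ⁻¹' Iio t) :=
    h.dep.dep.cont.isOpen_inter_preimage h.dep.dep.finZ.isClosed.isOpen_compl isOpen_Iio
  have h2 : {x | x ∈ c.Z ∨ t ≤ c.δ x} = ((c.Z)ᶜ ∩ c.δ ⁻¹' Iio t)ᶜ := by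
    ext x
    simp only [mem_setOf_eq, mem_compl_iff, mem_inter_iff, mem_preimage, mem_Iio, not_and, not_not, not_lt]
    tauto
  rw [h2]
  exact h1.isClosed_compl

/-- 10.6: the graph is not deep -/
theorem se_shallow (hS : c.Shad E φ D Db lv g) {x : X} (hx : x ∈ g '' ⋃₀ E) :
    x ∉ c.Z ∧ c.δ x < c.nhole + 3 / 16 := by
  obtain ⟨y, ⟨e, he, hy⟩, rfl⟩ := hx
  obtain ⟨h1, h2, h3⟩ := hS.deep e he y hy
  obtain ⟨h4, h5⟩ := h3 (g y) (se_memD hS he hy)
  refine ⟨h4, ?_⟩
  have := (abs_lt.mp h5).2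
  linarith

/-- 11.4, first part -/
theorem se_deep (hF : c.Fix Pt us el V E) (hS : c.Shad E φ D Db lv g) {z : X} (hz : SePc c z) :
    ∀ y ∈ fce ((fun e => g '' e) '' E) z, y ∈ c.Z ∨ (c.nhole : ℝ) - 1 / 4 < c.δ y := by
  have hzZ := se_pc_Z h hz
  have hzG : z ∉ ⋃₀ ((fun e => g '' e) '' E) := fun h1 => Set.disjoint_left.mp (se_avoid hS) h1 hz.1
  have hU := fce_mem hzG
  have hzU := mem_fce hzG
  intro y hy
  by_contra hcon
  push Not at hcon
  obtain ⟨hyZ, hyd⟩ := hcon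
  -- a point of depth exactly `nhole - 1/4`
  have hq : ∃ q ∈ fce ((fun e => g '' e) '' E) z, q ∉ c.Z ∧ c.δ q = (c.nhole : ℝ) - 1 / 4 := by
    by_contra hno
    push Not at hno
    have ho1 : IsOpen (c.Z ∪ {x | (c.nhole : ℝ) - 1 / 4 < c.δ x}) := h.dep.dep.openT _
    have ho2 : IsOpen ((c.Z)ᶜ ∩ c.δ ⁻¹' Iio ((c.nhole : ℝ) - 1 / 4)) :=
      h.dep.dep.cont.isOpen_inter_preimage h.dep.dep.finZ.isClosed.isOpen_compl isOpen_Iio
    obtain ⟨x, _, hx1, hx2, hx3⟩ := FaceX.conn hU _ _ ho1 ho2 (fun x hx => by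
      by_cases hxZ : x ∈ c.Z
      · exact Or.inl (Or.inl hxZ)
      · rcases lt_trichotomy (c.δ x) ((c.nhole : ℝ) - 1 / 4) with h1 | h1 | h1
        · exact Or.inr ⟨hxZ, h1⟩
        · exact absurd h1 (hno x hx hxZ)
        · exact Or.inl (Or.inr h1)) ⟨z, hzU, Or.inl hzZ⟩ ⟨y, hy, hyZ, lt_of_le_of_ne hyd (hno y hy hyZ)⟩
    rcases hx1 with h1 | h1
    · exact hx2 h1
    · have h4 : (c.nhole : ℝ) - 1 / 4 < c.δ x := h1
      exact absurd h4 (not_lt.mpr (le_of_lt hx3))
  obtain ⟨q, hqU, hqZ, hqd⟩ := hq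
  have hzE := se_notin hF.adm hz
  have hW := fce_mem hzE
  obtain ⟨I, hI, hfr⟩ := hF.adm.good.pg.frontier_edges hW (hF.adm.good.disc _ hW)
  have hclW := se_hole h hF hz
  -- the neighbourhoods of the edges of the frontier are deep
  have hDd : ∀ e ∈ I, ∀ w ∈ D e, w ∉ c.Z ∧ (c.nhole : ℝ) - 1 / 16 < c.δ w := by
    intro e he w hw
    obtain ⟨p, _, p', _, harc, _⟩ := hF.adm.good.pg.arc e (hI he)
    have hp := harc.left_mem
    obtain ⟨h1, h2, h3⟩ := hS.deep e (hI he) p hp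
    have h4 : p ∈ c.T c.nhole := by
      have h5 : p ∈ frontier (fce E z) := by
        rw [hfr]
        exact ⟨e, he, hp⟩
      exact connectedComponentIn_subset _ _ (hclW.1 (frontier_subset_closure h5))
    have h6 : (c.nhole : ℝ) ≤ c.δ p := by
      rcases h4 with h7 | h7
      · exact absurd h7 h1
      · exact h7
    obtain ⟨h8, h9⟩ := h3 w hw
    exact ⟨h8, by have := (abs_lt.mp h9).1; linarith⟩
  have hcon : ConX (g '' ⋃₀ I) z q := by
    refine ⟨_, FaceX.conn hU, ?_, hzU, hqU⟩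
    intro x hx hxI
    apply FaceX.sub hU hx
    rw [se_union]
    exact image_mono (sUnion_subset_sUnion hI) hxI
  obtain ⟨C, hC, hCs, hzC, hqC⟩ := se_transfer hF.adm.good.pg hS hI (fun e he hzD => (hDd e he z hzD).1 hzZ)
    (fun e he hqD => by have := (hDd e he q hqD).2; linarith) hcon
  have hWo : IsOpen (fce E z) := Fc.isOpen hF.adm.good.pg hW
  have hCW : C ⊆ fce E z := by
    refine hC.subset_of_closure_inter_subset hWo ⟨z, hzC, mem_fce hzE⟩ ?_
    rintro x ⟨hx, hxC⟩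
    by_contra hxW
    have h1 : x ∈ frontier (fce E z) := by
      rw [hWo.frontier_eq]
      exact ⟨hx, hxW⟩
    rw [hfr] at h1
    exact hCs hxC h1
  have h2 : q ∈ c.T c.nhole := connectedComponentIn_subset _ _ (hclW.1 (subset_closure (hCW hqC)))
  rcases h2 with h3 | h3
  · exact hqZ h3
  · have h4 : (c.nhole : ℝ) ≤ c.δ q := h3
    linarith

/-- 11.4, second part -/
theorem se_nest (hF : c.Fix Pt us el V E) (hS : c.Shad E φ D Db lv g) {z : X} (hz : SePc c z) :
    closure (comp (c.f ⁻¹' comp (⋃₀ ((fun e => g '' e) '' E))ᶜ (c.f z)) z) ⊆ comp (⋃₀ ((fun e => g '' e) '' E))ᶜ z := by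
  have hzZ := se_pc_Z h hz
  have hfz := se_pc_next h hz
  have hfG : c.f z ∉ ⋃₀ ((fun e => g '' e) '' E) := fun h1 => Set.disjoint_left.mp (se_avoid hS) h1 hfz.1
  have hz1 : z ∈ c.f ⁻¹' fce ((fun e => g '' e) '' E) (c.f z) := mem_fce hfG
  have hz2 : z ∈ comp (c.f ⁻¹' fce ((fun e => g '' e) '' E) (c.f z)) z := mem_connectedComponentIn hz1
  have hd := se_deep h hF hS hfz
  have hbig : (10 : ℝ) ≤ c.nhole := by
    have h1 := h.mark.k0big
    have h2 : 10 ≤ c.nhole := by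
      unfold Ctx.nhole Ctx.kT
      omega
    exact_mod_cast h2
  have hstep := se_step h (t := (c.nhole : ℝ) - 1 / 4) (by linarith)
    (C := comp (c.f ⁻¹' fce ((fun e => g '' e) '' E) (c.f z)) z) isPreconnected_connectedComponentIn hzZ hz2
    fun y hy => by
      have h5 : y ∈ c.f ⁻¹' fce ((fun e => g '' e) '' E) (c.f z) := connectedComponentIn_subset _ _ hy
      exact (hd _ h5).imp id le_of_lt
  have hcl : closure (comp (c.f ⁻¹' fce ((fun e => g '' e) '' E) (c.f z)) z) ⊆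
      {x | x ∈ c.Z ∨ (c.nhole : ℝ) - 1 / 4 + 1 ≤ c.δ x} := closure_minimal hstep (se_closed h _)
  refine isPreconnected_connectedComponentIn.closure.subset_connectedComponentIn (subset_closure hz2) ?_
  intro x hx hxG
  rw [se_union] at hxG
  obtain ⟨h1, h2⟩ := se_shallow h hS hxG
  rcases hcl hx with h3 | h3
  · exact h1 h3
  · linarith

omit [CompactSpace X] [Sph X] in
/-- images of the holes -/
theorem se_img {z : X} (hz : z ∈ c.Z) (n j : ℕ) (hn : 1 ≤ n) :
    c.f^[j] '' connectedComponentIn (TT c.Z c.δ ((n + j : ℕ) : ℝ)) z ⊆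
      connectedComponentIn (TT c.Z c.δ (n : ℝ)) (c.f^[j] z) := by
  induction j generalizing z with
  | zero => simp
  | succ j ih =>
    have h1 := h.dep.dep.img (n + j) (by omega) z hz
    have h2 := ih (h.dep.dep.mapZ hz)
    rw [Function.iterate_succ, image_comp]
    refine (image_mono ?_).trans h2
    have h3 : (((n + (j + 1) : ℕ) : ℕ) : ℝ) = ((n + j : ℕ) : ℝ) + 1 := by
      push_cast
      ring
    rw [h3]
    exact h1

/-- the faces of the periodic points of `P` are small in a forward level -/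
theorem se_small (hF : c.Fix Pt us el V E) (hS : c.Shad E φ D Db lv g) {z : X} (hz : SePc c z) :
    diam (c.f^[c.kT - 1] '' comp (⋃₀ ((fun e => g '' e) '' E))ᶜ z) < c.η := by
  have hzZ := se_pc_Z h hz
  have hzG : z ∉ ⋃₀ ((fun e => g '' e) '' E) := fun h1 => Set.disjoint_left.mp (se_avoid hS) h1 hz.1
  have hkT : 1 ≤ c.kT := by
    have h1 := h.mark.k0big
    unfold Ctx.kT
    omega
  have hn0 := h.dep.n0pos
  have hcast : ((c.n0 + (c.kT - 1) : ℕ) : ℝ) = (c.nhole : ℝ) - 1 := by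
    have h1 : c.n0 + (c.kT - 1) + 1 = c.nhole := by
      unfold Ctx.nhole
      omega
    have h2 : ((c.n0 + (c.kT - 1) + 1 : ℕ) : ℝ) = (c.nhole : ℝ) := by rw [h1]
    push_cast at h2 ⊢
    linarith
  have hsub : fce ((fun e => g '' e) '' E) z ⊆ connectedComponentIn (TT c.Z c.δ ((c.n0 + (c.kT - 1) : ℕ) : ℝ)) z := by
    refine (FaceX.conn (fce_mem hzG)).subset_connectedComponentIn (mem_fce hzG) ?_
    intro y hy
    rcases se_deep h hF hS hz y hy with h1 | h1
    · exact Or.inl h1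
    · right
      show ((c.n0 + (c.kT - 1) : ℕ) : ℝ) ≤ c.δ y
      rw [hcast]
      linarith
  have h3 := (image_mono hsub).trans (se_img h hzZ c.n0 (c.kT - 1) hn0)
  have h4 := h.dep.small _ (se_pc_Z h (se_pc_iter h hz (c.kT - 1)))
  have hη := h.expd.pos
  refine lt_of_le_of_lt (diam_mono h3 isBounded_of_compactSpace) (lt_trans h4 ?_)
  linarith

end Pool.ETM
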