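/-
Project ETM (MP_c7bb65_an), block SEP (section 11 of /team-store/c7bb65_proof.md).
MODULE SeZ.  The output of the block: the invariant graph.
-/
import Mathlib
import Pool.Agent.ETM.SeA
import Pool.Agent.ETM.SeB
import Pool.Agent.ETM.SeC
import Pool.Agent.ETM.SeD

set_option autoImplicit false

open Set Metric Topology Filter
open Pool.JS

namespace Pool.ETM

variable {X : Type*} [MetricSpace X] [CompactSpace X] [Sph X]

theorem exists_inv {c : Ctx X} (h : c.Ok) {Pt : ℕ → Set X → X → Set X} {us : ℕ → Set X → X → X} {el : ℕ → Set X → Set X}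
    {V : Set X} {E : Set (Set X)} (hF : c.Fix Pt us el V E) {φ : X → X} {path : Set X → Set (Set X)} {r : Set X → ℕ}
    {π : Set X → X → ℝ} (hP : c.Push el V E φ path r π) {D Db : Set X → Set X} {lv : Set X → ℕ} {g : X → X}
    (hS : c.Shad E φ D Db lv g) : Inv c.f c.P c.η (g '' V) ((fun e => g '' e) '' E) where
  good := se_good hF.adm.good hS.hcont hS.hinj
  mapG := se_mapG hP hS
  mapV := se_mapV hF.adm.good hP hS
  avoid := se_avoid hS
  one := se_one h hF.adm hS
  nest := fun z hz hper => se_nest h hF hS ⟨hz, hper⟩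
  small := ⟨c.kT - 1, fun z hz hper => se_small h hF hS ⟨hz, hper⟩⟩

end Pool.ETM
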