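/-
Project ETM (MP_c7bb65_an), block SH (section 10 of the paper proof /team-store/c7bb65_proof.md): definitions.
-/
import Mathlib
import Pool.Agent.ETM.SpDefs
import Pool.Agent.ETM.Bridge

set_option autoImplicit false

open Set Metric Topology Filter
open Pool.JS

namespace Pool.ETM

variable {X : Type*}

/-- the component of the preimage of `D (f '' ε)` which contains the edge `ε` of the pull back graph -/
def Dp [TopologicalSpace X] (f : X → X) (D : Set X → Set X) (ε : Set X) : Set X :=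
  {x | ∃ C : Set X, IsPreconnected C ∧ C ⊆ f ⁻¹' D (f '' ε) ∧ ε ⊆ C ∧ x ∈ C}

/-- the part of `Dp` over `Db (f '' ε)` -/
def Dq [TopologicalSpace X] (f : X → X) (D Db : Set X → Set X) (ε : Set X) : Set X := Dp f D ε ∩ f ⁻¹' Db (f '' ε)

/-- 10.1: the neighbourhoods `D e`, `Db e` of the edges of the fixed graph and their levels -/
structure Nb [MetricSpace X] (c : Ctx X) (el : ℕ → Set X → Set X) (E : Set (Set X)) (D Db : Set X → Set X)
    (lv : Set X → ℕ) : Prop where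
  opn : ∀ e ∈ E, IsOpen (D e)
  sc : ∀ e ∈ E, IsSimplyConnected (D e)
  avoid : ∀ e ∈ E, Disjoint (D e) c.P
  sub : ∀ e ∈ E, e ⊆ Db e ∧ Db e ⊆ D e
  comp : ∀ e ∈ E, IsCompact (Db e) ∧ IsConnected (Db e)
  small : ∀ e ∈ E, diam (c.f^[lv e] '' D e) < c.η
  /-- the type of an edge: `t` steps until it is flexible -/
  typ : ∀ e ∈ E, ∃ t : ℕ, ∃ i < c.nc, ∃ θ ∈ c.Eint i, (∀ j < t, c.f^[j] '' e ∈ c.Rig E) ∧ c.f^[t] '' e = el i θ ∧
    lv e = c.lev i + t
  flex : ∀ i < c.nc, ∀ θ ∈ c.Eint i, D (el i θ) = c.D (c.lev i) θ ∧ Db (el i θ) = c.nh (c.lev i) θ (10 * c.ε)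
  rig : ∀ e ∈ c.Rig E, D e = Dp c.f D e ∧ Db e = Dq c.f D Db e

/-- admissible approximations of the shadowing map -/
structure Apx [TopologicalSpace X] (E : Set (Set X)) (Db : Set X → Set X) (g : X → X) : Prop where
  cont : ContinuousOn g (⋃₀ E)
  mem : ∀ e ∈ E, ∀ x ∈ e, g x ∈ Db e

/-- the equations of the shadowing map -/
def Eqn [TopologicalSpace X] (f : X → X) (E : Set (Set X)) (D Db : Set X → Set X) (φ g g' : X → X) : Prop :=
  ∀ x ∈ ⋃₀ E, f (g' x) = g (f (φ x)) ∧ ∀ ε ∈ pullE f E, φ x ∈ ε → g' x ∈ Dq f D Db ε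

/-- the length of the pair `x ∈ e`, `y ∈ e'` in the coordinates `π` -/
def Lr (π : Set X → X → ℝ) (e e' : Set X) (x y : X) (ℓ : ℝ) : Prop :=
  (e = e' ∧ ℓ = |π e x - π e y|) ∨ (e ≠ e' ∧ ∃ u ∈ e ∩ e', ℓ = |π e x - π e u| + |π e' y - π e' u|)

end Pool.ETM
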