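/-
Project ETM (MP_c7bb65_an), block SH.
MODULE ShA (difficulty 3).  Edges of the fixed graph and of its pull back: rigid or flexible, types.

RECIPE.  `E = c.spE (pullE c.f E) el` (`hF.spl.hE`), `Good V E` (`hF.adm.good`), `Good (f ⁻¹' V) (pullE c.f E)` (`hF.adm1.good`), `hl := hF.spl.loc`, `hA := hF.adm1`.
`sha_inf`: an arc is infinite (injective image of `Icc 0 1`) and connected.  `sha_img`: `Dyn.edge_image` (LeX) with `hF.adm.good.pg`, `hF.adm.avoid`; the edges of the good graph `pullE c.f E` are arcs.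
`sha_el`: `el i θ ∈ spE`.  `sha_not_rig`: if `el i θ ∈ Rig E` then `el i θ ⊆ c.K (pullE c.f E) ⊆ c.Om (pullE c.f E)` (`sq_K`), so by `Loc.om` `el i θ` is contained in the finite set `{us v | v ∈ Vbd i, v ∈ θ}` (`c.V k` is finite): contradiction to `sha_inf`.
`sha_el_inj`: if `i ≠ j` or `θ ≠ θ'` then every `x ∈ el i θ = el j θ'` is in `c.Vint i` (`el_inter`), a finite set: contradiction.
`sha_cases`: `e ∈ spE`: either `e ∈ pullE c.f E` and `e ⊆ K`, which is `Rig E`, or `e = el i θ`.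
`sha_typ`: `t = t'` by `sha_not_rig` (if `t < t'` then `f^[t] '' e = el i θ` would be rigid); then `sha_el_inj`.
-/
import Mathlib
import Pool.Agent.ETM.ShDefs
import Pool.Agent.ETM.IfLv
import Pool.Agent.ETM.ScH1
import Pool.Agent.ETM.IfSd
import Pool.Agent.ETM.StF
import Pool.Agent.ETM.SaA
import Pool.Agent.ETM.SaB
import Pool.Agent.ETM.SqA
import Pool.Agent.ETM.LeH
import Pool.Agent.ETM.LeZ

set_option autoImplicit false

open Set Metric Topology Filter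
open Pool.JS

namespace Pool.ETM

variable {X : Type*} [MetricSpace X] [CompactSpace X] [Sph X] {c : Ctx X} {Pt : ℕ → Set X → X → Set X}
  {us : ℕ → Set X → X → X} {el : ℕ → Set X → Set X} {V : Set X} {E : Set (Set X)} {φ : X → X}
  {path : Set X → Set (Set X)} {r : Set X → ℕ} {π : Set X → X → ℝ} {D Db : Set X → Set X} {lv : Set X → ℕ} {g : X → X}
  {e e' ε ε' θ θ' : Set X} {i j : ℕ} {x y z w : X}

theorem sha_inf (hG : Good V E) (he : e ∈ E) : e.Infinite ∧ IsConnected e ∧ IsCompact e := by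
  obtain ⟨p, -, q, -, ha, -⟩ := hG.pg.arc e he
  refine ⟨?_, ha.isConnected, ha.isCompact⟩
  obtain ⟨γ, -, hi, him, -, -⟩ := ha
  rw [← him]
  exact (Icc_infinite zero_lt_one).image hi

theorem sha_img (h : c.Ok) (hF : c.Fix Pt us el V E) (hε : ε ∈ pullE c.f E) : c.f '' ε ∈ E ∧ InjOn c.f ε ∧
    IsComp ε (c.f ⁻¹' (c.f '' ε)) ∧ ε.Infinite ∧ IsConnected ε ∧ IsCompact ε := by
  obtain ⟨h1, h2, h3⟩ := h.dyn.edge_image hF.adm.good.pg hF.adm.avoid hε
  exact ⟨h1, h2, h3, sha_inf hF.adm1.good hε⟩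

theorem sha_el (hF : c.Fix Pt us el V E) (hi : i < c.nc) (hθ : θ ∈ c.Eint i) : el i θ ∈ E :=
  (Set.ext_iff.mp hF.spl.hE (el i θ)).mpr (Or.inr ⟨i, hi, θ, hθ, rfl⟩)

theorem sha_not_rig (h : c.Ok) (hF : c.Fix Pt us el V E) (hi : i < c.nc) (hθ : θ ∈ c.Eint i) : el i θ ∉ c.Rig E := by
  intro hr
  apply (sha_inf hF.adm.good hr.1).1
  have hfin : (c.V (c.lev i)).Finite := (h.net.good (c.lev i)).pg.finV
  have hsub : el i θ ⊆ (us i θ) '' c.V (c.lev i) := by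
    intro x hx
    have h1 : x ∈ el i θ ∩ c.Om (pullE c.f E) := ⟨hx, (sq_K (c := c) hF.adm1.good).1 (hr.2.2 hx)⟩
    rw [(hF.spl.loc i hi θ hθ).om] at h1
    obtain ⟨v, hv, -, rfl⟩ := h1
    exact ⟨v, hv.1.1, rfl⟩
  exact (hfin.image _).subset hsub

theorem sha_el_inj (h : c.Ok) (hF : c.Fix Pt us el V E) (hi : i < c.nc) (hθ : θ ∈ c.Eint i) (hj : j < c.nc)
    (hθ' : θ' ∈ c.Eint j) (he : el i θ = el j θ') : i = j ∧ θ = θ' := by
  by_contra hne
  have hne' : i ≠ j ∨ θ ≠ θ' := by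
    by_contra h1
    rw [not_or, not_not, not_not] at h1
    exact hne h1
  apply (sha_inf hF.adm.good (sha_el hF hi hθ)).1
  have hfin : (c.V (c.lev i)).Finite := (h.net.good (c.lev i)).pg.finV
  apply hfin.subset
  intro x hx
  have h1 := el_inter h hF.adm1 hF.spl.loc hi hj hθ hθ' hne' hx (he ▸ hx)
  exact h1.2.1.1

theorem sha_cases (hF : c.Fix Pt us el V E) (he : e ∈ E) :
    (e ∈ c.Rig E ∧ e ⊆ c.K (pullE c.f E)) ∨ ∃ i < c.nc, ∃ θ ∈ c.Eint i, e = el i θ := by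
  rcases (Set.ext_iff.mp hF.spl.hE e).mp he with ⟨h1, h2⟩ | h1
  · exact Or.inl ⟨⟨he, h1, h2⟩, h2⟩
  · exact Or.inr h1

theorem sha_typ (h : c.Ok) (hF : c.Fix Pt us el V E) {t t' : ℕ} (hi : i < c.nc) (hθ : θ ∈ c.Eint i)
    (h1 : ∀ j < t, c.f^[j] '' e ∈ c.Rig E) (h2 : c.f^[t] '' e = el i θ) (hj : j < c.nc) (hθ' : θ' ∈ c.Eint j)
    (h1' : ∀ j < t', c.f^[j] '' e ∈ c.Rig E) (h2' : c.f^[t'] '' e = el j θ') : t = t' ∧ i = j ∧ θ = θ' := by
  have htt : t = t' := by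
    rcases lt_trichotomy t t' with hlt | heq | hlt
    · exact absurd (h2 ▸ h1' t hlt) (sha_not_rig h hF hi hθ)
    · exact heq
    · exact absurd (h2' ▸ h1 t' hlt) (sha_not_rig h hF hj hθ')
  subst htt
  exact ⟨rfl, sha_el_inj h hF hi hθ hj hθ' (h2.symm.trans h2')⟩

end Pool.ETM
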