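/-
Project ETM (MP_c7bb65_an), block SH.
MODULE ShB (difficulty 4).  10.1: existence of the neighbourhoods `D e`.

RECIPE.  For `e ∈ E` choose `t e`, `i e`, `θ e` by `fix_edges` (second part).  `Dyn c.f^[t] c.P` (`Dyn.iterate`).  `c.D k θ` (`k = lev i`) is open, simply connected and disjoint from `f^[k] ⁻¹' P ⊇ P` (`NetOk.Dopen, Dsc, Davoid`; `P` is forward invariant), `el i θ ⊆ nh k θ (4 ε) ⊆ nh k θ (10 ε) ⊆ c.D k θ` (`Loc.near`).
Define `D e` as the component of `f^[t] ⁻¹' c.D k θ` which contains `e` (for `e ∈ E`: `connectedComponentIn _ x` for some chosen `x ∈ e`; it contains `e` because `e` is connected and `f^[t] '' e = el i θ ⊆ c.D k θ`), `Db e = D e ∩ f^[t] ⁻¹' nh k θ (10 ε)`, `lv e = lev i + t`.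
By `Dyn.sc_comp` (LeH) for `f^[t]`: `D e` is open, simply connected, and `f^[t]` maps it homeomorphically onto `c.D k θ`; so `Db e` is the image of the compact connected set `nh k θ (10 ε)` (`net_nh`) under the inverse branch: compact and connected, it contains `e`.  `avoid`: `x ∈ D e ∩ P` gives `f^[t] x ∈ P ∩ c.D k θ`.
`small`: `f^[lv e] '' D e = f^[k] '' (f^[t] '' D e) = f^[k] '' c.D k θ`, `NetOk.Ddiam`.  `typ`: clear.  `flex`: for `e = el i θ` the type is `t = 0`, `i`, `θ` (`sha_typ` with `t' = 0`), and `c.D k θ` is connected and open, so the component of `f^[0] ⁻¹' c.D k θ` is `c.D k θ`.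
`rig`: let `e ∈ Rig E`, `e₁ = f '' e ∈ E` (`sha_img`), with the type `(t₁, i₁, θ₁)`; then `(t₁ + 1, i₁, θ₁)` is a type of `e` (`f^[j + 1] '' e = f^[j] '' e₁`, `f^[0] '' e = e`), so it is the chosen one (`sha_typ`).  `D e = Dp f D e`: if `x ∈ D e` take `C = D e`: `f '' D e` is preconnected, contains `e₁` and is contained in `f^[t₁] ⁻¹' c.D k θ`, so `f '' D e ⊆ D e₁`.
Conversely a preconnected `C ⊆ f ⁻¹' D e₁` with `e ⊆ C` satisfies `f^[t₁ + 1] '' C ⊆ c.D k θ`, so `C ⊆ D e`.  `Db e = D e ∩ f^[t₁ + 1] ⁻¹' nh .. = D e ∩ f ⁻¹' (D e₁ ∩ f^[t₁] ⁻¹' nh ..)` because `f '' D e ⊆ D e₁`.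
-/
import Mathlib
import Pool.Agent.ETM.ShA

set_option autoImplicit false

open Set Metric Topology Filter
open Pool.JS

namespace Pool.ETM

variable {X : Type*} [MetricSpace X] [CompactSpace X] [Sph X] {c : Ctx X} {Pt : ℕ → Set X → X → Set X}
  {us : ℕ → Set X → X → X} {el : ℕ → Set X → Set X} {V : Set X} {E : Set (Set X)} {φ : X → X}
  {path : Set X → Set (Set X)} {r : Set X → ℕ} {π : Set X → X → ℝ} {D Db : Set X → Set X} {lv : Set X → ℕ} {g : X → X}
  {e e' ε ε' θ θ' : Set X} {i j : ℕ} {x y z w : X}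

/-- the component of `W` containing `e` -/
def shb_cmp (W e : Set X) : Set X := {x | ∃ C : Set X, IsPreconnected C ∧ C ⊆ W ∧ e ⊆ C ∧ x ∈ C}

omit [CompactSpace X] [Sph X] in
theorem shb_comp {W e : Set X} (he : IsConnected e) (hs : e ⊆ W) : IsComp (shb_cmp W e) W ∧ e ⊆ shb_cmp W e := by
  obtain ⟨x₀, hx₀⟩ := he.nonempty
  have hsub : e ⊆ shb_cmp W e := fun x hx => ⟨e, he.isPreconnected, hs, subset_rfl, hx⟩
  refine ⟨⟨⟨x₀, hsub hx₀⟩, ?_, ?_, ?_⟩, hsub⟩
  · refine isPreconnected_of_forall x₀ ?_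
    rintro y ⟨C, hC, hCW, heC, hy⟩
    exact ⟨C, fun z hz => ⟨C, hC, hCW, heC, hz⟩, heC hx₀, hy, hC⟩
  · rintro x ⟨C, hC, hCW, heC, hx⟩
    rw [compl_compl]
    exact hCW hx
  · rintro C' hC' hC'W ⟨y, hy', ⟨C, hC, hCW, heC, hy⟩⟩ z hz
    rw [compl_compl] at hC'W
    exact ⟨C ∪ C', hC.union y hy hy' hC', union_subset hCW hC'W, heC.trans subset_union_left, Or.inr hz⟩

omit [CompactSpace X] [Sph X] in
theorem shb_cmp_eq {W e : Set X} (hW : IsPreconnected W) (hs : e ⊆ W) : shb_cmp W e = W := by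
  apply Subset.antisymm
  · rintro x ⟨C, hC, hCW, heC, hx⟩
    exact hCW hx
  · intro x hx
    exact ⟨W, hW, subset_rfl, hs, hx⟩

theorem shb_nb (h : c.Ok) (hF : c.Fix Pt us el V E) :
    ∃ (D Db : Set X → Set X) (lv : Set X → ℕ), Nb c el E D Db lv := by
  have hN := h.net
  obtain ⟨hε, hs, hsε⟩ := net_pos hN
  have key : ∀ e : Set X, ∃ (t i : ℕ) (θ : Set X), e ∈ E → (∀ j < t, c.f^[j] '' e ∈ c.Rig E) ∧ i < c.nc ∧
      θ ∈ c.Eint i ∧ c.f^[t] '' e = el i θ := by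
    intro e
    by_cases he : e ∈ E
    · obtain ⟨-, t, h1, i, hi, θ, hθ, h2⟩ := fix_edges h hF he
      exact ⟨t, i, θ, fun _ => ⟨h1, hi, hθ, h2⟩⟩
    · exact ⟨0, 0, ∅, fun he' => absurd he' he⟩
  choose t ι ϑ hty using key
  set W : Set X → Set X := fun e => c.f^[t e] ⁻¹' c.D (c.lev (ι e)) (ϑ e) with hW
  set D : Set X → Set X := fun e => shb_cmp (W e) e with hD
  set Db : Set X → Set X := fun e => D e ∩ c.f^[t e] ⁻¹' c.nh (c.lev (ι e)) (ϑ e) (10 * c.ε) with hDb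
  have hnhD : ∀ (k : ℕ) (θ : Set X) (r : ℝ), c.nh k θ r ⊆ c.D k θ := fun k θ r x hx => hx.1
  have hθE : ∀ e ∈ E, ϑ e ∈ c.E (c.lev (ι e)) := fun e he => ((hty e he).2.2.1).1
  have helnh : ∀ i < c.nc, ∀ θ ∈ c.Eint i, el i θ ⊆ c.nh (c.lev i) θ (10 * c.ε) := by
    intro i hi θ hθ x hx
    have h1 := (hF.spl.loc i hi θ hθ).near hx
    exact ⟨h1.1, h1.2.trans (by linarith)⟩
  have henh : ∀ e ∈ E, e ⊆ c.f^[t e] ⁻¹' c.nh (c.lev (ι e)) (ϑ e) (10 * c.ε) := by
    intro e he x hx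
    obtain ⟨-, hi, hθ, h2⟩ := hty e he
    apply helnh _ hi _ hθ
    rw [← h2]
    exact mem_image_of_mem _ hx
  have heW : ∀ e ∈ E, e ⊆ W e := fun e he x hx => hnhD _ _ _ (henh e he hx)
  have hGE : Good V E := hF.adm.good
  have hcon : ∀ e ∈ E, IsConnected e := fun e he => (sha_inf hGE he).2.1
  have hcomp : ∀ e ∈ E, IsComp (D e) (W e) ∧ e ⊆ D e := fun e he => shb_comp (hcon e he) (heW e he)
  have hDdis : ∀ e ∈ E, Disjoint (c.D (c.lev (ι e)) (ϑ e)) c.P := by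
    intro e he
    refine (hN.Davoid _ _ (hθE e he)).mono_right ?_
    intro x hx
    exact (h.dyn.mapsP.iterate _) hx
  have hsc := fun e he => (h.dyn.iterate (t e)).sc_comp (hN.Dopen _ _ (hθE e he)) (hN.Dsc _ _ (hθE e he)) (hDdis e he)
    (hcomp e he).1
  refine ⟨D, Db, fun e => c.lev (ι e) + t e, ?_⟩
  refine { opn := ?_, sc := ?_, avoid := ?_, sub := ?_, comp := ?_, small := ?_, typ := ?_, flex := ?_, rig := ?_ }
  · intro e he
    exact (hsc e he).2.2.1
  · intro e he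
    exact (hsc e he).2.2.2.1
  · intro e he
    rw [Set.disjoint_left]
    intro x hx hxP
    have h1 : c.f^[t e] x ∈ c.D (c.lev (ι e)) (ϑ e) := by
      rw [← (hsc e he).2.1]
      exact mem_image_of_mem _ hx
    exact Set.disjoint_left.mp (hDdis e he) h1 ((h.dyn.mapsP.iterate _) hxP)
  · intro e he
    exact ⟨fun x hx => ⟨(hcomp e he).2 hx, henh e he hx⟩, inter_subset_left⟩
  · intro e he
    obtain ⟨-, -, -, -, g, hg, hg1, hg2⟩ := hsc e he
    have h1 := net_nh hN (hθE e he) (r := 10 * c.ε) (by linarith) (by linarith)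
    have h2 : Db e = g '' c.nh (c.lev (ι e)) (ϑ e) (10 * c.ε) := by
      apply Subset.antisymm
      · rintro x ⟨hx1, hx2⟩
        exact ⟨_, hx2, hg2 x hx1⟩
      · rintro _ ⟨y, hy, rfl⟩
        have h3 := hg1 y (hnhD _ _ _ hy)
        refine ⟨h3.1, ?_⟩
        rw [mem_preimage, h3.2]
        exact hy
    rw [h2]
    exact ⟨h1.1.image_of_continuousOn (hg.mono (hnhD _ _ _)), h1.2.1.image g (hg.mono (hnhD _ _ _))⟩
  · intro e he
    change diam (c.f^[c.lev (ι e) + t e] '' D e) < c.η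
    rw [Function.iterate_add, image_comp, (hsc e he).2.1]
    exact hN.Ddiam _ _ (hθE e he)
  · intro e he
    obtain ⟨h1, hi, hθ, h2⟩ := hty e he
    exact ⟨t e, ι e, hi, ϑ e, hθ, h1, h2, rfl⟩
  · intro i hi θ hθ
    have he := sha_el hF hi hθ
    obtain ⟨h1, hi', hθ', h2⟩ := hty _ he
    obtain ⟨e1, e2, e3⟩ := sha_typ (t' := 0) h hF hi' hθ' h1 h2 hi hθ (fun j hj => absurd hj (Nat.not_lt_zero j))
      (by simp)
    have hsub : el i θ ⊆ c.D (c.lev i) θ := (helnh i hi θ hθ).trans (hnhD _ _ _)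
    have hpc : IsPreconnected (c.D (c.lev i) θ) :=
      (hN.Dsc _ _ hθ.1).isPathConnected.isConnected.isPreconnected
    have hWe : W (el i θ) = c.D (c.lev i) θ := by
      change c.f^[t (el i θ)] ⁻¹' c.D (c.lev (ι (el i θ))) (ϑ (el i θ)) = _
      rw [e1, e2, e3]
      simp
    have hDe : D (el i θ) = c.D (c.lev i) θ := by
      change shb_cmp (W (el i θ)) (el i θ) = _
      rw [hWe]
      exact shb_cmp_eq hpc hsub
    refine ⟨hDe, ?_⟩
    change D (el i θ) ∩ c.f^[t (el i θ)] ⁻¹' c.nh (c.lev (ι (el i θ))) (ϑ (el i θ)) (10 * c.ε) = _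
    rw [hDe, e1, e2, e3]
    simp only [Function.iterate_zero, preimage_id]
    exact inter_eq_right.2 (hnhD _ _ _)
  · intro e heR
    have he : e ∈ E := heR.1
    have he₁ : c.f '' e ∈ E := (sha_img h hF heR.2.1).1
    obtain ⟨h1, hi, hθ, h2⟩ := hty _ he
    obtain ⟨h1', hi', hθ', h2'⟩ := hty _ he₁
    have h3 : ∀ j < t (c.f '' e) + 1, c.f^[j] '' e ∈ c.Rig E := by
      intro j hj
      cases j with
      | zero => simpa using heR
      | succ j =>
        have h4 := h1' j (by omega)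
        rw [Function.iterate_succ, image_comp]
        exact h4
    have h4 : c.f^[t (c.f '' e) + 1] '' e = el (ι (c.f '' e)) (ϑ (c.f '' e)) := by
      rw [Function.iterate_succ, image_comp]
      exact h2'
    obtain ⟨e1, e2, e3⟩ := sha_typ h hF hi hθ h1 h2 hi' hθ' h3 h4
    have hWe : W e = c.f ⁻¹' W (c.f '' e) := by
      change c.f^[t e] ⁻¹' c.D (c.lev (ι e)) (ϑ e) = c.f ⁻¹' (c.f^[t (c.f '' e)] ⁻¹' c.D _ _)
      rw [e1, e2, e3, Function.iterate_succ, preimage_comp]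
    have hDe : D e = Dp c.f D e := by
      apply Subset.antisymm
      · rintro x ⟨C, hC, hCW, heC, hx⟩
        refine ⟨C, hC, ?_, heC, hx⟩
        rw [hWe] at hCW
        intro y hy
        exact ⟨c.f '' C, hC.image _ h.dyn.cont.continuousOn, image_subset_iff.2 hCW, image_mono heC,
          mem_image_of_mem _ hy⟩
      · rintro x ⟨C, hC, hCW, heC, hx⟩
        refine ⟨C, hC, ?_, heC, hx⟩
        rw [hWe]
        intro y hy
        obtain ⟨C', -, hC'W, -, hyC'⟩ := hCW hy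
        exact hC'W hyC'
    refine ⟨hDe, ?_⟩
    apply Subset.antisymm
    · rintro x ⟨hx1, hx2⟩
      have hx3 : x ∈ Dp c.f D e := by rw [← hDe]; exact hx1
      refine ⟨hx3, ?_, ?_⟩
      · obtain ⟨C, hC, hCW, heC, hx⟩ := hx3
        exact hCW hx
      · rw [e1, e2, e3, Function.iterate_succ, preimage_comp] at hx2
        exact hx2
    · rintro x ⟨hx1, hx2⟩
      refine ⟨by rw [hDe]; exact hx1, ?_⟩
      rw [e1, e2, e3, Function.iterate_succ, preimage_comp]
      exact hx2.2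

end Pool.ETM
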