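/-
Project ETM (MP_c7bb65_an), block SH.
MODULE ShC (difficulty 3).  The neighbourhoods `Dp ε` of the edges of the pull back graph: inverse branches.

RECIPE.  `shc_comp`: `ε` is connected (`sha_img`) and `f '' ε ⊆ Db (f '' ε) ⊆ D (f '' ε)` (`Nb.sub`), so `ε ⊆ f ⁻¹' D (f '' ε)` and `Dp f D ε` is the component containing `ε` (union of the preconnected sets containing `ε`; `IsComp`).
`shc_bij`, `shc_branch`: `Dyn.sc_comp` (LeH) for `D (f '' ε)`: open, simply connected, disjoint from `P` (`Nb`).  `shc_q`: `Dq` is the image of `Db (f '' ε)` under the branch.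
`shc_agree`: let `g` be the branch for `ε`, `C' = g '' C`: preconnected, contained in `Dp f D ε`, `f '' C' = C`, and it contains `x = g (f x)`.  `C' ⊆ f ⁻¹' D (f '' ε')` and it meets the component `Dp f D ε'` in `x`, so `C' ⊆ Dp f D ε'`.
`shc_same`: both are components of `f ⁻¹' D (f '' ε)` with a common point, so `Dp f D ε = Dp f D ε'`, `f` is injective on it and `ε, ε'` are subsets with the same image.
-/
import Mathlib
import Pool.Agent.ETM.ShA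

set_option autoImplicit false

open Set Metric Topology Filter
open Pool.JS

namespace Pool.ETM

variable {X : Type*} [MetricSpace X] [CompactSpace X] [Sph X] {c : Ctx X} {Pt : ℕ → Set X → X → Set X}
  {us : ℕ → Set X → X → X} {el : ℕ → Set X → Set X} {V : Set X} {E : Set (Set X)} {φ : X → X}
  {path : Set X → Set (Set X)} {r : Set X → ℕ} {π : Set X → X → ℝ} {D Db : Set X → Set X} {lv : Set X → ℕ} {g : X → X}
  {e e' ε ε' θ θ' : Set X} {i j : ℕ} {x y z w : X}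

private theorem shc_sub (h : c.Ok) (hF : c.Fix Pt us el V E) (hN : Nb c el E D Db lv) (hε : ε ∈ pullE c.f E) :
    ε ⊆ c.f ⁻¹' Db (c.f '' ε) ∧ ε ⊆ c.f ⁻¹' D (c.f '' ε) := by
  have h1 := hN.sub _ (sha_img h hF hε).1
  constructor
  · intro x hx
    exact h1.1 (mem_image_of_mem _ hx)
  · intro x hx
    exact h1.2 (h1.1 (mem_image_of_mem _ hx))

theorem shc_comp (h : c.Ok) (hF : c.Fix Pt us el V E) (hN : Nb c el E D Db lv) (hε : ε ∈ pullE c.f E) :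
    IsComp (Dp c.f D ε) (c.f ⁻¹' D (c.f '' ε)) ∧ ε ⊆ Dp c.f D ε ∧ ε ⊆ Dq c.f D Db ε := by
  obtain ⟨h1, h2, h3, h4, h5, h6⟩ := sha_img h hF hε
  obtain ⟨h7, h8⟩ := shc_sub h hF hN hε
  have hsub : ε ⊆ Dp c.f D ε := fun x hx => ⟨ε, h5.isPreconnected, h8, Subset.rfl, hx⟩
  refine ⟨?_, hsub, fun x hx => ⟨hsub hx, h7 hx⟩⟩
  obtain ⟨x₀, hx₀⟩ := h5.nonempty
  have hpre : IsPreconnected (Dp c.f D ε) := by
    have : Dp c.f D ε = ⋃₀ {C : Set X | IsPreconnected C ∧ C ⊆ c.f ⁻¹' D (c.f '' ε) ∧ ε ⊆ C} := by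
      ext x
      constructor
      · rintro ⟨C, hC1, hC2, hC3, hxC⟩
        exact ⟨C, ⟨hC1, hC2, hC3⟩, hxC⟩
      · rintro ⟨C, ⟨hC1, hC2, hC3⟩, hxC⟩
        exact ⟨C, hC1, hC2, hC3, hxC⟩
    rw [this]
    exact isPreconnected_sUnion x₀ _ (fun C hC => hC.2.2 hx₀) (fun C hC => hC.1)
  refine ⟨⟨x₀, hsub hx₀⟩, hpre, ?_, ?_⟩
  · rintro x ⟨C, hC1, hC2, hC3, hxC⟩
    rw [compl_compl]
    exact hC2 hxC
  · intro C hC1 hC2 hC3 x hx
    rw [compl_compl] at hC2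
    refine ⟨C ∪ Dp c.f D ε, ?_, ?_, ?_, Or.inl hx⟩
    · obtain ⟨y, hy1, hy2⟩ := hC3
      exact IsPreconnected.union y hy1 hy2 hC1 hpre
    · apply union_subset hC2
      rintro x ⟨C, hC1, hC2, hC3, hxC⟩
      exact hC2 hxC
    · exact hsub.trans subset_union_right

private theorem shc_all (h : c.Ok) (hF : c.Fix Pt us el V E) (hN : Nb c el E D Db lv) (hε : ε ∈ pullE c.f E) :
    InjOn c.f (Dp c.f D ε) ∧ c.f '' Dp c.f D ε = D (c.f '' ε) ∧
    ∃ g : X → X, ContinuousOn g (D (c.f '' ε)) ∧ (∀ y ∈ D (c.f '' ε), g y ∈ Dp c.f D ε ∧ c.f (g y) = y) ∧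
      ∀ x ∈ Dp c.f D ε, g (c.f x) = x := by
  have he := (sha_img h hF hε).1
  obtain ⟨h1, h2, -, -, h5⟩ := h.dyn.sc_comp (hN.opn _ he) (hN.sc _ he) (hN.avoid _ he) (shc_comp h hF hN hε).1
  exact ⟨h1, h2, h5⟩

theorem shc_bij (h : c.Ok) (hF : c.Fix Pt us el V E) (hN : Nb c el E D Db lv) (hε : ε ∈ pullE c.f E) :
    InjOn c.f (Dp c.f D ε) ∧ c.f '' Dp c.f D ε = D (c.f '' ε) :=
  ⟨(shc_all h hF hN hε).1, (shc_all h hF hN hε).2.1⟩

theorem shc_branch (h : c.Ok) (hF : c.Fix Pt us el V E) (hN : Nb c el E D Db lv) (hε : ε ∈ pullE c.f E) :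
    ∃ g : X → X, ContinuousOn g (D (c.f '' ε)) ∧ (∀ y ∈ D (c.f '' ε), g y ∈ Dp c.f D ε ∧ c.f (g y) = y) ∧
      ∀ x ∈ Dp c.f D ε, g (c.f x) = x := (shc_all h hF hN hε).2.2

theorem shc_q (h : c.Ok) (hF : c.Fix Pt us el V E) (hN : Nb c el E D Db lv) (hε : ε ∈ pullE c.f E) :
    IsCompact (Dq c.f D Db ε) ∧ c.f '' Dq c.f D Db ε = Db (c.f '' ε) := by
  obtain ⟨g, h1, h2, h3⟩ := shc_branch h hF hN hε
  have he := (sha_img h hF hε).1
  have hs := (hN.sub _ he).2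
  have hq : Dq c.f D Db ε = g '' Db (c.f '' ε) := by
    ext x
    constructor
    · rintro ⟨hx1, hx2⟩
      exact ⟨c.f x, hx2, h3 x hx1⟩
    · rintro ⟨y, hy, rfl⟩
      refine ⟨(h2 y (hs hy)).1, ?_⟩
      show c.f (g y) ∈ Db (c.f '' ε)
      rw [(h2 y (hs hy)).2]
      exact hy
  constructor
  · rw [hq]
    exact (hN.comp _ he).1.image_of_continuousOn (h1.mono hs)
  · rw [hq]
    ext y
    constructor
    · rintro ⟨_, ⟨y', hy', rfl⟩, rfl⟩
      rw [(h2 y' (hs hy')).2]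
      exact hy'
    · intro hy
      exact ⟨g y, ⟨y, hy, rfl⟩, (h2 y (hs hy)).2⟩

theorem shc_agree (h : c.Ok) (hF : c.Fix Pt us el V E) (hN : Nb c el E D Db lv) (hε : ε ∈ pullE c.f E)
    (hε' : ε' ∈ pullE c.f E) {C : Set X} (hC : IsPreconnected C) (hCs : C ⊆ D (c.f '' ε) ∩ D (c.f '' ε'))
    (hx : x ∈ Dp c.f D ε ∩ Dp c.f D ε') (hfx : c.f x ∈ C) :
    ∃ C' : Set X, IsPreconnected C' ∧ C' ⊆ Dp c.f D ε ∩ Dp c.f D ε' ∧ c.f '' C' = C ∧ x ∈ C' := by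
  obtain ⟨g, h1, h2, h3⟩ := shc_branch h hF hN hε
  have hC' : IsPreconnected (g '' C) := hC.image g (h1.mono fun y hy => (hCs hy).1)
  have hxC : x ∈ g '' C := ⟨c.f x, hfx, h3 x hx.1⟩
  have hfg : ∀ y ∈ C, c.f (g y) = y := fun y hy => (h2 y (hCs hy).1).2
  refine ⟨g '' C, hC', ?_, ?_, hxC⟩
  · apply subset_inter
    · rintro _ ⟨y, hy, rfl⟩
      exact (h2 y (hCs hy).1).1
    · apply (shc_comp h hF hN hε').1.max _ hC' _ ⟨x, hxC, hx.2⟩
      rw [compl_compl]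
      rintro _ ⟨y, hy, rfl⟩
      show c.f (g y) ∈ D (c.f '' ε')
      rw [hfg y hy]
      exact (hCs hy).2
  · ext y
    constructor
    · rintro ⟨_, ⟨y', hy', rfl⟩, rfl⟩
      rw [hfg y' hy']
      exact hy'
    · intro hy
      exact ⟨g y, ⟨y, hy, rfl⟩, hfg y hy⟩

theorem shc_same (h : c.Ok) (hF : c.Fix Pt us el V E) (hN : Nb c el E D Db lv) (hε : ε ∈ pullE c.f E)
    (hε' : ε' ∈ pullE c.f E) (he : c.f '' ε = c.f '' ε') (hne : (Dp c.f D ε ∩ Dp c.f D ε').Nonempty) : ε = ε' := by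
  obtain ⟨hc1, hs1, -⟩ := shc_comp h hF hN hε
  obtain ⟨hc2, hs2, -⟩ := shc_comp h hF hN hε'
  rw [← he] at hc2
  have hsub : Dp c.f D ε ⊆ Dp c.f D ε' := hc2.max _ hc1.conn hc1.sub hne
  have hinj := (shc_bij h hF hN hε').1
  apply Subset.antisymm
  · intro x hx
    have h1 : c.f x ∈ c.f '' ε' := he ▸ mem_image_of_mem _ hx
    obtain ⟨x', hx', h2⟩ := h1
    have := hinj (hs2 hx') (hsub (hs1 hx)) h2
    rw [← this]
    exact hx'
  · intro x' hx'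
    have h1 : c.f x' ∈ c.f '' ε := he ▸ mem_image_of_mem _ hx'
    obtain ⟨x, hx, h2⟩ := h1
    have := hinj (hsub (hs1 hx)) (hs2 hx') h2
    rw [← this]
    exact hx

end Pool.ETM
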