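/-
Project ETM (MP_c7bb65_an), block SH.
MODULE ShD (difficulty 3).  10.2, 10.3: levels and sizes of the neighbourhoods.

RECIPE.  `shd_lev`: let `e₁ = f '' ε ∈ E` have the type `t, j, θ'` (`Nb.typ`): `lv e₁ = lev j + t`, `f^[t + 1] x ∈ f^[t] '' e₁ = el j θ'`, so `0 < a j (f^[t + 1] x)` (`el_facts`, `MarkOk.wpos`).  `MarkOk.m1` with `t + 1 ≥ 1`: `2 m i + m ≤ 2 m j + (t + 1)`, so `lev i + m ≤ lev j + t + 1` (`lev i = k0 + 2 m i`).
`shd_small`: `f^[lv e₁ + 1] '' Dp = f^[lv e₁] '' (f '' Dp) = f^[lv e₁] '' D e₁` (`shc_bij`, `Nb.small`).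
`shd_near`: `nh k θ (4 ε) ⊆ nh k θ (10 ε) ⊆ c.D k θ`; `θ ⊆ c.R3 i` (`R3_of_Eint`), so `0 < a i x` (`lv_R3`).  `NetOk.small` with `k = lev i`, `n = lv e₁ + 1 ≥ k + m` (`shd_lev`), `C = Dp f D ε`: `C ⊆ c.D k θ` and `‖Q x - Q y‖ < ε` for `y ∈ C`, so `infDist (Q y) (Q '' θ) ≤ infDist (Q x) (Q '' θ) + ‖Q x - Q y‖ ≤ 5 ε`.
`shd_path`: if `e ∈ Rig E`: `path e = {e}` (`Push.rigid`), `Nb.rig`.  If `e = el i θ` (`sha_cases`): `ε ⊆ ⋃₀ path e = φ '' e ⊆ nh k θ (4 ε)` (`Push.path_img`, `Push.flex`); `ε` is nonempty: `shd_near` gives `Dp f D ε ⊆ nh k θ (5 ε) ⊆ nh k θ (10 ε) = Db e ⊆ D e` (`Nb.flex`, `Nb.sub`).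
-/
import Mathlib
import Pool.Agent.ETM.ShC

set_option autoImplicit false

open Set Metric Topology Filter
open Pool.JS

namespace Pool.ETM

variable {X : Type*} [MetricSpace X] [CompactSpace X] [Sph X] {c : Ctx X} {Pt : ℕ → Set X → X → Set X}
  {us : ℕ → Set X → X → X} {el : ℕ → Set X → Set X} {V : Set X} {E : Set (Set X)} {φ : X → X}
  {path : Set X → Set (Set X)} {r : Set X → ℕ} {π : Set X → X → ℝ} {D Db : Set X → Set X} {lv : Set X → ℕ} {g : X → X}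
  {e e' ε ε' θ θ' : Set X} {i j : ℕ} {x y z w : X}

theorem shd_lev (h : c.Ok) (hF : c.Fix Pt us el V E) (hN : Nb c el E D Db lv) (hε : ε ∈ pullE c.f E) (hx : x ∈ ε)
    (hi : i < c.nc) (ha : 0 < c.a i x) : c.lev i + c.m ≤ lv (c.f '' ε) + 1 := by
  obtain ⟨t, j, hj, θ', hθ', -, ht, hlv⟩ := hN.typ _ (sha_img h hF hε).1
  have h1 : c.f^[t + 1] x ∈ el j θ' := by
    rw [← ht, Function.iterate_succ_apply]
    exact mem_image_of_mem _ (mem_image_of_mem _ hx)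
  have h2 := (el_facts h hF.adm1 hF.spl.loc hj hθ' h1).1
  have hw := h.mark.wpos
  have h3 := h.mark.m1 i hi j hj x (t + 1) ha (by linarith) (Or.inl (by omega))
  rw [hlv]
  unfold Ctx.lev
  omega

theorem shd_small (h : c.Ok) (hF : c.Fix Pt us el V E) (hN : Nb c el E D Db lv) (hε : ε ∈ pullE c.f E) :
    diam (c.f^[lv (c.f '' ε) + 1] '' Dp c.f D ε) < c.η := by
  have h1 : c.f^[lv (c.f '' ε) + 1] '' Dp c.f D ε = c.f^[lv (c.f '' ε)] '' D (c.f '' ε) := by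
    rw [← (shc_bij h hF hN hε).2, Function.iterate_succ, image_comp]
  rw [h1]
  exact hN.small _ (sha_img h hF hε).1

theorem shd_near (h : c.Ok) (hF : c.Fix Pt us el V E) (hN : Nb c el E D Db lv) (hε : ε ∈ pullE c.f E) (hx : x ∈ ε)
    (hi : i < c.nc) (hθ : θ ∈ c.Eint i) (hxn : x ∈ c.nh (c.lev i) θ (4 * c.ε)) :
    Dp c.f D ε ⊆ c.nh (c.lev i) θ (5 * c.ε) := by
  obtain ⟨hθE, -, hR⟩ := R3_of_Eint h.net hθ
  have hw := h.mark.wpos
  have he := h.net.εpos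
  have ha : 0 < c.a i x := by
    have := (lv_R3 h hi (x := x) (Or.inr ⟨θ, hθE, hR, hxn.1⟩)).1
    linarith
  have hl := shd_lev h hF hN hε hx hi ha
  have hC := shc_comp h hF hN hε
  have hxD : x ∈ Dp c.f D ε := hC.2.1 hx
  have hpre : IsPreconnected (Dp c.f D ε) := hC.1.conn
  obtain ⟨h1, h2⟩ := h.net.small (c.lev i) θ hθE (lv (c.f '' ε) + 1) hl (Dp c.f D ε) hpre
    ⟨x, hxD, hxn.1, hxn.2.trans (by linarith)⟩ (shd_small h hF hN hε)
  intro y hy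
  refine ⟨h1 hy, ?_⟩
  have h3 := h2 y hy x hxD
  have h4 : infDist (c.Q (c.lev i) y) (c.Q (c.lev i) '' θ) ≤
      infDist (c.Q (c.lev i) x) (c.Q (c.lev i) '' θ) + dist (c.Q (c.lev i) y) (c.Q (c.lev i) x) := infDist_le_infDist_add_dist
  rw [dist_eq_norm] at h4
  have h5 := hxn.2
  linarith

theorem shd_path (h : c.Ok) (hF : c.Fix Pt us el V E) (hP : c.Push el V E φ path r π) (hN : Nb c el E D Db lv)
    (he : e ∈ E) (hε : ε ∈ path e) : Dp c.f D ε ⊆ D e ∧ Dq c.f D Db ε ⊆ Db e := by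
  rcases sha_cases hF he with ⟨hr, -⟩ | ⟨i, hi, θ, hθ, rfl⟩
  · have h1 := (hP.rigid e hr).1
    rw [h1, mem_singleton_iff] at hε
    subst hε
    obtain ⟨h2, h3⟩ := hN.rig ε hr
    exact ⟨h2.symm.subset, h3.symm.subset⟩
  · have hεp : ε ∈ pullE c.f E := hP.path_sub _ he hε
    obtain ⟨x, hx⟩ := (sha_img h hF hεp).2.2.2.2.1.nonempty
    have h1 : x ∈ c.nh (c.lev i) θ (4 * c.ε) := by
      apply (hP.flex i hi θ hθ).1
      rw [hP.path_img _ he]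
      exact ⟨ε, hε, hx⟩
    have h2 := shd_near h hF hN hεp hx hi hθ h1
    have he0 := h.net.εpos
    have h3 : Dp c.f D ε ⊆ Db (el i θ) := by
      rw [(hN.flex i hi θ hθ).2]
      intro y hy
      exact ⟨(h2 hy).1, (h2 hy).2.trans (by linarith)⟩
    exact ⟨h3.trans (hN.sub _ he).2, fun y hy => h3 hy.1⟩

end Pool.ETM
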