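/-
Project ETM (MP_c7bb65_an), block SH.
MODULE ShE (difficulty 4).  10.4 (CP): common points.

RECIPE.  Prove by strong induction on `t + t'`, where `t, t'` are the times in the types of `e, e'` (`Nb.typ`; formulate: for all `N` and all `e, e'` with types with `t + t' ≤ N`, ...).  Cases by `sha_cases`.
(1) `e = el i θ`, `e' = el j θ'`: `e ≠ e'`, so `i ≠ j ∨ θ ≠ θ'`, and `el_inter` for `w`: `i = j`, `w ∈ Vint i`, `w ∈ θ`, `w ∈ θ'`, `θ ≠ θ'`.  `k = lev i`.  `z ∈ nh k θ (10 ε) ∩ nh k θ' (10 ε)` (`Nb.flex`): `NetOk.two` with `r = 10 ε`: `v ∈ θ ∩ θ'` a vertex, `‖Q z - Q v‖ ≤ 15 ε`; `v = w` (otherwise `θ`, `θ'` would have two common vertices, `sq_two` for the good graph `NetOk.good k`, `w ∈ c.V k`).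
`C = c.B k w (20 ε) = {x ∈ c.D k θ | ‖Q x - Q w‖ < 20 ε} = {x ∈ c.D k θ' | ..}` (`NetOk.ball`), preconnected by `net_img` (`SaA`) with the convex set `ball (Q w) (20 ε) ⊆ thickening (20 ε) (Q '' θ)`.
(2) `e = el i θ` flexible and `e' ∈ Rig E` (or the symmetric case): `e' ∈ pullE c.f E`, `w ∈ e ⊆ nh k θ (4 ε)` (`Loc.near`), so `Dp f D e' ⊆ nh k θ (5 ε) ⊆ c.D k θ = D e` (`shd_near`), `D e' = Dp f D e'` (`Nb.rig`): `C = D e'` (connected, contains `z ∈ Db e'` and `w ∈ e'`).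
(3) both rigid: `f '' e ≠ f '' e'`, because otherwise `e`, `e'` would be components of the same set `f ⁻¹' (f '' e)` with the common point `w` (`sha_img`, `FaceX.max`).  `f z ∈ Db (f '' e) ∩ Db (f '' e')` (`Nb.rig`, `Dq`), `f w ∈ f '' e ∩ f '' e'`; the types of `f '' e`, `f '' e'` have the times `t - 1`, `t' - 1` (`t, t' ≥ 1` by `sha_not_rig`).
Induction gives `C₁ ⊆ D (f '' e) ∩ D (f '' e')` with `f z, f w ∈ C₁`.  `shc_agree` with the common point `w ∈ e ∩ e' ⊆ Dp e ∩ Dp e'` gives `C' ⊆ Dp e ∩ Dp e' = D e ∩ D e'`, `f '' C' = C₁`, `w ∈ C'`; there is `z' ∈ C'` with `f z' = f z`, and `z' = z` because `f` is injective on `Dp e` (`shc_bij`; `z ∈ Db e ⊆ D e`).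
-/
import Mathlib
import Pool.Agent.ETM.ShD

set_option autoImplicit false

open Set Metric Topology Filter
open Pool.JS

namespace Pool.ETM

variable {X : Type*} [MetricSpace X] [CompactSpace X] [Sph X] {c : Ctx X} {Pt : ℕ → Set X → X → Set X}
  {us : ℕ → Set X → X → X} {el : ℕ → Set X → Set X} {V : Set X} {E : Set (Set X)} {φ : X → X}
  {path : Set X → Set (Set X)} {r : Set X → ℕ} {π : Set X → X → ℝ} {D Db : Set X → Set X} {lv : Set X → ℕ} {g : X → X}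
  {e e' ε ε' θ θ' : Set X} {i j : ℕ} {x y z w : X}

theorem she_type (h : c.Ok) (hF : c.Fix Pt us el V E) {t : ℕ} (h0 : 0 < t) (h1 : ∀ j < t, c.f^[j] '' e ∈ c.Rig E)
    (h2 : c.f^[t] '' e = el i θ) : e ∈ c.Rig E ∧ (∀ j < t - 1, c.f^[j] '' (c.f '' e) ∈ c.Rig E) ∧
      c.f^[t - 1] '' (c.f '' e) = el i θ := by
  have key : ∀ j : ℕ, c.f^[j] '' (c.f '' e) = c.f^[j + 1] '' e := by
    intro j
    rw [← image_comp, ← Function.iterate_succ]
  refine ⟨?_, ?_, ?_⟩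
  · have h3 := h1 0 h0
    rwa [Function.iterate_zero, image_id] at h3
  · intro j hj
    rw [key]
    exact h1 (j + 1) (by omega)
  · rw [key, Nat.sub_add_cancel h0]
    exact h2

theorem she_flex (h : c.Ok) (hF : c.Fix Pt us el V E) (hN : Nb c el E D Db lv) (hi : i < c.nc) (hθ : θ ∈ c.Eint i)
    (hj : j < c.nc) (hθ' : θ' ∈ c.Eint j) (hne : el i θ ≠ el j θ') (hw : w ∈ el i θ ∩ el j θ')
    (hz : z ∈ Db (el i θ) ∩ Db (el j θ')) :
    ∃ C : Set X, IsPreconnected C ∧ C ⊆ D (el i θ) ∩ D (el j θ') ∧ z ∈ C ∧ w ∈ C := by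
  have hne' : i ≠ j ∨ θ ≠ θ' := by
    by_contra h1
    rw [not_or, not_not, not_not] at h1
    obtain ⟨h2, h3⟩ := h1
    subst h2
    subst h3
    exact hne rfl
  obtain ⟨h1, h2, h3, h4⟩ := el_inter h hF.adm1 hF.spl.loc hi hj hθ hθ' hne' hw.1 hw.2
  subst h1
  have hθne : θ ≠ θ' := by
    rcases hne' with h5 | h5
    · exact absurd rfl h5
    · exact h5
  obtain ⟨hD, hDb⟩ := hN.flex i hi θ hθ
  obtain ⟨hD', hDb'⟩ := hN.flex i hi θ' hθ'
  rw [hDb, hDb'] at hz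
  rw [hD, hD']
  have hε := h.net.εpos
  obtain ⟨v, hvV, hvθ, hvθ', hvz⟩ := h.net.two (c.lev i) θ hθ.1 θ' hθ'.1 hθne (10 * c.ε) le_rfl z hz
  have hwV : w ∈ c.V (c.lev i) := h2.1
  have hvw : v = w := by
    by_contra hvw
    exact hθne (sq_two (h.net.good (c.lev i)) hθ.1 hθ'.1 hvw hvV hwV hvθ hvθ' h3 h4)
  rw [hvw] at hvz
  have hB := h.net.ball (c.lev i) θ hθ.1 w hwV h3
  have hB' := h.net.ball (c.lev i) θ' hθ'.1 w hwV h4
  refine ⟨c.B (c.lev i) w (20 * c.ε), ?_, ?_, ?_, ?_⟩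
  · have hsub : ball (c.Q (c.lev i) w) (20 * c.ε) ⊆ thickening (20 * c.ε) (c.Q (c.lev i) '' θ) := by
      intro y hy
      rw [mem_thickening_iff]
      exact ⟨_, mem_image_of_mem _ h3, hy⟩
    have h5 := (net_img h.net hθ.1 hsub).2.2 (convex_ball _ _).isPreconnected
    rw [hB]
    convert h5 using 3
    rw [mem_ball, dist_eq_norm]
  · intro x hx
    constructor
    · rw [hB] at hx
      exact hx.1
    · rw [hB'] at hx
      exact hx.1
  · rw [hB]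
    refine ⟨hz.1.1, ?_⟩
    show ‖c.Q (c.lev i) z - c.Q (c.lev i) w‖ < 20 * c.ε
    linarith
  · rw [hB]
    refine ⟨h.net.Dsub (c.lev i) θ hθ.1 h3, ?_⟩
    show ‖c.Q (c.lev i) w - c.Q (c.lev i) w‖ < 20 * c.ε
    rw [sub_self, norm_zero]
    linarith

theorem she_mix (h : c.Ok) (hF : c.Fix Pt us el V E) (hN : Nb c el E D Db lv) (hi : i < c.nc) (hθ : θ ∈ c.Eint i)
    (he' : e' ∈ c.Rig E) (hw : w ∈ el i θ ∩ e') (hz : z ∈ Db (el i θ) ∩ Db e') :
    ∃ C : Set X, IsPreconnected C ∧ C ⊆ D (el i θ) ∩ D e' ∧ z ∈ C ∧ w ∈ C := by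
  have h1 : w ∈ c.nh (c.lev i) θ (4 * c.ε) := (hF.spl.loc i hi θ hθ).near hw.1
  have h2 := shd_near h hF hN he'.2.1 hw.2 hi hθ h1
  have h3 := (hN.sub e' he'.1)
  refine ⟨D e', (hN.sc e' he'.1).isPathConnected.isConnected.isPreconnected, ?_, h3.2 hz.2, h3.2 (h3.1 hw.2)⟩
  intro x hx
  refine ⟨?_, hx⟩
  rw [(hN.flex i hi θ hθ).1]
  rw [(hN.rig e' he').1] at hx
  exact (h2 hx).1

theorem she_aux (h : c.Ok) (hF : c.Fix Pt us el V E) (hN : Nb c el E D Db lv) : ∀ N t t' : ℕ, t + t' ≤ N →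
    ∀ (e e' : Set X) (i j : ℕ) (θ θ' : Set X) (w z : X), e ∈ E → e' ∈ E → e ≠ e' → i < c.nc → θ ∈ c.Eint i →
    (∀ j < t, c.f^[j] '' e ∈ c.Rig E) → c.f^[t] '' e = el i θ → j < c.nc → θ' ∈ c.Eint j →
    (∀ j < t', c.f^[j] '' e' ∈ c.Rig E) → c.f^[t'] '' e' = el j θ' → w ∈ e ∩ e' → z ∈ Db e ∩ Db e' →
    ∃ C : Set X, IsPreconnected C ∧ C ⊆ D e ∩ D e' ∧ z ∈ C ∧ w ∈ C := by
  intro N
  induction N with
  | zero =>
    intro t t' htt e e' i j θ θ' w z he he' hne hi hθ h1 h2 hj hθ' h1' h2' hw hz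
    obtain rfl : t = 0 := by omega
    obtain rfl : t' = 0 := by omega
    rw [Function.iterate_zero, image_id] at h2 h2'
    subst h2
    subst h2'
    exact she_flex h hF hN hi hθ hj hθ' hne hw hz
  | succ N ih =>
    intro t t' htt e e' i j θ θ' w z he he' hne hi hθ h1 h2 hj hθ' h1' h2' hw hz
    rcases Nat.eq_zero_or_pos t with ht | ht
    · subst ht
      rw [Function.iterate_zero, image_id] at h2
      subst h2
      rcases Nat.eq_zero_or_pos t' with ht' | ht'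
      · subst ht'
        rw [Function.iterate_zero, image_id] at h2'
        subst h2'
        exact she_flex h hF hN hi hθ hj hθ' hne hw hz
      · exact she_mix h hF hN hi hθ (she_type h hF ht' h1' h2').1 hw hz
    · obtain ⟨hr, h3, h4⟩ := she_type h hF ht h1 h2
      rcases Nat.eq_zero_or_pos t' with ht' | ht'
      · subst ht'
        rw [Function.iterate_zero, image_id] at h2'
        subst h2'
        obtain ⟨C, hC1, hC2, hC3, hC4⟩ := she_mix h hF hN hj hθ' hr ⟨hw.2, hw.1⟩ ⟨hz.2, hz.1⟩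
        exact ⟨C, hC1, fun x hx => ⟨(hC2 hx).2, (hC2 hx).1⟩, hC3, hC4⟩
      · obtain ⟨hr', h3', h4'⟩ := she_type h hF ht' h1' h2'
        obtain ⟨hfe, -, hcomp, -⟩ := sha_img h hF hr.2.1
        obtain ⟨hfe', -, hcomp', -⟩ := sha_img h hF hr'.2.1
        have hfne : c.f '' e ≠ c.f '' e' := by
          intro hee
          rw [← hee] at hcomp'
          exact hne (hcomp.eq hcomp' ⟨w, hw.1, hw.2⟩)
        have hz1 : z ∈ Dp c.f D e ∧ c.f z ∈ Db (c.f '' e) := by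
          have h5 := hz.1
          rw [(hN.rig e hr).2] at h5
          exact h5
        have hz2 : z ∈ Dp c.f D e' ∧ c.f z ∈ Db (c.f '' e') := by
          have h5 := hz.2
          rw [(hN.rig e' hr').2] at h5
          exact h5
        obtain ⟨C₁, hC1, hC2, hC3, hC4⟩ := ih (t - 1) (t' - 1) (by omega) (c.f '' e) (c.f '' e') i j θ θ' (c.f w) (c.f z)
          hfe hfe' hfne hi hθ h3 h4 hj hθ' h3' h4' ⟨mem_image_of_mem _ hw.1, mem_image_of_mem _ hw.2⟩ ⟨hz1.2, hz2.2⟩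
        have hwD : w ∈ Dp c.f D e ∩ Dp c.f D e' :=
          ⟨(shc_comp h hF hN hr.2.1).2.1 hw.1, (shc_comp h hF hN hr'.2.1).2.1 hw.2⟩
        obtain ⟨C', hC1', hC2', hC3', hC4'⟩ := shc_agree h hF hN hr.2.1 hr'.2.1 hC1 hC2 hwD hC4
        rw [← hC3'] at hC3
        obtain ⟨z', hz', hzz⟩ := hC3
        have hzeq : z' = z := (shc_bij h hF hN hr.2.1).1 (hC2' hz').1 hz1.1 hzz
        rw [hzeq] at hz'
        refine ⟨C', hC1', ?_, hz', hC4'⟩
        rw [(hN.rig e hr).1, (hN.rig e' hr').1]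
        exact hC2'

theorem she_cp (h : c.Ok) (hF : c.Fix Pt us el V E) (hN : Nb c el E D Db lv) (he : e ∈ E) (he' : e' ∈ E) (hne : e ≠ e')
    (hw : w ∈ e ∩ e') (hz : z ∈ Db e ∩ Db e') :
    ∃ C : Set X, IsPreconnected C ∧ C ⊆ D e ∩ D e' ∧ z ∈ C ∧ w ∈ C := by
  obtain ⟨t, i, hi, θ, hθ, h1, h2, -⟩ := hN.typ e he
  obtain ⟨t', j, hj, θ', hθ', h1', h2', -⟩ := hN.typ e' he'
  exact she_aux h hF hN (t + t') t t' le_rfl e e' i j θ θ' w z he he' hne hi hθ h1 h2 hj hθ' h1' h2' hw hz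

end Pool.ETM
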