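/-
Project ETM (MP_c7bb65_an), block SH.
MODULE ShF (difficulty 3).  10.5: one step of the construction of the shadowing map.

RECIPE.  `shf_phi`: `x ∈ e ∈ E`: `φ x ∈ φ '' e = ⋃₀ path e` (`Push.path_img`), `path e ⊆ pullE c.f E` (`Push.path_sub`); `f (φ x) ∈ f '' ε ∈ E` (`sha_img`).
`shf_step`: for `ε ∈ pullE c.f E` let `b ε` be the branch of `shc_branch`, `G ε x = b ε (g (f (φ x)))`.  If `φ x ∈ ε`: `f (φ x) ∈ f '' ε ∈ E`, so `g (f (φ x)) ∈ Db (f '' ε) ⊆ D (f '' ε)` (`hg.mem`), `G ε x ∈ Dp ε`, `f (G ε x) = g (f (φ x))`, so `G ε x ∈ Dq ε`.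
Agreement: let `φ x ∈ ε ∩ ε'`, `ε ≠ ε'`.  Then `f '' ε ≠ f '' ε'` (components of the same set with a common point, `sha_img`), `f (φ x) ∈ f '' ε ∩ f '' ε'` and `g (f (φ x)) ∈ Db (f '' ε) ∩ Db (f '' ε')`: `she_cp` gives `C ∋ g (f (φ x)), f (φ x)`; `shc_agree` at the point `φ x ∈ Dp ε ∩ Dp ε'` gives `C'`, and its point over `g (f (φ x))` is equal to `G ε x` and to `G ε' x` (injectivity of `f` on `Dp`, `shc_bij`).
Define `g' x = G ε x` for a chosen `ε` with `φ x ∈ ε` (`x ∈ ⋃₀ E`); then `g' x = G ε x` for all such `ε`.  Continuity on `⋃₀ E`: the sets `{x ∈ ⋃₀ E | φ x ∈ ε}`, `ε ∈ pullE c.f E`, are finitely many (`hF.adm1.good.pg.finE`), closed (`φ` is continuous on the closed set `⋃₀ E`), they cover `⋃₀ E`, and `g' = G ε` is continuous on each of them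
(`f (φ x) ∈ ⋃₀ E`): `LocallyFinite.continuousOn_iUnion`/`ContinuousOn` for finite closed covers.  `mem`: for `x ∈ e` choose `ε ∈ path e` with `φ x ∈ ε`; `g' x ∈ Dq ε ⊆ Db e` (`shd_path`).
-/
import Mathlib
import Pool.Agent.ETM.ShE

set_option autoImplicit false

open Set Metric Topology Filter
open Pool.JS

namespace Pool.ETM

variable {X : Type*} [MetricSpace X] [CompactSpace X] [Sph X] {c : Ctx X} {Pt : ℕ → Set X → X → Set X}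
  {us : ℕ → Set X → X → X} {el : ℕ → Set X → Set X} {V : Set X} {E : Set (Set X)} {φ : X → X}
  {path : Set X → Set (Set X)} {r : Set X → ℕ} {π : Set X → X → ℝ} {D Db : Set X → Set X} {lv : Set X → ℕ} {g : X → X}
  {e e' ε ε' θ θ' : Set X} {i j : ℕ} {x y z w : X}

theorem shf_phi (h : c.Ok) (hF : c.Fix Pt us el V E) (hP : c.Push el V E φ path r π) (he : e ∈ E) (hx : x ∈ e) :
    ∃ ε ∈ path e, ε ∈ pullE c.f E ∧ φ x ∈ ε ∧ c.f '' ε ∈ E ∧ c.f (φ x) ∈ c.f '' ε := by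
  have h1 : φ x ∈ φ '' e := mem_image_of_mem φ hx
  rw [hP.path_img e he] at h1
  obtain ⟨ε, hε, hxε⟩ := h1
  have h2 := hP.path_sub e he hε
  exact ⟨ε, hε, h2, hxε, (sha_img h hF h2).1, mem_image_of_mem c.f hxε⟩

theorem shf_step (h : c.Ok) (hF : c.Fix Pt us el V E) (hP : c.Push el V E φ path r π) (hN : Nb c el E D Db lv)
    (hg : Apx E Db g) : ∃ g' : X → X, Apx E Db g' ∧ Eqn c.f E D Db φ g g' := by
  classical
  have hbr : ∀ ε : Set X, ∃ b : X → X, ε ∈ pullE c.f E → (ContinuousOn b (D (c.f '' ε)) ∧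
      (∀ y ∈ D (c.f '' ε), b y ∈ Dp c.f D ε ∧ c.f (b y) = y) ∧ ∀ x ∈ Dp c.f D ε, b (c.f x) = x) := by
    intro ε
    by_cases hε : ε ∈ pullE c.f E
    · obtain ⟨b, hb⟩ := shc_branch h hF hN hε
      exact ⟨b, fun _ => hb⟩
    · exact ⟨id, fun hh => absurd hh hε⟩
  choose b hb using hbr
  -- the points
  have hpt : ∀ ε ∈ pullE c.f E, ∀ x, φ x ∈ ε → c.f '' ε ∈ E ∧ c.f (φ x) ∈ c.f '' ε ∧
      g (c.f (φ x)) ∈ Db (c.f '' ε) ∧ g (c.f (φ x)) ∈ D (c.f '' ε) := by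
    intro ε hε x hx
    have h1 := (sha_img h hF hε).1
    have h2 : c.f (φ x) ∈ c.f '' ε := mem_image_of_mem c.f hx
    have h3 := hg.mem _ h1 _ h2
    exact ⟨h1, h2, h3, (hN.sub _ h1).2 h3⟩
  have hG : ∀ ε ∈ pullE c.f E, ∀ x, φ x ∈ ε → b ε (g (c.f (φ x))) ∈ Dp c.f D ε ∧
      c.f (b ε (g (c.f (φ x)))) = g (c.f (φ x)) ∧ b ε (g (c.f (φ x))) ∈ Dq c.f D Db ε := by
    intro ε hε x hx
    obtain ⟨h1, h2, h3, h4⟩ := hpt ε hε x hx
    obtain ⟨h5, h6⟩ := (hb ε hε).2.1 _ h4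
    refine ⟨h5, h6, h5, ?_⟩
    show c.f (b ε (g (c.f (φ x)))) ∈ Db (c.f '' ε)
    rw [h6]
    exact h3
  have hagree : ∀ ε ∈ pullE c.f E, ∀ ε' ∈ pullE c.f E, ∀ x, φ x ∈ ε → φ x ∈ ε' →
      b ε (g (c.f (φ x))) = b ε' (g (c.f (φ x))) := by
    intro ε hε ε' hε' x hx hx'
    have hp : φ x ∈ Dp c.f D ε := (shc_comp h hF hN hε).2.1 hx
    have hp' : φ x ∈ Dp c.f D ε' := (shc_comp h hF hN hε').2.1 hx'
    by_cases hee : c.f '' ε = c.f '' ε'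
    · rw [shc_same h hF hN hε hε' hee ⟨φ x, hp, hp'⟩]
    · obtain ⟨h1, h2, h3, h4⟩ := hpt ε hε x hx
      obtain ⟨h1', h2', h3', h4'⟩ := hpt ε' hε' x hx'
      obtain ⟨C, hC, hCs, hzC, hwC⟩ := she_cp h hF hN h1 h1' hee ⟨h2, h2'⟩ ⟨h3, h3'⟩
      obtain ⟨C', -, hCs', hCi, -⟩ := shc_agree h hF hN hε hε' hC hCs ⟨hp, hp'⟩ hwC
      rw [← hCi] at hzC
      obtain ⟨y, hy, hyz⟩ := hzC
      obtain ⟨a1, a2, -⟩ := hG ε hε x hx
      obtain ⟨a1', a2', -⟩ := hG ε' hε' x hx'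
      have e1 : b ε (g (c.f (φ x))) = y := (shc_bij h hF hN hε).1 a1 (hCs' hy).1 (by rw [a2, hyz])
      have e2 : b ε' (g (c.f (φ x))) = y := (shc_bij h hF hN hε').1 a1' (hCs' hy).2 (by rw [a2', hyz])
      rw [e1, e2]
  obtain ⟨g', hg'⟩ : ∃ g' : X → X, ∀ ε ∈ pullE c.f E, ∀ x, φ x ∈ ε → g' x = b ε (g (c.f (φ x))) := by
    refine ⟨fun x => if hx : ∃ ε, ε ∈ pullE c.f E ∧ φ x ∈ ε then b hx.choose (g (c.f (φ x))) else x, ?_⟩
    intro ε hε x hx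
    have hx' : ∃ ε, ε ∈ pullE c.f E ∧ φ x ∈ ε := ⟨ε, hε, hx⟩
    show (if hx : ∃ ε, ε ∈ pullE c.f E ∧ φ x ∈ ε then b hx.choose (g (c.f (φ x))) else x) = _
    rw [dif_pos hx']
    exact hagree _ hx'.choose_spec.1 ε hε x hx'.choose_spec.2 hx
  have hclosed : IsClosed (⋃₀ E) := hF.adm.good.pg.toGrX.isClosed_sUnion subset_rfl
  have hfin : (pullE c.f E).Finite := hF.adm1.good.pg.finE
  refine ⟨g', ⟨?_, ?_⟩, ?_⟩
  · have : Finite (pullE c.f E) := hfin.to_subtype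
    have hcov : ⋃₀ E = ⋃ ε : pullE c.f E, (⋃₀ E ∩ φ ⁻¹' ε.1) := by
      apply Subset.antisymm
      · rintro x ⟨e, he, hx⟩
        obtain ⟨ε, -, hε, hxε, -⟩ := shf_phi h hF hP he hx
        exact mem_iUnion.2 ⟨⟨ε, hε⟩, ⟨e, he, hx⟩, hxε⟩
      · intro x hx
        obtain ⟨ε, hxε⟩ := mem_iUnion.1 hx
        exact hxε.1
    rw [hcov]
    refine (locallyFinite_of_finite _).continuousOn_iUnion (fun ε => ?_) fun ε => ?_
    · exact hP.cont.preimage_isClosed_of_isClosed hclosed (sha_img h hF ε.2).2.2.2.2.2.isClosed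
    · have hc1 : ContinuousOn (fun x => b ε.1 (g (c.f (φ x)))) (⋃₀ E ∩ φ ⁻¹' ε.1) := by
        have hc2 : ContinuousOn (fun x => c.f (φ x)) (⋃₀ E ∩ φ ⁻¹' ε.1) :=
          h.dyn.cont.comp_continuousOn (hP.cont.mono inter_subset_left)
        have hc3 : ContinuousOn (fun x => g (c.f (φ x))) (⋃₀ E ∩ φ ⁻¹' ε.1) :=
          hg.cont.comp hc2 fun x hx => ⟨_, (hpt ε.1 ε.2 x hx.2).1, (hpt ε.1 ε.2 x hx.2).2.1⟩
        exact (hb ε.1 ε.2).1.comp hc3 fun x hx => (hpt ε.1 ε.2 x hx.2).2.2.2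
      exact hc1.congr fun x hx => hg' ε.1 ε.2 x hx.2
  · intro e he x hx
    obtain ⟨ε, hεp, hε, hxε, -⟩ := shf_phi h hF hP he hx
    rw [hg' ε hε x hxε]
    exact (shd_path h hF hP hN he hεp).2 (hG ε hε x hxε).2.2
  · intro x hx
    obtain ⟨e, he, hxe⟩ := hx
    obtain ⟨ε, hεp, hε, hxε, -⟩ := shf_phi h hF hP he hxe
    refine ⟨?_, fun ε' hε' hxε' => ?_⟩
    · rw [hg' ε hε x hxε]
      exact (hG ε hε x hxε).2.1
    · rw [hg' ε' hε' x hxε']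
      exact (hG ε' hε' x hxε').2.2

end Pool.ETM
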