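/-
Project ETM (MP_c7bb65_an), block SH.
MODULE ShG (difficulty 3).  10.5: convergence, the shadowing map.

RECIPE.  Let `H 0 = id` (`Apx E Db id` by `Nb.sub`) and `H (n + 1)` be obtained from `H n` by `shf_step` (recursion in the subtype of `Apx` functions): `Eqn c.f E D Db φ (H n) (H (n + 1))`.
CLAIM(n) (induction on `n`): for all `e ∈ E`, `x ∈ e` there are `C ⊆ Db e` preconnected and `e₁ ∈ E` with `H (n + p) x ∈ C` for all `p` and `f^[n] '' C ⊆ Db e₁`.  `n = 0`: `C = Db e` (`Nb.comp`, `Apx.mem`).  `n + 1`: let `ε ∈ path e`, `φ x ∈ ε` (`shf_phi`), CLAIM(n) for `f (φ x) ∈ f '' ε` gives `C' ⊆ Db (f '' ε)`, `H (n + p) (f (φ x)) ∈ C'`.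
Let `b` be the branch of `shc_branch`, `C = b '' C' ⊆ Dq ε ⊆ Db e` (`shd_path`); `H (n + 1 + p) x ∈ Dq ε` and `f (H (n + 1 + p) x) = H (n + p) (f (φ x))`, so `H (n + 1 + p) x = b (..) ∈ C`.  `f^[n + 1] '' C = f^[n] '' C'`.
Hence `diam (f^[lv e₁ + n] '' C) ≤ diam (f^[lv e₁] '' D e₁) < η` and by `Expd.contr` for every `δ > 0` there is `m₀` such that for `n ≥ m₀`: `diam C < δ`, so `dist (H n x) (H (n + p) x) < δ` for all `x ∈ ⋃₀ E` and all `p`: `H` is uniformly Cauchy on `⋃₀ E`; `X` is complete, the limit `g` is continuous on `⋃₀ E` (`UniformCauchySeqOn`, `TendstoUniformlyOn.continuousOn`).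
`g x ∈ Db e` and `g x ∈ Dq ε` (`φ x ∈ ε`): these sets are compact (`Nb.comp`, `shc_q`), so closed, and contain `H (n + 1) x` for all `n`.  `f (g x) = lim f (H (n + 1) x) = lim H n (f (φ x)) = g (f (φ x))` (`f (φ x) ∈ ⋃₀ E`).
-/
import Mathlib
import Pool.Agent.ETM.ShF

set_option autoImplicit false

open Set Metric Topology Filter
open Pool.JS

namespace Pool.ETM

variable {X : Type*} [MetricSpace X] [CompactSpace X] [Sph X] {c : Ctx X} {Pt : ℕ → Set X → X → Set X}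
  {us : ℕ → Set X → X → X} {el : ℕ → Set X → Set X} {V : Set X} {E : Set (Set X)} {φ : X → X}
  {path : Set X → Set (Set X)} {r : Set X → ℕ} {π : Set X → X → ℝ} {D Db : Set X → Set X} {lv : Set X → ℕ} {g : X → X}
  {e e' ε ε' θ θ' : Set X} {i j : ℕ} {x y z w : X}

private theorem shg_seq (h : c.Ok) (hF : c.Fix Pt us el V E) (hP : c.Push el V E φ path r π) (hN : Nb c el E D Db lv) :
    ∃ H : ℕ → X → X, (∀ n, Apx E Db (H n)) ∧ ∀ n, Eqn c.f E D Db φ (H n) (H (n + 1)) := by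
  have hstep : ∀ s : {g : X → X // Apx E Db g}, ∃ s' : {g : X → X // Apx E Db g}, Eqn c.f E D Db φ s.1 s'.1 := by
    rintro ⟨g, hg⟩
    obtain ⟨g', h1, h2⟩ := shf_step h hF hP hN hg
    exact ⟨⟨g', h1⟩, h2⟩
  choose F hF' using hstep
  have h0 : Apx E Db (id : X → X) := ⟨continuousOn_id, fun e he x hx => (hN.sub e he).1 hx⟩
  refine ⟨fun n => (F^[n] ⟨id, h0⟩).1, fun n => (F^[n] ⟨id, h0⟩).2, fun n => ?_⟩
  show Eqn c.f E D Db φ (F^[n] ⟨id, h0⟩).1 (F^[n + 1] ⟨id, h0⟩).1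
  rw [Function.iterate_succ_apply']
  exact hF' _

private theorem shg_claim (h : c.Ok) (hF : c.Fix Pt us el V E) (hP : c.Push el V E φ path r π) (hN : Nb c el E D Db lv)
    {H : ℕ → X → X} (hA : ∀ n, Apx E Db (H n)) (hE : ∀ n, Eqn c.f E D Db φ (H n) (H (n + 1))) (n : ℕ) :
    ∀ e ∈ E, ∀ x ∈ e, ∃ (C e₁ : Set X), IsPreconnected C ∧ C ⊆ Db e ∧ e₁ ∈ E ∧ (∀ p, H (n + p) x ∈ C) ∧
      c.f^[n] '' C ⊆ Db e₁ := by
  induction n with
  | zero =>
    intro e he x hx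
    refine ⟨Db e, e, (hN.comp e he).2.isPreconnected, Subset.rfl, he, fun p => (hA _).mem e he x hx, ?_⟩
    simp
  | succ n ih =>
    intro e he x hx
    obtain ⟨ε, hεp, hεE, hφε, hfε, hfφ⟩ := shf_phi h hF hP he hx
    obtain ⟨C', e₁, hC', hCs, he₁, hH, him⟩ := ih _ hfε _ hfφ
    obtain ⟨b, hb, hbD, hbf⟩ := shc_branch h hF hN hεE
    have hCD : C' ⊆ D (c.f '' ε) := hCs.trans (hN.sub _ hfε).2
    have hfb : c.f '' (b '' C') = C' := by
      ext y
      constructor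
      · rintro ⟨_, ⟨y', hy', rfl⟩, rfl⟩
        rw [(hbD y' (hCD hy')).2]
        exact hy'
      · intro hy
        exact ⟨b y, mem_image_of_mem _ hy, (hbD y (hCD hy)).2⟩
    refine ⟨b '' C', e₁, hC'.image b (hb.mono hCD), ?_, he₁, fun p => ?_, ?_⟩
    · rintro _ ⟨y, hy, rfl⟩
      refine (shd_path h hF hP hN he hεp).2 ⟨(hbD y (hCD hy)).1, ?_⟩
      show c.f (b y) ∈ Db (c.f '' ε)
      rw [(hbD y (hCD hy)).2]
      exact hCs hy
    · obtain ⟨h1, h2⟩ := hE (n + p) x ⟨e, he, hx⟩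
      have h3 := h2 ε hεE hφε
      have h4 : n + 1 + p = n + p + 1 := by omega
      rw [h4]
      refine ⟨H (n + p) (c.f (φ x)), hH p, ?_⟩
      rw [← h1]
      exact hbf _ h3.1
    · rw [Function.iterate_succ, image_comp, hfb]
      exact him

theorem shg_limit (h : c.Ok) (hF : c.Fix Pt us el V E) (hP : c.Push el V E φ path r π) (hN : Nb c el E D Db lv) :
    ∃ g : X → X, Apx E Db g ∧ Eqn c.f E D Db φ g g := by
  obtain ⟨H, hA, hE⟩ := shg_seq h hF hP hN
  have hcau : UniformCauchySeqOn H atTop (⋃₀ E) := by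
    rw [Metric.uniformCauchySeqOn_iff]
    intro δ hδ
    obtain ⟨m₀, hm₀⟩ := h.expd.contr δ hδ
    refine ⟨m₀, fun m hm n hn x hx => ?_⟩
    obtain ⟨e, he, hxe⟩ := hx
    obtain ⟨C, e₁, hC, hCs, he₁, hH, him⟩ := shg_claim h hF hP hN hA hE m₀ e he x hxe
    have h1 : diam (c.f^[lv e₁ + m₀] '' C) < c.η := by
      refine lt_of_le_of_lt (diam_mono ?_ isBounded_of_compactSpace) (hN.small e₁ he₁)
      rw [Function.iterate_add, image_comp]
      exact image_mono (him.trans (hN.sub e₁ he₁).2)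
    have h2 := hm₀ (lv e₁ + m₀) (Nat.le_add_left _ _) C hC h1
    have h3 : H m x ∈ C := by
      have := hH (m - m₀)
      rwa [Nat.add_sub_cancel' hm] at this
    have h4 : H n x ∈ C := by
      have := hH (n - m₀)
      rwa [Nat.add_sub_cancel' hn] at this
    exact lt_of_le_of_lt (dist_le_diam_of_mem isBounded_of_compactSpace h3 h4) h2
  have hlim : ∀ x, ∃ y, x ∈ ⋃₀ E → Tendsto (fun n => H n x) atTop (𝓝 y) := by
    intro x
    by_cases hx : x ∈ ⋃₀ E
    · have hc : CauchySeq fun n => H n x := by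
        rw [Metric.cauchySeq_iff]
        intro δ hδ
        obtain ⟨N, hN'⟩ := Metric.uniformCauchySeqOn_iff.mp hcau δ hδ
        exact ⟨N, fun m hm n hn => hN' m hm n hn x hx⟩
      obtain ⟨y, hy⟩ := cauchySeq_tendsto_of_complete hc
      exact ⟨y, fun _ => hy⟩
    · exact ⟨x, fun h1 => absurd h1 hx⟩
  choose g hg using hlim
  have hunif : TendstoUniformlyOn H g atTop (⋃₀ E) := hcau.tendstoUniformlyOn_of_tendsto hg
  refine ⟨g, ⟨hunif.continuousOn (Eventually.of_forall fun n => (hA n).cont).frequently, fun e he x hx => ?_⟩,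
    fun x hx => ⟨?_, fun ε hε hφ => ?_⟩⟩
  · exact (hN.comp e he).1.isClosed.mem_of_tendsto (hg x ⟨e, he, hx⟩)
      (Eventually.of_forall fun n => (hA n).mem e he x hx)
  · obtain ⟨e, he, hxe⟩ := hx
    obtain ⟨ε, hεp, hεE, hφε, hfε, hfφ⟩ := shf_phi h hF hP he hxe
    have h1 : Tendsto (fun n => H (n + 1) x) atTop (𝓝 (g x)) :=
      (hg x ⟨e, he, hxe⟩).comp (tendsto_add_atTop_nat 1)
    have h2 : Tendsto (fun n => c.f (H (n + 1) x)) atTop (𝓝 (c.f (g x))) := (h.dyn.cont.tendsto _).comp h1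
    have h3 : (fun n => c.f (H (n + 1) x)) = fun n => H n (c.f (φ x)) := by
      funext n
      exact (hE n x ⟨e, he, hxe⟩).1
    rw [h3] at h2
    exact tendsto_nhds_unique h2 (hg _ ⟨_, hfε, hfφ⟩)
  · have h1 : Tendsto (fun n => H (n + 1) x) atTop (𝓝 (g x)) := (hg x hx).comp (tendsto_add_atTop_nat 1)
    exact (shc_q h hF hN hε).1.isClosed.mem_of_tendsto h1 (Eventually.of_forall fun n => (hE n x hx).2 ε hε hφ)

end Pool.ETM
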