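/-
Project ETM (MP_c7bb65_an), block SH.
MODULE ShH (difficulty 2).  10.6: the depth is almost constant on `D e`; flexible edges near deep markers; recurrence.

RECIPE.  `shh_lv`: `Nb.typ`: `lv e = lev i + t`, `lev i = k0 + 2 m i`.  `shh_drop`: induction on `t`: `t = 0` is the hypothesis; `t + 1`: if `δ x < 1` clear (`0 ≤ nb`); otherwise `f x ∉ Z`, `δ (f x) = δ x - 1` (`Dep.step`), induction hypothesis for `f x`.
`shh_deep`: by `sha_cases`: `e ⊆ K (pullE c.f E)`: `K_deep` (with `hF.adm1`); `e = el i θ`: `el_facts` and `nb + 1 ≤ nhole` (`nhole = kT + n0`, `kT = k0 + .. ≥ nb + m + 10`).  Then `lv_osc` with `C = D e` (connected: `Nb.sc`), `ℓ = lv e`: `k0 ≤ lv e`; with the type `t, i, θ` of `e`: `f^[t] x ∈ el i θ`, so `δ (f^[t] x) < nb + 1` (`el_facts`), `δ x < t + nb + 1` (`shh_drop`), `k0 + δ x - nb - 1 ≤ k0 + t ≤ lv e`.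
`shh_flex`: `|a i x - a i z| < w / 1000` (`MarkOk.osca` with `n = lv e`, `C = D e`, `Nb.small`), so `a i x > w / 2 - w / 1000 > w / 3`; `e ⊆ K` is impossible by `K_shallow`; so `e = el j θ`, `0 < a j x` (`el_facts`), `i = j` (`sq_colour`).
`shh_rec`: `MarkOk.m2a` at `f^[t] z`: a time `s` with `w / 2 ≤ a i`, or `∈ Z` (excluded), or `nb + 1 ≤ δ (f^[s] (f^[t] z))`; in the last case `MarkOk.m2b` at this point gives a later time with `1 / 4 ≤ a i`, and `w / 2 ≤ 1 / 16`.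
-/
import Mathlib
import Pool.Agent.ETM.ShD

set_option autoImplicit false

open Set Metric Topology Filter
open Pool.JS

namespace Pool.ETM

variable {X : Type*} [MetricSpace X] [CompactSpace X] [Sph X] {c : Ctx X} {Pt : ℕ → Set X → X → Set X}
  {us : ℕ → Set X → X → X} {el : ℕ → Set X → Set X} {V : Set X} {E : Set (Set X)} {φ : X → X}
  {path : Set X → Set (Set X)} {r : Set X → ℕ} {π : Set X → X → ℝ} {D Db : Set X → Set X} {lv : Set X → ℕ} {g : X → X}
  {e e' ε ε' θ θ' : Set X} {i j : ℕ} {x y z w : X}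

theorem shh_lv (hN : Nb c el E D Db lv) (he : e ∈ E) : c.k0 ≤ lv e := by
  obtain ⟨t, i, hi, θ, hθ, h1, h2, h3⟩ := hN.typ e he
  rw [h3]
  unfold Ctx.lev
  omega

omit [CompactSpace X] [Sph X] in
theorem shh_drop (h : c.DepthOk) {t : ℕ} (hx : x ∉ c.Z) (ht : c.δ (c.f^[t] x) < c.nb + 1) : c.δ x < t + c.nb + 1 := by
  induction t generalizing x with
  | zero =>
    have : c.δ x < c.nb + 1 := ht
    push_cast
    linarith
  | succ t ih =>
    by_cases h1 : 1 ≤ c.δ x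
    · obtain ⟨h2, h3⟩ := h.dep.step x hx h1
      have h4 := ih h2 ht
      rw [h3] at h4
      push_cast
      linarith
    · have h5 : (0 : ℝ) ≤ c.nb := Nat.cast_nonneg _
      have h6 : (0 : ℝ) ≤ t := Nat.cast_nonneg _
      push_cast
      push Not at h1
      linarith

theorem shh_deep (h : c.Ok) (hF : c.Fix Pt us el V E) (hN : Nb c el E D Db lv) (he : e ∈ E) (hx : x ∈ e) :
    x ∉ c.Z ∧ c.δ x < c.nhole + 1 / 8 ∧ ∀ y ∈ D e, y ∉ c.Z ∧ |c.δ y - c.δ x| < 1 / 16 := by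
  have hx1 : x ∉ c.Z ∧ c.δ x < c.nhole + 1 / 8 := by
    rcases sha_cases hF he with ⟨-, hK⟩ | ⟨i, hi, θ, hθ, rfl⟩
    · exact K_deep h hF.adm1 (hK hx)
    · obtain ⟨-, h2, h3⟩ := el_facts h hF.adm1 hF.spl.loc hi hθ hx
      refine ⟨h2, ?_⟩
      have h4 : c.nb + 1 ≤ c.nhole := by
        have := h.mark.k0big
        unfold Ctx.nhole Ctx.kT
        omega
      have h5 : (c.nb : ℝ) + 1 ≤ c.nhole := by exact_mod_cast h4
      linarith
  refine ⟨hx1.1, hx1.2, ?_⟩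
  obtain ⟨t, i, hi, θ, hθ, h1, h2, h3⟩ := hN.typ e he
  have h4 : c.f^[t] x ∈ el i θ := by
    rw [← h2]
    exact mem_image_of_mem _ hx
  have h5 := (el_facts h hF.adm1 hF.spl.loc hi hθ h4).2.2
  have h6 := shh_drop h.dep hx1.1 h5
  have h7 : (c.k0 : ℝ) + t ≤ lv e := by
    have : c.k0 + t ≤ lv e := by
      rw [h3]
      unfold Ctx.lev
      omega
    exact_mod_cast this
  have h8 := hN.sub e he
  exact lv_osc h hx1.1 (by linarith [hx1.2]) (hN.sc e he).isPathConnected.isConnected.isPreconnected (h8.2 (h8.1 hx))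
    (hN.small e he) (shh_lv hN he) (by linarith)

theorem shh_flex (h : c.Ok) (hF : c.Fix Pt us el V E) (hN : Nb c el E D Db lv) (he : e ∈ E) (hx : x ∈ e) (hz : z ∈ D e)
    (hi : i < c.nc) (ha : c.w / 2 ≤ c.a i z) : ∃ θ ∈ c.Eint i, e = el i θ := by
  have h8 := hN.sub e he
  have h1 := h.mark.osca (lv e) (shh_lv hN he) (D e) (hN.sc e he).isPathConnected.isConnected.isPreconnected
    (hN.small e he) x (h8.2 (h8.1 hx)) z hz i hi
  have h2 := h.mark.wpos
  have h3 := abs_lt.mp h1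
  have h4 : c.w / 3 < c.a i x := by linarith [h3.1]
  rcases sha_cases hF he with ⟨-, hK⟩ | ⟨j, hj, θ, hθ, rfl⟩
  · have := K_shallow h hF.adm1 hi (hK hx)
    linarith
  · have h5 := (el_facts h hF.adm1 hF.spl.loc hj hθ hx).1
    have h6 : i = j := sq_colour h hi hj (x := x) (by linarith) (by linarith)
    subst h6
    exact ⟨θ, hθ, rfl⟩

theorem shh_rec (h : c.Ok) (hz : ∀ t, c.f^[t] z ∉ c.Z) (t : ℕ) : ∃ s ≥ t, ∃ i < c.nc, c.w / 2 ≤ c.a i (c.f^[s] z) := by
  obtain ⟨t', ht', h1⟩ := h.mark.m2a (c.f^[t] z)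
  rw [← Function.iterate_add_apply] at h1
  rcases h1 with ⟨i, hi, ha⟩ | h1 | h1
  · exact ⟨t' + t, by omega, i, hi, ha⟩
  · exact (hz _ h1).elim
  · obtain ⟨t'', -, ⟨i, hi, ha⟩, -⟩ := h.mark.m2b (c.f^[t' + t] z) (hz _) (by linarith)
    rw [← Function.iterate_add_apply] at ha
    refine ⟨t'' + (t' + t), by omega, i, hi, ?_⟩
    have := h.mark.wle
    linarith

end Pool.ETM
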