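/-
Project ETM (MP_c7bb65_an), block SH.
MODULE ShI (difficulty 3).  10.7, first part: common vertices.

RECIPE.  `shi_base`: `k = lev i`; if `θ = θ'` clear (edges are nonempty).  `z ∈ nh k θ (10 ε) ∩ nh k θ' (10 ε)` (`Nb.flex`): `NetOk.two` gives a vertex `v ∈ θ ∩ θ'`.  If `v ∈ Vbd i` then `θ = θ'` by `lv_bd`.  Otherwise `v ∈ Vint i` (`Vint_or_Vbd`), and `v` is an end point of `el i θ` and of `el i θ'` (`Loc.arc` for `v` and the other end of `θ` (`net_other`), `wend i us v = v` for `v ∈ Vint i`; the end points of an arc are in it).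
`shi_unique`: `u, u' ∈ e ∩ e' ⊆ V` (`PG.inter`), `sq_two`.
`shi_step`: first part: `shc_same` (`z ∈ Dp ε ∩ Dp ε'`).  Second part: `she_cp` for `f '' ε ≠ f '' ε'`, the point `w` and `f z ∈ Db (f '' ε) ∩ Db (f '' ε')` gives `C ∋ f z, w`; `shc_agree` at `z` gives `C' ⊆ Dp ε ∩ Dp ε'` and `w' ∈ C'` with `f w' = w`; `w = f w₁` with `w₁ ∈ ε ⊆ Dp ε`, so `w' = w₁ ∈ ε` (`shc_bij`), and in the same way `w' ∈ ε'`.
-/
import Mathlib
import Pool.Agent.ETM.ShE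

set_option autoImplicit false

open Set Metric Topology Filter
open Pool.JS

namespace Pool.ETM

variable {X : Type*} [MetricSpace X] [CompactSpace X] [Sph X] {c : Ctx X} {Pt : ℕ → Set X → X → Set X}
  {us : ℕ → Set X → X → X} {el : ℕ → Set X → Set X} {V : Set X} {E : Set (Set X)} {φ : X → X}
  {path : Set X → Set (Set X)} {r : Set X → ℕ} {π : Set X → X → ℝ} {D Db : Set X → Set X} {lv : Set X → ℕ} {g : X → X}
  {e e' ε ε' θ θ' : Set X} {i j : ℕ} {x y z w : X}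

theorem shi_base (h : c.Ok) (hF : c.Fix Pt us el V E) (hN : Nb c el E D Db lv) (hi : i < c.nc) (hθ : θ ∈ c.Eint i)
    (hθ' : θ' ∈ c.Eint i) (hz : z ∈ Db (el i θ)) (hz' : z ∈ Db (el i θ')) : (el i θ ∩ el i θ').Nonempty := by
  by_cases hθθ : θ = θ'
  · subst hθθ
    obtain ⟨x, hx⟩ := (sha_inf hF.adm.good (sha_el hF hi hθ)).1.nonempty
    exact ⟨x, hx, hx⟩
  · rw [(hN.flex i hi θ hθ).2] at hz
    rw [(hN.flex i hi θ' hθ').2] at hz'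
    obtain ⟨v, hv, hvθ, hvθ', _⟩ := h.net.two (c.lev i) θ hθ.1 θ' hθ'.1 hθθ (10 * c.ε) le_rfl z ⟨hz, hz'⟩
    rcases Vint_or_Vbd h.net hθ hv hvθ with ⟨hvi, _⟩ | ⟨hvb, _⟩
    · have key : ∀ ϑ ∈ c.Eint i, v ∈ ϑ → v ∈ el i ϑ := by
        intro ϑ hϑ hvϑ
        obtain ⟨v', hv', hvϑ', hne, _⟩ := net_other h.net hϑ.1 hv hvϑ
        have h3 := (hF.spl.loc i hi ϑ hϑ).arc v hv v' hv' hvϑ hvϑ' hne.symm
        have h4 : c.wend i (us i ϑ) v = v := by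
          unfold Ctx.wend
          rw [if_pos hvi]
        rw [h4] at h3
        exact h3.left_mem
      exact ⟨v, key θ hθ hvθ, key θ' hθ' hvθ'⟩
    · exact absurd (lv_bd h hi hvb ⟨hθ, hvθ⟩ ⟨hθ', hvθ'⟩) hθθ

theorem shi_unique (hG : Good V E) (he : e ∈ E) (he' : e' ∈ E) (hne : e ≠ e') (hx : x ∈ e ∩ e') (hy : y ∈ e ∩ e') :
    x = y := by
  by_contra hxy
  exact hne (sq_two hG he he' hxy (hG.pg.inter e he e' he' hne hx) (hG.pg.inter e he e' he' hne hy) hx.1 hx.2 hy.1 hy.2)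

theorem shi_step (h : c.Ok) (hF : c.Fix Pt us el V E) (hN : Nb c el E D Db lv) (hε : ε ∈ pullE c.f E)
    (hε' : ε' ∈ pullE c.f E) (hz : z ∈ Dq c.f D Db ε ∩ Dq c.f D Db ε') :
    (c.f '' ε = c.f '' ε' → ε = ε') ∧
      (c.f '' ε ≠ c.f '' ε' → ∀ w ∈ c.f '' ε ∩ c.f '' ε', ∃ w' ∈ ε ∩ ε', c.f w' = w) := by
  have hzp : z ∈ Dp c.f D ε ∩ Dp c.f D ε' := ⟨hz.1.1, hz.2.1⟩
  refine ⟨fun he => shc_same h hF hN hε hε' he ⟨z, hzp⟩, fun hne w hw => ?_⟩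
  obtain ⟨C, hC, hCs, hzC, hwC⟩ := she_cp h hF hN (sha_img h hF hε).1 (sha_img h hF hε').1 hne hw
    (show c.f z ∈ Db (c.f '' ε) ∩ Db (c.f '' ε') from ⟨hz.1.2, hz.2.2⟩)
  obtain ⟨C', hC', hCs', him, hzC'⟩ := shc_agree h hF hN hε hε' hC hCs hzp hzC
  rw [← him] at hwC
  obtain ⟨w', hw', hfw⟩ := hwC
  have key : ∀ ϑ ∈ pullE c.f E, w ∈ c.f '' ϑ → w' ∈ Dp c.f D ϑ → w' ∈ ϑ := by
    rintro ϑ hϑ ⟨w₁, hw₁, hfw₁⟩ hwD
    have h1 : w₁ ∈ Dp c.f D ϑ := (shc_comp h hF hN hϑ).2.1 hw₁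
    have h2 : w' = w₁ := (shc_bij h hF hN hϑ).1 hwD h1 (hfw.trans hfw₁.symm)
    rw [h2]
    exact hw₁
  exact ⟨w', ⟨key ε hε hw.1 (hCs' hw').1, key ε' hε' hw.2 (hCs' hw').2⟩, hfw⟩

end Pool.ETM
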