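/-
Project ETM (MP_c7bb65_an), block SH.
MODULE ShJ (difficulty 3).  10.7, second part: the length of a pair does not decrease.

RECIPE.  `shj_exists`: clear (if `e ≠ e'` take `u ∈ e ∩ e'`).  `shj_bound`: `π e` maps `e` to `[0, 1]` and is injective on `e` (`Push.πimg`, `Push.πinj`); if `ℓ = 0` and `e ≠ e'` then `x = u = y`.
`shj_step`: `z = g x = g y ∈ Dq ε ∩ Dq ε'` (`Eqn`).  `ε ⊆ φ '' e`, `ε' ⊆ φ '' e'` (`Push.path_img`).  By `shi_step` either (A) `f '' ε = f '' ε'` and `ε = ε'`, or (B) `f '' ε ≠ f '' ε'`, so `ε ≠ ε'`, and for a point `w ∈ f '' ε ∩ f '' ε'` (hypothesis `hQ`) there is `w' ∈ ε ∩ ε'`, `f w' = w`.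
In both cases `φ '' e ∩ φ '' e'` is nonempty (`ε` is nonempty), and by injectivity of `φ` on `⋃₀ E`: `e ∩ e'` is nonempty.
(A): if `e ≠ e'` then `φ '' e ∩ φ '' e' = φ '' (e ∩ e')` contains the infinite set `ε`, but `e ∩ e' ⊆ V` is finite: so `e = e'`, `ℓ = |π e x - π e y|`, and `ℓ' = |π (f '' ε) (f (φ x)) - π (f '' ε) (f (φ y))| = r e * ℓ` by `Push.lin`.
(B): `w' = φ x̃` with `x̃ ∈ e` and `x̃ ∈ e'` (injectivity).  `Push.lin` for `e, ε` and the points `x, x̃`: `|π (f '' ε) (f (φ x)) - π (f '' ε) w| = r e * |π e x - π e x̃|`, and the same for `e', ε'`, `y`, `x̃`.  `ℓ' =` the sum of these two numbers (`Lr`, second case, `u = w`).  If `e = e'`: `ℓ = |π e x - π e y| ≤ |π e x - π e x̃| + |π e y - π e x̃|`.  If `e ≠ e'`: the point `u` in `Lr π e e' x y ℓ` is `x̃` (`shi_unique`).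
-/
import Mathlib
import Pool.Agent.ETM.ShI

set_option autoImplicit false

open Set Metric Topology Filter
open Pool.JS

namespace Pool.ETM

variable {X : Type*} [MetricSpace X] [CompactSpace X] [Sph X] {c : Ctx X} {Pt : ℕ → Set X → X → Set X}
  {us : ℕ → Set X → X → X} {el : ℕ → Set X → Set X} {V : Set X} {E : Set (Set X)} {φ : X → X}
  {path : Set X → Set (Set X)} {r : Set X → ℕ} {π : Set X → X → ℝ} {D Db : Set X → Set X} {lv : Set X → ℕ} {g : X → X}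
  {e e' ε ε' θ θ' : Set X} {i j : ℕ} {x y z w : X}

theorem shj_exists (hQ : (e ∩ e').Nonempty) (π : Set X → X → ℝ) (x y : X) : ∃ ℓ, Lr π e e' x y ℓ := by
  by_cases hee : e = e'
  · exact ⟨_, Or.inl ⟨hee, rfl⟩⟩
  · obtain ⟨u, hu⟩ := hQ
    exact ⟨_, Or.inr ⟨hee, u, hu, rfl⟩⟩

theorem shj_bound (hP : c.Push el V E φ path r π) (he : e ∈ E) (he' : e' ∈ E) (hx : x ∈ e) (hy : y ∈ e') {ℓ : ℝ}
    (hL : Lr π e e' x y ℓ) : 0 ≤ ℓ ∧ ℓ ≤ 2 ∧ (ℓ = 0 → x = y) := by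
  have hI : ∀ a ∈ E, ∀ p ∈ a, 0 ≤ π a p ∧ π a p ≤ 1 := by
    intro a ha p hp
    have h1 : π a p ∈ π a '' a := mem_image_of_mem _ hp
    rw [hP.πimg a ha] at h1
    exact h1
  have hd : ∀ a ∈ E, ∀ p ∈ a, ∀ q ∈ a, |π a p - π a q| ≤ 1 ∧ (|π a p - π a q| = 0 → p = q) := by
    intro a ha p hp q hq
    have h1 := hI a ha p hp
    have h2 := hI a ha q hq
    refine ⟨abs_le.2 ⟨by linarith, by linarith⟩, fun h3 => ?_⟩
    exact hP.πinj a ha hp hq (sub_eq_zero.1 (abs_eq_zero.1 h3))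
  rcases hL with ⟨hee, hl⟩ | ⟨hee, u, hu, hl⟩
  · have hy' : y ∈ e := by rw [hee]; exact hy
    have h1 := hd e he x hx y hy'
    refine ⟨by rw [hl]; exact abs_nonneg _, by rw [hl]; linarith [h1.1], fun h2 => ?_⟩
    exact h1.2 (by rw [← hl]; exact h2)
  · have h1 := hd e he x hx u hu.1
    have h2 := hd e' he' y hy u hu.2
    have h3 := abs_nonneg (π e x - π e u)
    have h4 := abs_nonneg (π e' y - π e' u)
    refine ⟨by rw [hl]; linarith, by rw [hl]; linarith [h1.1, h2.1], fun h5 => ?_⟩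
    have h6 : x = u := h1.2 (by linarith)
    have h7 : y = u := h2.2 (by linarith)
    rw [h6, h7]

theorem shj_step (h : c.Ok) (hF : c.Fix Pt us el V E) (hP : c.Push el V E φ path r π) (hN : Nb c el E D Db lv)
    (hg : Eqn c.f E D Db φ g g) (he : e ∈ E) (he' : e' ∈ E) (hx : x ∈ e) (hy : y ∈ e') (hε : ε ∈ path e)
    (hε' : ε' ∈ path e') (hxε : φ x ∈ ε) (hyε : φ y ∈ ε') (hxy : g x = g y) (hQ : (c.f '' ε ∩ c.f '' ε').Nonempty) :
    (e ∩ e').Nonempty ∧ ∀ ℓ, Lr π e e' x y ℓ →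
      ∃ ℓ', Lr π (c.f '' ε) (c.f '' ε') (c.f (φ x)) (c.f (φ y)) ℓ' ∧ (min (r e) (r e') : ℝ) * ℓ ≤ ℓ' := by
  have hpε := hP.path_sub e he hε
  have hpε' := hP.path_sub e' he' hε'
  have hz1 : g x ∈ Dq c.f D Db ε := (hg x ⟨e, he, hx⟩).2 ε hpε hxε
  have hz2 : g x ∈ Dq c.f D Db ε' := by
    rw [hxy]
    exact (hg y ⟨e', he', hy⟩).2 ε' hpε' hyε
  have hst := shi_step h hF hN hpε hpε' ⟨hz1, hz2⟩
  have hsub : ε ⊆ φ '' e := by
    rw [hP.path_img e he]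
    exact subset_sUnion_of_mem hε
  have hsub' : ε' ⊆ φ '' e' := by
    rw [hP.path_img e' he']
    exact subset_sUnion_of_mem hε'
  have hback : ∀ w' ∈ ε ∩ ε', ∃ p ∈ e ∩ e', φ p = w' := by
    intro w' hw'
    obtain ⟨p, hp, hpw⟩ := hsub hw'.1
    obtain ⟨q, hq, hqw⟩ := hsub' hw'.2
    have hpq : p = q := hP.inj ⟨e, he, hp⟩ ⟨e', he', hq⟩ (by rw [hpw, hqw])
    refine ⟨p, ⟨hp, ?_⟩, hpw⟩
    rw [hpq]
    exact hq
  have hr : (0 : ℝ) ≤ (r e : ℝ) := Nat.cast_nonneg _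
  have hr' : (0 : ℝ) ≤ (r e' : ℝ) := Nat.cast_nonneg _
  by_cases hfe : c.f '' ε = c.f '' ε'
  · have hεε : ε = ε' := hst.1 hfe
    have hee : e = e' := by
      by_contra hne
      have hfin : (φ '' (e ∩ e')).Finite :=
        (hF.adm.good.pg.finV.subset (hF.adm.good.pg.inter e he e' he' hne)).image φ
      refine (sha_img h hF hpε).2.2.2.1 (hfin.subset ?_)
      intro w' hw'
      obtain ⟨p, hp, hpw⟩ := hback w' ⟨hw', by rw [← hεε]; exact hw'⟩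
      exact ⟨p, hp, hpw⟩
    subst hee
    subst hεε
    refine ⟨⟨x, hx, hx⟩, ?_⟩
    intro ℓ hL
    have hl : ℓ = |π e x - π e y| := by
      rcases hL with ⟨_, hl⟩ | ⟨hne, _⟩
      · exact hl
      · exact absurd rfl hne
    refine ⟨_, Or.inl ⟨rfl, rfl⟩, ?_⟩
    rw [hP.lin e he ε hε x hx y hy hxε hyε, hl, min_self]
  · obtain ⟨w, hw⟩ := hQ
    obtain ⟨w', hw', hfw⟩ := hst.2 hfe w hw
    obtain ⟨p, hp, hpw⟩ := hback w' hw'
    have hl1 := hP.lin e he ε hε x hx p hp.1 hxε (by rw [hpw]; exact hw'.1)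
    have hl2 := hP.lin e' he' ε' hε' y hy p hp.2 hyε (by rw [hpw]; exact hw'.2)
    rw [hpw, hfw] at hl1 hl2
    refine ⟨⟨p, hp⟩, ?_⟩
    intro ℓ hL
    refine ⟨_, Or.inr ⟨hfe, w, hw, rfl⟩, ?_⟩
    rw [hl1, hl2]
    have ha := abs_nonneg (π e x - π e p)
    have hb := abs_nonneg (π e' y - π e' p)
    have hm1 : (min (r e) (r e') : ℝ) ≤ (r e : ℝ) := min_le_left _ _
    have hm2 : (min (r e) (r e') : ℝ) ≤ (r e' : ℝ) := min_le_right _ _
    have hm0 : (0 : ℝ) ≤ (min (r e) (r e') : ℝ) := le_min hr hr'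
    have key : (min (r e) (r e') : ℝ) * (|π e x - π e p| + |π e' y - π e' p|) ≤
        (r e : ℝ) * |π e x - π e p| + (r e' : ℝ) * |π e' y - π e' p| := by
      rw [mul_add]
      exact add_le_add (mul_le_mul_of_nonneg_right hm1 ha) (mul_le_mul_of_nonneg_right hm2 hb)
    refine le_trans (mul_le_mul_of_nonneg_left ?_ hm0) key
    rcases hL with ⟨hee, hl⟩ | ⟨hne, u, hu, hl⟩
    · subst hee
      rw [hl]
      have h1 := abs_sub_le (π e x) (π e p) (π e y)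
      rw [abs_sub_comm (π e p) (π e y)] at h1
      exact h1
    · have hup : u = p := shi_unique hF.adm.good he he' hne hu hp
      rw [hl, hup]

end Pool.ETM
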