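/-
Project ETM (MP_c7bb65_an), block SH.
MODULE ShK (difficulty 3).  10.7: the shadowing map is injective.

RECIPE.  Let `x, y ∈ ⋃₀ E`, `g x = g y`; suppose `x ≠ y`.  A state is a pair `(x, e)` with `x ∈ e ∈ E`; by `shf_phi` choose for every state `ε ∈ path e` with `φ x ∈ ε`; the next state is `(f (φ x), f '' ε)`.  This gives sequences `x_t ∈ e_t`, `ε_t` and `y_t ∈ e'_t`, `ε'_t`.  `g x_t = f^[t] (g x) = g y_t` (`Eqn`), call it `z_t`.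
`z_t ∈ Db e_t ⊆ D e_t` (`Apx.mem`), so `z_t ∉ Z` (`shh_deep`).  By `shh_rec` for every `t` there is `s ≥ t`, `i` with `w / 2 ≤ a i z_s`; then `e_s = el i θ`, `e'_s = el i θ'` (`shh_flex`), so `e_s ∩ e'_s` is nonempty (`shi_base`) and `r e_s, r e'_s ≥ 2` (`Push.flex`): call such an `s` good.
`e_t ∩ e'_t` is nonempty for all `t`: downward induction from a good time `s ≥ t` with the first part of `shj_step`.  `shj_exists` at `t = 0` gives `ℓ_0`, and `shj_step` gives `ℓ_{t+1}` with `ℓ_{t+1} ≥ min (r e_t) (r e'_t) ℓ_t ≥ ℓ_t` (`Push.rpos`), `≥ 2 ℓ_t` at good times.  `ℓ_0 > 0` by `shj_bound` (`x ≠ y`).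
So `ℓ_t` is nondecreasing, doubled infinitely often, and `ℓ_t ≤ 2`: contradiction (for every `n` there is `t` with `ℓ_t ≥ 2 ^ n ℓ_0`, induction on `n`).
-/
import Mathlib
import Pool.Agent.ETM.ShG
import Pool.Agent.ETM.ShH
import Pool.Agent.ETM.ShJ

set_option autoImplicit false

open Set Metric Topology Filter
open Pool.JS

namespace Pool.ETM

variable {X : Type*} [MetricSpace X] [CompactSpace X] [Sph X] {c : Ctx X} {Pt : ℕ → Set X → X → Set X}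
  {us : ℕ → Set X → X → X} {el : ℕ → Set X → Set X} {V : Set X} {E : Set (Set X)} {φ : X → X}
  {path : Set X → Set (Set X)} {r : Set X → ℕ} {π : Set X → X → ℝ} {D Db : Set X → Set X} {lv : Set X → ℕ} {g : X → X}
  {e e' ε ε' θ θ' : Set X} {i j : ℕ} {x y z w : X}

theorem shk_inj (h : c.Ok) (hF : c.Fix Pt us el V E) (hP : c.Push el V E φ path r π) (hN : Nb c el E D Db lv)
    (hA : Apx E Db g) (hg : Eqn c.f E D Db φ g g) : InjOn g (⋃₀ E) := by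
  classical
  intro x hx y hy hxy
  obtain ⟨e, he, hxe⟩ := hx
  obtain ⟨e', he', hye⟩ := hy
  by_contra hne
  have hphi : ∀ e ∈ E, ∀ x ∈ e, ∃ ε ∈ path e, ε ∈ pullE c.f E ∧ φ x ∈ ε ∧ c.f '' ε ∈ E ∧ c.f (φ x) ∈ c.f '' ε :=
    fun e he x hx => shf_phi h hF hP he hx
  choose! nε hn1 hn2 hn3 hn4 hn5 using hphi
  set F : X × Set X → X × Set X := fun p => (c.f (φ p.1), c.f '' nε p.2 p.1) with hFdef
  have hinv : ∀ (p : X × Set X), p.2 ∈ E → p.1 ∈ p.2 → ∀ t : ℕ, (F^[t] p).2 ∈ E ∧ (F^[t] p).1 ∈ (F^[t] p).2 := by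
    intro p h1 h2 t
    induction t with
    | zero => exact ⟨h1, h2⟩
    | succ t ih =>
      rw [Function.iterate_succ_apply']
      exact ⟨hn4 _ ih.1 _ ih.2, hn5 _ ih.1 _ ih.2⟩
  have hgt : ∀ (p : X × Set X), p.2 ∈ E → p.1 ∈ p.2 → ∀ t : ℕ, g (F^[t] p).1 = c.f^[t] (g p.1) := by
    intro p h1 h2 t
    induction t with
    | zero => rfl
    | succ t ih =>
      rw [Function.iterate_succ_apply', Function.iterate_succ_apply']
      have h3 := hinv p h1 h2 t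
      have h4 := (hg (F^[t] p).1 ⟨_, h3.1, h3.2⟩).1
      change g (c.f (φ (F^[t] p).1)) = _
      rw [← h4, ih]
  set P : ℕ → X × Set X := fun t => F^[t] (x, e) with hPd
  set P' : ℕ → X × Set X := fun t => F^[t] (y, e') with hPd'
  have hP1 : ∀ t, (P t).2 ∈ E ∧ (P t).1 ∈ (P t).2 := hinv (x, e) he hxe
  have hP1' : ∀ t, (P' t).2 ∈ E ∧ (P' t).1 ∈ (P' t).2 := hinv (y, e') he' hye
  have hP2 : ∀ t, g (P t).1 = c.f^[t] (g x) := hgt (x, e) he hxe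
  have hP2' : ∀ t, g (P' t).1 = c.f^[t] (g x) := by
    intro t
    rw [hxy]
    exact hgt (y, e') he' hye t
  have hPs : ∀ t, P (t + 1) = (c.f (φ (P t).1), c.f '' nε (P t).2 (P t).1) := by
    intro t
    change F^[t + 1] (x, e) = F (F^[t] (x, e))
    rw [Function.iterate_succ_apply']
  have hPs' : ∀ t, P' (t + 1) = (c.f (φ (P' t).1), c.f '' nε (P' t).2 (P' t).1) := by
    intro t
    change F^[t + 1] (y, e') = F (F^[t] (y, e'))
    rw [Function.iterate_succ_apply']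
  have hDb : ∀ t, c.f^[t] (g x) ∈ Db (P t).2 ∧ c.f^[t] (g x) ∈ Db (P' t).2 := by
    intro t
    constructor
    · rw [← hP2 t]
      exact hA.mem _ (hP1 t).1 _ (hP1 t).2
    · rw [← hP2' t]
      exact hA.mem _ (hP1' t).1 _ (hP1' t).2
  have hDD : ∀ t, c.f^[t] (g x) ∈ D (P t).2 ∧ c.f^[t] (g x) ∈ D (P' t).2 :=
    fun t => ⟨(hN.sub _ (hP1 t).1).2 (hDb t).1, (hN.sub _ (hP1' t).1).2 (hDb t).2⟩
  have hZ : ∀ t, c.f^[t] (g x) ∉ c.Z := fun t => ((shh_deep h hF hN (hP1 t).1 (hP1 t).2).2.2 _ (hDD t).1).1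
  -- good times
  have hgood : ∀ t, ∃ s ≥ t, ((P s).2 ∩ (P' s).2).Nonempty ∧ 2 ≤ r (P s).2 ∧ 2 ≤ r (P' s).2 := by
    intro t
    obtain ⟨s, hs, i, hi, ha⟩ := shh_rec h hZ t
    obtain ⟨θ, hθ, h1⟩ := shh_flex h hF hN (hP1 s).1 (hP1 s).2 (hDD s).1 hi ha
    obtain ⟨θ', hθ', h1'⟩ := shh_flex h hF hN (hP1' s).1 (hP1' s).2 (hDD s).2 hi ha
    refine ⟨s, hs, ?_, ?_, ?_⟩
    · rw [h1, h1']
      apply shi_base h hF hN hi hθ hθ' (z := c.f^[s] (g x))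
      · rw [← h1]
        exact (hDb s).1
      · rw [← h1']
        exact (hDb s).2
    · rw [h1]
      exact (hP.flex i hi θ hθ).2
    · rw [h1']
      exact (hP.flex i hi θ' hθ').2
  have hstep : ∀ t, ((P (t + 1)).2 ∩ (P' (t + 1)).2).Nonempty → ((P t).2 ∩ (P' t).2).Nonempty ∧
      ∀ ℓ, Lr π (P t).2 (P' t).2 (P t).1 (P' t).1 ℓ → ∃ ℓ', Lr π (P (t + 1)).2 (P' (t + 1)).2 (P (t + 1)).1
        (P' (t + 1)).1 ℓ' ∧ (min (r (P t).2) (r (P' t).2) : ℝ) * ℓ ≤ ℓ' := by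
    intro t ht
    rw [hPs t, hPs' t] at ht ⊢
    exact shj_step h hF hP hN hg (hP1 t).1 (hP1' t).1 (hP1 t).2 (hP1' t).2 (hn1 _ (hP1 t).1 _ (hP1 t).2)
      (hn1 _ (hP1' t).1 _ (hP1' t).2) (hn3 _ (hP1 t).1 _ (hP1 t).2) (hn3 _ (hP1' t).1 _ (hP1' t).2)
      ((hP2 t).trans (hP2' t).symm) ht
  have hdown : ∀ n t, ((P (t + n)).2 ∩ (P' (t + n)).2).Nonempty → ((P t).2 ∩ (P' t).2).Nonempty := by
    intro n
    induction n with
    | zero => intro t ht; exact ht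
    | succ n ih =>
      intro t ht
      apply ih t
      exact (hstep (t + n) ht).1
  have hNE : ∀ t, ((P t).2 ∩ (P' t).2).Nonempty := by
    intro t
    obtain ⟨s, hs, h1, -, -⟩ := hgood t
    obtain ⟨n, rfl⟩ := Nat.exists_eq_add_of_le hs
    exact hdown n t h1
  have hb : ∀ t ℓ, Lr π (P t).2 (P' t).2 (P t).1 (P' t).1 ℓ → 0 ≤ ℓ ∧ ℓ ≤ 2 := by
    intro t ℓ hL
    have := shj_bound hP (hP1 t).1 (hP1' t).1 (hP1 t).2 (hP1' t).2 hL
    exact ⟨this.1, this.2.1⟩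
  have hmono : ∀ n t ℓ, Lr π (P t).2 (P' t).2 (P t).1 (P' t).1 ℓ →
      ∃ ℓ', Lr π (P (t + n)).2 (P' (t + n)).2 (P (t + n)).1 (P' (t + n)).1 ℓ' ∧ ℓ ≤ ℓ' := by
    intro n
    induction n with
    | zero => intro t ℓ hL; exact ⟨ℓ, hL, le_rfl⟩
    | succ n ih =>
      intro t ℓ hL
      obtain ⟨ℓ₁, h1, h2⟩ := ih t ℓ hL
      obtain ⟨ℓ₂, h3, h4⟩ := (hstep (t + n) (hNE (t + n + 1))).2 ℓ₁ h1
      refine ⟨ℓ₂, h3, h2.trans (le_trans ?_ h4)⟩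
      have h5 : (1 : ℝ) ≤ min (r (P (t + n)).2 : ℝ) (r (P' (t + n)).2 : ℝ) := by
        apply le_min
        · exact_mod_cast hP.rpos _ (hP1 (t + n)).1
        · exact_mod_cast hP.rpos _ (hP1' (t + n)).1
      nlinarith [(hb _ _ h1).1]
  obtain ⟨ℓ₀, hℓ₀⟩ := shj_exists (hNE 0) π (P 0).1 (P' 0).1
  have hpos : 0 < ℓ₀ := by
    have h1 := shj_bound hP (hP1 0).1 (hP1' 0).1 (hP1 0).2 (hP1' 0).2 hℓ₀
    rcases h1.1.lt_or_eq with h2 | h2
    · exact h2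
    · exact (hne (h1.2.2 h2.symm)).elim
  have hdbl : ∀ n : ℕ, ∃ t ℓ, Lr π (P t).2 (P' t).2 (P t).1 (P' t).1 ℓ ∧ 2 ^ n * ℓ₀ ≤ ℓ := by
    intro n
    induction n with
    | zero => exact ⟨0, ℓ₀, hℓ₀, by simp⟩
    | succ n ih =>
      obtain ⟨t, ℓ, h1, h2⟩ := ih
      obtain ⟨s, hs, -, hr, hr'⟩ := hgood t
      obtain ⟨k, rfl⟩ := Nat.exists_eq_add_of_le hs
      obtain ⟨ℓ₁, h3, h4⟩ := hmono k t ℓ h1
      obtain ⟨ℓ₂, h5, h6⟩ := (hstep (t + k) (hNE (t + k + 1))).2 ℓ₁ h3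
      refine ⟨t + k + 1, ℓ₂, h5, le_trans ?_ h6⟩
      have h7 : (2 : ℝ) ≤ min (r (P (t + k)).2 : ℝ) (r (P' (t + k)).2 : ℝ) := by
        apply le_min
        · exact_mod_cast hr
        · exact_mod_cast hr'
      have h8 := (hb _ _ h3).1
      have h9 : (2 : ℝ) ^ (n + 1) * ℓ₀ = 2 * (2 ^ n * ℓ₀) := by ring
      rw [h9]
      nlinarith
  obtain ⟨n, hn⟩ := pow_unbounded_of_one_lt (2 / ℓ₀) (one_lt_two (α := ℝ))
  obtain ⟨t, ℓ, h1, h2⟩ := hdbl n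
  have h3 := (hb t ℓ h1).2
  rw [div_lt_iff₀ hpos] at hn
  linarith

end Pool.ETM
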