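/-
Project ETM (MP_c7bb65_an), block SH.
MODULE ShZ (difficulty 1).  Output of section 10.

RECIPE.  `shb_nb` gives `D, Db, lv`, `shg_limit` gives `g`.  The fields of `Shad`: `Nb`, `shh_lv`, `shh_deep`, `she_cp`, `Apx`, `shk_inj`, `Eqn`.
-/
import Mathlib
import Pool.Agent.ETM.ShB
import Pool.Agent.ETM.ShK

set_option autoImplicit false

open Set Metric Topology Filter
open Pool.JS

namespace Pool.ETM

variable {X : Type*} [MetricSpace X] [CompactSpace X] [Sph X] {c : Ctx X} {Pt : ℕ → Set X → X → Set X}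
  {us : ℕ → Set X → X → X} {el : ℕ → Set X → Set X} {V : Set X} {E : Set (Set X)} {φ : X → X}
  {path : Set X → Set (Set X)} {r : Set X → ℕ} {π : Set X → X → ℝ} {D Db : Set X → Set X} {lv : Set X → ℕ} {g : X → X}
  {e e' ε ε' θ θ' : Set X} {i j : ℕ} {x y z w : X}

theorem exists_shad (h : c.Ok) (hF : c.Fix Pt us el V E) (hP : c.Push el V E φ path r π) :
    ∃ (D Db : Set X → Set X) (lv : Set X → ℕ) (g : X → X), c.Shad E φ D Db lv g := by
  obtain ⟨D, Db, lv, hN⟩ := shb_nb h hF
  obtain ⟨g, hA, hg⟩ := shg_limit h hF hP hN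
  refine ⟨D, Db, lv, g, ?_⟩
  exact {
    Dopen := hN.opn
    Dsc := hN.sc
    Davoid := hN.avoid
    sub := hN.sub
    comp := hN.comp
    small := hN.small
    lvge := fun e he => shh_lv hN he
    deep := fun e he x hx => shh_deep h hF hN he hx
    cp := fun e he e' he' hne x hx z hz => she_cp h hF hN he he' hne hx hz
    hcont := hA.cont
    hinj := shk_inj h hF hP hN hA hg
    conj := fun x hx => (hg x hx).1
    hmem := hA.mem }

end Pool.ETM
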