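/-
Project ETM (MP_c7bb65_an). Block SH (section 10): exists_shad.
-/
import Pool.Agent.ETM.ShZ
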