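/-
Project ETM (MP_c7bb65_an), block ST (section 8 of /team-store/c7bb65_proof.md).
MODULE StA (difficulty 2).  The difference of two graphs; 8.1.

RECIPE.  `gdiff_empty`: the symmetric differences are empty (`symmDiff_eq_bot`), so `V = V'` and `⋃₀ E = ⋃₀ E'`; `PG.unique` (Bridge).
`gdiff_pull`: `⋃₀ pullE f E = f ⁻¹' ⋃₀ E` (`sUnion_pullE`, LeX), `mem_symmDiff`.
`st_K` (8.1): `x ∈ c.K E = MS E c.So` means `x ∈ frontier U`, `U ∈ Fc E`, `closure U ∩ So` nonempty.  Let `C = closure U`: preconnected,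
`x ∈ C`, `diam (f^[L1 x] '' C) < η` (`hA.fi U hU x _` and `lv_diam_closure`).  If some point of `symmDiff (⋃₀ E) (⋃₀ E')` is in `C` we are
done.  Otherwise `⋃₀ E ∩ C = ⋃₀ E' ∩ C`, and `sr_face` (SrA, with `D = C`) gives `U ∈ Fc E'`, so `x ∈ c.K E'`: contradiction.
-/
import Mathlib
import Pool.Agent.ETM.SrA
import Pool.Agent.ETM.LeX

set_option autoImplicit false

open Set Metric Topology Filter
open Pool.JS

namespace Pool.ETM

/-- the difference of two graphs -/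
def gdiff {X : Type*} (V : Set X) (E : Set (Set X)) (V' : Set X) (E' : Set (Set X)) : Set X :=
  symmDiff (⋃₀ E) (⋃₀ E') ∪ symmDiff V V'

variable {X : Type*} [MetricSpace X] [CompactSpace X] [Sph X] {V V' : Set X} {E E' : Set (Set X)}

theorem gdiff_empty (h : PG V E) (h' : PG V' E') (he : gdiff V E V' E' = ∅) : V = V' ∧ E = E' := by
  unfold gdiff at he
  rw [union_empty_iff] at he
  obtain ⟨h1, h2⟩ := he
  have h3 : ⋃₀ E = ⋃₀ E' := symmDiff_eq_bot.mp h1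
  have h4 : V = V' := symmDiff_eq_bot.mp h2
  subst h4
  exact ⟨rfl, PG.unique h h' h3⟩

theorem gdiff_pull {f : X → X} {x : X} (hx : x ∈ gdiff (f ⁻¹' V) (pullE f E) (f ⁻¹' V') (pullE f E')) :
    f x ∈ gdiff V E V' E' := by
  unfold gdiff at hx ⊢
  rw [sUnion_pullE, sUnion_pullE] at hx
  exact hx

variable {c : Ctx X} (h : c.Ok)

include h

/-- 8.1 -/
theorem st_K (hA : c.Adm c.L1 V E) (hA' : c.Adm c.L1 V' E') {x : X} (hx : x ∈ c.K E) (hx' : x ∉ c.K E') :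
    ∃ y ∈ gdiff V E V' E', ∃ C : Set X, IsPreconnected C ∧ x ∈ C ∧ y ∈ C ∧ diam (c.f^[c.L1 x] '' C) < c.η := by
  obtain ⟨J, ⟨U, hU, hne, rfl⟩, hxU⟩ := hx
  have hxc : x ∈ closure U := frontier_subset_closure hxU
  have hd : diam (c.f^[c.L1 x] '' closure U) < c.η := lt_of_le_of_lt (lv_diam_closure h _ _) (hA.fi U hU x hxc)
  by_cases hy : ∃ y ∈ closure U, y ∈ symmDiff (⋃₀ E) (⋃₀ E')
  · obtain ⟨y, hyU, hy⟩ := hy
    exact ⟨y, Or.inl hy, closure U, hU.conn.closure, hxc, hyU, hd⟩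
  · push Not at hy
    exfalso
    have h1 : ⋃₀ E ∩ closure U = ⋃₀ E' ∩ closure U := by
      ext y
      constructor
      · rintro ⟨h1, h2⟩
        by_contra h3
        exact hy y h2 (Or.inl ⟨h1, fun h4 => h3 ⟨h4, h2⟩⟩)
      · rintro ⟨h1, h2⟩
        by_contra h3
        exact hy y h2 (Or.inr ⟨h1, fun h4 => h3 ⟨h4, h2⟩⟩)
    exact hx' ⟨frontier U, ⟨U, sr_face hA.good.pg h1 hU subset_rfl, hne, rfl⟩, hxU⟩

end Pool.ETM
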