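/-
Project ETM (MP_c7bb65_an), block ST (section 8 of /team-store/c7bb65_proof.md).
MODULE StB (difficulty 3).  8.2: where the splices of two graphs differ.

RECIPE.  `st_end`: if every vertex of level `lev i` on `θ` were in `Vint i`, `Loc.same` for both graphs would give `el = θ` twice.  So there is
a vertex `v ∈ V (lev i)`, `v ∈ θ`, `v ∉ Vint i`.  `θ ⊆ A i` (see the proof of `sr_R3` in SrA: `θ` is contained in a closed face, and this
face is in `A i` by the definition of `Eint`), so `v ∈ A i \ interior (A i)`, `v ∈ frontier (A i)` (`A i` is closed, `lv_A`), `c.a i v < w/4`.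
`st_step`: write `el₁ i θ = el i θ (dat i θ V E)`, `el₂` for the other graph; `hR.loc` gives `Loc` for both.  By `sp_union`:
`⋃₀ spE E el₁ = K E ∪ ⋃ el₁ i θ`, and `spV V E = (V ∩ K E) ∪ ⋃ Vint i`.  By symmetry (`gdiff` is symmetric) cases:
(A) `x ∈ K E`, `x ∉ K E'` (or the converse): `st_K` gives `y`, `C` (first alternative).  Shallow: `K_shallow`, `K_deep`.
(B) `x ∈ K E ∩ K E'`: then `x` is in both unions, so `x ∈ symmDiff (spV V E) (spV V' E')`, hence not in any `Vint i`, hence
    `x ∈ symmDiff V V'`: `y = x`, `C = {x}` (diameter of a singleton image is `0 < η`, `h.expd.pos`).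
(C) `x` in neither of `K E`, `K E'`: then `x ∉ symmDiff (spV ..) (spV ..)` (both vertex sets agree outside), so, up to symmetry, `x ∈ el₁ i θ`
    for some `i < nc`, `θ ∈ Eint i`, and `x ∉ el₂ i θ`.  So `dat i θ V E ≠ dat i θ V' E'`: there is a point `y ∈ D (lev i) θ` in
    `gdiff V E V' E'`.  `C = D (lev i) θ` (preconnected: `h.net.Dsc`; `h.net.Ddiam`), `x ∈ C` by `Loc.near`.  `el_facts`: `w/5 < a i x`,
    `x ∉ Z`, `δ x < nb + 1 ≤ nhole` (`lv_nhole`, LvC).  `st_end` and `lv_D`: `a i x < w/4 + w/1000 < w/3`; for `j ≠ i`: `a j x ≤ 0` (`lv_disj0`).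
-/
import Mathlib
import Pool.Agent.ETM.StA
import Pool.Agent.ETM.LvC
import Pool.Agent.ETM.ScH1
import Pool.Agent.ETM.IfSd

set_option autoImplicit false

open Set Metric Topology Filter
open Pool.JS

namespace Pool.ETM

variable {X : Type*} [MetricSpace X] [CompactSpace X] [Sph X] {V V' : Set X} {E E' : Set (Set X)} {c : Ctx X} (h : c.Ok)

include h

theorem st_end {i : ℕ} (hi : i < c.nc) {θ : Set X} (hθ : θ ∈ c.Eint i) {Pt Pt' : X → Set X} {us us' : X → X} {e e' : Set X}
    (hl : c.Loc i θ V E Pt us e) (hl' : c.Loc i θ V' E' Pt' us' e') (hne : e ≠ e') :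
    ∃ v ∈ c.Vbd i, v ∈ θ ∧ c.a i v < c.w / 4 := by
  by_cases hall : ∀ v ∈ c.V (c.lev i), v ∈ θ → v ∈ c.Vint i
  · exact absurd ((hl.same hall).trans (hl'.same hall).symm) hne
  · push Not at hall
    obtain ⟨v, hv, hvθ, hvi⟩ := hall
    have hsub : θ ⊆ c.A i := by
      have hG := h.net.good (c.lev i)
      obtain ⟨U, hU1, hU, _, _, h3, _⟩ := (hG.pg.faces hG.ne (noCut_of_discs hG.pg hG.disc)).2.2 θ hθ.1
      have hF : closure U ∈ c.Face (c.lev i) := ⟨U, hU1, rfl⟩
      have h4 : θ ⊆ closure U := h3.trans frontier_subset_closure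
      exact h4.trans (hθ.2 _ hF h4)
    have hvA : v ∈ c.A i := hsub hvθ
    have hvn : v ∉ interior (c.A i) := fun h1 => hvi ⟨hv, h1⟩
    obtain ⟨h1, _, _, h4⟩ := lv_A h hi
    refine ⟨v, ⟨⟨hv, hvA⟩, hvn⟩, hvθ, h4 v ?_⟩
    rw [h1.frontier_eq]
    exact ⟨hvA, hvn⟩

/-- 8.2 -/
theorem st_step {Pt : ℕ → Set X → Set X × Set X → X → Set X} {us : ℕ → Set X → Set X × Set X → X → X}
    {el : ℕ → Set X → Set X × Set X → Set X} (hR : c.Rule Pt us el) (hA : c.Adm c.L1 V E) (hA' : c.Adm c.L1 V' E')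
    {x : X} (hx : x ∈ gdiff (c.spV V E) (c.spE E (fun i θ => el i θ (c.dat i θ V E)))
      (c.spV V' E') (c.spE E' (fun i θ => el i θ (c.dat i θ V' E')))) :
    (x ∉ c.Z ∧ c.δ x < c.nhole + 1 / 8 ∧ ∀ i < c.nc, c.a i x < c.w / 3) ∧
      ∃ y ∈ gdiff V E V' E', ∃ C : Set X, IsPreconnected C ∧ x ∈ C ∧ y ∈ C ∧
        (diam (c.f^[c.L1 x] '' C) < c.η ∨ (c.δ x < c.nb + 1 ∧ ∃ i < c.nc, diam (c.f^[c.lev i] '' C) < c.η)) := by
  have hl := hR.loc V E hA
  have hl' := hR.loc V' E' hA'
  have hu := sp_union h hA hl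
  have hu' := sp_union h hA' hl'
  have hw := h.mark.wpos
  by_cases hK : x ∈ c.K E
  · have hsh : x ∉ c.Z ∧ c.δ x < c.nhole + 1 / 8 ∧ ∀ i < c.nc, c.a i x < c.w / 3 :=
      ⟨(K_deep h hA hK).1, (K_deep h hA hK).2, fun i hi => K_shallow h hA hi hK⟩
    refine ⟨hsh, ?_⟩
    by_cases hK' : x ∈ c.K E'
    · have h1 : x ∈ symmDiff V V' := by
        rcases hx with hx | hx
        · exfalso
          rw [hu, hu', mem_symmDiff] at hx
          rcases hx with hx | hx
          · exact hx.2 (Or.inl hK')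
          · exact hx.2 (Or.inl hK)
        · rw [mem_symmDiff] at hx ⊢
          rcases hx with ⟨hx1, hx2⟩ | ⟨hx1, hx2⟩
          · left
            have hn : x ∉ ⋃ i < c.nc, c.Vint i := fun h3 => hx2 (Or.inr h3)
            rcases hx1 with hx1 | hx1
            · exact ⟨hx1.1, fun h3 => hx2 (Or.inl ⟨h3, hK'⟩)⟩
            · exact absurd hx1 hn
          · right
            have hn : x ∉ ⋃ i < c.nc, c.Vint i := fun h3 => hx2 (Or.inr h3)
            rcases hx1 with hx1 | hx1
            · exact ⟨hx1.1, fun h3 => hx2 (Or.inl ⟨h3, hK⟩)⟩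
            · exact absurd hx1 hn
      refine ⟨x, Or.inr h1, {x}, isPreconnected_singleton, rfl, rfl, Or.inl ?_⟩
      rw [image_singleton, diam_singleton]
      exact h.expd.pos
    · obtain ⟨y, hy, C, hC, hxC, hyC, hd⟩ := st_K h hA hA' hK hK'
      exact ⟨y, hy, C, hC, hxC, hyC, Or.inl hd⟩
  · by_cases hK' : x ∈ c.K E'
    · have hsh : x ∉ c.Z ∧ c.δ x < c.nhole + 1 / 8 ∧ ∀ i < c.nc, c.a i x < c.w / 3 :=
        ⟨(K_deep h hA' hK').1, (K_deep h hA' hK').2, fun i hi => K_shallow h hA' hi hK'⟩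
      refine ⟨hsh, ?_⟩
      obtain ⟨y, hy, C, hC, hxC, hyC, hd⟩ := st_K h hA' hA hK' hK
      refine ⟨y, ?_, C, hC, hxC, hyC, Or.inl hd⟩
      rcases hy with hy | hy
      · exact Or.inl (by rw [symmDiff_comm]; exact hy)
      · exact Or.inr (by rw [symmDiff_comm]; exact hy)
    · -- `x` is on a flexible edge of one of the graphs
      have key : ∃ i < c.nc, ∃ θ ∈ c.Eint i, (x ∈ el i θ (c.dat i θ V E) ∨ x ∈ el i θ (c.dat i θ V' E')) ∧
          el i θ (c.dat i θ V E) ≠ el i θ (c.dat i θ V' E') := by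
        rcases hx with hx | hx
        · rw [hu, hu', mem_symmDiff] at hx
          rcases hx with ⟨hx1, hx2⟩ | ⟨hx1, hx2⟩
          · rcases hx1 with hx1 | hx1
            · exact absurd hx1 hK
            · simp only [mem_iUnion] at hx1
              obtain ⟨i, hi, θ, hθ, hxe⟩ := hx1
              refine ⟨i, hi, θ, hθ, Or.inl hxe, fun heq => hx2 (Or.inr ?_)⟩
              simp only [mem_iUnion]
              exact ⟨i, hi, θ, hθ, heq ▸ hxe⟩
          · rcases hx1 with hx1 | hx1
            · exact absurd hx1 hK'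
            · simp only [mem_iUnion] at hx1
              obtain ⟨i, hi, θ, hθ, hxe⟩ := hx1
              refine ⟨i, hi, θ, hθ, Or.inr hxe, fun heq => hx2 (Or.inr ?_)⟩
              simp only [mem_iUnion]
              exact ⟨i, hi, θ, hθ, heq ▸ hxe⟩
        · exfalso
          rw [mem_symmDiff] at hx
          rcases hx with ⟨hx1, hx2⟩ | ⟨hx1, hx2⟩
          · rcases hx1 with hx1 | hx1
            · exact hK hx1.2
            · exact hx2 (Or.inr hx1)
          · rcases hx1 with hx1 | hx1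
            · exact hK' hx1.2
            · exact hx2 (Or.inr hx1)
      obtain ⟨i, hi, θ, hθ, hxe, hne⟩ := key
      have hloc := hl i hi θ hθ
      have hloc' := hl' i hi θ hθ
      have hfac : c.w / 5 < c.a i x ∧ x ∉ c.Z ∧ c.δ x < c.nb + 1 := by
        rcases hxe with hxe | hxe
        · exact el_facts h hA hl hi hθ hxe
        · exact el_facts h hA' hl' hi hθ hxe
      have hxD : x ∈ c.D (c.lev i) θ := by
        rcases hxe with hxe | hxe
        · exact (hloc.near hxe).1
        · exact (hloc'.near hxe).1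
      obtain ⟨v, hv, hvθ, hva⟩ := st_end h hi hθ hloc hloc' hne
      have hvD : v ∈ c.D (c.lev i) θ := h.net.Dsub _ θ hθ.1 hvθ
      have hax : c.a i x < c.w / 3 := by
        have h1 := (lv_D h hi hθ.1 hxD hvD).1 i hi
        have h2 := (abs_lt.mp h1).2
        linarith
      have hnh : (c.nb : ℝ) + 1 ≤ c.nhole := by
        have h1 := (lv_nhole h).1
        have h2 : c.nb + 1 ≤ c.nhole := by omega
        exact_mod_cast h2
      refine ⟨⟨hfac.2.1, by linarith [hfac.2.2], fun j hj => ?_⟩, ?_⟩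
      · by_cases hij : j = i
        · rw [hij]; exact hax
        · have h1 : ¬ 0 < c.a j x := lv_disj0 h hi hj (Ne.symm hij) (by linarith [hfac.1])
          push Not at h1
          linarith
      · have hdat : c.dat i θ V E ≠ c.dat i θ V' E' := fun heq => hne (by rw [heq])
        have hy : ∃ y ∈ c.D (c.lev i) θ, y ∈ gdiff V E V' E' := by
          by_contra hno
          push Not at hno
          refine hdat (Prod.ext ?_ ?_)
          · ext y
            constructor
            · rintro ⟨h1, h2⟩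
              by_contra h3
              exact hno y h2 (Or.inl (Or.inl ⟨h1, fun h4 => h3 ⟨h4, h2⟩⟩))
            · rintro ⟨h1, h2⟩
              by_contra h3
              exact hno y h2 (Or.inl (Or.inr ⟨h1, fun h4 => h3 ⟨h4, h2⟩⟩))
          · ext y
            constructor
            · rintro ⟨h1, h2⟩
              by_contra h3
              exact hno y h2 (Or.inr (Or.inl ⟨h1, fun h4 => h3 ⟨h4, h2⟩⟩))
            · rintro ⟨h1, h2⟩
              by_contra h3
              exact hno y h2 (Or.inr (Or.inr ⟨h1, fun h4 => h3 ⟨h4, h2⟩⟩))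
        obtain ⟨y, hyD, hyg⟩ := hy
        have hc : IsPreconnected (c.D (c.lev i) θ) := (h.net.Dsc _ θ hθ.1).isPathConnected.isConnected.isPreconnected
        exact ⟨y, hyg, _, hc, hxD, hyD, Or.inr ⟨hfac.2.2, i, hi, h.net.Ddiam _ θ hθ.1⟩⟩

end Pool.ETM
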