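/-
Project ETM (MP_c7bb65_an), block ST (section 8 of /team-store/c7bb65_proof.md).
MODULE StC (difficulty 2).  One step of the pseudo-orbit (8.3).

RECIPE.  `st_next`: in both cases `diam (f^[n] '' C) < η` for some `n ≥ k0` (`lv_ge`, `lv_lev_ge`), so `h.mark.oscf` with `C' = C`, `n' = n` gives
the distance.  If `nb + 1 ≤ δ x` the second alternative is impossible; `lv_deep` gives `k0 + δ x - nb - 1 ≤ L1 x` and `lv_osc` (LvF; `ℓ = L1 x`)
gives `y ∉ Z`, `|δ y - δ x| < 1 / 16`; so `1 ≤ δ y` (`nb ≥ 2`) and `h.dep.dep.step`: `f y ∉ Z`, `δ (f y) = δ y - 1`.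
-/
import Mathlib
import Pool.Agent.ETM.LvE
import Pool.Agent.ETM.LvF

set_option autoImplicit false

open Set Metric Topology Filter
open Pool.JS

namespace Pool.ETM

variable {X : Type*} [MetricSpace X] [CompactSpace X] [Sph X] {c : Ctx X} (h : c.Ok)

include h

theorem st_next {x y : X} {C : Set X} (hC : IsPreconnected C) (hx : x ∈ C) (hy : y ∈ C) (hxZ : x ∉ c.Z)
    (hxd : c.δ x < c.nhole + 1 / 8)
    (hd : diam (c.f^[c.L1 x] '' C) < c.η ∨ (c.δ x < c.nb + 1 ∧ ∃ i < c.nc, diam (c.f^[c.lev i] '' C) < c.η)) :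
    dist (c.f x) (c.f y) < c.ε₁ ∧ ((c.nb : ℝ) + 1 ≤ c.δ x → c.f y ∉ c.Z ∧ |c.δ (c.f y) - (c.δ x - 1)| < 1 / 16) := by
  have hn : ∃ n, c.k0 ≤ n ∧ diam (c.f^[n] '' C) < c.η := by
    rcases hd with hd | ⟨-, i, hi, hd⟩
    · exact ⟨c.L1 x, (lv_ge h x).2, hd⟩
    · exact ⟨c.lev i, lv_lev_ge i, hd⟩
  obtain ⟨n, hn, hdn⟩ := hn
  refine ⟨h.mark.oscf n hn n hn C C hC hC ⟨x, hx, hx⟩ hdn hdn x hx y hy, ?_⟩
  intro h1
  rcases hd with hd | ⟨h2, -⟩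
  · have h3 := lv_deep h hxZ h1 (by linarith)
    obtain ⟨h4, h5⟩ := lv_osc h hxZ (by linarith) hC hx hd (lv_ge h x).2 h3 y hy
    have hnb : (2 : ℝ) ≤ (c.nb : ℝ) := by exact_mod_cast h.mark.nbpos
    have h6 := abs_lt.mp h5
    obtain ⟨h7, h8⟩ := h.dep.dep.step y h4 (by linarith)
    refine ⟨h7, ?_⟩
    rw [h8]
    have h9 : c.δ y - 1 - (c.δ x - 1) = c.δ y - c.δ x := by ring
    rw [h9]
    exact h5
  · linarith

end Pool.ETM
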