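/-
Project ETM (MP_c7bb65_an), block ST (section 8 of /team-store/c7bb65_proof.md).
MODULE StD (difficulty 2).  There is no long pseudo-orbit away from the markers (8.3).

RECIPE.  Pure arithmetic with `h.mark.ps1`, `h.mark.ps2`.  Let `M = NN + 2 * nhole + nb + 20`.  `ps1` for the sequence `p` (`NN ≤ M`): there
is `j ≤ NN` with `nb + 3/4 < δ (p j)` (the other alternatives contradict `hp`; `w/3 < a` against `a < w/3`).  Claim: there is
`l ≤ j + 2 * nhole + 4` with `nb + 3/4 ≤ δ (p l) < nb + 2`.  If `δ (p j) < nb + 2` take `l = j`.  Otherwise let `l` be the least `l ≥ j` with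
`δ (p l) < nb + 2` (`Nat.find`): as long as `nb + 2 ≤ δ (p l')` one has `δ (p (l' + 1)) ≤ δ (p l') - 15/16`, so by induction
`δ (p (j + r)) ≤ δ (p j) - (15/16) r < nhole + 1 - (15/16) r` while all the previous values are `≥ nb + 2 > 0`: so such an `l` exists with
`l - j ≤ 2 * nhole + 4`; and `δ (p l) ≥ δ (p (l - 1)) - 1 - 1/16 ≥ nb + 2 - 17/16 ≥ nb + 3/4`.
`ps2` for the sequence `fun r => p (l + r)` (`l + nb + 3 < M`): some `j' ≤ nb + 3` with `w/3 < a i (p (l + j'))`: contradiction to `hp`.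
-/
import Mathlib
import Pool.Agent.ETM.SpDefs

set_option autoImplicit false

open Set Metric Topology Filter
open Pool.JS

namespace Pool.ETM

variable {X : Type*} [MetricSpace X] {c : Ctx X} (h : c.Ok)

include h

theorem st_orbit (p : ℕ → X) (hp : ∀ j < c.NN + 2 * c.nhole + c.nb + 20, p j ∉ c.Z ∧ c.δ (p j) < c.nhole + 1 / 8 ∧
    (∀ i < c.nc, c.a i (p j) < c.w / 3) ∧ dist (c.f (p j)) (p (j + 1)) < c.ε₁ ∧
    ((c.nb : ℝ) + 1 ≤ c.δ (p j) → |c.δ (p (j + 1)) - (c.δ (p j) - 1)| < 1 / 16)) : False := by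
  obtain ⟨j₀, hj₀, h1⟩ := h.mark.ps1 p (fun j hj => (hp j (by omega)).2.2.2.1)
  have h2 : (c.nb : ℝ) + 3 / 4 < c.δ (p j₀) := by
    rcases h1 with ⟨i, hi, h1⟩ | h1 | h1
    · have := (hp j₀ (by omega)).2.2.1 i hi
      linarith
    · exact absurd h1 (hp j₀ (by omega)).1
    · exact h1
  have hnb : (2 : ℝ) ≤ (c.nb : ℝ) := by exact_mod_cast h.mark.nbpos
  have hex : ∃ l, j₀ ≤ l ∧ l ≤ j₀ + 2 * c.nhole + 4 ∧ (c.nb : ℝ) + 3 / 4 ≤ c.δ (p l) ∧ c.δ (p l) ≤ c.nb + 2 := by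
    by_contra hno
    push Not at hno
    have key : ∀ r : ℕ, r ≤ 2 * c.nhole + 4 →
        (c.nb : ℝ) + 2 < c.δ (p (j₀ + r)) ∧ c.δ (p (j₀ + r)) ≤ c.δ (p j₀) - 15 / 16 * r := by
      intro r
      induction r with
      | zero =>
        intro _
        refine ⟨hno j₀ le_rfl (by omega) h2.le, ?_⟩
        simp
      | succ r ih =>
        intro hr
        obtain ⟨h3, h4⟩ := ih (by omega)
        have h5 := abs_lt.mp ((hp (j₀ + r) (by omega)).2.2.2.2 (by linarith))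
        have h6 := hno (j₀ + (r + 1)) (by omega) (by omega)
        rw [show j₀ + r + 1 = j₀ + (r + 1) by ring] at h5
        refine ⟨h6 (by linarith [h5.1]), ?_⟩
        push_cast
        linarith [h5.2]
    obtain ⟨h3, h4⟩ := key (2 * c.nhole + 4) le_rfl
    have h5 := (hp j₀ (by omega)).2.1
    push_cast at h4
    have h6 : (0 : ℝ) ≤ (c.nhole : ℝ) := Nat.cast_nonneg _
    linarith
  obtain ⟨l, hl1, hl2, hl3, hl4⟩ := hex
  obtain ⟨j, hj, i, hi, h7⟩ := h.mark.ps2 (fun r => p (l + r))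
    (fun j hj => (hp (l + j) (by omega)).2.2.2.1) (hp l (by omega)).1 hl3 hl4
  have h8 := (hp (l + j) (by omega)).2.2.1 i hi
  have h9 : c.w / 3 < c.a i (p (l + j)) := h7
  linarith

end Pool.ETM
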