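/-
Project ETM (MP_c7bb65_an), block ST (section 8 of /team-store/c7bb65_proof.md).
MODULE StE (difficulty 2).  The sequence of graphs becomes stationary; `exists_fix`.

RECIPE.  `spG c el G` is the splice of the pull back of `G = (V, E)`.  `st_adm`: `adm_pull` (SrB), `splice_adm` (IfSc) with `hR.loc`.
`exists_fix`: `exists_rule` (IfSa) gives `Pt, us, el`; `adm_start` (SrB) gives `G 0 = (V κ, E κ)`; `G n = (spG c el)^[n] (G 0)`; all are
`Adm c.L` (`st_adm`, induction).  CLAIM: `G (M + 1) = G M` for `M = NN + 2 * nhole + nb + 20`.  Suppose not.  By `gdiff_empty`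
`gdiff (G (M + 1)) (G M)` is nonempty.  For `n ≥ 1` and `x ∈ gdiff (G (n + 1)) (G n)`: `G (n + 1) = spG (G n)`, `G n = spG (G (n - 1))`, so
`st_step` (StB) applies to the pull backs: the first part of its conclusion for `x`, and `y ∈ gdiff` of the pull backs of `G n`, `G (n - 1)`, `C`;
`x' = f y ∈ gdiff (G n) (G (n - 1))` (`gdiff_pull`) and `st_next` (StC) gives `dist (f x) x' < ε₁` and the statement on `δ`.
So one can choose `p 0 ∈ gdiff (G (M + 1)) (G M)` and `p (j + 1) ∈ gdiff (G (M - j)) (G (M - j - 1))` for `j < M` (dependent choice: prove by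
induction on `n`: for every `x ∈ gdiff (G (n + 1)) (G n)` there is `p : ℕ → X` with `p 0 = x` and the properties of `st_orbit` for all `j < n`;
step: `Nat.cases`-function `fun j => match j with | 0 => x | j + 1 => p' j`).  `st_orbit` (StD) gives the contradiction.
Then `(V, E) = G M` is fixed: `Fix.adm`, `Fix.adm1 := adm_pull`, `Fix.spl`: `hV`, `hE` are the two components of `G M = spG (G M)` with
`Pt i θ := Pt i θ (dat i θ (f ⁻¹' V) (pullE f E))` etc., `loc := hR.loc _ _ (adm_pull ..)`.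
-/
import Mathlib
import Pool.Agent.ETM.StB
import Pool.Agent.ETM.StC
import Pool.Agent.ETM.StD
import Pool.Agent.ETM.SrB
import Pool.Agent.ETM.SrR
import Pool.Agent.ETM.ScH

set_option autoImplicit false

open Set Metric Topology Filter
open Pool.JS

namespace Pool.ETM

/-- the splice of the pull back of a graph -/
def spG {X : Type*} [TopologicalSpace X] (c : Ctx X) (el : ℕ → Set X → Set X × Set X → Set X) (G : Set X × Set (Set X)) :
    Set X × Set (Set X) :=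
  (c.spV (c.f ⁻¹' G.1) (pullE c.f G.2),
    c.spE (pullE c.f G.2) (fun i θ => el i θ (c.dat i θ (c.f ⁻¹' G.1) (pullE c.f G.2))))

variable {X : Type*} [MetricSpace X] [CompactSpace X] [Sph X] {c : Ctx X} (h : c.Ok)

include h

theorem st_adm {Pt : ℕ → Set X → Set X × Set X → X → Set X} {us : ℕ → Set X → Set X × Set X → X → X}
    {el : ℕ → Set X → Set X × Set X → Set X} (hR : c.Rule Pt us el) {G : Set X × Set (Set X)} (hA : c.Adm c.L G.1 G.2) :
    c.Adm c.L (spG c el G).1 (spG c el G).2 := by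
  have h1 := adm_pull h hA
  exact splice_adm h h1 (Pt := fun i θ => Pt i θ (c.dat i θ (c.f ⁻¹' G.1) (pullE c.f G.2)))
    (us := fun i θ => us i θ (c.dat i θ (c.f ⁻¹' G.1) (pullE c.f G.2)))
    (el := fun i θ => el i θ (c.dat i θ (c.f ⁻¹' G.1) (pullE c.f G.2)))
    (fun i hi θ hθ => hR.loc _ _ h1 i hi θ hθ)

theorem ste_step {Pt : ℕ → Set X → Set X × Set X → X → Set X} {us : ℕ → Set X → Set X × Set X → X → X}
    {el : ℕ → Set X → Set X × Set X → Set X} (hR : c.Rule Pt us el) {G G' : Set X × Set (Set X)}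
    (hA : c.Adm c.L G.1 G.2) (hA' : c.Adm c.L G'.1 G'.2) {x : X}
    (hx : x ∈ gdiff (spG c el G).1 (spG c el G).2 (spG c el G').1 (spG c el G').2) :
    (x ∉ c.Z ∧ c.δ x < c.nhole + 1 / 8 ∧ ∀ i < c.nc, c.a i x < c.w / 3) ∧
      ∃ x' ∈ gdiff G.1 G.2 G'.1 G'.2, dist (c.f x) x' < c.ε₁ ∧
        ((c.nb : ℝ) + 1 ≤ c.δ x → |c.δ x' - (c.δ x - 1)| < 1 / 16) := by
  obtain ⟨h1, y, hy, C, hC, hxC, hyC, hd⟩ := st_step h hR (adm_pull h hA) (adm_pull h hA') hx
  refine ⟨h1, c.f y, gdiff_pull hy, ?_⟩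
  obtain ⟨h2, h3⟩ := st_next h hC hxC hyC h1.1 h1.2.1 hd
  exact ⟨h2, fun h4 => (h3 h4).2⟩

/-- section 8 -/
theorem exists_fix : ∃ (Pt : ℕ → Set X → X → Set X) (us : ℕ → Set X → X → X) (el : ℕ → Set X → Set X) (V : Set X)
    (E : Set (Set X)), c.Fix Pt us el V E := by
  obtain ⟨Pt, us, el, hR⟩ := exists_rule h
  obtain ⟨κ, hκ⟩ := adm_start h
  obtain ⟨G, hG⟩ : ∃ G : ℕ → Set X × Set (Set X), G = fun n => (spG c el)^[n] (c.V κ, c.E κ) := ⟨_, rfl⟩
  have hG0 : G 0 = (c.V κ, c.E κ) := by rw [hG]; rfl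
  have hGs : ∀ n, G (n + 1) = spG c el (G n) := by
    intro n
    rw [hG]
    exact Function.iterate_succ_apply' _ _ _
  have hAdm : ∀ n, c.Adm c.L (G n).1 (G n).2 := by
    intro n
    induction n with
    | zero => rw [hG0]; exact hκ
    | succ n ih => rw [hGs]; exact st_adm h hR ih
  have chain : ∀ n : ℕ, ∀ x ∈ gdiff (G (n + 1)).1 (G (n + 1)).2 (G n).1 (G n).2, ∃ p : ℕ → X, p 0 = x ∧
      ∀ j < n, p j ∉ c.Z ∧ c.δ (p j) < c.nhole + 1 / 8 ∧
    (∀ i < c.nc, c.a i (p j) < c.w / 3) ∧ dist (c.f (p j)) (p (j + 1)) < c.ε₁ ∧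
    ((c.nb : ℝ) + 1 ≤ c.δ (p j) → |c.δ (p (j + 1)) - (c.δ (p j) - 1)| < 1 / 16) := by
    intro n
    induction n with
    | zero => exact fun x _ => ⟨fun _ => x, rfl, fun j hj => absurd hj (Nat.not_lt_zero j)⟩
    | succ n ih =>
      intro x hx
      rw [hGs (n + 1)] at hx
      nth_rewrite 3 [hGs n] at hx
      nth_rewrite 3 [hGs n] at hx
      obtain ⟨⟨h1, h2, h3⟩, x', hx', h4, h5⟩ := ste_step h hR (hAdm (n + 1)) (hAdm n) hx
      obtain ⟨p', hp'0, hp'⟩ := ih x' hx'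
      refine ⟨fun j => match j with | 0 => x | j + 1 => p' j, rfl, ?_⟩
      intro j hj
      cases j with
      | zero =>
        refine ⟨h1, h2, h3, ?_, ?_⟩
        · show dist (c.f x) (p' 0) < c.ε₁
          rw [hp'0]
          exact h4
        · show (c.nb : ℝ) + 1 ≤ c.δ x → |c.δ (p' 0) - (c.δ x - 1)| < 1 / 16
          rw [hp'0]
          exact h5
      | succ j => exact hp' j (by omega)
  have hempty : gdiff (G (c.NN + 2 * c.nhole + c.nb + 20 + 1)).1 (G (c.NN + 2 * c.nhole + c.nb + 20 + 1)).2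
      (G (c.NN + 2 * c.nhole + c.nb + 20)).1 (G (c.NN + 2 * c.nhole + c.nb + 20)).2 = ∅ := by
    by_contra hne
    obtain ⟨x, hx⟩ := Set.nonempty_iff_ne_empty.mpr hne
    obtain ⟨p, -, hp⟩ := chain _ x hx
    exact st_orbit h p hp
  obtain ⟨hV, hE⟩ := gdiff_empty (hAdm _).good.pg (hAdm _).good.pg hempty
  rw [hGs] at hV hE
  obtain ⟨M, hM⟩ : ∃ M, M = c.NN + 2 * c.nhole + c.nb + 20 := ⟨_, rfl⟩
  rw [← hM] at hV hE
  refine ⟨fun i θ => Pt i θ (c.dat i θ (c.f ⁻¹' (G M).1) (pullE c.f (G M).2)),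
    fun i θ => us i θ (c.dat i θ (c.f ⁻¹' (G M).1) (pullE c.f (G M).2)),
    fun i θ => el i θ (c.dat i θ (c.f ⁻¹' (G M).1) (pullE c.f (G M).2)), (G M).1, (G M).2,
    hAdm M, adm_pull h (hAdm M), hV.symm, hE.symm, ?_⟩
  intro i hi θ hθ
  exact hR.loc _ _ (adm_pull h (hAdm M)) i hi θ hθ

end Pool.ETM
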