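/-
Project ETM (MP_c7bb65_an). Block ST (section 8): exists_fix, fix_edges.
-/
import Pool.Agent.ETM.StE
import Pool.Agent.ETM.StF
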