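/-
Project ETM: all the interfaces.
-/
import Pool.Agent.ETM.IfLe
import Pool.Agent.ETM.IfNet
import Pool.Agent.ETM.IfDep
import Pool.Agent.ETM.IfCtx
import Pool.Agent.ETM.IfLv
import Pool.Agent.ETM.IfSa
import Pool.Agent.ETM.IfSd
import Pool.Agent.ETM.IfSb
import Pool.Agent.ETM.IfSc
import Pool.Agent.ETM.IfSt
import Pool.Agent.ETM.IfFl
import Pool.Agent.ETM.IfSh
import Pool.Agent.ETM.IfSe
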