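/-
Project ETM (MP_c7bb65_an), block FIN.
MODULE FnZ.  The final theorem.
-/
import Mathlib
import Pool.Agent.ETM.If
import Pool.Agent.ETM.FnH
import Pool.Agent.ETM.FnS
import Pool.Agent.ETM.FnT

set_option autoImplicit false

open Set Metric Topology Filter
open Pool.JS

namespace Pool.ETM

open Pool.CellMarkov

theorem inv_of_dyn {X : Type*} [MetricSpace X] [CompactSpace X] [Sph X] [Nonempty X] {f : X → X} {P : Set X} {η : ℝ}
    (hD : Dyn f P) (he : Expd f P η) : ∃ (V : Set X) (E : Set (Set X)), Inv f P η V E := by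
  obtain ⟨c, rfl, rfl, rfl, hc⟩ := exists_ctx hD he
  obtain ⟨Pt, us, el, V, E, hF⟩ := exists_fix hc
  obtain ⟨φ, path, r, π, hP⟩ := exists_push hc hF
  obtain ⟨D, Db, lv, g, hS⟩ := exists_shad hc hF hP
  exact ⟨_, _, exists_inv hc hF hP hS⟩

/-- every expanding Thurston map has a cellular Markov partition -/
theorem etm_main (X : Type*) [MetricSpace X] (hX : Nonempty (X ≃ₜ sphere (0 : EuclideanSpace ℝ (Fin 3)) 1)) (f : X → X)
    (hf : IsThurston f) (he : IsExpanding f) : HasCellularMarkovPartition f := by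
  obtain ⟨h⟩ := hX
  haveI : CompactSpace X := compact_of_homeo X h
  haveI : Sph X := sph_of_homeo X h
  haveI : Nonempty X := by
    by_contra hne
    rw [not_nonempty_iff] at hne
    exact hf.deg (fun x => (hne.false x).elim)
  obtain ⟨hD, η, hE⟩ := dyn_of_thurston hf he
  obtain ⟨V, E, hI⟩ := inv_of_dyn hD hE
  exact exists_markov hD hE hI

end Pool.ETM
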