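import Pool.Agent.ETM.ZDefs

/-!
ETM, MODULE ZA (difficulty 2): components of full sets.

RECIPE.  `full_comp`: let `C = connectedComponentIn A z` (closed: component of a closed set).  Every component `W` of the open set `Cᶜ` (`W = connectedComponentIn Cᶜ w`, open as
`X` is locally connected) meets `Aᶜ`: otherwise `W ⊆ A`, `closure W ⊆ A`; `W ≠ univ` as `z ∉ W`, `X` is connected, so `frontier W` is nonempty, and `frontier W ⊆ C` (a point `y` of `closure W` outside `C` lies in
`Cᶜ` open, its component is open and meets `W`, so it is `W`).  So `closure W ∪ C` is preconnected, contained in `A`, contains `z`, hence is contained in `C`: contradiction with `W ⊆ Cᶜ`, `W` nonempty.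
So all components of `Cᶜ` meet the preconnected set `Aᶜ ⊆ Cᶜ`: `Cᶜ` is preconnected (`isPreconnected_of_forall` with a base point in `Aᶜ`: the set `connectedComponentIn Cᶜ y ∪ Aᶜ`).
`full_inter`: `(A ∩ B)ᶜ = Aᶜ ∪ Bᶜ`, with a common point.
`comp_image_open` (2.1): `V = gc f U x` is open (`IsOpen.connectedComponentIn`), `f '' V` is open and relatively closed in `U` (let `y ∈ U ∩ closure (f '' V)`; `f '' closure V` is compact, so closed: `y = f v`, `v ∈ closure V ∩ f ⁻¹' U`;
a component of `f ⁻¹' U` is relatively closed in it: `insert v V` is connected), so it is `U`.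
-/

open Set Metric Topology Filter

namespace Pool.ETM

variable {X : Type*} [TopologicalSpace X] [CompactSpace X] [T2Space X]

theorem full_comp [LocallyConnectedSpace X] [PreconnectedSpace X] {A : Set X} {z : X} (h1 : z ∈ A) (h2 : IsClosed A)
    (h3 : IsPreconnected Aᶜ) (h4 : (Aᶜ).Nonempty) : Fc1 (connectedComponentIn A z) z := by
  have hCA : connectedComponentIn A z ⊆ A := connectedComponentIn_subset A z
  have hzC : z ∈ connectedComponentIn A z := mem_connectedComponentIn h1
  have hcc : IsPreconnected (connectedComponentIn A z) := isPreconnected_connectedComponentIn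
  have hcl : IsClosed (connectedComponentIn A z) := by
    apply isClosed_of_closure_subset
    exact hcc.closure.subset_connectedComponentIn (subset_closure hzC) (closure_minimal hCA h2)
  have hAC : Aᶜ ⊆ (connectedComponentIn A z)ᶜ := compl_subset_compl.mpr hCA
  refine ⟨hzC, hcl, hcc, ?_, h4.mono hAC⟩
  obtain ⟨a₀, ha₀⟩ := h4
  apply isPreconnected_of_forall a₀
  intro y hy
  have hW1 : IsPreconnected (connectedComponentIn (connectedComponentIn A z)ᶜ y) :=
    isPreconnected_connectedComponentIn
  have hW2 : y ∈ connectedComponentIn (connectedComponentIn A z)ᶜ y := mem_connectedComponentIn hy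
  have hW3 : connectedComponentIn (connectedComponentIn A z)ᶜ y ⊆ (connectedComponentIn A z)ᶜ :=
    connectedComponentIn_subset _ y
  have hW4 : IsOpen (connectedComponentIn (connectedComponentIn A z)ᶜ y) :=
    hcl.isOpen_compl.connectedComponentIn
  have hmeet : ∃ x ∈ connectedComponentIn (connectedComponentIn A z)ᶜ y, x ∈ Aᶜ := by
    by_contra hno
    push Not at hno
    have hWA : connectedComponentIn (connectedComponentIn A z)ᶜ y ⊆ A := by
      intro x hx
      by_contra hxA
      exact hno x hx hxA
    have hp : ∃ p ∈ closure (connectedComponentIn (connectedComponentIn A z)ᶜ y), p ∈ connectedComponentIn A z := by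
      by_contra hno2
      push Not at hno2
      have h5 : closure (connectedComponentIn (connectedComponentIn A z)ᶜ y) ⊆
          connectedComponentIn (connectedComponentIn A z)ᶜ y :=
        hW1.closure.subset_connectedComponentIn (subset_closure hW2) hno2
      have h6 : IsClopen (connectedComponentIn (connectedComponentIn A z)ᶜ y) :=
        ⟨isClosed_of_closure_subset h5, hW4⟩
      rcases isClopen_iff.mp h6 with h7 | h7
      · rw [h7] at hW2
        exact hW2
      · have : z ∈ connectedComponentIn (connectedComponentIn A z)ᶜ y := by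
          rw [h7]
          exact mem_univ z
        exact hW3 this hzC
    obtain ⟨p, hp1, hp2⟩ := hp
    have h8 : IsPreconnected (closure (connectedComponentIn (connectedComponentIn A z)ᶜ y) ∪
        connectedComponentIn A z) := IsPreconnected.union p hp1 hp2 hW1.closure hcc
    have h9 := h8.subset_connectedComponentIn (Or.inr hzC) (union_subset (closure_minimal hWA h2) hCA)
    exact hy (h9 (Or.inl (subset_closure hW2)))
  obtain ⟨x, hx1, hx2⟩ := hmeet
  exact ⟨connectedComponentIn (connectedComponentIn A z)ᶜ y ∪ Aᶜ, union_subset hW3 hAC, Or.inr ha₀, Or.inl hW2,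
    IsPreconnected.union x hx1 hx2 hW1 h3⟩

theorem full_inter {A B : Set X} (hA : IsPreconnected Aᶜ) (hB : IsPreconnected Bᶜ) {x : X} (hxA : x ∉ A) (hxB : x ∉ B) :
    IsPreconnected (A ∩ B)ᶜ := by
  rw [compl_inter]
  exact IsPreconnected.union x hxA hxB hA hB

theorem comp_image_open [LocallyConnectedSpace X] {f : X → X} (hf : Continuous f) (ho : IsOpenMap f) {U : Set X}
    (hU : IsOpen U) (hc : IsPreconnected U) {x : X} (hx : f x ∈ U) :
    IsOpen (gc f U x) ∧ f '' gc f U x = U ∧ closure (gc f U x) ∩ f ⁻¹' U ⊆ gc f U x := by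
  unfold gc
  have hVo : IsOpen (connectedComponentIn (f ⁻¹' U) x) := (hU.preimage hf).connectedComponentIn
  have hxV : x ∈ connectedComponentIn (f ⁻¹' U) x := mem_connectedComponentIn hx
  have hVs : connectedComponentIn (f ⁻¹' U) x ⊆ f ⁻¹' U := connectedComponentIn_subset _ x
  have h3 : closure (connectedComponentIn (f ⁻¹' U) x) ∩ f ⁻¹' U ⊆ connectedComponentIn (f ⁻¹' U) x := by
    rintro v ⟨hv1, hv2⟩
    have h4 : IsPreconnected (insert v (connectedComponentIn (f ⁻¹' U) x)) := by
      apply isPreconnected_connectedComponentIn.subset_closure (subset_insert _ _)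
      exact insert_subset hv1 subset_closure
    have h5 := h4.subset_connectedComponentIn (mem_insert_of_mem v hxV) (insert_subset hv2 hVs)
    exact h5 (mem_insert _ _)
  refine ⟨hVo, ?_, h3⟩
  apply Subset.antisymm (image_subset_iff.mpr hVs)
  apply hc.subset_of_closure_inter_subset (ho _ hVo) ⟨f x, hx, ⟨x, hxV, rfl⟩⟩
  rw [hf.isClosedMap.closure_image_eq_of_continuous hf]
  rintro y ⟨⟨v, hv, rfl⟩, hy⟩
  exact ⟨v, h3 ⟨hv, hy⟩, rfl⟩

end Pool.ETM
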