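import Pool.Agent.ETM.ZDefs

/-!
ETM, MODULE ZB (difficulty 2): an open map is confluent.

RECIPE.  `F = f ⁻¹' A` is compact.  In the compact Hausdorff space `F` the component of `x` is the intersection of the clopen sets containing `x` (`connectedComponent_eq_iInter_isClopen` for the subtype `F`; transfer by
`connectedComponentIn_eq_image` and `Subtype.val`).  For such a clopen set `Q` of `F` (as a subset of `X`: `Q` closed, `Q = F ∩ O` with `O` open) the image `f '' Q` is closed (compact) and relatively open in `A`: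
`f '' Q = f '' O ∩ A`.  So `f '' Q = A` (preconnected, nonempty).  Let `y ∈ A`: the sets `f ⁻¹' {y} ∩ Q` are compact, nonempty and directed (`Q ∩ Q'` is again clopen), so their intersection is nonempty
(`IsCompact.nonempty_iInter_of_directed_nonempty_isCompact_isClosed`): a point of the component over `y`.
-/

open Set Metric Topology Filter

namespace Pool.ETM

variable {X : Type*} [TopologicalSpace X] [CompactSpace X] [T2Space X]

theorem zb_clopen {f : X → X} (hf : Continuous f) (ho : IsOpenMap f) {A : Set X} (hA : IsClosed A)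
    (hc : IsPreconnected A) {x : X} (hx : f x ∈ A) {Q : Set (f ⁻¹' A)} (hQ : IsClopen Q)
    (hxQ : (⟨x, hx⟩ : f ⁻¹' A) ∈ Q) {y : X} (hy : y ∈ A) : ∃ q ∈ Q, f q.1 = y := by
  have : CompactSpace (f ⁻¹' A) := isCompact_iff_compactSpace.mp (hA.preimage hf).isCompact
  obtain ⟨O, hO, hOQ⟩ := isOpen_induced_iff.mp hQ.isOpen
  have hS : IsClosed ((fun q : f ⁻¹' A => f q.1) '' Q) :=
    (hQ.isClosed.isCompact.image (hf.comp continuous_subtype_val)).isClosed
  have hSO : ∀ a ∈ A, a ∈ f '' O ↔ a ∈ (fun q : f ⁻¹' A => f q.1) '' Q := by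
    intro a ha
    constructor
    · rintro ⟨o, ho', rfl⟩
      refine ⟨⟨o, ha⟩, ?_, rfl⟩
      rw [← hOQ]
      exact ho'
    · rintro ⟨q, hq, rfl⟩
      rw [← hOQ] at hq
      exact ⟨q.1, hq, rfl⟩
  by_contra hno
  have h1 : y ∉ (fun q : f ⁻¹' A => f q.1) '' Q := by
    rintro ⟨q, hq, hqy⟩
    exact hno ⟨q, hq, hqy⟩
  obtain ⟨a, ha, ha1, ha2⟩ := hc (f '' O) ((fun q : f ⁻¹' A => f q.1) '' Q)ᶜ (ho O hO) hS.isOpen_compl
    (by
      intro a ha
      by_cases h : a ∈ (fun q : f ⁻¹' A => f q.1) '' Q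
      · exact Or.inl ((hSO a ha).mpr h)
      · exact Or.inr h)
    ⟨f x, hx, (hSO _ hx).mpr ⟨⟨x, hx⟩, hxQ, rfl⟩⟩ ⟨y, hy, h1⟩
  exact ha2 ((hSO a ha).mp ha1)

theorem confluent {f : X → X} (hf : Continuous f) (ho : IsOpenMap f) {A : Set X} (hA : IsClosed A)
    (hc : IsPreconnected A) {x : X} (hx : f x ∈ A) : f '' gc f A x = A := by
  unfold gc
  apply Subset.antisymm (image_subset_iff.mpr (connectedComponentIn_subset _ x))
  intro y hy
  have : CompactSpace (f ⁻¹' A) := isCompact_iff_compactSpace.mp (hA.preimage hf).isCompact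
  have hx' : x ∈ f ⁻¹' A := hx
  have hne : Nonempty {s : Set (f ⁻¹' A) // IsClopen s ∧ (⟨x, hx'⟩ : f ⁻¹' A) ∈ s} :=
    ⟨⟨univ, isClopen_univ, mem_univ _⟩⟩
  have hclosed : IsClosed {q : f ⁻¹' A | f q.1 = y} :=
    isClosed_eq (hf.comp continuous_subtype_val) continuous_const
  obtain ⟨q, hq⟩ := IsCompact.nonempty_iInter_of_directed_nonempty_isCompact_isClosed
    (fun s : {s : Set (f ⁻¹' A) // IsClopen s ∧ (⟨x, hx'⟩ : f ⁻¹' A) ∈ s} => s.1 ∩ {q : f ⁻¹' A | f q.1 = y})
    (by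
      rintro ⟨s, hs, hs'⟩ ⟨t, ht, ht'⟩
      refine ⟨⟨s ∩ t, hs.inter ht, hs', ht'⟩, ?_, ?_⟩
      · exact inter_subset_inter_left _ inter_subset_left
      · exact inter_subset_inter_left _ inter_subset_right)
    (by
      rintro ⟨s, hs, hs'⟩
      obtain ⟨q, hq, hqy⟩ := zb_clopen hf ho hA hc hx hs hs' hy
      exact ⟨q, hq, hqy⟩)
    (by
      rintro ⟨s, hs, hs'⟩
      exact (hs.isClosed.inter hclosed).isCompact)
    (by
      rintro ⟨s, hs, hs'⟩
      exact hs.isClosed.inter hclosed)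
  rw [mem_iInter] at hq
  rw [connectedComponentIn_eq_image hx', connectedComponent_eq_iInter_isClopen]
  refine ⟨q.1, ⟨q, ?_, rfl⟩, (hq hne.some).2⟩
  rw [mem_iInter]
  intro s
  exact (hq s).1

end Pool.ETM
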