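import Pool.Agent.ETM.ZDefs
import Pool.Agent.JS.SpC

/-!
ETM, MODULE ZC (difficulty 1): the complement of a finite union of disjoint full sets.

RECIPE.  `iUnion_full`: induction on the finite set `Z` (`Set.Finite.induction_on`), statement: any two points `a`, `b` outside the union are `ConX (⋃ z ∈ Z, K z) a b` (`janiszewskiX` with the two closed sets `K z` and the union over the rest, which are disjoint, so the
intersection is empty, preconnected).  `ConX (K z) a b` for one set: `(K z)ᶜ` itself.  From `ConX` for all pairs to `IsPreconnected`: `isPreconnected_of_forall_pair`.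
-/

open Set Metric Topology Filter
open Pool.JS

namespace Pool.ETM

variable {X : Type*} [TopologicalSpace X] [CompactSpace X] [T2Space X] [Sph X]

theorem zc_univ : IsPreconnected (univ : Set X) := by
  rcases isEmpty_or_nonempty X with h | ⟨⟨x⟩⟩
  · intro u v _ _ _ ⟨y, _⟩
    exact (h.false y).elim
  · obtain ⟨σ, hσ⟩ := exists_chart x
    have h1 : IsPreconnected (σ '' univ) := isPreconnected_univ.image σ hσ.cont.continuousOn
    have h2 : closure (σ '' univ) = univ := by
      apply Subset.antisymm (subset_univ _)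
      intro y _
      by_cases hy : y = x
      · rw [hy, hσ.mem_closure]
        exact NormedSpace.unbounded_univ ℝ ℂ
      · obtain ⟨z, rfl⟩ := hσ.exists_eq hy
        exact subset_closure ⟨z, mem_univ z, rfl⟩
    rw [← h2]
    exact h1.closure

theorem iUnion_full {Z : Set X} (hZ : Z.Finite) {K : X → Set X} (hK : ∀ z ∈ Z, IsClosed (K z))
    (hc : ∀ z ∈ Z, IsPreconnected (K z)ᶜ) (hd : ∀ z ∈ Z, ∀ z' ∈ Z, z ≠ z' → Disjoint (K z) (K z')) :
    IsPreconnected (⋃ z ∈ Z, K z)ᶜ := by
  induction Z, hZ using Set.Finite.induction_on with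
  | empty =>
    simp only [mem_empty_iff_false, iUnion_of_empty, iUnion_empty, compl_empty]
    exact zc_univ
  | @insert z Z' hz hZ' ih =>
    have ih' := ih (fun w hw => hK w (mem_insert_of_mem _ hw)) (fun w hw => hc w (mem_insert_of_mem _ hw))
      (fun w hw w' hw' => hd w (mem_insert_of_mem _ hw) w' (mem_insert_of_mem _ hw'))
    rw [biUnion_insert]
    have hL : IsClosed (⋃ w ∈ Z', K w) := hZ'.isClosed_biUnion fun w hw => hK w (mem_insert_of_mem _ hw)
    have hdis : K z ∩ ⋃ w ∈ Z', K w = ∅ := by
      rw [← disjoint_iff_inter_eq_empty, disjoint_iUnion₂_right]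
      intro w hw
      apply hd z (mem_insert _ _) w (mem_insert_of_mem _ hw)
      rintro rfl
      exact hz hw
    apply isPreconnected_of_forall_pair
    intro a ha b hb
    have h1 : ConX (K z) a b := ⟨(K z)ᶜ, hc z (mem_insert _ _), Subset.rfl, fun h => ha (Or.inl h), fun h => hb (Or.inl h)⟩
    have h2 : ConX (⋃ w ∈ Z', K w) a b := ⟨_, ih', Subset.rfl, fun h => ha (Or.inr h), fun h => hb (Or.inr h)⟩
    obtain ⟨C, hC, hCs, haC, hbC⟩ := janiszewskiX (hK z (mem_insert _ _)) hL
      (by rw [hdis]; exact isPreconnected_empty) ha hb h1 h2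
    exact ⟨C, hCs, haC, hbC, hC⟩

end Pool.ETM
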