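import Pool.Agent.ETM.Defs

/-!
ETM, block Z (section 4 of the paper proof): definitions.
-/

open Set Metric Topology Filter

namespace Pool.ETM

variable {X : Type*}

/-- the component of `f ⁻¹' A` containing `z` -/
def gc [TopologicalSpace X] (f : X → X) (A : Set X) (z : X) : Set X := connectedComponentIn (f ⁻¹' A) z

/-- a full continuum containing `z` -/
structure Fc1 [TopologicalSpace X] (A : Set X) (z : X) : Prop where
  mem : z ∈ A
  closed : IsClosed A
  conn : IsPreconnected A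
  cpl : IsPreconnected Aᶜ
  ne : (Aᶜ).Nonempty

/-- the open neighbourhoods `B z` of the points of `Z` (4.1) -/
structure LocB [TopologicalSpace X] (f : X → X) (Z : Set X) (B : X → Set X) : Prop where
  finZ : Z.Finite
  mapZ : MapsTo f Z Z
  opn : ∀ z ∈ Z, IsOpen (B z)
  conn : ∀ z ∈ Z, IsPreconnected (B z)
  mem : ∀ z ∈ Z, z ∈ B z
  out : ∀ z ∈ Z, ∃ x, x ∉ B z ∧ x ∉ gc f (B (f z)) z
  disj : ∀ z ∈ Z, ∀ z' ∈ Z, z ≠ z' → Disjoint (B z) (B z')
  one : ∀ z ∈ Z, ∀ y ∈ gc f (B (f z)) z, f y = f z → y = z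
  cpl : ∀ z ∈ Z, IsPreconnected (gc f (B (f z)) z)ᶜ

/-- the nested discs `D j z` in `B z` -/
structure NestD [TopologicalSpace X] (Z : Set X) (B : X → Set X) (D : ℕ → X → Set X) : Prop where
  full : ∀ j, ∀ z ∈ Z, Fc1 (D j z) z
  int : ∀ z ∈ Z, z ∈ interior (D 0 z)
  step : ∀ j, ∀ z ∈ Z, D j z ⊆ interior (D (j + 1) z)
  sub : ∀ j, ∀ z ∈ Z, D j z ⊆ B z

/-- the trapping sets `K z` (4.2) -/
structure TrK [MetricSpace X] (f : X → X) (Z : Set X) (B : X → Set X) (K : X → Set X) (η : ℝ) : Prop where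
  full : ∀ z ∈ Z, Fc1 (K z) z
  sub : ∀ z ∈ Z, K z ⊆ B z
  diam : ∀ z ∈ Z, diam (K z) < η
  trap : ∀ z ∈ Z, gc f (K (f z)) z ⊆ interior (K z)

/-- the sets `T n z` -/
def Tn [TopologicalSpace X] (f : X → X) (K : X → Set X) : ℕ → X → Set X
  | 0, z => K z
  | n + 1, z => gc f (Tn f K n (f z)) z

/-- the union of the sets `T n z`, `z ∈ Z` -/
def TU [TopologicalSpace X] (f : X → X) (Z : Set X) (K : X → Set X) (n : ℕ) : Set X := ⋃ z ∈ Z, Tn f K n z

/-- the Urysohn function of 4.3 -/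
noncomputable def de0 [MetricSpace X] (f : X → X) (Z : Set X) (K : X → Set X) (x : X) : ℝ :=
  infDist x (interior (TU f Z K 0))ᶜ / (infDist x (interior (TU f Z K 0))ᶜ + infDist x (TU f Z K 1))

open Classical in
/-- the summands of the depth function -/
noncomputable def hj [MetricSpace X] (f : X → X) (Z : Set X) (K : X → Set X) : ℕ → X → ℝ
  | 0, x => de0 f Z K x
  | j + 1, x => if x ∈ TU f Z K 1 then hj f Z K j (f x) else 0

open Classical in
/-- the depth function -/
noncomputable def dep [MetricSpace X] (f : X → X) (Z : Set X) (K : X → Set X) (x : X) : ℝ :=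
  if h : ∃ n, x ∉ TU f Z K n then ∑ j ∈ Finset.range (Nat.find h), hj f Z K j x else 0

/-- the standing hypotheses of the second half of block Z -/
structure ZHyp [MetricSpace X] (f : X → X) (Z : Set X) (B K : X → Set X) (η : ℝ) : Prop where
  cont : Continuous f
  opn : IsOpenMap f
  contr : ∀ r : ℝ, 0 < r → ∃ m₀ : ℕ, ∀ n : ℕ, m₀ ≤ n → ∀ V : Set X, IsPreconnected V →
    Metric.diam (f^[n] '' V) < η → Metric.diam V < r
  loc : LocB f Z B
  trk : TrK f Z B K η

end Pool.ETM
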