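import Pool.Agent.ETM.ZA
import Pool.Agent.ETM.ZB

/-!
ETM, MODULE ZE (difficulty 3): the operator `A ↦ gc f A z` (4.1).

RECIPE.  Let `W = gc f (B (f z)) z`, open, `f '' W = B (f z)`, `closure W ∩ f ⁻¹' B (f z) ⊆ W` (`comp_image_open`).
`gc_eq`: `⊆`: monotone.  `⊇`: let `x ∈ W`, `f x ∈ A`.  `f '' gc f A x = A ∋ f z` (`confluent` for closed `A`, `comp_image_open` for open `A`): `y ∈ gc f A x` with `f y = f z`.  `gc f A x ⊆ gc f (B (f z)) x = W` (`x ∈ W`: `connectedComponentIn_eq`), so
`y = z` by `LocB.one`; so `z ∈ gc f A x` and `x ∈ gc f A z`.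
`gc_clopen`: if `C` is preconnected, `f '' C ⊆ A`, `C ∩ gc f A z` nonempty then `C ⊆ gc f A z`: maximality of the component.
`gc_full`: closed: component of a closed set (or `gc_eq`: `W ∩ f ⁻¹' A = closure W ∩ f ⁻¹' A`); complement: let `Q` be a component of the open set `(gc f A z)ᶜ` which is contained in `W`.  Then `f '' Q` is open, contained in `B (f z)`, disjoint from `A`
(`Q ⊆ W`, `gc_eq`), `f '' frontier Q ⊆ A` (`frontier Q ⊆ gc f A z`), so `f '' Q` is relatively closed in `Aᶜ`; `Aᶜ` is preconnected, so `f '' Q = Aᶜ`, but there is a point outside `B (f z)` (`LocB.out` for `f z ∈ Z`), and it is in `Aᶜ`: contradiction.  So every component of `(gc f A z)ᶜ` meets the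
preconnected set `Wᶜ ⊆ (gc f A z)ᶜ`, nonempty by `LocB.out` (a point `x ∉ W` also shows `Fc1.ne`).
-/

open Set Metric Topology Filter

namespace Pool.ETM

variable {X : Type*} [TopologicalSpace X] [CompactSpace X] [T2Space X] [LocallyConnectedSpace X] [PreconnectedSpace X]

theorem gc_eq {f : X → X} (hf : Continuous f) (ho : IsOpenMap f) {Z : Set X} {B : X → Set X} (hB : LocB f Z B)
    {z : X} (hz : z ∈ Z) {A : Set X} (hA : IsClosed A ∨ IsOpen A) (hc : IsPreconnected A) (hzA : f z ∈ A)
    (hAB : A ⊆ B (f z)) : gc f A z = gc f (B (f z)) z ∩ f ⁻¹' A := by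
  apply Subset.antisymm
  · intro x hx
    exact ⟨connectedComponentIn_mono z (preimage_mono hAB) hx, connectedComponentIn_subset _ _ hx⟩
  · rintro x ⟨hxW, hxA⟩
    have himg : f '' gc f A x = A := by
      rcases hA with hA | hA
      · exact confluent hf ho hA hc hxA
      · exact (comp_image_open hf ho hA hc hxA).2.1
    obtain ⟨y, hy, hyz⟩ : ∃ y ∈ gc f A x, f y = f z := by
      rw [← himg] at hzA
      exact hzA
    have hyW : y ∈ gc f (B (f z)) z := by
      have h1 : gc f A x ⊆ gc f (B (f z)) x := connectedComponentIn_mono x (preimage_mono hAB)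
      have h2 : gc f (B (f z)) z = gc f (B (f z)) x := connectedComponentIn_eq hxW
      rw [h2]
      exact h1 hy
    have hyz' : y = z := hB.one z hz y hyW hyz
    subst hyz'
    have h3 : gc f A x = gc f A y := connectedComponentIn_eq hy
    rw [← h3]
    exact mem_connectedComponentIn hxA

theorem ze_rel {F : Set X} {y v : X} (hy : y ∈ F) (hv : v ∈ closure (connectedComponentIn F y)) (hvF : v ∈ F) :
    v ∈ connectedComponentIn F y := by
  have h1 : IsPreconnected (insert v (connectedComponentIn F y)) :=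
    isPreconnected_connectedComponentIn.subset_closure (subset_insert _ _)
      (insert_subset hv subset_closure)
  have h2 : insert v (connectedComponentIn F y) ⊆ connectedComponentIn F y :=
    h1.subset_connectedComponentIn (mem_insert_of_mem _ (mem_connectedComponentIn hy))
      (insert_subset hvF (connectedComponentIn_subset _ _))
  exact h2 (mem_insert _ _)

theorem gc_full {f : X → X} (hf : Continuous f) (ho : IsOpenMap f) {Z : Set X} {B : X → Set X} (hB : LocB f Z B)
    {z : X} (hz : z ∈ Z) {A : Set X} (hA : Fc1 A (f z)) (hAB : A ⊆ B (f z)) : Fc1 (gc f A z) z := by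
  have hfz : f z ∈ Z := hB.mapZ hz
  have hzG : z ∈ gc f A z := mem_connectedComponentIn (show z ∈ f ⁻¹' A from hA.mem)
  have hGc : IsClosed (gc f A z) := by
    apply isClosed_of_closure_subset
    have h1 : IsPreconnected (closure (gc f A z)) := isPreconnected_connectedComponentIn.closure
    have h2 : closure (gc f A z) ⊆ f ⁻¹' A :=
      closure_minimal (connectedComponentIn_subset _ _) (hA.closed.preimage hf)
    exact h1.subset_connectedComponentIn (subset_closure hzG) h2
  have hGW : gc f A z ⊆ gc f (B (f z)) z := connectedComponentIn_mono z (preimage_mono hAB)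
  have hGe := gc_eq hf ho hB hz (Or.inl hA.closed) hA.conn hA.mem hAB
  obtain ⟨x₀, -, hx₀⟩ := hB.out z hz
  refine ⟨hzG, hGc, isPreconnected_connectedComponentIn, ?_, ⟨x₀, fun h => hx₀ (hGW h)⟩⟩
  refine isPreconnected_of_forall x₀ ?_
  intro y hy
  have hmeet : ∃ v ∈ connectedComponentIn (gc f A z)ᶜ y, v ∉ gc f (B (f z)) z := by
    by_contra hcon
    push Not at hcon
    have hQo : IsOpen (connectedComponentIn (gc f A z)ᶜ y) := hGc.isOpen_compl.connectedComponentIn
    have hyQ : y ∈ connectedComponentIn (gc f A z)ᶜ y := mem_connectedComponentIn hy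
    have hfQA : ∀ x ∈ connectedComponentIn (gc f A z)ᶜ y, f x ∉ A := by
      intro x hx hxA
      have h1 : x ∈ gc f A z := by
        rw [hGe]
        exact ⟨hcon x hx, hxA⟩
      exact connectedComponentIn_subset _ _ hx h1
    have hcl : closure (f '' connectedComponentIn (gc f A z)ᶜ y) ∩ Aᶜ ⊆ f '' connectedComponentIn (gc f A z)ᶜ y := by
      rintro u ⟨hu, huA⟩
      have h1 : closure (f '' connectedComponentIn (gc f A z)ᶜ y) ⊆ f '' closure (connectedComponentIn (gc f A z)ᶜ y) :=
        closure_minimal (image_mono subset_closure) (hf.isClosedMap _ isClosed_closure)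
      obtain ⟨v, hv, rfl⟩ := h1 hu
      have hvG : v ∈ (gc f A z)ᶜ := by
        intro hvG
        exact huA (connectedComponentIn_subset (f ⁻¹' A) z hvG)
      exact ⟨v, ze_rel hy hv hvG, rfl⟩
    have hsub : Aᶜ ⊆ f '' connectedComponentIn (gc f A z)ᶜ y :=
      hA.cpl.subset_of_closure_inter_subset (ho _ hQo) ⟨f y, hfQA y hyQ, mem_image_of_mem f hyQ⟩ hcl
    obtain ⟨x₁, hx₁, -⟩ := hB.out (f z) hfz
    obtain ⟨v, hv, hvx⟩ := hsub (fun h => hx₁ (hAB h) : x₁ ∈ Aᶜ)
    have h2 : f v ∈ B (f z) := connectedComponentIn_subset (f ⁻¹' B (f z)) z (hcon v hv)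
    exact hx₁ (hvx ▸ h2)
  obtain ⟨v, hv, hvW⟩ := hmeet
  refine ⟨(gc f (B (f z)) z)ᶜ ∪ connectedComponentIn (gc f A z)ᶜ y, ?_, Or.inl hx₀, Or.inr (mem_connectedComponentIn hy), ?_⟩
  · exact union_subset (compl_subset_compl.2 hGW) (connectedComponentIn_subset _ _)
  · exact (hB.cpl z hz).union v hvW hv isPreconnected_connectedComponentIn

end Pool.ETM
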