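import Pool.Agent.ETM.ZE

/-!
ETM, MODULE ZF (difficulty 4): the trapping sets `K z` (4.2).

RECIPE.  `S n i z = {x | ∀ j < n, f^[j] x ∈ D (i + j) (f^[j] z)}` (closed), `KK n i z = connectedComponentIn (S n i z) z`.
(1) `Fc1 (KK (n + 1) i z) z` for all `i` and `z ∈ Z`, by induction on `n`.  `n = 0`: `S 1 i z = D i z` is preconnected, so it is its own component.  Step: `KK (n + 2) i z = connectedComponentIn (D i z ∩ gc f (KK (n + 1) (i + 1) (f z)) z) z`
[`⊆`: a preconnected `C ∋ z`, `C ⊆ S (n + 2) i z` has `C ⊆ D i z`, `f '' C ⊆ S (n + 1) (i + 1) (f z)` preconnected `∋ f z`, so `f '' C ⊆ KK ..`, so `C ⊆ gc f (KK ..) z`; `⊇`: the set on the right is contained in `S (n + 2) i z`].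
`gc f (KK ..) z` is full by `gc_full` (`KK (n + 1) (i + 1) (f z) ⊆ D (i + 1) (f z) ⊆ B (f z)`), the intersection with `D i z` has preconnected complement by `full_inter` and `LocB.out` (`D i z ⊆ B z`, `gc f (KK ..) z ⊆ gc f (B (f z)) z`),
then `full_comp`.
(2) Choose `r > 0` with `ball z r ⊆ D 0 z` for all `z ∈ Z` (finite set), `m₀` for `r` from `hcontr`, `n = m₀ + 1`, `K z = KK n 0 z`.  `diam (K z) < η`: `K z ⊆ D 0 z ⊆ B z` (bounded, `diam_mono`).
(3) Trap: `K' = gc f (K (f z)) z` is preconnected, contains `z`; `f '' K' ⊆ K (f z) ⊆ S n 0 (f z)`.  So for `x ∈ K'` and `1 ≤ j < n`: `f^[j] x ∈ D (j - 1) (f^[j] z) ⊆ interior (D j (f^[j] z))`, and `f^[n] '' K' ⊆ D (n - 1) (f^[n] z) ⊆ B ..` has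
diameter `< η`, so `diam K' < r`, `K' ⊆ ball z r ⊆ interior (D 0 z)`.  So `K'` is contained in the open set `O = {x | ∀ j < n, f^[j] x ∈ interior (D j (f^[j] z))}`, in its component of `z`, which is open and contained in `K z`.
-/

open Set Metric Topology Filter

namespace Pool.ETM

variable {X : Type*} [MetricSpace X] [CompactSpace X] [LocallyConnectedSpace X] [PreconnectedSpace X]

/-- the sets `KK (n + 1) i z` -/
private def zf_K (f : X → X) (D : ℕ → X → Set X) : ℕ → ℕ → X → Set X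
  | 0, i, z => D i z
  | n + 1, i, z => connectedComponentIn (D i z ∩ gc f (zf_K f D n (i + 1) (f z)) z) z

omit [CompactSpace X] [LocallyConnectedSpace X] [PreconnectedSpace X] in
private theorem zf_sub (f : X → X) (D : ℕ → X → Set X) (n i : ℕ) (z : X) : zf_K f D n i z ⊆ D i z := by
  cases n with
  | zero => exact Subset.rfl
  | succ n => exact (connectedComponentIn_subset _ _).trans inter_subset_left

omit [CompactSpace X] [LocallyConnectedSpace X] [PreconnectedSpace X] in
private theorem zf_mem (f : X → X) (D : ℕ → X → Set X) (n : ℕ) : ∀ (i : ℕ) (z x : X), x ∈ zf_K f D n i z →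
    ∀ j ≤ n, f^[j] x ∈ D (i + j) (f^[j] z) := by
  induction n with
  | zero =>
    intro i z x hx j hj
    have hj0 : j = 0 := Nat.le_zero.1 hj
    subst hj0
    exact hx
  | succ n ih =>
    intro i z x hx j hj
    cases j with
    | zero => exact zf_sub f D (n + 1) i z hx
    | succ j =>
      have h1 : x ∈ D i z ∩ gc f (zf_K f D n (i + 1) (f z)) z := connectedComponentIn_subset _ _ hx
      have h2 : x ∈ f ⁻¹' zf_K f D n (i + 1) (f z) := connectedComponentIn_subset _ _ h1.2
      have h3 := ih (i + 1) (f z) (f x) h2 j (by omega)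
      have e : i + 1 + j = i + (j + 1) := by omega
      rw [e] at h3
      exact h3

omit [CompactSpace X] [LocallyConnectedSpace X] [PreconnectedSpace X] in
private theorem zf_max {f : X → X} (hf : Continuous f) (D : ℕ → X → Set X) (n : ℕ) : ∀ (i : ℕ) (z : X) (C : Set X),
    IsPreconnected C → z ∈ C → (∀ x ∈ C, ∀ j ≤ n, f^[j] x ∈ D (i + j) (f^[j] z)) → C ⊆ zf_K f D n i z := by
  induction n with
  | zero =>
    intro i z C hC hz h x hx
    exact h x hx 0 le_rfl
  | succ n ih =>
    intro i z C hC hz h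
    have h1 : f '' C ⊆ zf_K f D n (i + 1) (f z) := by
      refine ih (i + 1) (f z) (f '' C) (hC.image f hf.continuousOn) (mem_image_of_mem f hz) ?_
      rintro _ ⟨x, hx, rfl⟩ j hj
      have h2 := h x hx (j + 1) (by omega)
      have e : i + 1 + j = i + (j + 1) := by omega
      rw [e]
      exact h2
    have h2 : C ⊆ gc f (zf_K f D n (i + 1) (f z)) z :=
      hC.subset_connectedComponentIn hz (image_subset_iff.1 h1)
    exact hC.subset_connectedComponentIn hz (subset_inter (fun x hx => h x hx 0 (Nat.zero_le _)) h2)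

private theorem zf_full {f : X → X} (hf : Continuous f) (ho : IsOpenMap f) {Z : Set X} {B : X → Set X}
    {D : ℕ → X → Set X} (hB : LocB f Z B) (hD : NestD Z B D) (n : ℕ) : ∀ (i : ℕ), ∀ z ∈ Z, Fc1 (zf_K f D n i z) z := by
  induction n with
  | zero =>
    intro i z hz
    exact hD.full i z hz
  | succ n ih =>
    intro i z hz
    have hfz := hB.mapZ hz
    have h1 := ih (i + 1) (f z) hfz
    have h2 : zf_K f D n (i + 1) (f z) ⊆ B (f z) := (zf_sub f D n (i + 1) (f z)).trans (hD.sub (i + 1) (f z) hfz)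
    have hG : Fc1 (gc f (zf_K f D n (i + 1) (f z)) z) z := gc_full hf ho hB hz h1 h2
    have hDz := hD.full i z hz
    obtain ⟨x, hx1, hx2⟩ := hB.out z hz
    have hxD : x ∉ D i z := fun h => hx1 (hD.sub i z hz h)
    have hxG : x ∉ gc f (zf_K f D n (i + 1) (f z)) z := fun h =>
      hx2 (connectedComponentIn_mono z (preimage_mono h2) h)
    exact full_comp (A := D i z ∩ gc f (zf_K f D n (i + 1) (f z)) z) ⟨hDz.mem, hG.mem⟩ (hDz.closed.inter hG.closed)
      (full_inter hDz.cpl hG.cpl hxD hxG) ⟨x, fun h => hxD h.1⟩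

omit [CompactSpace X] [LocallyConnectedSpace X] [PreconnectedSpace X] in
private theorem zf_rad {Z : Set X} (hZ : Z.Finite) {U : X → Set X} (hU : ∀ z ∈ Z, z ∈ interior (U z)) :
    ∃ r : ℝ, 0 < r ∧ ∀ z ∈ Z, ball z r ⊆ interior (U z) := by
  have h : ∀ᶠ r : ℝ in 𝓝[>] 0, ∀ z ∈ Z, ball z r ⊆ interior (U z) := by
    rw [Filter.eventually_all_finite hZ]
    intro z hz
    obtain ⟨ε, hε, hb⟩ := Metric.isOpen_iff.1 isOpen_interior z (hU z hz)
    have : ∀ᶠ r : ℝ in 𝓝[>] 0, r < ε := nhdsWithin_le_nhds (Iio_mem_nhds hε)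
    filter_upwards [this] with r hr
    exact (ball_subset_ball hr.le).trans hb
  obtain ⟨r, hr, hr0⟩ := (h.and self_mem_nhdsWithin).exists
  exact ⟨r, hr0, hr⟩

theorem exists_trK {f : X → X} (hf : Continuous f) (ho : IsOpenMap f) {Z : Set X} {B : X → Set X} {D : ℕ → X → Set X}
    (hB : LocB f Z B) (hD : NestD Z B D) {η : ℝ} (hη : 0 < η) (hd : ∀ z ∈ Z, diam (B z) < η)
    (hcontr : ∀ r : ℝ, 0 < r → ∃ m₀ : ℕ, ∀ n : ℕ, m₀ ≤ n → ∀ V : Set X, IsPreconnected V →
      diam (f^[n] '' V) < η → diam V < r) : ∃ K : X → Set X, TrK f Z B K η := by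
  have hbd : ∀ A : Set X, Bornology.IsBounded A := fun A => isCompact_univ.isBounded.subset (subset_univ A)
  have hit : ∀ (j : ℕ), ∀ z ∈ Z, f^[j] z ∈ Z := fun j z hz => hB.mapZ.iterate j hz
  obtain ⟨r, hr, hr2⟩ := zf_rad hB.finZ hD.int
  obtain ⟨m₀, hm⟩ := hcontr r hr
  refine ⟨zf_K f D m₀ 0, ?_, ?_, ?_, ?_⟩
  · exact fun z hz => zf_full hf ho hB hD m₀ 0 z hz
  · exact fun z hz => (zf_sub f D m₀ 0 z).trans (hD.sub 0 z hz)
  · exact fun z hz => lt_of_le_of_lt
      (diam_mono ((zf_sub f D m₀ 0 z).trans (hD.sub 0 z hz)) (hbd _)) (hd z hz)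
  · intro z hz
    have hfz := hB.mapZ hz
    set K' := gc f (zf_K f D m₀ 0 (f z)) z with hK'
    have hzK : f z ∈ zf_K f D m₀ 0 (f z) := (zf_full hf ho hB hD m₀ 0 (f z) hfz).mem
    have hz' : z ∈ K' := mem_connectedComponentIn hzK
    have hc : IsPreconnected K' := isPreconnected_connectedComponentIn
    have h1 : ∀ x ∈ K', ∀ j ≤ m₀, f^[j + 1] x ∈ D j (f^[j + 1] z) := by
      intro x hx j hj
      have h2 : x ∈ f ⁻¹' zf_K f D m₀ 0 (f z) := connectedComponentIn_subset _ _ hx
      have h3 := zf_mem f D m₀ 0 (f z) (f x) h2 j hj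
      rw [zero_add] at h3
      exact h3
    have h2 : f^[m₀ + 1] '' K' ⊆ B (f^[m₀ + 1] z) := by
      rintro _ ⟨x, hx, rfl⟩
      exact hD.sub m₀ _ (hit _ z hz) (h1 x hx m₀ le_rfl)
    have h3 : diam K' < r := hm (m₀ + 1) (Nat.le_succ _) K' hc
      (lt_of_le_of_lt (diam_mono h2 (hbd _)) (hd _ (hit _ z hz)))
    have h4 : K' ⊆ interior (D 0 z) := by
      intro x hx
      exact hr2 z hz (mem_ball.2 (lt_of_le_of_lt (dist_le_diam_of_mem (hbd _) hx hz') h3))
    set O : Set X := ⋂ j ∈ Finset.range (m₀ + 1), (f^[j]) ⁻¹' interior (D j (f^[j] z)) with hO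
    have hOo : IsOpen O := isOpen_biInter_finset fun j _ => isOpen_interior.preimage (hf.iterate j)
    have hOm : ∀ x ∈ O, ∀ j ≤ m₀, f^[j] x ∈ interior (D j (f^[j] z)) := by
      intro x hx j hj
      have := mem_iInter₂.1 hx j (Finset.mem_range.2 (Nat.lt_succ_of_le hj))
      exact this
    have h5 : K' ⊆ O := by
      intro x hx
      refine mem_iInter₂.2 fun j hj => ?_
      have hj' := Finset.mem_range.1 hj
      cases j with
      | zero => exact h4 hx
      | succ j =>
        have h6 := h1 x hx j (by omega)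
        exact hD.step j _ (hit _ z hz) h6
    have h6 : K' ⊆ connectedComponentIn O z := hc.subset_connectedComponentIn hz' h5
    have h7 : connectedComponentIn O z ⊆ zf_K f D m₀ 0 z := by
      refine zf_max hf D m₀ 0 z _ isPreconnected_connectedComponentIn (mem_connectedComponentIn (h5 hz')) ?_
      intro x hx j hj
      rw [zero_add]
      exact interior_subset (hOm x (connectedComponentIn_subset _ _ hx) j hj)
    exact h6.trans (interior_maximal h7 hOo.connectedComponentIn)

end Pool.ETM
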