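import Pool.Agent.ETM.ZE

/-!
ETM, MODULE ZG (difficulty 3): the sets `T n z` (4.2).

RECIPE.  `Tn_step` by induction: `n = 0` is `TrK.trap`; `T (n + 2) z = gc f (T (n + 1) (f z)) z ⊆ gc f (interior (T n (f z))) z`, which is open (component of an open set, `X` locally connected) and contained in `gc f (T n (f z)) z = T (n + 1) z`
(`connectedComponentIn_mono`).  So `T n z ⊆ K z ⊆ B z`; `Tn_full` by `gc_full`, `Tn_eq` by `gc_eq` (closed case), `Tn_img` from the definition (`connectedComponentIn_subset`).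
`Tn_small`: `f^[n] '' T n z ⊆ K (f^[n] z)` (induction from `Tn_img`), diameter `< η`; so `ZHyp.contr` applies (`K z` is bounded).
-/

open Set Metric Topology Filter

namespace Pool.ETM

variable {X : Type*} [MetricSpace X] [CompactSpace X] [LocallyConnectedSpace X] [PreconnectedSpace X]
  {f : X → X} {Z : Set X} {B K : X → Set X} {η : ℝ}

theorem Tn_step (h : ZHyp f Z B K η) (n : ℕ) {z : X} (hz : z ∈ Z) : Tn f K (n + 1) z ⊆ interior (Tn f K n z) := by
  induction n generalizing z with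
  | zero => exact h.trk.trap z hz
  | succ n ih =>
    have h1 : Tn f K (n + 1 + 1) z ⊆ gc f (interior (Tn f K n (f z))) z :=
      connectedComponentIn_mono z (preimage_mono (ih (h.loc.mapZ hz)))
    have h2 : IsOpen (gc f (interior (Tn f K n (f z))) z) :=
      (isOpen_interior.preimage h.cont).connectedComponentIn
    have h3 : gc f (interior (Tn f K n (f z))) z ⊆ Tn f K (n + 1) z :=
      connectedComponentIn_mono z (preimage_mono interior_subset)
    exact h1.trans (interior_maximal h3 h2)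

theorem Tn_full (h : ZHyp f Z B K η) (n : ℕ) {z : X} (hz : z ∈ Z) : Fc1 (Tn f K n z) z ∧ Tn f K n z ⊆ B z := by
  induction n generalizing z with
  | zero => exact ⟨h.trk.full z hz, h.trk.sub z hz⟩
  | succ n ih =>
    obtain ⟨h1, h2⟩ := ih (h.loc.mapZ hz)
    exact ⟨gc_full h.cont h.opn h.loc hz h1 h2, ((Tn_step h n hz).trans interior_subset).trans (ih hz).2⟩

theorem Tn_img (h : ZHyp f Z B K η) (n : ℕ) {z : X} (hz : z ∈ Z) : f '' Tn f K (n + 1) z ⊆ Tn f K n (f z) := by
  rintro _ ⟨x, hx, rfl⟩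
  exact connectedComponentIn_subset (f ⁻¹' Tn f K n (f z)) z hx

theorem Tn_eq (h : ZHyp f Z B K η) (n : ℕ) {z : X} (hz : z ∈ Z) :
    Tn f K (n + 1) z = gc f (B (f z)) z ∩ f ⁻¹' Tn f K n (f z) := by
  obtain ⟨h1, h2⟩ := Tn_full h n (h.loc.mapZ hz)
  exact gc_eq h.cont h.opn h.loc hz (Or.inl h1.closed) h1.conn h1.mem h2

theorem zg_iter (h : ZHyp f Z B K η) (n : ℕ) {z : X} (hz : z ∈ Z) :
    f^[n] '' Tn f K n z ⊆ K (f^[n] z) ∧ f^[n] z ∈ Z := by
  induction n generalizing z with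
  | zero =>
    refine ⟨?_, hz⟩
    rw [Function.iterate_zero, image_id]
    exact Subset.rfl
  | succ n ih =>
    obtain ⟨h1, h2⟩ := ih (h.loc.mapZ hz)
    rw [Function.iterate_succ, image_comp]
    exact ⟨(image_mono (Tn_img h n hz)).trans h1, h2⟩

theorem Tn_small (h : ZHyp f Z B K η) {r : ℝ} (hr : 0 < r) : ∃ N : ℕ, ∀ n : ℕ, N ≤ n → ∀ z ∈ Z, diam (Tn f K n z) < r := by
  obtain ⟨m₀, hm⟩ := h.contr r hr
  refine ⟨m₀, fun n hn z hz => ?_⟩
  obtain ⟨h1, h2⟩ := zg_iter h n hz
  exact hm n hn _ (Tn_full h n hz).1.conn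
    (lt_of_le_of_lt (diam_mono h1 isBounded_of_compactSpace) (h.trk.diam _ h2))

end Pool.ETM
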