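import Pool.Agent.ETM.ZG
import Pool.Agent.ETM.ZC

/-!
ETM, MODULE ZH (difficulty 3): the unions `TU n` of the sets `T n z`.

RECIPE.  `mem_TU_succ`: `→`: `Tn_img` and `T (n + 1) z ⊆ T 1 z` (iterate `Tn_step`).  `←`: `x ∈ T 1 z`, so `x ∈ gc f (B (f z)) z` and `f x ∈ K (f z) ⊆ B (f z)` (`Tn_eq`), `f x ∈ T n w ⊆ B w`; the `B`'s are disjoint so `w = f z`; `Tn_eq` again.
`TU_inter`: finitely many `z`, the sets `T n z` are decreasing, so one `z` works for all `n`; `diam (T n z) → 0` and `z ∈ T n z` give `x = z`.  `TU_compl`: `iUnion_full` (the `T n z` are disjoint because the `B z` are); nonempty: if `TU n = univ` then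
the disjoint open sets `B z` cover the preconnected `X`, so `X = B z` for one `z`, contradicting `LocB.out`; (`Z` empty: `Nonempty X`).
`TU_comp`: `T n z` is closed, preconnected, and `TU n = T n z ∪ ⋃_{w ≠ z} T n w` with the second set closed and disjoint: a preconnected subset of `TU n` meeting `T n z` is contained in it (`IsPreconnected.subset_left_of_subset_union`-type lemma for closed sets,
or with the disjoint open sets `B w`).
`TU_clop`: `f '' C` is preconnected in `⋃ K w ⊆ ⋃ B w` (disjoint open), so in one `B w`, hence in `K w`; a point of `C` is in `T 1 z`, so `w = f z`; `C` is preconnected, `C ⊆ f ⁻¹' K (f z)` and meets `gc f (K (f z)) z = T 1 z`.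
`TU_not`: `x ∈ T 1 z`, `f x ∈ Z ∩ B (f z)` gives `f x = f z` (disjointness), `x ∈ gc f (B (f z)) z`, so `x = z` by `LocB.one`.
-/

open Set Metric Topology Filter
open Pool.JS

namespace Pool.ETM

variable {X : Type*} [MetricSpace X] [CompactSpace X] [Sph X] [LocallyConnectedSpace X] [PreconnectedSpace X] [Nonempty X]
  {f : X → X} {Z : Set X} {B K : X → Set X} {η : ℝ}

private theorem zh_sub (h : ZHyp f Z B K η) {C : Set X} (hC : IsPreconnected C) (hCB : C ⊆ ⋃ w ∈ Z, B w) {z : X}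
    (hz : z ∈ Z) (hne : (C ∩ B z).Nonempty) : C ⊆ B z := by
  have hu' : IsOpen (⋃ w ∈ Z \ {z}, B w) := isOpen_biUnion (fun w hw => h.loc.opn w hw.1)
  refine IsPreconnected.subset_left_of_subset_union (h.loc.opn z hz) hu' ?_ ?_ hne hC
  · rw [Set.disjoint_left]
    intro y hy hy'
    rw [mem_iUnion₂] at hy'
    obtain ⟨w, ⟨hw, hwz⟩, hyw⟩ := hy'
    exact Set.disjoint_left.1 (h.loc.disj z hz w hw (fun hh => hwz hh.symm)) hy hyw
  · intro y hy
    have hy' := hCB hy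
    rw [mem_iUnion₂] at hy'
    obtain ⟨w, hw, hyw⟩ := hy'
    by_cases hwz : w = z
    · left
      rw [← hwz]
      exact hyw
    · right
      exact mem_iUnion₂.2 ⟨w, ⟨hw, hwz⟩, hyw⟩

private theorem zh_eq (h : ZHyp f Z B K η) {z w y : X} (hz : z ∈ Z) (hw : w ∈ Z) (h1 : y ∈ B z) (h2 : y ∈ B w) :
    z = w := by
  by_contra hne
  exact Set.disjoint_left.1 (h.loc.disj z hz w hw hne) h1 h2

private theorem zh_anti (h : ZHyp f Z B K η) {z : X} (hz : z ∈ Z) (k m : ℕ) : Tn f K (k + m) z ⊆ Tn f K k z := by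
  induction m with
  | zero => exact Subset.rfl
  | succ m ih => exact ((Tn_step h (k + m) hz).trans interior_subset).trans ih

private theorem zh_TUB (h : ZHyp f Z B K η) (n : ℕ) : TU f Z K n ⊆ ⋃ w ∈ Z, B w :=
  iUnion₂_mono (fun _ hz => (Tn_full h n hz).2)

private theorem zh_mem {n : ℕ} {y : X} : y ∈ TU f Z K n ↔ ∃ z ∈ Z, y ∈ Tn f K n z := by
  unfold TU
  rw [mem_iUnion₂]
  simp only [exists_prop]

theorem TU_closed (h : ZHyp f Z B K η) (n : ℕ) : IsClosed (TU f Z K n) :=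
  h.loc.finZ.isClosed_biUnion (fun _ hz => (Tn_full h n hz).1.closed)

theorem TU_succ (h : ZHyp f Z B K η) (n : ℕ) : TU f Z K (n + 1) ⊆ interior (TU f Z K n) := by
  intro x hx
  obtain ⟨z, hz, hxz⟩ := zh_mem.1 hx
  have h1 := Tn_step h n hz hxz
  exact interior_mono (fun y hy => zh_mem.2 ⟨z, hz, hy⟩) h1

theorem mem_TU_succ (h : ZHyp f Z B K η) (n : ℕ) (x : X) :
    x ∈ TU f Z K (n + 1) ↔ x ∈ TU f Z K 1 ∧ f x ∈ TU f Z K n := by
  constructor
  · intro hx
    obtain ⟨z, hz, hxz⟩ := zh_mem.1 hx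
    refine ⟨zh_mem.2 ⟨z, hz, ?_⟩, zh_mem.2 ⟨f z, h.loc.mapZ hz, Tn_img h n hz ⟨x, hxz, rfl⟩⟩⟩
    have := zh_anti h hz 1 n
    rw [add_comm] at this
    exact this hxz
  · rintro ⟨hx, hfx⟩
    obtain ⟨z, hz, hxz⟩ := zh_mem.1 hx
    obtain ⟨w, hw, hfw⟩ := zh_mem.1 hfx
    have hfz : f z ∈ Z := h.loc.mapZ hz
    have h1 : x ∈ Tn f K (0 + 1) z := hxz
    rw [Tn_eq h 0 hz] at h1
    have h2 : f x ∈ B (f z) := (Tn_full h 0 hfz).2 h1.2
    have h3 : f x ∈ B w := (Tn_full h n hw).2 hfw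
    have h4 : f z = w := zh_eq h hfz hw h2 h3
    rw [← h4] at hfw
    refine zh_mem.2 ⟨z, hz, ?_⟩
    rw [Tn_eq h n hz]
    exact ⟨h1.1, hfw⟩

theorem TU_inter (h : ZHyp f Z B K η) (x : X) : (∀ n, x ∈ TU f Z K n) ↔ x ∈ Z := by
  constructor
  · intro hx
    obtain ⟨z, hz, hxz⟩ := zh_mem.1 (hx 0)
    have hxB : x ∈ B z := (Tn_full h 0 hz).2 hxz
    have hall : ∀ n, x ∈ Tn f K n z := by
      intro n
      obtain ⟨w, hw, hxw⟩ := zh_mem.1 (hx n)
      have := zh_eq h hz hw hxB ((Tn_full h n hw).2 hxw)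
      rw [this]
      exact hxw
    have hxz' : x = z := by
      by_contra hne
      have hd : 0 < dist x z := dist_pos.2 hne
      obtain ⟨N, hN⟩ := Tn_small h hd
      have h1 := hN N le_rfl z hz
      have hb : Bornology.IsBounded (Tn f K N z) := (Tn_full h N hz).1.closed.isCompact.isBounded
      have h2 := dist_le_diam_of_mem hb (hall N) (Tn_full h N hz).1.mem
      linarith
    rw [hxz']
    exact hz
  · intro hx n
    exact zh_mem.2 ⟨x, hx, (Tn_full h n hx).1.mem⟩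

theorem TU_compl (h : ZHyp f Z B K η) (n : ℕ) : IsConnected (TU f Z K n)ᶜ := by
  refine ⟨?_, ?_⟩
  · rcases Z.eq_empty_or_nonempty with hZ | ⟨z, hz⟩
    · obtain ⟨x⟩ := ‹Nonempty X›
      refine ⟨x, fun hx => ?_⟩
      obtain ⟨z, hz, -⟩ := zh_mem.1 hx
      rw [hZ] at hz
      exact hz
    · by_contra hne
      rw [Set.not_nonempty_iff_eq_empty, compl_empty_iff] at hne
      have hcov : (univ : Set X) ⊆ ⋃ w ∈ Z, B w := by
        rw [← hne]
        exact zh_TUB h n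
      have hsub := zh_sub h isPreconnected_univ hcov hz ⟨z, mem_univ z, h.loc.mem z hz⟩
      obtain ⟨x, hx, -⟩ := h.loc.out z hz
      exact hx (hsub (mem_univ x))
  · refine iUnion_full h.loc.finZ (K := fun z => Tn f K n z) ?_ ?_ ?_
    · intro z hz
      exact (Tn_full h n hz).1.closed
    · intro z hz
      exact (Tn_full h n hz).1.cpl
    · intro z hz w hw hzw
      exact (h.loc.disj z hz w hw hzw).mono (Tn_full h n hz).2 (Tn_full h n hw).2

theorem TU_comp (h : ZHyp f Z B K η) (n : ℕ) {z : X} (hz : z ∈ Z) :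
    connectedComponentIn (TU f Z K n) z = Tn f K n z := by
  have hzT : z ∈ TU f Z K n := zh_mem.2 ⟨z, hz, (Tn_full h n hz).1.mem⟩
  apply Subset.antisymm
  · have hC : IsPreconnected (connectedComponentIn (TU f Z K n) z) := isPreconnected_connectedComponentIn
    have hCT : connectedComponentIn (TU f Z K n) z ⊆ TU f Z K n := connectedComponentIn_subset _ _
    have hCB := zh_sub h hC (hCT.trans (zh_TUB h n)) hz ⟨z, mem_connectedComponentIn hzT, h.loc.mem z hz⟩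
    intro y hy
    obtain ⟨w, hw, hyw⟩ := zh_mem.1 (hCT hy)
    have := zh_eq h hz hw (hCB hy) ((Tn_full h n hw).2 hyw)
    rw [this]
    exact hyw
  · exact (Tn_full h n hz).1.conn.subset_connectedComponentIn (Tn_full h n hz).1.mem
      (fun y hy => zh_mem.2 ⟨z, hz, hy⟩)

theorem TU_clop (h : ZHyp f Z B K η) {C : Set X} (hC : IsPreconnected C) (h1 : (C ∩ TU f Z K 1).Nonempty)
    (h0 : f '' C ⊆ TU f Z K 0) : C ⊆ TU f Z K 1 := by
  obtain ⟨x, hxC, hx1⟩ := h1
  obtain ⟨z, hz, hxz⟩ := zh_mem.1 hx1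
  have hfz : f z ∈ Z := h.loc.mapZ hz
  have hfx : f x ∈ Tn f K 0 (f z) := Tn_img h 0 hz ⟨x, hxz, rfl⟩
  have hfC : IsPreconnected (f '' C) := hC.image f h.cont.continuousOn
  have hsub := zh_sub h hfC (h0.trans (zh_TUB h 0)) hfz ⟨f x, ⟨x, hxC, rfl⟩, (Tn_full h 0 hfz).2 hfx⟩
  have hCK : C ⊆ f ⁻¹' Tn f K 0 (f z) := by
    intro y hy
    obtain ⟨w, hw, hyw⟩ := zh_mem.1 (h0 ⟨y, hy, rfl⟩)
    have := zh_eq h hfz hw (hsub ⟨y, hy, rfl⟩) ((Tn_full h 0 hw).2 hyw)
    change f y ∈ Tn f K 0 (f z)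
    rw [this]
    exact hyw
  have hcomp : C ⊆ connectedComponentIn (f ⁻¹' Tn f K 0 (f z)) x := hC.subset_connectedComponentIn hxC hCK
  have hxz2 : x ∈ connectedComponentIn (f ⁻¹' Tn f K 0 (f z)) z := hxz
  rw [← connectedComponentIn_eq hxz2] at hcomp
  intro y hy
  exact zh_mem.2 ⟨z, hz, hcomp hy⟩

theorem TU_not (h : ZHyp f Z B K η) {x : X} (hx : x ∉ Z) (h1 : x ∈ TU f Z K 1) : f x ∉ Z := by
  intro hfx
  obtain ⟨z, hz, hxz⟩ := zh_mem.1 h1
  have hfz : f z ∈ Z := h.loc.mapZ hz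
  have h2 : x ∈ Tn f K (0 + 1) z := hxz
  rw [Tn_eq h 0 hz] at h2
  have h3 : f x ∈ B (f z) := (Tn_full h 0 hfz).2 h2.2
  have h4 : f x = f z := zh_eq h hfx hfz (h.loc.mem _ hfx) h3
  have h5 := h.loc.one z hz x h2.1 h4
  rw [h5] at hx
  exact hx hz

end Pool.ETM
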