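import Pool.Agent.ETM.ZH

/-!
ETM, MODULE ZI (difficulty 3): the summands of the depth function (4.3).

`u x = infDist x (interior (TU 0))ᶜ`, `v x = infDist x (TU 1)`, `de0 = u / (u + v)`.
-/

open Set Metric Topology Filter
open Pool.JS

namespace Pool.ETM

variable {X : Type*} [MetricSpace X] [CompactSpace X] [Sph X] [LocallyConnectedSpace X] [PreconnectedSpace X] [Nonempty X]
  {f : X → X} {Z : Set X} {B K : X → Set X} {η : ℝ}

theorem de0_prop (h : ZHyp f Z B K η) : Continuous (de0 f Z K) ∧ ∀ x, 0 ≤ de0 f Z K x ∧ de0 f Z K x ≤ 1 ∧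
    (de0 f Z K x = 1 ↔ x ∈ TU f Z K 1) ∧ (de0 f Z K x = 0 ↔ x ∉ interior (TU f Z K 0)) := by
  rcases Z.eq_empty_or_nonempty with hZ | ⟨z, hz⟩
  · have hT : ∀ n, TU f Z K n = ∅ := by
      intro n
      unfold TU
      rw [hZ]
      simp
    have hd : de0 f Z K = fun _ => 0 := by
      funext x
      unfold de0
      rw [hT 0, hT 1]
      have h0 : infDist x (interior (∅ : Set X))ᶜ = 0 := by
        rw [interior_empty, compl_empty]
        exact infDist_zero_of_mem (mem_univ x)
      rw [h0, zero_div]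
    rw [hd]
    refine ⟨continuous_const, fun x => ⟨le_refl _, zero_le_one, ?_, ?_⟩⟩
    · rw [hT 1]
      simp
    · rw [hT 0]
      simp
  · have hAc : IsClosed (interior (TU f Z K 0))ᶜ := isOpen_interior.isClosed_compl
    have hAn : ((interior (TU f Z K 0))ᶜ).Nonempty :=
      (TU_compl h 0).nonempty.mono (compl_subset_compl.mpr interior_subset)
    have hTc : IsClosed (TU f Z K 1) := TU_closed h 1
    have hTn : (TU f Z K 1).Nonempty := ⟨z, (TU_inter h z).mpr hz 1⟩
    have hu : ∀ x, infDist x (interior (TU f Z K 0))ᶜ = 0 ↔ x ∈ (interior (TU f Z K 0))ᶜ := fun x =>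
      (hAc.mem_iff_infDist_zero hAn).symm
    have hv : ∀ x, infDist x (TU f Z K 1) = 0 ↔ x ∈ TU f Z K 1 := fun x =>
      (hTc.mem_iff_infDist_zero hTn).symm
    have hsub : TU f Z K 1 ⊆ interior (TU f Z K 0) := TU_succ h 0
    have hpos : ∀ x, 0 < infDist x (interior (TU f Z K 0))ᶜ + infDist x (TU f Z K 1) := by
      intro x
      have h1 : 0 ≤ infDist x (interior (TU f Z K 0))ᶜ := infDist_nonneg
      have h2 : 0 ≤ infDist x (TU f Z K 1) := infDist_nonneg
      rcases h1.eq_or_lt with h3 | h3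
      · rcases h2.eq_or_lt with h4 | h4
        · exact absurd (hsub ((hv x).mp h4.symm)) ((hu x).mp h3.symm)
        · linarith
      · linarith
    refine ⟨?_, fun x => ⟨?_, ?_, ?_, ?_⟩⟩
    · exact (continuous_infDist_pt _).div ((continuous_infDist_pt _).add (continuous_infDist_pt _)) fun x => (hpos x).ne'
    · exact div_nonneg infDist_nonneg (hpos x).le
    · exact (div_le_one (hpos x)).mpr (by linarith [@infDist_nonneg _ _ (TU f Z K 1) x])
    · rw [← hv x]
      unfold de0
      rw [div_eq_one_iff_eq (hpos x).ne']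
      constructor
      · intro h1
        linarith
      · intro h1
        rw [h1, add_zero]
    · have h1 := hu x
      rw [mem_compl_iff] at h1
      rw [← h1]
      unfold de0
      rw [div_eq_zero_iff]
      constructor
      · rintro (h2 | h2)
        · exact h2
        · exact absurd h2 (hpos x).ne'
      · intro h2
        exact Or.inl h2

/-- `hj j` vanishes outside `TU 0` -/
theorem zi_supp0 (h : ZHyp f Z B K η) (j : ℕ) {x : X} (hx : x ∉ TU f Z K 0) : hj f Z K j x = 0 := by
  cases j with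
  | zero => exact (((de0_prop h).2 x).2.2.2).mpr fun hi => hx (interior_subset hi)
  | succ j =>
    have h1 : x ∉ TU f Z K 1 := fun h1 => hx (interior_subset (TU_succ h 0 h1))
    simp only [hj, if_neg h1]

theorem zi_mem_B (h : ZHyp f Z B K η) {n : ℕ} {x : X} (hx : x ∈ TU f Z K n) {w : X} (hw : w ∈ Z) (hxw : x ∈ B w) :
    x ∈ Tn f K n w := by
  obtain ⟨v, hv, hxv⟩ := mem_iUnion₂.mp hx
  by_cases hvw : v = w
  · rw [← hvw]
    exact hxv
  · exact absurd hxw (Set.disjoint_left.mp (h.loc.disj v hv w hw hvw) ((Tn_full h n hv).2 hxv))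

theorem hj_cont (h : ZHyp f Z B K η) (j : ℕ) : Continuous (hj f Z K j) := by
  induction j with
  | zero => exact (de0_prop h).1
  | succ j ih =>
    rw [continuous_iff_continuousAt]
    intro x
    by_cases hx : x ∈ TU f Z K 1
    · obtain ⟨z, hz, hxz⟩ := mem_iUnion₂.mp hx
      have hfz : f z ∈ Z := h.loc.mapZ hz
      have hzB : z ∈ f ⁻¹' B (f z) := h.loc.mem (f z) hfz
      -- the neighbourhood
      have hWo : IsOpen (gc f (B (f z)) z) := ((h.loc.opn _ hfz).preimage h.cont).connectedComponentIn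
      have hxW : x ∈ gc f (B (f z)) z := by
        have h1 : x ∈ Tn f K (0 + 1) z := hxz
        rw [Tn_eq h 0 hz] at h1
        exact h1.1
      have hNo : IsOpen (⋂ w ∈ Z \ {z}, (Tn f K 1 w)ᶜ) := by
        refine (h.loc.finZ.subset sdiff_subset).isOpen_biInter fun w hw => ?_
        exact (Tn_full h 1 hw.1).1.closed.isOpen_compl
      have hxN : x ∈ ⋂ w ∈ Z \ {z}, (Tn f K 1 w)ᶜ := by
        refine mem_iInter₂.mpr fun w hw hxw => ?_
        exact Set.disjoint_left.mp (h.loc.disj w hw.1 z hz hw.2) ((Tn_full h 1 hw.1).2 hxw) ((Tn_full h 1 hz).2 hxz)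
      have hev : hj f Z K (j + 1) =ᶠ[𝓝 x] fun y => hj f Z K j (f y) := by
        filter_upwards [hWo.mem_nhds hxW, hNo.mem_nhds hxN] with y hyW hyN
        by_cases hy : y ∈ TU f Z K 1
        · simp only [hj, if_pos hy]
        · have hyK : f y ∉ Tn f K 0 (f z) := by
            intro hyK
            apply hy
            refine mem_iUnion₂.mpr ⟨z, hz, ?_⟩
            have : y ∈ Tn f K (0 + 1) z := by
              rw [Tn_eq h 0 hz]
              exact ⟨hyW, hyK⟩
            exact this
          have hyB : y ∈ f ⁻¹' B (f z) := connectedComponentIn_subset _ _ hyW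
          have hy0 : f y ∉ TU f Z K 0 := fun h0 => hyK (zi_mem_B h h0 hfz hyB)
          rw [zi_supp0 h j hy0]
          simp only [hj, if_neg hy]
      exact (ih.comp h.cont).continuousAt.congr hev.symm
    · have hev : hj f Z K (j + 1) =ᶠ[𝓝 x] fun _ => 0 := by
        filter_upwards [(TU_closed h 1).isOpen_compl.mem_nhds hx] with y hy
        simp only [hj, if_neg hy]
      exact continuousAt_const.congr hev.symm

theorem hj_mem (h : ZHyp f Z B K η) (j : ℕ) (x : X) : 0 ≤ hj f Z K j x ∧ hj f Z K j x ≤ 1 := by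
  induction j generalizing x with
  | zero => exact ⟨((de0_prop h).2 x).1, ((de0_prop h).2 x).2.1⟩
  | succ j ih =>
    by_cases hx : x ∈ TU f Z K 1
    · simp only [hj, if_pos hx]
      exact ih (f x)
    · simp only [hj, if_neg hx]
      exact ⟨le_refl _, zero_le_one⟩

theorem hj_supp (h : ZHyp f Z B K η) (j : ℕ) {x : X} (hx : x ∉ TU f Z K j) : hj f Z K j x = 0 := by
  induction j generalizing x with
  | zero => exact zi_supp0 h 0 hx
  | succ j ih =>
    by_cases hx1 : x ∈ TU f Z K 1
    · simp only [hj, if_pos hx1]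
      refine ih fun h1 => hx ?_
      exact (mem_TU_succ h j x).mpr ⟨hx1, h1⟩
    · simp only [hj, if_neg hx1]

theorem hj_one (h : ZHyp f Z B K η) (j : ℕ) {x : X} (hx : x ∈ TU f Z K (j + 1)) : hj f Z K j x = 1 := by
  induction j generalizing x with
  | zero => exact (((de0_prop h).2 x).2.2.1).mpr hx
  | succ j ih =>
    obtain ⟨hx1, hx2⟩ := (mem_TU_succ h (j + 1) x).mp hx
    simp only [hj, if_pos hx1]
    exact ih hx2

theorem hj_lt_one (h : ZHyp f Z B K η) (j : ℕ) {x : X} (hx : x ∉ TU f Z K (j + 1)) : hj f Z K j x < 1 := by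
  induction j generalizing x with
  | zero => exact lt_of_le_of_ne ((de0_prop h).2 x).2.1 fun h1 => hx ((((de0_prop h).2 x).2.2.1).mp h1)
  | succ j ih =>
    by_cases hx1 : x ∈ TU f Z K 1
    · simp only [hj, if_pos hx1]
      refine ih fun h1 => hx ?_
      exact (mem_TU_succ h (j + 1) x).mpr ⟨hx1, h1⟩
    · simp only [hj, if_neg hx1]
      exact zero_lt_one

end Pool.ETM
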