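import Pool.Agent.ETM.ZI

/-!
ETM, MODULE ZJ (difficulty 3): the depth function (4.3).

RECIPE.  `TU` is decreasing (`TU_succ`).  `dep_eq`: the summands with index `j ≥ k` vanish if `x ∉ TU k` (`hj_supp`), so the sum over `range n` is the same for every `n` with `x ∉ TU n` (compare with `Nat.find`).
`dep_eq'`: if `x ∈ TU n`, `x ∉ TU (n + 1)`: the first `n` summands are `1` (`hj_one`), so `dep x = n + hj n x`, `0 ≤ hj n x < 1` (`hj_lt_one`).
For `x ∉ Z` there is `n` with `x ∉ TU n` (`TU_inter`); either `x ∉ TU 0`, then `dep x = 0`, or there is a last `n` with `x ∈ TU n`.  `le_dep_iff` (`n ≥ 1`) follows.  `dep_pos`: `0 < dep x ↔ x ∈ interior (TU 0)`: if `x ∉ TU 1` then `dep x = hj 0 x = de0 x` (also for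
`x ∉ TU 0`), if `x ∈ TU 1` both sides hold.
`dep_step`: `1 ≤ dep x` gives `x ∈ TU 1`, `x ∈ TU n`, `x ∉ TU (n + 1)`, `n ≥ 1`; `mem_TU_succ`: `f x ∈ TU (n - 1)`, `f x ∉ TU n`, `hj n x = hj (n - 1) (f x)`; `f x ∉ Z` by `TU_not`.
`dep_cont`: near `x ∉ Z` choose `n` with `x ∉ TU n` (closed): on the open set `(TU n)ᶜ` the function `dep` is the finite sum of continuous functions.
`dep_open`: `Z ∪ {t < dep}`: near `z ∈ Z` the set `interior (TU n)` with `n ≥ 1`, `n > t` is contained in it (`TU (n+1) ⊆ interior (TU n)`, `z ∈ TU (n + 1)`; a point of `TU n` outside `Z` has `dep ≥ n > t`); at other points `dep_cont` (`Zᶜ` is open, `Z` finite).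
-/

open Set Metric Topology Filter
open Pool.JS

namespace Pool.ETM

variable {X : Type*} [MetricSpace X] [CompactSpace X] [Sph X] [LocallyConnectedSpace X] [PreconnectedSpace X] [Nonempty X]
  {f : X → X} {Z : Set X} {B K : X → Set X} {η : ℝ}

theorem zj_anti (h : ZHyp f Z B K η) {m n : ℕ} (hmn : m ≤ n) : TU f Z K n ⊆ TU f Z K m := by
  induction n, hmn using Nat.le_induction with
  | base => exact Subset.rfl
  | succ n _ ih => exact ((TU_succ h n).trans interior_subset).trans ih

theorem dep_eq (h : ZHyp f Z B K η) {x : X} {n : ℕ} (hx : x ∉ TU f Z K n) :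
    dep f Z K x = ∑ j ∈ Finset.range n, hj f Z K j x := by
  classical
  have hex : ∃ n, x ∉ TU f Z K n := ⟨n, hx⟩
  unfold dep
  rw [dif_pos hex]
  have hk := Nat.find_spec hex
  have hkn := Nat.find_min' hex hx
  refine Finset.sum_subset ?_ ?_
  · intro j hj
    rw [Finset.mem_range] at hj ⊢
    exact lt_of_lt_of_le hj hkn
  · intro j hj hj'
    rw [Finset.mem_range, not_lt] at hj'
    exact hj_supp h j fun hc => hk (zj_anti h hj' hc)

theorem dep_nonneg (h : ZHyp f Z B K η) (x : X) : 0 ≤ dep f Z K x := by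
  by_cases hex : ∃ n, x ∉ TU f Z K n
  · obtain ⟨n, hn⟩ := hex
    rw [dep_eq h hn]
    exact Finset.sum_nonneg fun j _ => (hj_mem h j x).1
  · unfold dep
    rw [dif_neg hex]

theorem zj_zero (h : ZHyp f Z B K η) {x : X} (hx : x ∉ TU f Z K 0) : dep f Z K x = 0 := by
  rw [dep_eq h hx, Finset.range_zero, Finset.sum_empty]

theorem zj_eq (h : ZHyp f Z B K η) {x : X} {n : ℕ} (hx : x ∈ TU f Z K n) (hx' : x ∉ TU f Z K (n + 1)) :
    dep f Z K x = n + hj f Z K n x := by
  rw [dep_eq h hx', Finset.sum_range_succ]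
  congr 1
  have e : ∀ j ∈ Finset.range n, hj f Z K j x = 1 := by
    intro j hj
    rw [Finset.mem_range] at hj
    exact hj_one h j (zj_anti h hj hx)
  rw [Finset.sum_congr rfl e, Finset.sum_const, Finset.card_range, nsmul_eq_mul, mul_one]

theorem zj_last (h : ZHyp f Z B K η) {x : X} (hx : x ∉ Z) :
    x ∉ TU f Z K 0 ∨ ∃ n, x ∈ TU f Z K n ∧ x ∉ TU f Z K (n + 1) := by
  classical
  have hex : ∃ n, x ∉ TU f Z K n := by
    by_contra hcon
    push Not at hcon
    exact hx ((TU_inter h x).1 hcon)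
  have hk := Nat.find_spec hex
  rcases hN : Nat.find hex with _ | k
  · rw [hN] at hk
    exact Or.inl hk
  · rw [hN] at hk
    refine Or.inr ⟨k, ?_, hk⟩
    by_contra hc
    have := Nat.find_min' hex hc
    omega

theorem le_dep_iff (h : ZHyp f Z B K η) {x : X} (hx : x ∉ Z) {n : ℕ} (hn : 1 ≤ n) :
    (n : ℝ) ≤ dep f Z K x ↔ x ∈ TU f Z K n := by
  rcases zj_last h hx with h0 | ⟨k, hk, hk'⟩
  · rw [zj_zero h h0]
    constructor
    · intro hc
      have : (1 : ℝ) ≤ n := by exact_mod_cast hn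
      linarith
    · intro hc
      exact absurd (zj_anti h (Nat.zero_le n) hc) h0
  · rw [zj_eq h hk hk']
    have h1 := (hj_mem h k x).1
    have h2 := hj_lt_one h k hk'
    constructor
    · intro hc
      have h3 : (n : ℝ) < ((k + 1 : ℕ) : ℝ) := by push_cast; linarith
      have h4 : n < k + 1 := by exact_mod_cast h3
      exact zj_anti h (Nat.lt_succ_iff.1 h4) hk
    · intro hc
      have h4 : n ≤ k := by
        by_contra hlt
        push Not at hlt
        exact hk' (zj_anti h hlt hc)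
      have h5 : (n : ℝ) ≤ k := by exact_mod_cast h4
      linarith

theorem dep_pos (h : ZHyp f Z B K η) {x : X} (hx : x ∉ Z) : 0 < dep f Z K x ↔ x ∈ interior (TU f Z K 0) := by
  by_cases h1 : x ∈ TU f Z K 1
  · have h2 := (le_dep_iff h hx (le_refl 1)).2 h1
    push_cast at h2
    exact ⟨fun _ => TU_succ h 0 h1, fun _ => by linarith⟩
  · have e : dep f Z K x = de0 f Z K x := by
      rw [dep_eq h h1, Finset.sum_range_one]
      rfl
    rw [e]
    obtain ⟨a1, a2, a3, a4⟩ := (de0_prop h).2 x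
    constructor
    · intro hp
      by_contra hc
      exact hp.ne' (a4.2 hc)
    · intro hc
      rcases a1.lt_or_eq with hp | hp
      · exact hp
      · exact absurd hc (a4.1 hp.symm)

theorem dep_step (h : ZHyp f Z B K η) {x : X} (hx : x ∉ Z) (h1 : 1 ≤ dep f Z K x) :
    f x ∉ Z ∧ dep f Z K (f x) = dep f Z K x - 1 := by
  have hx1 : x ∈ TU f Z K 1 := (le_dep_iff h hx (le_refl 1)).1 (by push_cast; exact h1)
  refine ⟨TU_not h hx hx1, ?_⟩
  rcases zj_last h hx with h0 | ⟨k, hk, hk'⟩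
  · exact absurd (zj_anti h (Nat.zero_le 1) hx1) h0
  · rcases k with _ | k
    · exact absurd hx1 hk'
    · have a1 := ((mem_TU_succ h k x).1 hk).2
      have a2 : f x ∉ TU f Z K (k + 1) := fun hc => hk' ((mem_TU_succ h (k + 1) x).2 ⟨hx1, hc⟩)
      have e : hj f Z K (k + 1) x = hj f Z K k (f x) := by
        rw [hj, if_pos hx1]
      rw [zj_eq h hk hk', zj_eq h a1 a2, e]
      push_cast
      ring

theorem zj_contAt (h : ZHyp f Z B K η) {x : X} (hx : x ∉ Z) : ContinuousAt (dep f Z K) x := by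
  have hex : ∃ n, x ∉ TU f Z K n := by
    by_contra hcon
    push Not at hcon
    exact hx ((TU_inter h x).1 hcon)
  obtain ⟨n, hn⟩ := hex
  have h1 : ContinuousAt (fun y => ∑ j ∈ Finset.range n, hj f Z K j y) x :=
    (continuous_finsetSum _ fun j _ => hj_cont h j).continuousAt
  refine h1.congr ?_
  filter_upwards [(TU_closed h n).isOpen_compl.mem_nhds hn] with y hy
  exact (dep_eq h hy).symm

theorem dep_cont (h : ZHyp f Z B K η) : ContinuousOn (dep f Z K) Zᶜ :=
  fun _ hx => (zj_contAt h hx).continuousWithinAt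

theorem dep_open (h : ZHyp f Z B K η) (t : ℝ) : IsOpen (Z ∪ {x | t < dep f Z K x}) := by
  rw [isOpen_iff_mem_nhds]
  intro x hx
  by_cases hxZ : x ∈ Z
  · obtain ⟨n, hn⟩ := exists_nat_gt t
    have h1 : x ∈ interior (TU f Z K (n + 1)) := TU_succ h (n + 1) ((TU_inter h x).2 hxZ (n + 1 + 1))
    refine Filter.mem_of_superset (isOpen_interior.mem_nhds h1) ?_
    intro y hy
    by_cases hyZ : y ∈ Z
    · exact Or.inl hyZ
    · right
      have h2 := (le_dep_iff h hyZ (Nat.le_add_left 1 n)).2 (interior_subset hy)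
      push_cast at h2
      change t < dep f Z K y
      linarith
  · have h2 : t < dep f Z K x := hx.resolve_left hxZ
    have h3 := (zj_contAt h hxZ).eventually (lt_mem_nhds h2)
    filter_upwards [h3] with y hy
    exact Or.inr hy

end Pool.ETM
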